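import Pool.Agent.P.MP_2ff09b_gt.Triv

/-! CVX-A1. Cauchy estimates, limits and derivatives of holomorphic maps of several variables.
Sketch. The first two bounds are the Schwarz lemma of Mathlib (norm_fderiv_le_div_of_mapsTo_ball,
dist_le_div_mul_dist_of_mapsTo_ball) with R2 = 2 M. Taylor: restrict to the line g(t) = f(z + t v),
use dslope g 0 (bounded by 2M/rho by norm_dslope_le_div_of_mapsTo_ball, holomorphic by
differentiableOn_dslope) and Schwarz again. Limits: on a compact ball the convergence is uniform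
(tendstoLocallyUniformlyOn_iff_forall_isCompact), the derivatives are uniformly Cauchy on the half
ball by the first bound applied to f i - f j, then hasFDerivAt_of_tendstoLocallyUniformlyOn or
hasFDerivAt_of_tendstoUniformlyOnFilter. Derivative: for fixed v the difference quotients
(f (z + t v) - f z) / t converge locally uniformly to fderiv f z v by the Taylor bound; then
differentiableOn_clm_apply. Smoothness: induction on k with
contDiffOn_succ_iff_fderiv_of_isOpen, generalizing the target space (same universe trick or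
iteratedFDeriv; if universes bite, prove it first for F in a lifted universe, see
ContDiffOn proofs in Mathlib that use ULift, or use contDiffOn_clm_apply to stay in F). -/

open Set MeasureTheory Complex Filter Topology Metric

noncomputable section

namespace Pool.Agent.P.MP_2ff09b_gt

variable {E : Type*} [NormedAddCommGroup E] [NormedSpace ℂ E] [FiniteDimensional ℂ E] {D : Set E}

variable {F : Type*} [NormedAddCommGroup F] [NormedSpace ℂ F] [CompleteSpace F]


omit [NormedSpace ℂ E] [FiniteDimensional ℂ E] [NormedSpace ℂ F] [CompleteSpace F] in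
theorem A1_maps {f : E → F} {z : E} {r M : ℝ} (hr : 0 < r) (hM : ∀ w ∈ ball z r, ‖f w‖ ≤ M) :
    MapsTo f (ball z r) (closedBall (f z) (2 * M)) := fun w hw => by
  rw [mem_closedBall, dist_eq_norm]
  have h1 := norm_sub_le (f w) (f z)
  have h2 := hM w hw
  have h3 := hM z (mem_ball_self hr)
  linarith

omit [FiniteDimensional ℂ E] [CompleteSpace F] in
theorem norm_fderiv_le_of_bound {f : E → F} {z : E} {r M : ℝ} (hr : 0 < r)
    (hf : DifferentiableOn ℂ f (ball z r)) (hM : ∀ w ∈ ball z r, ‖f w‖ ≤ M) :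
    ‖fderiv ℂ f z‖ ≤ 2 * M / r :=
  norm_fderiv_le_div_of_mapsTo_ball hf (A1_maps hr hM) hr

omit [FiniteDimensional ℂ E] [CompleteSpace F] in
theorem norm_sub_le_of_bound {f : E → F} {z w : E} {r M : ℝ}
    (hf : DifferentiableOn ℂ f (ball z r)) (hM : ∀ w ∈ ball z r, ‖f w‖ ≤ M) (hw : w ∈ ball z r) :
    ‖f w - f z‖ ≤ 2 * M / r * ‖w - z‖ := by
  have hr : 0 < r := nonempty_ball.1 ⟨w, hw⟩
  simpa only [dist_eq_norm] using dist_le_div_mul_dist_of_mapsTo_ball hf (A1_maps hr hM) hw

omit [FiniteDimensional ℂ E] in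
theorem taylor_le_of_bound {f : E → F} {z w : E} {r M : ℝ}
    (hf : DifferentiableOn ℂ f (ball z r)) (hM : ∀ w ∈ ball z r, ‖f w‖ ≤ M) (hw : w ∈ ball z r) :
    ‖f w - f z - fderiv ℂ f z (w - z)‖ ≤ 4 * M / r ^ 2 * ‖w - z‖ ^ 2 := by
  have hr : 0 < r := nonempty_ball.1 ⟨w, hw⟩
  have hM0 : 0 ≤ M := (norm_nonneg _).trans (hM w hw)
  have hL := norm_fderiv_le_of_bound hr hf hM
  let g : E → F := fun u => f u - fderiv ℂ f z (u - z)
  have hgz : g z = f z := by simp [g]
  have e : ∀ u, g u - g z = f u - f z - fderiv ℂ f z (u - z) := fun u => by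
    rw [hgz]
    simp only [g]
    abel
  have hg : DifferentiableOn ℂ g (ball z r) := hf.sub (by fun_prop)
  have hmaps : MapsTo g (ball z r) (closedBall (g z) (4 * M)) := fun u hu => by
    rw [mem_closedBall, dist_eq_norm, e]
    have h1 := norm_sub_le (f u - f z) (fderiv ℂ f z (u - z))
    have h2 := A1_maps hr hM hu
    rw [mem_closedBall, dist_eq_norm] at h2
    have h3 : ‖u - z‖ ≤ r := by
      rw [mem_ball, dist_eq_norm] at hu
      exact hu.le
    have h4 : ‖fderiv ℂ f z (u - z)‖ ≤ 2 * M / r * r :=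
      ((fderiv ℂ f z).le_opNorm _).trans (mul_le_mul hL h3 (norm_nonneg _) (by positivity))
    rw [div_mul_cancel₀ _ hr.ne'] at h4
    linarith
  have hd : HasFDerivAt f (fderiv ℂ f z) z :=
    (hf.differentiableAt (ball_mem_nhds z hr)).hasFDerivAt
  have ho : (fun u => g u - g z) =o[𝓝 z] fun u => ‖u - z‖ ^ 1 := by
    simp only [e, pow_one]
    exact hd.isLittleO.norm_right
  have := dist_le_mul_div_pow_of_mapsTo_ball_of_isLittleO (n := 1) hg hmaps ho hw
  rw [dist_eq_norm, dist_eq_norm, e] at this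
  refine this.trans_eq ?_
  rw [div_pow]
  ring

omit [FiniteDimensional ℂ E] in
theorem A1_local {ι : Type*} {l : Filter ι} [l.NeBot] {x : E} {r : ℝ} (hr : 0 < r)
    {f : ι → E → F} {g : E → F} (hf : ∀ᶠ i in l, DifferentiableOn ℂ (f i) (ball x (2 * r)))
    (h : TendstoUniformlyOn f g l (ball x (2 * r))) :
    (∀ y ∈ ball x r, DifferentiableAt ℂ g y) ∧
      TendstoUniformlyOn (fun i => fderiv ℂ (f i)) (fderiv ℂ g) l (ball x r) := by
  have hsub : ∀ y ∈ ball x r, ball y r ⊆ ball x (2 * r) := fun y hy =>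
    ball_subset_ball' (by rw [mem_ball] at hy; linarith)
  have hC : UniformCauchySeqOn (fun i => fderiv ℂ (f i)) l (ball x r) := by
    intro u hu
    obtain ⟨ε, hε, hu'⟩ := Metric.mem_uniformity_dist.1 hu
    have h1 := Metric.tendstoUniformlyOn_iff.1 h (ε * r / 8) (by positivity)
    filter_upwards [(hf.and h1).prod_mk (hf.and h1)] with m ⟨⟨a1, a2⟩, ⟨b1, b2⟩⟩ y hy
    refine hu' ?_
    have d1 := a1.mono (hsub y hy)
    have d2 := b1.mono (hsub y hy)
    have h2 := norm_fderiv_le_of_bound (M := ε * r / 4) hr (d1.sub d2) fun w hw => by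
      have c1 := a2 w (hsub y hy hw)
      have c2 := b2 w (hsub y hy hw)
      have c3 := dist_triangle_left (f m.1 w) (f m.2 w) (g w)
      rw [Pi.sub_apply, ← dist_eq_norm]
      linarith
    rw [fderiv_sub (d1.differentiableAt (ball_mem_nhds y hr))
      (d2.differentiableAt (ball_mem_nhds y hr))] at h2
    rw [dist_eq_norm]
    refine h2.trans_lt ?_
    rw [div_lt_iff₀ hr]
    nlinarith [mul_pos hε hr]
  have hlim : ∀ y ∈ ball x r, ∃ L : E →L[ℂ] F, Tendsto (fun i => fderiv ℂ (f i) y) l (𝓝 L) :=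
    fun y hy => cauchy_map_iff_exists_tendsto.1 (hC.cauchy_map hy)
  choose! g' hg' using hlim
  have hU := hC.tendstoUniformlyOn_of_tendsto hg'
  have hd : ∀ y ∈ ball x r, HasFDerivAt g (g' y) y := by
    intro y hy
    have hn : ball x r ∈ 𝓝 y := isOpen_ball.mem_nhds hy
    refine hasFDerivAt_of_tendstoUniformlyOnFilter (l := l) (f := f)
      (f' := fun i => fderiv ℂ (f i)) ?_ ?_ ?_
    · exact (tendstoUniformlyOn_iff_tendstoUniformlyOnFilter.1 hU).mono_right (le_principal_iff.2 hn)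
    · filter_upwards [hf.prod_mk hn] with m ⟨a1, a2⟩
      exact ((a1.mono (hsub _ a2)).differentiableAt (ball_mem_nhds _ hr)).hasFDerivAt
    · filter_upwards [hn] with w hw
      exact h.tendsto_at (hsub w hw (mem_ball_self hr))
  exact ⟨fun y hy => (hd y hy).differentiableAt, hU.congr_right fun y hy => (hd y hy).fderiv.symm⟩

theorem A1_ball {U : Set E} (hU : IsOpen U) {x : E} (hx : x ∈ U) :
    ∃ r : ℝ, 0 < r ∧ closedBall x (2 * r) ⊆ U ∧ IsCompact (closedBall x (2 * r)) := by
  have := FiniteDimensional.proper ℂ E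
  obtain ⟨ε, hε, h⟩ := Metric.isOpen_iff.1 hU x hx
  exact ⟨ε / 4, by positivity, (closedBall_subset_ball (by linarith)).trans h,
    isCompact_closedBall _ _⟩

theorem hol_of_tendsto {ι : Type*} {l : Filter ι} [l.NeBot] {U : Set E} (hU : IsOpen U)
    {f : ι → E → F} {g : E → F} (hf : ∀ᶠ i in l, DifferentiableOn ℂ (f i) U)
    (h : TendstoLocallyUniformlyOn f g l U) :
    DifferentiableOn ℂ g U ∧
      TendstoLocallyUniformlyOn (fun i => fderiv ℂ (f i)) (fderiv ℂ g) l U := by
  have := FiniteDimensional.proper ℂ E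
  have key : ∀ x ∈ U, ∃ r : ℝ, 0 < r ∧ (∀ y ∈ ball x r, DifferentiableAt ℂ g y) ∧
      TendstoUniformlyOn (fun i => fderiv ℂ (f i)) (fderiv ℂ g) l (ball x r) := by
    intro x hx
    obtain ⟨r, hr, h1, h2⟩ := A1_ball hU hx
    exact ⟨r, hr, A1_local hr (hf.mono fun i hi => hi.mono (ball_subset_closedBall.trans h1))
      (((tendstoLocallyUniformlyOn_iff_forall_isCompact hU).1 h _ h1 h2).mono
        ball_subset_closedBall)⟩
  refine ⟨fun x hx => ?_, tendstoLocallyUniformlyOn_of_forall_exists_nhds fun x hx => ?_⟩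
  · obtain ⟨r, hr, h1, -⟩ := key x hx
    exact (h1 x (mem_ball_self hr)).differentiableWithinAt
  · obtain ⟨r, hr, -, h2⟩ := key x hx
    exact ⟨_, mem_nhdsWithin_of_mem_nhds (ball_mem_nhds x hr), h2⟩

theorem A1_dir {U : Set E} (hU : IsOpen U) {f : E → F} (hf : DifferentiableOn ℂ f U) (v : E) :
    DifferentiableOn ℂ (fun z => fderiv ℂ f z v) U := by
  intro x hx
  obtain ⟨r, hr, h1, h2⟩ := A1_ball hU hx
  obtain ⟨M, hM⟩ := h2.exists_bound_of_continuousOn (hf.continuousOn.mono h1)
  have hsub : ∀ y ∈ ball x r, ball y r ⊆ closedBall x (2 * r) := fun y hy =>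
    (ball_subset_ball' (by rw [mem_ball] at hy; linarith)).trans ball_subset_closedBall
  have hsm : ∀ᶠ t : ℂ in 𝓝[≠] 0, ‖t • v‖ < r := by
    have : Tendsto (fun t : ℂ => ‖t • v‖) (𝓝 0) (𝓝 ‖(0 : ℂ) • v‖) :=
      Continuous.tendsto (by fun_prop) 0
    rw [zero_smul, norm_zero] at this
    exact nhdsWithin_le_nhds (this.eventually (gt_mem_nhds hr))
  have hmem : ∀ t : ℂ, ‖t • v‖ < r → ∀ y, y + t • v ∈ ball y r := fun t ht y => by
    rwa [mem_ball, dist_eq_norm, add_sub_cancel_left]
  have hq := hol_of_tendsto (l := 𝓝[≠] (0 : ℂ)) (U := ball x r) isOpen_ball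
    (f := fun t z => t⁻¹ • (f (z + t • v) - f z)) (g := fun z => fderiv ℂ f z v) ?_ ?_
  · exact (hq.1.differentiableAt (ball_mem_nhds x hr)).differentiableWithinAt
  · filter_upwards [hsm] with t ht
    refine DifferentiableOn.const_smul (DifferentiableOn.sub ?_ ?_) _
    · exact hf.comp (by fun_prop) fun y hy => h1 (hsub y hy (hmem t ht y))
    · exact hf.mono fun y hy => h1 (hsub y hy (mem_ball_self hr))
  · refine TendstoUniformlyOn.tendstoLocallyUniformlyOn (Metric.tendstoUniformlyOn_iff.2 ?_)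
    intro ε hε
    have hsm2 : ∀ᶠ t : ℂ in 𝓝[≠] 0, 4 * M / r ^ 2 * ‖v‖ ^ 2 * ‖t‖ < ε := by
      have : Tendsto (fun t : ℂ => 4 * M / r ^ 2 * ‖v‖ ^ 2 * ‖t‖) (𝓝 0)
          (𝓝 (4 * M / r ^ 2 * ‖v‖ ^ 2 * ‖(0 : ℂ)‖)) := Continuous.tendsto (by fun_prop) 0
      rw [norm_zero, mul_zero] at this
      exact nhdsWithin_le_nhds (this.eventually (gt_mem_nhds hε))
    filter_upwards [hsm, hsm2, self_mem_nhdsWithin] with t ht ht2 ht0 y hy
    have ht0' : t ≠ 0 := ht0
    have h3 := taylor_le_of_bound (hf.mono ((hsub y hy).trans h1))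
      (fun w hw => hM w (hsub y hy hw)) (hmem t ht y)
    rw [add_sub_cancel_left, map_smul, norm_smul] at h3
    have e : t⁻¹ • (f (y + t • v) - f y) - fderiv ℂ f y v =
        t⁻¹ • (f (y + t • v) - f y - t • fderiv ℂ f y v) := by
      rw [smul_sub t⁻¹ (f (y + t • v) - f y), inv_smul_smul₀ ht0']
    rw [dist_comm, dist_eq_norm, e, norm_smul, norm_inv]
    have hn : 0 < ‖t‖ := norm_pos_iff.2 ht0'
    refine lt_of_le_of_lt ?_ ht2
    rw [inv_mul_le_iff₀ hn]
    refine h3.trans_eq ?_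
    ring

theorem fderiv_hol {U : Set E} (hU : IsOpen U) {f : E → F} (hf : DifferentiableOn ℂ f U) :
    DifferentiableOn ℂ (fderiv ℂ f) U := by
  have hd : Module.finrank ℂ E = Module.finrank ℂ (Fin (Module.finrank ℂ E) → ℂ) :=
    (Module.finrank_fin_fun ℂ).symm
  let e₁ := ContinuousLinearEquiv.ofFinrankEq hd
  let e₂ := (e₁.arrowCongr (1 : F ≃L[ℂ] F)).trans
    (ContinuousLinearEquiv.piRing (Fin (Module.finrank ℂ E)))
  rw [← Function.id_comp (fderiv ℂ f), ← e₂.symm_comp_self]
  exact e₂.symm.differentiable.comp_differentiableOn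
    (differentiableOn_pi.mpr fun i => A1_dir hU hf _)

theorem contDiffOn_of_hol {U : Set E} (hU : IsOpen U) {f : E → F} (hf : DifferentiableOn ℂ f U)
    (k : ℕ) : ContDiffOn ℂ k f U := by
  induction k generalizing f with
  | zero => simpa using hf.continuousOn
  | succ k ih =>
    rw [Nat.cast_succ, contDiffOn_succ_iff_fderiv_of_isOpen hU]
    exact ⟨hf, by simp, contDiffOn_clm_apply.2 fun y => ih (A1_dir hU hf y)⟩

theorem contDiffAt_of_hol {U : Set E} (hU : IsOpen U) {f : E → F} (hf : DifferentiableOn ℂ f U)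
    {z : E} (hz : z ∈ U) (k : ℕ) : ContDiffAt ℂ k f z :=
  (contDiffOn_of_hol hU hf k).contDiffAt (hU.mem_nhds hz)

end Pool.Agent.P.MP_2ff09b_gt
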