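import Pool.Agent.P.MP_2ff09b_gt.A1

/-! CVX-A11. Determinants and changes of variables.
Sketch. det_restrictScalars_eq: LinearMap.det_restrictScalars and Algebra.norm_complex_eq (or
Algebra.norm_complex_apply). det_one_add_comp_comm: bases and Matrix.det_one_add_mul_comm.
lintegral_comp_aut: lintegral_image_eq_lintegral_abs_det_fderiv_mul and aut_image.
lintegral_image_le: for measurable B, volume (B ∩ T '' s) = volume (T '' (s ∩ T ⁻¹' B)) is at most
the integral of |det| over s ∩ T ⁻¹' B (addHaar_image_le_lintegral_abs_det_fderiv; replace T by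
the measurable function s.piecewise T 0 or s.indicator T to have a measurable preimage); so the
restriction of volume to T '' s is at most the image of the measure with density |det|; conclude
with lintegral_mono' and lintegral_map. measure_le_of_cover: F is almost everywhere covered by the
sets g • A ∩ F; use IsFundamentalDomain.measure_eq_tsum. -/

open Set MeasureTheory Complex Filter Topology Metric

noncomputable section

namespace Pool.Agent.P.MP_2ff09b_gt

theorem det_restrictScalars_eq {n : ℕ} (T : (Fin n → ℂ) →L[ℂ] (Fin n → ℂ)) :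
    (T.restrictScalars ℝ).det = ‖T.det‖ ^ 2 := by
  have h := LinearMap.det_restrictScalars (R := ℝ) (S := ℂ) (A := Fin n → ℂ)
    (f := (T : (Fin n → ℂ) →ₗ[ℂ] (Fin n → ℂ)))
  rw [Algebra.norm_complex_apply, Complex.normSq_eq_norm_sq] at h
  exact h

theorem det_one_add_comp_comm {V W : Type*} [NormedAddCommGroup V] [NormedSpace ℝ V]
    [FiniteDimensional ℝ V] [NormedAddCommGroup W] [NormedSpace ℝ W] [FiniteDimensional ℝ W]
    (A : V →L[ℝ] W) (B : W →L[ℝ] V) :
    (ContinuousLinearMap.id ℝ W + A.comp B).det = (ContinuousLinearMap.id ℝ V + B.comp A).det := by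
  classical
  let b := Module.finBasis ℝ V
  let c := Module.finBasis ℝ W
  unfold ContinuousLinearMap.det
  rw [← LinearMap.det_toMatrix c, ← LinearMap.det_toMatrix b]
  simp only [ContinuousLinearMap.toLinearMap_add, ContinuousLinearMap.coe_id,
    ContinuousLinearMap.toLinearMap_comp, map_add, LinearMap.toMatrix_id]
  rw [LinearMap.toMatrix_comp c b c, LinearMap.toMatrix_comp b c b]
  exact Matrix.det_one_add_mul_comm _ _

theorem lintegral_comp_aut {n : ℕ} {D : Set (Fin n → ℂ)} (hD : IsOpen D)
    {γ : Equiv.Perm (Fin n → ℂ)} (hγ : γ ∈ autGroup D) (g : (Fin n → ℂ) → ENNReal) :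
    ∫⁻ z in D, g z = ∫⁻ z in D, ENNReal.ofReal (‖(fderiv ℂ γ z).det‖ ^ 2) * g (γ z) := by
  have h := lintegral_image_eq_lintegral_abs_det_fderiv_mul volume hD.measurableSet
    (f := γ) (f' := fun z => (fderiv ℂ γ z).restrictScalars ℝ)
    (fun z hz =>
      ((aut_differentiableAt hD hγ hz).hasFDerivAt.restrictScalars ℝ).hasFDerivWithinAt)
    γ.injective.injOn g
  rw [aut_image hγ] at h
  rw [h]
  simp only [det_restrictScalars_eq, abs_pow, abs_norm]

theorem lintegral_image_le {V : Type*} [NormedAddCommGroup V] [NormedSpace ℝ V]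
    [FiniteDimensional ℝ V] [MeasurableSpace V] [BorelSpace V] (μ : Measure V)
    [μ.IsAddHaarMeasure] {s : Set V} (hs : MeasurableSet s) {T : V → V} {T' : V → V →L[ℝ] V}
    (hT : ∀ x ∈ s, HasFDerivWithinAt T (T' x) s x) {w : V → ENNReal} (hw : Measurable w) :
    ∫⁻ y in T '' s, w y ∂μ ≤ ∫⁻ x in s, ENNReal.ofReal |(T' x).det| * w (T x) ∂μ := by
  classical
  have hc : ContinuousOn T s := fun x hx => (hT x hx).continuousWithinAt
  have hm : Measurable (s.piecewise T 0) :=
    hc.measurable_piecewise continuousOn_const hs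
  have hd := aemeasurable_ofReal_abs_det_fderivWithin μ hs hT
  let ν : Measure V := (μ.restrict s).withDensity fun x => ENNReal.ofReal |(T' x).det|
  have hle : μ.restrict (T '' s) ≤ ν.map (s.piecewise T 0) := by
    refine Measure.le_iff.2 fun B hB => ?_
    have hB' : MeasurableSet (s.piecewise T 0 ⁻¹' B) := hm hB
    rw [Measure.restrict_apply hB, Measure.map_apply hm hB, withDensity_apply _ hB',
      Measure.restrict_restrict hB']
    have he : B ∩ T '' s = T '' (s.piecewise T 0 ⁻¹' B ∩ s) := by
      ext y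
      constructor
      · rintro ⟨hy, x, hx, rfl⟩
        refine ⟨x, ⟨?_, hx⟩, rfl⟩
        rwa [mem_preimage, piecewise_eq_of_mem _ _ _ hx]
      · rintro ⟨x, ⟨hx1, hx⟩, rfl⟩
        rw [mem_preimage, piecewise_eq_of_mem _ _ _ hx] at hx1
        exact ⟨hx1, x, hx, rfl⟩
    rw [he]
    exact addHaar_image_le_lintegral_abs_det_fderiv μ (hB'.inter hs)
      fun x hx => (hT x hx.2).mono inter_subset_right
  refine (lintegral_mono' hle le_rfl).trans (le_of_eq ?_)
  rw [lintegral_map hw hm]
  refine (lintegral_withDensity_eq_lintegral_mul₀ hd (hw.comp hm).aemeasurable).trans ?_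
  refine setLIntegral_congr_fun hs fun x hx => ?_
  simp only [Pi.mul_apply, Function.comp, piecewise_eq_of_mem _ _ _ hx]

theorem measure_le_of_cover {G α : Type*} [Group G] [MulAction G α] [MeasurableSpace α]
    [Countable G] [MeasurableConstSMul G α] {μ : Measure α} [SMulInvariantMeasure G α μ]
    {F : Set α} (hF : IsFundamentalDomain G F μ) {A : Set α}
    (hA : ∀ᵐ x ∂μ, ∃ g : G, g • x ∈ A) : μ F ≤ μ A := by
  rw [hF.measure_eq_tsum A]
  refine le_trans (measure_mono_ae ?_) (measure_iUnion_le _)
  filter_upwards [hA] with x hx hxF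
  obtain ⟨g, hg⟩ := hx
  exact mem_iUnion.2 ⟨g⁻¹, ⟨g • x, hg, inv_smul_smul g x⟩, hxF⟩

end Pool.Agent.P.MP_2ff09b_gt
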