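import Pool.Agent.P.MP_2ff09b_gt.Triv

/-! CVX-A12. Linear algebra: determinant bounds, extension of frames, simultaneous
diagonalisation.
Sketch. norm_det_rows_le: Leibniz formula (Matrix.det_apply). exists_det_lower: B is invertible
and the entries of the inverse are bounded by c, apply the first bound to the inverse.
exists_extend: induction on n - N; if the span of a is a proper subspace there is a vector u with
nu u = 1 at nu-distance at least 1/2 from the span (Riesz lemma argument for the norm nu: take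
v outside the span, d = inf of nu (v - s) > 0 because of the hypothesis, pick s with
nu (v - s) <= 2 d); the constant must depend only on n and c. One may first build a family
indexed by Fin n extending a along Fin.castLE. det_re_ge: the matrix H = B^T G conj(B) (check the
convention) is Hermitian with quadratic form at least (c/n) times the Euclidean square norm, so
its eigenvalues are at least c/n (Matrix.IsHermitian.det_eq_prod_eigenvalues).
exists_simul_diag: A = R R^T with R invertible (square root or LDL), then the spectral theorem for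
R^T G R. -/

open Set MeasureTheory Complex Filter Topology Metric

noncomputable section

namespace Pool.Agent.P.MP_2ff09b_gt

theorem norm_det_rows_le {n : ℕ} (b : Fin n → Fin n → ℂ) :
    ‖(Matrix.of b).det‖ ≤ n.factorial * ∏ j, ‖b j‖ := by
  rw [Matrix.det_apply]
  refine (norm_sum_le _ _).trans ((Finset.sum_le_card_nsmul _ _ (∏ j, ‖b j‖) fun σ _ => ?_).trans
    (by simp [Fintype.card_perm]))
  have h1 : ‖Equiv.Perm.sign σ • ∏ i, Matrix.of b (σ i) i‖ = ‖∏ i, Matrix.of b (σ i) i‖ := by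
    rcases Int.units_eq_one_or (Equiv.Perm.sign σ) with h | h <;> simp [h]
  rw [h1, norm_prod, ← Equiv.prod_comp σ fun j => ‖b j‖]
  exact Finset.prod_le_prod (fun _ _ => norm_nonneg _) fun i _ => norm_le_pi_norm (b (σ i)) i

theorem exists_det_lower (n : ℕ) {c : ℝ} (hc : 0 < c) :
    ∃ c' : ℝ, 0 < c' ∧ ∀ b : Fin n → Fin n → ℂ, (∀ x : Fin n → ℂ, ‖x‖ ≤ c * ‖∑ j, x j • b j‖) →
      c' ≤ ‖(Matrix.of b).det‖ := by
  have hp : (0 : ℝ) < n.factorial * c ^ n := by positivity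
  refine ⟨(n.factorial * c ^ n)⁻¹, inv_pos.2 hp, fun b h => ?_⟩
  have h' : ∀ x, ‖x‖ ≤ c * ‖Matrix.vecMul x (Matrix.of b)‖ := fun x => by
    rw [Matrix.vecMul_eq_sum]
    exact h x
  have hd : (Matrix.of b).det ≠ 0 := fun e => by
    obtain ⟨v, hv, hv'⟩ := Matrix.exists_vecMul_eq_zero_iff.2 e
    have := h' v
    rw [hv', norm_zero, mul_zero, norm_le_zero_iff] at this
    exact hv this
  have hr : ∀ i, ‖(Matrix.of b)⁻¹ i‖ ≤ c := fun i => by
    have e : Matrix.vecMul ((Matrix.of b)⁻¹ i) (Matrix.of b) = Pi.single i 1 := by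
      funext j
      have := congrFun (congrFun (Matrix.nonsing_inv_mul _ (Ne.isUnit hd)) i) j
      rw [Matrix.one_apply] at this
      rw [Pi.single_apply]
      exact this.trans (if_congr eq_comm rfl rfl)
    have := h' ((Matrix.of b)⁻¹ i)
    rwa [e, Pi.norm_single, norm_one, mul_one] at this
  have h1 : ‖((Matrix.of b)⁻¹).det‖ ≤ n.factorial * c ^ n := by
    refine (norm_det_rows_le fun i => (Matrix.of b)⁻¹ i).trans ?_
    gcongr
    exact (Finset.prod_le_prod (fun _ _ => norm_nonneg _) fun i _ => hr i).trans (by simp)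
  rw [Matrix.det_nonsing_inv, Ring.inverse_eq_inv', norm_inv] at h1
  exact inv_le_of_inv_le₀ (norm_pos_iff.2 hd) h1

theorem A12_riesz {E : Type} [AddCommGroup E] [Module ℂ E] [FiniteDimensional ℂ E]
    (ν : Seminorm ℂ E) (hν : ∀ v, ν v = 0 → v = 0) (F : Submodule ℂ E) (hF : ∃ x, x ∉ F) :
    ∃ u, ν u ≤ 1 ∧ ∀ s ∈ F, ∀ t : ℂ, ‖t‖ ≤ 2 * ν (s + t • u) := by
  let _ : NormedAddCommGroup E := AddGroupNorm.toNormedAddCommGroup ⟨ν.toAddGroupSeminorm, hν⟩
  let _ : NormedSpace ℂ E := ⟨fun c x => (map_smul_eq_mul ν c x).le⟩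
  obtain ⟨x, hx, h⟩ := riesz_lemma (𝕜 := ℂ) F.closed_of_finiteDimensional hF
    (r := 1 / 2) (by norm_num)
  have hx0 : 0 < ‖x‖ := norm_pos_iff.2 fun e => hx (e ▸ F.zero_mem)
  have hx1 : ((‖x‖ : ℝ) : ℂ) ≠ 0 := by exact_mod_cast hx0.ne'
  refine ⟨((‖x‖ : ℝ) : ℂ)⁻¹ • x, ?_, fun s hs t => ?_⟩
  · change ‖((‖x‖ : ℝ) : ℂ)⁻¹ • x‖ ≤ 1
    rw [norm_smul, norm_inv, Complex.norm_real, norm_norm, inv_mul_cancel₀ hx0.ne']
  · change ‖t‖ ≤ 2 * ‖s + t • ((‖x‖ : ℝ) : ℂ)⁻¹ • x‖
    by_cases ht : t = 0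
    · rw [ht, norm_zero]
      positivity
    have e : s + t • ((‖x‖ : ℝ) : ℂ)⁻¹ • x =
        (t * ((‖x‖ : ℝ) : ℂ)⁻¹) • (x - (-(t⁻¹ * ((‖x‖ : ℝ) : ℂ))) • s) := by
      rw [smul_sub, smul_smul, smul_smul, show t * ((‖x‖ : ℝ) : ℂ)⁻¹ * -(t⁻¹ * ((‖x‖ : ℝ) : ℂ)) =
        -1 by field_simp, neg_smul, one_smul, sub_neg_eq_add, add_comm]
    have h1 := h _ (F.smul_mem (-(t⁻¹ * ((‖x‖ : ℝ) : ℂ))) hs)
    rw [e, norm_smul, norm_mul, norm_inv, Complex.norm_real, norm_norm]
    calc ‖t‖ = 2 * (‖t‖ * ‖x‖⁻¹ * (1 / 2 * ‖x‖)) := by field_simp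
      _ ≤ _ := by gcongr

theorem A12_indep {n N : ℕ} {c : ℝ} {ν : Seminorm ℂ (Fin n → ℂ)} {a : Fin N → Fin n → ℂ}
    (h : ∀ x : Fin N → ℂ, ‖x‖ ≤ c * ν (∑ i, x i • a i)) : N ≤ n := by
  have hl : LinearIndependent ℂ a := Fintype.linearIndependent_iff.2 fun x hx i => by
    have := h x
    rw [hx, map_zero, mul_zero, norm_le_zero_iff] at this
    rw [this, Pi.zero_apply]
  simpa using hl.fintype_card_le_finrank

theorem A12_step {n N : ℕ} {c : ℝ} (hc : 0 < c) (ν : Seminorm ℂ (Fin n → ℂ))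
    (hν : ∀ v, ν v = 0 → v = 0) (a : Fin N → Fin n → ℂ)
    (h : ∀ x : Fin N → ℂ, ‖x‖ ≤ c * ν (∑ i, x i • a i)) (hN : N < n) :
    ∃ u, ν u ≤ 1 ∧ ∀ x : Fin (N + 1) → ℂ,
      ‖x‖ ≤ (2 + 3 * c) * ν (∑ i, x i • (Fin.snoc a u : Fin (N + 1) → Fin n → ℂ) i) := by
  obtain ⟨u, hu, hu'⟩ := A12_riesz ν hν (Submodule.span ℂ (range a)) (by
    by_contra hcon
    push Not at hcon
    have h1 := finrank_range_le_card (R := ℂ) a
    rw [Set.finrank, Submodule.eq_top_iff'.2 hcon] at h1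
    simp at h1
    omega)
  refine ⟨u, hu, fun x => ?_⟩
  rw [Fin.sum_univ_castSucc]
  simp only [Fin.snoc_castSucc, Fin.snoc_last]
  set s := ∑ i : Fin N, x i.castSucc • a i with hs
  have hm : s ∈ Submodule.span ℂ (range a) :=
    Submodule.sum_mem _ fun i _ => Submodule.smul_mem _ _ (Submodule.subset_span ⟨i, rfl⟩)
  have h1 := hu' s hm (x (Fin.last N))
  have h0 : 0 ≤ ν (s + x (Fin.last N) • u) := apply_nonneg _ _
  have h2 : ν s ≤ 3 * ν (s + x (Fin.last N) • u) := by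
    have h3 := map_sub_le_add ν (s + x (Fin.last N) • u) (x (Fin.last N) • u)
    rw [add_sub_cancel_right, map_smul_eq_mul] at h3
    have h4 := mul_le_of_le_one_right (norm_nonneg (x (Fin.last N))) hu
    linarith
  have h5 := h fun i => x i.castSucc
  rw [← hs] at h5
  refine (pi_norm_le_iff_of_nonneg (by positivity)).2 fun i => ?_
  induction i using Fin.lastCases with
  | last => nlinarith
  | cast i =>
    have h6 := norm_le_pi_norm (fun i : Fin N => x i.castSucc) i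
    nlinarith

theorem A12_extend (n k : ℕ) : ∀ c : ℝ, 0 < c →
    ∃ c' : ℝ, 0 < c' ∧ ∀ ν : Seminorm ℂ (Fin n → ℂ), (∀ v, ν v = 0 → v = 0) →
      ∀ (N : ℕ) (a : Fin N → Fin n → ℂ), n ≤ N + k → (∀ i, ν (a i) ≤ 1) →
        (∀ x : Fin N → ℂ, ‖x‖ ≤ c * ν (∑ i, x i • a i)) →
        ∃ (b : Fin n → Fin n → ℂ) (e : Fin N ↪ Fin n), (∀ i, b (e i) = a i) ∧ (∀ j, ν (b j) ≤ 1) ∧
          ∀ x : Fin n → ℂ, ‖x‖ ≤ c' * ν (∑ j, x j • b j) := by
  induction k with
  | zero =>
    refine fun c hc => ⟨c, hc, fun ν _ N a hN ha h => ?_⟩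
    obtain rfl : N = n := le_antisymm (A12_indep h) hN
    exact ⟨a, Function.Embedding.refl _, fun _ => rfl, ha, h⟩
  | succ k ih =>
    intro c hc
    obtain ⟨c', hc', H⟩ := ih (2 + 3 * c) (by positivity)
    refine ⟨c', hc', fun ν hν N a hN ha h => ?_⟩
    by_cases hlt : N < n
    · obtain ⟨u, hu, hu'⟩ := A12_step hc ν hν a h hlt
      obtain ⟨b, e, h1, h2⟩ := H ν hν (N + 1) (Fin.snoc a u) (by omega) (fun i => by
        induction i using Fin.lastCases with
        | last => rwa [Fin.snoc_last]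
        | cast i => rw [Fin.snoc_castSucc]; exact ha i) hu'
      exact ⟨b, Fin.castSuccEmb.trans e, fun i => (h1 i.castSucc).trans (Fin.snoc_castSucc ..), h2⟩
    · refine H ν hν N a (by omega) ha fun x => (h x).trans ?_
      have h0 : 0 ≤ ν (∑ i, x i • a i) := apply_nonneg _ _
      nlinarith

theorem exists_extend (n : ℕ) {c : ℝ} (hc : 0 < c) :
    ∃ c' : ℝ, 0 < c' ∧ ∀ ν : Seminorm ℂ (Fin n → ℂ), (∀ v, ν v = 0 → v = 0) →
      ∀ (N : ℕ) (a : Fin N → Fin n → ℂ), (∀ i, ν (a i) ≤ 1) →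
        (∀ x : Fin N → ℂ, ‖x‖ ≤ c * ν (∑ i, x i • a i)) →
        ∃ (b : Fin n → Fin n → ℂ) (e : Fin N ↪ Fin n), (∀ i, b (e i) = a i) ∧ (∀ j, ν (b j) ≤ 1) ∧
          ∀ x : Fin n → ℂ, ‖x‖ ≤ c' * ν (∑ j, x j • b j) := by
  obtain ⟨c', hc', H⟩ := A12_extend n n c hc
  exact ⟨c', hc', fun ν hν N a => H ν hν N a (by omega)⟩

open scoped ComplexOrder in
theorem exists_det_re_ge (n : ℕ) {c : ℝ} (hc : 0 < c) :
    ∃ c' : ℝ, 0 < c' ∧ ∀ (G : Matrix (Fin n) (Fin n) ℂ) (b : Fin n → Fin n → ℂ), G.IsHermitian →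
      (∀ x : Fin n → ℂ, c * ‖x‖ ^ 2 ≤
        ((∑ j, x j • b j) ⬝ᵥ G.mulVec (star (∑ j, x j • b j))).re) →
      c' ≤ G.det.re * ‖(Matrix.of b).det‖ ^ 2 := by
  obtain ⟨c', hc', H⟩ := exists_det_lower n (c := (n + 1) / c) (by positivity)
  refine ⟨c', hc', fun G b hG h => ?_⟩
  set B := Matrix.of b with hB
  have hH : (B * G * B.conjTranspose).IsHermitian := Matrix.isHermitian_mul_mul_conjTranspose B hG
  have key : ∀ x : Fin n → ℂ, c * ‖x‖ ^ 2 ≤ (x ⬝ᵥ (B * G * B.conjTranspose).mulVec (star x)).re :=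
    fun x => by
    have e : ∑ j, x j • b j = Matrix.vecMul x B := (Matrix.vecMul_eq_sum x B).symm
    have := h x
    rwa [e, Matrix.star_vecMul, Matrix.mulVec_mulVec, ← Matrix.dotProduct_mulVec,
      Matrix.mulVec_mulVec, ← Matrix.mul_assoc] at this
  have hP : (B * G * B.conjTranspose).PosSemidef := by
    refine Matrix.PosSemidef.of_dotProduct_mulVec_nonneg hH fun x => Complex.nonneg_iff.2 ⟨?_, ?_⟩
    · have := key (star x)
      rw [star_star] at this
      exact le_trans (by positivity) this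
    · exact (hH.im_star_dotProduct_mulVec_self x).symm
  have h1 := H (fun i => (B * G * B.conjTranspose) i) fun x => by
    rw [← Matrix.vecMul_eq_sum]
    have h2 := key x
    rw [Matrix.dotProduct_mulVec] at h2
    set y := Matrix.vecMul x (B * G * B.conjTranspose)
    have h3 : (y ⬝ᵥ star x).re ≤ n * (‖y‖ * ‖x‖) := by
      refine (Complex.re_le_norm _).trans ((norm_sum_le _ _).trans
        ((Finset.sum_le_card_nsmul _ _ (‖y‖ * ‖x‖) fun i _ => ?_).trans (by simp)))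
      rw [norm_mul, Pi.star_apply, norm_star]
      exact mul_le_mul (norm_le_pi_norm y i) (norm_le_pi_norm x i) (norm_nonneg _) (norm_nonneg _)
    rcases (norm_nonneg x).eq_or_lt with h0 | h0
    · rw [← h0]
      positivity
    · rw [div_mul_eq_mul_div, le_div_iff₀ hc]
      have h4 := norm_nonneg y
      refine le_of_mul_le_mul_right ?_ h0
      nlinarith
  have h5 := Complex.nonneg_iff.1 hP.det_nonneg
  have h6 : (B * G * B.conjTranspose).det = G.det * ((‖B.det‖ ^ 2 : ℝ) : ℂ) := by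
    rw [Matrix.det_mul, Matrix.det_mul, Matrix.det_conjTranspose, mul_comm B.det, mul_assoc,
      Complex.star_def, Complex.mul_conj, Complex.normSq_eq_norm_sq]
  have h7 : ‖(B * G * B.conjTranspose).det‖ = (B * G * B.conjTranspose).det.re := by
    rw [← Complex.abs_re_eq_norm.2 h5.2.symm, abs_of_nonneg h5.1]
  refine h1.trans (h7.le.trans ?_)
  rw [h6, Complex.re_mul_ofReal]

theorem exists_simul_diag {N : ℕ} {A G : Matrix (Fin N) (Fin N) ℝ} (hA : A.PosDef)
    (hG : G.IsSymm) :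
    ∃ (S : Matrix (Fin N) (Fin N) ℝ) (lam : Fin N → ℝ), IsUnit S.det ∧ A = S * S.transpose ∧
      S.transpose * G * S = Matrix.diagonal lam := by
  obtain ⟨R, hR⟩ : ∃ R : Matrix (Fin N) (Fin N) ℝ, A = R * R.transpose := by
    open scoped MatrixOrder in
    obtain ⟨B, hB⟩ := CStarAlgebra.nonneg_iff_eq_star_mul_self.mp hA.posSemidef.nonneg
    exact ⟨B.transpose, hB⟩
  have hM : (R.transpose * G * R).IsHermitian :=
    Matrix.isHermitian_conjTranspose_mul_mul R (A := G) hG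
  have h1 := hM.conjStarAlgAut_star_eigenvectorUnitary
  rw [Unitary.conjStarAlgAut_star_apply] at h1
  have h2 : hM.eigenvectorUnitary.1 * hM.eigenvectorUnitary.1.transpose = 1 :=
    Unitary.coe_mul_star_self hM.eigenvectorUnitary
  have h3 : A = R * hM.eigenvectorUnitary.1 * (R * hM.eigenvectorUnitary.1).transpose := by
    rw [Matrix.transpose_mul, Matrix.mul_assoc, ← Matrix.mul_assoc _ _ R.transpose, h2,
      Matrix.one_mul, hR]
  refine ⟨R * hM.eigenvectorUnitary.1, hM.eigenvalues, ?_, h3, ?_⟩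
  · have h4 := hA.det_pos.ne'
    rw [h3, Matrix.det_mul] at h4
    exact (left_ne_zero_of_mul h4).isUnit
  · refine Eq.trans ?_ h1
    rw [Matrix.transpose_mul]
    simp only [Matrix.mul_assoc]
    rfl

end Pool.Agent.P.MP_2ff09b_gt
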