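import Pool.Agent.P.MP_2ff09b_gt.A1

/-! CVX-A2. Montel along an ultrafilter; identity theorem; zero sets are null.
Sketch. Montel: define g z as the limit along the ultrafilter (closed balls of F are compact);
near each point the family is eventually equi-Lipschitz (norm_sub_le_of_bound on the half ball),
so pointwise convergence is uniform on small balls (finite nets of a compact ball), then
hol_of_tendsto on each small ball. Identity theorem: restrict to the complex line through z0 and z;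
the set of parameters is open and convex in the plane, use
AnalyticOnNhd.eqOn_zero_of_preconnected_of_eventuallyEq_zero. Null zero set: let Z be the zero
set (measurable) and f z0 nonzero; for each v the set of real t with z0 + t v in Z is countable
(isolated zeros on a convex open plane set), so by Tonelli on (t, v) there is t in (1/2, 1) with
volume {v | z0 + t v in Z} = 0, and this set is a homothetic copy of Z. -/

open Set MeasureTheory Complex Filter Topology Metric

noncomputable section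

namespace Pool.Agent.P.MP_2ff09b_gt

variable {E : Type*} [NormedAddCommGroup E] [NormedSpace ℂ E] [FiniteDimensional ℂ E] {D : Set E}

variable {F : Type*} [NormedAddCommGroup F] [NormedSpace ℂ F] [CompleteSpace F]


theorem ultra_montel {ι : Type*} (𝒰 : Ultrafilter ι) [FiniteDimensional ℂ F] {U : Set E}
    (hU : IsOpen U) {f : ι → E → F}
    (h : ∀ z ∈ U, ∃ r : ℝ, 0 < r ∧ ∃ M : ℝ, ∀ᶠ i in (𝒰 : Filter ι),
      DifferentiableOn ℂ (f i) (ball z r) ∧ ∀ w ∈ ball z r, ‖f i w‖ ≤ M) :
    ∃ g : E → F, DifferentiableOn ℂ g U ∧ TendstoLocallyUniformlyOn f g 𝒰 U ∧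
      ∀ z ∈ U, Tendsto (fun i => fderiv ℂ (f i) z) 𝒰 (𝓝 (fderiv ℂ g z)) := by
  have := FiniteDimensional.proper ℂ F
  have hex : ∀ z ∈ U, ∃ y, Tendsto (fun i => f i z) 𝒰 (𝓝 y) := fun z hz => by
    obtain ⟨r, hr, M, hM⟩ := h z hz
    obtain ⟨y, -, hy⟩ := (isCompact_closedBall (0 : F) M).ultrafilter_le_nhds
      (𝒰.map fun i => f i z) (by
        rw [le_principal_iff]
        exact hM.mono fun i hi => mem_closedBall_zero_iff.2 (hi.2 z (mem_ball_self hr)))
    exact ⟨y, hy⟩
  choose! g hg using hex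
  have hloc : TendstoLocallyUniformlyOn f g 𝒰 U := by
    refine Metric.tendstoLocallyUniformlyOn_iff.2 fun ε hε x hx => ?_
    obtain ⟨r, hr, M, hM⟩ := h x hx
    have hK : 0 < |2 * M / r| + 1 := by positivity
    have hδ : 0 < ε / 3 / (|2 * M / r| + 1) := by positivity
    have hb : ∀ᶠ i in (𝒰 : Filter ι), ∀ y ∈ ball x r ∩ ball x (ε / 3 / (|2 * M / r| + 1)),
        ‖f i y - f i x‖ ≤ ε / 3 := hM.mono fun i hi y hy => by
      have h1 := norm_sub_le_of_bound hi.1 hi.2 hy.1
      have h2 : ‖y - x‖ < ε / 3 / (|2 * M / r| + 1) := mem_ball_iff_norm.1 hy.2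
      rw [lt_div_iff₀ hK] at h2
      have h3 := mul_le_mul_of_nonneg_right (le_abs_self (2 * M / r)) (norm_nonneg (y - x))
      have h4 := norm_nonneg (y - x)
      linarith
    refine ⟨U ∩ (ball x r ∩ ball x (ε / 3 / (|2 * M / r| + 1))),
      inter_mem_nhdsWithin _ (inter_mem (ball_mem_nhds x hr) (ball_mem_nhds x hδ)), ?_⟩
    have hc : ∀ᶠ i in (𝒰 : Filter ι), dist (f i x) (g x) < ε / 3 :=
      Metric.tendsto_nhds.1 (hg x hx) _ (by positivity)
    filter_upwards [hb, hc] with i h1 h2 y hy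
    have h3 : ‖g y - g x‖ ≤ ε / 3 :=
      le_of_tendsto ((hg y hy.1).sub (hg x hx)).norm (hb.mono fun j hj => hj y hy.2)
    have h4 := h1 y hy.2
    have h5 := dist_triangle4 (g y) (g x) (f i x) (f i y)
    rw [dist_comm (g x), dist_comm (f i x) (f i y), dist_eq_norm (g y) (g x),
      dist_eq_norm (f i y) (f i x)] at h5
    linarith
  have key : ∀ z ∈ U, DifferentiableAt ℂ g z ∧
      Tendsto (fun i => fderiv ℂ (f i) z) 𝒰 (𝓝 (fderiv ℂ g z)) := fun z hz => by
    obtain ⟨r, hr, M, hM⟩ := h z hz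
    have hV : IsOpen (U ∩ ball z r) := hU.inter isOpen_ball
    have hzV : z ∈ U ∩ ball z r := ⟨hz, mem_ball_self hr⟩
    obtain ⟨h1, h2⟩ := hol_of_tendsto hV (hM.mono fun i hi => hi.1.mono inter_subset_right)
      (hloc.mono inter_subset_left)
    exact ⟨h1.differentiableAt (hV.mem_nhds hzV), h2.tendsto_at hzV⟩
  exact ⟨g, fun z hz => (key z hz).1.differentiableWithinAt, hloc, fun z hz => (key z hz).2⟩

omit [FiniteDimensional ℂ E] in
theorem A2_line {U : Set E} (hU : IsOpen U) (hc : Convex ℝ U) {f : E → F}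
    (hf : DifferentiableOn ℂ f U) (z v : E) :
    IsOpen {t : ℂ | z + t • v ∈ U} ∧ Convex ℝ {t : ℂ | z + t • v ∈ U} ∧
      AnalyticOnNhd ℂ (fun t : ℂ => f (z + t • v)) {t : ℂ | z + t • v ∈ U} := by
  have h1 : IsOpen {t : ℂ | z + t • v ∈ U} :=
    hU.preimage (f := fun t : ℂ => z + t • v) (by fun_prop)
  refine ⟨h1, fun s hs t ht a b ha hb hab => ?_, DifferentiableOn.analyticOnNhd
    (hf.comp (f := fun t : ℂ => z + t • v) (by fun_prop) fun t ht => ht) h1⟩
  have h2 := hc hs ht ha hb hab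
  have e : a • (z + s • v) + b • (z + t • v) = z + (a • s + b • t) • v := by
    rw [smul_add, smul_add, add_add_add_comm, ← add_smul, hab, one_smul, add_smul, smul_assoc,
      smul_assoc]
  rwa [e] at h2

omit [FiniteDimensional ℂ E] in
theorem eq_zero_of_eventually {U : Set E} (hU : IsOpen U) (hc : Convex ℝ U) {f : E → F}
    (hf : DifferentiableOn ℂ f U) {z₀ : E} (hz : z₀ ∈ U) (h : ∀ᶠ z in 𝓝 z₀, f z = 0) :
    ∀ z ∈ U, f z = 0 := by
  intro z hz'
  obtain ⟨-, h2, h3⟩ := A2_line hU hc hf z₀ (z - z₀)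
  have ht : Tendsto (fun t : ℂ => z₀ + t • (z - z₀)) (𝓝 0) (𝓝 z₀) :=
    Continuous.tendsto' (by fun_prop) _ _ (by simp)
  have h4 := h3.eqOn_zero_of_preconnected_of_eventuallyEq_zero h2.isPreconnected (z₀ := 0)
    (by simpa using hz) (ht.eventually h) (x := 1) (by simpa using hz')
  simpa using h4

theorem null_zero_set {n : ℕ} {U : Set (Fin n → ℂ)} (hU : IsOpen U) (hc : Convex ℝ U)
    {f : (Fin n → ℂ) → ℂ} (hf : DifferentiableOn ℂ f U) (h : ∃ z ∈ U, f z ≠ 0) :
    volume {z | z ∈ U ∧ f z = 0} = 0 := by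
  obtain ⟨z, hz, hfz⟩ := h
  have hZ : MeasurableSet {w | w ∈ U ∧ f w = 0} := by
    have h1 : IsOpen (U ∩ f ⁻¹' {0}ᶜ) :=
      hf.continuousOn.isOpen_inter_preimage hU isOpen_compl_singleton
    convert hU.measurableSet.diff h1.measurableSet using 1
    ext w
    simp
  have h1 : ∀ v : Fin n → ℂ, ∀ᵐ t : ℝ, z + t • v ∉ {w | w ∈ U ∧ f w = 0} := fun v => by
    obtain ⟨h2, h3, h4⟩ := A2_line hU hc hf z v
    have h5 : AnalyticOnNhd ℝ (fun t : ℝ => f (z + (t : ℂ) • v))
        (ofRealCLM ⁻¹' {t : ℂ | z + t • v ∈ U}) :=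
      h4.restrictScalars.comp (ofRealCLM.analyticOnNhd _) fun t ht => ht
    have h6 : MeasurableSet (ofRealCLM ⁻¹' {t : ℂ | z + t • v ∈ U}) :=
      (h2.preimage ofRealCLM.continuous).measurableSet
    rcases h5.eqOn_zero_or_eventually_ne_zero_of_preconnected
      (h3.linear_preimage ofRealCLM.toLinearMap).isPreconnected with h7 | h7
    · exact absurd (by simpa using h7 (x := 0) (by simpa using hz)) hfz
    · have h8 := (ae_restrict_iff' h6).1 (ae_restrict_le_codiscreteWithin (μ := volume) h6 h7)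
      filter_upwards [h8] with t ht hmem
      exact ht hmem.1 hmem.2
  have h2 := (Measure.ae_ae_comm (μ := (volume : Measure (Fin n → ℂ))) (ν := (volume : Measure ℝ))
    (p := fun v t => z + t • v ∉ {w | w ∈ U ∧ f w = 0})
    (hZ.compl.preimage (f := fun x : (Fin n → ℂ) × ℝ => z + x.2 • x.1) (by fun_prop))).1
    (Eventually.of_forall h1)
  obtain ⟨t, ht, ht0⟩ := (h2.and (Measure.ae_ne volume (0 : ℝ))).exists
  have h3 : volume ((t • ·) ⁻¹' ((z + ·) ⁻¹' {w | w ∈ U ∧ f w = 0})) = 0 := by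
    rw [ae_iff] at ht
    simp only [not_not] at ht
    exact ht
  rw [Measure.addHaar_preimage_smul _ ht0, measure_preimage_add, mul_eq_zero] at h3
  refine h3.resolve_left ?_
  rw [ENNReal.ofReal_eq_zero, not_le]
  positivity

end Pool.Agent.P.MP_2ff09b_gt
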