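import Pool.Agent.P.MP_2ff09b_gt.A1

/-! CVX-A4. The infinitesimal Harnack norm `nr`.
Sketch. Key bound: if l maps the unit disc holomorphically to the right half plane then
|l'(0)| <= 2 re l(0) (Schwarz lemma for (l - l 0) / (l + conj (l 0))). It gives boundedness of the
set in the definition of nr (discs z + t v) and nr_le_two_of_disc. The set is nonempty (f = 1).
Separation: RCLike.geometric_hahn_banach_open_point gives a complex functional l with
re l w < re l y for all w in D when y is not in D; then f = re (l y) - l is in PosRe D.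
exists_norm_le_nr: if nr z v < 1 then z + v is in D, so the norm of v is at most diam D. -/

open Set MeasureTheory Complex Filter Topology Metric

noncomputable section

namespace Pool.Agent.P.MP_2ff09b_gt

variable {E : Type*} [NormedAddCommGroup E] [NormedSpace ℂ E] [FiniteDimensional ℂ E] {D : Set E}


omit [FiniteDimensional ℂ E] in
theorem A4_key {f : E → ℂ} {z : E} {r : ℝ} (hr : 0 < r) (hf : f ∈ PosRe (ball z r)) (v : E) :
    ‖fderiv ℂ f z v‖ ≤ 2 * ‖v‖ / r * (f z).re := by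
  have h0 := hf.2 z (mem_ball_self hr)
  have h1 : ∀ w ∈ ball z r, f w + (starRingEnd ℂ) (f z) ≠ 0 := fun w hw h => by
    have := congrArg Complex.re h
    rw [add_re, conj_re, zero_re] at this
    linarith [hf.2 w hw]
  have h2 := norm_fderiv_le_div_of_mapsTo_ball (R₂ := 1)
    (f := fun w => (f w - f z) / (f w + (starRingEnd ℂ) (f z)))
    (by
      simp only [div_eq_mul_inv]
      exact (hf.1.sub_const _).mul ((hf.1.add_const _).inv h1)) (fun w hw => by
      rw [mem_closedBall, sub_self, zero_div, dist_zero_right, norm_div,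
        div_le_one (norm_pos_iff.2 (h1 w hw)), ← sq_le_sq₀ (norm_nonneg _) (norm_nonneg _),
        Complex.sq_norm, Complex.sq_norm, normSq_apply, normSq_apply]
      simp only [sub_re, sub_im, add_re, add_im, conj_re, conj_im]
      nlinarith [mul_pos h0 (hf.2 w hw)]) hr
  have h3 : HasDerivAt (fun u : ℂ => (u - f z) / (u + (starRingEnd ℂ) (f z)))
      (f z + (starRingEnd ℂ) (f z))⁻¹ (f z) := by
    have h := h1 z (mem_ball_self hr)
    refine (((hasDerivAt_id' (f z)).sub_const (f z)).fun_div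
      ((hasDerivAt_id' (f z)).add_const ((starRingEnd ℂ) (f z))) h).congr_deriv ?_
    field_simp
    ring
  have h4 := (h3.comp_hasFDerivAt z
    (hf.1.differentiableAt (ball_mem_nhds z hr)).hasFDerivAt).fderiv
  have h5 := ContinuousLinearMap.le_of_opNorm_le _ (h4 ▸ h2) v
  rw [smul_apply, norm_smul, norm_inv, add_conj, norm_real,
    Real.norm_of_nonneg (by positivity), inv_mul_le_iff₀ (by positivity)] at h5
  refine h5.trans_eq ?_
  ring

omit [FiniteDimensional ℂ E] in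
theorem A4_one : (fun _ : E => (1 : ℂ)) ∈ PosRe D :=
  ⟨differentiableOn_const _, fun _ _ => one_pos⟩

omit [FiniteDimensional ℂ E] in
theorem BCD.exists_sep (hD : BCD D) {y : E} (hy : y ∉ D) :
    ∃ l : E →L[ℂ] ℂ, (∀ w ∈ D, (l w).re < (l y).re) ∧
      (fun w => (((l y).re : ℝ) : ℂ) - l w) ∈ PosRe D := by
  obtain ⟨l, hl⟩ := RCLike.geometric_hahn_banach_open_point (𝕜 := ℂ) hD.convex hD.isOpen hy
  refine ⟨l, hl, (l.differentiable.const_sub _).differentiableOn, fun w hw => ?_⟩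
  rw [sub_re, ofReal_re, sub_pos]
  exact hl w hw

omit [FiniteDimensional ℂ E] in
theorem le_nr (hD : BCD D) {z : E} (hz : z ∈ D) {f : E → ℂ} (hf : f ∈ PosRe D) (v : E) :
    ‖fderiv ℂ f z v‖ ≤ nr D z v * (f z).re := by
  obtain ⟨r, hr, h⟩ := Metric.isOpen_iff.1 hD.isOpen z hz
  rw [← div_le_iff₀ (hf.2 z hz)]
  refine le_csSup ⟨2 * ‖v‖ / r, ?_⟩ ⟨f, hf, rfl⟩
  rintro _ ⟨g, hg, rfl⟩
  exact (div_le_iff₀ (hg.2 z hz)).2 (A4_key hr ⟨hg.1.mono h, fun w hw => hg.2 w (h hw)⟩ v)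

omit [FiniteDimensional ℂ E] in
theorem nr_le {z v : E} (hz : z ∈ D) {c : ℝ}
    (h : ∀ f ∈ PosRe D, ‖fderiv ℂ f z v‖ ≤ c * (f z).re) : nr D z v ≤ c := by
  refine csSup_le ⟨_, _, A4_one, rfl⟩ ?_
  rintro _ ⟨g, hg, rfl⟩
  exact (div_le_iff₀ (hg.2 z hz)).2 (h g hg)

omit [FiniteDimensional ℂ E] in
theorem nr_nonneg {z : E} (hz : z ∈ D) (v : E) : 0 ≤ nr D z v := by
  refine Real.sSup_nonneg ?_
  rintro _ ⟨g, hg, rfl⟩
  exact div_nonneg (norm_nonneg _) (hg.2 z hz).le

omit [FiniteDimensional ℂ E] in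
theorem nr_add_le (hD : BCD D) {z : E} (hz : z ∈ D) (v w : E) :
    nr D z (v + w) ≤ nr D z v + nr D z w := by
  refine nr_le hz fun f hf => ?_
  rw [map_add, add_mul]
  exact norm_add_le_of_le (le_nr hD hz hf v) (le_nr hD hz hf w)

omit [FiniteDimensional ℂ E] in
theorem nr_smul (hD : BCD D) {z : E} (hz : z ∈ D) (c : ℂ) (v : E) :
    nr D z (c • v) = ‖c‖ * nr D z v := by
  have key : ∀ (c : ℂ) (v : E), nr D z (c • v) ≤ ‖c‖ * nr D z v := fun c v =>
    nr_le hz fun f hf => by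
      rw [map_smul, norm_smul, mul_assoc]
      exact mul_le_mul_of_nonneg_left (le_nr hD hz hf v) (norm_nonneg c)
  refine (key c v).antisymm ?_
  rcases eq_or_ne c 0 with rfl | hc
  · rw [norm_zero, zero_mul]
    exact nr_nonneg hz _
  · have := key c⁻¹ (c • v)
    rwa [inv_smul_smul₀ hc, norm_inv, le_inv_mul_iff₀ (norm_pos_iff.2 hc)] at this

omit [FiniteDimensional ℂ E] in
theorem exists_seminorm_nr (hD : BCD D) {z : E} (hz : z ∈ D) :
    ∃ ν : Seminorm ℂ E, ∀ v, ν v = nr D z v := by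
  exact ⟨Seminorm.of (nr D z) (nr_add_le hD hz) (nr_smul hD hz), fun _ => rfl⟩

omit [FiniteDimensional ℂ E] in
theorem nr_le_two_of_disc {l : ℂ → E} (hD : BCD D) (hl : DifferentiableOn ℂ l (ball 0 1))
    (hm : MapsTo l (ball 0 1) D) : nr D (l 0) (deriv l 0) ≤ 2 := by
  have h0 := hm (mem_ball_self one_pos)
  refine nr_le h0 fun f hf => ?_
  have h1 := A4_key (f := f ∘ l) one_pos ⟨hf.1.comp hl hm, fun w hw => hf.2 _ (hm hw)⟩ 1
  rw [fderiv_comp _ (hf.1.differentiableAt (hD.isOpen.mem_nhds h0))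
    (hl.differentiableAt (ball_mem_nhds _ one_pos))] at h1
  simpa using h1

omit [FiniteDimensional ℂ E] in
theorem nr_le_norm (hD : BCD D) {z : E} {r : ℝ} (hr : 0 < r) (h : ball z r ⊆ D) (v : E) :
    nr D z v ≤ 2 * ‖v‖ / r := by
  exact nr_le (h (mem_ball_self hr)) fun f hf =>
    A4_key hr ⟨hf.1.mono h, fun w hw => hf.2 w (h hw)⟩ v

omit [FiniteDimensional ℂ E] in
theorem nr_comp {E' : Type*} [NormedAddCommGroup E'] [NormedSpace ℂ E'] {D' : Set E'}
    (hD : BCD D) (hD' : IsOpen D') {φ : E → E'} (hφ : DifferentiableOn ℂ φ D) (hm : MapsTo φ D D')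
    {z : E} (hz : z ∈ D) (v : E) : nr D' (φ z) (fderiv ℂ φ z v) ≤ nr D z v := by
  refine nr_le (hm hz) fun f hf => ?_
  have h1 := le_nr hD hz (f := f ∘ φ) ⟨hf.1.comp hφ hm, fun w hw => hf.2 _ (hm hw)⟩ v
  rwa [fderiv_comp _ (hf.1.differentiableAt (hD'.mem_nhds (hm hz)))
    (hφ.differentiableAt (hD.isOpen.mem_nhds hz))] at h1

omit [FiniteDimensional ℂ E] in
theorem mem_of_nr_lt_one (hD : BCD D) {z v : E} (hz : z ∈ D) (h : nr D z v < 1) : z + v ∈ D := by
  by_contra hy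
  obtain ⟨l, h1, h2⟩ := hD.exists_sep hy
  have h3 := le_nr hD hz h2 v
  have h4 := h1 z hz
  rw [(l.hasFDerivAt.const_sub _).fderiv, neg_apply, norm_neg] at h3
  simp only [map_add, add_re, sub_re, ofReal_re, add_sub_cancel_left,
    lt_add_iff_pos_right] at h3 h4
  nlinarith [re_le_norm (l v)]

omit [FiniteDimensional ℂ E] in
theorem exists_norm_le_nr (hD : BCD D) :
    ∃ C : ℝ, 0 < C ∧ ∀ z ∈ D, ∀ v, ‖v‖ ≤ C * nr D z v := by
  obtain ⟨C, hC, h⟩ := hD.bounded.exists_pos_norm_le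
  refine ⟨2 * C, by positivity, fun z hz v => ?_⟩
  rw [← div_le_iff₀' (by positivity)]
  refine le_of_forall_gt_imp_ge_of_dense fun t ht => ?_
  have t0 : 0 < t := (nr_nonneg hz v).trans_lt ht
  have h1 : ‖(t : ℂ)⁻¹‖ = t⁻¹ := by rw [norm_inv, norm_real, Real.norm_of_nonneg t0.le]
  have h2 := h _ (mem_of_nr_lt_one hD hz (v := (t : ℂ)⁻¹ • v) (by
    rw [nr_smul hD hz, h1, inv_mul_lt_iff₀ t0, mul_one]
    exact ht))
  have h3 := norm_sub_le_of_le h2 (h z hz)
  rw [add_sub_cancel_left, norm_smul, h1, inv_mul_le_iff₀ t0] at h3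
  rw [div_le_iff₀ (by positivity)]
  linarith

end Pool.Agent.P.MP_2ff09b_gt
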