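import Pool.Agent.P.MP_2ff09b_gt.A4

/-! CVX-A5. The Harnack distance `hd`.
Sketch. Along a curve, the derivative of log (re f (c t)) is bounded by nr (le_nr), so the mean
value inequality (norm_image_sub_le_of_norm_deriv_le_segment_01') bounds each element of the
defining set. For the segment from z to w (compact, so a thickening lies in D) nr_le_norm gives
a bound: the defining set is bounded above. On a compact K a uniform radius and the diameter of
D give a uniform bound (use the compact set of all segments, or the triangle inequality and a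
finite cover). -/

open Set MeasureTheory Complex Filter Topology Metric

noncomputable section

namespace Pool.Agent.P.MP_2ff09b_gt

variable {E : Type*} [NormedAddCommGroup E] [NormedSpace ℂ E] [FiniteDimensional ℂ E] {D : Set E}

omit [FiniteDimensional ℂ E] in
theorem A5_curve (hD : BCD D) {c c' : ℝ → E} {M : ℝ}
    (h : ∀ t ∈ Icc (0 : ℝ) 1, c t ∈ D ∧ HasDerivWithinAt c (c' t) (Icc 0 1) t ∧
      nr D (c t) (c' t) ≤ M) {f : E → ℂ} (hf : f ∈ PosRe D) :
    |Real.log (f (c 0)).re - Real.log (f (c 1)).re| ≤ M := by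
  have h1 : ∀ t ∈ Icc (0 : ℝ) 1, HasDerivWithinAt (fun t => Real.log (f (c t)).re)
      ((fderiv ℂ f (c t) (c' t)).re / (f (c t)).re) (Icc 0 1) t := fun t ht => by
    have h2 := ((hf.1.differentiableAt (hD.isOpen.mem_nhds (h t ht).1)).hasFDerivAt.restrictScalars
      ℝ).comp_hasDerivWithinAt t (h t ht).2.1
    exact (Complex.reCLM.hasFDerivAt.comp_hasDerivWithinAt t h2).log (hf.2 _ (h t ht).1).ne'
  have h3 := norm_image_sub_le_of_norm_deriv_le_segment_01' (C := M) h1 fun t ht => by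
    have ht' := Ico_subset_Icc_self ht
    have hp := hf.2 _ (h t ht').1
    rw [Real.norm_eq_abs, abs_div, abs_of_pos hp, div_le_iff₀ hp]
    exact (abs_re_le_norm _).trans ((le_nr hD (h t ht').1 hf _).trans
      (mul_le_mul_of_nonneg_right (h t ht').2.2 hp.le))
  rwa [Real.norm_eq_abs, abs_sub_comm] at h3

omit [FiniteDimensional ℂ E] in
theorem A5_seg (hD : BCD D) {z w : E} {r : ℝ} (hr : 0 < r)
    (h : ∀ t ∈ Icc (0 : ℝ) 1, ball (z + t • (w - z)) r ⊆ D) {f : E → ℂ} (hf : f ∈ PosRe D) :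
    |Real.log (f z).re - Real.log (f w).re| ≤ 2 * ‖w - z‖ / r := by
  have := A5_curve hD (c := fun t => z + t • (w - z)) (c' := fun _ => w - z)
    (M := 2 * ‖w - z‖ / r) (fun t ht => ⟨h t ht (mem_ball_self hr), by
      simpa using (((hasDerivAt_id t).smul_const (w - z)).const_add z).hasDerivWithinAt,
      nr_le_norm hD hr (h t ht) _⟩) hf
  simpa using this

omit [FiniteDimensional ℂ E] in
theorem A5_cpt (hD : BCD D) {K : Set E} (hK : IsCompact K) (hKD : K ⊆ D) :
    ∃ R : ℝ, ∀ z ∈ K, ∀ w ∈ K, ∀ f ∈ PosRe D, |Real.log (f z).re - Real.log (f w).re| ≤ R := by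
  have h1 : IsCompact ((fun x : (E × E) × ℝ => x.1.1 + x.2 • (x.1.2 - x.1.1)) ''
      ((K ×ˢ K) ×ˢ Icc (0 : ℝ) 1)) := ((hK.prod hK).prod isCompact_Icc).image (by fun_prop)
  obtain ⟨r, hr, hs⟩ := h1.exists_thickening_subset_open hD.isOpen (by
    rintro _ ⟨x, ⟨⟨ha, hb⟩, ht⟩, rfl⟩
    exact hD.convex.add_smul_sub_mem (hKD ha) (hKD hb) ht)
  obtain ⟨C, hC⟩ := isBounded_iff.1 hK.isBounded
  refine ⟨2 * C / r, fun z hz w hw f hf => (A5_seg hD hr (fun t ht => ?_) hf).trans ?_⟩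
  · exact (ball_subset_thickening (by exact ⟨((z, w), t), ⟨⟨hz, hw⟩, ht⟩, rfl⟩) r).trans hs
  · have := hC hw hz
    rw [dist_eq_norm] at this
    gcongr

set_option linter.unusedSectionVars false

theorem le_hd (hD : BCD D) {z w : E} (hz : z ∈ D) (hw : w ∈ D) {f : E → ℂ} (hf : f ∈ PosRe D) :
    |Real.log (f z).re - Real.log (f w).re| ≤ hd D z w := by
  obtain ⟨R, hR⟩ := A5_cpt hD (K := {z, w}) (toFinite _).isCompact
    (insert_subset hz (singleton_subset_iff.2 hw))
  refine le_csSup ⟨R, ?_⟩ ⟨f, hf, rfl⟩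
  rintro _ ⟨g, hg, rfl⟩
  exact hR z (by simp) w (by simp) g hg

omit [FiniteDimensional ℂ E] in
theorem hd_le {z w : E} {c : ℝ}
    (h : ∀ f ∈ PosRe D, |Real.log (f z).re - Real.log (f w).re| ≤ c) : hd D z w ≤ c := by
  refine Real.sSup_le ?_ ?_
  · rintro _ ⟨g, hg, rfl⟩
    exact h g hg
  · exact (abs_nonneg _).trans (h (fun _ => 1) ⟨differentiableOn_const _, fun _ _ => by simp⟩)

omit [FiniteDimensional ℂ E] in
theorem hd_nonneg (z w : E) : 0 ≤ hd D z w := by
  refine Real.sSup_nonneg ?_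
  rintro _ ⟨g, -, rfl⟩
  exact abs_nonneg _

omit [FiniteDimensional ℂ E] in
theorem hd_self (z : E) : hd D z z = 0 := by
  exact le_antisymm (hd_le fun f _ => by simp) (hd_nonneg z z)

omit [FiniteDimensional ℂ E] in
theorem hd_comm (z w : E) : hd D z w = hd D w z := by
  unfold hd
  congr 1
  ext r
  exact exists_congr fun f => by rw [abs_sub_comm]

theorem hd_triangle (hD : BCD D) {x y z : E} (hx : x ∈ D) (hy : y ∈ D) (hz : z ∈ D) :
    hd D x z ≤ hd D x y + hd D y z := by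
  exact hd_le fun f hf =>
    (abs_sub_le _ _ _).trans (add_le_add (le_hd hD hx hy hf) (le_hd hD hy hz hf))

theorem re_le_exp_hd (hD : BCD D) {z w : E} (hz : z ∈ D) (hw : w ∈ D) {f : E → ℂ}
    (hf : f ∈ PosRe D) : (f z).re ≤ Real.exp (hd D z w) * (f w).re := by
  have h := (le_abs_self _).trans (le_hd hD hz hw hf)
  rw [← Real.exp_log (hf.2 z hz), ← Real.exp_log (hf.2 w hw), ← Real.exp_add]
  exact Real.exp_le_exp.2 (by linarith)

theorem hd_comp {E' : Type*} [NormedAddCommGroup E'] [NormedSpace ℂ E'] {D' : Set E'}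
    (hD : BCD D) {φ : E → E'} (hφ : DifferentiableOn ℂ φ D) (hm : MapsTo φ D D')
    {z w : E} (hz : z ∈ D) (hw : w ∈ D) : hd D' (φ z) (φ w) ≤ hd D z w := by
  exact hd_le fun f hf =>
    le_hd hD hz hw (f := f ∘ φ) ⟨hf.1.comp hφ hm, fun x hx => hf.2 _ (hm hx)⟩

theorem hd_le_of_curve (hD : BCD D) {c c' : ℝ → E} {M : ℝ}
    (h : ∀ t ∈ Icc (0 : ℝ) 1, c t ∈ D ∧ HasDerivWithinAt c (c' t) (Icc 0 1) t ∧
      nr D (c t) (c' t) ≤ M) : hd D (c 0) (c 1) ≤ M := by
  exact hd_le fun f hf => A5_curve hD h hf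

theorem hd_le_of_ball (hD : BCD D) {z w : E} {r : ℝ} (hr : 0 < r) (h : ball z r ⊆ D)
    (hw : ‖w - z‖ ≤ r / 2) : hd D z w ≤ 4 * ‖w - z‖ / r := by
  refine hd_le fun f hf => (A5_seg hD (half_pos hr) (fun t ht => ?_) hf).trans (le_of_eq ?_)
  · refine (ball_subset_ball' ?_).trans h
    rw [dist_eq_norm, add_sub_cancel_left, norm_smul, Real.norm_of_nonneg ht.1]
    nlinarith [ht.2, norm_nonneg (w - z)]
  · field_simp
    ring

theorem hd_bdd_on_compact (hD : BCD D) {K : Set E} (hK : IsCompact K) (hKD : K ⊆ D) :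
    ∃ R : ℝ, ∀ z ∈ K, ∀ w ∈ K, hd D z w ≤ R := by
  obtain ⟨R, hR⟩ := A5_cpt hD hK hKD
  exact ⟨R, fun z hz w hw => hd_le (hR z hz w hw)⟩

theorem continuousOn_hd (hD : BCD D) {z : E} (hz : z ∈ D) : ContinuousOn (hd D z) D := by
  intro w hw
  obtain ⟨r, hr, h⟩ := Metric.isOpen_iff.1 hD.isOpen w hw
  refine ContinuousAt.continuousWithinAt (tendsto_iff_dist_tendsto_zero.2 ?_)
  have h1 : Tendsto (fun x : E => 4 * ‖x - w‖ / r) (𝓝 w) (𝓝 0) := by
    have : Continuous fun x : E => 4 * ‖x - w‖ / r := by fun_prop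
    simpa using this.tendsto w
  refine squeeze_zero' (Eventually.of_forall fun _ => dist_nonneg) ?_ h1
  filter_upwards [ball_mem_nhds w (half_pos hr)] with x hx
  have hx' : ‖x - w‖ < r / 2 := by rwa [mem_ball, dist_eq_norm] at hx
  have hxD : x ∈ D := h (ball_subset_ball (half_le_self hr.le) hx)
  have h2 := hd_le_of_ball hD hr h hx'.le
  have h3 := hd_triangle hD hz hw hxD
  have h4 := hd_triangle hD hz hxD hw
  rw [hd_comm x w] at h4
  rw [Real.dist_eq, abs_le]
  constructor <;> linarith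

end Pool.Agent.P.MP_2ff09b_gt
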