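import Pool.Agent.P.MP_2ff09b_gt.A5

/-! CVX-A6. Comparison of `nr` at two points; Harnack balls are compact.
Sketch. Everything is by separation (BCD.exists_sep): if y is not in D take l and f = c - l with
c = re (l y), put a(x) = c - re (l x) > 0, so |l v| <= nr z v * a(z) (le_nr) and
a(z) <= exp (hd z w) * a(w) (re_le_exp_hd). For nr_sub_le apply re_le_exp_hd to 1/u where
u(x) = c - l x + i im (l z) (so u z = a(z) is real): re (1/u w) >= exp (-d) / a(z) gives
|u w| <= |u w|^2 / re (u w) <= a(z) exp d, hence |l (w - z)| <= a(z) (1 + exp d); so the disc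
z + t (w - z) / (1 + exp d), |t| < 1, lies in D; finish with nr_le_two_of_disc and nr_smul.
Compactness: by add_smul_mem each point of the Harnack ball has a Euclidean ball of fixed radius
in D; the set is closed in the compact set of such points by continuousOn_hd. -/

open Set MeasureTheory Complex Filter Topology Metric

noncomputable section

namespace Pool.Agent.P.MP_2ff09b_gt

variable {E : Type*} [NormedAddCommGroup E] [NormedSpace ℂ E] [FiniteDimensional ℂ E] {D : Set E}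

omit [FiniteDimensional ℂ E] in
theorem A6_disc (hD : BCD D) {z u : E} (h : ∀ ζ : ℂ, ‖ζ‖ < 1 → z + ζ • u ∈ D) :
    nr D z u ≤ 2 := by
  have h1 : ∀ ζ : ℂ, HasDerivAt (fun ζ : ℂ => z + ζ • u) u ζ := fun ζ => by
    simpa using ((hasDerivAt_id ζ).smul_const u).const_add z
  have h2 := nr_le_two_of_disc (l := fun ζ : ℂ => z + ζ • u) hD
    (fun ζ _ => (h1 ζ).differentiableAt.differentiableWithinAt)
    fun ζ hζ => h ζ (mem_ball_zero_iff.1 hζ)
  rw [(h1 0).deriv] at h2
  simpa using h2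

theorem A6_lin (hD : BCD D) {z w : E} (hz : z ∈ D) (hw : w ∈ D) {l : E →L[ℂ] ℂ} {c : ℝ}
    (h : ∀ x ∈ D, (l x).re < c) :
    ‖l (w - z)‖ ≤ (c - (l z).re) * (1 + Real.exp (hd D z w)) := by
  have ha : 0 < c - (l z).re := sub_pos.2 (h z hz)
  obtain ⟨g, hg⟩ : ∃ g : E → ℂ, g = fun x => ((c - (l z).re : ℝ) : ℂ) - l (x - z) := ⟨_, rfl⟩
  have hre : ∀ x ∈ D, 0 < (g x).re := fun x hx => by
    have := h x hx
    simp only [hg, map_sub, sub_re, ofReal_re]
    linarith
  have hne : ∀ x ∈ D, g x ≠ 0 := fun x hx h0 => by simpa [h0] using hre x hx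
  have hP : (fun x => (g x)⁻¹) ∈ PosRe D := by
    refine ⟨DifferentiableOn.inv (by rw [hg]; fun_prop) hne, fun x hx => ?_⟩
    rw [inv_re]
    exact div_pos (hre x hx) (normSq_pos.2 (hne x hx))
  have h1 := re_le_exp_hd hD hz hw hP
  have h2 : (g z)⁻¹.re = (c - (l z).re)⁻¹ := by
    rw [hg]
    simp only [sub_self, map_zero, sub_zero]
    rw [← ofReal_inv, ofReal_re]
  have h3 : (g w)⁻¹.re ≤ ‖g w‖⁻¹ := (re_le_norm _).trans_eq (norm_inv _)
  have h4 : ‖g w‖ ≤ (c - (l z).re) * Real.exp (hd D z w) := by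
    have h5 := h1.trans (mul_le_mul_of_nonneg_left h3 (Real.exp_pos _).le)
    rw [h2, ← div_eq_mul_inv, le_div_iff₀ (norm_pos_iff.2 (hne w hw)),
      inv_mul_le_iff₀ ha] at h5
    exact h5
  have h5 : l (w - z) = ((c - (l z).re : ℝ) : ℂ) - g w := by
    rw [hg]
    ring
  have h6 := norm_sub_le ((c - (l z).re : ℝ) : ℂ) (g w)
  rw [norm_real, Real.norm_of_nonneg ha.le] at h6
  rw [h5]
  linarith

theorem add_smul_mem (hD : BCD D) {z w v : E} (hz : z ∈ D) (hw : w ∈ D) (h : nr D z v < 1) :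
    w + ((Real.exp (-hd D z w) : ℝ) : ℂ) • v ∈ D := by
  by_contra hy
  obtain ⟨l, hl, hP⟩ := hD.exists_sep hy
  have h1 := le_nr hD hz hP v
  have h2 := re_le_exp_hd hD hz hw hP
  have h3 := hP.2 z hz
  rw [(l.hasFDerivAt.const_sub _).fderiv, _root_.neg_apply, norm_neg] at h1
  have h4 := (re_le_norm (l v)).trans h1
  have h5 := mul_lt_mul_of_pos_right h h3
  have h6 : Real.exp (hd D z w) * Real.exp (-hd D z w) = 1 := by
    rw [← Real.exp_add, add_neg_cancel, Real.exp_zero]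
  have h7 : (((l (w + ((Real.exp (-hd D z w) : ℝ) : ℂ) • v)).re : ℂ) - l w).re =
      Real.exp (-hd D z w) * (l v).re := by
    rw [map_add, map_smul, smul_eq_mul, sub_re, ofReal_re, add_re, re_ofReal_mul]
    ring
  beta_reduce at h2 h3 h4 h5
  rw [h7, ← mul_assoc, h6] at h2
  linarith

theorem nr_le_exp_mul (hD : BCD D) {z w : E} (hz : z ∈ D) (hw : w ∈ D) (v : E) :
    nr D w v ≤ 2 * Real.exp (hd D z w) * nr D z v := by
  have he := Real.exp_pos (hd D z w)
  have key : ∀ t, nr D z v < t → nr D w v / (2 * Real.exp (hd D z w)) ≤ t := by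
    intro t ht
    have ht0 : 0 < t := (nr_nonneg hz v).trans_lt ht
    have h1 : nr D w (((Real.exp (-hd D z w) / t : ℝ) : ℂ) • v) ≤ 2 := by
      refine A6_disc hD fun ζ hζ => ?_
      have h2 := add_smul_mem hD hz hw (v := (ζ / t) • v) (by
        rw [nr_smul hD hz, norm_div, norm_real, Real.norm_of_nonneg ht0.le, div_mul_eq_mul_div,
          div_lt_one ht0]
        exact (mul_le_of_le_one_left (nr_nonneg hz v) hζ.le).trans_lt ht)
      rw [smul_smul] at h2 ⊢
      rw [show ζ * ((Real.exp (-hd D z w) / t : ℝ) : ℂ) =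
        ((Real.exp (-hd D z w) : ℝ) : ℂ) * (ζ / t) by rw [ofReal_div]; ring]
      exact h2
    rw [nr_smul hD hw, norm_real, Real.norm_of_nonneg (by positivity), Real.exp_neg] at h1
    rw [div_le_iff₀ (by positivity)]
    have h2 : (Real.exp (hd D z w))⁻¹ / t * nr D w v * (Real.exp (hd D z w) * t) = nr D w v := by
      field_simp
    have h3 := mul_le_mul_of_nonneg_right h1 (mul_pos he ht0).le
    linarith
  have h := le_of_forall_gt_imp_ge_of_dense key
  rwa [div_le_iff₀' (by positivity)] at h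

theorem nr_sub_le (hD : BCD D) {z w : E} (hz : z ∈ D) (hw : w ∈ D) :
    nr D z (w - z) ≤ 2 * (1 + Real.exp (hd D z w)) := by
  have hM : 0 < 1 + Real.exp (hd D z w) := by positivity
  have h1 : nr D z ((((1 + Real.exp (hd D z w))⁻¹ : ℝ) : ℂ) • (w - z)) ≤ 2 := by
    refine A6_disc hD fun ζ hζ => ?_
    by_contra hy
    obtain ⟨l, hl, -⟩ := hD.exists_sep hy
    have h2 := A6_lin hD hz hw hl
    have h3 := sub_pos.2 (hl z hz)
    have h4 := re_le_norm (l (ζ • (((1 + Real.exp (hd D z w))⁻¹ : ℝ) : ℂ) • (w - z)))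
    rw [map_add, add_re, add_sub_cancel_left] at h2 h3
    conv_rhs at h4 => rw [map_smul, map_smul, norm_smul, norm_smul, norm_real,
      Real.norm_of_nonneg (inv_pos.2 hM).le]
    rw [← inv_mul_le_iff₀' hM, mul_comm] at h2
    have h5 := mul_le_mul_of_nonneg_left h2 (norm_nonneg ζ)
    have h6 := mul_lt_mul_of_pos_right hζ h3
    linarith
  rwa [nr_smul hD hz, norm_real, Real.norm_of_nonneg (inv_pos.2 hM).le, inv_mul_le_iff₀' hM] at h1

theorem isCompact_hd_ball (hD : BCD D) {z : E} (hz : z ∈ D) (R : ℝ) :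
    IsCompact {w | w ∈ D ∧ hd D z w ≤ R} := by
  have := FiniteDimensional.proper ℂ E
  obtain ⟨r, hr, hb⟩ := Metric.isOpen_iff.1 hD.isOpen z hz
  have hρ : 0 < Real.exp (-R) * (r / 2) := by positivity
  have hK : IsClosed {w : E | ball w (Real.exp (-R) * (r / 2)) ⊆ D} := by
    have e : {w : E | ball w (Real.exp (-R) * (r / 2)) ⊆ D} =
        ⋂ x ∈ Dᶜ, (ball x (Real.exp (-R) * (r / 2)))ᶜ := by
      ext w
      simp only [mem_ofPred_eq, mem_iInter, mem_compl_iff]
      exact ⟨fun h x hx hw => hx (h (mem_ball_comm.1 hw)),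
        fun h x hx => by_contra fun hx' => h x hx' (mem_ball_comm.1 hx)⟩
    rw [e]
    exact isClosed_biInter fun x _ => isOpen_ball.isClosed_compl
  have hKD : {w : E | ball w (Real.exp (-R) * (r / 2)) ⊆ D} ⊆ D := fun w hw =>
    hw (mem_ball_self hρ)
  have e : {w | w ∈ D ∧ hd D z w ≤ R} =
      {w : E | ball w (Real.exp (-R) * (r / 2)) ⊆ D} ∩ hd D z ⁻¹' Iic R := by
    refine Subset.antisymm (fun w hw => ⟨fun x hx => ?_, hw.2⟩) fun w hw => ⟨hKD hw.1, hw.2⟩
    have h1 := add_smul_mem hD hz hw.1 (v := ((Real.exp (hd D z w) : ℝ) : ℂ) • (x - w)) (by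
      refine (nr_le_norm hD hr hb _).trans_lt ?_
      rw [div_lt_one hr, norm_smul, norm_real, Real.norm_of_nonneg (Real.exp_pos _).le]
      have h2 := mul_lt_mul_of_pos_left (mem_ball_iff_norm.1 hx) (Real.exp_pos R)
      rw [← mul_assoc, ← Real.exp_add, add_neg_cancel, Real.exp_zero] at h2
      have h3 := mul_le_mul_of_nonneg_right (Real.exp_le_exp.2 hw.2) (norm_nonneg (x - w))
      linarith)
    rwa [smul_smul, ← ofReal_mul, ← Real.exp_add, neg_add_cancel, Real.exp_zero, ofReal_one,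
      one_smul, add_sub_cancel] at h1
  refine isCompact_of_isClosed_isBounded ?_ (hD.bounded.subset fun w hw => hw.1)
  rw [e]
  exact ((continuousOn_hd hD hz).mono hKD).preimage_isClosed_of_isClosed hK isClosed_Iic

/-- Points at bounded Harnack distance from a compact set form a relatively compact set. -/
theorem exists_compact_hd (hD : BCD D) {K : Set E} (hK : IsCompact K) (hKD : K ⊆ D) (R : ℝ) :
    ∃ K' : Set E, IsCompact K' ∧ K' ⊆ D ∧ ∀ z ∈ K, ∀ w ∈ D, hd D z w ≤ R → w ∈ K' := by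
  obtain ⟨z₀, hz₀⟩ := hD.nonempty
  obtain ⟨R₀, hR₀⟩ := hd_bdd_on_compact hD (hK.insert z₀) (insert_subset hz₀ hKD)
  refine ⟨_, isCompact_hd_ball hD hz₀ (R₀ + R), fun w hw => hw.1, fun z hz w hw h => ⟨hw, ?_⟩⟩
  exact (hd_triangle hD hz₀ (hKD hz) hw).trans
    (add_le_add (hR₀ z₀ (mem_insert _ _) z (mem_insert_of_mem _ hz)) h)

end Pool.Agent.P.MP_2ff09b_gt
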