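import Pool.Agent.P.MP_2ff09b_gt.A2
import Pool.Agent.P.MP_2ff09b_gt.A6

/-! CVX-A7. Limits of holomorphic self-maps; properness of the action of Aut(D); uniqueness
theorem of H. Cartan.
Sketch. ultra_montel applies since D is bounded. If f i (x i) stays in K' with x i in K then
hd (f i (x i)) (f i z) <= hd (x i) z <= R, so f i z stays in a compact subset of D
(exists_compact_hd). For automorphisms take the limits of h i and of the inverses and pass to the
limit in the compositions (TendstoLocallyUniformlyOn.tendsto_comp), then exists_aut.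
Cartan: the Cesaro means of the iterates of phi are bounded holomorphic maps with derivative the
identity at o; an ultrafilter limit psi satisfies psi (phi z) = psi z and has derivative the
identity at o, so it is injective near o (inverse function theorem, contDiffAt_of_hol), hence
phi = id near o, then eq_zero_of_eventually. -/

open Set MeasureTheory Complex Filter Topology Metric

noncomputable section

namespace Pool.Agent.P.MP_2ff09b_gt

variable {E : Type*} [NormedAddCommGroup E] [NormedSpace ℂ E] [FiniteDimensional ℂ E] {D : Set E}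


theorem exists_limit_bdd (hD : BCD D) {ι : Type*} (𝒰 : Ultrafilter ι) {f : ι → E → E}
    (hf : ∀ i, DifferentiableOn ℂ (f i) D) (hm : ∀ i, MapsTo (f i) D D) :
    ∃ g : E → E, DifferentiableOn ℂ g D ∧ MapsTo g D (closure D) ∧
      TendstoLocallyUniformlyOn f g 𝒰 D ∧
      ∀ z ∈ D, Tendsto (fun i => fderiv ℂ (f i) z) 𝒰 (𝓝 (fderiv ℂ g z)) := by
  obtain ⟨M, hM⟩ := hD.bounded.exists_norm_le
  obtain ⟨g, h1, h2, h3⟩ := ultra_montel 𝒰 hD.isOpen (f := f) fun z hz => by
    obtain ⟨r, hr, h⟩ := Metric.isOpen_iff.1 hD.isOpen z hz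
    exact ⟨r, hr, M, Eventually.of_forall fun i => ⟨(hf i).mono h, fun w hw => hM _ (hm i (h hw))⟩⟩
  exact ⟨g, h1, fun z hz => mem_closure_of_tendsto (h2.tendsto_at hz)
    (Eventually.of_forall fun i => hm i hz), h2, h3⟩

theorem exists_limit_selfmap (hD : BCD D) {ι : Type*} (𝒰 : Ultrafilter ι) {f : ι → E → E}
    (hf : ∀ i, DifferentiableOn ℂ (f i) D) (hm : ∀ i, MapsTo (f i) D D) {K K' : Set E}
    (hK : IsCompact K) (hKD : K ⊆ D) (hK' : IsCompact K') (hKD' : K' ⊆ D) {x : ι → E}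
    (hx : ∀ᶠ i in (𝒰 : Filter ι), x i ∈ K ∧ f i (x i) ∈ K') :
    ∃ g : E → E, DifferentiableOn ℂ g D ∧ MapsTo g D D ∧ TendstoLocallyUniformlyOn f g 𝒰 D ∧
      ∀ z ∈ D, Tendsto (fun i => fderiv ℂ (f i) z) 𝒰 (𝓝 (fderiv ℂ g z)) := by
  obtain ⟨g, h1, -, h2, h3⟩ := exists_limit_bdd hD 𝒰 hf hm
  refine ⟨g, h1, fun z hz => ?_, h2, h3⟩
  obtain ⟨R, hR⟩ := hd_bdd_on_compact hD (hK.insert z) (insert_subset hz hKD)
  obtain ⟨L, hL, hLD, h⟩ := exists_compact_hd hD hK' hKD' R
  refine hLD (hL.isClosed.mem_of_tendsto (h2.tendsto_at hz) (hx.mono fun i hi => ?_))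
  exact h _ hi.2 _ (hm i hz) ((hd_comp hD (hf i) (hm i) (hKD hi.1) hz).trans
    (hR _ (mem_insert_of_mem _ hi.1) _ (mem_insert _ _)))

omit [FiniteDimensional ℂ E] in
theorem A7_inv (hD : IsOpen D) {ι : Type*} {l : Filter ι} [l.NeBot]
    {f f' : ι → E → E} {g g' : E → E} (h : TendstoLocallyUniformlyOn f g l D) (hm : MapsTo g D D)
    (h' : TendstoLocallyUniformlyOn f' g' l D) (hg : DifferentiableOn ℂ g' D) {z : E} (hz : z ∈ D)
    (e : ∀ i, f' i (f i z) = z) : g' (g z) = z := by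
  have := h'.tendsto_comp (hg.continuousOn _ (hm hz)) (hm hz)
    (hD.nhdsWithin_eq (hm hz) ▸ h.tendsto_at hz)
  simp only [e] at this
  exact tendsto_nhds_unique this tendsto_const_nhds

theorem exists_limit_aut (hD : BCD D) {ι : Type*} (𝒰 : Ultrafilter ι) {h : ι → Equiv.Perm E}
    (hh : ∀ i, h i ∈ autGroup D) {K K' : Set E}
    (hK : IsCompact K) (hKD : K ⊆ D) (hK' : IsCompact K') (hKD' : K' ⊆ D) {x : ι → E}
    (hx : ∀ᶠ i in (𝒰 : Filter ι), x i ∈ K ∧ h i (x i) ∈ K') :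
    ∃ g ∈ autGroup D, TendstoLocallyUniformlyOn (fun i => (h i : E → E)) g 𝒰 D ∧
      ∀ z ∈ D, Tendsto (fun i => fderiv ℂ (h i) z) 𝒰 (𝓝 (fderiv ℂ g z)) := by
  obtain ⟨g, g1, g2, g3, g4⟩ := exists_limit_selfmap hD 𝒰 (fun i => aut_hol (hh i))
    (fun i => aut_maps (hh i)) hK hKD hK' hKD' hx
  obtain ⟨k, k1, k2, k3, -⟩ := exists_limit_selfmap hD 𝒰 (fun i => aut_hol_symm (hh i))
    (fun i => aut_maps_symm (hh i)) hK' hKD' hK hKD (x := fun i => h i (x i))
    (hx.mono fun i hi => ⟨hi.2, by simpa using hi.1⟩)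
  obtain ⟨φ, hφ, e, -⟩ := exists_aut g1 k1 g2 k2
    (fun z hz => A7_inv hD.isOpen g3 g2 k3 k1 hz fun i => (h i).symm_apply_apply z)
    (fun z hz => A7_inv hD.isOpen k3 k2 g3 g1 hz fun i => (h i).apply_symm_apply z)
  refine ⟨φ, hφ, g3.congr_right fun z hz => (e z hz).symm, fun z hz => ?_⟩
  rw [Filter.EventuallyEq.fderiv_eq (eventually_of_mem (hD.isOpen.mem_nhds hz) e)]
  exact g4 z hz

theorem cartan_unique (hD : BCD D) {φ : E → E} (hφ : DifferentiableOn ℂ φ D) (hm : MapsTo φ D D)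
    {o : E} (ho : o ∈ D) (h0 : φ o = o) (h1 : fderiv ℂ φ o = ContinuousLinearMap.id ℂ E) :
    ∀ z ∈ D, φ z = z := by
  have := FiniteDimensional.complete ℂ E
  obtain ⟨M, hM⟩ := hD.bounded.exists_norm_le
  have hu : (hyperfilter ℕ : Filter ℕ) ≤ atTop := Nat.hyperfilter_le_atTop
  have hpos : ∀ᶠ n : ℕ in hyperfilter ℕ, 0 < n := hu (eventually_gt_atTop 0)
  obtain ⟨ψ, ψ1, ψ2, ψ3⟩ := ultra_montel (hyperfilter ℕ) hD.isOpen
    (f := birkhoffAverage ℂ φ id) fun z hz => by
      obtain ⟨r, hr, h⟩ := Metric.isOpen_iff.1 hD.isOpen z hz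
      refine ⟨r, hr, M, hpos.mono fun n hn => ⟨DifferentiableOn.mono ?_ h, fun w hw => ?_⟩⟩
      · exact (DifferentiableOn.fun_sum fun k _ => hφ.iterate hm k).fun_const_smul _
      · rw [birkhoffAverage, norm_smul, norm_inv, Complex.norm_natCast,
          inv_mul_le_iff₀ (Nat.cast_pos.2 hn)]
        refine (norm_sum_le_of_le _ fun k _ => hM _ (hm.iterate k (h hw))).trans_eq ?_
        simp
  have e1 : ∀ z ∈ D, ψ (φ z) = ψ z := fun z hz => sub_eq_zero.1 <|
    tendsto_nhds_unique ((ψ2.tendsto_at (hm hz)).sub (ψ2.tendsto_at hz))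
      ((tendsto_birkhoffAverage_apply_sub_birkhoffAverage ℂ (hD.bounded.subset
        (range_subset_iff.2 fun k => hm.iterate k hz))).mono_left hu)
  have hφo := hφ.differentiableAt (hD.isOpen.mem_nhds ho)
  have e2 : fderiv ℂ ψ o = (ContinuousLinearEquiv.refl ℂ E : E →L[ℂ] E) := by
    refine tendsto_nhds_unique (ψ3 o ho) (tendsto_const_nhds.congr' (hpos.mono fun n hn => ?_))
    have := (HasFDerivAt.fun_sum (u := Finset.range n) fun k _ =>
      (h1 ▸ hφo.hasFDerivAt).iterate h0 k).fun_const_smul (n : ℂ)⁻¹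
    refine ((HasFDerivAt.fderiv this).trans ?_).symm
    ext v
    simp [← ContinuousLinearMap.one_def, ← Nat.cast_smul_eq_nsmul ℂ, hn.ne']
  have hs := (contDiffAt_of_hol hD.isOpen ψ1 ho 1).hasStrictFDerivAt (by simp)
  rw [e2] at hs
  have h2 := hs.eventually_left_inverse
  have h3 : Tendsto φ (𝓝 o) (𝓝 o) := by simpa only [ContinuousAt, h0] using hφo.continuousAt
  intro z hz
  refine sub_eq_zero.1 (eq_zero_of_eventually hD.isOpen hD.convex
    (hφ.fun_sub differentiableOn_id) ho ?_ z hz)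
  filter_upwards [h2, h3.eventually h2, hD.isOpen.mem_nhds ho] with w a b c
  rw [← b, e1 w c, a, id, sub_self]

end Pool.Agent.P.MP_2ff09b_gt
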