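import Pool.Agent.P.MP_2ff09b_gt.A1

/-! CVX-A9. Holomorphic coefficients; bounded periodic functions on a half plane; discrete
groups are countable.
Sketch. exists_coef: choose xi z by hypothesis (unique by injectivity); near z0 take a left
inverse l of A z0 (finite dimension), then l ∘ A z is invertible near z0 and
xi z = (l ∘ A z)^(-1) (l (X z)); the inverse is differentiable (Ring.inverse, differentiableAt_inverse).
periodic_mean: the mean over a horizontal period does not depend on the height (Cauchy theorem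
for a rectangle, integral_boundary_rect_eq_zero_of_continuousOn_of_differentiableOn, the vertical
sides cancel), and the derivative at height t is at most 2 M / t (norm_fderiv_le_of_bound).
countable_of_discrete: exhaust D by compact sets K_j (every compact subset of D lies in some K_j);
the elements isolated with data (K_j, 1/k) have restrictions to K_j that are 1/k separated in the
separable space C(K_j, E), so they are countably many. -/

open Set MeasureTheory Complex Filter Topology Metric

noncomputable section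

namespace Pool.Agent.P.MP_2ff09b_gt

variable {E : Type*} [NormedAddCommGroup E] [NormedSpace ℂ E] [FiniteDimensional ℂ E] {D : Set E}

variable {F : Type*} [NormedAddCommGroup F] [NormedSpace ℂ F] [CompleteSpace F]


theorem exists_coef {P : Type*} [NormedAddCommGroup P] [NormedSpace ℂ P] [FiniteDimensional ℂ P]
    {U : Set E} (hU : IsOpen U) {A : E → P →L[ℂ] F} {X : E → F} (hA : DifferentiableOn ℂ A U)
    (hX : DifferentiableOn ℂ X U) (hinj : ∀ z ∈ U, Function.Injective (A z))
    (hmem : ∀ z ∈ U, ∃ a, A z a = X z) :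
    ∃ ξ : E → P, DifferentiableOn ℂ ξ U ∧ ∀ z ∈ U, A z (ξ z) = X z := by
  classical
  have := FiniteDimensional.complete ℂ P
  have hex : ∀ z, ∃ a, z ∈ U → A z a = X z := fun z => by
    by_cases hz : z ∈ U
    · obtain ⟨a, ha⟩ := hmem z hz
      exact ⟨a, fun _ => ha⟩
    · exact ⟨0, fun h => absurd h hz⟩
  choose ξ hξ using hex
  refine ⟨ξ, fun z₀ hz₀ => ?_, hξ⟩
  have hfd : FiniteDimensional ℂ (A z₀).range :=
    inferInstanceAs (FiniteDimensional ℂ (LinearMap.range (A z₀ : P →ₗ[ℂ] F)))
  obtain ⟨l, hl⟩ :=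
    ContinuousLinearMap.HasLeftInverse.of_injective_of_isClosed_range_of_closedComplement_range
      (hinj z₀ hz₀) (Submodule.closed_of_finiteDimensional (A z₀).range)
      (Submodule.ClosedComplemented.of_finiteDimensional _)
  have hA0 := hA.differentiableAt (hU.mem_nhds hz₀)
  have hX0 := hX.differentiableAt (hU.mem_nhds hz₀)
  have hB : DifferentiableAt ℂ (fun z => l.comp (A z)) z₀ := (differentiableAt_const l).clm_comp hA0
  have h1 : l.comp (A z₀) = 1 := by
    ext a
    exact hl a
  have hu : IsUnit (l.comp (A z₀)) := h1 ▸ isUnit_one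
  have hev : ∀ᶠ z in 𝓝 z₀, IsUnit (l.comp (A z)) :=
    hB.continuousAt.eventually (Units.isOpen.mem_nhds hu)
  have hd : DifferentiableAt ℂ (fun z => Ring.inverse (l.comp (A z)) (l (X z))) z₀ :=
    (hB.inverse hu).clm_apply (l.differentiableAt.comp z₀ hX0)
  refine (hd.congr_of_eventuallyEq ?_).differentiableWithinAt
  filter_upwards [hev, hU.mem_nhds hz₀] with z h2 h3
  have h4 := congrArg (fun T : P →L[ℂ] P => T (ξ z)) (Ring.inverse_mul_cancel _ h2)
  rw [← hξ z h3]
  exact h4.symm

theorem periodic_mean {l : ℂ → F} {M : ℝ} (hol : DifferentiableOn ℂ l {ζ | 0 < ζ.im})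
    (cont : ContinuousOn l {ζ | 0 ≤ ζ.im})
    (per : ∀ ζ : ℂ, 0 ≤ ζ.im → l (ζ + 2 * Real.pi) = l ζ) (bdd : ∀ ζ : ℂ, 0 ≤ ζ.im → ‖l ζ‖ ≤ M)
    {t : ℝ} (ht : 0 < t) :
    ‖l (I * t) - ((2 * Real.pi)⁻¹ : ℝ) • ∫ θ in (0 : ℝ)..(2 * Real.pi), l θ‖ ≤
      4 * Real.pi * M / t := by
  have hpi := Real.pi_pos
  have hM : 0 ≤ M := (norm_nonneg _).trans (bdd 0 (by simp))
  have hrect := integral_boundary_rect_eq_zero_of_continuousOn_of_differentiableOn l 0
    (2 * Real.pi + t * I) (cont.mono fun ζ hζ => ?_) (hol.mono fun ζ hζ => ?_)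
  rotate_left
  · have h1 := hζ.2
    simp only [zero_im, add_im, mul_im, re_ofNat, ofReal_im, mul_zero, im_ofNat, ofReal_re,
      zero_mul, add_zero, I_im, mul_one, I_re, zero_add, mem_preimage, uIcc_of_le ht.le] at h1
    exact h1.1
  · have h1 := hζ.2
    simp only [zero_im, add_im, mul_im, re_ofNat, ofReal_im, mul_zero, im_ofNat, ofReal_re,
      zero_mul, add_zero, I_im, mul_one, I_re, zero_add, mem_preimage, min_eq_left ht.le] at h1
    exact h1.1
  have e1 : (2 * Real.pi + t * I : ℂ).re = 2 * Real.pi := by simp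
  have e2 : (2 * Real.pi + t * I : ℂ).im = t := by simp
  rw [e1, e2, zero_re, zero_im] at hrect
  have e3 : ∫ y in (0 : ℝ)..t, l (((2 * Real.pi : ℝ) : ℂ) + y * I) =
      ∫ y in (0 : ℝ)..t, l (((0 : ℝ) : ℂ) + y * I) := by
    refine intervalIntegral.integral_congr fun y hy => ?_
    rw [uIcc_of_le ht.le] at hy
    have h1 := per (y * I) (by simpa using hy.1)
    simp only [ofReal_mul, ofReal_ofNat, ofReal_zero, zero_add]
    rw [add_comm, h1]
  rw [e3, add_sub_cancel_right, sub_eq_zero] at hrect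
  simp only [ofReal_zero, zero_mul, add_zero] at hrect
  have hop : IsOpen {ζ : ℂ | 0 < ζ.im} := isOpen_lt continuous_const continuous_im
  have hlip : ∀ θ : ℝ, ‖l (I * t) - l (θ + t * I)‖ ≤ 2 * M / t * |θ| := fun θ => by
    have hc : Convex ℝ {ζ : ℂ | ζ.im = t} := convex_hyperplane Complex.imLm.isLinear t
    have h1 := hc.norm_image_sub_le_of_norm_fderiv_le (𝕜 := ℂ) (f := l) (C := 2 * M / t)
      (x := θ + t * I) (y := I * t)
      (fun p hp => hol.differentiableAt (hop.mem_nhds (by rw [mem_setOf_eq, hp]; exact ht)))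
      (fun p hp => ?_) (by simp) (by simp)
    · have h2 : (I * t - (θ + t * I) : ℂ) = -θ := by ring
      rwa [h2, norm_neg, Complex.norm_real, Real.norm_eq_abs] at h1
    · have hb : ∀ w ∈ ball p t, 0 < w.im := fun w hw => by
        have h2 := (abs_im_le_norm (w - p)).trans_lt (mem_ball_iff_norm.1 hw)
        rw [sub_im, hp] at h2
        linarith [(abs_lt.1 h2).1]
      exact norm_fderiv_le_of_bound ht (hol.mono hb) fun w hw => bdd w (hb w hw).le
  have hint : IntervalIntegrable (fun θ : ℝ => l (θ + t * I)) volume 0 (2 * Real.pi) := by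
    refine Continuous.intervalIntegrable ?_ _ _
    exact cont.comp_continuous (by fun_prop) fun θ => by simpa using ht.le
  have e4 : l (I * t) - ((2 * Real.pi)⁻¹ : ℝ) • ∫ θ in (0 : ℝ)..(2 * Real.pi), l θ =
      ((2 * Real.pi)⁻¹ : ℝ) • ∫ θ in (0 : ℝ)..(2 * Real.pi), (l (I * t) - l (θ + t * I)) := by
    rw [hrect, intervalIntegral.integral_sub intervalIntegrable_const hint,
      intervalIntegral.integral_const, smul_sub, smul_smul, sub_zero,
      inv_mul_cancel₀ (by positivity), one_smul]
  have h5 : ‖∫ θ in (0 : ℝ)..(2 * Real.pi), (l (I * t) - l (θ + t * I))‖ ≤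
      4 * Real.pi * M / t * |2 * Real.pi - 0| := by
    refine intervalIntegral.norm_integral_le_of_norm_le_const fun θ hθ => (hlip θ).trans ?_
    rw [uIoc_of_le (by positivity)] at hθ
    rw [abs_of_pos hθ.1]
    calc 2 * M / t * θ ≤ 2 * M / t * (2 * Real.pi) := by gcongr; exact hθ.2
      _ = 4 * Real.pi * M / t := by ring
  rw [e4, norm_smul, Real.norm_eq_abs, abs_of_pos (by positivity)]
  rw [sub_zero, abs_of_pos (by positivity)] at h5
  calc _ ≤ (2 * Real.pi)⁻¹ * (4 * Real.pi * M / t * (2 * Real.pi)) := by gcongr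
    _ = 4 * Real.pi * M / t := by field_simp

theorem countable_of_discrete (hD : IsOpen D) {Γ : Subgroup (Equiv.Perm E)}
    (hΓ : Γ ≤ autGroup D) (h : IsDiscreteAut D Γ) : Countable Γ := by
  have := FiniteDimensional.proper ℂ E
  have := hD.locallyCompactSpace
  let Φ : Γ → C(D, E) := fun γ =>
    ⟨fun z => γ.1 z, (aut_hol (hΓ γ.2)).continuousOn.restrict⟩
  have key : ∀ γ : Γ, ∃ B ∈ TopologicalSpace.countableBasis C(D, E), Φ γ ∈ B ∧
      ∀ γ' : Γ, Φ γ' ∈ B → γ' = γ := fun γ => by
    obtain ⟨K, hK, hc, ε, hε, hiso⟩ := h γ.1 γ.2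
    have hc' : IsCompact (Subtype.val ⁻¹' K : Set D) :=
      Topology.IsInducing.subtypeVal.isCompact_preimage' hc (by rwa [Subtype.range_coe])
    have hev : ∀ᶠ f in 𝓝 (Φ γ), ∀ z ∈ (Subtype.val ⁻¹' K : Set D), dist (f z) (Φ γ z) < ε := by
      refine hc'.eventually_forall_of_forall_eventually fun z _ => ?_
      have h1 : Continuous fun p : C(D, E) × D => dist (p.1 p.2) (Φ γ p.2) := by fun_prop
      exact h1.continuousAt.eventually_lt_const (by simpa using hε)
    obtain ⟨B, hB, h1, h2⟩ := (TopologicalSpace.isBasis_countableBasis C(D, E)).mem_nhds_iff.1 hev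
    exact ⟨B, hB, h1, fun γ' h3 =>
      Subtype.ext (hiso γ'.1 γ'.2 fun z hz => h2 h3 ⟨z, hK hz⟩ hz)⟩
  choose B hB h1 h2 using key
  have := (TopologicalSpace.countable_countableBasis C(D, E)).to_subtype
  refine Function.Injective.countable
    (f := fun γ => (⟨B γ, hB γ⟩ : TopologicalSpace.countableBasis C(D, E))) fun γ γ' e => ?_
  have e' : B γ = B γ' := congrArg Subtype.val e
  exact h2 γ' γ (e' ▸ h1 γ)

end Pool.Agent.P.MP_2ff09b_gt
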