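import Pool.Agent.P.MP_2ff09b_gt.A2
import Pool.Agent.P.MP_2ff09b_gt.A11

/-! CVX-B1. The sub-mean value inequality on balanced sets and local L² estimates.
Sketch. For v in S the function t ↦ f (z + t v) is holomorphic near the closed unit disc, so
|f z|² is at most the average over θ of |f (z + exp (i θ) v)|² (circle average of f², or mean value
and Cauchy-Schwarz: circleAverage, DiffContOnCl.circleAverage or
circleIntegral_sub_center_inv_smul_of_differentiable_on_off_countable). Integrate over v in S, use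
Tonelli and the invariance of Lebesgue measure and of S under multiplication by exp (i θ)
(Measure.addHaar_preimage_linearMap with det_restrictScalars_eq, or map_linearMap_addHaar_eq_smul),
then translation invariance. The second statement applies the first one at the points w of the ball
of radius r/2 with S the ball of radius r/2 and uses norm_fderiv_le_of_bound and
taylor_le_of_bound. -/

open Set MeasureTheory Complex Filter Topology Metric

noncomputable section

namespace Pool.Agent.P.MP_2ff09b_gt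

variable {n : ℕ}

theorem B1_circle {U : Set (Fin n → ℂ)} (hU : IsOpen U) {z v : Fin n → ℂ}
    (hz : ∀ ζ : ℂ, ‖ζ‖ ≤ 1 → z + ζ • v ∈ U) {f : (Fin n → ℂ) → ℂ} (hf : DifferentiableOn ℂ f U) :
    ENNReal.ofReal (2 * Real.pi) * ‖f z‖ₑ ^ 2 ≤
      ∫⁻ θ in Ioc 0 (2 * Real.pi), ‖f (z + circleMap 0 1 θ • v)‖ₑ ^ 2 := by
  have hd : ∀ ζ ∈ closedBall (0 : ℂ) |1|, DifferentiableAt ℂ (fun t : ℂ => f (z + t • v) ^ 2) ζ := by
    intro ζ hζ
    have h1 : DifferentiableAt ℂ f (z + ζ • v) :=
      hf.differentiableAt (hU.mem_nhds (hz ζ (by simpa using hζ)))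
    have h2 : DifferentiableAt ℂ (fun t : ℂ => z + t • v) ζ := by fun_prop
    exact (h1.comp ζ h2).pow 2
  have h := circleAverage_of_differentiable_on_off_countable countable_empty
    (fun ζ hζ => (hd ζ hζ).continuousAt.continuousWithinAt)
    fun ζ hζ => hd ζ (ball_subset_closedBall hζ.1)
  have hpi : 0 < 2 * Real.pi := by positivity
  rw [Real.circleAverage_def, intervalIntegral.integral_of_le hpi.le, zero_smul, add_zero,
    inv_smul_eq_iff₀ hpi.ne'] at h
  have h3 := enorm_integral_le_lintegral_enorm (μ := volume.restrict (Ioc 0 (2 * Real.pi)))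
    fun θ => f (z + circleMap 0 1 θ • v) ^ 2
  rw [h, enorm_smul, Real.enorm_eq_ofReal hpi.le] at h3
  simpa only [enorm_pow] using h3

theorem B1_pres (z : Fin n → ℂ) (θ : ℝ) :
    MeasurePreserving fun v : Fin n → ℂ => z + circleMap 0 1 θ • v := by
  have h1 : MeasurePreserving fun v : Fin n → ℂ => fun i => rotation (Circle.exp θ) (v i) :=
    volume_preserving_pi fun _ => (rotation (Circle.exp θ)).measurePreserving
  have e : (fun v : Fin n → ℂ => z + circleMap 0 1 θ • v) =
      (fun v => z + v) ∘ fun v : Fin n → ℂ => fun i => rotation (Circle.exp θ) (v i) := by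
    funext v i
    simp [circleMap]
  rw [e]
  exact (measurePreserving_add_left volume z).comp h1

theorem sq_enorm_mul_le {S U : Set (Fin n → ℂ)} (hS : MeasurableSet S)
    (hb : ∀ ζ : ℂ, ‖ζ‖ ≤ 1 → ∀ v ∈ S, ζ • v ∈ S) (hU : IsOpen U) {z : Fin n → ℂ}
    (hz : ∀ v ∈ S, z + v ∈ U) {f : (Fin n → ℂ) → ℂ} (hf : DifferentiableOn ℂ f U) :
    ‖f z‖ₑ ^ 2 * volume S ≤ ∫⁻ w in U, ‖f w‖ₑ ^ 2 := by
  classical
  let h : (Fin n → ℂ) → ENNReal := fun w => ‖U.piecewise f (fun _ => 0) w‖ₑ ^ 2
  have mh : Measurable h :=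
    (hf.continuousOn.measurable_piecewise continuousOn_const hU.measurableSet).enorm.pow_const 2
  have hh : ∀ w ∈ U, h w = ‖f w‖ₑ ^ 2 := fun w hw => by simp only [h, piecewise_eq_of_mem _ _ _ hw]
  have hm : ∀ θ : ℝ, ∀ v ∈ S, z + circleMap 0 1 θ • v ∈ U := fun θ v hv =>
    hz _ (hb _ (by simp) v hv)
  have hpi : 0 < 2 * Real.pi := by positivity
  have m2 : Measurable fun q : (Fin n → ℂ) × ℝ => h (z + circleMap 0 1 q.2 • q.1) :=
    mh.comp (by fun_prop)
  have h1 : ENNReal.ofReal (2 * Real.pi) * (‖f z‖ₑ ^ 2 * volume S) ≤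
      ENNReal.ofReal (2 * Real.pi) * ∫⁻ w in U, ‖f w‖ₑ ^ 2 := by
    calc ENNReal.ofReal (2 * Real.pi) * (‖f z‖ₑ ^ 2 * volume S)
        = ∫⁻ _ in S, ENNReal.ofReal (2 * Real.pi) * ‖f z‖ₑ ^ 2 := by
          rw [setLIntegral_const, mul_assoc]
      _ ≤ ∫⁻ v in S, ∫⁻ θ in Ioc 0 (2 * Real.pi), h (z + circleMap 0 1 θ • v) := by
          refine setLIntegral_mono' hS fun v hv => ?_
          refine (B1_circle hU (fun ζ hζ => hz _ (hb ζ hζ v hv)) hf).trans_eq ?_
          exact lintegral_congr fun θ => (hh _ (hm θ v hv)).symm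
      _ = ∫⁻ θ in Ioc 0 (2 * Real.pi), ∫⁻ v in S, h (z + circleMap 0 1 θ • v) :=
          lintegral_lintegral_swap m2.aemeasurable
      _ ≤ ∫⁻ _ in Ioc 0 (2 * Real.pi), ∫⁻ w in U, ‖f w‖ₑ ^ 2 := by
          refine lintegral_mono fun θ => ?_
          rw [← setLIntegral_congr_fun hU.measurableSet hh,
            ← (B1_pres z θ).setLIntegral_comp_preimage hU.measurableSet mh]
          exact lintegral_mono_set fun v hv => hm θ v hv
      _ = _ := by rw [setLIntegral_const, Real.volume_Ioc, sub_zero, mul_comm]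
  exact (ENNReal.mul_le_mul_iff_right (by simpa using Real.pi_pos) ENNReal.ofReal_ne_top).1 h1

/-- Uniform bounds on a smaller ball for holomorphic functions of `L²` norm at most `c`. -/
theorem exists_local_bound (n : ℕ) {r : ℝ} (hr : 0 < r) :
    ∃ C : ℝ, 0 < C ∧ ∀ (U : Set (Fin n → ℂ)) (z : Fin n → ℂ) (f : (Fin n → ℂ) → ℂ) (c : ℝ),
      IsOpen U → ball z r ⊆ U → DifferentiableOn ℂ f U → 0 ≤ c →
      ∫⁻ w in U, ‖f w‖ₑ ^ 2 ≤ ENNReal.ofReal (c ^ 2) → ∀ w ∈ ball z (r / 2), ‖f w‖ ≤ C * c := by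
  set V : ℝ := (volume (ball (0 : Fin n → ℂ) (r / 2))).toReal with hV
  have hfin : volume (ball (0 : Fin n → ℂ) (r / 2)) ≠ ⊤ := measure_ball_lt_top.ne
  have hV0 : 0 < V := ENNReal.toReal_pos (measure_ball_pos _ _ (half_pos hr)).ne' hfin
  refine ⟨(√V)⁻¹, by positivity, fun U z f c hU hz hf hc hi w hw => ?_⟩
  have h1 := (sq_enorm_mul_le (S := ball 0 (r / 2)) (z := w) measurableSet_ball (fun ζ hζ v hv => by
    rw [mem_ball_zero_iff] at hv ⊢
    rw [norm_smul]
    exact (mul_le_of_le_one_left (norm_nonneg v) hζ).trans_lt hv) hU (fun v hv => hz (by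
      rw [mem_ball_zero_iff] at hv
      rw [mem_ball_iff_norm] at hw ⊢
      have e : w + v - z = (w - z) + v := by abel
      rw [e]
      linarith [norm_add_le (w - z) v])) hf).trans hi
  rw [← ENNReal.ofReal_toReal hfin, ← hV, ← ofReal_norm,
    ← ENNReal.ofReal_pow (norm_nonneg _), ← ENNReal.ofReal_mul (by positivity),
    ENNReal.ofReal_le_ofReal_iff (by positivity)] at h1
  rw [inv_mul_eq_div, le_div_iff₀ (by positivity)]
  refine (pow_le_pow_iff_left₀ (by positivity) hc two_ne_zero).1 ?_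
  rw [mul_pow, Real.sq_sqrt hV0.le]
  exact h1

end Pool.Agent.P.MP_2ff09b_gt
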