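import Pool.Agent.P.MP_2ff09b_gt.B1

/-! CVX-B2. The Bergman space is a Hilbert space with holomorphic evaluation functionals.
Sketch. Two holomorphic functions equal almost everywhere on the open set D are equal on D
(Measure.eqOn_open_of_ae_eq or Continuous.ae_eq_iff_eq style), so F in A2 D has a unique
representative rep F on D; it is linear in F and the integral of |rep F|² is ‖F‖²
(eLpNorm, Lp.norm_def). exists_local_bound bounds the evaluations locally uniformly: define ev z by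
LinearMap.mkContinuous for z in D (0 outside). Closedness of A2 D in L²: for a convergent sequence
the representatives are locally uniformly Cauchy, the limit is holomorphic (hol_of_tendsto) and is
almost everywhere the L² limit (subsequence, tendstoInMeasure). Differentiability of ev at z:
taylor_le_of_bound gives ‖ev w - ev z - L (w - z)‖ <= C ‖w - z‖² with L v F = fderiv (rep F) z v.
norm_sq: the set in bergK is the set of ‖ev z F‖² for ‖F‖ <= 1 (MemLp.toLp). -/

open Set MeasureTheory Complex Filter Topology Metric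

noncomputable section

namespace Pool.Agent.P.MP_2ff09b_gt

variable {n : ℕ} {D : Set (Fin n → ℂ)}

/-- The holomorphic representative of an element of the Bergman space. -/
def B2_rep (F : A2 D) : (Fin n → ℂ) → ℂ := F.2.choose

theorem B2_rep_hol (F : A2 D) : DifferentiableOn ℂ (B2_rep F) D := F.2.choose_spec.1

theorem B2_rep_ae (F : A2 D) :
    (F : Lp ℂ 2 (volume.restrict D)) =ᵐ[volume.restrict D] B2_rep F := F.2.choose_spec.2

theorem B2_rep_eq (hD : IsOpen D) (F : A2 D) {f : (Fin n → ℂ) → ℂ} (hf : DifferentiableOn ℂ f D)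
    (h : (F : Lp ℂ 2 (volume.restrict D)) =ᵐ[volume.restrict D] f) : EqOn (B2_rep F) f D :=
  Measure.eqOn_open_of_ae_eq ((B2_rep_ae F).symm.trans h) hD (B2_rep_hol F).continuousOn
    hf.continuousOn

theorem B2_rep_add (hD : IsOpen D) (F G : A2 D) : EqOn (B2_rep (F + G)) (B2_rep F + B2_rep G) D :=
  B2_rep_eq hD _ ((B2_rep_hol F).add (B2_rep_hol G))
    ((Lp.coeFn_add (F : Lp ℂ 2 (volume.restrict D)) G).trans ((B2_rep_ae F).add (B2_rep_ae G)))

theorem B2_rep_smul (hD : IsOpen D) (c : ℂ) (F : A2 D) : EqOn (B2_rep (c • F)) (c • B2_rep F) D :=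
  B2_rep_eq hD _ ((B2_rep_hol F).const_smul c)
    ((Lp.coeFn_smul c (F : Lp ℂ 2 (volume.restrict D))).trans ((B2_rep_ae F).const_smul c))

theorem B2_eLp {α : Type*} [MeasurableSpace α] (μ : Measure α) (f : α → ℂ) :
    eLpNorm f 2 μ ^ 2 = ∫⁻ w, ‖f w‖ₑ ^ 2 ∂μ := by
  have h := eLpNorm_nnreal_pow_eq_lintegral (μ := μ) (f := f) (p := 2) two_ne_zero
  simpa using h

theorem B2_lint (F : A2 D) : ∫⁻ w in D, ‖B2_rep F w‖ₑ ^ 2 = ENNReal.ofReal (‖F‖ ^ 2) := by
  rw [← B2_eLp, ← eLpNorm_congr_ae (B2_rep_ae F), ← Lp.enorm_def,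
    ENNReal.ofReal_pow (norm_nonneg _), ← ofReal_norm]
  rfl

theorem B2_bound (hD : IsOpen D) {z : Fin n → ℂ} (hz : z ∈ D) :
    ∃ r : ℝ, 0 < r ∧ ball z r ⊆ D ∧ ∃ C : ℝ, 0 < C ∧
      ∀ F : A2 D, ∀ w ∈ ball z r, ‖B2_rep F w‖ ≤ C * ‖F‖ := by
  obtain ⟨r, hr, h⟩ := Metric.isOpen_iff.1 hD z hz
  obtain ⟨C, hC, hb⟩ := exists_local_bound n hr
  exact ⟨r / 2, by positivity, (ball_subset_ball (by linarith)).trans h, C, hC, fun F =>
    hb D z _ _ hD h (B2_rep_hol F) (norm_nonneg _) (B2_lint F).le⟩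

theorem B2_ev (hD : IsOpen D) (z : Fin n → ℂ) :
    ∃ e : A2 D →L[ℂ] ℂ, z ∈ D → ∀ F, e F = B2_rep F z := by
  by_cases hz : z ∈ D
  · obtain ⟨r, hr, -, C, -, hb⟩ := B2_bound hD hz
    let l : A2 D →ₗ[ℂ] ℂ :=
      { toFun := fun F => B2_rep F z
        map_add' := fun F G => B2_rep_add hD F G hz
        map_smul' := fun c F => B2_rep_smul hD c F hz }
    exact ⟨l.mkContinuous C fun F => hb F z (mem_ball_self hr), fun _ _ => rfl⟩
  · exact ⟨0, fun h => absurd h hz⟩

theorem B2_dev (hD : IsOpen D) {z : Fin n → ℂ} (hz : z ∈ D) :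
    ∃ e : A2 D →L[ℂ] ((Fin n → ℂ) →L[ℂ] ℂ), ∀ F, e F = fderiv ℂ (B2_rep F) z := by
  obtain ⟨r, hr, h, C, -, hb⟩ := B2_bound hD hz
  have hd : ∀ F : A2 D, DifferentiableAt ℂ (B2_rep F) z := fun F =>
    (B2_rep_hol F).differentiableAt (hD.mem_nhds hz)
  let l : A2 D →ₗ[ℂ] ((Fin n → ℂ) →L[ℂ] ℂ) :=
    { toFun := fun F => fderiv ℂ (B2_rep F) z
      map_add' := fun F G => by
        rw [((B2_rep_add hD F G).eventuallyEq_of_mem (hD.mem_nhds hz)).fderiv_eq,
          fderiv_add (hd F) (hd G)]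
      map_smul' := fun c F => by
        rw [((B2_rep_smul hD c F).eventuallyEq_of_mem (hD.mem_nhds hz)).fderiv_eq,
          fderiv_const_smul (hd F)]
        rfl }
  refine ⟨l.mkContinuous (2 * C / r) fun F => ?_, fun _ => rfl⟩
  have h1 := norm_fderiv_le_of_bound hr ((B2_rep_hol F).mono h) (hb F)
  calc ‖l F‖ ≤ 2 * (C * ‖F‖) / r := h1
    _ = 2 * C / r * ‖F‖ := by ring

theorem B2_closed (hD : IsOpen D) : IsClosed (A2 D : Set (Lp ℂ 2 (volume.restrict D))) := by
  refine isClosed_of_closure_subset fun G hG => ?_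
  obtain ⟨F, hF, hlim⟩ := mem_closure_iff_seq_limit.1 hG
  obtain ⟨ns, hns, hae⟩ := (tendstoInMeasure_of_tendsto_Lp hlim).exists_seq_tendsto_ae
  let H : ℕ → A2 D := fun k => ⟨F (ns k), hF _⟩
  obtain ⟨M, hM⟩ := (hlim.norm).bddAbove_range
  have hM' : ∀ k, ‖H k‖ ≤ M := fun k => hM ⟨ns k, rfl⟩
  obtain ⟨g, hg, hlu, -⟩ := ultra_montel (hyperfilter ℕ) hD (f := fun k => B2_rep (H k))
    fun z hz => by
      obtain ⟨r, hr, h, C, hC, hb⟩ := B2_bound hD hz
      exact ⟨r, hr, C * M, Eventually.of_forall fun k => ⟨(B2_rep_hol _).mono h, fun w hw =>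
        (hb _ w hw).trans (mul_le_mul_of_nonneg_left (hM' k) hC.le)⟩⟩
  refine ⟨g, hg, ?_⟩
  have hall : ∀ᵐ x ∂(volume.restrict D), ∀ k, F (ns k) x = B2_rep (H k) x :=
    ae_all_iff.2 fun k => B2_rep_ae (H k)
  filter_upwards [hae, hall, ae_restrict_mem hD.measurableSet] with x h1 h2 h3
  have h4 : Tendsto (fun k => B2_rep (H k) x) (hyperfilter ℕ) (𝓝 (G x)) := by
    simp only [← h2]
    exact h1.mono_left Nat.hyperfilter_le_atTop
  exact tendsto_nhds_unique h4 (hlu.tendsto_at h3)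

theorem exists_isEval (hD : IsOpen D) : ∃ ev, IsEval D ev := by
  choose ev hev using B2_ev hD
  have heval : ∀ (F : A2 D) (f : (Fin n → ℂ) → ℂ), DifferentiableOn ℂ f D →
      ((F : Lp ℂ 2 (volume.restrict D)) =ᵐ[volume.restrict D] f) → ∀ z ∈ D, ev z F = f z :=
    fun F f hf h z hz => (hev z hz F).trans (B2_rep_eq hD F hf h hz)
  refine ⟨ev, (B2_closed hD).completeSpace_coe, fun z hz => ?_, heval, fun z hz => ?_⟩
  · obtain ⟨e, he⟩ := B2_dev hD hz
    obtain ⟨r, hr, h, C, hC, hb⟩ := B2_bound hD hz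
    refine (HasFDerivAt.differentiableAt (f' := e.flip) ?_).differentiableWithinAt
    refine HasFDerivAt.of_isLittleO (𝕜 := ℂ) (E := Fin n → ℂ) (F := A2 D →L[ℂ] ℂ) ?_
    refine Asymptotics.IsBigO.trans_isLittleO ?_ (Asymptotics.isLittleO_pow_sub_sub z one_lt_two)
    refine Asymptotics.IsBigO.of_bound (4 * C / r ^ 2) ?_
    filter_upwards [ball_mem_nhds z hr] with w hw
    refine ContinuousLinearMap.opNorm_le_bound _ (by positivity) fun F => ?_
    have h1 := taylor_le_of_bound ((B2_rep_hol F).mono h) (hb F) hw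
    have h2 : (ev w - ev z - e.flip (w - z)) F =
        B2_rep F w - B2_rep F z - fderiv ℂ (B2_rep F) z (w - z) := by
      simp only [sub_apply, ContinuousLinearMap.flip_apply, hev w (h hw),
        hev z hz, he]
    rw [h2, Real.norm_of_nonneg (by positivity)]
    calc _ ≤ 4 * (C * ‖F‖) / r ^ 2 * ‖w - z‖ ^ 2 := h1
      _ = _ := by ring
  · unfold bergK
    refine IsLUB.csSup_eq ⟨?_, fun b hb => ?_⟩
      ⟨_, 0, differentiableOn_const 0, by simp, rfl⟩
    · rintro _ ⟨f, hf, h1, rfl⟩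
      have h2 : eLpNorm f 2 (volume.restrict D) ≤ 1 := by
        rw [← B2_eLp] at h1
        by_contra h3
        exact absurd h1 (not_le.2 (one_lt_pow' (not_le.1 h3) two_ne_zero))
      have hm : MemLp f 2 (volume.restrict D) :=
        ⟨hf.continuousOn.aestronglyMeasurable hD.measurableSet, h2.trans_lt ENNReal.one_lt_top⟩
      let F : A2 D := ⟨hm.toLp f, f, hf, hm.coeFn_toLp⟩
      have h3 : ‖F‖ ≤ 1 := by
        change ‖hm.toLp f‖ ≤ 1
        rw [Lp.norm_toLp]
        exact ENNReal.toReal_le_of_le_ofReal zero_le_one (by simpa using h2)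
      rw [← heval F f hf hm.coeFn_toLp z hz]
      refine pow_le_pow_left₀ (norm_nonneg _) ?_ 2
      exact ((ev z).le_opNorm F).trans (mul_le_of_le_one_right (ev z).opNorm_nonneg h3)
    · have hb0 : 0 ≤ b := by
        have := hb ⟨0, differentiableOn_const 0, by simp, rfl⟩
        simpa using this
      rw [← Real.le_sqrt (ev z).opNorm_nonneg hb0]
      refine ContinuousLinearMap.opNorm_le_of_unit_norm (Real.sqrt_nonneg _) fun F hF => ?_
      rw [Real.le_sqrt (norm_nonneg _) hb0, hev z hz]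
      exact hb ⟨B2_rep F, B2_rep_hol F, by rw [B2_lint, hF]; simp, rfl⟩

end Pool.Agent.P.MP_2ff09b_gt
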