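import Pool.Agent.P.MP_2ff09b_gt.B2
import Pool.Agent.P.MP_2ff09b_gt.A4

/-! CVX-B3. Positivity, smoothness and invariance of the Bergman kernel on the diagonal.
Sketch. le_bergK: the set in bergK is bounded above (exists_local_bound); scale f. Positivity: a
small constant function (D has finite volume). Smoothness: bergK = ‖ev‖² on D; compose ev with the
conjugate linear isometry (InnerProductSpace.toDual ℂ (A2 D)).symm, seen as a real linear map, and
use ContDiffOn.norm_sq, with contDiffOn_of_hol restricted to real scalars. bergK_aut: f ↦ (f ∘ γ) *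
det (fderiv γ) preserves the integral (lintegral_comp_aut) and holomorphy (fderiv_hol, det is
polynomial), this gives one inequality; apply it to the inverse for the other. Invariance of muK:
lintegral_comp_aut again. -/

open Set MeasureTheory Complex Filter Topology Metric

noncomputable section

namespace Pool.Agent.P.MP_2ff09b_gt

variable {n : ℕ} {D : Set (Fin n → ℂ)}

theorem B3_local (hD : IsOpen D) {z : Fin n → ℂ} (hz : z ∈ D) :
    ∃ C : ℝ, 0 < C ∧ ∀ (f : (Fin n → ℂ) → ℂ) (c : ℝ), DifferentiableOn ℂ f D → 0 ≤ c →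
      ∫⁻ w in D, ‖f w‖ₑ ^ 2 ≤ ENNReal.ofReal (c ^ 2) → ‖f z‖ ≤ C * c := by
  obtain ⟨r, hr, h⟩ := Metric.isOpen_iff.1 hD z hz
  obtain ⟨C, hC, H⟩ := exists_local_bound n hr
  exact ⟨C, hC, fun f c hf hc hi => H D z f c hD h hf hc hi z (mem_ball_self (half_pos hr))⟩

theorem B3_one (hD : IsOpen D) {f : (Fin n → ℂ) → ℂ} (hf : DifferentiableOn ℂ f D)
    (hint : ∫⁻ w in D, ‖f w‖ₑ ^ 2 ≤ 1) {z : Fin n → ℂ} (hz : z ∈ D) : ‖f z‖ ^ 2 ≤ bergK D z := by
  obtain ⟨C, -, H⟩ := B3_local hD hz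
  refine le_csSup ⟨C ^ 2, ?_⟩ ⟨f, hf, hint, rfl⟩
  rintro _ ⟨g, hg, hi, rfl⟩
  have := H g 1 hg zero_le_one (by simpa using hi)
  exact pow_le_pow_left₀ (norm_nonneg _) (by simpa using this) 2

theorem B3_enorm (a : ℂ) : ‖a‖ₑ ^ 2 = ENNReal.ofReal (‖a‖ ^ 2) := by
  rw [← ofReal_norm, ENNReal.ofReal_pow (norm_nonneg a)]

theorem sq_norm_le_bergK (hD : IsOpen D) {f : (Fin n → ℂ) → ℂ} (hf : DifferentiableOn ℂ f D)
    {c : ℝ} (hc : 0 ≤ c) (hint : ∫⁻ w in D, ‖f w‖ₑ ^ 2 ≤ ENNReal.ofReal c) {z : Fin n → ℂ}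
    (hz : z ∈ D) : ‖f z‖ ^ 2 ≤ bergK D z * c := by
  rcases hc.eq_or_lt with rfl | hc
  · obtain ⟨C, -, H⟩ := B3_local hD hz
    have h := H f 0 hf le_rfl (by simpa using hint)
    rw [mul_zero] at h ⊢
    rw [le_antisymm h (norm_nonneg _)]
    simp
  have e : ‖(((√c)⁻¹ : ℝ) : ℂ)‖ ^ 2 = c⁻¹ := by
    rw [Complex.norm_real, Real.norm_eq_abs, sq_abs, inv_pow, Real.sq_sqrt hc.le]
  have h := B3_one hD (f := fun w => (((√c)⁻¹ : ℝ) : ℂ) * f w) (hf.const_mul _) (by
    simp only [enorm_mul, mul_pow]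
    rw [lintegral_const_mul' _ _ (by rw [B3_enorm]; exact ENNReal.ofReal_ne_top), B3_enorm, e]
    refine (mul_le_mul_right hint _).trans ?_
    rw [← ENNReal.ofReal_mul (inv_nonneg.2 hc.le), inv_mul_cancel₀ hc.ne', ENNReal.ofReal_one]) hz
  rw [norm_mul, mul_pow, e, inv_mul_le_iff₀ hc] at h
  rwa [mul_comm]

theorem bergK_le {z : Fin n → ℂ} {c : ℝ}
    (h : ∀ f : (Fin n → ℂ) → ℂ, DifferentiableOn ℂ f D → ∫⁻ w in D, ‖f w‖ₑ ^ 2 ≤ 1 →
      ‖f z‖ ^ 2 ≤ c) : bergK D z ≤ c := by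
  refine csSup_le ⟨_, fun _ => 0, differentiableOn_const 0, by simp, rfl⟩ ?_
  rintro _ ⟨f, hf, hi, rfl⟩
  exact h f hf hi

theorem bergK_nonneg (z : Fin n → ℂ) : 0 ≤ bergK D z := by
  refine Real.sSup_nonneg ?_
  rintro _ ⟨f, -, -, rfl⟩
  exact sq_nonneg _

theorem bergK_pos (hD : BCD D) {z : Fin n → ℂ} (hz : z ∈ D) : 0 < bergK D z := by
  have h := sq_norm_le_bergK hD.isOpen (f := fun _ => 1) (differentiableOn_const 1)
    (c := (volume D).toReal) ENNReal.toReal_nonneg (by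
      rw [ENNReal.ofReal_toReal hD.bounded.measure_lt_top.ne]
      simp) hz
  refine (bergK_nonneg z).lt_of_ne fun e => ?_
  rw [← e] at h
  norm_num at h

theorem contDiffOn_bergK (hD : IsOpen D) (k : ℕ) : ContDiffOn ℝ k (bergK D) D := by
  obtain ⟨ev, h⟩ := exists_isEval hD
  have := h.complete
  let T : (A2 D →L[ℂ] ℂ) →L[ℝ] A2 D :=
    { toFun := (InnerProductSpace.toDual ℂ (A2 D)).symm
      map_add' := map_add _
      map_smul' := fun r x => by
        have e := map_smulₛₗ (InnerProductSpace.toDual ℂ (A2 D)).symm (r : ℂ) x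
        rw [Complex.conj_ofReal, Complex.coe_smul, Complex.coe_smul] at e
        exact e
      cont := (InnerProductSpace.toDual ℂ (A2 D)).symm.continuous }
  have h1 : ContDiffOn ℝ k ev D := (contDiffOn_of_hol hD h.hol k).restrict_scalars ℝ
  refine ((T.contDiff.comp_contDiffOn h1).norm_sq ℂ).congr fun z hz => ?_
  rw [h.norm_sq z hz]
  exact congrArg (· ^ 2) ((InnerProductSpace.toDual ℂ (A2 D)).symm.norm_map (ev z)).symm

theorem contDiffOn_lk (hD : BCD D) (k : ℕ) : ContDiffOn ℝ k (lk D) D :=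
  (contDiffOn_bergK hD.isOpen k).log fun _ hz => (bergK_pos hD hz).ne'

theorem hol_det_fderiv (hD : IsOpen D) {φ : (Fin n → ℂ) → Fin n → ℂ}
    (hφ : DifferentiableOn ℂ φ D) : DifferentiableOn ℂ (fun z => (fderiv ℂ φ z).det) D := by
  have h1 : ContDiffOn ℂ 1 (fderiv ℂ φ) D := contDiffOn_of_hol hD (fderiv_hol hD hφ) 1
  have e : ∀ T : (Fin n → ℂ) →L[ℂ] Fin n → ℂ, T.det = ∑ σ : Equiv.Perm (Fin n),
      ((Equiv.Perm.sign σ : ℤ) : ℂ) * ∏ i, T (Pi.single i 1) (σ i) := fun T => by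
    rw [ContinuousLinearMap.det, ← LinearMap.det_toMatrix', Matrix.det_apply']
    simp only [LinearMap.toMatrix'_apply, ContinuousLinearMap.coe_coe]
  simp only [e]
  refine ContDiffOn.differentiableOn (n := 1) (ContDiffOn.sum fun σ _ => contDiffOn_const.mul
    (contDiffOn_prod fun i _ => ?_)) one_ne_zero
  exact contDiffOn_pi.1 (h1.clm_apply contDiffOn_const) (σ i)

theorem B3_aut (hD : IsOpen D) {γ : Equiv.Perm (Fin n → ℂ)} (hγ : γ ∈ autGroup D)
    {z : Fin n → ℂ} (hz : z ∈ D) : bergK D (γ z) * ‖(fderiv ℂ γ z).det‖ ^ 2 ≤ bergK D z := by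
  rcases (sq_nonneg ‖(fderiv ℂ γ z).det‖).eq_or_lt with e | e
  · rw [← e, mul_zero]
    exact bergK_nonneg z
  rw [← le_div_iff₀ e]
  refine bergK_le fun f hf hi => ?_
  have h := B3_one hD (f := fun w => (fderiv ℂ γ w).det * f (γ w))
    ((hol_det_fderiv hD (aut_hol hγ)).mul (hf.comp (aut_hol hγ) (aut_maps hγ))) (by
      rw [lintegral_comp_aut hD hγ] at hi
      simpa only [enorm_mul, mul_pow, ← B3_enorm] using hi) hz
  rw [le_div_iff₀ e, mul_comm, ← mul_pow, ← norm_mul]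
  exact h

theorem bergK_aut (hD : IsOpen D) {γ : Equiv.Perm (Fin n → ℂ)} (hγ : γ ∈ autGroup D)
    {z : Fin n → ℂ} (hz : z ∈ D) : bergK D (γ z) * ‖(fderiv ℂ γ z).det‖ ^ 2 = bergK D z := by
  refine (B3_aut hD hγ hz).antisymm ?_
  have h := B3_aut hD (aut_symm hγ) (aut_maps hγ hz)
  have e : (fderiv ℂ γ.symm (γ z)).det * (fderiv ℂ γ z).det = 1 := by
    rw [ContinuousLinearMap.det, ContinuousLinearMap.det, ← LinearMap.det_comp,
      ← LinearMap.det_id (M := Fin n → ℂ)]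
    congr 1
    exact LinearMap.ext fun v => aut_fderiv_symm_apply hD hγ hz v
  have h' := mul_le_mul_of_nonneg_right h (sq_nonneg ‖(fderiv ℂ γ z).det‖)
  rwa [Equiv.symm_apply_apply, mul_assoc, ← mul_pow, ← norm_mul, e, norm_one, one_pow,
    mul_one] at h'

theorem measurePreserving_muK (hD : IsOpen D) {γ : Equiv.Perm (Fin n → ℂ)} (hγ : γ ∈ autGroup D) :
    MeasurePreserving γ (muK D) (muK D) := by
  refine ⟨aut_measurable hD hγ, Measure.ext fun s hs => ?_⟩
  have hs' := aut_measurable hD hγ hs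
  rw [Measure.map_apply (aut_measurable hD hγ) hs, muK, withDensity_apply _ hs',
    withDensity_apply _ hs, ← lintegral_indicator hs', ← lintegral_indicator hs,
    lintegral_comp_aut hD hγ (s.indicator _)]
  refine setLIntegral_congr_fun hD.measurableSet fun z hz => ?_
  by_cases h : γ z ∈ s
  · rw [indicator_of_mem h, indicator_of_mem (show z ∈ γ ⁻¹' s from h),
      ← ENNReal.ofReal_mul (sq_nonneg _), mul_comm, bergK_aut hD hγ hz]
  · rw [indicator_of_notMem h, indicator_of_notMem (show z ∉ γ ⁻¹' s from h), mul_zero]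

theorem B3_meas (hD : IsOpen D) :
    AEMeasurable (fun z => ENNReal.ofReal (bergK D z)) (volume.restrict D) :=
  ((contDiffOn_bergK hD 0).continuousOn.aemeasurable hD.measurableSet).ennreal_ofReal

theorem volume_ac_muK (hD : BCD D) : volume.restrict D ≪ muK D := by
  refine withDensity_absolutelyContinuous' (B3_meas hD.isOpen) ?_
  filter_upwards [ae_restrict_mem hD.isOpen.measurableSet] with z hz
  exact (ENNReal.ofReal_pos.2 (bergK_pos hD hz)).ne'

theorem muK_ac_volume : muK D ≪ volume.restrict D := withDensity_absolutelyContinuous _ _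

theorem lintegral_muK (hD : IsOpen D) (g : (Fin n → ℂ) → ENNReal) :
    ∫⁻ z, g z ∂muK D = ∫⁻ z in D, ENNReal.ofReal (bergK D z) * g z :=
  lintegral_withDensity_eq_lintegral_mul_non_measurable₀ _ (B3_meas hD)
    (Eventually.of_forall fun _ => ENNReal.ofReal_lt_top) g

end Pool.Agent.P.MP_2ff09b_gt
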