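import Pool.Agent.P.MP_2ff09b_gt.B3

/-! CVX-B4. The Bergman kernel off the diagonal.
Sketch. Let kv y = (InnerProductSpace.toDual ℂ (A2 D)).symm (ev y), so ev y F = inner (kv y) F, and
put k z y = ev z (kv y) = inner (kv z) (kv y). The function z ↦ k z y is the holomorphic
representative of kv y (field eval). repro: for bounded h the class of h * k(., y) is in A2 D, its
value at y is h y * K(y), and it is the L² inner product with kv y (L2.inner_def). trans: the map
U F = (F ∘ γ) * det (fderiv γ) is a linear isometry of A2 D onto itself with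
ev z (U F) = det (fderiv γ z) * ev (γ z) F; deduce U (kv (γ y)) * conj (det (fderiv γ y)) = kv y. One
can avoid building U as an operator: compare the inner products of both sides with an arbitrary F
using the change of variables (integral_image_eq_integral_abs_det_fderiv_smul). -/

open Set MeasureTheory Complex Filter Topology Metric

noncomputable section

namespace Pool.Agent.P.MP_2ff09b_gt

variable {n : ℕ} {D : Set (Fin n → ℂ)}


theorem B4_hol {ev : (Fin n → ℂ) → (A2 D →L[ℂ] ℂ)} (hev : IsEval D ev) (F : A2 D) :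
    DifferentiableOn ℂ (fun z => ev z F) D :=
  hev.hol.clm_apply (differentiableOn_const F)

theorem B4_rep (hD : IsOpen D) {ev : (Fin n → ℂ) → (A2 D →L[ℂ] ℂ)} (hev : IsEval D ev) (F : A2 D) :
    (F : Lp ℂ 2 (volume.restrict D)) =ᵐ[volume.restrict D] fun z => ev z F := by
  obtain ⟨f, h1, h2⟩ := F.2
  refine h2.trans ((ae_restrict_mem hD.measurableSet).mono fun z hz => ?_)
  exact (hev.eval F f h1 h2 z hz).symm

theorem B4_memLp (hD : IsOpen D) {ev : (Fin n → ℂ) → (A2 D →L[ℂ] ℂ)} (hev : IsEval D ev)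
    (F : A2 D) : MemLp (fun z => ev z F) 2 (volume.restrict D) :=
  (Lp.memLp (F : Lp ℂ 2 (volume.restrict D))).ae_eq (B4_rep hD hev F)

theorem B4_mk {f : (Fin n → ℂ) → ℂ} (hf : DifferentiableOn ℂ f D)
    (h : MemLp f 2 (volume.restrict D)) :
    ∃ G : A2 D, (G : Lp ℂ 2 (volume.restrict D)) =ᵐ[volume.restrict D] f :=
  ⟨⟨h.toLp f, f, hf, h.coeFn_toLp⟩, h.coeFn_toLp⟩

theorem B4_pull (hD : IsOpen D) {ev : (Fin n → ℂ) → (A2 D →L[ℂ] ℂ)} (hev : IsEval D ev)
    {γ : Equiv.Perm (Fin n → ℂ)} (hγ : γ ∈ autGroup D) (F : A2 D) :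
    ∃ G : A2 D, ‖G‖ = ‖F‖ ∧ ∀ z ∈ D, ev z G = (fderiv ℂ γ z).det * ev (γ z) F := by
  have h1 : DifferentiableOn ℂ (fun z => (fderiv ℂ γ z).det * ev (γ z) F) D :=
    (hol_det_fderiv hD (aut_hol hγ)).mul ((B4_hol hev F).comp (aut_hol hγ) (aut_maps hγ))
  have h2 : eLpNorm (fun z => (fderiv ℂ γ z).det * ev (γ z) F) 2 (volume.restrict D) =
      eLpNorm (fun z => ev z F) 2 (volume.restrict D) := by
    rw [eLpNorm_eq_lintegral_rpow_enorm_toReal two_ne_zero ENNReal.ofNat_ne_top,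
      eLpNorm_eq_lintegral_rpow_enorm_toReal two_ne_zero ENNReal.ofNat_ne_top,
      lintegral_comp_aut hD hγ fun z => ‖ev z F‖ₑ ^ (2 : ENNReal).toReal]
    congr 1
    refine lintegral_congr fun z => ?_
    simp only [ENNReal.toReal_ofNat, ENNReal.rpow_ofNat, enorm_mul, mul_pow,
      ENNReal.ofReal_pow (norm_nonneg _), ofReal_norm]
  have h3 : MemLp (fun z => (fderiv ℂ γ z).det * ev (γ z) F) 2 (volume.restrict D) :=
    ⟨h1.continuousOn.aestronglyMeasurable hD.measurableSet, h2 ▸ (B4_memLp hD hev F).2⟩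
  obtain ⟨G, hG⟩ := B4_mk h1 h3
  refine ⟨G, ?_, hev.eval G _ h1 hG⟩
  rw [Submodule.coe_norm, Submodule.coe_norm, Lp.norm_def, Lp.norm_def, eLpNorm_congr_ae hG, h2,
    eLpNorm_congr_ae (B4_rep hD hev F)]

theorem B4_abs {H : Type*} [NormedAddCommGroup H] [InnerProductSpace ℂ H] {a G : H} {J : ℂ}
    {K K' : ℝ} (h1 : ‖a‖ ^ 2 = K') (h2 : ‖G‖ ^ 2 = K) (h3 : inner ℂ a G = J * K)
    (h4 : K * ‖J‖ ^ 2 = K') : a = (starRingEnd ℂ) J • G := by
  have h5 := norm_sub_sq (𝕜 := ℂ) a ((starRingEnd ℂ) J • G)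
  rw [inner_smul_right, h3, norm_smul, mul_pow, h1, h2, ← mul_assoc,
    ← Complex.normSq_eq_conj_mul_self, Complex.normSq_eq_norm_sq, RCLike.norm_conj,
    ← Complex.ofReal_mul, mul_comm _ K, h4] at h5
  have h6 : ‖a - (starRingEnd ℂ) J • G‖ ^ 2 = 0 := by
    rw [h5]
    simp only [RCLike.re_to_complex, Complex.ofReal_re]
    ring
  exact sub_eq_zero.1 (norm_eq_zero.1 ((pow_eq_zero_iff two_ne_zero).1 h6))

theorem exists_isKernel (hD : BCD D) : ∃ k, IsKernel D k := by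
  obtain ⟨ev, hev⟩ := exists_isEval hD.isOpen
  have := hev.complete
  obtain ⟨kv, hkv⟩ : ∃ kv : (Fin n → ℂ) → A2 D,
      kv = fun y => (InnerProductSpace.toDual ℂ (A2 D)).symm (ev y) := ⟨_, rfl⟩
  have e1 : ∀ y F, ev y F = inner ℂ (kv y) F := fun y F => by
    rw [hkv, InnerProductSpace.toDual_symm_apply]
  have e2 : ∀ y ∈ D, ‖kv y‖ ^ 2 = bergK D y := fun y hy => by
    rw [hkv, LinearIsometryEquiv.norm_map, hev.norm_sq y hy]
  have e3 : ContinuousOn kv D := by
    rw [hkv]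
    exact (InnerProductSpace.toDual ℂ (A2 D)).symm.continuous.comp_continuousOn
      hev.hol.continuousOn
  have e4 : ∀ y ∈ D, ev y (kv y) = (bergK D y : ℂ) := fun y hy => by
    rw [e1, ← e2 y hy]
    exact (inner_self_eq_norm_sq_to_K (𝕜 := ℂ) (kv y)).trans (by simp)
  refine ⟨fun z y => ev z (kv y), ?_, fun y _ => B4_hol hev _, e4, fun y _ z _ => ?_,
    fun y _ => ?_, fun y hy h hh ⟨M, hM⟩ => ?_, fun γ hγ y hy z hz => ?_⟩
  · simp only [e1]
    exact ContinuousOn.inner (𝕜 := ℂ)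
      (e3.comp continuousOn_fst fun x (hx : x ∈ D ×ˢ D) => hx.1)
      (e3.comp continuousOn_snd fun x (hx : x ∈ D ×ˢ D) => hx.2)
  · rw [e1, e1]
    exact norm_inner_symm (𝕜 := ℂ) (kv z) (kv y)
  · exact (memLp_two_iff_integrable_sq_norm (B4_memLp hD.isOpen hev (kv y)).1).1
      (B4_memLp hD.isOpen hev (kv y))
  · have h1 : DifferentiableOn ℂ (fun z => h z * ev z (kv y)) D := hh.mul (B4_hol hev _)
    have h2 : MemLp (fun z => h z * ev z (kv y)) 2 (volume.restrict D) := by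
      refine (B4_memLp hD.isOpen hev (kv y)).of_le_mul (c := M)
        (h1.continuousOn.aestronglyMeasurable hD.isOpen.measurableSet)
        ((ae_restrict_mem hD.isOpen.measurableSet).mono fun z hz => ?_)
      rw [norm_mul]
      exact mul_le_mul_of_nonneg_right (hM z hz) (norm_nonneg _)
    obtain ⟨G, hG⟩ := B4_mk h1 h2
    have h3 := hev.eval G _ h1 hG y hy
    rw [e4 y hy, e1, Submodule.coe_inner, L2.inner_def] at h3
    rw [← h3]
    refine integral_congr_ae ?_
    filter_upwards [hG, B4_rep hD.isOpen hev (kv y)] with z h4 h5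
    rw [h4, h5, RCLike.inner_apply, mul_assoc, Complex.mul_conj, Complex.normSq_eq_norm_sq]
  · obtain ⟨G, h1, h2⟩ := B4_pull hD.isOpen hev hγ (kv (γ y))
    have h3 : kv y = (starRingEnd ℂ) (fderiv ℂ γ y).det • G :=
      B4_abs (e2 y hy) (h1 ▸ e2 _ (aut_maps hγ hy))
        (by rw [← e4 _ (aut_maps hγ hy), ← h2 y hy, e1]) (bergK_aut hD.isOpen hγ hy)
    rw [h3, map_smul, h2 z hz, smul_eq_mul, norm_mul, norm_mul, RCLike.norm_conj]
    ring

end Pool.Agent.P.MP_2ff09b_gt
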