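import Pool.Agent.P.MP_2ff09b_gt.B3

/-! CVX-B5. The Levi form of log K in terms of the evaluation functionals.
Sketch. Let κ z = (toDual).symm (ev z), a real smooth map to the Hilbert space H = A2 D with
κ'(I v) = -I κ'(v) and, by symmetry of second derivatives, κ''(I a, I b) = -κ''(a, b). With
N = ‖κ‖² = bergK: N'(a) = 2 re ⟨κ' a, κ⟩, N''(a,b) = 2 re ⟨κ''(a,b), κ⟩ + 2 re ⟨κ' a, κ' b⟩, and
(log N)'' = N''/N - N' N'/N². Hence levi v v = 4 (‖κ' v‖² N - |⟨κ' v, κ⟩|²) / N², that is 4/N times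
the square norm of the component of κ' v orthogonal to κ. Both inequalities follow
(ev' v F = ⟨κ' v, F⟩ and F orthogonal to κ). levi_symm is the symmetry of the second derivative
(ContDiffAt.isSymmSndFDerivAt). bergG_apply: unfold dz and dzbar near z. -/

open Set MeasureTheory Complex Filter Topology Metric

noncomputable section

namespace Pool.Agent.P.MP_2ff09b_gt

section Aux
variable {E : Type*} [NormedAddCommGroup E] [NormedSpace ℝ E]

theorem B5_second {u : E → ℝ} {z : E} (h : ContDiffAt ℝ 2 u z) (a : E) :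
    HasFDerivAt (fun w => fderiv ℝ u w a) ((fderiv ℝ (fderiv ℝ u) z).flip a) z := by
  have hd : DifferentiableAt ℝ (fderiv ℝ u) z :=
    (h.fderiv_right (m := 1) (by norm_num)).differentiableAt (by norm_num)
  have := hd.hasFDerivAt.clm_apply (hasFDerivAt_const a z)
  simpa using this

variable {G : Type*} [NormedAddCommGroup G] [NormedSpace ℝ G]

theorem B5_bil {B : G → G → ℝ} (hB : IsBoundedBilinearMap ℝ fun p : G × G => B p.1 p.2)
    {f g : E → G} {f' g' : E →L[ℝ] G} {z : E} (hf : HasFDerivAt f f' z)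
    (hg : HasFDerivAt g g' z) :
    ∃ L : E →L[ℝ] ℝ, HasFDerivAt (fun w => B (f w) (g w)) L z ∧
      ∀ a, L a = B (f z) (g' a) + B (f' a) (g z) :=
  ⟨(hB.deriv (f z, g z)).comp (f'.prod g'),
    by exact (hB.hasFDerivAt (f z, g z)).comp z (hf.prodMk hg), fun a => by
    simp [IsBoundedBilinearMap.deriv_apply]⟩

end Aux

variable {n : ℕ} {D : Set (Fin n → ℂ)}

theorem B5_formula {G : Type*} [NormedAddCommGroup G] [NormedSpace ℂ G] [NormedSpace ℝ G]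
    [IsScalarTower ℝ ℂ G] [CompleteSpace G] {B : G → G → ℝ}
    (hB : IsBoundedBilinearMap ℝ fun p : G × G => B p.1 p.2) (hs : ∀ x y, B x y = B y x)
    (hD : IsOpen D) {f : (Fin n → ℂ) → G} (hf : DifferentiableOn ℂ f D) {u : (Fin n → ℂ) → ℝ}
    (hu : ∀ w ∈ D, u w = Real.log (B (f w) (f w))) (hpos : ∀ w ∈ D, 0 < B (f w) (f w))
    {z : Fin n → ℂ} (hz : z ∈ D) (hu2 : ContDiffAt ℝ 2 u z) (a b : Fin n → ℂ) :
    fderiv ℝ (fderiv ℝ u) z b a =
      (2 * B (fderiv ℂ f z a) (fderiv ℂ f z b) +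
          2 * B (fderiv ℂ (fderiv ℂ f) z b a) (f z)) / B (f z) (f z) -
        4 * B (fderiv ℂ f z a) (f z) * B (fderiv ℂ f z b) (f z) / B (f z) (f z) ^ 2 := by
  have h1 : ∀ w ∈ D, HasFDerivAt f ((fderiv ℂ f w).restrictScalars ℝ) w := fun w hw =>
    (hf.differentiableAt (hD.mem_nhds hw)).hasFDerivAt.restrictScalars ℝ
  have h2 : ∀ w ∈ D, fderiv ℝ u w a = 2 * B (fderiv ℂ f w a) (f w) / B (f w) (f w) := by
    intro w hw
    obtain ⟨L, hL, hL'⟩ := B5_bil hB (h1 w hw) (h1 w hw)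
    have e : u =ᶠ[𝓝 w] fun w => Real.log (B (f w) (f w)) :=
      mem_of_superset (hD.mem_nhds hw) fun x hx => hu x hx
    rw [e.fderiv_eq, (hL.log (hpos w hw).ne').fderiv]
    simp only [smul_apply, hL', ContinuousLinearMap.coe_restrictScalars',
      smul_eq_mul]
    rw [hs (f w) (fderiv ℂ f w a)]
    ring
  have h3 : HasFDerivAt (fun w => fderiv ℂ f w a)
      (((fderiv ℂ (fderiv ℂ f) z).flip a).restrictScalars ℝ) z := by
    have hd := ((fderiv_hol hD hf).differentiableAt (hD.mem_nhds hz)).hasFDerivAt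
    have := hd.clm_apply (hasFDerivAt_const a z)
    refine HasFDerivAt.restrictScalars ℝ ?_
    simpa using this
  obtain ⟨L1, hL1, hL1'⟩ := B5_bil hB h3 (h1 z hz)
  obtain ⟨L2, hL2, hL2'⟩ := B5_bil hB (h1 z hz) (h1 z hz)
  have h4 := (hL1.const_mul 2).mul ((hasDerivAt_inv (hpos z hz).ne').comp_hasFDerivAt z hL2)
  have e : (fun w => fderiv ℝ u w a) =ᶠ[𝓝 z]
      fun w => 2 * B (fderiv ℂ f w a) (f w) * (B (f w) (f w))⁻¹ :=
    mem_of_superset (hD.mem_nhds hz) fun x hx => (h2 x hx).trans (div_eq_mul_inv _ _)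
  have h5 := (B5_second hu2 a).unique (h4.congr_of_eventuallyEq e)
  have h6 := congrArg (fun L : (Fin n → ℂ) →L[ℝ] ℝ => L b) h5
  simp only [ContinuousLinearMap.flip_apply, add_apply,
    smul_apply, hL1', hL2', ContinuousLinearMap.coe_restrictScalars',
    smul_eq_mul, Function.comp_apply] at h6
  rw [h6, hs (f z) (fderiv ℂ f z b)]
  have := (hpos z hz).ne'
  field_simp
  ring

section Hilbert
variable {H : Type*} [NormedAddCommGroup H] [InnerProductSpace ℂ H] [CompleteSpace H]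

/-- The real inner product of the dual space. -/
def B5_B (φ ψ : H →L[ℂ] ℂ) : ℝ := (φ ((InnerProductSpace.toDual ℂ H).symm ψ)).re

theorem B5_B_eq (φ ψ : H →L[ℂ] ℂ) : φ ((InnerProductSpace.toDual ℂ H).symm ψ) =
    inner ℂ ((InnerProductSpace.toDual ℂ H).symm φ) ((InnerProductSpace.toDual ℂ H).symm ψ) :=
  InnerProductSpace.toDual_symm_apply.symm

theorem B5_B_symm (φ ψ : H →L[ℂ] ℂ) : B5_B φ ψ = B5_B ψ φ := by
  unfold B5_B
  rw [B5_B_eq, B5_B_eq, ← inner_conj_symm, conj_re]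

theorem B5_B_self (φ : H →L[ℂ] ℂ) : B5_B φ φ = ‖φ‖ ^ 2 := by
  unfold B5_B
  rw [B5_B_eq, inner_self_eq_norm_sq_to_K, LinearIsometryEquiv.norm_map]
  norm_cast

theorem B5_B_bil : IsBoundedBilinearMap ℝ fun p : (H →L[ℂ] ℂ) × (H →L[ℂ] ℂ) => B5_B p.1 p.2 := by
  have ha : ∀ x y w : H →L[ℂ] ℂ, B5_B (x + y) w = B5_B x w + B5_B y w := fun x y w => by
    simp [B5_B]
  have hm : ∀ (c : ℝ) (x w : H →L[ℂ] ℂ), B5_B (c • x) w = c • B5_B x w := fun c x w => by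
    simp [B5_B]
  refine ⟨ha, hm, fun x y w => ?_, fun c x w => ?_, 1, one_pos, fun x y => ?_⟩
  · simp only [B5_B_symm x, ha]
  · simp only [B5_B_symm x, hm]
  · refine (abs_re_le_norm _).trans ((x.le_opNorm _).trans_eq ?_)
    rw [LinearIsometryEquiv.norm_map, one_mul]

theorem B5_cs (φ ψ : H →L[ℂ] ℂ) (hψ : 0 < ‖ψ‖ ^ 2) (F : H) (hF : ψ F = 0) :
    ‖φ F‖ ^ 2 ≤ (‖φ‖ ^ 2 - (B5_B φ ψ ^ 2 + B5_B (I • φ) ψ ^ 2) / ‖ψ‖ ^ 2) * ‖F‖ ^ 2 := by
  set c : ℂ := φ ((InnerProductSpace.toDual ℂ H).symm ψ) with hc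
  have e1 : B5_B φ ψ = c.re := rfl
  have e2 : B5_B (I • φ) ψ = -c.im := by simp [B5_B, hc]
  set N : ℝ := ‖ψ‖ ^ 2 with hN
  have e3 : ψ ((InnerProductSpace.toDual ℂ H).symm ψ) = (N : ℂ) := by
    rw [B5_B_eq, inner_self_eq_norm_sq_to_K, LinearIsometryEquiv.norm_map, hN]
    norm_cast
  have e4 : (φ - (c / N) • ψ) F = φ F := by simp [hF]
  have e5 : ‖φ - (c / N) • ψ‖ ^ 2 = ‖φ‖ ^ 2 - (c.re ^ 2 + (-c.im) ^ 2) / N := by
    rw [← B5_B_self, ← B5_B_self φ]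
    have a1 : B5_B (φ - (c / N) • ψ) (φ - (c / N) • ψ) =
        B5_B φ (φ - (c / N) • ψ) - B5_B ((c / N) • ψ) (φ - (c / N) • ψ) := by simp [B5_B]
    have a2 : ∀ x, B5_B (φ - (c / N) • ψ) x = B5_B φ x - B5_B ((c / N) • ψ) x := fun x => by
      simp [B5_B]
    have a3 : B5_B φ ((c / N) • ψ) = (c.re ^ 2 + c.im ^ 2) / N := by
      unfold B5_B
      rw [LinearIsometryEquiv.map_smulₛₗ, map_smul, ← hc, smul_eq_mul, map_div₀, conj_ofReal,
        div_mul_eq_mul_div, div_ofReal_re]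
      simp [sq]
    have a4 : B5_B ((c / N) • ψ) ((c / N) • ψ) = (c.re ^ 2 + c.im ^ 2) / N := by
      rw [B5_B_self, norm_smul, mul_pow, ← hN, norm_div, div_pow, Complex.sq_norm, normSq_apply,
        norm_real, Real.norm_eq_abs, sq_abs]
      field_simp
    rw [a1, B5_B_symm φ (φ - _), B5_B_symm (_ • ψ) (φ - _), a2, a2, B5_B_symm (_ • ψ) φ, a3, a4]
    ring
  rw [e1, e2, ← e5, ← e4, ← mul_pow]
  exact pow_le_pow_left₀ (norm_nonneg _) (ContinuousLinearMap.le_opNorm _ _) 2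

theorem B5_abs (hD : IsOpen D) {f : (Fin n → ℂ) → (H →L[ℂ] ℂ)} (hf : DifferentiableOn ℂ f D)
    {u : (Fin n → ℂ) → ℝ} (hu : ∀ w ∈ D, u w = Real.log (‖f w‖ ^ 2))
    (hpos : ∀ w ∈ D, 0 < ‖f w‖ ^ 2) {z : Fin n → ℂ} (hz : z ∈ D) (hu2 : ContDiffAt ℝ 2 u z)
    (v : Fin n → ℂ) :
    (fderiv ℝ (fderiv ℝ u) z v v + fderiv ℝ (fderiv ℝ u) z (I • v) (I • v)) * ‖f z‖ ^ 2 =
      4 * (‖fderiv ℂ f z v‖ ^ 2 -
        (B5_B (fderiv ℂ f z v) (f z) ^ 2 + B5_B (I • fderiv ℂ f z v) (f z) ^ 2) / ‖f z‖ ^ 2) := by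
  have key := B5_formula B5_B_bil B5_B_symm hD hf (u := u) (by simpa only [B5_B_self] using hu)
    (by simpa only [B5_B_self] using hpos) hz hu2
  have e1 : fderiv ℂ (fderiv ℂ f) z (I • v) (I • v) = -fderiv ℂ (fderiv ℂ f) z v v := by
    rw [map_smul, map_smul, smul_apply, smul_smul, I_mul_I]
    ext x
    simp
  have e2 : ∀ x y : H →L[ℂ] ℂ, B5_B (-x) y = -B5_B x y := fun x y => by simp [B5_B]
  rw [key, key, e1, e2, map_smul]
  simp only [B5_B_self, norm_smul, norm_I, one_mul]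
  have := (hpos z hz).ne'
  set N := ‖f z‖ ^ 2
  field_simp
  ring

theorem B5_lower (hD : IsOpen D) {f : (Fin n → ℂ) → (H →L[ℂ] ℂ)} (hf : DifferentiableOn ℂ f D)
    {u : (Fin n → ℂ) → ℝ} (hu : ∀ w ∈ D, u w = Real.log (‖f w‖ ^ 2))
    (hpos : ∀ w ∈ D, 0 < ‖f w‖ ^ 2) {z : Fin n → ℂ} (hz : z ∈ D) (hu2 : ContDiffAt ℝ 2 u z)
    (v : Fin n → ℂ) (F : H) (hF : f z F = 0) :
    4 * ‖fderiv ℂ f z v F‖ ^ 2 ≤
      (fderiv ℝ (fderiv ℝ u) z v v + fderiv ℝ (fderiv ℝ u) z (I • v) (I • v)) * ‖f z‖ ^ 2 *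
        ‖F‖ ^ 2 := by
  rw [B5_abs hD hf hu hpos hz hu2, mul_assoc]
  exact mul_le_mul_of_nonneg_left (B5_cs _ _ (hpos z hz) F hF) (by norm_num)

theorem B5_upper (hD : IsOpen D) {f : (Fin n → ℂ) → (H →L[ℂ] ℂ)} (hf : DifferentiableOn ℂ f D)
    {u : (Fin n → ℂ) → ℝ} (hu : ∀ w ∈ D, u w = Real.log (‖f w‖ ^ 2))
    (hpos : ∀ w ∈ D, 0 < ‖f w‖ ^ 2) {z : Fin n → ℂ} (hz : z ∈ D) (hu2 : ContDiffAt ℝ 2 u z)
    (v : Fin n → ℂ) :
    (fderiv ℝ (fderiv ℝ u) z v v + fderiv ℝ (fderiv ℝ u) z (I • v) (I • v)) * ‖f z‖ ^ 2 ≤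
      4 * ‖fderiv ℂ f z v‖ ^ 2 := by
  rw [B5_abs hD hf hu hpos hz hu2]
  refine mul_le_mul_of_nonneg_left (sub_le_self _ ?_) (by norm_num)
  positivity

end Hilbert

theorem B5_c2 (hD : BCD D) {z : Fin n → ℂ} (hz : z ∈ D) : ContDiffAt ℝ 2 (lk D) z :=
  (contDiffOn_lk hD 2).contDiffAt (hD.isOpen.mem_nhds hz)

theorem levi_symm (hD : BCD D) {z : Fin n → ℂ} (hz : z ∈ D) (a b : Fin n → ℂ) :
    levi D z a b = levi D z b a := by
  have h := (B5_c2 hD hz).isSymmSndFDerivAt (by simp)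
  rw [levi, levi, h a b, h (I • a) (I • b)]

theorem levi_I_I (z a b : Fin n → ℂ) : levi D z (I • a) (I • b) = levi D z a b := by
  simp only [levi, smul_smul, I_mul_I, neg_one_smul, map_neg, neg_apply,
    neg_neg]
  exact add_comm _ _

theorem exists_levi_bilin (z : Fin n → ℂ) :
    ∃ B : (Fin n → ℂ) →L[ℝ] (Fin n → ℂ) →L[ℝ] ℝ, ∀ a b, levi D z a b = B a b := by
  let J : (Fin n → ℂ) →L[ℝ] (Fin n → ℂ) :=
    (I • ContinuousLinearMap.id ℂ (Fin n → ℂ)).restrictScalars ℝ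
  exact ⟨fderiv ℝ (fderiv ℝ (lk D)) z + (fderiv ℝ (fderiv ℝ (lk D)) z).bilinearComp J J,
    fun a b => rfl⟩

theorem continuousOn_levi (hD : BCD D) (a b : Fin n → ℂ) :
    ContinuousOn (fun z => levi D z a b) D := by
  have h1 : ContDiffOn ℝ 1 (fderiv ℝ (lk D)) D :=
    (contDiffOn_lk hD 2).fderiv_of_isOpen hD.isOpen (by norm_num)
  have h2 := h1.continuousOn_fderiv_of_isOpen hD.isOpen le_rfl
  exact ((h2.clm_apply continuousOn_const).clm_apply continuousOn_const).add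
    ((h2.clm_apply continuousOn_const).clm_apply continuousOn_const)

theorem levi_lower (hD : BCD D) {ev : (Fin n → ℂ) → (A2 D →L[ℂ] ℂ)} (hev : IsEval D ev)
    {z : Fin n → ℂ} (hz : z ∈ D) (v : Fin n → ℂ) (F : A2 D) (hF : ev z F = 0) :
    4 * ‖fderiv ℂ ev z v F‖ ^ 2 ≤ levi D z v v * bergK D z * ‖F‖ ^ 2 := by
  have := hev.complete
  rw [hev.norm_sq z hz]
  exact B5_lower hD.isOpen hev.hol (fun w hw => congrArg Real.log (hev.norm_sq w hw))
    (fun w hw => (bergK_pos hD hw).trans_eq (hev.norm_sq w hw)) hz (B5_c2 hD hz) v F hF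

theorem levi_upper (hD : BCD D) {ev : (Fin n → ℂ) → (A2 D →L[ℂ] ℂ)} (hev : IsEval D ev)
    {z : Fin n → ℂ} (hz : z ∈ D) (v : Fin n → ℂ) :
    levi D z v v * bergK D z ≤ 4 * ‖fderiv ℂ ev z v‖ ^ 2 := by
  have := hev.complete
  rw [hev.norm_sq z hz]
  exact B5_upper hD.isOpen hev.hol (fun w hw => congrArg Real.log (hev.norm_sq w hw))
    (fun w hw => (bergK_pos hD hw).trans_eq (hev.norm_sq w hw)) hz (B5_c2 hD hz) v

theorem bergG_apply (hD : BCD D) {z : Fin n → ℂ} (hz : z ∈ D) (j k : Fin n) :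
    bergG D z j k = ((levi D z (Pi.single j 1) (Pi.single k 1) : ℂ) +
      I * (levi D z (Pi.single j 1) (I • (Pi.single k 1 : Fin n → ℂ)) : ℂ)) / 4 := by
  have h2 := B5_c2 hD hz
  have e1 : (dzbar k fun w => (Real.log (bergK D w) : ℂ)) =ᶠ[𝓝 z] fun w =>
      ((fderiv ℝ (lk D) w (Pi.single k 1) : ℝ) +
        I * (fderiv ℝ (lk D) w (Pi.single k I) : ℝ)) / 2 := by
    filter_upwards [hD.isOpen.mem_nhds hz] with w hw
    have h3 := ((B5_c2 hD hw).differentiableAt (by norm_num)).hasFDerivAt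
    have h4 : HasFDerivAt (fun w => (Real.log (bergK D w) : ℂ))
        (ofRealCLM.comp (fderiv ℝ (lk D) w)) w := ofRealCLM.hasFDerivAt.comp w h3
    rw [dzbar, h4.fderiv]
    rfl
  have h5 := ofRealCLM.hasFDerivAt.comp z (B5_second h2 (Pi.single k 1))
  have h6 := ofRealCLM.hasFDerivAt.comp z (B5_second h2 (Pi.single k I))
  have h7 := ((h5.add (h6.const_mul I)).mul_const (2 : ℂ)⁻¹).congr_of_eventuallyEq
    (e1.trans (Eventually.of_forall fun w => div_eq_mul_inv _ _))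
  have e2 : ∀ i : Fin n, (Pi.single i I : Fin n → ℂ) = I • (Pi.single i 1 : Fin n → ℂ) :=
    fun i => by rw [← Pi.single_smul', smul_eq_mul, mul_one]
  rw [bergG, Matrix.of_apply, dz, h7.fderiv]
  simp only [levi, e2, smul_smul, I_mul_I, neg_one_smul, map_neg, smul_apply,
    add_apply, ContinuousLinearMap.comp_apply, ofRealCLM_apply,
    ContinuousLinearMap.flip_apply, smul_eq_mul]
  push_cast
  linear_combination (-(1 / 4 : ℂ) * (fderiv ℝ (fderiv ℝ (lk D)) z (I • Pi.single j 1)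
    (I • Pi.single k 1) : ℝ)) * I_mul_I

end Pool.Agent.P.MP_2ff09b_gt
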