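import Pool.Agent.P.MP_2ff09b_gt.B5
import Pool.Agent.P.MP_2ff09b_gt.A12

/-! CVX-B6. The lower bound of Hahn for the Bergman metric; the matrix of the metric; frames.
Sketch. nr_sq_le_levi: for f in PosRe D put g = (f - f z) / (f + conj (f z)), |g| <= 1, g z = 0,
dg = df / (2 re (f z)); let kz be the vector representing ev z (norm square bergK D z) with
holomorphic representative κ; F = class of g κ has ev z F = 0, ‖F‖ <= ‖kz‖ and
fderiv ev z v F = dg(v) * bergK D z; levi_lower gives 4 |dg v|² <= levi v v; conclude with nr_le.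
bergG: expand v in the real basis, use exists_levi_bilin, levi_symm, levi_I_I.
exists_frame: the set Λ of vectors l with re (l ⬝ (w - z)) <= 1 for all w in D is compact; maximise
|det| over Λ^n (positive since D is bounded); by multilinearity every l in Λ has |l (b j)| <= 1 on
the dual basis b; use BCD.exists_sep, openness of D for the strict inequality, le_nr with
f = 1 - L_j (w - z) and nr_le_two_of_disc. -/

open Set MeasureTheory Complex Filter Topology Metric

noncomputable section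

namespace Pool.Agent.P.MP_2ff09b_gt

variable {n : ℕ} {D : Set (Fin n → ℂ)}


theorem B6_norm {a b : ℂ} (ha : 0 < a.re) (hb : 0 < b.re) :
    ‖a - b‖ ≤ ‖a + (starRingEnd ℂ) b‖ := by
  refine (sq_le_sq₀ (norm_nonneg _) (norm_nonneg _)).1 ?_
  simp only [Complex.sq_norm, normSq_apply, sub_re, sub_im, add_re, add_im, conj_re, conj_im]
  nlinarith [mul_pos ha hb]

theorem B6_hahn (hD : BCD D) {z : Fin n → ℂ} (hz : z ∈ D) (v : Fin n → ℂ)
    {f : (Fin n → ℂ) → ℂ} (hf : f ∈ PosRe D) :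
    ‖fderiv ℂ f z v‖ ^ 2 ≤ max (levi D z v v) 0 * (f z).re ^ 2 := by
  obtain ⟨ev, hev⟩ := exists_isEval hD.isOpen
  haveI := hev.complete
  have hK := bergK_pos hD hz
  have hn := hD.isOpen.mem_nhds hz
  obtain ⟨kz, h1, h2⟩ : ∃ kz : A2 D, ‖kz‖ ^ 2 = bergK D z ∧ ev z kz = bergK D z := by
    have h : ‖(InnerProductSpace.toDual ℂ (A2 D)).symm (ev z)‖ ^ 2 = bergK D z := by
      rw [LinearIsometryEquiv.norm_map, hev.norm_sq z hz]
    refine ⟨_, h, ?_⟩
    rw [← InnerProductSpace.toDual_symm_apply, inner_self_eq_norm_sq_to_K, ← h]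
    simp
  obtain ⟨κ, hκ, eκ⟩ := kz.2
  have hκz : κ z = bergK D z := by rw [← hev.eval kz κ hκ eκ z hz, h2]
  have hne : ∀ w ∈ D, f w + (starRingEnd ℂ) (f z) ≠ 0 := fun w hw e => by
    have h := congrArg re e
    simp only [add_re, conj_re, zero_re] at h
    linarith [hf.2 w hw, hf.2 z hz]
  let h : (Fin n → ℂ) → ℂ := fun w => (f w + (starRingEnd ℂ) (f z))⁻¹ * κ w
  have hh : DifferentiableOn ℂ h D := ((hf.1.add_const _).inv hne).mul hκ
  have hg : DifferentiableOn ℂ (fun w => (f w - f z) * h w) D := (hf.1.sub_const _).mul hh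
  have hle : ∀ᵐ w ∂volume.restrict D, ‖(f w - f z) * h w‖ ≤ ‖kz.1 w‖ := by
    filter_upwards [eκ, ae_restrict_mem hD.isOpen.measurableSet] with w e hw
    rw [e, ← mul_assoc, norm_mul, ← div_eq_mul_inv, norm_div]
    exact mul_le_of_le_one_left (norm_nonneg _)
      (div_le_one_of_le₀ (B6_norm (hf.2 w hw) (hf.2 z hz)) (norm_nonneg _))
  have hm : MemLp (fun w => (f w - f z) * h w) 2 (volume.restrict D) :=
    (Lp.memLp kz.1).of_le (hg.continuousOn.aestronglyMeasurable hD.isOpen.measurableSet) hle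
  let F : A2 D := ⟨hm.toLp _, _, hg, hm.coeFn_toLp⟩
  have hF : ∀ w ∈ D, ev w F = (f w - f z) * h w := hev.eval F _ hg hm.coeFn_toLp
  have hN : ‖F‖ ≤ ‖kz‖ := Lp.norm_le_norm_of_ae_le (by
    filter_upwards [hle, hm.coeFn_toLp] with w e e'
    exact e'.symm ▸ e)
  have d1 := (hev.hol.differentiableAt hn).hasFDerivAt.clm_apply (hasFDerivAt_const F z)
  have d2 := (((hf.1.differentiableAt hn).hasFDerivAt.sub_const (f z)).mul
    (hh.differentiableAt hn).hasFDerivAt).congr_of_eventuallyEq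
      (f₁ := fun w => ev w F) (Filter.eventually_of_mem hn hF)
  have d3 : fderiv ℂ ev z v F = h z * fderiv ℂ f z v := by
    simpa using congrArg (fun T : (Fin n → ℂ) →L[ℂ] ℂ => T v) (d1.unique d2)
  have d4 : ‖h z‖ * (2 * (f z).re) = bergK D z := by
    have hp := hf.2 z hz
    simp only [h, hκz, Complex.add_conj, norm_mul, norm_inv, Complex.norm_real]
    rw [Real.norm_of_nonneg hK.le, Real.norm_of_nonneg hp.le, Real.norm_two]
    field_simp
  have e1 := levi_lower hD hev hz v F (by rw [hF z hz, sub_self, zero_mul])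
  have e2 : levi D z v v * bergK D z * ‖F‖ ^ 2 ≤ max (levi D z v v) 0 * bergK D z * bergK D z :=
    mul_le_mul (mul_le_mul_of_nonneg_right (le_max_left _ _) hK.le)
      (h1 ▸ pow_le_pow_left₀ (norm_nonneg _) hN 2) (sq_nonneg _) (by positivity)
  rw [d3, norm_mul] at e1
  refine le_of_mul_le_mul_left ?_ (mul_pos hK hK)
  calc bergK D z * bergK D z * ‖fderiv ℂ f z v‖ ^ 2
      = 4 * (‖h z‖ * ‖fderiv ℂ f z v‖) ^ 2 * (f z).re ^ 2 := by rw [← d4]; ring
    _ ≤ max (levi D z v v) 0 * bergK D z * bergK D z * (f z).re ^ 2 :=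
      mul_le_mul_of_nonneg_right (e1.trans e2) (sq_nonneg _)
    _ = _ := by ring

theorem B6_levi_I (z a b : Fin n → ℂ) : levi D z (I • a) b = -levi D z a (I • b) := by
  obtain ⟨B, hB⟩ := exists_levi_bilin (D := D) z
  rw [← levi_I_I z a, smul_smul, I_mul_I, neg_one_smul, hB, hB, map_neg, neg_neg]

/-- The polar set. -/
def B6pol (D : Set (Fin n → ℂ)) (z : Fin n → ℂ) : Set (Fin n → ℂ) :=
  {l | ∀ w ∈ D, (l ⬝ᵥ (w - z)).re ≤ 1}

theorem B6_compact (hD : BCD D) {z : Fin n → ℂ} (hz : z ∈ D) : IsCompact (B6pol D z) := by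
  obtain ⟨r, hr, h⟩ := Metric.nhds_basis_closedBall.mem_iff.1 (hD.isOpen.mem_nhds hz)
  refine Metric.isCompact_of_isClosed_isBounded ?_
    ((Metric.isBounded_closedBall (x := 0) (r := r⁻¹)).subset fun l hl => ?_)
  · simp only [B6pol, setOf_forall]
    exact isClosed_iInter fun w => isClosed_iInter fun _ =>
      isClosed_le (continuous_re.comp (continuous_id.dotProduct continuous_const)) continuous_const
  · refine mem_closedBall_zero_iff.2 ((pi_norm_le_iff_of_nonneg (by positivity)).2 fun j => ?_)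
    obtain ⟨c, hc, e⟩ := RCLike.exists_norm_eq_mul_self (l j)
    have h1 := hl (z + Pi.single j (r * c)) (h (by
      simp [mem_closedBall_iff_norm, Pi.norm_single, hc, abs_of_pos hr]))
    rw [add_sub_cancel_left, dotProduct_single, mul_comm, mul_assoc, ← e] at h1
    rw [← mul_one r⁻¹, le_inv_mul_iff₀ hr]
    simpa using h1

theorem B6_lt (hD : BCD D) {z l w : Fin n → ℂ} (hl : l ∈ B6pol D z) (hw : w ∈ D) :
    (l ⬝ᵥ (w - z)).re < 1 := by
  have h1 : Tendsto (fun t : ℝ => w + t • (w - z)) (𝓝[>] 0) (𝓝 w) :=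
    ((by fun_prop : Continuous fun t : ℝ => w + t • (w - z)).tendsto' 0 w (by simp)).mono_left
      nhdsWithin_le_nhds
  obtain ⟨t, ht, ht'⟩ := ((h1.eventually (hD.isOpen.mem_nhds hw)).and self_mem_nhdsWithin).exists
  have h2 := hl _ ht
  rw [add_sub_right_comm, dotProduct_add, dotProduct_smul, add_re, smul_re, smul_eq_mul] at h2
  by_contra h3
  nlinarith

theorem B6_max (hD : BCD D) {z : Fin n → ℂ} (hz : z ∈ D) : ∃ M : Matrix (Fin n) (Fin n) ℂ,
    M.det ≠ 0 ∧ (∀ j, M j ∈ B6pol D z) ∧ ∀ l ∈ B6pol D z, ∀ x, ‖l ⬝ᵥ x‖ ≤ n * ‖M.mulVec x‖ := by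
  obtain ⟨R, hR, h⟩ := hD.bounded.subset_closedBall_lt 0 z
  have h0 : ((R⁻¹ : ℝ) : ℂ) • (1 : Matrix (Fin n) (Fin n) ℂ) ∈ univ.pi fun _ => B6pol D z :=
    fun j _ w hw => by
      have h1 : ‖(w - z) j‖ ≤ R := (norm_le_pi_norm _ j).trans (mem_closedBall_iff_norm.1 (h hw))
      have h2 : (((R⁻¹ : ℝ) : ℂ) • (1 : Matrix (Fin n) (Fin n) ℂ)) j ⬝ᵥ (w - z) =
          ((R⁻¹ : ℝ) : ℂ) * (w - z) j :=
        show ((((R⁻¹ : ℝ) : ℂ) • (1 : Matrix (Fin n) (Fin n) ℂ)).mulVec (w - z)) j = _ by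
          rw [Matrix.smul_mulVec, Matrix.one_mulVec, Pi.smul_apply, smul_eq_mul]
      rw [h2, re_ofReal_mul, inv_mul_le_one₀ hR]
      exact (re_le_norm _).trans h1
  obtain ⟨M, hM, hmax⟩ := (isCompact_univ_pi fun _ : Fin n => B6_compact hD hz).exists_isMaxOn
    (f := fun M : Matrix (Fin n) (Fin n) ℂ => ‖M.det‖) ⟨_, h0⟩
    (continuous_id.matrix_det.norm).continuousOn
  have hp : 0 < ‖Matrix.det M‖ := lt_of_lt_of_le (by simpa using pow_pos (abs_pos.2 hR.ne') n) (hmax h0)
  have hd := norm_pos_iff.1 hp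
  refine ⟨M, hd, fun j => hM j trivial, fun l hl x => ?_⟩
  obtain ⟨c, rfl⟩ : ∃ c, l = Matrix.vecMul c M := ⟨Matrix.vecMul l (M : Matrix _ _ ℂ)⁻¹, by
    rw [Matrix.vecMul_vecMul, Matrix.nonsing_inv_mul _ hd.isUnit, Matrix.vecMul_one]⟩
  have hc : ∀ j, ‖c j‖ ≤ 1 := fun j => by
    have h1 : ‖(Matrix.updateRow M j (Matrix.vecMul c M)).det‖ ≤ ‖Matrix.det M‖ :=
      hmax (a := Matrix.updateRow M j (Matrix.vecMul c M)) fun i _ => by
        rcases eq_or_ne i j with rfl | h1
        · rwa [Matrix.updateRow_self]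
        · rw [Matrix.updateRow_ne h1]
          exact hM i trivial
    rw [Matrix.vecMul_eq_sum, Matrix.det_updateRow_sum, norm_smul] at h1
    exact (mul_le_iff_le_one_left hp).1 h1
  rw [← Matrix.dotProduct_mulVec]
  refine (norm_sum_le _ _).trans ((Finset.sum_le_card_nsmul _ _ _ fun j _ => ?_).trans_eq
    (by rw [Finset.card_fin, nsmul_eq_mul]))
  rw [norm_mul]
  exact (mul_le_of_le_one_left (norm_nonneg _) (hc j)).trans (norm_le_pi_norm _ j)

theorem nr_sq_le_levi (hD : BCD D) {z : Fin n → ℂ} (hz : z ∈ D) (v : Fin n → ℂ) :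
    nr D z v ^ 2 ≤ levi D z v v := by
  have h1 : nr D z v ≤ √(max (levi D z v v) 0) := nr_le hz fun f hf => by
    refine (sq_le_sq₀ (norm_nonneg _) (mul_nonneg (Real.sqrt_nonneg _) (hf.2 z hz).le)).1 ?_
    rw [mul_pow, Real.sq_sqrt (le_max_right _ _)]
    exact B6_hahn hD hz v hf
  rcases le_total 0 (levi D z v v) with h | h
  · rw [max_eq_left h] at h1
    exact (Real.le_sqrt (nr_nonneg hz v) h).1 h1
  · rw [max_eq_right h, Real.sqrt_zero] at h1
    obtain ⟨C, hC, h2⟩ := exists_norm_le_nr hD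
    obtain ⟨B, hB⟩ := exists_levi_bilin (D := D) z
    have h3 : v = 0 :=
      norm_le_zero_iff.1 ((h2 z hz v).trans (mul_nonpos_of_nonneg_of_nonpos hC.le h1))
    rw [h1.antisymm (nr_nonneg hz v), hB, h3]
    simp

theorem bergG_isHermitian (hD : BCD D) {z : Fin n → ℂ} (hz : z ∈ D) :
    (bergG D z).IsHermitian := by
  ext j k
  rw [Matrix.conjTranspose_apply, bergG_apply hD hz, bergG_apply hD hz,
    levi_symm hD hz (Pi.single k 1) (I • _), B6_levi_I, levi_symm hD hz (Pi.single k 1)]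
  simp

theorem bergG_form (hD : BCD D) {z : Fin n → ℂ} (hz : z ∈ D) (v : Fin n → ℂ) :
    (v ⬝ᵥ (bergG D z).mulVec (star v)).re = levi D z v v / 4 := by
  obtain ⟨B, hB⟩ := exists_levi_bilin (D := D) z
  have hv : v = ∑ j, ((v j).re • (Pi.single j 1 : Fin n → ℂ) +
      (v j).im • I • (Pi.single j 1 : Fin n → ℂ)) := by
    ext k
    simp [Finset.sum_apply, Pi.single_apply, Finset.sum_add_distrib]
  have h1 : ∀ a b, B (I • a) (I • b) = B a b := fun a b => by rw [← hB, ← hB, levi_I_I]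
  have h2 : ∀ a b, B (I • a) b = -B a (I • b) := fun a b => by rw [← hB, ← hB, B6_levi_I]
  have h3 := congrArg (fun u => B u u) hv
  simp only [map_sum, map_add, map_smul, ContinuousLinearMap.sum_apply,
    ContinuousLinearMap.add_apply, ContinuousLinearMap.smul_apply, h1, smul_eq_mul] at h3
  simp only [h2, Finset.mul_sum, ← Finset.sum_add_distrib] at h3
  rw [hB, h3, Finset.sum_comm]
  simp only [dotProduct, Matrix.mulVec, Finset.mul_sum, re_sum, Finset.sum_div,
    ← Finset.sum_add_distrib, bergG_apply hD hz, hB]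
  refine Finset.sum_congr rfl fun j _ => Finset.sum_congr rfl fun k _ => ?_
  simp
  ring

theorem exists_frame (hD : BCD D) {z : Fin n → ℂ} (hz : z ∈ D) : ∃ L, IsFrame D z L := by
  obtain ⟨M, hd, h1, h2⟩ := B6_max hD hz
  let L := (M.toLinearEquiv' (M.invertibleOfIsUnitDet hd.isUnit)).toContinuousLinearEquiv
  have hL : ∀ v, L v = M.mulVec v := fun _ => rfl
  have half : ∀ w ∈ D, ∀ j, (L (w - z) j).re < 1 := fun w hw j => B6_lt hD (h1 j) hw
  have disc : ∀ v, (n : ℝ) * ‖L v‖ < 1 → z + v ∈ D := fun v hv => by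
    by_contra hn
    obtain ⟨l, hl, -⟩ := hD.exists_sep hn
    have hp : 0 < (l v).re := by simpa using hl z hz
    have e : ∀ x, (fun j => (((l v).re⁻¹ : ℝ) : ℂ) * l (Pi.single j 1)) ⬝ᵥ x =
        (((l v).re⁻¹ : ℝ) : ℂ) * l x := fun x => by
      conv_rhs => rw [pi_eq_sum_univ' x, map_sum, Finset.mul_sum]
      exact Finset.sum_congr rfl fun j _ => by rw [map_smul, smul_eq_mul]; ring
    have h3 := (re_le_norm _).trans (h2 _ (fun w hw => by
      have h4 := hl w hw
      rw [map_add, add_re] at h4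
      rw [e, re_ofReal_mul, inv_mul_le_one₀ hp, map_sub, sub_re]
      linarith) v)
    rw [e, re_ofReal_mul, inv_mul_cancel₀ hp.ne'] at h3
    exact (h3.trans_lt hv).false
  refine ⟨L, half, disc, fun v => (pi_norm_le_iff_of_nonneg (nr_nonneg hz v)).2 fun j => ?_,
    fun v => ?_⟩
  · let T : (Fin n → ℂ) →L[ℂ] ℂ :=
      (ContinuousLinearMap.proj j).comp L.toContinuousLinearMap
    have d : ∀ w, HasFDerivAt (fun w => 1 - T (w - z)) (-T) w := fun w => by
      simpa using (T.hasFDerivAt.comp w ((hasFDerivAt_id w).sub_const z)).const_sub 1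
    have h3 := le_nr hD hz (f := fun w => 1 - T (w - z))
      ⟨fun w _ => (d w).differentiableAt.differentiableWithinAt, fun w hw => by
        rw [sub_re, one_re, sub_pos]
        exact half w hw j⟩ v
    rw [(d z).fderiv] at h3
    simpa [T] using h3
  · rw [mul_assoc, ← div_le_iff₀' two_pos]
    refine le_of_forall_gt_imp_ge_of_dense fun c hc => ?_
    have hp : 0 < c := lt_of_le_of_lt (by positivity) hc
    have d : ∀ t : ℂ, HasDerivAt (fun t : ℂ => z + t • ((c : ℂ)⁻¹ • v)) ((c : ℂ)⁻¹ • v) t :=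
      fun t => by simpa using ((hasDerivAt_id t).smul_const ((c : ℂ)⁻¹ • v)).const_add z
    have h3 := nr_le_two_of_disc hD (fun t _ => (d t).differentiableAt.differentiableWithinAt)
      fun t ht => disc _ (by
        rw [map_smul, map_smul, norm_smul, norm_smul, norm_inv, Complex.norm_real,
          Real.norm_of_nonneg hp.le, mul_left_comm, mul_left_comm (n : ℝ)]
        exact mul_lt_one_of_nonneg_of_lt_one_left (norm_nonneg _) (mem_ball_zero_iff.1 ht)
          ((inv_mul_le_one₀ hp).2 hc.le))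
    rw [(d 0).deriv, zero_smul, add_zero, nr_smul hD hz, norm_inv, Complex.norm_real,
      Real.norm_of_nonneg hp.le, inv_mul_le_iff₀ hp] at h3
    linarith

end Pool.Agent.P.MP_2ff09b_gt
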