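import Pool.Agent.P.MP_2ff09b_gt.B3

/-! CVX-B7. Estimates for the Bergman kernel in a frame.
Sketch. Upper: let r = 1/(n+1). For w = z + v with ‖L v‖ < r/2 the balanced set
S = {u | ‖L u‖ < r/2} satisfies w + S ⊆ D (field disc), and its volume is c / ‖det L‖²
(Measure.addHaar_preimage_continuousLinearEquiv or addHaar_preimage_linearMap,
det_restrictScalars_eq); sq_enorm_mul_le bounds |f w|²; the derivative bound is
norm_fderiv_le_of_bound for f (z + L.symm ξ) on the ball of radius r/2. Lower: test function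
f w = ∏ j, (2 - L (w - z) j)^(-2); on re ξ < 1 one has |2 - ξ| >= (1 + |ξ|)/4, the function
(1 + |ξ|)^(-4) is integrable on ℂ (integrable_one_add_norm), products are integrable
(Integrable.fintype_prod), change variables by L and use sq_norm_le_bergK. -/

open Set MeasureTheory Complex Filter Topology Metric

noncomputable section

namespace Pool.Agent.P.MP_2ff09b_gt

private theorem B7_cov {n : ℕ} {D : Set (Fin n → ℂ)} (hD : IsOpen D) (z : Fin n → ℂ)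
    (L : (Fin n → ℂ) ≃L[ℂ] (Fin n → ℂ)) (g : (Fin n → ℂ) → ENNReal) :
    ∫⁻ ξ in (fun w => L (w - z)) '' D, g ξ =
      ENNReal.ofReal (‖(L : (Fin n → ℂ) →L[ℂ] (Fin n → ℂ)).det‖ ^ 2) *
        ∫⁻ w in D, g (L (w - z)) := by
  have h := lintegral_image_eq_lintegral_abs_det_fderiv_mul volume hD.measurableSet
    (f := fun w => L (w - z))
    (f' := fun _ => (L : (Fin n → ℂ) →L[ℂ] (Fin n → ℂ)).restrictScalars ℝ)
    (fun w _ => by
      have h1 := (L.hasFDerivAt.comp w ((hasFDerivAt_id w).sub_const z)).restrictScalars ℝ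
      rw [ContinuousLinearMap.comp_id] at h1
      exact h1.hasFDerivWithinAt)
    (fun a _ b _ e => sub_left_injective (L.injective e)) g
  rw [h, ← lintegral_const_mul' _ _ ENNReal.ofReal_ne_top]
  simp only [det_restrictScalars_eq, abs_of_nonneg (sq_nonneg (‖_‖ : ℝ))]

private theorem B7_det_pos {n : ℕ} (L : (Fin n → ℂ) ≃L[ℂ] (Fin n → ℂ)) :
    0 < ‖(L : (Fin n → ℂ) →L[ℂ] (Fin n → ℂ)).det‖ :=
  norm_pos_iff.2 (LinearEquiv.isUnit_det' L.toLinearEquiv).ne_zero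

private theorem B7_pt {ξ : ℂ} (h : ξ.re < 1) :
    2 - ξ ≠ 0 ∧ ‖((2 - ξ) ^ 2)⁻¹‖ ^ 2 ≤ 256 * (1 + ‖ξ‖) ^ (-(4 : ℝ)) := by
  have h1 : 1 ≤ ‖2 - ξ‖ := by
    refine le_trans ?_ (re_le_norm _)
    simp only [sub_re, re_ofNat]
    linarith
  have h2 : ‖ξ‖ ≤ 2 + ‖2 - ξ‖ := by
    have := norm_sub_le (2 : ℂ) (2 - ξ)
    rwa [sub_sub_cancel, Complex.norm_ofNat] at this
  have h3 : 0 < 1 + ‖ξ‖ := by positivity
  have h4 : 0 < ‖2 - ξ‖ := by linarith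
  refine ⟨norm_pos_iff.1 h4, ?_⟩
  rw [Real.rpow_neg h3.le, show (4 : ℝ) = (4 : ℕ) by norm_num, Real.rpow_natCast, norm_inv,
    norm_pow, inv_pow, ← pow_mul, ← div_eq_mul_inv, inv_eq_one_div,
    div_le_div_iff₀ (by positivity) (by positivity), one_mul]
  calc (1 + ‖ξ‖) ^ 4 ≤ (4 * ‖2 - ξ‖) ^ 4 := pow_le_pow_left₀ h3.le (by linarith) 4
    _ = _ := by ring

theorem frame_upper (n : ℕ) : ∃ C : ℝ, 0 < C ∧ ∀ (D : Set (Fin n → ℂ)) (z : Fin n → ℂ)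
    (L : (Fin n → ℂ) ≃L[ℂ] (Fin n → ℂ)), IsOpen D → IsFrame D z L →
    ∀ f : (Fin n → ℂ) → ℂ, DifferentiableOn ℂ f D → ∫⁻ w in D, ‖f w‖ₑ ^ 2 ≤ 1 →
      ‖f z‖ ^ 2 ≤ C * ‖(L : (Fin n → ℂ) →L[ℂ] (Fin n → ℂ)).det‖ ^ 2 ∧
      ∀ v, ‖fderiv ℂ f z v‖ ^ 2 ≤
        C * ‖(L : (Fin n → ℂ) →L[ℂ] (Fin n → ℂ)).det‖ ^ 2 * ‖L v‖ ^ 2 := by
  have hr : (0 : ℝ) < 1 / (n + 1) := by positivity
  obtain ⟨C, hC, H⟩ := exists_local_bound n hr
  refine ⟨C ^ 2 + (2 * C / (1 / (n + 1) / 2)) ^ 2, by positivity, fun D z L hD hL f hf hi => ?_⟩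
  generalize hd : ‖(L : (Fin n → ℂ) →L[ℂ] (Fin n → ℂ)).det‖ = d
  have d0 : 0 ≤ d := hd ▸ norm_nonneg _
  have e : (fun w => L (w - z)) '' D = (fun ξ => z + L.symm ξ) ⁻¹' D := by
    ext ξ
    constructor
    · rintro ⟨w, hw, rfl⟩
      simpa using hw
    · exact fun h => ⟨_, h, by simp⟩
  have hA : Differentiable ℂ fun ξ => z + L.symm ξ := L.symm.differentiable.const_add z
  have hU : IsOpen ((fun ξ => z + L.symm ξ) ⁻¹' D) := hD.preimage hA.continuous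
  have hF : DifferentiableOn ℂ (fun ξ => f (z + L.symm ξ)) ((fun ξ => z + L.symm ξ) ⁻¹' D) :=
    hf.comp hA.differentiableOn fun _ h => h
  have hb : ball 0 (1 / (n + 1) : ℝ) ⊆ (fun ξ => z + L.symm ξ) ⁻¹' D := fun ξ hξ => by
    refine hL.disc _ ?_
    rw [mem_ball_zero_iff, lt_div_iff₀ (by positivity)] at hξ
    rw [L.apply_symm_apply]
    nlinarith [norm_nonneg ξ]
  have h1 := H _ 0 _ d hU hb hF d0 (by
    rw [← e, B7_cov hD, hd]
    simp only [L.symm_apply_apply, add_sub_cancel]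
    exact mul_le_of_le_one_right' hi)
  have h2 := h1 0 (mem_ball_self (half_pos hr))
  rw [map_zero, add_zero] at h2
  have h3 := norm_fderiv_le_of_bound (half_pos hr)
    (hF.mono ((ball_subset_ball (half_le_self hr.le)).trans hb)) h1
  refine ⟨(pow_le_pow_left₀ (norm_nonneg _) h2 2).trans ?_, fun v => ?_⟩
  · rw [mul_pow]
    exact mul_le_mul_of_nonneg_right (le_add_of_nonneg_right (sq_nonneg _)) (sq_nonneg _)
  · have hz : z + L.symm 0 ∈ D := hb (mem_ball_self hr)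
    have h4 := (hf.differentiableAt (hD.mem_nhds hz)).hasFDerivAt.comp 0
      (L.symm.hasFDerivAt.const_add z)
    have h5 : fderiv ℂ f z v = fderiv ℂ (fun ξ => f (z + L.symm ξ)) 0 (L v) := by
      rw [show fderiv ℂ (fun ξ => f (z + L.symm ξ)) 0 = _ from h4.fderiv]
      simp
    rw [h5]
    refine (pow_le_pow_left₀ (norm_nonneg _)
      (ContinuousLinearMap.le_of_opNorm_le _ h3 _) 2).trans ?_
    rw [mul_pow, show 2 * (C * d) / (1 / (n + 1) / 2) = 2 * C / (1 / (n + 1) / 2) * d by ring,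
      mul_pow]
    exact mul_le_mul_of_nonneg_right (mul_le_mul_of_nonneg_right
      (le_add_of_nonneg_left (sq_nonneg _)) (sq_nonneg _)) (sq_nonneg _)

theorem frame_lower (n : ℕ) : ∃ c : ℝ, 0 < c ∧ ∀ (D : Set (Fin n → ℂ)) (z : Fin n → ℂ)
    (L : (Fin n → ℂ) ≃L[ℂ] (Fin n → ℂ)), IsOpen D → z ∈ D → IsFrame D z L →
      c * ‖(L : (Fin n → ℂ) →L[ℂ] (Fin n → ℂ)).det‖ ^ 2 ≤ bergK D z := by
  have i₁ : Integrable fun ξ : ℂ => 256 * (1 + ‖ξ‖) ^ (-(4 : ℝ)) :=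
    (integrable_one_add_norm (by rw [Complex.finrank_real_complex]; norm_num)).const_mul _
  have i₂ : Integrable fun ξ : Fin n → ℂ => ∏ j, 256 * (1 + ‖ξ j‖) ^ (-(4 : ℝ)) :=
    Integrable.fintype_prod (f := fun (_ : Fin n) (ξ : ℂ) => 256 * (1 + ‖ξ‖) ^ (-(4 : ℝ)))
      fun _ => i₁
  have p₂ : ∀ ξ : Fin n → ℂ, 0 ≤ ∏ j, 256 * (1 + ‖ξ j‖) ^ (-(4 : ℝ)) := fun ξ =>
    Finset.prod_nonneg fun j _ => by positivity
  have i₃ := ofReal_integral_eq_lintegral_ofReal i₂ (Eventually.of_forall p₂)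
  have i₄ : 0 ≤ ∫ ξ : Fin n → ℂ, ∏ j, 256 * (1 + ‖ξ j‖) ^ (-(4 : ℝ)) := integral_nonneg p₂
  generalize ∫ ξ : Fin n → ℂ, ∏ j, 256 * (1 + ‖ξ j‖) ^ (-(4 : ℝ)) = M at i₃ i₄
  refine ⟨((4 : ℝ)⁻¹ ^ n) ^ 2 / (M + 1), by positivity, fun D z L hD hz hL => ?_⟩
  have d0 := B7_det_pos L
  have hc := B7_cov hD z L fun ξ => ‖∏ j, ((2 - ξ j) ^ 2)⁻¹‖ₑ ^ 2
  generalize ‖(L : (Fin n → ℂ) →L[ℂ] (Fin n → ℂ)).det‖ = d at d0 hc ⊢
  have hf : DifferentiableOn ℂ (fun w => ∏ j, ((2 - L (w - z) j) ^ 2)⁻¹) D := by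
    intro w hw
    have h0 : ∀ j, DifferentiableAt ℂ (fun w => ((2 - L (w - z) j) ^ 2)⁻¹) w := fun j => by
      have h1 : DifferentiableAt ℂ (fun w => (2 - L (w - z) j) ^ 2) w := by fun_prop
      exact h1.inv (pow_ne_zero 2 (B7_pt (hL.half w hw j)).1)
    exact (HasFDerivAt.finsetProd (u := Finset.univ)
      fun j _ => (h0 j).hasFDerivAt).differentiableAt.differentiableWithinAt
  have h1 : ∫⁻ ξ in (fun w => L (w - z)) '' D, ‖∏ j, ((2 - ξ j) ^ 2)⁻¹‖ₑ ^ 2 ≤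
      ENNReal.ofReal M := by
    rw [i₃]
    refine le_trans (setLIntegral_mono (by fun_prop) ?_) (setLIntegral_le_lintegral _ _)
    rintro _ ⟨w, hw, rfl⟩
    rw [← ofReal_norm, ← ENNReal.ofReal_pow (norm_nonneg _), norm_prod, ← Finset.prod_pow]
    exact ENNReal.ofReal_le_ofReal (Finset.prod_le_prod (fun j _ => sq_nonneg _)
      fun j _ => (B7_pt (hL.half w hw j)).2)
  have h2 := sq_norm_le_bergK hD hf (c := (M + 1) / d ^ 2) (by positivity) (by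
    rw [hc] at h1
    rw [ENNReal.ofReal_div_of_pos (by positivity), ENNReal.le_div_iff_mul_le
      (Or.inl (ENNReal.ofReal_pos.2 (by positivity)).ne') (Or.inl ENNReal.ofReal_ne_top), mul_comm]
    exact h1.trans (ENNReal.ofReal_le_ofReal (by linarith))) hz
  have h3 : ‖∏ j, ((2 - L (z - z) j) ^ 2)⁻¹‖ = (4 : ℝ)⁻¹ ^ n := by
    simp
    norm_num
  rw [h3, ← mul_div_assoc, le_div_iff₀ (by positivity)] at h2
  rw [div_mul_eq_mul_div, div_le_iff₀ (by positivity)]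
  exact h2

end Pool.Agent.P.MP_2ff09b_gt
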