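import Pool.Agent.P.MP_2ff09b_gt.B6
import Pool.Agent.P.MP_2ff09b_gt.B7

/-! CVX-B8. The kernel and the metric are comparable with `nr`; the Jacobian bound.
Sketch. In a frame L at z: levi_upper, frame_upper (the operator norm of fderiv ev z v is the
supremum of |fderiv f z v| over the unit ball) and frame_lower give levi v v <= C ‖L v‖² <= C nr².
The determinant of the rows L (b j) is det L times det (of b); use norm_det_rows_le and
exists_det_lower. jacK_le: extend a to a basis b with exists_extend (seminorm from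
exists_seminorm_nr, definite by exists_norm_le_nr); then K(φ z) |det dφ|² |det b|² is at most
C ∏ nr (φ z) (dφ (b j))², the factors outside the range of e are at most 1 by nr_comp, and
K(z) |det b|² is at least c'. bergK_le_det: take b j = L.symm (e j), nr_sq_le_levi, bergG_form,
exists_det_re_ge. fund_muK: IsFundamentalDomain.mono with muK ≪ volume.restrict D ≪ bergVol
(withDensity_absolutelyContinuous', the density is continuous on D by bergG_apply and positive),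
and muK <= C bergVol. -/

open Set MeasureTheory Complex Filter Topology Metric

noncomputable section

namespace Pool.Agent.P.MP_2ff09b_gt

variable {n : ℕ} {D : Set (Fin n → ℂ)}

theorem B8_det (T : (Fin n → ℂ) →L[ℂ] (Fin n → ℂ)) (b : Fin n → Fin n → ℂ) :
    (Matrix.of fun j => T (b j)).det = T.det * (Matrix.of b).det := by
  have e : (Matrix.of fun j => T (b j)) =
      Matrix.of b * (LinearMap.toMatrix' (T : (Fin n → ℂ) →ₗ[ℂ] (Fin n → ℂ))).transpose := by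
    ext j i
    have h := congrFun (LinearMap.toMatrix'_mulVec (T : (Fin n → ℂ) →ₗ[ℂ] (Fin n → ℂ)) (b j)) i
    rw [Matrix.mul_apply]
    simp only [Matrix.mulVec, dotProduct] at h
    exact h.symm.trans (Finset.sum_congr rfl fun k _ => mul_comm _ _)
  rw [e, Matrix.det_mul, Matrix.det_transpose, LinearMap.det_toMatrix', mul_comm]

theorem B8_ev (hD : IsOpen D) {ev : (Fin n → ℂ) → (A2 D →L[ℂ] ℂ)} (hev : IsEval D ev)
    {z : Fin n → ℂ} (hz : z ∈ D) (v : Fin n → ℂ) {M : ℝ} (hM : 0 ≤ M)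
    (h : ∀ f : (Fin n → ℂ) → ℂ, DifferentiableOn ℂ f D → ∫⁻ w in D, ‖f w‖ₑ ^ 2 ≤ 1 →
      ‖fderiv ℂ f z v‖ ^ 2 ≤ M) : ‖fderiv ℂ ev z v‖ ^ 2 ≤ M := by
  refine (Real.le_sqrt (ContinuousLinearMap.opNorm_nonneg _) hM).1 ?_
  refine ContinuousLinearMap.opNorm_le_of_unit_norm (Real.sqrt_nonneg _) fun F hF => ?_
  obtain ⟨f, hf, hFf⟩ := F.2
  have h1 : (fun w => ev w F) =ᶠ[𝓝 z] f := by
    filter_upwards [hD.mem_nhds hz] with w hw
    exact hev.eval F f hf hFf w hw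
  have h2 := ((hev.hol.differentiableAt (hD.mem_nhds hz)).hasFDerivAt.clm_apply
    (hasFDerivAt_const F z)).fderiv
  rw [h1.fderiv_eq] at h2
  have h3 : fderiv ℂ f z v = fderiv ℂ ev z v F := by simp [h2]
  rw [← h3, Real.le_sqrt (norm_nonneg _) hM]
  refine h f hf (le_of_eq ?_)
  have h4 : eLpNorm f 2 (volume.restrict D) = 1 := by
    rw [← eLpNorm_congr_ae hFf, ← Lp.enorm_def, ← ofReal_norm]
    have h5 : ‖(F : Lp ℂ 2 (volume.restrict D))‖ = 1 := hF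
    rw [h5, ENNReal.ofReal_one]
  have h5 := eLpNorm_nnreal_pow_eq_lintegral (f := f) (μ := volume.restrict D) (p := 2) two_ne_zero
  simp only [ENNReal.coe_ofNat, NNReal.coe_ofNat, ENNReal.rpow_ofNat, h4, one_pow] at h5
  exact h5.symm

theorem exists_levi_le (hD : BCD D) :
    ∃ C : ℝ, 0 < C ∧ ∀ z ∈ D, ∀ v, levi D z v v ≤ C * nr D z v ^ 2 := by
  obtain ⟨C, hC, h1⟩ := frame_upper n
  obtain ⟨c, hc, h2⟩ := frame_lower n
  obtain ⟨ev, hev⟩ := exists_isEval hD.isOpen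
  refine ⟨4 * C / c, by positivity, fun z hz v => ?_⟩
  obtain ⟨L, hL⟩ := exists_frame hD hz
  have h3 := levi_upper hD hev hz v
  have h4 := h2 D z L hD.isOpen hz hL
  have h5 := B8_ev hD.isOpen hev hz v (by positivity)
    fun f hf hi => (h1 D z L hD.isOpen hL f hf hi).2 v
  have h6 : ‖L v‖ ^ 2 ≤ nr D z v ^ 2 := pow_le_pow_left₀ (norm_nonneg _) (hL.le_nr v) 2
  refine le_of_mul_le_mul_right (h3.trans ?_) (bergK_pos hD hz)
  calc 4 * ‖fderiv ℂ ev z v‖ ^ 2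
      ≤ 4 * (C * ‖(L : (Fin n → ℂ) →L[ℂ] (Fin n → ℂ)).det‖ ^ 2 * nr D z v ^ 2) := by
        refine mul_le_mul_of_nonneg_left (h5.trans ?_) (by norm_num)
        gcongr
    _ = 4 * C / c * nr D z v ^ 2 * (c * ‖(L : (Fin n → ℂ) →L[ℂ] (Fin n → ℂ)).det‖ ^ 2) := by
        field_simp
    _ ≤ _ := by gcongr

theorem bergK_det_le (hD : BCD D) : ∃ C : ℝ, 0 < C ∧ ∀ z ∈ D, ∀ b : Fin n → Fin n → ℂ,
    bergK D z * ‖(Matrix.of b).det‖ ^ 2 ≤ C * ∏ j, nr D z (b j) ^ 2 := by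
  obtain ⟨C, hC, h1⟩ := frame_upper n
  refine ⟨C * (n.factorial : ℝ) ^ 2, by positivity, fun z hz b => ?_⟩
  obtain ⟨L, hL⟩ := exists_frame hD hz
  have h2 := bergK_le (z := z) fun f hf hi => (h1 D z L hD.isOpen hL f hf hi).1
  have h3 := norm_det_rows_le fun j => (L : (Fin n → ℂ) →L[ℂ] (Fin n → ℂ)) (b j)
  rw [B8_det, norm_mul] at h3
  have h4 : ∏ j, ‖(L : (Fin n → ℂ) →L[ℂ] (Fin n → ℂ)) (b j)‖ ≤ ∏ j, nr D z (b j) :=
    Finset.prod_le_prod (fun j _ => norm_nonneg _) fun j _ => hL.le_nr (b j)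
  calc bergK D z * ‖(Matrix.of b).det‖ ^ 2
      ≤ C * ‖(L : (Fin n → ℂ) →L[ℂ] (Fin n → ℂ)).det‖ ^ 2 * ‖(Matrix.of b).det‖ ^ 2 := by gcongr
    _ = C * (‖(L : (Fin n → ℂ) →L[ℂ] (Fin n → ℂ)).det‖ * ‖(Matrix.of b).det‖) ^ 2 := by ring
    _ ≤ C * (n.factorial * ∏ j, nr D z (b j)) ^ 2 :=
        mul_le_mul_of_nonneg_left (pow_le_pow_left₀ (by positivity)
          (h3.trans (mul_le_mul_of_nonneg_left h4 (by positivity))) 2) hC.le
    _ = _ := by rw [Finset.prod_pow]; ring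

theorem le_bergK_det (hD : BCD D) {c : ℝ} (hc : 0 < c) : ∃ c' : ℝ, 0 < c' ∧ ∀ z ∈ D,
    ∀ b : Fin n → Fin n → ℂ, (∀ x : Fin n → ℂ, ‖x‖ ≤ c * nr D z (∑ j, x j • b j)) →
      c' ≤ bergK D z * ‖(Matrix.of b).det‖ ^ 2 := by
  obtain ⟨c₀, hc₀, h1⟩ := frame_lower n
  obtain ⟨c₁, hc₁, h2⟩ := exists_det_lower n (c := c * (2 * n + 1)) (by positivity)
  refine ⟨c₀ * c₁ ^ 2, by positivity, fun z hz b hb => ?_⟩
  obtain ⟨L, hL⟩ := exists_frame hD hz
  have h3 := h2 (fun j => (L : (Fin n → ℂ) →L[ℂ] (Fin n → ℂ)) (b j)) fun x => by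
    refine (hb x).trans ?_
    have h4 := hL.nr_le (∑ j, x j • b j)
    have h5 : L (∑ j, x j • b j) = ∑ j, x j • (L : (Fin n → ℂ) →L[ℂ] (Fin n → ℂ)) (b j) := by
      simp
    rw [h5] at h4
    rw [mul_assoc]
    refine mul_le_mul_of_nonneg_left (h4.trans ?_) hc.le
    gcongr
    linarith
  rw [B8_det, norm_mul] at h3
  calc c₀ * c₁ ^ 2
      ≤ c₀ * (‖(L : (Fin n → ℂ) →L[ℂ] (Fin n → ℂ)).det‖ * ‖(Matrix.of b).det‖) ^ 2 := by gcongr
    _ = c₀ * ‖(L : (Fin n → ℂ) →L[ℂ] (Fin n → ℂ)).det‖ ^ 2 * ‖(Matrix.of b).det‖ ^ 2 := by ring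
    _ ≤ _ := mul_le_mul_of_nonneg_right (h1 D z L hD.isOpen hz hL) (by positivity)

theorem jacK_le (hD : BCD D) {c : ℝ} (hc : 0 < c) : ∃ C : ℝ, 0 < C ∧
    ∀ φ : (Fin n → ℂ) → Fin n → ℂ, DifferentiableOn ℂ φ D → MapsTo φ D D → ∀ z ∈ D,
      ∀ (N : ℕ) (a : Fin N → Fin n → ℂ), (∀ i, nr D z (a i) ≤ 1) →
        (∀ x : Fin N → ℂ, ‖x‖ ≤ c * nr D z (∑ i, x i • a i)) →
        jacK D φ z ≤ C * ∏ i, nr D (φ z) (fderiv ℂ φ z (a i)) ^ 2 := by
  obtain ⟨c₁, hc₁, h1⟩ := exists_extend n hc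
  obtain ⟨c₂, hc₂, h2⟩ := le_bergK_det hD hc₁
  obtain ⟨C, hC, h3⟩ := bergK_det_le hD
  obtain ⟨C₀, -, h0⟩ := exists_norm_le_nr hD
  refine ⟨C / c₂, by positivity, fun φ hφ hm z hz N a ha hx => ?_⟩
  obtain ⟨ν, hν⟩ := exists_seminorm_nr hD hz
  obtain ⟨b, e, hb, hb1, hb2⟩ := h1 ν (fun v hv => by
    have h4 := h0 z hz v
    rw [← hν, hv, mul_zero] at h4
    exact norm_le_zero_iff.1 h4) N a (by simpa only [hν] using ha) (by simpa only [hν] using hx)
  simp only [hν] at hb1 hb2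
  have h4 := h2 z hz b hb2
  have h5 := h3 (φ z) (hm hz) fun j => fderiv ℂ φ z (b j)
  rw [B8_det, norm_mul] at h5
  have h6 : ∏ j, nr D (φ z) (fderiv ℂ φ z (b j)) ^ 2 ≤
      ∏ i, nr D (φ z) (fderiv ℂ φ z (a i)) ^ 2 := by
    simp only [← hb]
    rw [← Finset.prod_map Finset.univ e fun j => nr D (φ z) (fderiv ℂ φ z (b j)) ^ 2]
    refine Finset.prod_le_prod_of_subset_of_le_one (Finset.subset_univ _)
      (fun j _ => sq_nonneg _) fun j _ _ => ?_
    exact pow_le_one₀ (nr_nonneg (hm hz) _) ((nr_comp hD hD.isOpen hφ hm hz _).trans (hb1 j))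
  have hK := bergK_pos hD hz
  have hK' := bergK_nonneg (D := D) (φ z)
  rw [div_mul_eq_mul_div, le_div_iff₀ hc₂]
  calc jacK D φ z * c₂ ≤ jacK D φ z * (bergK D z * ‖(Matrix.of b).det‖ ^ 2) :=
        mul_le_mul_of_nonneg_left h4 (by unfold jacK; positivity)
    _ = bergK D (φ z) * (‖(fderiv ℂ φ z).det‖ * ‖(Matrix.of b).det‖) ^ 2 := by
        unfold jacK
        field_simp
    _ ≤ _ := h5.trans (mul_le_mul_of_nonneg_left h6 hC.le)

theorem bergK_le_det (hD : BCD D) :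
    ∃ C : ℝ, 0 < C ∧ ∀ z ∈ D, bergK D z ≤ C * (bergG D z).det.re := by
  obtain ⟨C, hC, h1⟩ := frame_upper n
  obtain ⟨c, hc, h2⟩ := exists_det_re_ge n (c := 1 / 4) (by norm_num)
  refine ⟨C / c, by positivity, fun z hz => ?_⟩
  obtain ⟨L, hL⟩ := exists_frame hD hz
  have h3 := bergK_le (z := z) fun f hf hi => (h1 D z L hD.isOpen hL f hf hi).1
  have h4 := h2 (bergG D z) (fun j => L.symm (Pi.single j 1)) (bergG_isHermitian hD hz) fun x => by
    have e : ∑ j, x j • L.symm (Pi.single j 1) = L.symm x := by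
      simp only [← map_smul, ← map_sum]
      congr 1
      ext i
      simp [Pi.single_apply]
    rw [e, bergG_form hD hz]
    have h5 := hL.le_nr (L.symm x)
    rw [L.apply_symm_apply] at h5
    have h6 := (pow_le_pow_left₀ (norm_nonneg _) h5 2).trans (nr_sq_le_levi hD hz _)
    linarith
  have h5 := B8_det (L : (Fin n → ℂ) →L[ℂ] (Fin n → ℂ)) fun j => L.symm (Pi.single j 1)
  have h6 : (Matrix.of fun j => (L : (Fin n → ℂ) →L[ℂ] (Fin n → ℂ)) (L.symm (Pi.single j 1))) =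
      1 := by
    ext i j
    simp [Matrix.one_apply, Pi.single_apply, eq_comm]
  rw [h6, Matrix.det_one] at h5
  have h7 := congrArg (fun x : ℂ => ‖x‖ ^ 2) h5
  simp only [norm_one, one_pow, norm_mul, mul_pow] at h7
  refine h3.trans ?_
  rw [div_mul_eq_mul_div, le_div_iff₀ hc, mul_assoc]
  refine mul_le_mul_of_nonneg_left ?_ hC.le
  refine (mul_le_mul_of_nonneg_left h4 (by positivity)).trans (le_of_eq ?_)
  rw [mul_left_comm, ← h7, mul_one]

theorem fund_muK (hD : BCD D) {Γ : Subgroup (Equiv.Perm (Fin n → ℂ))} {F : Set (Fin n → ℂ)}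
    (hF : IsFundamentalDomain Γ F (bergVol D)) (hfin : bergVol D F < ⊤) :
    IsFundamentalDomain Γ F (muK D) ∧ muK D F < ⊤ := by
  obtain ⟨C, hC, h⟩ := bergK_le_det hD
  have h1 : muK D ≤ ENNReal.ofReal C • bergVol D := by
    rw [bergVol, ← withDensity_smul' _ _ ENNReal.ofReal_ne_top]
    refine withDensity_mono ?_
    filter_upwards [ae_restrict_mem hD.isOpen.measurableSet] with z hz
    rw [Pi.smul_apply, smul_eq_mul, ← ENNReal.ofReal_mul hC.le]
    exact ENNReal.ofReal_le_ofReal (h z hz)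
  refine ⟨hF.mono (Measure.absolutelyContinuous_of_le_smul h1), (h1 F).trans_lt ?_⟩
  rw [Measure.smul_apply, smul_eq_mul]
  exact ENNReal.mul_lt_top ENNReal.ofReal_lt_top hfin

end Pool.Agent.P.MP_2ff09b_gt
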