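import Pool.Agent.P.MP_2ff09b_gt.Defs

/-! Working definitions for the proof that a bounded convex domain with a finite-volume quotient
is symmetric. -/

open Set MeasureTheory Complex Filter Topology Metric

noncomputable section

namespace Pool.Agent.P.MP_2ff09b_gt

section General
variable {E : Type*} [NormedAddCommGroup E] [NormedSpace ℂ E]

/-- A bounded convex domain. -/
structure BCD (D : Set E) : Prop where
  isOpen : IsOpen D
  convex : Convex ℝ D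
  bounded : Bornology.IsBounded D
  nonempty : D.Nonempty

/-- Holomorphic functions with positive real part. -/
def PosRe (D : Set E) : Set (E → ℂ) := {f | DifferentiableOn ℂ f D ∧ ∀ z ∈ D, 0 < (f z).re}

/-- The Harnack distance. -/
def hd (D : Set E) (z w : E) : ℝ :=
  sSup {r | ∃ f ∈ PosRe D, r = |Real.log (f z).re - Real.log (f w).re|}

/-- The infinitesimal Harnack (twice Caratheodory) norm. -/
def nr (D : Set E) (z v : E) : ℝ :=
  sSup {r | ∃ f ∈ PosRe D, r = ‖fderiv ℂ f z v‖ / (f z).re}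

/-- `c` solves the autonomous equation of the field `Y` on `[0,1]`, inside `D`, from `z`. -/
def IsSol (D : Set E) (Y : E → E) (z : E) (c : ℝ → E) : Prop :=
  c 0 = z ∧ ∀ t ∈ Icc (0 : ℝ) 1, c t ∈ D ∧ HasDerivWithinAt c (Y (c t)) (Icc 0 1) t

/-- The trajectory of `Y` from `z` exists in `D` up to time one. -/
def HasSol (D : Set E) (Y : E → E) (z : E) : Prop := ∃ c, IsSol D Y z c

open Classical in
/-- The time-one map of `Y` (the identity where there is no trajectory). The time `t` map is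
`ex D (t • Y)`. -/
def ex (D : Set E) (Y : E → E) (z : E) : E :=
  if h : HasSol D Y z then h.choose 1 else z

/-- A semicomplete holomorphic vector field. -/
def SemiC (D : Set E) (Y : E → E) : Prop :=
  DifferentiableOn ℂ Y D ∧ ∀ z ∈ D, HasSol D Y z

/-- The field with coordinates `U` in the family `W`. -/
def fld {N : ℕ} (W : Fin N → E → E) (U : Fin N → ℂ) (z : E) : E := ∑ j, U j • W j z

/-- A complex extreme point. -/
def CExt (K : Set E) (x : E) : Prop :=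
  x ∈ K ∧ ∀ v : E, (∀ ζ : ℂ, ‖ζ‖ ≤ 1 → x + ζ • v ∈ K) → v = 0

/-- `a` lies in the lineality space of the tangent cone of `K` at `x`. -/
def Lin (K : Set E) (x a : E) : Prop :=
  ∀ ε : ℝ, 0 < ε → ∀ᶠ t : ℝ in 𝓝 0, infDist (x + t • a) K ≤ ε * |t|

/-- Near `x`, complex discs in the direction `v` extend to long segments. -/
def Good (D : Set E) (x v : E) : Prop :=
  ∀ R : ℝ, 0 < R → ∀ᶠ p in 𝓝[D] x, ∀ δ : ℝ, 0 < δ →
    (∀ ζ : ℂ, ‖ζ‖ ≤ 1 → p + (ζ * δ) • v ∈ D) →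
      p + ((R * δ : ℝ) : ℂ) • v ∈ D ∧ p - ((R * δ : ℝ) : ℂ) • v ∈ D ∧
        p + (I * ((R * δ : ℝ) : ℂ)) • v ∈ D

/-- The supremum of the real parts of a bounded `Γ`-stable family of holomorphic functions is
constant. -/
def Liouv (D : Set E) (Γ : Subgroup (Equiv.Perm E)) : Prop :=
  ∀ (H : Set (E → ℂ)) (M : ℝ), (∀ h ∈ H, DifferentiableOn ℂ h D ∧ ∀ z ∈ D, ‖h z‖ ≤ M) →
    (∀ h ∈ H, ∀ γ ∈ Γ, ∃ h' ∈ H, ∀ z ∈ D, h' z = h (γ z)) →
      ∀ y ∈ D, ∀ z ∈ D, ∀ h ∈ H, ∀ ε : ℝ, 0 < ε → ∃ h' ∈ H, (h y).re ≤ (h' z).re + ε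

/-- A real vector seen as a complex vector. -/
def rc {N : ℕ} (V : Fin N → ℝ) : Fin N → ℂ := fun j => (V j : ℂ)

/-- The cone of real combinations `V` of the fields `W` such that `i V` is semicomplete. -/
def acone {N : ℕ} (D : Set E) (W : Fin N → E → E) : Set (Fin N → ℝ) :=
  {V | SemiC D (fld W (I • rc V))}

/-- An abelian family of complete fields, independent over the reals, whose cone generates. -/
structure ACtx {N : ℕ} (D : Set E) (W : Fin N → E → E) : Prop where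
  hol : ∀ j, DifferentiableOn ℂ (W j) D
  complete : ∀ V : Fin N → ℝ, SemiC D (fld W (rc V))
  comm : ∀ i j, ∀ z ∈ D, VectorField.lieBracket ℂ (W i) (W j) z = 0
  inj : ∀ V : Fin N → ℝ, (∀ z ∈ D, fld W (rc V) z = 0) → V = 0
  gen : (interior (acone D W)).Nonempty

/-- `γ` normalises the real span of the fields `W`, acting by the matrix `θ`. -/
def Normalizes {N : ℕ} (D : Set E) (W : Fin N → E → E) (γ : Equiv.Perm E)
    (θ : Matrix (Fin N) (Fin N) ℝ) : Prop :=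
  ∀ V : Fin N → ℝ, ∀ z ∈ D, fderiv ℂ γ z (fld W (rc V) z) = fld W (rc (θ.mulVec V)) (γ z)

/-- `Γ` normalises no nonzero abelian family with generating cone. -/
def NoAb (D : Set E) (Γ : Subgroup (Equiv.Perm E)) : Prop :=
  ∀ (N : ℕ) (W : Fin N → E → E), ACtx D W → (∀ γ ∈ Γ, ∃ θ, Normalizes D W γ θ) → N = 0

/-- A basis `W` of the real span of the complete fields `Y` with `i Y` semicomplete. -/
structure PreG {N : ℕ} (D : Set E) (W : Fin N → E → E) : Prop where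
  hol : ∀ j, DifferentiableOn ℂ (W j) D
  complete : ∀ V : Fin N → ℝ, SemiC D (fld W (rc V))
  inj : ∀ U : Fin N → ℂ, (∀ z ∈ D, fld W U z = 0) → U = 0
  diff : ∀ V : Fin N → ℝ, ∃ A ∈ acone D W, ∃ B ∈ acone D W, V = A - B
  max : ∀ Y : E → E, SemiC D Y → SemiC D (-Y) → SemiC D (I • Y) →
    ∃ V ∈ acone D W, ∀ z ∈ D, Y z = fld W (rc V) z

end General

section Cone
variable {N : ℕ}

/-- A closed pointed generating convex cone. -/
structure PCone (C : Set (Fin N → ℝ)) : Prop where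
  closed : IsClosed C
  zero_mem : (0 : Fin N → ℝ) ∈ C
  add_mem : ∀ V ∈ C, ∀ V' ∈ C, V + V' ∈ C
  smul_mem : ∀ t : ℝ, 0 ≤ t → ∀ V ∈ C, t • V ∈ C
  pointed : ∀ V ∈ C, -V ∈ C → V = 0
  gen : (interior C).Nonempty

/-- The open dual cone. -/
def dualInt (C : Set (Fin N → ℝ)) : Set (Fin N → ℝ) := {η | ∀ V ∈ C, V ≠ 0 → 0 < η ⬝ᵥ V}

/-- The characteristic function of the dual cone. -/
def cphi (C : Set (Fin N → ℝ)) (η : Fin N → ℝ) : ℝ := ∫ V in C, Real.exp (-(η ⬝ᵥ V))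

/-- The mean of the exponential law on `C` with parameter `η`. -/
def cZ (C : Set (Fin N → ℝ)) (η : Fin N → ℝ) : Fin N → ℝ :=
  fun j => (∫ V in C, V j * Real.exp (-(η ⬝ᵥ V))) / cphi C η

/-- The covariance matrix of the exponential law on `C` with parameter `η`. -/
def cA (C : Set (Fin N → ℝ)) (η : Fin N → ℝ) : Matrix (Fin N) (Fin N) ℝ :=
  Matrix.of fun i j =>
    (∫ V in C, V i * V j * Real.exp (-(η ⬝ᵥ V))) / cphi C η - cZ C η i * cZ C η j

end Cone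

section Bergman
variable {n : ℕ}

/-- Affine coordinates adapted to `D` at `z`: `D - z` lies in a product of half planes and contains
a polydisc of comparable size. -/
structure IsFrame (D : Set (Fin n → ℂ)) (z : Fin n → ℂ) (L : (Fin n → ℂ) ≃L[ℂ] (Fin n → ℂ)) :
    Prop where
  half : ∀ w ∈ D, ∀ j, (L (w - z) j).re < 1
  disc : ∀ v, (n : ℝ) * ‖L v‖ < 1 → z + v ∈ D
  le_nr : ∀ v, ‖L v‖ ≤ nr D z v
  nr_le : ∀ v, nr D z v ≤ 2 * n * ‖L v‖

/-- The logarithm of the Bergman kernel. -/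
def lk (D : Set (Fin n → ℂ)) (z : Fin n → ℂ) : ℝ := Real.log (bergK D z)

/-- Four times the real part of the Bergman metric. -/
def levi (D : Set (Fin n → ℂ)) (z a b : Fin n → ℂ) : ℝ :=
  fderiv ℝ (fderiv ℝ (lk D)) z a b + fderiv ℝ (fderiv ℝ (lk D)) z (I • a) (I • b)

/-- The invariant measure `K dV` on `D`. -/
def muK (D : Set (Fin n → ℂ)) : Measure (Fin n → ℂ) :=
  (volume.restrict D).withDensity fun z => ENNReal.ofReal (bergK D z)

/-- The Bergman space as a subspace of `L²(D)`. -/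
def A2 (D : Set (Fin n → ℂ)) : Submodule ℂ (Lp ℂ 2 (volume.restrict D)) where
  carrier := {F | ∃ f : (Fin n → ℂ) → ℂ, DifferentiableOn ℂ f D ∧ F =ᵐ[volume.restrict D] f}
  zero_mem' := ⟨0, differentiableOn_const 0, Lp.coeFn_zero _ _ _⟩
  add_mem' := by
    rintro F F' ⟨f, h1, h2⟩ ⟨f', h1', h2'⟩
    exact ⟨f + f', h1.add h1', (Lp.coeFn_add F F').trans (h2.add h2')⟩
  smul_mem' := by
    rintro c F ⟨f, h1, h2⟩
    exact ⟨c • f, h1.const_smul c, (Lp.coeFn_smul c F).trans (h2.const_smul c)⟩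

/-- `ev z` is evaluation at `z` on the Bergman space, holomorphic in `z`. -/
structure IsEval (D : Set (Fin n → ℂ)) (ev : (Fin n → ℂ) → (A2 D →L[ℂ] ℂ)) : Prop where
  complete : CompleteSpace (A2 D)
  hol : DifferentiableOn ℂ ev D
  eval : ∀ (F : A2 D) (f : (Fin n → ℂ) → ℂ), DifferentiableOn ℂ f D →
    ((F : Lp ℂ 2 (volume.restrict D)) =ᵐ[volume.restrict D] f) → ∀ z ∈ D, ev z F = f z
  norm_sq : ∀ z ∈ D, bergK D z = ‖ev z‖ ^ 2

/-- The properties of the Bergman kernel `k z y = K(z, y)` used for the Berezin transform. -/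
structure IsKernel (D : Set (Fin n → ℂ)) (k : (Fin n → ℂ) → (Fin n → ℂ) → ℂ) : Prop where
  cont : ContinuousOn (fun x : (Fin n → ℂ) × (Fin n → ℂ) => k x.1 x.2) (D ×ˢ D)
  hol : ∀ y ∈ D, DifferentiableOn ℂ (fun z => k z y) D
  diag : ∀ y ∈ D, k y y = (bergK D y : ℂ)
  symm : ∀ y ∈ D, ∀ z ∈ D, ‖k z y‖ = ‖k y z‖
  integrable : ∀ y ∈ D, IntegrableOn (fun z => ‖k z y‖ ^ 2) D
  repro : ∀ y ∈ D, ∀ h : (Fin n → ℂ) → ℂ, DifferentiableOn ℂ h D → (∃ M, ∀ z ∈ D, ‖h z‖ ≤ M) →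
    ∫ z in D, h z * ((‖k z y‖ ^ 2 : ℝ) : ℂ) = h y * (bergK D y : ℂ)
  trans : ∀ γ ∈ autGroup D, ∀ y ∈ D, ∀ z ∈ D,
    ‖k (γ z) (γ y)‖ * ‖(fderiv ℂ γ z).det‖ * ‖(fderiv ℂ γ y).det‖ = ‖k z y‖

/-- The logarithmic derivative of the Jacobian (for `K dV`) of the flow of `Y`. -/
def divK (D : Set (Fin n → ℂ)) (Y : (Fin n → ℂ) → (Fin n → ℂ)) (z : Fin n → ℂ) : ℝ :=
  fderiv ℝ (lk D) z (Y z) +
    2 * (LinearMap.trace ℂ (Fin n → ℂ) (fderiv ℂ Y z : (Fin n → ℂ) →ₗ[ℂ] (Fin n → ℂ))).re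

/-- The Jacobian of `φ` for the measure `K dV`. -/
def jacK (D : Set (Fin n → ℂ)) (φ : (Fin n → ℂ) → (Fin n → ℂ)) (z : Fin n → ℂ) : ℝ :=
  bergK D (φ z) * ‖(fderiv ℂ φ z).det‖ ^ 2 / bergK D z

variable {N : ℕ}

/-- The moment map of the family `W`. -/
def mom (D : Set (Fin n → ℂ)) (W : Fin N → (Fin n → ℂ) → (Fin n → ℂ)) (z : Fin n → ℂ) :
    Fin N → ℝ := fun j => -divK D (I • W j) z

/-- The Gram matrix of the family `W` for the Bergman metric. -/
def gram (D : Set (Fin n → ℂ)) (W : Fin N → (Fin n → ℂ) → (Fin n → ℂ)) (z : Fin n → ℂ) :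
    Matrix (Fin N) (Fin N) ℝ := Matrix.of fun i j => levi D z (W i z) (W j z)

/-- The points where the values of the family `W` are independent over the reals. -/
def freeSet (D : Set (Fin n → ℂ)) (W : Fin N → (Fin n → ℂ) → (Fin n → ℂ)) : Set (Fin n → ℂ) :=
  {z | z ∈ D ∧ ∀ V : Fin N → ℝ, fld W (rc V) z = 0 → V = 0}

/-- The time-one map of `i V`. -/
def phi (D : Set (Fin n → ℂ)) (W : Fin N → (Fin n → ℂ) → (Fin n → ℂ)) (V : Fin N → ℝ) :
    (Fin n → ℂ) → (Fin n → ℂ) := ex D (fld W (I • rc V))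

/-- The equivariant self-map `z ↦ exp (i s Z(m z)) z`. -/
def Tm (D : Set (Fin n → ℂ)) (W : Fin N → (Fin n → ℂ) → (Fin n → ℂ)) (s : ℝ) (z : Fin n → ℂ) :
    Fin n → ℂ := phi D W (s • cZ (acone D W) (mom D W z)) z

end Bergman

section Algebra

/-- An operator generating a bounded one-parameter group. -/
def Ell {M : Type*} [NormedAddCommGroup M] [NormedSpace ℂ M] (T : M →L[ℂ] M) : Prop :=
  ∃ C : ℝ, ∀ t : ℝ, ‖NormedSpace.exp ((t : ℂ) • T)‖ ≤ C

/-- The complexification `Fin N → ℂ` of a real Lie algebra (the vectors fixed by `star`) with a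
closed pointed generating invariant convex cone. -/
structure LCtx (N : ℕ) where
  /-- the bracket -/
  br : (Fin N → ℂ) →L[ℂ] (Fin N → ℂ) →L[ℂ] (Fin N → ℂ)
  anti : ∀ U V, br U V = -br V U
  jacobi : ∀ U V W, br U (br V W) = br (br U V) W + br V (br U W)
  star_br : ∀ U V, star (br U V) = br (star U) (star V)
  /-- the cone -/
  C : Set (Fin N → ℂ)
  real : ∀ X ∈ C, star X = X
  closed : IsClosed C
  zero_mem : (0 : Fin N → ℂ) ∈ C
  add_mem : ∀ X ∈ C, ∀ X' ∈ C, X + X' ∈ C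
  smul_mem : ∀ t : ℝ, 0 ≤ t → ∀ X ∈ C, (t : ℂ) • X ∈ C
  pointed : ∀ X ∈ C, -X ∈ C → X = 0
  gen : ∃ X ∈ C, ∃ ε : ℝ, 0 < ε ∧ ∀ Y, star Y = Y → ‖Y‖ ≤ ε → X + Y ∈ C
  inv : ∀ Y, star Y = Y → ∀ X ∈ C, NormedSpace.exp (br Y) X ∈ C

namespace LCtx
variable {N : ℕ} (L : LCtx N)

/-- Interior points of the cone (in the real form). -/
def IntC (X : Fin N → ℂ) : Prop :=
  X ∈ L.C ∧ ∃ ε : ℝ, 0 < ε ∧ ∀ Y, star Y = Y → ‖Y‖ ≤ ε → X + Y ∈ L.C

/-- The Killing form. -/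
def kil (U V : Fin N → ℂ) : ℂ :=
  LinearMap.trace ℂ (Fin N → ℂ) ((L.br U).comp (L.br V) : (Fin N → ℂ) →ₗ[ℂ] (Fin N → ℂ))

/-- Automorphisms of the real Lie algebra preserving the cone. -/
structure IsAut (θ : (Fin N → ℂ) →L[ℂ] (Fin N → ℂ)) : Prop where
  bij : Function.Bijective θ
  star_map : ∀ U, star (θ U) = θ (star U)
  br_map : ∀ U V, θ (L.br U V) = L.br (θ U) (θ V)
  mem_iff : ∀ X, θ X ∈ L.C ↔ X ∈ L.C

/-- The inner automorphisms generated by the real elements of `q`. -/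
def inn (q : Submodule ℂ (Fin N → ℂ)) : Submonoid ((Fin N → ℂ) →L[ℂ] (Fin N → ℂ)) :=
  Submonoid.closure {g | ∃ Y ∈ q, star Y = Y ∧ g = NormedSpace.exp (L.br Y)}

/-- The cone contains no nonzero central element. -/
def NoCenterCone : Prop := ∀ X ∈ L.C, L.br X = 0 → X = 0

/-- The Killing form is nondegenerate. -/
def Nondeg : Prop := ∀ U, (∀ V, L.kil U V = 0) → U = 0

/-- The sum of the eigenspaces of `ad X` with eigenvalue `-i k`, `k > 0`. -/
def pm (X : Fin N → ℂ) : Submodule ℂ (Fin N → ℂ) :=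
  Submodule.span ℂ {U | ∃ k : ℝ, 0 < k ∧ L.br X U = (-(I * k)) • U}

/-- A root vector in `pm X`. -/
def Root (X U : Fin N → ℂ) : Prop :=
  (∃ k : ℝ, 0 < k ∧ L.br X U = (-(I * k)) • U) ∧ ∃ c : ℂ, L.br (L.br U (star U)) U = c • U

/-- No compact root vectors in `pm X`. -/
def NoSu2 (X : Fin N → ℂ) : Prop :=
  ∀ (U : Fin N → ℂ) (k t : ℝ), 0 < k → L.br X U = (-(I * k)) • U →
    L.br X (NormedSpace.exp (L.br ((t : ℂ) • (U + star U))) X) = 0 →
    NormedSpace.exp (L.br ((t : ℂ) • (U + star U))) U = star U → U = 0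

/-- The Hermitian three-grading attached to `X`. -/
structure Grading {r : ℕ} (X : Fin N → ℂ) (U : Fin r → Fin N → ℂ) (k : Fin r → ℝ)
    (Z : Fin N → ℂ) : Prop where
  k_pos : ∀ j, 0 < k j
  wt : ∀ j, L.br X (U j) = (-(I * k j)) • U j
  comm : ∀ i j, L.br (U i) (U j) = 0
  decomp : ∀ V, ∃ (a b : Fin r → ℂ) (K : Fin N → ℂ), L.br X K = 0 ∧
    V = ∑ j, a j • U j + K + ∑ j, b j • star (U j)
  br_star : ∀ i j, L.br X (L.br (U i) (star (U j))) = 0
  br_K : ∀ K, L.br X K = 0 → ∀ j, ∃ a : Fin r → ℂ, L.br (U j) K = ∑ i, a i • U i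
  pos : ∀ a : Fin r → ℂ, Ell (L.br (∑ j, a j • U j + star (∑ j, a j • U j))) → a = 0
  Z_real : star Z = Z
  Z_K : L.br X Z = 0
  Z_wt : ∀ j, L.br Z (U j) = (-I) • U j

end LCtx

end Algebra

section Geometry
variable {E : Type*} [NormedAddCommGroup E] [NormedSpace ℂ E]

/-- The Lie algebra spanned by the complete fields `Y` with `i Y` semicomplete, in a basis `W`. -/
structure GCtx (D : Set E) (N : ℕ) extends LCtx N where
  /-- the basis fields -/
  W : Fin N → E → E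
  hol : ∀ j, DifferentiableOn ℂ (W j) D
  complete : ∀ Y, star Y = Y → SemiC D (fld W Y)
  inj : ∀ U, (∀ z ∈ D, fld W U z = 0) → U = 0
  br_eq : ∀ U V, ∀ z ∈ D, VectorField.lieBracket ℂ (fld W U) (fld W V) z = fld W (br U V) z
  mem_iff : ∀ X, X ∈ C ↔ star X = X ∧ SemiC D (fld W (I • X))
  max : ∀ Y : E → E, SemiC D Y → SemiC D (-Y) → SemiC D (I • Y) →
    ∃ X ∈ C, ∀ z ∈ D, Y z = fld W X z

/-- `θ` is the adjoint action of `h`. -/
def GCtx.IsAd {D : Set E} {N : ℕ} (G : GCtx D N) (h : Equiv.Perm E)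
    (θ : (Fin N → ℂ) →L[ℂ] (Fin N → ℂ)) : Prop :=
  ∀ U, ∀ z ∈ D, fderiv ℂ h z (fld G.W U z) = fld G.W (θ U) (h z)

/-- `ρ` is the retraction onto the zero set of `X` given by the limit of the flow of `i X`. -/
structure IsRho (D : Set E) (X : E → E) (ρ : E → E) : Prop where
  hol : DifferentiableOn ℂ ρ D
  maps : MapsTo ρ D D
  zero : ∀ z ∈ D, X (ρ z) = 0
  fix : ∀ q ∈ D, X q = 0 → ρ q = q
  lim : TendstoLocallyUniformlyOn (fun t : ℝ => ex D ((I * t) • X)) ρ atTop D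
  mean : ∀ u : E → ℂ, DifferentiableOn ℂ u D → (∃ M, ∀ z ∈ D, ‖u z‖ ≤ M) → ∀ z ∈ D,
    ∫ θ in (0 : ℝ)..(2 * Real.pi), u (ex D ((θ : ℂ) • X) z) = 2 * Real.pi * u (ρ z)

/-- The geometric data available after the structure theory. -/
structure HCtx (D : Set E) (N r : ℕ) extends GCtx D N where
  /-- the circle generator -/
  X : Fin N → ℂ
  /-- the base point -/
  p : E
  /-- a basis of the lowering part -/
  U : Fin r → Fin N → ℂ
  /-- the weights -/
  k : Fin r → ℝ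
  /-- the grading element -/
  Z : Fin N → ℂ
  /-- the retraction -/
  ρ : E → E
  X_int : toLCtx.IntC X
  p_mem : p ∈ D
  X_p : fld W X p = 0
  per : ∀ z ∈ D, ex D (((2 * Real.pi : ℝ) : ℂ) • fld W X) z = z
  grading : toLCtx.Grading X U k Z
  rho : IsRho D (fld W X) ρ
  vanK : ∀ q ∈ D, fld W X q = 0 → ∀ K, br X K = 0 → fld W K q = 0
  vanP : ∀ q ∈ D, fld W X q = 0 → ∀ j, fld W (star (U j)) q = 0
  indep : ∀ z ∈ D, ∀ a : Fin r → ℂ, fld W (∑ j, a j • U j) z = 0 → a = 0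
  span : ∀ z ∈ D, ∀ V, ∃ a : Fin r → ℂ, fld W V z = fld W (∑ j, a j • U j) z

/-- A bounded convex model `Ω` of the fixed set of the circle action. -/
structure HCtx.Model {D : Set E} {N r : ℕ} (H : HCtx D N r) {m : ℕ} (Ω : Set (Fin m → ℂ))
    (ϖ : E → Fin m → ℂ) (σ : (Fin m → ℂ) → E) : Prop where
  bcd : BCD Ω
  hol : DifferentiableOn ℂ ϖ D
  maps : MapsTo ϖ D Ω
  hol' : DifferentiableOn ℂ σ Ω
  maps' : MapsTo σ Ω D
  right_inv : ∀ y ∈ Ω, ϖ (σ y) = y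
  left_inv : ∀ z ∈ D, σ (ϖ z) = H.ρ z
  surj : ∀ z ∈ D, Function.Surjective (fderiv ℂ ϖ z)
  ker : ∀ z ∈ D, ∀ v, fderiv ℂ ϖ z v = 0 ↔ ∃ a : Fin r → ℂ, v = fld H.W (∑ j, a j • H.U j) z

end Geometry

end Pool.Agent.P.MP_2ff09b_gt
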