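import Pool.Agent.P.MP_2ff09b_gt.Triv

/-! CVX-D1. Mass transport and a Liouville theorem for reversible kernels.
Sketch. mass_transport: unfold the inner integral with IsFundamentalDomain.lintegral_eq_tsum'
(sum over g of the integral over F of Φ (y, g⁻¹ • z)), rewrite with the invariance, exchange sums
and integrals (lintegral_tsum, lintegral_lintegral_swap) and fold the other integral.
ae_const: with Φ (y, z) = p (y, z) v z the integral over F of P v equals the integral of v (finite),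
so P v = v almost everywhere on F. Then the integral over F × α of p (y, z) (v y - v z)² is
∫ v² + ∫ P (v²) - 2 ∫ v P v = 0 (all finite; to stay in ENNReal use
ofReal ((a-b)²) + 2 ofReal (a b) = ofReal (a²) + ofReal (b²)). As μ F is nonzero there is y with
v z = v y for almost every z. -/

open Set MeasureTheory Complex Filter Topology Metric

noncomputable section

namespace Pool.Agent.P.MP_2ff09b_gt

variable {G α : Type*} [Group G] [MulAction G α] [MeasurableSpace α] [Countable G]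
  [MeasurableConstSMul G α] {μ : Measure α} [SFinite μ] [SMulInvariantMeasure G α μ] {F : Set α}

theorem mass_transport (hF : IsFundamentalDomain G F μ) {Φ : α × α → ENNReal}
    (hΦ : Measurable Φ) (inv : ∀ (g : G) (y z : α), Φ (g • y, g • z) = Φ (y, z)) :
    ∫⁻ y in F, ∫⁻ z, Φ (y, z) ∂μ ∂μ = ∫⁻ z in F, ∫⁻ y, Φ (y, z) ∂μ ∂μ := by
  have m : ∀ g : G, Measurable fun q : α × α => Φ (g • q.1, q.2) := fun g =>
    hΦ.comp (((measurable_const_smul g).comp measurable_fst).prodMk measurable_snd)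
  have e1 : ∀ y, ∫⁻ z, Φ (y, z) ∂μ = ∑' g : G, ∫⁻ z in F, Φ (g • y, z) ∂μ := fun y => by
    rw [hF.lintegral_eq_tsum' fun z => Φ (y, z)]
    refine tsum_congr fun g => lintegral_congr fun z => ?_
    rw [← inv g, smul_inv_smul]
  have e2 : ∀ z, ∫⁻ y, Φ (y, z) ∂μ = ∑' g : G, ∫⁻ y in F, Φ (g • y, z) ∂μ := fun z =>
    hF.lintegral_eq_tsum'' fun y => Φ (y, z)
  simp only [e1, e2]
  rw [lintegral_tsum fun g => (m g).lintegral_prod_right'.aemeasurable,
    lintegral_tsum fun g => (m g).lintegral_prod_left'.aemeasurable]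
  exact tsum_congr fun g => lintegral_lintegral_swap (m g).aemeasurable

theorem ae_const_of_superharmonic (hF : IsFundamentalDomain G F μ) (hfin : μ F < ⊤)
    {p : α × α → ENNReal} (hp : Measurable p) (symm : ∀ y z, p (y, z) = p (z, y))
    (inv : ∀ (g : G) (y z : α), p (g • y, g • z) = p (y, z))
    (one : ∀ᵐ y ∂μ, ∫⁻ z, p (y, z) ∂μ = 1) (pos : ∀ᵐ y ∂μ, ∀ᵐ z ∂μ, p (y, z) ≠ 0)
    {v : α → ℝ} (hv : Measurable v) (h0 : ∀ z, 0 ≤ v z) (h1 : ∀ z, v z ≤ 1)
    (hinv : ∀ (g : G) (z : α), v (g • z) = v z)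
    (super : ∀ᵐ y ∂μ, ∫⁻ z, p (y, z) * ENNReal.ofReal (v z) ∂μ ≤ ENNReal.ofReal (v y)) :
    ∃ c : ℝ, ∀ᵐ z ∂μ, v z = c := by
  by_cases hμ : μ = 0
  · exact ⟨0, by simp [hμ]⟩
  have mp : ∀ y, Measurable fun z => p (y, z) := fun y => hp.comp measurable_prodMk_left
  have key : ∀ u : α → ENNReal, Measurable u → (∀ (g : G) z, u (g • z) = u z) →
      ∫⁻ y in F, ∫⁻ z, p (y, z) * u z ∂μ ∂μ = ∫⁻ z in F, u z ∂μ := fun u hu hi => by
    rw [mass_transport hF (Φ := fun q => p q * u q.2) (hp.mul (hu.comp measurable_snd))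
      fun g y z => by simp only [inv, hi]]
    refine lintegral_congr_ae ((ae_restrict_of_ae one).mono fun z hz => ?_)
    simp only [symm _ z]
    rw [lintegral_mul_const _ (mp z), hz, one_mul]
  set w : α → ENNReal := fun z => ENNReal.ofReal (v z) with hw
  have mw : Measurable w := hv.ennreal_ofReal
  have w1 : ∀ z, w z ≤ 1 := fun z => ENNReal.ofReal_le_one.2 (h1 z)
  have fin : ∀ u : α → ENNReal, (∀ z, u z ≤ 1) → ∫⁻ z in F, u z ∂μ ≠ ⊤ := fun u hu =>
    ((lintegral_mono hu).trans_lt (by simpa using hfin)).ne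
  have k1 := key w mw fun g z => by simp only [hw, hinv]
  have k2 := key (fun z => w z * w z) (mw.mul mw) fun g z => by simp only [hw, hinv]
  have eq1 : (fun y => ∫⁻ z, p (y, z) * w z ∂μ) =ᵐ[μ.restrict F] w :=
    ae_eq_of_ae_le_of_lintegral_le (ae_restrict_of_ae super) (k1 ▸ fin w w1) mw.aemeasurable k1.ge
  have md : Measurable fun q : α × α => p q * ENNReal.ofReal ((v q.1 - v q.2) ^ 2) :=
    hp.mul (((hv.comp measurable_fst).sub (hv.comp measurable_snd)).pow_const 2).ennreal_ofReal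
  have alg : ∀ y z, ENNReal.ofReal ((v y - v z) ^ 2) + 2 * w y * w z = w y * w y + w z * w z := by
    intro y z
    have a := h0 y
    have b := h0 z
    simp only [hw]
    rw [← ENNReal.ofReal_ofNat 2, ← ENNReal.ofReal_mul (by norm_num),
      ← ENNReal.ofReal_mul (by positivity), ← ENNReal.ofReal_mul a, ← ENNReal.ofReal_mul b,
      ← ENNReal.ofReal_add (by positivity) (by positivity),
      ← ENNReal.ofReal_add (by positivity) (by positivity)]
    congr 1
    ring
  have pt : ∀ᵐ y ∂μ.restrict F, ∫⁻ z, p (y, z) * ENNReal.ofReal ((v y - v z) ^ 2) ∂μ +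
      (w y * w y + w y * w y) = w y * w y + ∫⁻ z, p (y, z) * (w z * w z) ∂μ := by
    filter_upwards [eq1, ae_restrict_of_ae one] with y hy hy1
    have e1 : w y * w y + w y * w y = ∫⁻ z, 2 * w y * (p (y, z) * w z) ∂μ := by
      rw [lintegral_const_mul _ ((mp y).fun_mul mw), hy]
      ring
    have e2 : w y * w y = ∫⁻ z, p (y, z) * (w y * w y) ∂μ := by
      rw [lintegral_mul_const _ (mp y), hy1, one_mul]
    rw [e1, e2, ← lintegral_add_right _ (((mp y).fun_mul mw).const_mul _),
      ← lintegral_add_left ((mp y).mul_const _)]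
    refine lintegral_congr fun z => ?_
    rw [← mul_add, ← alg]
    ring
  have tot := lintegral_congr_ae pt
  rw [lintegral_add_right _ ((mw.fun_mul mw).fun_add (mw.fun_mul mw)),
    lintegral_add_left (mw.fun_mul mw), lintegral_add_left (mw.fun_mul mw), k2] at tot
  have f2 := fin (fun z => w z * w z) fun z => mul_le_one' (w1 z) (w1 z)
  have z0 : ∫⁻ y in F, ∫⁻ z, p (y, z) * ENNReal.ofReal ((v y - v z) ^ 2) ∂μ ∂μ = 0 :=
    (ENNReal.add_left_inj (ENNReal.add_ne_top.2 ⟨f2, f2⟩)).1 (tot.trans (zero_add _).symm)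
  rw [lintegral_eq_zero_iff md.lintegral_prod_right'] at z0
  have : (ae (μ.restrict F)).NeBot :=
    ae_neBot.2 fun h => hF.measure_ne_zero hμ (Measure.restrict_eq_zero.1 h)
  obtain ⟨y, hy, hy'⟩ := (z0.and (ae_restrict_of_ae pos)).exists
  refine ⟨v y, ?_⟩
  have z1 := (lintegral_eq_zero_iff (md.comp measurable_prodMk_left)).1 hy
  filter_upwards [z1, hy'] with z hz hz'
  have h2 : ENNReal.ofReal ((v y - v z) ^ 2) = 0 := (mul_eq_zero.1 hz).resolve_left hz'
  have h3 := le_antisymm (ENNReal.ofReal_eq_zero.1 h2) (sq_nonneg _)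
  exact (sub_eq_zero.1 (pow_eq_zero_iff two_ne_zero |>.1 h3)).symm

end Pool.Agent.P.MP_2ff09b_gt
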