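import Pool.Agent.P.MP_2ff09b_gt.D1
import Pool.Agent.P.MP_2ff09b_gt.B4

/-! CVX-D2. Finite covolume implies the Liouville property.
Sketch. Instances: MeasurableConstSMul from aut_measurable, SMulInvariantMeasure from
measurePreserving_muK, SFinite for withDensity. Let k be the kernel (exists_isKernel) and
p (y, z) = ofReal (‖k z y‖² / (K y K z)) on D × D, 0 elsewhere (measurable: ContinuousOn piecewise;
invariant by trans and bergK_aut; one: repro with h = 1; pos: null_zero_set). Let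
s z = sSup of re (h z) over h in H (H nonempty, M > 0 after increasing it); s is continuous on D
(the family is locally equi-Lipschitz, norm_sub_le_of_bound), Γ-invariant (use γ and its inverse),
and for h in H, re (h y) is the average of re h, at most the average of s. Apply
ae_const_of_superharmonic to v = (M - s)/(2 M) on D, 0 outside; a continuous function that is
almost everywhere constant on the open set D is constant (volume_ac_muK). -/

open Set MeasureTheory Complex Filter Topology Metric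

noncomputable section

namespace Pool.Agent.P.MP_2ff09b_gt

variable {n : ℕ} {D : Set (Fin n → ℂ)}

/-- The Berezin kernel. -/
def D2_ker (D : Set (Fin n → ℂ)) (k : (Fin n → ℂ) → (Fin n → ℂ) → ℂ)
    (x : (Fin n → ℂ) × (Fin n → ℂ)) : ENNReal :=
  ENNReal.ofReal ((D ×ˢ D).indicator
    (fun x => ‖k x.2 x.1‖ ^ 2 / (bergK D x.1 * bergK D x.2)) x)

variable {k : (Fin n → ℂ) → (Fin n → ℂ) → ℂ}

theorem D2_pos {y z : Fin n → ℂ} (hy : y ∈ D) (hz : z ∈ D) :
    D2_ker D k (y, z) = ENNReal.ofReal (‖k z y‖ ^ 2 / (bergK D y * bergK D z)) := by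
  rw [D2_ker, indicator_of_mem (mk_mem_prod hy hz)]

theorem D2_neg {y z : Fin n → ℂ} (h : ¬ (y ∈ D ∧ z ∈ D)) : D2_ker D k (y, z) = 0 := by
  rw [D2_ker, indicator_of_notMem (show (y, z) ∉ D ×ˢ D from h), ENNReal.ofReal_zero]

theorem D2_meas (hD : BCD D) (hk : IsKernel D k) : Measurable (D2_ker D k) := by
  classical
  have hK := (contDiffOn_bergK hD.isOpen 0).continuousOn
  have h : ContinuousOn (fun x : (Fin n → ℂ) × (Fin n → ℂ) =>
      ‖k x.2 x.1‖ ^ 2 / (bergK D x.1 * bergK D x.2)) (D ×ˢ D) :=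
    ((hk.cont.comp continuous_swap.continuousOn fun x hx => ⟨hx.2, hx.1⟩).norm.pow 2).div
      ((hK.comp continuousOn_fst fun x hx => hx.1).mul (hK.comp continuousOn_snd fun x hx => hx.2))
      fun x hx => (mul_pos (bergK_pos hD hx.1) (bergK_pos hD hx.2)).ne'
  have h2 := h.measurable_piecewise (continuousOn_const (c := 0))
    (hD.isOpen.prod hD.isOpen).measurableSet
  refine ENNReal.measurable_ofReal.comp ?_
  rw [← piecewise_eq_indicator]
  exact h2

theorem D2_symm (hk : IsKernel D k) (y z : Fin n → ℂ) : D2_ker D k (y, z) = D2_ker D k (z, y) := by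
  by_cases h : y ∈ D ∧ z ∈ D
  · rw [D2_pos h.1 h.2, D2_pos h.2 h.1, hk.symm y h.1 z h.2, mul_comm]
  · rw [D2_neg h, D2_neg fun h' => h h'.symm]

theorem D2_inv (hD : BCD D) (hk : IsKernel D k) {γ : Equiv.Perm (Fin n → ℂ)} (hγ : γ ∈ autGroup D)
    (y z : Fin n → ℂ) : D2_ker D k (γ y, γ z) = D2_ker D k (y, z) := by
  by_cases h : y ∈ D ∧ z ∈ D
  · have a1 := bergK_aut hD.isOpen hγ h.1
    have a2 := bergK_aut hD.isOpen hγ h.2
    have b1 : ‖(fderiv ℂ γ y).det‖ ≠ 0 := fun e => (bergK_pos hD h.1).ne' (by rw [← a1, e]; ring)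
    have b2 : ‖(fderiv ℂ γ z).det‖ ≠ 0 := fun e => (bergK_pos hD h.2).ne' (by rw [← a2, e]; ring)
    rw [D2_pos h.1 h.2, D2_pos (aut_maps hγ h.1) (aut_maps hγ h.2), ← hk.trans γ hγ y h.1 z h.2,
      ← a1, ← a2]
    congr 1
    field_simp
  · rw [D2_neg h, D2_neg fun h' => h ⟨(aut_mem_iff hγ).1 h'.1, (aut_mem_iff hγ).1 h'.2⟩]

theorem D2_avg (hD : BCD D) (hk : IsKernel D k) {y : Fin n → ℂ} (hy : y ∈ D)
    {g : (Fin n → ℂ) → ℂ} (hg : DifferentiableOn ℂ g D) (bd : ∀ z ∈ D, ‖g z‖ ≤ 1)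
    (pos : ∀ z ∈ D, 0 ≤ (g z).re) :
    ∫⁻ z, D2_ker D k (y, z) * ENNReal.ofReal (g z).re ∂muK D = ENNReal.ofReal (g y).re := by
  have hm := hD.isOpen.measurableSet
  have Ky := bergK_pos hD hy
  have i1 : Integrable (fun z => g z * ((‖k z y‖ ^ 2 : ℝ) : ℂ)) (volume.restrict D) :=
    (hk.integrable y hy).ofReal.bdd_mul (hg.continuousOn.aestronglyMeasurable hm)
      ((ae_restrict_mem hm).mono bd)
  have e1 := (integral_re i1).trans (congrArg RCLike.re (hk.repro y hy g hg ⟨1, bd⟩))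
  have i2 := i1.re
  simp only [RCLike.re_to_complex, re_mul_ofReal] at e1 i2
  rw [lintegral_muK hD.isOpen, setLIntegral_congr_fun hm
    (g := fun z => ENNReal.ofReal ((g z).re * ‖k z y‖ ^ 2 / bergK D y)) fun z hz => ?_,
    ← ofReal_integral_eq_lintegral_ofReal (i2.div_const _) ((ae_restrict_mem hm).mono fun z hz =>
      div_nonneg (mul_nonneg (pos z hz) (sq_nonneg _)) Ky.le), integral_div, e1,
    mul_div_cancel_right₀ _ Ky.ne']
  have Kz := bergK_pos hD hz
  beta_reduce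
  rw [D2_pos hy hz, ← ENNReal.ofReal_mul (by positivity), ← ENNReal.ofReal_mul Kz.le]
  congr 1
  field_simp

theorem D2_main (hD : BCD D) {Γ : Subgroup (Equiv.Perm (Fin n → ℂ))} (hΓ : Γ ≤ autGroup D)
    [Countable Γ] {F : Set (Fin n → ℂ)} (hF : IsFundamentalDomain Γ F (muK D))
    (hfin : muK D F < ⊤) {ι : Type} [Nonempty ι] {g : ι → (Fin n → ℂ) → ℂ}
    (hg : ∀ i, DifferentiableOn ℂ (g i) D) (bd : ∀ i, ∀ z ∈ D, ‖g i z‖ ≤ 1)
    (pos : ∀ i, ∀ z ∈ D, 0 ≤ (g i z).re) (st : ∀ i, ∀ γ ∈ Γ, ∃ j, ∀ z ∈ D, g j z = g i (γ z)) :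
    ∃ c : ℝ, ∀ z ∈ D, ⨅ i, (g i z).re = c := by
  classical
  have hm := hD.isOpen.measurableSet
  obtain ⟨k, hk⟩ := exists_isKernel hD
  have : MeasurableConstSMul Γ (Fin n → ℂ) := ⟨fun γ => aut_measurable hD.isOpen (hΓ γ.2)⟩
  have : SMulInvariantMeasure Γ (Fin n → ℂ) (muK D) :=
    ⟨fun γ s hs => (measurePreserving_muK hD.isOpen (hΓ γ.2)).measure_preimage hs.nullMeasurableSet⟩
  have : SFinite (muK D) := by
    unfold muK
    infer_instance
  obtain ⟨w, hw⟩ : ∃ w : (Fin n → ℂ) → ℝ, ∀ z, ⨅ i, (g i z).re = w z := ⟨_, fun _ => rfl⟩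
  have w1 : ∀ z ∈ D, ∀ i, w z ≤ (g i z).re := fun z hz i =>
    hw z ▸ ciInf_le ⟨0, forall_mem_range.2 fun i => pos i z hz⟩ i
  have w2 : ∀ z c, (∀ i, c ≤ (g i z).re) → c ≤ w z := fun z c h => hw z ▸ le_ciInf h
  have wc : ContinuousOn w D := fun z hz => by
    obtain ⟨r, hr, hb⟩ := Metric.isOpen_iff.1 hD.isOpen z hz
    refine (continuousAt_of_locally_lipschitz hr (2 * 1 / r) fun x hx => ?_).continuousWithinAt
    have e : ∀ i, |(g i x).re - (g i z).re| ≤ 2 * 1 / r * dist x z := fun i => by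
      rw [← sub_re, dist_eq_norm]
      exact (abs_re_le_norm _).trans
        (norm_sub_le_of_bound ((hg i).mono hb) (fun w hw => bd i w (hb hw)) hx)
    have a1 := w2 z (w x - 2 * 1 / r * dist x z) fun i => by
      linarith [w1 x (hb hx) i, (abs_le.1 (e i)).2]
    have a2 := w2 x (w z - 2 * 1 / r * dist x z) fun i => by
      linarith [w1 z hz i, (abs_le.1 (e i)).1]
    rw [Real.dist_eq, abs_le]
    constructor <;> linarith
  have wi : ∀ γ ∈ Γ, ∀ z ∈ D, w z ≤ w (γ z) := fun γ hγ z hz => w2 _ _ fun i => by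
    obtain ⟨j, hj⟩ := st i γ hγ
    exact hj z hz ▸ w1 z hz j
  have aeD : ∀ᵐ y ∂muK D, y ∈ D := muK_ac_volume.ae_le (ae_restrict_mem hm)
  refine (ae_const_of_superharmonic hF hfin (D2_meas hD hk) (D2_symm hk)
    (fun γ => D2_inv hD hk (hΓ γ.2))
    (aeD.mono fun y hy => by
      simpa using D2_avg hD hk hy (differentiableOn_const 1) (by simp) (by simp))
    (aeD.mono fun y hy => ?_) (v := D.piecewise w fun _ => 0)
    (wc.measurable_piecewise continuousOn_const hm) (fun z => ?_) (fun z => ?_) (fun γ z => ?_)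
    (aeD.mono fun y hy => ?_)).imp fun c hc z hz => ?_
  rotate_right
  · refine (hw z).trans (Measure.eqOn_open_of_ae_eq (μ := volume) ?_ hD.isOpen wc
      continuousOn_const hz)
    filter_upwards [(volume_ac_muK hD).ae_le hc, ae_restrict_mem hm] with z h1 h2
    exact (piecewise_eq_of_mem D w (fun _ => 0) h2).symm.trans h1
  · have h0 := null_zero_set hD.isOpen hD.convex (hk.hol y hy) ⟨y, hy, by
      rw [hk.diag y hy]
      exact ofReal_ne_zero.2 (bergK_pos hD hy).ne'⟩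
    filter_upwards [aeD, muK_ac_volume.ae_le
      (ae_restrict_of_ae (measure_eq_zero_iff_ae_notMem.1 h0))] with z hz h
    rw [D2_pos hy hz]
    exact (ENNReal.ofReal_pos.2 (div_pos (pow_pos (norm_pos_iff.2 fun e => h ⟨hz, e⟩) 2)
      (mul_pos (bergK_pos hD hy) (bergK_pos hD hz)))).ne'
  · by_cases hz : z ∈ D
    · rw [piecewise_eq_of_mem _ _ _ hz]
      exact w2 z 0 fun i => pos i z hz
    · rw [piecewise_eq_of_notMem _ _ _ hz]
  · by_cases hz : z ∈ D
    · rw [piecewise_eq_of_mem _ _ _ hz]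
      exact (w1 z hz (Classical.arbitrary ι)).trans ((re_le_norm _).trans (bd _ z hz))
    · rw [piecewise_eq_of_notMem _ _ _ hz]
      exact zero_le_one
  · change D.piecewise w _ (γ.1 z) = _
    by_cases hz : z ∈ D
    · rw [piecewise_eq_of_mem _ _ _ hz, piecewise_eq_of_mem _ _ _ (aut_maps (hΓ γ.2) hz)]
      refine le_antisymm ?_ (wi _ γ.2 z hz)
      simpa using wi _ (Γ.inv_mem γ.2) _ (aut_maps (hΓ γ.2) hz)
    · rw [aut_fix (hΓ γ.2) hz]
  · have e : ∀ i, ∫⁻ z, D2_ker D k (y, z) * ENNReal.ofReal (D.piecewise w (fun _ => 0) z) ∂muK D ≤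
        ENNReal.ofReal (g i y).re := fun i => by
      rw [← D2_avg hD hk hy (hg i) (bd i) (pos i)]
      refine lintegral_mono_ae (aeD.mono fun z hz => ?_)
      rw [piecewise_eq_of_mem _ _ _ hz]
      exact mul_le_mul_right (ENNReal.ofReal_le_ofReal (w1 z hz i)) _
    have ne := ne_top_of_le_ne_top ENNReal.ofReal_ne_top (e (Classical.arbitrary ι))
    rw [piecewise_eq_of_mem _ _ _ hy,
      ENNReal.le_ofReal_iff_toReal_le ne (w2 y 0 fun i => pos i y hy)]
    exact w2 _ _ fun i => (ENNReal.le_ofReal_iff_toReal_le ne (pos i y hy)).1 (e i)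

theorem liouv_of_fund (hD : BCD D) {Γ : Subgroup (Equiv.Perm (Fin n → ℂ))} (hΓ : Γ ≤ autGroup D)
    [Countable Γ] {F : Set (Fin n → ℂ)} (hF : IsFundamentalDomain Γ F (muK D))
    (hfin : muK D F < ⊤) : Liouv D Γ := by
  intro H M hH st y hy z hz h hh ε hε
  obtain ⟨C, hC, hM⟩ : ∃ C : ℝ, 0 < C ∧ M ≤ C :=
    ⟨|M| + 1, by positivity, by linarith [le_abs_self M]⟩
  have : Nonempty H := ⟨⟨h, hh⟩⟩
  have e : ∀ a : ℂ, ((C - a) / ((2 * C : ℝ) : ℂ)).re = (C - a.re) / (2 * C) := fun a => by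
    rw [div_ofReal_re, sub_re, ofReal_re]
  have pos : ∀ i : H, ∀ z ∈ D, 0 ≤ ((C - i.1 z) / ((2 * C : ℝ) : ℂ)).re := fun i z hz => by
    rw [e]
    exact div_nonneg (sub_nonneg.2 ((re_le_norm _).trans (((hH _ i.2).2 z hz).trans hM)))
      (by positivity)
  obtain ⟨c, hc⟩ := D2_main hD hΓ hF hfin (g := fun (i : H) z => (C - i.1 z) / ((2 * C : ℝ) : ℂ))
    (fun i => ((hH _ i.2).1.const_sub _).mul_const _)
    (fun i z hz => by
      rw [norm_div, norm_real, Real.norm_of_nonneg (by positivity), div_le_one (by positivity)]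
      refine (norm_sub_le _ _).trans ?_
      rw [norm_real, Real.norm_of_nonneg hC.le]
      linarith [(hH _ i.2).2 z hz]) pos
    fun i γ hγ => by
      obtain ⟨j, hj, h⟩ := st _ i.2 γ hγ
      exact ⟨⟨j, hj⟩, fun z hz => by rw [← h z hz]⟩
  have a1 := (hc y hy).symm.trans_le
    (ciInf_le ⟨0, forall_mem_range.2 fun i => pos i y hy⟩ ⟨h, hh⟩)
  obtain ⟨j, hj⟩ := exists_lt_of_ciInf_lt
    ((hc z hz).trans_lt (lt_add_of_pos_right c (div_pos hε (by positivity : 0 < 2 * C))))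
  refine ⟨j.1, j.2, ?_⟩
  have a2 := hj.trans_le (add_le_add_left a1 _)
  rw [e, e, ← add_div, div_lt_div_iff_of_pos_right (by positivity)] at a2
  linarith

end Pool.Agent.P.MP_2ff09b_gt
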