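import Mathlib

/-! Automorphism groups, Bergman volume and bounded symmetric domains. -/

open Set MeasureTheory Complex Filter Topology

noncomputable section

namespace Pool.Agent.P.MP_2ff09b_gt

section
variable {E : Type*} [NormedAddCommGroup E] [NormedSpace ℂ E]

/-- The group `Aut(D)` of biholomorphic self-maps of `D`, each extended by the identity
outside `D`: permutations of the ambient space that fix every point outside `D` (so they
permute `D`) and are holomorphic on `D` together with their inverses. -/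
def autGroup (D : Set E) : Subgroup (Equiv.Perm E) where
  carrier := {φ | (∀ z, z ∉ D → φ z = z) ∧ DifferentiableOn ℂ φ D ∧ DifferentiableOn ℂ φ.symm D}
  one_mem' := ⟨fun _ _ => rfl, differentiableOn_id, differentiableOn_id⟩
  mul_mem' := by
    rintro φ ψ ⟨h1, h2, h3⟩ ⟨k1, k2, k3⟩
    have hψ : MapsTo ψ D D := fun z hz => by
      by_contra h
      have := ψ.injective (k1 _ h)
      exact h (this.symm ▸ hz)
    have hφ : MapsTo φ.symm D D := fun z hz => by
      by_contra h
      have := h1 _ h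
      rw [Equiv.apply_symm_apply] at this
      exact h (this ▸ hz)
    refine ⟨fun z hz => ?_, h2.comp k2 hψ, k3.comp h3 hφ⟩
    rw [Equiv.Perm.mul_apply, k1 z hz, h1 z hz]
  inv_mem' := by
    rintro φ ⟨h1, h2, h3⟩
    refine ⟨fun z hz => ?_, h3, h2⟩
    exact φ.injective (by rw [h1 z hz]; exact φ.apply_symm_apply z)

/-- `Γ` is discrete for the compact-open topology (uniform convergence on compact subsets of
`D`): every element of `Γ` is isolated in `Γ`. -/
def IsDiscreteAut (D : Set E) (Γ : Subgroup (Equiv.Perm E)) : Prop :=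
  ∀ γ ∈ Γ, ∃ K ⊆ D, IsCompact K ∧ ∃ ε : ℝ, 0 < ε ∧
    ∀ γ' ∈ Γ, (∀ z ∈ K, dist (γ' z) (γ z) < ε) → γ' = γ

/-- `Γ` acts freely on `D`. -/
def ActsFreely (D : Set E) (Γ : Subgroup (Equiv.Perm E)) : Prop :=
  ∀ γ ∈ Γ, ∀ z ∈ D, γ z = z → γ = 1

/-- A bounded symmetric domain: a bounded domain each point of which is an isolated fixed point
of a holomorphic involution. -/
def IsBoundedSymmetricDomain (D : Set E) : Prop :=
  IsOpen D ∧ IsConnected D ∧ Bornology.IsBounded D ∧
    ∀ p ∈ D, ∃ s ∈ autGroup D, s * s = 1 ∧ s p = p ∧ ∀ᶠ z in 𝓝[≠] p, s z ≠ z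

end

variable {n : ℕ}

/-- The Bergman kernel on the diagonal: `K(z) = sup |f(z)|²` over holomorphic `f` on `D` with
`∫_D |f|² ≤ 1` (Lebesgue measure). -/
def bergK (D : Set (Fin n → ℂ)) (z : Fin n → ℂ) : ℝ :=
  sSup {r | ∃ f : (Fin n → ℂ) → ℂ, DifferentiableOn ℂ f D ∧ ∫⁻ w in D, ‖f w‖ₑ ^ 2 ≤ 1 ∧
    r = ‖f z‖ ^ 2}

/-- The Wirtinger derivative `∂F/∂z_j`. -/
def dz (j : Fin n) (F : (Fin n → ℂ) → ℂ) (z : Fin n → ℂ) : ℂ :=
  (fderiv ℝ F z (Pi.single j 1) - I * fderiv ℝ F z (Pi.single j I)) / 2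

/-- The Wirtinger derivative `∂F/∂(conj z_k)`. -/
def dzbar (k : Fin n) (F : (Fin n → ℂ) → ℂ) (z : Fin n → ℂ) : ℂ :=
  (fderiv ℝ F z (Pi.single k 1) + I * fderiv ℝ F z (Pi.single k I)) / 2

/-- The Bergman metric: the matrix `∂² log K / ∂z_j ∂(conj z_k)`. -/
def bergG (D : Set (Fin n → ℂ)) (z : Fin n → ℂ) : Matrix (Fin n) (Fin n) ℂ :=
  Matrix.of fun j k => dz j (dzbar k fun w => (Real.log (bergK D w) : ℂ)) z

/-- The volume of the Bergman metric: density `det (bergG D z)` against Lebesgue measure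
on `D`. -/
def bergVol (D : Set (Fin n → ℂ)) : Measure (Fin n → ℂ) :=
  (volume.restrict D).withDensity fun z => ENNReal.ofReal (bergG D z).det.re

end Pool.Agent.P.MP_2ff09b_gt
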