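import Pool.Agent.P.MP_2ff09b_gt.A7

/-! CVX-E1. Two rigidity consequences of the Liouville property.
Sketch. eq_zero: apply Liouv to H = {c * (h ∘ γ) | ‖c‖ <= 1, γ in Γ} between y and p.
eq_one: apply Liouv to H = {l (ζ (γ z) - γ z) | ‖l‖ <= 1, γ in Γ}; let c be the supremum of
‖ζ (γ o) - γ o‖ over γ; then ‖ζ (γ z) - γ z‖ <= c for all z in D. If c > 0 take γ j with values
tending to c, and ultrafilter limits g of γ j (exists_limit_bdd) and ξ of (γ j)⁻¹ ζ (γ j)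
(exists_limit_selfmap). Then u = g ∘ ξ - g has norm at most c with equality at o; for a norming
functional l (exists_dual_vector) the maximum principle
(Complex.eqOn_of_isPreconnected_of_isMaxOn_norm) gives l (g (ξ z)) = l (g z) + c on D, and iteration
contradicts the boundedness of g. -/

open Set MeasureTheory Complex Filter Topology Metric

noncomputable section

namespace Pool.Agent.P.MP_2ff09b_gt

variable {E : Type*} [NormedAddCommGroup E] [NormedSpace ℂ E] [FiniteDimensional ℂ E] {D : Set E}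

omit [FiniteDimensional ℂ E] in
theorem E1_norm {G : Type*} [NormedAddCommGroup G] [NormedSpace ℂ G]
    {Γ : Subgroup (Equiv.Perm E)} (hΓ : Γ ≤ autGroup D) (hL : Liouv D Γ) {F : E → G}
    (hF : DifferentiableOn ℂ F D) {M : ℝ} (hM : ∀ z ∈ D, ‖F z‖ ≤ M) {p : E} (hp : p ∈ D) {c : ℝ}
    (hc : ∀ γ ∈ Γ, ‖F (γ p)‖ ≤ c) : ∀ z ∈ D, ‖F z‖ ≤ c := by
  intro z hz
  obtain ⟨l, hl, e⟩ := exists_dual_vector'' ℂ (F z)
  have key : ∀ (l : G →L[ℂ] ℂ) (v : G), ‖l‖ ≤ 1 → ‖l v‖ ≤ ‖v‖ := fun l v h =>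
    (l.le_of_opNorm_le h v).trans_eq (one_mul _)
  refine le_of_forall_pos_le_add fun ε hε => ?_
  obtain ⟨h', ⟨l', hl', γ, hγ, rfl⟩, h2⟩ := hL
    {h | ∃ l : G →L[ℂ] ℂ, ‖l‖ ≤ 1 ∧ ∃ γ ∈ Γ, h = fun z => l (F (γ z))} M (by
      rintro _ ⟨l, hl, γ, hγ, rfl⟩
      exact ⟨l.differentiable.comp_differentiableOn
        (hF.comp (aut_hol (hΓ hγ)) (aut_maps (hΓ hγ))),
        fun z hz => (key l _ hl).trans (hM _ (aut_maps (hΓ hγ) hz))⟩) (by
      rintro _ ⟨l, hl, γ, hγ, rfl⟩ γ' hγ'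
      exact ⟨_, ⟨l, hl, γ * γ', Γ.mul_mem hγ hγ', rfl⟩, fun z _ => rfl⟩) z hz p hp
    (fun z => l (F z)) ⟨l, hl, 1, Γ.one_mem, rfl⟩ ε hε
  have h3 : (l' (F (γ p))).re ≤ c := (re_le_norm _).trans ((key l' _ hl').trans (hc γ hγ))
  have h4 : (l (F z)).re = ‖F z‖ := by
    rw [e]
    exact ofReal_re _
  linarith

theorem Liouv.eq_zero (hD : BCD D) {Γ : Subgroup (Equiv.Perm E)} (hΓ : Γ ≤ autGroup D)
    (hL : Liouv D Γ) {h : E → ℂ} (hh : DifferentiableOn ℂ h D) {M : ℝ} (hM : ∀ z ∈ D, ‖h z‖ ≤ M)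
    {p : E} (hp : p ∈ D) (h0 : ∀ γ ∈ Γ, h (γ p) = 0) : ∀ z ∈ D, h z = 0 := by
  intro z hz
  exact norm_le_zero_iff.1 (E1_norm hΓ hL hh hM hp (fun γ hγ => by simp [h0 γ hγ]) z hz)

theorem Liouv.eq_one (hD : BCD D) {Γ : Subgroup (Equiv.Perm E)} (hΓ : Γ ≤ autGroup D)
    (hL : Liouv D Γ) {ζ : Equiv.Perm E} (hζ : ζ ∈ autGroup D) {o : E} (ho : o ∈ D) {K : Set E}
    (hK : IsCompact K) (hKD : K ⊆ D) (h : ∀ γ ∈ Γ, γ.symm (ζ (γ o)) ∈ K) : ∀ z ∈ D, ζ z = z := by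
  obtain ⟨M, hM⟩ := hD.bounded.closure.exists_norm_le
  have hb : ∀ z ∈ D, ‖ζ z - z‖ ≤ M + M := fun z hz =>
    norm_sub_le_of_le (hM _ (subset_closure (aut_maps hζ hz))) (hM _ (subset_closure hz))
  have hS : BddAbove {r | ∃ γ ∈ Γ, r = ‖ζ (γ o) - γ o‖} := ⟨M + M, by
    rintro _ ⟨γ, hγ, rfl⟩
    exact hb _ (aut_maps (hΓ hγ) ho)⟩
  obtain ⟨r, -, hr, hr'⟩ := exists_seq_tendsto_sSup (by exact ⟨_, 1, Γ.one_mem, rfl⟩) hS
  have hc := E1_norm hΓ hL (F := fun z => ζ z - z) ((aut_hol hζ).sub differentiableOn_id) hb ho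
    fun γ hγ => le_csSup hS ⟨γ, hγ, rfl⟩
  generalize sSup {r | ∃ γ ∈ Γ, r = ‖ζ (γ o) - γ o‖} = c at hr hc
  choose γ hγ e using hr'
  obtain ⟨g, g1, g2, g3, -⟩ := exists_limit_bdd hD (Ultrafilter.of (atTop : Filter ℕ))
    (fun j => aut_hol (hΓ (hγ j))) fun j => aut_maps (hΓ (hγ j))
  have hξ : ∀ j, (γ j)⁻¹ * ζ * γ j ∈ autGroup D := fun j =>
    mul_mem (mul_mem (inv_mem (hΓ (hγ j))) hζ) (hΓ (hγ j))
  obtain ⟨ξ, x1, x2, x3, -⟩ := exists_limit_selfmap hD (Ultrafilter.of (atTop : Filter ℕ))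
    (fun j => aut_hol (hξ j)) (fun j => aut_maps (hξ j)) isCompact_singleton
    (singleton_subset_iff.2 ho) hK hKD (x := fun _ => o)
    (Eventually.of_forall fun j => ⟨rfl, h _ (hγ j)⟩)
  have hu : ∀ z ∈ D, Tendsto (fun j => ‖ζ (γ j z) - γ j z‖) (Ultrafilter.of (atTop : Filter ℕ))
      (𝓝 ‖g (ξ z) - g z‖) := fun z hz => by
    have h1 := g3.tendsto_comp (g1.continuousOn _ (x2 hz)) (x2 hz)
      (hD.isOpen.nhdsWithin_eq (x2 hz) ▸ x3.tendsto_at hz)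
    simp only [Equiv.Perm.coe_mul, Function.comp_apply, Equiv.Perm.coe_inv,
      Equiv.apply_symm_apply] at h1
    exact (h1.sub (g3.tendsto_at hz)).norm
  have h2 : ∀ z ∈ D, ‖g (ξ z) - g z‖ ≤ c := fun z hz =>
    le_of_tendsto' (hu z hz) fun j => hc _ (aut_maps (hΓ (hγ j)) hz)
  have h3 : ‖g (ξ o) - g o‖ = c :=
    tendsto_nhds_unique (hu o ho) ((hr.congr e).mono_left (Ultrafilter.of_le _))
  obtain ⟨l, hl, el⟩ := exists_dual_vector'' ℂ (g (ξ o) - g o)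
  have key : ∀ v, ‖l v‖ ≤ ‖v‖ := fun v => (l.le_of_opNorm_le hl v).trans_eq (one_mul _)
  have h4 := Complex.eqOn_of_isPreconnected_of_isMaxOn_norm (f := fun z => l (g (ξ z) - g z))
    hD.convex.isPreconnected hD.isOpen
    (l.differentiable.comp_differentiableOn ((g1.comp x1 x2).sub g1)) ho (fun z hz => by
      have h5 : ‖l (g (ξ o) - g o)‖ = c := by
        rw [el, ← h3]
        simp
      exact ((key _).trans (h2 z hz)).trans_eq h5.symm)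
  have h5 : ∀ z ∈ D, (l (g (ξ z))).re = (l (g z)).re + c := fun z hz => by
    have h6 : l (g (ξ z) - g z) = l (g (ξ o) - g o) := h4 hz
    rw [el, h3, map_sub] at h6
    have h7 : (l (g (ξ z)) - l (g z)).re = c := (congrArg re h6).trans (ofReal_re _)
    rw [sub_re] at h7
    linarith
  have h6 : ∀ n : ℕ, (l (g (ξ^[n] o))).re = (l (g o)).re + n * c := fun n => by
    induction n with
    | zero => simp
    | succ n ih =>
      rw [Function.iterate_succ_apply', h5 _ (x2.iterate n ho), ih]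
      push_cast
      ring
  have h7 : ∀ z ∈ D, |(l (g z)).re| ≤ M := fun z hz =>
    (abs_re_le_norm _).trans ((key _).trans (hM _ (g2 hz)))
  have h8 : c ≤ 0 := by
    by_contra hc0
    obtain ⟨n, hn⟩ := exists_nat_gt ((M + M) / c)
    rw [div_lt_iff₀ (not_le.1 hc0)] at hn
    have a := abs_le.1 (h7 _ (x2.iterate n ho))
    have b := abs_le.1 (h7 _ ho)
    linarith [h6 n, a.2, b.1]
  exact fun z hz => sub_eq_zero.1 (norm_le_zero_iff.1 ((hc z hz).trans h8))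

end Pool.Agent.P.MP_2ff09b_gt
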