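import Pool.Agent.P.MP_2ff09b_gt.A2

/-! CVX-E2. Peak functions at complex extreme points; orbits accumulate at such points.
Sketch. exists_peak: strong induction on the dimension of the ambient space. In dimension zero
take ψ = 0. Otherwise x is not an interior point of K (CExt), so there is a nonzero complex
functional l with re l (z - x) <= 0 on K (if the interior is empty the affine span is proper;
otherwise geometric Hahn-Banach). With h = -l (z - x) and M large, ψ1 = M h - h² has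
re ψ1 >= re h + (im h)² >= 0 on K, with equality only on the slice x + ker l.
Take ψ' for the slice and add a large multiple of ψ1 (compactness). acc: if the orbit avoids U
apply Liouv to H = {-(ψ ∘ ϖ ∘ γ)} between a point y with ϖ y near x and z. -/

open Set MeasureTheory Complex Filter Topology Metric

noncomputable section

namespace Pool.Agent.P.MP_2ff09b_gt

theorem E2_support {E : Type*} [NormedAddCommGroup E] [NormedSpace ℂ E] [FiniteDimensional ℂ E]
    [Nontrivial E] {K : Set E} (hc : Convex ℝ K) {x : E} (hx : CExt K x) :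
    ∃ l : E →L[ℂ] ℂ, l ≠ 0 ∧ ∀ z ∈ K, (l (z - x)).re ≤ 0 := by
  have h1 : ∃ f : StrongDual ℝ E, f ≠ 0 ∧ ∀ z ∈ K, f z ≤ f x := by
    by_cases hi : (interior K).Nonempty
    · refine geometric_hahn_banach_of_nonempty_interior_point hc (fun h => ?_) hi
      obtain ⟨r, hr, h2⟩ := Metric.mem_nhds_iff.1 (mem_interior_iff_mem_nhds.1 h)
      obtain ⟨v, hv⟩ := exists_norm_eq E (half_pos hr).le
      have h3 := hx.2 v fun ζ hζ => h2 (by
        rw [mem_ball_iff_norm, add_sub_cancel_left, norm_smul, hv]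
        nlinarith [norm_nonneg ζ])
      rw [h3, norm_zero] at hv
      linarith
    · rw [hc.interior_nonempty_iff_affineSpan_eq_top,
        AffineSubspace.affineSpan_eq_top_iff_vectorSpan_eq_top_of_nonempty ℝ E E ⟨x, hx.1⟩] at hi
      obtain ⟨f, hf, h2⟩ := (vectorSpan ℝ K).exists_le_ker_of_lt_top (lt_top_iff_ne_top.2 hi)
      refine ⟨LinearMap.toContinuousLinearMap f, fun h => hf ?_, fun z hz => ?_⟩
      · exact LinearMap.ext fun v => DFunLike.congr_fun h v
      · have h3 : f (z - x) = 0 := h2 (vsub_mem_vectorSpan ℝ hz hx.1)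
        rw [map_sub, sub_eq_zero] at h3
        exact h3.le
  obtain ⟨f, hf, h2⟩ := h1
  have h3 : ∀ v, ((f.extendRCLike : E →L[ℂ] ℂ) v).re = f v := fun v =>
    StrongDual.re_extendRCLike_apply (𝕜 := ℂ) f v
  refine ⟨f.extendRCLike, fun h => hf (ContinuousLinearMap.ext fun v => ?_), fun z hz => ?_⟩
  · rw [← h3, h]
    rfl
  · rw [h3, map_sub]
    exact sub_nonpos.2 (h2 z hz)

theorem E2_absorb {E : Type*} [TopologicalSpace E] {K : Set E} (hK : IsCompact K) {f g : E → ℝ}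
    (hf : Continuous f) (hg : Continuous g) (h0 : ∀ z ∈ K, 0 ≤ g z)
    (h1 : ∀ z ∈ K, g z = 0 → 0 < f z) : ∀ᶠ N : ℝ in atTop, ∀ z ∈ K, 0 ≤ f z + N * g z := by
  obtain ⟨m, hm, h2⟩ := (hK.inter_right (isClosed_le hf continuous_const (g := fun _ => 0))
    ).exists_forall_le' hg.continuousOn (a := 0) fun z hz =>
      (h0 z hz.1).lt_of_ne fun e => (h1 z hz.1 e.symm).not_ge hz.2
  obtain ⟨M, hM⟩ := hK.exists_bound_of_continuousOn hf.continuousOn
  filter_upwards [eventually_ge_atTop 0, eventually_ge_atTop (M / m)] with N hN hN' z hz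
  by_cases h3 : f z ≤ 0
  · have h4 := h2 z ⟨hz, h3⟩
    have h5 := (abs_le.1 (hM z hz)).1
    have h6 := (div_le_iff₀ hm).1 hN'
    nlinarith
  · exact add_nonneg (not_le.1 h3).le (mul_nonneg hN (h0 z hz))

theorem E2_quad {E : Type*} [NormedAddCommGroup E] [NormedSpace ℂ E] {K : Set E}
    (hK : IsCompact K) {x : E} {l : E →L[ℂ] ℂ} (hl : ∀ z ∈ K, (l (z - x)).re ≤ 0) :
    ∃ φ : E → ℂ, Differentiable ℂ φ ∧ φ x = 0 ∧ (∀ z ∈ K, 0 ≤ (φ z).re) ∧
      ∀ z ∈ K, (φ z).re = 0 → l (z - x) = 0 := by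
  have hd : Differentiable ℂ fun z => l (z - x) := by fun_prop
  obtain ⟨M, hM⟩ := hK.exists_bound_of_continuousOn hd.continuous.continuousOn
  have key : ∀ z ∈ K, -(l (z - x)).re + (l (z - x)).im ^ 2 ≤
      (-((M + 1 : ℝ) : ℂ) * l (z - x) - l (z - x) ^ 2).re := fun z hz => by
    have h1 := hl z hz
    have h2 := (abs_le.1 ((abs_re_le_norm _).trans (hM z hz))).1
    simp only [sq, sub_re, mul_re, neg_re, neg_im, ofReal_re, ofReal_im]
    nlinarith
  refine ⟨fun z => -((M + 1 : ℝ) : ℂ) * l (z - x) - l (z - x) ^ 2, by fun_prop, by simp,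
    fun z hz => ?_, fun z hz h => ?_⟩
  · nlinarith [key z hz, hl z hz, sq_nonneg (l (z - x)).im]
  · have h1 := key z hz
    have h2 := hl z hz
    simp only at h
    rw [h] at h1
    refine Complex.ext ?_ ?_
    · rw [zero_re]
      nlinarith [sq_nonneg (l (z - x)).im]
    · rw [zero_im]
      exact pow_eq_zero_iff two_ne_zero |>.1 (le_antisymm (by linarith) (sq_nonneg _))

universe u in
theorem E2_peak (n : ℕ) : ∀ (E : Type u) [NormedAddCommGroup E] [NormedSpace ℂ E]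
    [FiniteDimensional ℂ E], Module.finrank ℂ E = n → ∀ (K : Set E), IsCompact K → Convex ℝ K →
    ∀ x : E, CExt K x → ∀ U ∈ 𝓝 x, ∀ ε : ℝ, 0 < ε →
    ∃ ψ : E → ℂ, Differentiable ℂ ψ ∧ (∀ z ∈ K, 0 ≤ (ψ z).re) ∧ (∀ z ∈ K, z ∉ U → 1 ≤ (ψ z).re) ∧
      (ψ x).re ≤ ε := by
  induction n using Nat.strong_induction_on with
  | _ n ih =>
  intro E _ _ _ hn K hK hc x hx U hU ε hε
  rcases subsingleton_or_nontrivial E with hE | hE
  · exact ⟨0, differentiable_const _, fun _ _ => le_rfl,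
      fun z _ hz => (hz (Subsingleton.elim x z ▸ mem_of_mem_nhds hU)).elim, hε.le⟩
  obtain ⟨l, hl, h1⟩ := E2_support hc hx
  obtain ⟨φ, φ1, φ2, φ3, φ4⟩ := E2_quad hK h1
  set S : Submodule ℂ E := LinearMap.ker (l : E →ₗ[ℂ] ℂ) with hS
  have hS' : S ≠ ⊤ := fun h => hl (ContinuousLinearMap.ext fun v =>
    (show v ∈ S from h ▸ Submodule.mem_top))
  obtain ⟨P, hP⟩ := S.subtype.exists_leftInverse_of_injective S.ker_subtype
  have hP' : ∀ s : S, P s = s := fun s => DFunLike.congr_fun hP s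
  have c1 : Continuous fun s : S => x + (s : E) := by fun_prop
  have c2 : IsClosedEmbedding fun s : S => x + (s : E) :=
    (Homeomorph.addLeft x).isClosedEmbedding.comp
      S.closed_of_finiteDimensional.isClosedEmbedding_subtypeVal
  obtain ⟨ψ, ψ1, ψ2, ψ3, ψ4⟩ := ih _ (hn ▸ Submodule.finrank_lt hS') S rfl
    ((fun s : S => x + (s : E)) ⁻¹' K) (c2.isCompact_preimage hK)
    (fun a ha b hb s t hs ht hst => by
      have h2 := hc ha hb hs ht hst
      have h3 : x + ((s • a + t • b : S) : E) = s • (x + a) + t • (x + b) := by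
        rw [smul_add, smul_add, add_add_add_comm, ← add_smul, hst, one_smul]
        rfl
      rw [mem_preimage, h3]
      exact h2)
    0 ⟨by simpa using hx.1, fun v hv => Subtype.ext (hx.2 v fun ζ hζ => by simpa using hv ζ hζ)⟩
    ((fun s : S => x + (s : E)) ⁻¹' interior U)
    (c1.continuousAt.preimage_mem_nhds (by simpa using hU)) (ε / 4) (by linarith)
  have d1 : Differentiable ℂ fun z => ψ (P (z - x)) :=
    ψ1.comp ((LinearMap.toContinuousLinearMap P).differentiable.comp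
      (differentiable_id.sub_const x))
  have c3 : Continuous fun z => (ψ (P (z - x))).re := continuous_re.comp d1.continuous
  have c4 : Continuous fun z => (φ z).re := continuous_re.comp φ1.continuous
  have h2 : ∀ z ∈ K, (φ z).re = 0 → x + (P (z - x) : E) = z := fun z hz h => by
    rw [hP' ⟨z - x, φ4 z hz h⟩, add_sub_cancel]
  have e1 := E2_absorb hK (f := fun z => 2 * (ψ (P (z - x))).re + ε / 2) (by fun_prop) c4 φ3
    fun z hz h => by
      have := ψ2 (P (z - x)) (by rw [mem_preimage, h2 z hz h]; exact hz)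
      linarith
  have e2 := E2_absorb (hK.diff (isOpen_interior (s := U)))
    (f := fun z => 2 * (ψ (P (z - x))).re + ε / 2 - 1) (by fun_prop) c4 (fun z hz => φ3 z hz.1)
    fun z hz h => by
      have := ψ3 (P (z - x)) (by rw [mem_preimage, h2 z hz.1 h]; exact hz.1)
        (by rw [mem_preimage, h2 z hz.1 h]; exact hz.2)
      linarith
  obtain ⟨N, e3, e4⟩ := (e1.and e2).exists
  have e5 : ∀ z, (2 * ψ (P (z - x)) + ((ε / 2 : ℝ) : ℂ) + (N : ℂ) * φ z).re =
      2 * (ψ (P (z - x))).re + ε / 2 + N * (φ z).re := fun z => by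
    simp only [add_re, ofReal_re, re_ofReal_mul]
    simp
  refine ⟨fun z => 2 * ψ (P (z - x)) + ((ε / 2 : ℝ) : ℂ) + (N : ℂ) * φ z,
    ((d1.const_mul 2).add_const _).add (φ1.const_mul _), fun z hz => ?_, fun z hz hz' => ?_, ?_⟩
  · rw [e5]
    exact e3 z hz
  · rw [e5]
    linarith [e4 z ⟨hz, fun h => hz' (interior_subset h)⟩]
  · rw [e5, φ2, sub_self, map_zero, zero_re]
    linarith

variable {E : Type*} [NormedAddCommGroup E] [NormedSpace ℂ E] [FiniteDimensional ℂ E] {D : Set E}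


theorem exists_peak {K : Set E} (hK : IsCompact K) (hc : Convex ℝ K) {x : E} (hx : CExt K x)
    {U : Set E} (hU : U ∈ 𝓝 x) {ε : ℝ} (hε : 0 < ε) :
    ∃ ψ : E → ℂ, Differentiable ℂ ψ ∧ (∀ z ∈ K, 0 ≤ (ψ z).re) ∧ (∀ z ∈ K, z ∉ U → 1 ≤ (ψ z).re) ∧
      (ψ x).re ≤ ε := by
  exact E2_peak _ E rfl K hK hc x hx U hU ε hε

theorem Liouv.acc {B : Type*} [NormedAddCommGroup B] [NormedSpace ℂ B] [FiniteDimensional ℂ B]
    {Γ : Subgroup (Equiv.Perm E)} (hΓ : Γ ≤ autGroup D) (hL : Liouv D Γ) {Ω : Set B}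
    (hΩ : BCD Ω) {ϖ : E → B} (hϖ : DifferentiableOn ℂ ϖ D) (hm : MapsTo ϖ D Ω)
    (hs : SurjOn ϖ D Ω) {x : B} (hx : CExt (closure Ω) x) {z : E} (hz : z ∈ D) {U : Set B}
    (hU : U ∈ 𝓝 x) : ∃ γ ∈ Γ, ϖ (γ z) ∈ U := by
  by_contra hne
  have := FiniteDimensional.proper ℂ B
  have hK : IsCompact (closure Ω) := hΩ.bounded.isCompact_closure
  obtain ⟨ψ, ψ1, -, ψ3, ψ4⟩ := exists_peak hK hΩ.convex.closure hx hU (ε := 1 / 4) (by norm_num)
  obtain ⟨M, hM⟩ := hK.exists_bound_of_continuousOn ψ1.continuous.continuousOn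
  have h1 : ∀ᶠ b in 𝓝 x, (ψ b).re < 1 / 2 :=
    (continuous_re.comp ψ1.continuous).continuousAt.eventually_lt continuousAt_const
      (ψ4.trans_lt (by norm_num))
  obtain ⟨b, hb, hb'⟩ := mem_closure_iff_nhds.1 hx.1 _ h1
  obtain ⟨y, hy, rfl⟩ := hs hb'
  obtain ⟨h', ⟨γ, hγ, rfl⟩, e⟩ := hL {h | ∃ γ ∈ Γ, h = fun w => -ψ (ϖ (γ w))} M
    (by
      rintro _ ⟨γ, hγ, rfl⟩
      refine ⟨(ψ1.comp_differentiableOn (hϖ.comp (aut_hol (hΓ hγ)) (aut_maps (hΓ hγ)))).neg,
        fun w hw => ?_⟩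
      rw [norm_neg]
      exact hM _ (subset_closure (hm (aut_maps (hΓ hγ) hw))))
    (by
      rintro _ ⟨γ, hγ, rfl⟩ γ' hγ'
      exact ⟨_, ⟨γ * γ', Γ.mul_mem hγ hγ', rfl⟩, fun w _ => rfl⟩)
    y hy z hz _ ⟨1, Γ.one_mem, rfl⟩ (1 / 4) (by norm_num)
  have h2 := ψ3 _ (subset_closure (hm (aut_maps (hΓ hγ) hz))) fun h => hne ⟨γ, hγ, h⟩
  have h3 : (ψ (ϖ y)).re < 1 / 2 := hb
  simp only [neg_re, Equiv.Perm.one_apply] at e
  linarith

end Pool.Agent.P.MP_2ff09b_gt
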