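import Pool.Agent.P.MP_2ff09b_gt.Triv

/-! CVX-E4. A null Lagrangian identity for Lipschitz perturbations of the real subspace.
Sketch. Write φ = φ1 + i φ2 with real Lipschitz compactly supported φ1, φ2 and let J(s, t) be the
integral with φ replaced by s φ1 + t φ2 (s, t complex). The integrand is measurable
(measurable_fderiv), vanishes outside a compact set and is bounded locally uniformly in (s, t), and
holomorphic in each parameter, so J is entire in each parameter (differentiation under the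
integral, hasDerivAt_integral_of_dominated_loc_of_deriv_le with a Cauchy estimate, or
DifferentiableOn integrals of holomorphic families). For small real s, t the map
Ψ = id + s φ1 + t φ2 is a bi-Lipschitz homeomorphism of the real space
(ApproximatesLinearOn.toHomeomorph), the identity outside a ball B, so it permutes B; it is
differentiable off a null set N (LipschitzWith.ae_differentiableAt) whose image is null, with
positive determinant (1 + A with ‖A‖ < 1); integral_image_eq_integral_abs_det_fderiv_smul on B \ N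
gives J(s, t) = 0. The identity theorem in s, then in t (frequently zero near 0), gives
J(1, i) = 0. -/

open Set MeasureTheory Complex Filter Topology Metric

noncomputable section

namespace Pool.Agent.P.MP_2ff09b_gt

theorem E4_int {X P : Type*} [MeasurableSpace X] {μ : Measure X} [IsFiniteMeasure μ]
    [TopologicalSpace P] [MeasurableSpace P] [OpensMeasurableSpace P] {p : X → P}
    (hp : Measurable p) {C : Set P} (hC : IsCompact C) (hpC : ∀ᵐ x ∂μ, p x ∈ C) {g : P → ℂ}
    (hg : Continuous g) : Integrable (fun x => g (p x)) μ := by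
  obtain ⟨M, hM⟩ := hC.exists_bound_of_continuousOn hg.continuousOn
  exact Integrable.of_bound (hg.measurable.comp hp).aestronglyMeasurable M
    (hpC.mono fun x hx => hM _ hx)

theorem E4_entire {X P : Type*} [MeasurableSpace X] {μ : Measure X} [IsFiniteMeasure μ]
    [TopologicalSpace P] [MeasurableSpace P] [OpensMeasurableSpace P] {p : X → P}
    (hp : Measurable p) {C : Set P} (hC : IsCompact C) (hpC : ∀ᵐ x ∂μ, p x ∈ C) {g : P → ℂ → ℂ}
    (hg : Continuous g.uncurry) (hd : ∀ q, Differentiable ℂ (g q)) :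
    Differentiable ℂ fun s => ∫ x, g (p x) s ∂μ := by
  intro s₀
  obtain ⟨M, hM⟩ := (hC.prod (isCompact_closedBall s₀ 2)).exists_bound_of_continuousOn
    hg.continuousOn
  have hc : ∀ s, Continuous fun q => g q s := fun s =>
    hg.comp (continuous_id.prodMk continuous_const)
  have hm : Measurable fun x => deriv (g (p x)) s₀ :=
    (measurable_deriv_with_param hg).comp (hp.prodMk measurable_const)
  refine (hasDerivAt_integral_of_dominated_loc_of_deriv_le (μ := μ) (F := fun s x => g (p x) s)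
    (F' := fun s x => deriv (g (p x)) s) (bound := fun _ => M / 1) (ball_mem_nhds s₀ one_pos)
    (Eventually.of_forall fun s => ((hc s).measurable.comp hp).aestronglyMeasurable)
    (E4_int hp hC hpC (hc s₀)) hm.aestronglyMeasurable ?_ (integrable_const _)
    (Eventually.of_forall fun x s _ => (hd (p x) s).hasDerivAt)).2.differentiableAt
  filter_upwards [hpC] with x hx s hs
  refine Complex.norm_deriv_le_of_forall_mem_sphere_norm_le one_pos
    (hd (p x)).diffContOnCl fun z hz => hM (p x, z) ⟨hx, ?_⟩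
  rw [mem_sphere] at hz
  rw [mem_ball] at hs
  rw [mem_closedBall]
  linarith [dist_triangle z s s₀]

theorem E4_real {ι : Type} [Fintype ι] {ψ : (ι → ℝ) → ι → ℝ} {c : NNReal}
    (hψ : LipschitzWith c ψ) (hc : c < 1) {B S : Set (ι → ℝ)} (hB : ∀ x ∉ B, ψ x = 0)
    (hS : MeasurableSet S) (hSB : S ⊆ B) (hN : volume (B \ S) = 0)
    {D : (ι → ℝ) → (ι → ℝ) →L[ℝ] ι → ℝ} (hD : ∀ x ∈ S, HasFDerivAt ψ (D x) x)
    (hpos : ∀ x ∈ S, 0 ≤ (ContinuousLinearMap.id ℝ (ι → ℝ) + D x).det) (f : (ι → ℝ) → ℂ) :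
    ∫ x in S, (ContinuousLinearMap.id ℝ (ι → ℝ) + D x).det • f (x + ψ x) = ∫ x in B, f x := by
  have hc' : (c : ℝ) < 1 := hc
  have inj : Function.Injective fun x => x + ψ x := by
    intro x y hxy
    have h1 : x - y = ψ y - ψ x := by
      have : x + ψ x = y + ψ y := hxy
      rw [sub_eq_sub_iff_add_eq_add, this, add_comm]
    have h2 := hψ.dist_le_mul y x
    rw [dist_eq_norm, ← h1, ← dist_eq_norm, dist_comm y x] at h2
    have h3 : dist x y ≤ 0 := by nlinarith [dist_nonneg (x := x) (y := y)]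
    exact dist_le_zero.1 h3
  have surj : Function.Surjective fun x => x + ψ x := by
    intro y
    have hl : LipschitzWith c fun x => y - ψ x := by
      refine LipschitzWith.of_dist_le_mul fun a b => ?_
      rw [dist_sub_left]
      exact hψ.dist_le_mul a b
    have hcon : ContractingWith c fun x => y - ψ x := ⟨hc, hl⟩
    refine ⟨hcon.fixedPoint _, ?_⟩
    have := hcon.fixedPoint_isFixedPt
    rw [Function.IsFixedPt] at this
    exact eq_sub_iff_add_eq.1 this.symm
  have him : (fun x => x + ψ x) '' B = B := by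
    apply Subset.antisymm
    · rintro _ ⟨x, hx, rfl⟩
      by_contra h
      have h1 : (x + ψ x) + ψ (x + ψ x) = x + ψ x := by rw [hB _ h, add_zero]
      have h2 : x + ψ x = x := inj h1
      exact h (by simpa only [h2] using hx)
    · intro y hy
      obtain ⟨x, rfl⟩ := surj y
      refine ⟨x, ?_, rfl⟩
      by_contra h
      simp only [hB x h, add_zero] at hy
      exact h hy
  have hlip : LipschitzWith (1 + c) fun x => x + ψ x := LipschitzWith.id.add hψ
  have hnull : volume ((fun x => x + ψ x) '' (B \ S)) = 0 := by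
    have h1 := hlip.hausdorffMeasure_image_le (d := (Fintype.card ι : ℝ)) (Nat.cast_nonneg _)
      (B \ S)
    rw [hausdorffMeasure_pi_real, hN, mul_zero] at h1
    exact le_zero_iff.1 h1
  have hae : (fun x => x + ψ x) '' S =ᵐ[volume] B := by
    rw [ae_eq_set]
    constructor
    · have : (fun x => x + ψ x) '' S \ B = ∅ := by
        rw [sdiff_eq_empty, ← him]
        exact image_mono hSB
      rw [this, measure_empty]
    · refine measure_mono_null ?_ hnull
      rintro y ⟨hy, hy'⟩
      rw [← him] at hy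
      obtain ⟨x, hx, rfl⟩ := hy
      exact ⟨x, ⟨hx, fun h => hy' ⟨x, h, rfl⟩⟩, rfl⟩
  rw [← setIntegral_congr_set hae, integral_image_eq_integral_abs_det_fderiv_smul volume hS
    (f := fun x => x + ψ x) (f' := fun x => ContinuousLinearMap.id ℝ (ι → ℝ) + D x)
    (fun x hx => ((hasFDerivAt_id x).add (hD x hx)).hasFDerivWithinAt) inj.injOn f]
  refine setIntegral_congr_fun hS fun x hx => ?_
  simp only [abs_of_nonneg (hpos x hx)]

theorem E4_detpos (ι : Type) [Fintype ι] : ∃ δ > 0, ∀ A : (ι → ℝ) →L[ℝ] ι → ℝ, ‖A‖ < δ →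
    0 ≤ (ContinuousLinearMap.id ℝ (ι → ℝ) + A).det := by
  have hc : Continuous fun A : (ι → ℝ) →L[ℝ] ι → ℝ =>
      (ContinuousLinearMap.id ℝ (ι → ℝ) + A).det :=
    ContinuousLinearMap.continuous_det.comp (continuous_const.add continuous_id)
  have h0 : (0 : ℝ) < (ContinuousLinearMap.id ℝ (ι → ℝ) + 0).det := by
    simp [ContinuousLinearMap.det]
  have h1 := (hc.continuousAt (x := 0)).eventually (lt_mem_nhds h0)
  obtain ⟨δ, hδ, h⟩ := Metric.eventually_nhds_iff.1 h1
  exact ⟨δ, hδ, fun A hA => (h (by simpa using hA)).le⟩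

theorem E4_identity {J : ℂ → ℂ} (hJ : Differentiable ℂ J) {c : ℂ} {δ : ℝ} (hδ : 0 < δ)
    (h : ∀ s : ℝ, |s| < δ → J s = c) (z : ℂ) : J z = c := by
  have h1 : AnalyticOnNhd ℂ J univ := fun w _ => hJ.analyticAt w
  have h2 : AnalyticOnNhd ℂ (fun _ : ℂ => c) univ := analyticOnNhd_const
  have h3 : ∃ᶠ w in 𝓝[≠] (0 : ℂ), J w = c := by
    have ht : Tendsto (fun s : ℝ => (s : ℂ)) (𝓝[≠] 0) (𝓝[≠] 0) := by
      refine tendsto_nhdsWithin_iff.2 ⟨?_, ?_⟩
      · have := (Complex.continuous_ofReal.tendsto 0).mono_left (nhdsWithin_le_nhds (s := {0}ᶜ))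
        simpa using this
      · filter_upwards [self_mem_nhdsWithin] with s hs
        simpa using hs
    refine ht.frequently (Eventually.frequently ?_)
    have : ∀ᶠ s : ℝ in 𝓝 0, |s| < δ := by
      filter_upwards [ball_mem_nhds (0 : ℝ) hδ] with s hs
      simpa using hs
    filter_upwards [mem_nhdsWithin_of_mem_nhds this] with s hs
    exact h s hs
  exact congrFun (h1.eq_of_frequently_eq h2 h3) z

/-- The real linear map `a ↦ s re a + t im a`, coordinatewise. -/
def E4_L (ι : Type) [Fintype ι] (s t : ℝ) : (ι → ℂ) →L[ℝ] ι → ℝ :=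
  ContinuousLinearMap.pi fun i =>
    (s • Complex.reCLM + t • Complex.imCLM).comp (ContinuousLinearMap.proj i)

theorem E4_L_apply {ι : Type} [Fintype ι] (s t : ℝ) (a : ι → ℂ) (i : ι) :
    E4_L ι s t a i = s * (a i).re + t * (a i).im := by
  simp [E4_L]

theorem E4_L_norm {ι : Type} [Fintype ι] (s t : ℝ) : ‖E4_L ι s t‖ ≤ |s| + |t| := by
  refine ContinuousLinearMap.opNorm_le_bound _ (by positivity) fun a => ?_
  refine (pi_norm_le_iff_of_nonneg (by positivity)).2 fun i => ?_
  rw [E4_L_apply, Real.norm_eq_abs]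
  have h1 : |(a i).re| ≤ ‖a‖ := (Complex.abs_re_le_norm _).trans (norm_le_pi_norm a i)
  have h2 : |(a i).im| ≤ ‖a‖ := (Complex.abs_im_le_norm _).trans (norm_le_pi_norm a i)
  calc |s * (a i).re + t * (a i).im| ≤ |s * (a i).re| + |t * (a i).im| := abs_add_le _ _
    _ = |s| * |(a i).re| + |t| * |(a i).im| := by rw [abs_mul, abs_mul]
    _ ≤ |s| * ‖a‖ + |t| * ‖a‖ := by gcongr
    _ = (|s| + |t|) * ‖a‖ := by ring

/-- The two parameter integrand. -/
def E4_G {ι : Type} [Fintype ι] [DecidableEq ι] (F : (ι → ℂ) → ℂ)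
    (q : (ι → ℝ) × (ι → ℂ) × (ι → ι → ℂ)) (s t : ℂ) : ℂ :=
  F (fun i => (q.1 i : ℂ) + (s * ((q.2.1 i).re : ℂ) + t * ((q.2.1 i).im : ℂ))) *
    (1 + Matrix.of fun i j => s * ((q.2.2 j i).re : ℂ) + t * ((q.2.2 j i).im : ℂ) :
      Matrix ι ι ℂ).det

theorem E4_G_cont {ι : Type} [Fintype ι] [DecidableEq ι] {F : (ι → ℂ) → ℂ} (hF : Continuous F) :
    Continuous fun z : ((ι → ℝ) × (ι → ℂ) × (ι → ι → ℂ)) × ℂ × ℂ =>
      E4_G F z.1 z.2.1 z.2.2 := by
  unfold E4_G
  refine Continuous.mul (hF.comp (continuous_pi fun i => by fun_prop)) ?_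
  refine Continuous.matrix_det (continuous_const.add ?_)
  refine continuous_pi fun i => continuous_pi fun j => ?_
  simp only [Matrix.of_apply]
  fun_prop

theorem E4_G_diff {ι : Type} [Fintype ι] [DecidableEq ι] {F : (ι → ℂ) → ℂ}
    (hF : Differentiable ℂ F) (q : (ι → ℝ) × (ι → ℂ) × (ι → ι → ℂ)) {u v : ℂ → ℂ}
    (hu : Differentiable ℂ u) (hv : Differentiable ℂ v) :
    Differentiable ℂ fun z => E4_G F q (u z) (v z) := by
  unfold E4_G
  refine Differentiable.mul ?_ ?_
  · have h : Differentiable ℂ fun z => fun i =>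
        (q.1 i : ℂ) + (u z * ((q.2.1 i).re : ℂ) + v z * ((q.2.1 i).im : ℂ)) :=
      differentiable_pi.2 fun i => by fun_prop
    simpa only [Function.comp_def] using hF.comp h
  · simp only [Matrix.det_apply']
    refine Differentiable.fun_sum fun σ _ => Differentiable.const_mul ?_ _
    refine Differentiable.fun_finsetProd fun i _ => ?_
    simp only [Matrix.add_apply, Matrix.of_apply]
    fun_prop

theorem E4_G_one {ι : Type} [Fintype ι] [DecidableEq ι] (F : (ι → ℂ) → ℂ)
    (q : (ι → ℝ) × (ι → ℂ) × (ι → ι → ℂ)) :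
    E4_G F q 1 I = F (fun i => (q.1 i : ℂ) + q.2.1 i) *
      (1 + Matrix.of fun i j => q.2.2 j i : Matrix ι ι ℂ).det := by
  have h : ∀ a : ℂ, 1 * (a.re : ℂ) + I * (a.im : ℂ) = a := fun a => by
    rw [one_mul, mul_comm, Complex.re_add_im]
  simp only [E4_G, h]

theorem E4_G_real {ι : Type} [Fintype ι] [DecidableEq ι] (F : (ι → ℂ) → ℂ) (x : ι → ℝ)
    (a : ι → ℂ) (A : (ι → ℝ) →L[ℝ] ι → ℂ) (s t : ℝ) :
    E4_G F (x, a, fun j => A (Pi.single j 1)) s t =
      (ContinuousLinearMap.id ℝ (ι → ℝ) + (E4_L ι s t).comp A).det •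
        F fun i => ((x + E4_L ι s t a) i : ℝ) := by
  rw [Complex.real_smul, mul_comm, E4_G]
  congr 1
  · congr 1
    funext i
    simp [E4_L_apply]
  · rw [ContinuousLinearMap.det, ← LinearMap.det_toMatrix']
    refine Eq.trans ?_ (RingHom.map_det Complex.ofRealHom _).symm
    congr 1
    ext i j
    by_cases h : i = j
    · subst h
      simp [LinearMap.toMatrix'_apply, E4_L_apply]
    · simp [LinearMap.toMatrix'_apply, E4_L_apply, h]

theorem E4_par {ι : Type} [Fintype ι] [DecidableEq ι] {φ : (ι → ℝ) → ι → ℂ} {K : NNReal}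
    (hφ : LipschitzWith K φ) (hs : HasCompactSupport φ) :
    Measurable (fun x : ι → ℝ => ((x, φ x, fun j => fderiv ℝ φ x (Pi.single j 1)) :
      (ι → ℝ) × (ι → ℂ) × (ι → ι → ℂ))) ∧
    ∃ C, IsCompact C ∧ ∀ᵐ x ∂(volume.restrict (tsupport φ)),
      ((x, φ x, fun j => fderiv ℝ φ x (Pi.single j 1)) :
        (ι → ℝ) × (ι → ℂ) × (ι → ι → ℂ)) ∈ C := by
  refine ⟨measurable_id.prodMk (hφ.continuous.measurable.prodMk
    (measurable_pi_lambda _ fun j => measurable_fderiv_apply_const ℝ φ _)),
    tsupport φ ×ˢ (φ '' tsupport φ) ×ˢ closedBall 0 K,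
    hs.isCompact.prod ((hs.isCompact.image hφ.continuous).prod (isCompact_closedBall _ _)), ?_⟩
  filter_upwards [ae_restrict_mem (isClosed_tsupport φ).measurableSet] with x hx
  refine ⟨hx, ⟨x, hx, rfl⟩, ?_⟩
  rw [mem_closedBall_zero_iff]
  refine (pi_norm_le_iff_of_nonneg K.coe_nonneg).2 fun j => ?_
  refine ((fderiv ℝ φ x).le_opNorm _).trans ?_
  rw [Pi.norm_single, norm_one, mul_one]
  exact norm_fderiv_le_of_lipschitz ℝ hφ

theorem E4_off {ι : Type} [Fintype ι] [DecidableEq ι] (F : (ι → ℂ) → ℂ)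
    {φ : (ι → ℝ) → ι → ℂ} {x : ι → ℝ} (hx : x ∉ tsupport φ) :
    F (fun i => (x i : ℂ) + φ x i) *
      (1 + Matrix.of fun i j => fderiv ℝ φ x (Pi.single j 1) i : Matrix ι ι ℂ).det -
        (F fun i => (x i : ℂ)) = 0 := by
  have h : (Matrix.of fun i j => (0 : ℂ) : Matrix ι ι ℂ) = 0 := rfl
  simp [image_eq_zero_of_notMem_tsupport hx, fderiv_of_notMem_tsupport ℝ hx, h]

theorem E4_on {ι : Type} [Fintype ι] [DecidableEq ι] {F : (ι → ℂ) → ℂ}
    (hF : Differentiable ℂ F) {φ : (ι → ℝ) → ι → ℂ} {K : NNReal} (hφ : LipschitzWith K φ)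
    (hs : HasCompactSupport φ) :
    IntegrableOn (fun x : ι → ℝ => F (fun i => (x i : ℂ) + φ x i) *
      (1 + Matrix.of fun i j => fderiv ℝ φ x (Pi.single j 1) i : Matrix ι ι ℂ).det)
      (tsupport φ) ∧ IntegrableOn (fun x : ι → ℝ => F fun i => (x i : ℂ)) (tsupport φ) := by
  obtain ⟨hp, C, hC, hpC⟩ := E4_par hφ hs
  haveI : IsFiniteMeasure ((volume : Measure (ι → ℝ)).restrict (tsupport φ)) :=
    isFiniteMeasure_restrict.2 hs.isCompact.measure_lt_top.ne
  constructor
  · have hc : Continuous fun q : (ι → ℝ) × (ι → ℂ) × (ι → ι → ℂ) => E4_G F q 1 I := by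
      simpa only [Function.comp_def, id] using (E4_G_cont hF.continuous).comp
        (continuous_id.prodMk (continuous_const (y := ((1 : ℂ), I))))
    simpa only [E4_G_one, IntegrableOn] using E4_int hp hC hpC hc
  · refine ContinuousOn.integrableOn_compact hs.isCompact (Continuous.continuousOn ?_)
    exact hF.continuous.comp (continuous_pi fun i => by fun_prop)

theorem null_lagrangian_integrable {ι : Type} [Fintype ι] [DecidableEq ι] {F : (ι → ℂ) → ℂ}
    (hF : Differentiable ℂ F) {φ : (ι → ℝ) → ι → ℂ} {K : NNReal} (hφ : LipschitzWith K φ)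
    (hs : HasCompactSupport φ) :
    Integrable fun x : ι → ℝ => F (fun i => (x i : ℂ) + φ x i) *
      (1 + Matrix.of fun i j => fderiv ℝ φ x (Pi.single j 1) i : Matrix ι ι ℂ).det -
        F fun i => (x i : ℂ) := by
  obtain ⟨h1, h2⟩ := E4_on hF hφ hs
  refine (integrableOn_iff_integrable_of_support_subset (s := tsupport φ) ?_).1 (h1.sub h2)
  intro x hx
  by_contra h
  exact hx (E4_off F h)

theorem null_lagrangian {ι : Type} [Fintype ι] [DecidableEq ι] {F : (ι → ℂ) → ℂ}
    (hF : Differentiable ℂ F) {φ : (ι → ℝ) → ι → ℂ} {K : NNReal} (hφ : LipschitzWith K φ)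
    (hs : HasCompactSupport φ) :
    ∫ x : ι → ℝ, (F (fun i => (x i : ℂ) + φ x i) *
      (1 + Matrix.of fun i j => fderiv ℝ φ x (Pi.single j 1) i : Matrix ι ι ℂ).det -
        F fun i => (x i : ℂ)) = 0 := by
  obtain ⟨h1, h2⟩ := E4_on hF hφ hs
  rw [← setIntegral_eq_integral_of_forall_compl_eq_zero (s := tsupport φ)
    fun x hx => E4_off F hx, integral_sub h1 h2, sub_eq_zero]
  obtain ⟨hp, C, hC, hpC⟩ := E4_par hφ hs
  haveI : IsFiniteMeasure ((volume : Measure (ι → ℝ)).restrict (tsupport φ)) :=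
    isFiniteMeasure_restrict.2 hs.isCompact.measure_lt_top.ne
  obtain ⟨δ, hδ, hdet⟩ := E4_detpos ι
  have hK : (0 : ℝ) ≤ K := K.coe_nonneg
  have hm : 0 < min δ 1 := lt_min hδ one_pos
  obtain ⟨ε, hε, hεK⟩ : ∃ ε : ℝ, 0 < ε ∧ 2 * ε * K < min δ 1 := by
    refine ⟨min δ 1 / (2 * (K + 1)), by positivity, ?_⟩
    have : 2 * (min δ 1 / (2 * (K + 1))) * K = min δ 1 * (K / (K + 1)) := by field_simp
    rw [this]
    exact mul_lt_of_lt_one_right hm ((div_lt_one (by positivity)).2 (by linarith))
  have hS : MeasurableSet (tsupport φ ∩ {x | DifferentiableAt ℝ φ x}) :=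
    (isClosed_tsupport φ).measurableSet.inter (measurableSet_of_differentiableAt ℝ φ)
  have hN : volume (tsupport φ \ (tsupport φ ∩ {x | DifferentiableAt ℝ φ x})) = 0 := by
    have h := hφ.ae_differentiableAt (μ := volume)
    rw [ae_iff] at h
    exact measure_mono_null (fun x hx hx' => hx.2 ⟨hx.1, hx'⟩) h
  have hae : (tsupport φ ∩ {x | DifferentiableAt ℝ φ x} : Set (ι → ℝ)) =ᵐ[volume] tsupport φ := by
    rw [ae_eq_set]
    exact ⟨by rw [sdiff_eq_empty.2 inter_subset_left, measure_empty], hN⟩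
  have hreal : ∀ s t : ℝ, |s| < ε → |t| < ε →
      ∫ x in tsupport φ, E4_G F (x, φ x, fun j => fderiv ℝ φ x (Pi.single j 1)) s t =
        ∫ x in tsupport φ, F fun i => (x i : ℂ) := by
    intro s t hs' ht'
    have hL : ‖E4_L ι s t‖ * K < min δ 1 := by
      refine lt_of_le_of_lt ?_ hεK
      have := E4_L_norm (ι := ι) s t
      gcongr
      linarith
    have hψ : LipschitzWith (‖E4_L ι s t‖₊ * K) fun x => E4_L ι s t (φ x) :=
      (E4_L ι s t).lipschitz.comp hφ
    rw [← setIntegral_congr_set hae]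
    simp only [E4_G_real]
    refine E4_real hψ ?_ (fun x hx => ?_) hS inter_subset_left hN
      (D := fun x => (E4_L ι s t).comp (fderiv ℝ φ x))
      (fun x hx => (E4_L ι s t).hasFDerivAt.comp x hx.2.hasFDerivAt) (fun x _ => hdet _ ?_)
      fun y => F fun i => (y i : ℂ)
    · have : ‖E4_L ι s t‖ * K < 1 := hL.trans_le (min_le_right _ _)
      exact_mod_cast this
    · rw [image_eq_zero_of_notMem_tsupport hx, map_zero]
    · refine lt_of_le_of_lt ?_ (hL.trans_le (min_le_left _ _))
      refine (ContinuousLinearMap.opNorm_comp_le _ _).trans ?_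
      gcongr
      exact norm_fderiv_le_of_lipschitz ℝ hφ
  have hs1 : ∀ t : ℝ, |t| < ε →
      ∫ x in tsupport φ, E4_G F (x, φ x, fun j => fderiv ℝ φ x (Pi.single j 1)) 1 t =
        ∫ x in tsupport φ, F fun i => (x i : ℂ) := by
    intro t ht
    have hc : Continuous (Function.uncurry fun (q : (ι → ℝ) × (ι → ℂ) × (ι → ι → ℂ)) (s : ℂ) =>
        E4_G F q s t) := by
      simpa only [Function.comp_def, Function.uncurry_def] using (E4_G_cont hF.continuous).comp
        (continuous_fst.prodMk (continuous_snd.prodMk (continuous_const (y := (t : ℂ)))))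
    exact E4_identity (E4_entire hp hC hpC hc fun q =>
      E4_G_diff hF q differentiable_id (differentiable_const _)) hε (fun s hs' => hreal s t hs' ht) 1
  have hc : Continuous (Function.uncurry fun (q : (ι → ℝ) × (ι → ℂ) × (ι → ι → ℂ)) (t : ℂ) =>
      E4_G F q 1 t) := by
    simpa only [Function.comp_def, Function.uncurry_def] using (E4_G_cont hF.continuous).comp
      (continuous_fst.prodMk ((continuous_const (y := (1 : ℂ))).prodMk continuous_snd))
  have := E4_identity (E4_entire hp hC hpC hc fun q =>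
    E4_G_diff hF q (differentiable_const _) differentiable_id) hε hs1 I
  simpa only [E4_G_one] using this

end Pool.Agent.P.MP_2ff09b_gt
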