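import Pool.Agent.P.MP_2ff09b_gt.Triv

/-! CVX-E5. The nearest point projection on a convex set and its points of differentiability.
Sketch. exists_proj: work in EuclideanSpace ℂ (Fin n) as a real inner product space
(exists_norm_eq_iInf_of_complete_convex, norm_eq_iInf_iff_real_inner_le_zero); the variational
inequality at two points shows that p is 1-Lipschitz for the Euclidean norm. proj_pointwise: let
x = p z, q = id - p. (a) Every P v satisfies Lin because p (z + t v) is in K and equals
x + t P v + o(t). If the complex span of the range of P were proper, a nonzero α would kill it,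
against nondeg with β = 0; the set of a + i b with a, b in the range of P is a complex subspace.
(b) If x + ζ u is in K for all |ζ| <= 1, the variational inequality at z' gives
|⟨u, q z'⟩| <= re ⟨p z' - x, q z'⟩, which is at most O(t²) for z' = z + t v because
re ⟨p z' - x, q z⟩ <= 0; so ⟨u, q z⟩ = 0 and ⟨u, v - P v⟩ = 0 for all v, and nondeg with α = 0,
β = u gives u = 0. -/

open Set MeasureTheory Complex Filter Topology Metric

noncomputable section

namespace Pool.Agent.P.MP_2ff09b_gt

variable {n : ℕ}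

/-- The standard Hermitian form. -/
def E5h (a b : Fin n → ℂ) : ℂ := ∑ j, a j * (starRingEnd ℂ) (b j)

theorem E5h_add_left (a a' b : Fin n → ℂ) : E5h (a + a') b = E5h a b + E5h a' b := by
  simp [E5h, add_mul, Finset.sum_add_distrib]

theorem E5h_add_right (a b b' : Fin n → ℂ) : E5h a (b + b') = E5h a b + E5h a b' := by
  simp [E5h, mul_add, Finset.sum_add_distrib]

theorem E5h_smul_left (c : ℂ) (a b : Fin n → ℂ) : E5h (c • a) b = c * E5h a b := by
  simp [E5h, Finset.mul_sum, mul_assoc]

theorem E5h_smul_right (c : ℂ) (a b : Fin n → ℂ) :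
    E5h a (c • b) = (starRingEnd ℂ) c * E5h a b := by
  simp [E5h, Finset.mul_sum, mul_left_comm]

theorem E5h_comm (a b : Fin n → ℂ) : (E5h a b).re = (E5h b a).re := by
  simp [E5h, mul_comm]

theorem E5h_norm (a b : Fin n → ℂ) : ‖E5h a b‖ ≤ n * (‖a‖ * ‖b‖) := by
  refine (norm_sum_le _ _).trans ((Finset.sum_le_card_nsmul _ _ (‖a‖ * ‖b‖) fun j _ => ?_).trans ?_)
  · rw [norm_mul, RCLike.norm_conj]
    exact mul_le_mul (norm_le_pi_norm a j) (norm_le_pi_norm b j) (norm_nonneg _) (norm_nonneg _)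
  · simp

theorem E5h_self (a : Fin n → ℂ) : ‖a‖ ^ 2 ≤ (E5h a a).re := by
  have h1 : (E5h a a).re = ∑ j, ‖a j‖ ^ 2 := by
    simp only [E5h, Complex.re_sum, Complex.mul_conj, Complex.ofReal_re, Complex.normSq_eq_norm_sq]
  have h2 : 0 ≤ ∑ j, ‖a j‖ ^ 2 := Finset.sum_nonneg fun _ _ => sq_nonneg _
  rw [h1, ← Real.le_sqrt (norm_nonneg _) h2, pi_norm_le_iff_of_nonneg (Real.sqrt_nonneg _)]
  intro j
  exact Real.le_sqrt_of_sq_le
    (Finset.single_le_sum (f := fun j => ‖a j‖ ^ 2) (fun _ _ => sq_nonneg _) (Finset.mem_univ j))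

theorem E5_var {K : Set (Fin n → ℂ)} (hc : Convex ℝ K) {z x w : Fin n → ℂ} (hx : x ∈ K)
    (hw : w ∈ K) (h : IsMinOn (fun y => (E5h (z - y) (z - y)).re) K x) :
    (E5h (w - x) (z - x)).re ≤ 0 := by
  have key : ∀ t : ℝ, 0 < t → t ≤ 1 →
      2 * (E5h (w - x) (z - x)).re ≤ t * (E5h (w - x) (w - x)).re := by
    intro t h0 h1
    have h2 : (E5h (z - x) (z - x)).re ≤ (E5h (z - (x + t • (w - x))) (z - (x + t • (w - x)))).re :=
      h (hc.add_smul_sub_mem hx hw ⟨h0.le, h1⟩)
    have h3 : z - (x + t • (w - x)) = (z - x) + ((-t : ℝ) : ℂ) • (w - x) := by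
      rw [Complex.coe_smul, neg_smul]
      abel
    rw [h3, E5h_add_left, E5h_add_right, E5h_add_right, E5h_smul_left, E5h_smul_left,
      E5h_smul_right, E5h_smul_right, Complex.conj_ofReal] at h2
    simp only [Complex.add_re, Complex.re_ofReal_mul] at h2
    rw [E5h_comm (z - x) (w - x)] at h2
    nlinarith
  have lim : Tendsto (fun t : ℝ => t * (E5h (w - x) (w - x)).re) (𝓝[>] 0) (𝓝 0) := by
    have : Tendsto (fun t : ℝ => t * (E5h (w - x) (w - x)).re) (𝓝 0)
        (𝓝 (0 * (E5h (w - x) (w - x)).re)) := tendsto_id.mul_const _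
    rw [zero_mul] at this
    exact this.mono_left nhdsWithin_le_nhds
  have := ge_of_tendsto lim (by
    filter_upwards [Ioc_mem_nhdsGT (zero_lt_one' ℝ)] with t ht using key t ht.1 ht.2)
  linarith

theorem exists_proj {K : Set (Fin n → ℂ)} (hK : IsCompact K) (hc : Convex ℝ K) (hne : K.Nonempty) :
    ∃ (p : (Fin n → ℂ) → Fin n → ℂ) (L : NNReal), LipschitzWith L p ∧ (∀ z, p z ∈ K) ∧
      ∀ z, ∀ w ∈ K, (∑ j, (w j - p z j) * (starRingEnd ℂ) (z j - p z j)).re ≤ 0 := by
  have hcont : ∀ z : Fin n → ℂ, Continuous fun y => (E5h (z - y) (z - y)).re := fun z => by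
    unfold E5h
    fun_prop
  choose p hp hmin using fun z => hK.exists_isMinOn hne (hcont z).continuousOn
  have hv : ∀ z, ∀ w ∈ K, (E5h (w - p z) (z - p z)).re ≤ 0 := fun z w hw =>
    E5_var hc (hp z) hw (hmin z)
  refine ⟨p, n, LipschitzWith.of_dist_le_mul fun z z' => ?_, hp, hv⟩
  have h1 := hv z _ (hp z')
  have h2 := hv z' _ (hp z)
  have h3 : p z' - p z = (-1 : ℂ) • (p z - p z') := by simp
  have h4 : z - z' + (z' - p z') = p z - p z' + (z - p z) := by abel
  have h5 := congrArg (fun b => (E5h (p z - p z') b).re) h4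
  simp only [E5h_add_right, Complex.add_re] at h5
  rw [h3, E5h_smul_left, neg_one_mul, Complex.neg_re] at h1
  have h6 := E5h_self (p z - p z')
  have h7 := (Complex.re_le_norm _).trans (E5h_norm (p z - p z') (z - z'))
  rw [dist_eq_norm, dist_eq_norm, NNReal.coe_natCast]
  rcases (norm_nonneg (p z - p z')).eq_or_lt with h8 | h8
  · rw [← h8]
    positivity
  · refine le_of_mul_le_mul_left ?_ h8
    nlinarith

theorem proj_pointwise {K : Set (Fin n → ℂ)} {p : (Fin n → ℂ) → Fin n → ℂ} {L : NNReal}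
    (hL : LipschitzWith L p) (hm : ∀ z, p z ∈ K)
    (hv : ∀ z, ∀ w ∈ K, (∑ j, (w j - p z j) * (starRingEnd ℂ) (z j - p z j)).re ≤ 0)
    {z : Fin n → ℂ} {P : (Fin n → ℂ) →L[ℝ] (Fin n → ℂ)} (hP : HasFDerivAt p P z)
    (nondeg : ∀ α β : Fin n → ℂ,
      (∀ v, ∑ j, α j * P v j + ∑ j, β j * (starRingEnd ℂ) (v j - P v j) = 0) → α = 0 ∧ β = 0) :
    CExt K (p z) ∧ ∀ w, ∃ a b, Lin K (p z) a ∧ Lin K (p z) b ∧ w = a + I • b := by
  have hd : ∀ v, HasDerivAt (fun t : ℝ => p (z + t • v)) (P v) 0 := fun v => by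
    have h1 : HasDerivAt (fun t : ℝ => z + t • v) v 0 := by
      simpa using ((hasDerivAt_id (0 : ℝ)).smul_const v).const_add z
    exact HasFDerivAt.comp_hasDerivAt_of_eq (0 : ℝ) hP h1 (by simp)
  have hv' : ∀ z, ∀ w ∈ K, (E5h (w - p z) (z - p z)).re ≤ 0 := hv
  refine ⟨⟨hm z, fun u hu => (nondeg 0 u fun v => ?_).2⟩, fun w => ?_⟩
  · have h1 : ∀ y, ‖E5h u (y - p y)‖ ≤ (E5h (p y - p z) (y - p y)).re := fun y => by
      obtain ⟨ζ, h1, h2⟩ := exists_norm_eq_mul_self (E5h u (y - p y))
      have h3 := hv' y _ (hu ζ h1.le)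
      have h4 : p z + ζ • u - p y = ζ • u + (-1 : ℂ) • (p y - p z) := by
        rw [neg_one_smul]
        abel
      rw [h4, E5h_add_left, E5h_smul_left, E5h_smul_left, ← h2, neg_one_mul, Complex.add_re,
        Complex.neg_re, Complex.ofReal_re] at h3
      linarith
    have h2 : ∀ y, ‖E5h u (y - p y)‖ ≤ n * (L * (1 + L)) * ‖y - z‖ ^ 2 := fun y => by
      have h3 : y - p y = z - p z + (y - z - (p y - p z)) := by abel
      have h4 := hv' z _ (hm y)
      have h5 := (Complex.re_le_norm _).trans (E5h_norm (p y - p z) (y - z - (p y - p z)))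
      have h6 : ‖p y - p z‖ ≤ L * ‖y - z‖ := by
        simpa only [dist_eq_norm] using hL.dist_le_mul y z
      have h7 : ‖y - z - (p y - p z)‖ ≤ (1 + L) * ‖y - z‖ := by
        have := norm_sub_le (y - z) (p y - p z)
        linarith
      have h8 := mul_le_mul_of_nonneg_left (mul_le_mul h6 h7 (norm_nonneg _) (by positivity))
        (Nat.cast_nonneg (α := ℝ) n)
      refine (h1 y).trans ?_
      rw [h3, E5h_add_right, Complex.add_re]
      nlinarith
    have h3 : HasDerivAt (fun t : ℝ => E5h u (z + t • v - p (z + t • v))) (E5h u (v - P v)) 0 := by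
      have h4 : HasDerivAt (fun t : ℝ => z + t • v - p (z + t • v)) (v - P v) 0 := by
        simpa using (((hasDerivAt_id (0 : ℝ)).smul_const v).const_add z).fun_sub (hd v)
      exact HasDerivAt.fun_sum fun j _ => (hasDerivAt_pi.1 h4 j).star.const_mul (u j)
    have h4 : HasDerivAt (fun t : ℝ => E5h u (z + t • v - p (z + t • v))) 0 0 := by
      have h5 : E5h u (z - p z) = 0 := by simpa using h2 z
      rw [hasDerivAt_iff_isLittleO_nhds_zero]
      refine Asymptotics.IsBigO.trans_isLittleO (g := fun t : ℝ => t ^ 2)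
        (Asymptotics.IsBigO.of_bound (n * (L * (1 + L)) * ‖v‖ ^ 2)
          (Eventually.of_forall fun t => ?_)) (Asymptotics.isLittleO_pow_id one_lt_two)
      have h6 := h2 (z + t • v)
      rw [add_sub_cancel_left, norm_smul, mul_pow] at h6
      simp only [zero_add, zero_smul, add_zero, h5, smul_zero, sub_zero, norm_pow]
      linarith
    simpa [E5h] using h3.unique h4
  · have hlin : ∀ v, Lin K (p z) (P v) := fun v ε hε => by
      filter_upwards [(hasDerivAt_iff_isLittleO_nhds_zero.1 (hd v)).bound hε] with t ht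
      refine (infDist_le_dist_of_mem (hm (z + t • v))).trans ?_
      rw [dist_comm, dist_eq_norm, ← sub_sub]
      simpa using ht
    let S : Submodule ℂ (Fin n → ℂ) :=
      { carrier := {w | ∃ a b, w = P a + I • P b}
        zero_mem' := ⟨0, 0, by simp⟩
        add_mem' := by
          rintro _ _ ⟨a, b, rfl⟩ ⟨a', b', rfl⟩
          refine ⟨a + a', b + b', ?_⟩
          rw [map_add, map_add, smul_add]
          abel
        smul_mem' := by
          rintro c _ ⟨a, b, rfl⟩
          refine ⟨c.re • a - c.im • b, c.im • a + c.re • b, ?_⟩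
          rw [map_sub, map_add, map_smul, map_smul, map_smul, map_smul]
          ext j
          simp only [Pi.add_apply, Pi.sub_apply, Pi.smul_apply, smul_eq_mul, Complex.real_smul]
          conv_lhs => rw [← Complex.re_add_im c]
          linear_combination (c.im * P b j) * Complex.I_mul_I }
    have hS : S = ⊤ := by
      by_contra hne
      obtain ⟨φ, h0, hφ⟩ := S.exists_le_ker_of_lt_top (lt_top_iff_ne_top.2 hne)
      have h1 : ∀ w, φ w = ∑ j, φ (fun i => if j = i then 1 else 0) * w j := fun w => by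
        rw [LinearMap.pi_apply_eq_sum_univ]
        simp only [smul_eq_mul, mul_comm]
      have h2 := (nondeg (fun j => φ fun i => if j = i then 1 else 0) 0 fun v => by
        rw [← h1, LinearMap.mem_ker.1 (hφ ⟨v, 0, by simp⟩)]
        simp).1
      refine h0 (LinearMap.ext fun w => ?_)
      rw [h1]
      exact Finset.sum_eq_zero fun j _ => by rw [congrFun h2 j, Pi.zero_apply, zero_mul]
    obtain ⟨a, b, h⟩ : w ∈ S := hS ▸ Submodule.mem_top
    exact ⟨_, _, hlin a, hlin b, h⟩

end Pool.Agent.P.MP_2ff09b_gt
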