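import Pool.Agent.P.MP_2ff09b_gt.E4

/-! CVX-E6. The normal cycle integral: the projection is nondegenerate at some point.
Sketch. Use ι = Fin n ⊕ Fin n and the real linear equivalence e from (ι → ℝ) to (Fin n → ℂ),
e x j = x (inl j) + i x (inr j). For maps X, Y to (Fin n → ℂ) put u = (X + Y)/2, v = (X - Y)/(2 i);
for X = z, Y = conj z this is the real point x. Let F (u, v) = exp (-∑ (u_j² + v_j²)), so that
F = exp (-∑ X_j Y_j). Let τ(z) = max 0 (min 1 (R + 1 - ‖z‖)) (1 on the ball of radius R, 0 outside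
radius R + 1), q = z - p z, X = z - τ q, Y = conj (z - τ p z); φ is the difference of (u, v) and x,
Lipschitz with constant at most C (1 + R), compact support. Suppose nondeg fails at every point of
differentiability of p. On the open ball of radius R one has X = p, Y = conj q, so the rows of
1 + dφ are linearly dependent and the determinant vanishes almost everywhere. Everywhere
re ∑ X_j Y_j = (1 + s²) re ⟨p, q⟩ + s (|p|² + |q|²) with s = 1 - τ, and re ⟨p, q⟩ >= r ‖q‖ if the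
closed ball of radius r is in K, ‖q‖ >= ‖z‖ - C. So null_lagrangian gives that the integral of
exp (-|x|²) over the ball of radius R + 1 is at most C (1 + R)^(4 n) exp (-r R), which tends to 0
when n > 0; the case n = 0 is trivial. -/

open Set MeasureTheory Complex Filter Topology Metric

noncomputable section

namespace Pool.Agent.P.MP_2ff09b_gt

/-- Real coordinates. -/
def E6e (n : ℕ) : (Fin n ⊕ Fin n → ℝ) ≃L[ℝ] (Fin n → ℂ) :=
  LinearEquiv.toContinuousLinearEquiv
    { toFun := fun x j => x (.inl j) + x (.inr j) * I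
      invFun := fun z => Sum.elim (fun j => (z j).re) fun j => (z j).im
      map_add' := fun x y => by
        funext j
        simp only [Pi.add_apply, ofReal_add]
        ring
      map_smul' := fun c x => by
        funext j
        simp only [Pi.smul_apply, smul_eq_mul, ofReal_mul, RingHom.id_apply, real_smul]
        ring
      left_inv := fun x => by
        funext i
        rcases i with j | j <;> simp
      right_inv := fun z => by
        funext j
        simp }

theorem E6e_apply {n : ℕ} (x : Fin n ⊕ Fin n → ℝ) (j : Fin n) :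
    E6e n x j = x (.inl j) + x (.inr j) * I := rfl

/-- The displacement. -/
def E6T (n : ℕ) : ((Fin n → ℂ) × (Fin n → ℂ)) →L[ℝ] (Fin n ⊕ Fin n → ℂ) :=
  LinearMap.toContinuousLinearMap
    { toFun := fun y => Sum.elim
        (fun j => -(y.1 j - y.2 j + (starRingEnd ℂ) (y.2 j)) / 2)
        fun j => I * (y.1 j - y.2 j - (starRingEnd ℂ) (y.2 j)) / 2
      map_add' := fun x y => by
        funext i
        rcases i with j | j <;> simp <;> ring
      map_smul' := fun c x => by
        funext i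
        rcases i with j | j <;> simp <;> ring }

theorem E6_uv {n : ℕ} (x : Fin n ⊕ Fin n → ℝ) (w : Fin n → ℂ) (t : ℝ) (j : Fin n) :
    (x (.inl j) + (t • E6T n (E6e n x, w)) (.inl j)) +
        I * (x (.inr j) + (t • E6T n (E6e n x, w)) (.inr j)) =
      E6e n x j - t * (E6e n x j - w j) ∧
    (x (.inl j) + (t • E6T n (E6e n x, w)) (.inl j)) -
        I * (x (.inr j) + (t • E6T n (E6e n x, w)) (.inr j)) =
      (starRingEnd ℂ) (E6e n x j) - t * (starRingEnd ℂ) (w j) := by
  have h1 : (t • E6T n (E6e n x, w)) (.inl j) =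
      t * (-(E6e n x j - w j + (starRingEnd ℂ) (w j)) / 2) := rfl
  have h2 : (t • E6T n (E6e n x, w)) (.inr j) =
      t * (I * (E6e n x j - w j - (starRingEnd ℂ) (w j)) / 2) := rfl
  have h3 : (starRingEnd ℂ) (E6e n x j) = x (.inl j) - x (.inr j) * I := by
    rw [E6e_apply]
    simp [sub_eq_add_neg]
  rw [h1, h2, h3]
  have h4 := E6e_apply x j
  constructor
  · linear_combination -h4 + t * (E6e n x j - w j - (starRingEnd ℂ) (w j)) / 2 * I_mul_I
  · linear_combination -t * (E6e n x j - w j - (starRingEnd ℂ) (w j)) / 2 * I_mul_I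

theorem E6_re {n : ℕ} (x : Fin n ⊕ Fin n → ℝ) (w : Fin n → ℂ) {t r : ℝ} (ht : t ≤ 1) (hr : 0 ≤ r)
    (h : r ≤ (∑ j, w j * (starRingEnd ℂ) (E6e n x j - w j)).re) :
    r ≤ (∑ i, ((x i : ℂ) + (t • E6T n (E6e n x, w)) i) ^ 2).re := by
  have h1 : ∀ j, (((x (.inl j) : ℂ) + (t • E6T n (E6e n x, w)) (.inl j)) ^ 2 +
      ((x (.inr j) : ℂ) + (t • E6T n (E6e n x, w)) (.inr j)) ^ 2).re =
      (1 + (1 - t) ^ 2) * (w j * (starRingEnd ℂ) (E6e n x j - w j)).re +
        (1 - t) * (normSq (w j) + normSq (E6e n x j - w j)) := fun j => by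
    have h2 : ∀ a b : ℂ, a ^ 2 + b ^ 2 = (a + I * b) * (a - I * b) := fun a b => by
      linear_combination b ^ 2 * I_mul_I
    rw [h2, (E6_uv x w t j).1, (E6_uv x w t j).2]
    simp [normSq_apply]
    ring
  rw [Fintype.sum_sum_type, ← Finset.sum_add_distrib, re_sum, Finset.sum_congr rfl fun j _ => h1 j,
    Finset.sum_add_distrib, ← Finset.mul_sum, ← Finset.mul_sum, ← re_sum]
  have h3 : 0 ≤ ∑ j, (normSq (w j) + normSq (E6e n x j - w j)) :=
    Finset.sum_nonneg fun j _ => add_nonneg (normSq_nonneg _) (normSq_nonneg _)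
  have h4 := mul_nonneg (sub_nonneg.2 ht) h3
  have h5 := mul_nonneg (sq_nonneg (1 - t)) (hr.trans h)
  linarith

theorem E6_det {n : ℕ} (P : (Fin n → ℂ) →L[ℝ] (Fin n → ℂ)) {α β : Fin n → ℂ}
    (h : ∀ v, ∑ j, α j * P v j + ∑ j, β j * (starRingEnd ℂ) (v j - P v j) = 0)
    (hne : ¬ (α = 0 ∧ β = 0)) :
    (1 + Matrix.of fun i j => E6T n (E6e n (Pi.single j 1), P (E6e n (Pi.single j 1))) i :
      Matrix (Fin n ⊕ Fin n) (Fin n ⊕ Fin n) ℂ).det = 0 := by
  refine Matrix.exists_vecMul_eq_zero_iff.1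
    ⟨Sum.elim (α + β) (I • (α - β)), fun h0 => hne ?_, funext fun k => ?_⟩
  · have h1 : α + β = 0 := funext fun j => congrFun h0 (.inl j)
    have h2 : I • (α - β) = 0 := funext fun j => congrFun h0 (.inr j)
    have h3 : α = β := sub_eq_zero.1 ((smul_eq_zero.1 h2).resolve_left I_ne_zero)
    rw [h3, ← two_smul ℂ, smul_eq_zero] at h1
    have h4 := h1.resolve_left two_ne_zero
    exact ⟨h3.trans h4, h4⟩
  · have h1 : ∀ i, (1 + Matrix.of fun i j =>
        E6T n (E6e n (Pi.single j 1), P (E6e n (Pi.single j 1))) i :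
          Matrix (Fin n ⊕ Fin n) (Fin n ⊕ Fin n) ℂ) i k =
        (((Pi.single k 1 : Fin n ⊕ Fin n → ℝ) i : ℝ) : ℂ) +
          ((1 : ℝ) • E6T n (E6e n (Pi.single k 1), P (E6e n (Pi.single k 1)))) i := fun i => by
      rw [one_smul, Matrix.add_apply, Matrix.of_apply, Matrix.one_apply, Pi.single_apply]
      split_ifs <;> simp
    rw [Pi.zero_apply, ← h (E6e n (Pi.single k 1)), Matrix.vecMul, dotProduct,
      Fintype.sum_sum_type, ← Finset.sum_add_distrib, ← Finset.sum_add_distrib]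
    refine Finset.sum_congr rfl fun j _ => ?_
    obtain ⟨h2, h3⟩ := E6_uv (Pi.single k 1) (P (E6e n (Pi.single k 1))) 1 j
    rw [h1, h1, map_sub]
    simp only [Sum.elim_inl, Sum.elim_inr, Pi.add_apply, Pi.smul_apply, Pi.sub_apply,
      smul_eq_mul, ofReal_one] at h2 h3 ⊢
    linear_combination α j * h2 + β j * h3

theorem E6_lip {X Y : Type*} [PseudoMetricSpace X] [NormedAddCommGroup Y] [NormedSpace ℝ Y]
    {τ : X → ℝ} {ψ : X → Y} {A B : NNReal} {M : ℝ} (hM0 : 0 ≤ M) (hτ : LipschitzWith A τ)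
    (hτ1 : ∀ x, |τ x| ≤ 1) (hψ : LipschitzWith B ψ) (hM : ∀ x, τ x ≠ 0 → ‖ψ x‖ ≤ M) :
    ∃ K, LipschitzWith K fun x => τ x • ψ x := by
  have key : ∀ x y, τ y ≠ 0 → dist (τ x • ψ x) (τ y • ψ y) ≤ (B + A * M) * dist x y :=
    fun x y hy => by
    have h1 : τ x • ψ x - τ y • ψ y = τ x • (ψ x - ψ y) + (τ x - τ y) • ψ y := by
      rw [smul_sub, sub_smul]
      abel
    have h2 := hψ.dist_le_mul x y
    have h3 := hτ.dist_le_mul x y
    rw [dist_eq_norm] at h2 h3
    rw [dist_eq_norm, h1]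
    refine (norm_add_le _ _).trans ?_
    rw [norm_smul, norm_smul]
    have h4 := mul_le_mul (hτ1 x) h2 (norm_nonneg _) zero_le_one
    have h5 := mul_le_mul h3 (hM y hy) (norm_nonneg _) (by positivity)
    rw [Real.norm_eq_abs (τ x)]
    linarith
  refine ⟨⟨B + A * M, by positivity⟩, LipschitzWith.of_dist_le_mul fun x y => ?_⟩
  by_cases hy : τ y = 0
  · by_cases hx : τ x = 0
    · simp only [hx, hy, zero_smul, dist_self]
      positivity
    · rw [dist_comm, dist_comm x]
      exact key y x hx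
  · exact key x y hy

theorem E6_lower {n : ℕ} {K : Set (Fin n → ℂ)} {r : ℝ} (hr : 0 < r) (hK : closedBall 0 r ⊆ K)
    {w q : Fin n → ℂ} (hq : 1 ≤ ‖q‖)
    (hv : ∀ y ∈ K, (∑ j, (y j - w j) * (starRingEnd ℂ) (q j)).re ≤ 0) :
    r ≤ (∑ j, w j * (starRingEnd ℂ) (q j)).re := by
  have h0 : 0 < ‖q‖ := zero_lt_one.trans_le hq
  have h1 := hv (((r / ‖q‖ : ℝ) : ℂ) • q) (hK (by
    rw [mem_closedBall_zero_iff, norm_smul, norm_real, Real.norm_of_nonneg (by positivity),
      div_mul_cancel₀ _ h0.ne']))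
  have h2 : ‖q‖ ^ 2 ≤ ∑ j, ‖q j‖ ^ 2 := by
    have h3 : 0 ≤ ∑ j, ‖q j‖ ^ 2 := by positivity
    refine (Real.le_sqrt h0.le h3).1 ((pi_norm_le_iff_of_nonneg (Real.sqrt_nonneg _)).2 fun j =>
      Real.le_sqrt_of_sq_le ?_)
    exact Finset.single_le_sum (f := fun j => ‖q j‖ ^ 2) (fun _ _ => by positivity)
      (Finset.mem_univ j)
  have h3 : (∑ j, ((((r / ‖q‖ : ℝ) : ℂ) • q) j - w j) * (starRingEnd ℂ) (q j)).re =
      r / ‖q‖ * ∑ j, ‖q j‖ ^ 2 - (∑ j, w j * (starRingEnd ℂ) (q j)).re := by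
    rw [re_sum, re_sum, Finset.mul_sum, ← Finset.sum_sub_distrib]
    refine Finset.sum_congr rfl fun j _ => ?_
    rw [Pi.smul_apply, smul_eq_mul, sub_mul, sub_re, mul_assoc, mul_conj', re_ofReal_mul,
      ← ofReal_pow, ofReal_re]
  rw [h3] at h1
  have h4 := mul_le_mul_of_nonneg_left h2 (div_pos hr h0).le
  have h5 : r / ‖q‖ * ‖q‖ ^ 2 = r * ‖q‖ := by field_simp
  nlinarith

theorem exists_nondeg {n : ℕ} {K : Set (Fin n → ℂ)} (hK : IsCompact K) (h0 : 0 ∈ interior K)
    {p : (Fin n → ℂ) → Fin n → ℂ} {L : NNReal} (hL : LipschitzWith L p) (hm : ∀ z, p z ∈ K)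
    (hv : ∀ z, ∀ w ∈ K, (∑ j, (w j - p z j) * (starRingEnd ℂ) (z j - p z j)).re ≤ 0) :
    ∃ (z : Fin n → ℂ) (P : (Fin n → ℂ) →L[ℝ] (Fin n → ℂ)), HasFDerivAt p P z ∧
      ∀ α β : Fin n → ℂ,
        (∀ v, ∑ j, α j * P v j + ∑ j, β j * (starRingEnd ℂ) (v j - P v j) = 0) →
          α = 0 ∧ β = 0 := by
  by_contra hcon
  obtain ⟨r, hr, hrK⟩ := nhds_basis_closedBall.mem_iff.1 (mem_interior_iff_mem_nhds.1 h0)
  obtain ⟨C, hC0, hC⟩ := hK.isBounded.exists_pos_norm_le
  have he := (E6e n : (Fin n ⊕ Fin n → ℝ) →L[ℝ] (Fin n → ℂ)).lipschitz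
  have hec := (E6e n).continuous
  obtain ⟨ψ, hψ⟩ : ∃ ψ : (Fin n ⊕ Fin n → ℝ) → Fin n ⊕ Fin n → ℂ,
      ψ = fun x => E6T n (E6e n x, p (E6e n x)) := ⟨_, rfl⟩
  obtain ⟨τ, hτ⟩ : ∃ τ : (Fin n ⊕ Fin n → ℝ) → ℝ,
      τ = fun x => max (min (C + 2 - ‖E6e n x‖) 1) 0 := ⟨_, rfl⟩
  obtain ⟨B, hB⟩ : ∃ B : Set (Fin n ⊕ Fin n → ℝ), B = E6e n ⁻¹' closedBall 0 (C + 2) := ⟨_, rfl⟩
  have hBc : IsCompact B := hB ▸ (E6e n).toHomeomorph.isCompact_preimage.2 (isCompact_closedBall _ _)
  have hτ0 : ∀ x ∉ B, τ x = 0 := fun x hx => by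
    rw [hB, mem_preimage, mem_closedBall_zero_iff, not_le] at hx
    rw [hτ]
    exact max_eq_right ((min_le_left _ _).trans (by linarith))
  have hτ1 : ∀ x, ‖E6e n x‖ < C + 1 → τ x = 1 := fun x hx => by
    rw [hτ]
    simp only
    rw [min_eq_right (by linarith), max_eq_left zero_le_one]
  have hτ2 : ∀ x, 0 ≤ τ x ∧ τ x ≤ 1 := fun x => by
    rw [hτ]
    exact ⟨le_max_right _ _, max_le (min_le_right _ _) zero_le_one⟩
  obtain ⟨A₀, hψl⟩ : ∃ A₀, LipschitzWith A₀ ψ := by
    rw [hψ]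
    exact ⟨_, (E6T n).lipschitz.comp (he.prodMk (hL.comp he))⟩
  obtain ⟨M, hM0, hM⟩ := (hBc.image hψl.continuous).isBounded.exists_pos_norm_le
  obtain ⟨A, hA⟩ := E6_lip (τ := τ) (ψ := ψ) hM0.le
    (hτ ▸ (((LipschitzWith.const (C + 2)).sub (lipschitzWith_one_norm.comp he)).min_const
      1).max_const 0)
    (fun x => abs_le.2 ⟨by linarith [(hτ2 x).1], (hτ2 x).2⟩) hψl
    fun x hx => hM _ (mem_image_of_mem _ (by_contra fun h => hx (hτ0 x h)))
  have hs : HasCompactSupport fun x => τ x • ψ x :=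
    HasCompactSupport.intro hBc fun x hx => by rw [hτ0 x hx, zero_smul]
  obtain ⟨d, hd⟩ : ∃ d : (Fin n ⊕ Fin n → ℝ) → ℂ, d = fun x => (1 + Matrix.of fun i j =>
      fderiv ℝ (fun x => τ x • ψ x) x (Pi.single j 1) i :
        Matrix (Fin n ⊕ Fin n) (Fin n ⊕ Fin n) ℂ).det := ⟨_, rfl⟩
  obtain ⟨Q, hQ⟩ : ∃ Q : ℝ, ∀ x, ‖d x‖ ≤ Q := by
    rw [hd]
    refine ⟨_, fun x => Matrix.det_le (abv := NormedField.toAbsoluteValue ℂ) (x := 1 + A)
      fun i j => ?_⟩
    rw [Matrix.add_apply, Matrix.of_apply]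
    change ‖(_ + _ : ℂ)‖ ≤ _
    refine (norm_add_le _ _).trans (add_le_add ?_ ?_)
    · rw [Matrix.one_apply]
      split_ifs <;> simp
    · refine (norm_le_pi_norm _ i).trans ((ContinuousLinearMap.le_opNorm _ _).trans ?_)
      rw [Pi.norm_single, norm_one, mul_one]
      exact norm_fderiv_le_of_lipschitz ℝ hA
  have hd0 : ∀ᵐ x, ‖E6e n x‖ < C + 1 → d x = 0 := by
    filter_upwards [(hL.comp he).ae_differentiableAt (μ := volume)] with x hx hx'
    have h1 : DifferentiableAt ℝ p (E6e n x) := (E6e n).comp_right_differentiableAt_iff.1 hx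
    have h2 : ¬ ∀ α β : Fin n → ℂ, (∀ v, ∑ j, α j * fderiv ℝ p (E6e n x) v j +
        ∑ j, β j * (starRingEnd ℂ) (v j - fderiv ℝ p (E6e n x) v j) = 0) → α = 0 ∧ β = 0 :=
      fun h => hcon ⟨_, _, h1.hasFDerivAt, h⟩
    simp only [not_forall] at h2
    obtain ⟨α, β, h3, h4⟩ := h2
    have h5 : (fun x => τ x • ψ x) =ᶠ[𝓝 x] ψ := by
      filter_upwards [(isOpen_lt hec.norm continuous_const).mem_nhds hx'] with y hy
      rw [hτ1 y hy, one_smul]
    have h6 := (E6T n).hasFDerivAt.comp x ((E6e n).hasFDerivAt.prodMk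
      (h1.hasFDerivAt.comp x (E6e n).hasFDerivAt))
    have h7 : HasFDerivAt (fun x => E6T n (E6e n x, p (E6e n x))) _ x := h6
    rw [hd]
    simp only
    rw [h5.fderiv_eq, hψ, h7.fderiv]
    exact E6_det _ h3 h4
  obtain ⟨S, hS⟩ : ∃ S : Set (Fin n ⊕ Fin n → ℝ),
      S = {x | ∑ i, x i ^ 2 < r / 2} ∩ {x | ‖E6e n x‖ < C + 1} := ⟨_, rfl⟩
  have hSo : IsOpen S :=
    hS ▸ (isOpen_lt (by fun_prop) continuous_const).inter (isOpen_lt hec.norm continuous_const)
  have hSB : S ⊆ B := fun x hx => by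
    rw [hS] at hx
    rw [hB, mem_preimage, mem_closedBall_zero_iff]
    linarith [show ‖E6e n x‖ < C + 1 from hx.2]
  have hSf : volume S ≠ ⊤ := ((measure_mono hSB).trans_lt hBc.measure_lt_top).ne
  have hSp : 0 < volume.real S := ENNReal.toReal_pos (hSo.measure_pos volume ⟨0, by
    rw [hS]
    constructor
    · simpa using hr
    · simp only [mem_ofPred_eq, map_zero, norm_zero]
      linarith⟩).ne' hSf
  have key : ∀ l : ℝ, 0 ≤ l → volume.real S ≤ Q * volume.real B * Real.exp (-(l * r / 2)) :=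
    fun l hl => by
    have hF : Differentiable ℂ fun y : Fin n ⊕ Fin n → ℂ => cexp (-(l * ∑ i, y i ^ 2)) := by
      fun_prop
    have i1 := (null_lagrangian_integrable hF hA hs).re
    have i2 := null_lagrangian hF hA hs
    have i3 := integral_re (null_lagrangian_integrable hF hA hs)
    have j1 : Integrable (B.indicator fun _ => Q * Real.exp (-(l * r))) :=
      (integrableOn_const hBc.measure_lt_top.ne).integrable_indicator hBc.measurableSet
    have j2 : Integrable (S.indicator fun _ => Real.exp (-(l * r / 2))) :=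
      (integrableOn_const hSf).integrable_indicator hSo.measurableSet
    have i4 := integral_mono_ae i1 (j1.sub j2) (by
      filter_upwards [hd0] with x hx
      by_cases hxB : x ∈ B
      · have h1 : (cexp (-(l * ∑ i, ((x i : ℂ) + (τ x • ψ x) i) ^ 2)) * d x).re ≤
            Q * Real.exp (-(l * r)) := by
          by_cases hx' : ‖E6e n x‖ < C + 1
          · rw [hx hx', mul_zero, zero_re]
            exact mul_nonneg ((norm_nonneg _).trans (hQ x)) (Real.exp_pos _).le
          · refine (re_le_norm _).trans ?_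
            rw [norm_mul, mul_comm, norm_exp, neg_re, re_ofReal_mul]
            refine mul_le_mul (hQ x) (Real.exp_le_exp.2 (neg_le_neg
              (mul_le_mul_of_nonneg_left ?_ hl))) (Real.exp_pos _).le ((norm_nonneg _).trans (hQ x))
            rw [hψ]
            refine E6_re x _ (hτ2 x).2 hr.le
              (E6_lower (q := E6e n x - p (E6e n x)) hr hrK ?_ (hv _))
            linarith [norm_sub_norm_le (E6e n x) (p (E6e n x)), hC _ (hm (E6e n x))]
        have h2 : S.indicator (fun _ => Real.exp (-(l * r / 2))) x ≤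
            (cexp (-(l * ∑ i, (x i : ℂ) ^ 2))).re := by
          have h3 : cexp (-(l * ∑ i, (x i : ℂ) ^ 2)) = (Real.exp (-(l * ∑ i, x i ^ 2)) : ℝ) := by
            push_cast
            rfl
          rw [h3, ofReal_re]
          refine indicator_apply_le' (fun hx' => Real.exp_le_exp.2 ?_) fun _ => (Real.exp_pos _).le
          rw [hS] at hx'
          have h4 := mul_le_mul_of_nonneg_left (le_of_lt hx'.1) hl
          linarith
        rw [hd] at h1
        simp only [Pi.sub_apply, indicator_of_mem hxB, RCLike.re_to_complex, sub_re]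
        exact sub_le_sub h1 h2
      · have h5 : (fun x => τ x • ψ x) =ᶠ[𝓝 x] fun _ => 0 := by
          filter_upwards [hBc.isClosed.isOpen_compl.mem_nhds hxB] with y hy
          rw [hτ0 y hy, zero_smul]
        have h6 : (Matrix.of fun (i j : Fin n ⊕ Fin n) => (0 : ℂ)) = 0 := rfl
        simp [h5.fderiv_eq, hτ0 x hxB, hxB, mt (@hSB x) hxB, h6])
    rw [i3, i2, integral_sub' j1 j2, integral_indicator_const _ hBc.measurableSet,
      integral_indicator_const _ hSo.measurableSet, smul_eq_mul, smul_eq_mul, map_zero] at i4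
    refine le_of_mul_le_mul_right ?_ (Real.exp_pos (-(l * r / 2)))
    rw [mul_assoc, ← Real.exp_add, show -(l * r / 2) + -(l * r / 2) = -(l * r) by ring]
    linarith
  have lim : Tendsto (fun l : ℝ => Q * volume.real B * Real.exp (-(l * r / 2))) atTop (𝓝 0) := by
    have := (Real.tendsto_exp_neg_atTop_nhds_zero.comp
      ((tendsto_id.atTop_mul_const hr).atTop_div_const two_pos)).const_mul (Q * volume.real B)
    simpa using this
  exact hSp.not_ge (ge_of_tendsto lim ((eventually_ge_atTop 0).mono key))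

end Pool.Agent.P.MP_2ff09b_gt
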