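import Pool.Agent.P.MP_2ff09b_gt.E5
import Pool.Agent.P.MP_2ff09b_gt.E6
import Pool.Agent.P.MP_2ff09b_gt.A4

/-! CVX-E7. A good boundary point exists.
Sketch. exists_cext_lin: transport by a continuous linear equivalence E ≃ (Fin n → ℂ)
(ContinuousLinearEquiv.ofFinrankEq) and a translation sending o to 0; apply exists_proj,
exists_nondeg, proj_pointwise to the image of closure D; CExt and Lin are invariant.
good_of_lin: first, for every δ0 > 0, for p in D near x every admissible δ is < δ0 when v is nonzero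
(otherwise pass to the limit, CExt). To show that a point y is in D use BCD.exists_sep with l
normalised to norm 1 and h = sup of re l on D, a(p) = h - re (l p) > 0; δ |l v| <= a(p);
a(o) >= c0. From Lin: if a(x) <= η then |re l a|, |re l v| <= 2 ε', so re l (i v) <= -c0/2, hence
|l v| >= c0/2 and R δ |re l v| < a(p). If a(x) > η then a(p) >= η/2 > R δ ‖v‖.
ne_zero_of_lin: x is not in D (CExt, Nontrivial), separate x from D; re l a = 0 by Lin. -/

open Set MeasureTheory Complex Filter Topology Metric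

noncomputable section

namespace Pool.Agent.P.MP_2ff09b_gt

variable {E : Type*} [NormedAddCommGroup E] [NormedSpace ℂ E] [FiniteDimensional ℂ E] {D : Set E}


omit [FiniteDimensional ℂ E] in
theorem E7_lin (hD : D.Nonempty) {x a : E} (ha : Lin (closure D) x a) {ε : ℝ} (hε : 0 < ε) :
    ∀ᶠ t : ℝ in 𝓝[>] 0, ∀ (l : E →L[ℂ] ℂ) (h : ℝ), (∀ w ∈ D, (l w).re < h) →
      t * |(l a).re| ≤ h - (l x).re + ε * t * ‖l‖ := by
  have h1 : ∀ᶠ t : ℝ in 𝓝[≠] 0, ∀ (l : E →L[ℂ] ℂ) (h : ℝ), (∀ w ∈ D, (l w).re < h) →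
      t * (l a).re ≤ h - (l x).re + ε * |t| * ‖l‖ := by
    filter_upwards [mem_nhdsWithin_of_mem_nhds (ha _ (half_pos hε)), self_mem_nhdsWithin]
      with t ht t0 l h hl
    have h2 := mul_lt_mul_of_pos_right (half_lt_self hε) (abs_pos.2 t0)
    rw [infDist_closure] at ht
    obtain ⟨w, hw, h3⟩ := (infDist_lt_iff hD).1 (ht.trans_lt h2)
    have h4 := (re_le_norm _).trans (l.le_of_opNorm_le_of_le le_rfl (dist_eq_norm _ w ▸ h3.le))
    rw [map_sub, map_add, l.map_smul_of_tower, sub_re, add_re, smul_re, smul_eq_mul] at h4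
    linarith [hl w hw]
  have h2 : Tendsto (fun t : ℝ => -t) (𝓝[>] 0) (𝓝[≠] 0) := tendsto_neg_nhdsGT.mono_right (by simpa using nhdsLT_le_nhdsNE (0 : ℝ))
  filter_upwards [nhdsGT_le_nhdsNE 0 h1, h2.eventually h1, self_mem_nhdsWithin] with t h3 h4 t0 l h hl
  specialize h3 l h hl
  specialize h4 l h hl
  rw [abs_neg] at h4
  rw [abs_of_pos t0] at h3 h4
  rcases abs_cases (l a).re with e | e <;> rw [e.1] <;> linarith

omit [FiniteDimensional ℂ E] in
theorem E7_disc {p v : E} {δ h : ℝ} (hp : ∀ ζ : ℂ, ‖ζ‖ ≤ 1 → p + (ζ * δ) • v ∈ D)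
    {l : E →L[ℂ] ℂ} (hl : ∀ w ∈ D, (l w).re < h) : δ * ‖l v‖ ≤ h - (l p).re := by
  obtain ⟨ζ, h1, h2⟩ := Complex.exists_norm_eq_mul_self (l v)
  have := hl _ (hp ζ h1.le)
  rw [map_add, map_smul, smul_eq_mul, mul_right_comm, ← h2, add_re, ← ofReal_mul, ofReal_re] at this
  linarith

omit [FiniteDimensional ℂ E] in
theorem E7_small {x v : E} (hx : CExt (closure D) x) (hv : v ≠ 0) {d : ℝ} (hd : 0 < d) :
    ∀ᶠ p in 𝓝 x, ∀ δ : ℝ, (∀ ζ : ℂ, ‖ζ‖ ≤ 1 → p + (ζ * δ) • v ∈ D) → δ < d := by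
  by_contra h
  refine smul_ne_zero (ofReal_ne_zero.2 hd.ne') hv (hx.2 ((d : ℂ) • v) fun ζ hζ => ?_)
  refine mem_closure_of_frequently_of_tendsto (f := fun p => p + ζ • (d : ℂ) • v)
    ((not_eventually.1 h).mono fun p hp => ?_) (continuous_add_const _).continuousAt
  push Not at hp
  obtain ⟨δ, h1, h2⟩ := hp
  have h3 := hd.trans_le h2
  have := h1 (ζ * (d / δ : ℝ)) (by
    rw [norm_mul, norm_real, Real.norm_of_nonneg (by positivity)]
    exact mul_le_one₀ hζ (by positivity) ((div_le_one h3).2 h2))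
  rwa [mul_assoc, ← ofReal_mul, div_mul_cancel₀ _ h3.ne', mul_smul] at this

theorem exists_cext_lin (hD : BCD D) : ∃ x, CExt (closure D) x ∧
    ∀ w, ∃ a b, Lin (closure D) x a ∧ Lin (closure D) x b ∧ w = a + I • b := by
  obtain ⟨o, ho⟩ := hD.nonempty
  have := FiniteDimensional.proper ℂ E
  let T : (Fin (Module.finrank ℂ E) → ℂ) ≃L[ℂ] E := ContinuousLinearEquiv.ofFinrankEq (by simp)
  let g := T.toHomeomorph.trans (Homeomorph.addLeft o)
  have hg : ∀ y, g y = o + T y := fun _ => rfl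
  have hK : IsCompact (g ⁻¹' closure D) := g.isCompact_preimage.2 hD.bounded.isCompact_closure
  have h0 : 0 ∈ interior (g ⁻¹' closure D) := mem_interior_iff_mem_nhds.2 <|
    g.continuous.continuousAt.preimage_mem_nhds <| by
      rw [hg, map_zero, add_zero]
      exact mem_of_superset (hD.isOpen.mem_nhds ho) subset_closure
  have hne : (g ⁻¹' closure D).Nonempty := ⟨0, interior_subset h0⟩
  obtain ⟨p, L, hL, hm, hv⟩ := exists_proj hK ((hD.convex.closure.translate_preimage_right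
    o).linear_preimage (T.toLinearMap.restrictScalars ℝ)) hne
  obtain ⟨z, P, hP, hn⟩ := exists_nondeg hK h0 hL hm hv
  obtain ⟨h1, h2⟩ := proj_pointwise hL hm hv hP hn
  have key : ∀ a, Lin (g ⁻¹' closure D) (p z) a → Lin (closure D) (g (p z)) (T a) := by
    intro a ha ε hε
    have hC : 0 < ‖T.toContinuousLinearMap‖ + 1 := by positivity
    filter_upwards [ha _ (div_pos hε hC)] with t ht
    obtain ⟨w, hw, e⟩ := hK.exists_infDist_eq_dist hne (p z + t • a)
    rw [e, dist_eq_norm, div_mul_eq_mul_div, le_div_iff₀' hC] at ht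
    refine (infDist_le_dist_of_mem (y := g w) hw).trans (le_trans ?_ ht)
    rw [hg, hg, add_assoc, dist_add_left, dist_eq_norm,
      ← show T (t • a) = t • T a from T.map_smul_of_tower t a, ← map_add, ← map_sub]
    exact T.toContinuousLinearMap.le_of_opNorm_le (le_add_of_nonneg_right zero_le_one) _
  refine ⟨g (p z), ⟨h1.1, fun v h => ?_⟩, fun w => ?_⟩
  · refine T.symm.map_eq_zero_iff.1 (h1.2 _ fun ζ hζ => ?_)
    simpa [hg, add_assoc] using h ζ hζ
  · obtain ⟨a, b, ha, hb, e⟩ := h2 (T.symm w)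
    exact ⟨T a, T b, key a ha, key b hb, by rw [← map_smul, ← map_add, ← e, T.apply_symm_apply]⟩

theorem good_of_lin (hD : BCD D) {x o a v : E} (hx : CExt (closure D) x) (ho : o ∈ D)
    (ha : Lin (closure D) x a) (hv : Lin (closure D) x v) (h : o - x = a + I • v) (hv0 : v ≠ 0) :
    Good D x v := by
  intro R hR
  obtain ⟨r, hr, hb⟩ := nhds_basis_closedBall.mem_iff.1 (hD.isOpen.mem_nhds ho)
  obtain ⟨ε, hε, rfl⟩ : ∃ ε, 0 < ε ∧ r = (2 * R + 4) * ε :=
    ⟨r / (2 * R + 4), by positivity, by field_simp⟩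
  obtain ⟨t, ⟨h1, h2⟩, t0, t1⟩ := (((E7_lin hD.nonempty ha hε).and
    (E7_lin hD.nonempty hv hε)).and (Ioo_mem_nhdsGT one_pos)).exists
  have hv1 := norm_pos_iff.2 hv0
  filter_upwards [mem_nhdsWithin_of_mem_nhds (E7_small hx hv0 (d := ε * t / 2 / (R * ‖v‖))
    (by positivity)), mem_nhdsWithin_of_mem_nhds (closedBall_mem_nhds x (ε := ε * t / 2)
    (by positivity)), self_mem_nhdsWithin] with p h3 h4 hp δ hδ h5
  have key : ∀ c : ℂ, ‖c‖ = R * δ → 0 ≤ c.im → p + c • v ∈ D := by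
    intro c c1 c2
    by_contra hy
    obtain ⟨l, hl, -⟩ := hD.exists_sep hy
    have e : (l (p + c • v)).re - (l p).re = (c * l v).re := by simp
    generalize (l (p + c • v)).re = H at hl e
    have hN : ‖l‖ ≤ (H - (l o).re) / ((2 * R + 4) * ε) := by
      refine l.opNorm_le_of_unit_norm (div_nonneg (sub_pos.2 (hl o ho)).le hr.le) fun u hu => ?_
      rw [le_div_iff₀' hr]
      refine E7_disc (fun ζ hζ => hb ?_) hl
      rw [add_mem_closedBall_iff_norm, norm_smul, hu, mul_one, norm_mul, norm_real,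
        Real.norm_of_nonneg hr.le]
      exact mul_le_of_le_one_left hr.le hζ
    rw [le_div_iff₀' hr] at hN
    have h6 := sub_pos.2 (hl p hp)
    have h7 := l.le_opNorm v
    rcases le_or_gt (H - (l x).re) (ε * t * ‖l‖) with h8 | h8
    · have a1 : |(l a).re| ≤ 2 * ε * ‖l‖ := le_of_mul_le_mul_left (by linarith [h1 l H hl]) t0
      have a2 : |(l v).re| ≤ 2 * ε * ‖l‖ := le_of_mul_le_mul_left (by linarith [h2 l H hl]) t0
      have a3 : (l o).re - (l x).re = (l a).re - (l v).im := by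
        rw [← sub_re, ← map_sub, h]
        simp [sub_eq_add_neg]
      have a0 : 0 ≤ ε * ‖l‖ := by positivity
      have a4 : (2 * R + 1) * (ε * ‖l‖) ≤ (l v).im := by
        nlinarith [neg_abs_le (l a).re, mul_le_mul_of_nonneg_left t1.le a0]
      have a5 : 0 ≤ (l v).im := le_trans (by positivity) a4
      have a6 : c.re * (l v).re ≤ R * δ * (2 * ε * ‖l‖) := by
        refine (le_abs_self _).trans ?_
        rw [abs_mul, ← c1]
        exact mul_le_mul (abs_re_le_norm c) a2 (abs_nonneg _) (norm_nonneg _)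
      have a7 := (mul_le_mul_of_nonneg_left (a4.trans (im_le_norm _)) hδ.le).trans (E7_disc h5 hl)
      rw [mul_re] at e
      have a8 : ε * ‖l‖ ≤ 0 := le_of_mul_le_mul_left (by nlinarith [mul_nonneg c2 a5]) hδ
      nlinarith [mul_nonneg c2 a5, mul_pos hR hδ]
    · have a1 := (re_le_norm _).trans (l.le_of_opNorm_le_of_le le_rfl (mem_closedBall_iff_norm.1 h4))
      have a2 := re_le_norm (c * l v)
      have a3 := h3 δ h5
      rw [lt_div_iff₀ (by positivity)] at a3
      rw [map_sub, sub_re] at a1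
      rw [norm_mul, c1] at a2
      nlinarith [mul_le_mul_of_nonneg_left h7 (mul_pos hR hδ).le,
        mul_le_mul_of_nonneg_left a3.le (norm_nonneg l)]
  have e : ‖((R * δ : ℝ) : ℂ)‖ = R * δ := by rw [norm_real, Real.norm_of_nonneg (by positivity)]
  refine ⟨key _ e (by simp), ?_, key _ (by rw [norm_mul, norm_I, one_mul, e]) ?_⟩
  · rw [sub_eq_add_neg, ← neg_smul]
    exact key _ (by rw [norm_neg, e]) (by simp)
  · rw [I_mul_im, ofReal_re]
    positivity

theorem ne_zero_of_lin [Nontrivial E] (hD : BCD D) {x o a v : E} (hx : CExt (closure D) x)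
    (ho : o ∈ D) (ha : Lin (closure D) x a) (h : o - x = a + I • v) : v ≠ 0 := by
  rintro rfl
  rw [smul_zero, add_zero] at h
  have hxD : x ∉ D := fun hxD => by
    obtain ⟨r, hr, hb⟩ := nhds_basis_closedBall.mem_iff.1 (hD.isOpen.mem_nhds hxD)
    obtain ⟨u, hu⟩ := exists_norm_eq E hr.le
    refine hr.ne' (hu.symm.trans (norm_eq_zero.2 (hx.2 u fun ζ hζ => subset_closure (hb ?_))))
    rw [add_mem_closedBall_iff_norm, norm_smul, hu]
    exact mul_le_of_le_one_left hr.le hζ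
  obtain ⟨l, hl, -⟩ := hD.exists_sep hxD
  have h1 := sub_pos.2 (hl o ho)
  have h2 : 0 < ‖l‖ + 1 := by positivity
  obtain ⟨t, h3, t0⟩ := ((E7_lin hD.nonempty ha (div_pos h1 h2)).and self_mem_nhdsWithin).exists
  have h4 := h3 l _ hl
  rw [sub_self, zero_add, mul_comm _ t, mul_assoc, mul_le_mul_iff_right₀ t0, ← h, map_sub, sub_re,
    abs_sub_comm, abs_of_pos h1, div_mul_eq_mul_div, le_div_iff₀ h2] at h4
  linarith

theorem exists_good [Nontrivial E] (hD : BCD D) :
    ∃ x v, CExt (closure D) x ∧ v ≠ 0 ∧ Good D x v := by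
  obtain ⟨x, hx, h⟩ := exists_cext_lin hD
  obtain ⟨o, ho⟩ := hD.nonempty
  obtain ⟨a, v, ha, hv, e⟩ := h (o - x)
  have h0 := ne_zero_of_lin hD hx ho ha e
  exact ⟨x, v, hx, h0, good_of_lin hD hx ho ha hv e h0⟩

end Pool.Agent.P.MP_2ff09b_gt
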