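import Pool.Agent.P.MP_2ff09b_gt.A1

/-! CVX-F1. Uniqueness of trajectories and elementary properties of `ex`.
Sketch. Uniqueness: Y is locally Lipschitz on the open set D (contDiffOn_of_hol), hence Lipschitz
on a compact set containing both trajectories (LocallyLipschitzOn.exists_lipschitzOnWith_of_compact
or the mean value inequality); apply ODE_solution_unique_of_mem_Icc_right. Rescaling of time is the
chain rule for HasDerivWithinAt. concat: glue two rescaled trajectories (treat s + t = 0 apart);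
at the gluing time use HasDerivWithinAt.union. SemiC.smul: induction with concat for natural
numbers, then smul_of_le. semiC_affine: c t = a + exp (-t) (z - a). -/

open Set MeasureTheory Complex Filter Topology Metric

noncomputable section

namespace Pool.Agent.P.MP_2ff09b_gt

variable {E : Type*} [NormedAddCommGroup E] [NormedSpace ℂ E] [FiniteDimensional ℂ E] {D : Set E}


omit [FiniteDimensional ℂ E] in
private theorem F1_cont {Y : E → E} {z : E} {c : ℝ → E} (h : IsSol D Y z c) :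
    ContinuousOn c (Icc 0 1) := fun t ht => (h.2 t ht).2.continuousWithinAt

omit [FiniteDimensional ℂ E] in
private theorem F1_right {Y : E → E} {z : E} {c : ℝ → E} (h : IsSol D Y z c) :
    ∀ t ∈ Ico (0 : ℝ) 1, HasDerivWithinAt c (Y (c t)) (Ici t) t := fun t ht =>
  (h.2 t (Ico_subset_Icc_self ht)).2.mono_of_mem_nhdsWithin (Icc_mem_nhdsGE_of_mem ht)

omit [FiniteDimensional ℂ E] in
private theorem F1_aff {Y : E → E} {z : E} {c : ℝ → E} (h : IsSol D Y z c) (a b : ℝ) {S : Set ℝ}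
    (hS : ∀ u ∈ S, a * u + b ∈ Icc (0 : ℝ) 1) {u : ℝ} (hu : u ∈ S) :
    HasDerivWithinAt (fun u => c (a * u + b)) ((a : ℂ) • Y (c (a * u + b))) S u := by
  have h1 : HasDerivWithinAt (fun u : ℝ => a * u + b) a S u := by
    simpa using (((hasDerivAt_id u).const_mul a).add_const b).hasDerivWithinAt
  rw [Complex.coe_smul]
  exact HasDerivWithinAt.scomp u (h.2 _ (hS u hu)).2 h1 hS

omit [FiniteDimensional ℂ E] in
private theorem F1_const {Y : E → E} {q : E} (hq : q ∈ D) (h : Y q = 0) :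
    IsSol D Y q fun _ => q :=
  ⟨rfl, fun t _ => ⟨hq, by rw [h]; exact hasDerivWithinAt_const _ _ _⟩⟩

private theorem F1_hol {Y : E → E} (hY : DifferentiableOn ℂ Y D) (a : ℂ) :
    DifferentiableOn ℂ (a • Y) D := hY.const_smul a

theorem isSol_unique (hD : IsOpen D) {Y : E → E} (hY : DifferentiableOn ℂ Y D) {z : E}
    {c c' : ℝ → E} (h1 : IsSol D Y z c) (h2 : IsSol D Y z c') : ∀ t ∈ Icc (0 : ℝ) 1, c t = c' t := by
  have hK : IsCompact (c '' Icc 0 1 ∪ c' '' Icc 0 1) :=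
    (isCompact_Icc.image_of_continuousOn (F1_cont h1)).union
      (isCompact_Icc.image_of_continuousOn (F1_cont h2))
  have hKD : c '' Icc 0 1 ∪ c' '' Icc 0 1 ⊆ D := by
    rintro _ (⟨t, ht, rfl⟩ | ⟨t, ht, rfl⟩)
    exacts [(h1.2 t ht).1, (h2.2 t ht).1]
  have hl : LocallyLipschitzOn (c '' Icc 0 1 ∪ c' '' Icc 0 1) Y := fun x hx => by
    obtain ⟨K, t, ht, hK⟩ := (contDiffAt_of_hol hD hY (hKD hx) 1).exists_lipschitzOnWith
    exact ⟨K, t, mem_nhdsWithin_of_mem_nhds ht, hK⟩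
  obtain ⟨K, hL⟩ := hl.exists_lipschitzOnWith_of_compact hK
  exact ODE_solution_unique_of_mem_Icc_right (v := fun _ => Y)
    (s := fun _ => c '' Icc 0 1 ∪ c' '' Icc 0 1) (fun _ _ => hL) (F1_cont h1) (F1_right h1)
    (fun t ht => Or.inl ⟨t, Ico_subset_Icc_self ht, rfl⟩) (F1_cont h2) (F1_right h2)
    (fun t ht => Or.inr ⟨t, Ico_subset_Icc_self ht, rfl⟩) (h1.1.trans h2.1.symm)

theorem IsSol.ex_eq (hD : IsOpen D) {Y : E → E} (hY : DifferentiableOn ℂ Y D) {z : E}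
    {c : ℝ → E} (h : IsSol D Y z c) : ex D Y z = c 1 := by
  have h' : HasSol D Y z := ⟨c, h⟩
  rw [ex, dif_pos h']
  exact isSol_unique hD hY h'.choose_spec h 1 ⟨zero_le_one, le_rfl⟩

omit [FiniteDimensional ℂ E] in
theorem IsSol.smul {Y : E → E} {z : E} {c : ℝ → E} (h : IsSol D Y z c) {t : ℝ}
    (ht : t ∈ Icc (0 : ℝ) 1) : IsSol D ((t : ℂ) • Y) z fun s => c (t * s) := by
  have hS : ∀ u ∈ Icc (0 : ℝ) 1, t * u + 0 ∈ Icc (0 : ℝ) 1 := fun u hu => by
    rw [add_zero]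
    exact ⟨mul_nonneg ht.1 hu.1, mul_le_one₀ ht.2 hu.1 hu.2⟩
  refine ⟨by simp only [mul_zero, h.1], fun u hu => ⟨?_, ?_⟩⟩
  · simpa only [add_zero] using (h.2 _ (hS u hu)).1
  · simpa only [add_zero, Pi.smul_apply] using F1_aff h t 0 hS hu

theorem IsSol.ex_smul_eq (hD : IsOpen D) {Y : E → E} (hY : DifferentiableOn ℂ Y D) {z : E}
    {c : ℝ → E} (h : IsSol D Y z c) {t : ℝ} (ht : t ∈ Icc (0 : ℝ) 1) :
    ex D ((t : ℂ) • Y) z = c t := by
  rw [(h.smul ht).ex_eq hD (F1_hol hY _), mul_one]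

theorem HasSol.isSol (hD : IsOpen D) {Y : E → E} (hY : DifferentiableOn ℂ Y D) {z : E}
    (h : HasSol D Y z) : IsSol D Y z fun t => ex D ((t : ℂ) • Y) z := by
  obtain ⟨c, hc⟩ := h
  have e : ∀ t ∈ Icc (0 : ℝ) 1, ex D ((t : ℂ) • Y) z = c t := fun t ht => hc.ex_smul_eq hD hY ht
  refine ⟨(e 0 ⟨le_rfl, zero_le_one⟩).trans hc.1, fun t ht => ?_⟩
  beta_reduce
  rw [e t ht]
  exact ⟨(hc.2 t ht).1, (hc.2 t ht).2.congr e (e t ht)⟩

omit [FiniteDimensional ℂ E] in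
theorem HasSol.smul_of_le {Y : E → E} {z : E} {s t : ℝ} (h : HasSol D ((t : ℂ) • Y) z)
    (hs : 0 ≤ s) (hst : s ≤ t) : HasSol D ((s : ℂ) • Y) z := by
  rcases (hs.trans hst).eq_or_lt with rfl | ht
  · rwa [le_antisymm hst hs]
  · obtain ⟨c, hc⟩ := h
    have h1 := hc.smul (t := s / t) ⟨div_nonneg hs ht.le, (div_le_one ht).2 hst⟩
    rw [smul_smul, ← Complex.ofReal_mul, div_mul_cancel₀ _ ht.ne'] at h1
    exact ⟨_, h1⟩

theorem HasSol.concat (hD : IsOpen D) {Y : E → E} (hY : DifferentiableOn ℂ Y D) {z : E} {s t : ℝ}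
    (hs : 0 ≤ s) (ht : 0 ≤ t) (h1 : HasSol D ((s : ℂ) • Y) z)
    (h2 : HasSol D ((t : ℂ) • Y) (ex D ((s : ℂ) • Y) z)) :
    HasSol D (((s + t : ℝ) : ℂ) • Y) z ∧
      ex D (((s + t : ℝ) : ℂ) • Y) z = ex D ((t : ℂ) • Y) (ex D ((s : ℂ) • Y) z) := by
  have z0 : ∀ w ∈ D, ex D (((0 : ℝ) : ℂ) • Y) w = w := fun w hw =>
    (F1_const hw (by simp)).ex_eq hD (F1_hol hY _)
  rcases hs.eq_or_lt with rfl | hs
  · rw [z0 z h1.mem] at h2 ⊢
    rw [zero_add]
    exact ⟨h2, rfl⟩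
  rcases ht.eq_or_lt with rfl | ht
  · rw [add_zero, z0 _ h1.ex_mem]
    exact ⟨h1, rfl⟩
  obtain ⟨c₁, k1⟩ := h1
  obtain ⟨c₂, k2⟩ := h2
  have e1 := k1.ex_eq hD (F1_hol hY _)
  have hst : 0 < s + t := add_pos hs ht
  set a := s / (s + t) with ha
  have a0 : 0 < a := div_pos hs hst
  have a1 : a < 1 := (div_lt_one hst).2 (lt_add_of_pos_right _ ht)
  have q1 : (s + t) / s * a + 0 = 1 := by rw [ha]; field_simp; ring
  have q2 : (s + t) / t * a + -(s / t) = 0 := by rw [ha]; field_simp; ring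
  have q3 : (s + t) / t * 1 + -(s / t) = 1 := by field_simp; ring
  have m1 : ∀ u ∈ Icc 0 a, (s + t) / s * u + 0 ∈ Icc (0 : ℝ) 1 := fun u hu => by
    have := mul_le_mul_of_nonneg_left hu.2 (div_pos hst hs).le
    have := mul_nonneg (div_pos hst hs).le hu.1
    constructor <;> linarith
  have m2 : ∀ u ∈ Icc a 1, (s + t) / t * u + -(s / t) ∈ Icc (0 : ℝ) 1 := fun u hu => by
    have := mul_le_mul_of_nonneg_left hu.1 (div_pos hst ht).le
    have := mul_le_mul_of_nonneg_left hu.2 (div_pos hst ht).le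
    constructor <;> linarith
  let c : ℝ → E := fun u =>
    if u ≤ a then c₁ ((s + t) / s * u + 0) else c₂ ((s + t) / t * u + -(s / t))
  have v1 : ∀ u ∈ Icc 0 a, c u = c₁ ((s + t) / s * u + 0) := fun u hu => if_pos hu.2
  have v2 : ∀ u ∈ Icc a 1, c u = c₂ ((s + t) / t * u + -(s / t)) := fun u hu => by
    rcases hu.1.eq_or_lt with rfl | h
    · rw [v1 _ ⟨a0.le, le_rfl⟩, q1, q2, k2.1, e1]
    · exact if_neg (not_le.2 h)
  have d1 : ∀ u, HasDerivWithinAt c ((((s + t : ℝ) : ℂ) • Y) (c u)) (Icc 0 a) u := fun u => by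
    by_cases hu : u ∈ Icc 0 a
    · have := (F1_aff k1 _ _ m1 hu).congr v1 (v1 u hu)
      rwa [Pi.smul_apply, smul_smul, ← Complex.ofReal_mul, div_mul_cancel₀ _ hs.ne',
        ← v1 u hu] at this
    · exact HasFDerivWithinAt.of_notMem_closure (by rwa [closure_Icc])
  have d2 : ∀ u, HasDerivWithinAt c ((((s + t : ℝ) : ℂ) • Y) (c u)) (Icc a 1) u := fun u => by
    by_cases hu : u ∈ Icc a 1
    · have := (F1_aff k2 _ _ m2 hu).congr v2 (v2 u hu)
      rwa [Pi.smul_apply, smul_smul, ← Complex.ofReal_mul, div_mul_cancel₀ _ ht.ne',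
        ← v2 u hu] at this
    · exact HasFDerivWithinAt.of_notMem_closure (by rwa [closure_Icc])
  have hc : IsSol D (((s + t : ℝ) : ℂ) • Y) z c := by
    refine ⟨by rw [v1 0 ⟨le_rfl, a0.le⟩, mul_zero, add_zero, k1.1], fun u hu => ⟨?_, ?_⟩⟩
    · rcases le_total u a with h | h
      · rw [v1 u ⟨hu.1, h⟩]
        exact (k1.2 _ (m1 u ⟨hu.1, h⟩)).1
      · rw [v2 u ⟨h, hu.2⟩]
        exact (k2.2 _ (m2 u ⟨h, hu.2⟩)).1
    · rw [← Icc_union_Icc_eq_Icc a0.le a1.le]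
      exact (d1 u).union (d2 u)
  refine ⟨⟨c, hc⟩, ?_⟩
  rw [hc.ex_eq hD (F1_hol hY _), k2.ex_eq hD (F1_hol hY _), v2 1 ⟨a1.le, le_rfl⟩, q3]

theorem SemiC.smul (hD : IsOpen D) {Y : E → E} (h : SemiC D Y) {t : ℝ} (ht : 0 ≤ t) :
    SemiC D ((t : ℂ) • Y) := by
  have key : ∀ n : ℕ, ∀ z ∈ D, HasSol D (((n : ℝ) : ℂ) • Y) z := fun n => by
    induction n with
    | zero => exact fun z hz => ⟨_, F1_const hz (by simp)⟩
    | succ n ih =>
      intro z hz
      rw [Nat.cast_succ]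
      refine ((ih z hz).concat hD h.1 n.cast_nonneg zero_le_one ?_).1
      rw [Complex.ofReal_one, one_smul]
      exact h.2 _ (ih z hz).ex_mem
  exact ⟨F1_hol h.1 _, fun z hz => (key ⌈t⌉₊ z hz).smul_of_le ht (Nat.le_ceil t)⟩

/-- A complete field has all its real multiples semicomplete. -/
theorem SemiC.smul_real (hD : IsOpen D) {Y : E → E} (h : SemiC D Y) (h' : SemiC D (-Y)) (t : ℝ) :
    SemiC D ((t : ℂ) • Y) := by
  rcases le_total 0 t with ht | ht
  · exact h.smul hD ht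
  · have := h'.smul hD (neg_nonneg.2 ht)
    rwa [Complex.ofReal_neg, neg_smul_neg] at this

theorem hasSol_of_zero (hD : IsOpen D) {Y : E → E} (hY : DifferentiableOn ℂ Y D) {q : E}
    (hq : q ∈ D) (h : Y q = 0) : HasSol D Y q ∧ ex D Y q = q :=
  ⟨⟨_, F1_const hq h⟩, (F1_const hq h).ex_eq hD hY⟩

theorem semiC_zero : SemiC D (0 : E → E) :=
  ⟨differentiableOn_const 0, fun _ hz => ⟨_, F1_const hz rfl⟩⟩

theorem ex_zero (hD : IsOpen D) (z : E) : ex D (0 : E → E) z = z := by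
  by_cases hz : z ∈ D
  · exact (hasSol_of_zero hD (differentiableOn_const 0) hz rfl).2
  · exact ex_of_not_mem hz

/-- Naturality of flows. -/
theorem HasSol.map {E' : Type*} [NormedAddCommGroup E'] [NormedSpace ℂ E'] [FiniteDimensional ℂ E']
    {D' : Set E'} (hD : IsOpen D) (hD' : IsOpen D') {φ : E → E'} (hφ : DifferentiableOn ℂ φ D)
    (hm : MapsTo φ D D') {Y : E → E} {Y' : E' → E'} (hY : DifferentiableOn ℂ Y D)
    (hY' : DifferentiableOn ℂ Y' D') (hrel : ∀ z ∈ D, fderiv ℂ φ z (Y z) = Y' (φ z)) {z : E}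
    (h : HasSol D Y z) : HasSol D' Y' (φ z) ∧ ex D' Y' (φ z) = φ (ex D Y z) := by
  obtain ⟨c, hc⟩ := h
  have h1 : IsSol D' Y' (φ z) fun t => φ (c t) := by
    refine ⟨congrArg φ hc.1, fun t ht => ⟨hm (hc.2 t ht).1, ?_⟩⟩
    have h2 := ((hφ.differentiableAt (hD.mem_nhds (hc.2 t ht).1)).hasFDerivAt.restrictScalars
      ℝ).comp_hasDerivWithinAt t (hc.2 t ht).2
    rw [← hrel _ (hc.2 t ht).1]
    exact h2
  exact ⟨⟨_, h1⟩, by rw [h1.ex_eq hD' hY', hc.ex_eq hD hY]⟩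

theorem semiC_affine (hD : BCD D) {a : E} (ha : a ∈ D) : SemiC D fun z => a - z := by
  refine ⟨by fun_prop, fun z hz =>
    ⟨fun t => a + Real.exp (-t) • (z - a), by simp, fun t ht => ⟨?_, ?_⟩⟩⟩
  · exact hD.convex.add_smul_sub_mem ha hz
      ⟨(Real.exp_pos _).le, Real.exp_le_one_iff.2 (neg_nonpos.2 ht.1)⟩
  · have h1 := (((hasDerivAt_neg t).exp.smul_const (z - a)).const_add a).hasDerivWithinAt
      (s := Icc 0 1)
    convert h1 using 1
    simp

/-- Push-forward of a semicomplete field by an automorphism. -/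
theorem SemiC.push (hD : IsOpen D) {h : Equiv.Perm E} (hh : h ∈ autGroup D) {Y : E → E}
    (hY : SemiC D Y) : SemiC D fun z => fderiv ℂ h (h.symm z) (Y (h.symm z)) := by
  have hd : DifferentiableOn ℂ (fun z => fderiv ℂ h (h.symm z) (Y (h.symm z))) D := by
    have := FiniteDimensional.complete ℂ E
    exact ((fderiv_hol hD (aut_hol hh)).comp (aut_hol_symm hh) (aut_maps_symm hh)).clm_apply
      (hY.1.comp (aut_hol_symm hh) (aut_maps_symm hh))
  refine ⟨hd, fun z hz => ?_⟩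
  have := ((hY.2 _ (aut_maps_symm hh hz)).map hD hD (aut_hol hh) (aut_maps hh) hY.1 hd
    fun w _ => by rw [Equiv.symm_apply_apply]).1
  rwa [Equiv.apply_symm_apply] at this

end Pool.Agent.P.MP_2ff09b_gt
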