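import Pool.Agent.P.MP_2ff09b_gt.A2
import Pool.Agent.P.MP_2ff09b_gt.A6
import Pool.Agent.P.MP_2ff09b_gt.F1

/-! CVX-F7. The lemma of H. Cartan (Chernoff formula) for holomorphic self-maps.
Sketch. Fix z. For large j, hd z (φ j z) <= C τ j (hd_le_of_ball), so by hd_comp and the triangle
inequality the iterates (φ j)^m z, m <= 1/τ j + 1, stay in a compact set K (isCompact_hd_ball).
Put u j t = (φ j)^(floor (t / τ j)) z and let u t be its limit along an ultrafilter finer than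
atTop. On K the convergence (φ j x - x)/τ j → Y x is uniform and Y is bounded and uniformly
continuous. For s < t in [0,1], u j t - u j s is a sum of about (t-s)/τ j terms τ j (Y x + o(1)).
Deduce that u is Lipschitz and that |u t - u s - (t - s) Y (u s)| <= (t-s) ω(C |t-s|) for the
modulus of continuity ω of Y on K (both signs of t - s), which is HasDerivWithinAt. -/

open Set MeasureTheory Complex Filter Topology Metric

noncomputable section

namespace Pool.Agent.P.MP_2ff09b_gt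

variable {E : Type*} [NormedAddCommGroup E] [NormedSpace ℂ E] [FiniteDimensional ℂ E] {D : Set E}

theorem F7_tele {F : Type*} [NormedAddCommGroup F] [NormedSpace ℝ F] (f : ℕ → F) (v : F) (C : ℝ)
    (a b : ℕ) (h : ∀ m, min a b ≤ m → m < max a b → ‖f (m + 1) - f m - v‖ ≤ C) :
    ‖f b - f a - ((b : ℝ) - a) • v‖ ≤ |(b : ℝ) - a| * C := by
  wlog hab : a ≤ b generalizing a b
  · have := this b a (by rwa [min_comm, max_comm]) (le_of_not_ge hab)
    rw [abs_sub_comm, ← norm_neg]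
    refine le_of_eq_of_le (congrArg _ ?_) this
    module
  rw [min_eq_left hab, max_eq_right hab] at h
  rw [abs_of_nonneg (sub_nonneg.2 (Nat.cast_le.2 hab))]
  induction b, hab using Nat.le_induction with
  | base => simp
  | succ b hab ih =>
    have h1 := ih fun m h1 h2 => h m h1 (by omega)
    have h2 := h b hab (by omega)
    have e : f (b + 1) - f a - (((b + 1 : ℕ) : ℝ) - a) • v =
        (f b - f a - ((b : ℝ) - a) • v) + (f (b + 1) - f b - v) := by
      push_cast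
      module
    rw [e]
    push_cast
    linarith [norm_add_le (f b - f a - ((b : ℝ) - a) • v) (f (b + 1) - f b - v)]

/-- Limits of Euler schemes. -/
theorem F7_euler {F : Type*} [NormedAddCommGroup F] [NormedSpace ℝ F] {K : Set F}
    (hK : IsCompact K) {Y : F → F} (hY : ContinuousOn Y K) {τ : ℕ → ℝ} (hτ : ∀ j, 0 < τ j)
    (hτ0 : Tendsto τ atTop (𝓝 0)) {x : ℕ → ℕ → F} {z : F} (h0 : ∀ j, x j 0 = z)
    (h1 : ∀ᶠ j in atTop, ∀ m : ℕ, m * τ j ≤ 1 → x j m ∈ K)
    (h2 : ∀ ε, 0 < ε → ∀ᶠ j in atTop, ∀ m : ℕ, m * τ j ≤ 1 →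
      ‖x j (m + 1) - x j m - τ j • Y (x j m)‖ ≤ ε * τ j) :
    ∃ c : ℝ → F, c 0 = z ∧ ∀ t ∈ Icc (0 : ℝ) 1, c t ∈ K ∧
      HasDerivWithinAt c (Y (c t)) (Icc 0 1) t := by
  let U : Ultrafilter ℕ := Ultrafilter.of atTop
  have hU : (U : Filter ℕ) ≤ atTop := Ultrafilter.of_le _
  let n : ℕ → ℝ → ℕ := fun j t => ⌊t / τ j⌋₊
  have n1 : ∀ j t, 0 ≤ t → n j t * τ j ≤ t := fun j t ht =>
    (le_div_iff₀ (hτ j)).1 (Nat.floor_le (div_nonneg ht (hτ j).le))
  have n2 : ∀ j t, t - τ j ≤ n j t * τ j := fun j t => by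
    have := (div_lt_iff₀ (hτ j)).1 (Nat.lt_floor_add_one (t / τ j))
    linarith
  have n3 : ∀ t, 0 ≤ t → Tendsto (fun j => n j t * τ j) atTop (𝓝 t) := fun t ht =>
    tendsto_of_tendsto_of_tendsto_of_le_of_le (by simpa using hτ0.const_sub t) tendsto_const_nhds
      (fun j => n2 j t) fun j => n1 j t ht
  have n4 : ∀ j, ∀ s ∈ Icc (0 : ℝ) 1, ∀ t ∈ Icc (0 : ℝ) 1, ∀ m, m ≤ max (n j s) (n j t) →
      m * τ j ≤ 1 := fun j s hs t ht m hm => by
    rcases le_max_iff.1 hm with h | h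
    · exact (mul_le_mul_of_nonneg_right (Nat.cast_le.2 h) (hτ j).le).trans ((n1 j s hs.1).trans hs.2)
    · exact (mul_le_mul_of_nonneg_right (Nat.cast_le.2 h) (hτ j).le).trans ((n1 j t ht.1).trans ht.2)
  have hc : ∀ t, ∃ y, t ∈ Icc (0 : ℝ) 1 → y ∈ K ∧ Tendsto (fun j => x j (n j t)) U (𝓝 y) := by
    intro t
    by_cases ht : t ∈ Icc (0 : ℝ) 1
    · obtain ⟨y, hy, h⟩ := hK.ultrafilter_le_nhds (U.map fun j => x j (n j t))
        (le_principal_iff.2 (hU (h1.mono fun j hj => hj _ ((n1 j t ht.1).trans ht.2))))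
      exact ⟨y, fun _ => ⟨hy, h⟩⟩
    · exact ⟨z, fun h => absurd h ht⟩
  choose c hc using hc
  obtain ⟨M, hM⟩ := hK.exists_bound_of_continuousOn hY
  refine ⟨c, ?_, fun s hs => ⟨(hc s hs).1, ?_⟩⟩
  · refine tendsto_nhds_unique (hc 0 ⟨le_rfl, zero_le_one⟩).2 ?_
    simp [n, h0]
  have M0 : 0 < M + 1 := by linarith [(norm_nonneg _).trans (hM _ (hc s hs).1)]
  rw [hasDerivWithinAt_iff_isLittleO, Asymptotics.isLittleO_iff]
  intro ε hε
  obtain ⟨η, hη, hY'⟩ := Metric.continuousWithinAt_iff.1 (hY _ (hc s hs).1) (ε / 2) (by positivity)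
  have hb : ∀ᶠ t in 𝓝[Icc 0 1] s, |t - s| < η / 2 / (M + 1) := nhdsWithin_le_nhds
    (Metric.eventually_nhds_iff.2 ⟨η / 2 / (M + 1), by positivity, fun _ h => h⟩)
  filter_upwards [hb, self_mem_nhdsWithin] with t ht ht'
  have l1 := ((n3 t ht'.1).sub (n3 s hs.1)).mono_left hU
  have l2 := (((hc t ht').2.sub (hc s hs).2).sub (l1.smul_const (Y (c s)))).norm
  refine le_of_tendsto_of_tendsto l2 (l1.norm.const_mul ε) ?_
  filter_upwards [hU h1, hU (h2 1 one_pos), hU (h2 (ε / 2) (by positivity)),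
    l1.abs.eventually (gt_mem_nhds ht),
    Metric.tendsto_nhds.1 (hc s hs).2 (η / 2) (by positivity)] with j j1 j2 j3 j4 j5
  have e : ∀ a b : ℕ, (b : ℝ) * τ j - a * τ j = ((b : ℝ) - a) * τ j := fun a b => by ring
  rw [e, abs_mul, abs_of_pos (hτ j), lt_div_iff₀ M0] at j4
  have key := F7_tele (x j) (τ j • Y (c s)) (ε * τ j) (n j s) (n j t) fun m m1 m2 => ?_
  · rw [smul_smul] at key
    rw [e, Real.norm_eq_abs, abs_mul, abs_of_pos (hτ j)]
    linarith
  have k1 := n4 j s hs t ht' m m2.le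
  have k2 := F7_tele (x j) 0 ((M + 1) * τ j) (n j s) m fun i _ i2 => by
    have i3 := n4 j s hs t ht' i (by omega)
    have i4 := norm_add_le (x j (i + 1) - x j i - τ j • Y (x j i)) (τ j • Y (x j i))
    rw [sub_add_cancel, norm_smul, Real.norm_eq_abs, abs_of_pos (hτ j)] at i4
    rw [sub_zero]
    nlinarith [j2 i i3, hM _ (j1 i i3), hτ j]
  have k3 : |(m : ℝ) - n j s| ≤ |(n j t : ℝ) - n j s| := by
    have : |(m : ℤ) - n j s| ≤ |(n j t : ℤ) - n j s| := by
      rw [abs_le]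
      constructor <;> cases abs_cases ((n j t : ℤ) - n j s) <;> omega
    exact_mod_cast this
  rw [smul_zero, sub_zero] at k2
  have k4 : dist (x j m) (c s) < η := by
    have := dist_triangle (x j m) (x j (n j s)) (c s)
    rw [dist_eq_norm (x j m) (x j (n j s))] at this
    have k5 := mul_le_mul_of_nonneg_right k3 (mul_pos M0 (hτ j)).le
    linarith
  have k5 := hY' (j1 m k1) k4
  have k6 := norm_add_le (x j (m + 1) - x j m - τ j • Y (x j m)) (τ j • (Y (x j m) - Y (c s)))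
  rw [smul_sub, sub_add_sub_cancel, ← smul_sub, norm_smul, Real.norm_eq_abs, abs_of_pos (hτ j),
    ← dist_eq_norm (Y _)] at k6
  nlinarith [j3 m k1, hτ j]

theorem semiC_of_chernoff (hD : BCD D) {φ : ℕ → E → E} {τ : ℕ → ℝ} (hτ : ∀ j, 0 < τ j)
    (hτ0 : Tendsto τ atTop (𝓝 0)) (hφ : ∀ j, DifferentiableOn ℂ (φ j) D)
    (hm : ∀ j, MapsTo (φ j) D D) {Y : E → E} (hY : DifferentiableOn ℂ Y D)
    (h : TendstoLocallyUniformlyOn (fun j z => (((τ j)⁻¹ : ℝ) : ℂ) • (φ j z - z)) Y atTop D) :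
    SemiC D Y := by
  refine ⟨hY, fun z hz => ?_⟩
  obtain ⟨r, hr, hb⟩ := Metric.isOpen_iff.1 hD.isOpen z hz
  have hK := isCompact_hd_ball hD hz (4 * (‖Y z‖ + 1) / r)
  have est : ∀ j w ε, dist (Y w) ((((τ j)⁻¹ : ℝ) : ℂ) • (φ j w - w)) < ε →
      ‖φ j w - w - τ j • Y w‖ ≤ ε * τ j := fun j w ε hw => by
    have e : φ j w - w - τ j • Y w = τ j • ((((τ j)⁻¹ : ℝ) : ℂ) • (φ j w - w) - Y w) := by
      rw [Complex.coe_smul, smul_sub (τ j), smul_smul, mul_inv_cancel₀ (hτ j).ne', one_smul]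
    rw [e, norm_smul, Real.norm_eq_abs, abs_of_pos (hτ j), ← dist_eq_norm, dist_comm, mul_comm]
    exact mul_le_mul_of_nonneg_right hw.le (hτ j).le
  have h1 : ∀ᶠ j in atTop, ∀ m : ℕ, m * τ j ≤ 1 →
      (φ j)^[m] z ∈ {w | w ∈ D ∧ hd D z w ≤ 4 * (‖Y z‖ + 1) / r} := by
    filter_upwards [Metric.tendsto_nhds.1 (h.tendsto_at hz) 1 one_pos,
      (hτ0.const_mul (‖Y z‖ + 1)).eventually (gt_mem_nhds (show _ < r / 2 by simpa using hr))]
      with j j1 j2 m hm1
    have j3 := norm_add_le (φ j z - z - τ j • Y z) (τ j • Y z)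
    rw [sub_add_cancel, norm_smul, Real.norm_eq_abs, abs_of_pos (hτ j)] at j3
    have j4 : ‖φ j z - z‖ ≤ (‖Y z‖ + 1) * τ j := by
      linarith [est j z 1 (by rwa [dist_comm])]
    have j5 := (hd_le_of_ball hD hr hb (j4.trans j2.le)).trans
      (div_le_div_of_nonneg_right (mul_le_mul_of_nonneg_left j4 (by norm_num)) hr.le)
    have j6 : ∀ m : ℕ, hd D z ((φ j)^[m] z) ≤ m * (4 * ((‖Y z‖ + 1) * τ j) / r) := fun m => by
      induction m with
      | zero => simp [hd_self]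
      | succ m ih =>
        have i1 := (hm j).iterate m hz
        have i2 := hd_triangle hD hz (hm j hz) (hm j i1)
        have i3 := hd_comp hD (hφ j) (hm j) hz i1
        rw [Function.iterate_succ_apply']
        push_cast
        linarith
    refine ⟨(hm j).iterate m hz, (j6 m).trans ?_⟩
    rw [show m * (4 * ((‖Y z‖ + 1) * τ j) / r) = m * τ j * (4 * (‖Y z‖ + 1) / r) by ring]
    exact mul_le_of_le_one_left (by positivity) hm1
  have h2 : ∀ ε, 0 < ε → ∀ᶠ j in atTop, ∀ m : ℕ, m * τ j ≤ 1 →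
      ‖(φ j)^[m + 1] z - (φ j)^[m] z - τ j • Y ((φ j)^[m] z)‖ ≤ ε * τ j := by
    intro ε hε
    have hu := (tendstoLocallyUniformlyOn_iff_tendstoUniformlyOn_of_compact hK).1
      (h.mono fun _ hw => hw.1)
    filter_upwards [h1, Metric.tendstoUniformlyOn_iff.1 hu ε hε] with j j1 j2 m hm1
    rw [Function.iterate_succ_apply']
    exact est j _ ε (j2 _ (j1 m hm1))
  obtain ⟨c, h0, hc⟩ := F7_euler hK (hY.continuousOn.mono fun _ hw => hw.1) hτ hτ0
    (x := fun j m => (φ j)^[m] z) (z := z) (fun _ => rfl) h1 h2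
  exact ⟨c, h0, fun t ht => ⟨(hc t ht).1.1, (hc t ht).2⟩⟩

end Pool.Agent.P.MP_2ff09b_gt
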