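import Pool.Agent.P.MP_2ff09b_gt.F6
import Pool.Agent.P.MP_2ff09b_gt.F7

/-! CVX-F8. Semicomplete fields form a closed convex cone, which is pointed modulo i.
Sketch. add: Chernoff with φ j = ex (Y1/j) ∘ ex (Y2/j); the map G(t, z) = ex (t Y1) (ex (t Y2) z)
is holomorphic near {0} × D with G(0, z) = z and t-derivative Y1 + Y2 at t = 0; the Taylor bound
(taylor_le_of_bound in t, uniform for z in a small ball) gives the local uniformity. Limits: for
z in D the curves c i t = ex (t Y i) z stay in a compact Harnack ball (hd_ex_le, nr_smul,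
nr_le_norm), are equi-Lipschitz, converge uniformly along an ultrafilter finer than l, and the
limit solves the equation of Y0 (integral form, or hasDerivAt_of_tendstoUniformlyOn type
argument). eq_zero_of_complete_I: strip_comm with V = 0 and R u gives nr z (R u z) <= 2. -/

open Set MeasureTheory Complex Filter Topology Metric

noncomputable section

namespace Pool.Agent.P.MP_2ff09b_gt

variable {E : Type*} [NormedAddCommGroup E] [NormedSpace ℂ E] [FiniteDimensional ℂ E] {D : Set E}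


omit [NormedSpace ℂ E] [FiniteDimensional ℂ E] in
theorem F8_locUnif {ι : Type*} {l : Filter ι} (hD : IsOpen D) {F : ι → E → E} {Y : E → E}
    (hY : ContinuousOn Y D)
    (h : ∀ z ∈ D, Tendsto (fun y : ι × E => F y.1 y.2) (l ×ˢ 𝓝 z) (𝓝 (Y z))) :
    TendstoLocallyUniformlyOn F Y l D := by
  rw [hD.tendstoLocallyUniformlyOn_iff_forall_tendsto]
  intro z hz
  have h1 : Tendsto (fun y : ι × E => Y y.2) (l ×ˢ 𝓝 z) (𝓝 (Y z)) :=
    (hY.continuousAt (hD.mem_nhds hz)).tendsto.comp tendsto_snd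
  have h2 := tendsto_left_nhds_uniformity.comp h1
  have h3 := tendsto_left_nhds_uniformity.comp (h z hz)
  exact h2.uniformity_symm.uniformity_trans h3

theorem F8_hasSol_zero {Y : E → E} {z : E} (hz : z ∈ D) : HasSol D ((0 : ℂ) • Y) z := by
  rw [zero_smul]
  exact semiC_zero.2 z hz

theorem F8_tendsto_ex {ι : Type*} {l : Filter ι} (hD : IsOpen D) {Y : E → E}
    (hY : DifferentiableOn ℂ Y D) {z : E} (hz : z ∈ D) {τ : ι → ℂ} {w : ι → E}
    (hτ : Tendsto τ l (𝓝 0)) (hw : Tendsto w l (𝓝 z)) :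
    Tendsto (fun i => ex D (τ i • Y) (w i)) l (𝓝 z) := by
  have h1 := (master_smul hD hY (F8_hasSol_zero (Y := Y) hz) 1).2.continuousAt.tendsto
  have h2 := h1.comp (hτ.prodMk_nhds hw)
  simpa [ex_zero hD, Function.comp_def] using h2

theorem F8_tendsto_quot {ι : Type*} {l : Filter ι} (hD : IsOpen D) {Y : E → E}
    (hY : DifferentiableOn ℂ Y D) {z : E} (hz : z ∈ D) {τ : ι → ℂ} {w : ι → E}
    (hτ : Tendsto τ l (𝓝 0)) (h0 : ∀ᶠ i in l, τ i ≠ 0) (hw : Tendsto w l (𝓝 z)) :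
    Tendsto (fun i => (τ i)⁻¹ • (ex D (τ i • Y) (w i) - w i)) l (𝓝 (Y z)) := by
  have hs := F8_hasSol_zero (Y := Y) hz
  have h1 := (master_smul hD hY hs 1).2
  set G : ℂ × E → E := fun x => ex D (x.1 • Y) x.2 with hG
  have h2 : HasStrictFDerivAt G (fderiv ℂ G (0, z)) (0, z) := h1.hasStrictFDerivAt (by simp)
  have h3 : fderiv ℂ G (0, z) (1, 0) = Y z := by
    have a1 : HasDerivAt (fun ξ : ℂ => ((ξ, z) : ℂ × E)) (1, 0) 0 :=
      (hasDerivAt_id (0 : ℂ)).prodMk (hasDerivAt_const (0 : ℂ) z)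
    have a2 := h2.hasFDerivAt.comp_hasDerivAt (0 : ℂ) a1
    have a3 := hasDerivAt_ex_smul hD hY hs
    have a4 := a2.unique a3
    simpa [ex_zero hD] using a4
  have h4 : Tendsto (fun i => (((τ i, w i), (0, w i)) : (ℂ × E) × (ℂ × E))) l
      (𝓝 ((0, z), (0, z))) :=
    (hτ.prodMk_nhds hw).prodMk_nhds (tendsto_const_nhds.prodMk_nhds hw)
  have h5 := h2.isLittleO.comp_tendsto h4
  have h6 : (fun i => ex D (τ i • Y) (w i) - w i - τ i • Y z) =o[l] τ := by
    refine (h5.congr_left fun i => ?_).trans_isBigO ?_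
    · have : ((τ i, w i) - (0, w i) : ℂ × E) = τ i • ((1, 0) : ℂ × E) := by simp
      simp only [Function.comp_apply, this, map_smul, h3]
      simp only [hG, zero_smul, ex_zero hD]
    · refine Asymptotics.IsBigO.of_bound 1 (Eventually.of_forall fun i => ?_)
      simp [Prod.norm_def]
  have h7 := h6.tendsto_inv_smul_nhds_zero
  have h8 := h7.add_const (Y z)
  rw [zero_add] at h8
  refine h8.congr' (h0.mono fun i hi => ?_)
  simp only [smul_sub, smul_smul, inv_mul_cancel₀ hi, one_smul]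
  abel

theorem SemiC.add (hD : BCD D) {Y₁ Y₂ : E → E} (h1 : SemiC D Y₁) (h2 : SemiC D Y₂) :
    SemiC D (Y₁ + Y₂) := by
  have hpos : ∀ j : ℕ, (0 : ℝ) < 1 / ((j : ℝ) + 1) := fun j => by positivity
  have hτ0 : Tendsto (fun j : ℕ => 1 / ((j : ℝ) + 1)) atTop (𝓝 0) :=
    tendsto_one_div_add_atTop_nhds_zero_nat
  have s1 := fun j => h1.smul hD.isOpen (hpos j).le
  have s2 := fun j => h2.smul hD.isOpen (hpos j).le
  refine semiC_of_chernoff hD
    (φ := fun j z => ex D (((1 / ((j : ℝ) + 1) : ℝ) : ℂ) • Y₁)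
      (ex D (((1 / ((j : ℝ) + 1) : ℝ) : ℂ) • Y₂) z)) hpos hτ0
    (fun j => ((s1 j).hol_ex hD.isOpen).comp ((s2 j).hol_ex hD.isOpen) (s2 j).maps)
    (fun j => (s1 j).maps.comp (s2 j).maps) (h1.1.add h2.1) ?_
  refine F8_locUnif hD.isOpen (h1.1.add h2.1).continuousOn fun z hz => ?_
  have a1 : Tendsto (fun y : ℕ × E => (((1 / ((y.1 : ℝ) + 1) : ℝ)) : ℂ)) (atTop ×ˢ 𝓝 z) (𝓝 0) := by
    have := (Complex.continuous_ofReal.tendsto 0).comp (hτ0.comp
      (tendsto_fst (f := (atTop : Filter ℕ)) (g := 𝓝 z)))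
    simpa only [Function.comp_def, Complex.ofReal_zero] using this
  have a2 : ∀ᶠ y : ℕ × E in atTop ×ˢ 𝓝 z, (((1 / ((y.1 : ℝ) + 1) : ℝ)) : ℂ) ≠ 0 :=
    Eventually.of_forall fun y => Complex.ofReal_ne_zero.2 (hpos y.1).ne'
  have a3 := F8_tendsto_quot hD.isOpen h2.1 hz a1 a2 tendsto_snd
  have a4 := F8_tendsto_quot hD.isOpen h1.1 hz a1 a2
    (F8_tendsto_ex hD.isOpen h2.1 hz a1 tendsto_snd)
  refine (a4.add a3).congr fun y => ?_
  rw [← smul_add, Complex.ofReal_inv, sub_add_sub_cancel]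

theorem F8_exists_tau (hD : BCD D) {Y : E → E} (hY : DifferentiableOn ℂ Y D) {K : Set E}
    (hK : IsCompact K) (hKD : K ⊆ D) {ε : ℝ} (hε : 0 < ε) :
    ∃ t : ℝ, 0 < t ∧ t < ε ∧ ∀ z ∈ K,
      dist (Y z) (((t⁻¹ : ℝ) : ℂ) • (ex D ((t : ℂ) • Y) z - z)) < ε := by
  have := FiniteDimensional.proper ℂ E
  have h1 : TendstoLocallyUniformlyOn
      (fun (t : ℝ) z => ((t⁻¹ : ℝ) : ℂ) • (ex D ((t : ℂ) • Y) z - z)) Y (𝓝[>] 0) D := by
    refine F8_locUnif hD.isOpen hY.continuousOn fun z hz => ?_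
    have a1 : Tendsto (fun y : ℝ × E => (y.1 : ℂ)) (𝓝[>] 0 ×ˢ 𝓝 z) (𝓝 0) := by
      have := (Complex.continuous_ofReal.tendsto 0).comp
        ((tendsto_fst (f := 𝓝[>] (0 : ℝ)) (g := 𝓝 z)).mono_right nhdsWithin_le_nhds)
      simpa only [Function.comp_def, Complex.ofReal_zero] using this
    have a2 : ∀ᶠ y : ℝ × E in 𝓝[>] 0 ×ˢ 𝓝 z, (y.1 : ℂ) ≠ 0 :=
      (tendsto_fst.eventually self_mem_nhdsWithin).mono fun y hy =>
        Complex.ofReal_ne_zero.2 (ne_of_gt hy)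
    refine (F8_tendsto_quot hD.isOpen hY hz a1 a2 tendsto_snd).congr fun y => ?_
    rw [Complex.ofReal_inv]
  have h2 := (tendstoLocallyUniformlyOn_iff_forall_isCompact hD.isOpen).1 h1 K hKD hK
  have h3 := Metric.tendstoUniformlyOn_iff.1 h2 ε hε
  have h4 : ∀ᶠ t : ℝ in 𝓝[>] 0, t ∈ Ioo 0 ε := Ioo_mem_nhdsGT hε
  obtain ⟨t, ht, ht'⟩ := (h4.and h3).exists
  exact ⟨t, ht.1, ht.2, ht'⟩

theorem semiC_of_tendsto (hD : BCD D) {ι : Type*} {l : Filter ι} [l.NeBot] {Y : ι → E → E}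
    {Y₀ : E → E} (hY : ∀ᶠ i in l, SemiC D (Y i)) (h : TendstoLocallyUniformlyOn Y Y₀ l D) :
    SemiC D Y₀ := by
  have := FiniteDimensional.proper ℂ E
  have := FiniteDimensional.complete ℂ E
  have hY₀ := (hol_of_tendsto hD.isOpen (hY.mono fun i hi => hi.1) h).1
  obtain ⟨o, ho⟩ := hD.nonempty
  have hpos : ∀ j : ℕ, (0 : ℝ) < 1 / ((j : ℝ) + 1) := fun j => by positivity
  have hτ0 : Tendsto (fun j : ℕ => 1 / ((j : ℝ) + 1)) atTop (𝓝 0) :=
    tendsto_one_div_add_atTop_nhds_zero_nat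
  have key : ∀ j : ℕ, ∃ (V : E → E) (t : ℝ), SemiC D V ∧ 0 < t ∧ t < 1 / ((j : ℝ) + 1) ∧
      ∀ z ∈ D, hd D o z ≤ j →
        dist (Y₀ z) (((t⁻¹ : ℝ) : ℂ) • (ex D ((t : ℂ) • V) z - z)) < 2 * (1 / ((j : ℝ) + 1)) := by
    intro j
    have hK := isCompact_hd_ball hD ho (j : ℝ)
    have hKD : {w | w ∈ D ∧ hd D o w ≤ (j : ℝ)} ⊆ D := fun w hw => hw.1
    have h2 := (tendstoLocallyUniformlyOn_iff_forall_isCompact hD.isOpen).1 h _ hKD hK
    obtain ⟨i, hi, hi'⟩ := (hY.and (Metric.tendstoUniformlyOn_iff.1 h2 _ (hpos j))).exists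
    obtain ⟨t, t0, t1, t2⟩ := F8_exists_tau hD hi.1 hK hKD (hpos j)
    refine ⟨Y i, t, hi, t0, t1, fun z hz hz' => ?_⟩
    have b1 := hi' z ⟨hz, hz'⟩
    have b2 := t2 z ⟨hz, hz'⟩
    have b3 := dist_triangle (Y₀ z) (Y i z) (((t⁻¹ : ℝ) : ℂ) • (ex D ((t : ℂ) • Y i) z - z))
    linarith
  choose V τ hV hτ hτ' hd' using key
  have s1 := fun j => (hV j).smul hD.isOpen (hτ j).le
  refine semiC_of_chernoff hD (φ := fun j => ex D ((τ j : ℂ) • V j)) hτ
    (squeeze_zero (fun j => (hτ j).le) (fun j => (hτ' j).le) hτ0)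
    (fun j => (s1 j).hol_ex hD.isOpen) (fun j => (s1 j).maps) hY₀ ?_
  refine (tendstoLocallyUniformlyOn_iff_forall_isCompact hD.isOpen).2 fun K hKD hK => ?_
  obtain ⟨R, hR⟩ := hd_bdd_on_compact hD (hK.insert o) (insert_subset ho hKD)
  refine Metric.tendstoUniformlyOn_iff.2 fun ε hε => ?_
  have e1 : ∀ᶠ j : ℕ in atTop, 1 / ((j : ℝ) + 1) < ε / 2 :=
    hτ0.eventually (gt_mem_nhds (half_pos hε))
  have e2 : ∀ᶠ j : ℕ in atTop, R ≤ (j : ℝ) :=
    tendsto_natCast_atTop_atTop.eventually (eventually_ge_atTop R)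
  filter_upwards [e1, e2] with j j1 j2 z hz
  have := hd' j z (hKD hz) ((hR o (mem_insert _ _) z (mem_insert_of_mem _ hz)).trans j2)
  linarith

theorem eq_zero_of_complete_I (hD : BCD D) {u : E → E} (h1 : SemiC D u) (h2 : SemiC D (-u))
    (h3 : SemiC D (I • u)) (h4 : SemiC D (-(I • u))) : ∀ z ∈ D, u z = 0 := by
  intro z hz
  have hall : ∀ c : ℂ, SemiC D (c • u) := by
    intro c
    have := (h1.smul_real hD.isOpen h2 c.re).add hD (h3.smul_real hD.isOpen h4 c.im)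
    rwa [smul_smul, ← add_smul, Complex.re_add_im] at this
  have hb : ∀ R : ℝ, 0 < R → R * nr D z (u z) ≤ 2 := by
    intro R hR
    have := strip_comm hD (V := 0) (u := (R : ℂ) • u) (differentiableOn_const 0) (hall R)
      (by rw [← neg_smul]; exact hall _) (fun w _ => by simp [VectorField.lieBracket]) (z := z)
      (fun ζ _ => by rw [zero_add, smul_smul]; exact (hall _).2 z hz)
    rwa [ex_zero hD.isOpen, Pi.smul_apply, nr_smul hD hz, Complex.norm_real,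
      Real.norm_of_nonneg hR.le] at this
  have h0 : nr D z (u z) ≤ 0 := by
    by_contra hn
    push Not at hn
    have := hb (3 / nr D z (u z)) (by positivity)
    rw [div_mul_cancel₀ _ hn.ne'] at this
    linarith
  obtain ⟨C, hC, hC'⟩ := exists_norm_le_nr hD
  have := hC' z hz (u z)
  exact norm_le_zero_iff.1 (this.trans (mul_nonpos_of_nonneg_of_nonpos hC.le h0))

theorem isClosed_semiC_fld (hD : BCD D) {N : ℕ} {W : Fin N → E → E}
    (hW : ∀ j, DifferentiableOn ℂ (W j) D) : IsClosed {U : Fin N → ℂ | SemiC D (fld W U)} := by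
  refine isClosed_of_closure_subset fun U hU => ?_
  have := mem_closure_iff_nhdsWithin_neBot.1 hU
  refine semiC_of_tendsto hD (l := 𝓝[{U : Fin N → ℂ | SemiC D (fld W U)}] U) (Y := fld W)
    self_mem_nhdsWithin ?_
  refine F8_locUnif hD.isOpen (fld_hol hW U).continuousOn fun z hz => ?_
  have h1 : ContinuousAt (fun x : (Fin N → ℂ) × E => fld W x.1 x.2) (U, z) :=
    (fld_hol_prod hW).continuousOn.continuousAt
      ((isOpen_univ.prod hD.isOpen).mem_nhds ⟨mem_univ _, hz⟩)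
  refine h1.tendsto.mono_left ?_
  rw [nhds_prod_eq]
  exact Filter.prod_mono nhdsWithin_le_nhds le_rfl

end Pool.Agent.P.MP_2ff09b_gt
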