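import Pool.Agent.P.MP_2ff09b_gt.E7
import Pool.Agent.P.MP_2ff09b_gt.F8

/-! CVX-E8. Rescaling at a good point produces a complete field `Y` with `i Y` semicomplete.
Sketch. For each m >= 1 choose γ m in autGroup D with p m = γ m z0 in the neighbourhood given by
Good for R = m. Put δ m = 1 / (2 nr (p m) v) (positive by exists_norm_le_nr; the disc condition is
mem_of_nr_lt_one with nr_smul). X m z = fderiv (γ m).symm (γ m z) (δ m • v) and
B m z = fderiv (γ m).symm (γ m z) (p m - γ m z). By nr_comp, nr_le_exp_mul, nr_sub_le, hd_comp,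
exists_norm_le_nr and hd_bdd_on_compact both families are locally bounded, so along an ultrafilter
finer than atTop X m tends to Y (ultra_montel) and B m / m tends to 0 locally uniformly. The fields
± X m + B m / m and i X m + B m / m are 1/m times the push-forward by (γ m).symm (SemiC.push) of
semiC_affine; semiC_of_tendsto concludes. Y z0 is nonzero because
1/2 = nr (p m) (δ m • v) <= nr z0 (X m z0) <= C ‖X m z0‖. -/

open Set MeasureTheory Complex Filter Topology Metric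

noncomputable section

namespace Pool.Agent.P.MP_2ff09b_gt

variable {E : Type*} [NormedAddCommGroup E] [NormedSpace ℂ E] [FiniteDimensional ℂ E] {D : Set E}


theorem E8_hol (hD : BCD D) {γ : Equiv.Perm E} (hγ : γ ∈ autGroup D) {u : E → E}
    (hu : DifferentiableOn ℂ u D) :
    DifferentiableOn ℂ (fun z => fderiv ℂ γ.symm (γ z) (u z)) D := by
  have := FiniteDimensional.complete ℂ E
  exact ((fderiv_hol hD.isOpen (aut_hol_symm hγ)).comp (aut_hol hγ) (aut_maps hγ)).clm_apply hu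

omit [FiniteDimensional ℂ E] in
theorem E8_nr (hD : BCD D) {γ : Equiv.Perm E} (hγ : γ ∈ autGroup D) {z : E} (hz : z ∈ D) (w : E) :
    nr D z (fderiv ℂ γ.symm (γ z) w) ≤ nr D (γ z) w := by
  have := nr_comp hD hD.isOpen (aut_hol_symm hγ) (aut_maps_symm hγ) (aut_maps hγ hz) w
  rwa [γ.symm_apply_apply] at this

theorem E8_loc (hD : BCD D) {z₀ z : E} (h0 : z₀ ∈ D) (hz : z ∈ D) :
    ∃ r : ℝ, 0 < r ∧ ball z r ⊆ D ∧ ∃ R : ℝ, ∀ w ∈ ball z r, hd D z₀ w ≤ R := by
  have := FiniteDimensional.proper ℂ E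
  obtain ⟨r, hr, h⟩ := nhds_basis_closedBall.mem_iff.1 (hD.isOpen.mem_nhds hz)
  obtain ⟨R, hR⟩ := hd_bdd_on_compact hD ((isCompact_closedBall z r).insert z₀)
    (insert_subset h0 h)
  exact ⟨r, hr, ball_subset_closedBall.trans h, R, fun w hw =>
    hR _ (mem_insert _ _) _ (mem_insert_of_mem _ (ball_subset_closedBall hw))⟩

theorem theoremA [Nontrivial E] (hD : BCD D) {z₀ : E} (hz : z₀ ∈ D)
    (acc : ∀ x, CExt (closure D) x → ∀ U ∈ 𝓝 x, ∃ γ ∈ autGroup D, γ z₀ ∈ U) :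
    ∃ Y : E → E, SemiC D Y ∧ SemiC D (-Y) ∧ SemiC D (I • Y) ∧ ∃ z ∈ D, Y z ≠ 0 := by
  have := FiniteDimensional.complete ℂ E
  obtain ⟨x, v, hx, hv, hg⟩ := exists_good hD
  obtain ⟨C, hC, hC'⟩ := exists_norm_le_nr hD
  have key : ∀ m : ℕ, ∃ γ ∈ autGroup D, ∃ u : E, nr D (γ z₀) u = 1 / 2 ∧
      ∀ c ∈ ({1, -1, I} : Set ℂ), γ z₀ + (((m : ℝ) + 1 : ℝ) : ℂ) • c • u ∈ D := by
    intro m
    have h1 := eventually_nhdsWithin_iff.1 (hg ((m : ℝ) + 1) (by positivity))
    obtain ⟨γ, hγ, h2⟩ := acc x hx _ h1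
    have hp := aut_maps hγ hz
    have hν : 0 < nr D (γ z₀) v := by
      have a1 := hC' _ hp v
      have a2 := norm_pos_iff.2 hv
      by_contra hn
      push Not at hn
      have := mul_nonpos_of_nonneg_of_nonpos hC.le hn
      linarith
    have hδ : 0 < 1 / (2 * nr D (γ z₀) v) := by positivity
    have e1 : nr D (γ z₀) (((1 / (2 * nr D (γ z₀) v) : ℝ) : ℂ) • v) = 1 / 2 := by
      rw [nr_smul hD hp, Complex.norm_real, Real.norm_of_nonneg hδ.le]
      field_simp
    obtain ⟨b1, b2, b3⟩ := h2 hp _ hδ fun ζ hζ => mem_of_nr_lt_one hD hp (by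
      rw [mul_smul, nr_smul hD hp, e1]
      linarith)
    refine ⟨γ, hγ, _, e1, ?_⟩
    rintro c (rfl | rfl | rfl)
    · rw [one_smul, smul_smul, ← Complex.ofReal_mul]
      exact b1
    · rw [neg_one_smul, smul_neg, ← sub_eq_add_neg, smul_smul, ← Complex.ofReal_mul]
      exact b2
    · rw [smul_comm, smul_smul, smul_smul, mul_assoc, ← Complex.ofReal_mul]
      exact b3
  choose γ hγ u hu hc using key
  set X : ℕ → E → E := fun m z => fderiv ℂ (γ m).symm (γ m z) (u m) with hX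
  set B : ℕ → E → E := fun m z => fderiv ℂ (γ m).symm (γ m z) (γ m z₀ - γ m z) with hB
  have hhd : ∀ m, ∀ w ∈ D, hd D (γ m z₀) (γ m w) ≤ hd D z₀ w := fun m w hw =>
    hd_comp hD (aut_hol (hγ m)) (aut_maps (hγ m)) hz hw
  have bX : ∀ m, ∀ w ∈ D, ∀ R : ℝ, hd D z₀ w ≤ R → ‖X m w‖ ≤ C * Real.exp R := by
    intro m w hw R hR
    refine (hC' w hw _).trans (mul_le_mul_of_nonneg_left ?_ hC.le)
    refine (E8_nr hD (hγ m) hw _).trans ?_
    refine (nr_le_exp_mul hD (aut_maps (hγ m) hz) (aut_maps (hγ m) hw) _).trans ?_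
    rw [hu m]
    have := Real.exp_le_exp.2 ((hhd m w hw).trans hR)
    linarith
  have bB : ∀ m, ∀ w ∈ D, ∀ R : ℝ, hd D z₀ w ≤ R → ‖B m w‖ ≤ C * (2 * (1 + Real.exp R)) := by
    intro m w hw R hR
    refine (hC' w hw _).trans (mul_le_mul_of_nonneg_left ?_ hC.le)
    refine (E8_nr hD (hγ m) hw _).trans ?_
    refine (nr_sub_le hD (aut_maps (hγ m) hw) (aut_maps (hγ m) hz)).trans ?_
    rw [hd_comm]
    have := Real.exp_le_exp.2 ((hhd m w hw).trans hR)
    linarith
  have hXh : ∀ m, DifferentiableOn ℂ (X m) D := fun m =>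
    E8_hol hD (hγ m) (differentiableOn_const _)
  let 𝒰 : Ultrafilter ℕ := Ultrafilter.of atTop
  have h𝒰 : (𝒰 : Filter ℕ) ≤ atTop := Ultrafilter.of_le _
  obtain ⟨Y, -, hY, -⟩ := ultra_montel 𝒰 hD.isOpen (f := X) fun z hz' => by
    obtain ⟨r, hr, h1, R, hR⟩ := E8_loc hD hz hz'
    exact ⟨r, hr, C * Real.exp R, Eventually.of_forall fun m =>
      ⟨(hXh m).mono h1, fun w hw => bX m w (h1 hw) R (hR w hw)⟩⟩
  have hB0 : TendstoLocallyUniformlyOn
      (fun (m : ℕ) z => (((1 / ((m : ℝ) + 1) : ℝ)) : ℂ) • B m z) 0 𝒰 D := by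
    refine Metric.tendstoLocallyUniformlyOn_iff.2 fun ε hε z hz' => ?_
    obtain ⟨r, hr, h1, R, hR⟩ := E8_loc hD hz hz'
    refine ⟨ball z r, mem_nhdsWithin_of_mem_nhds (ball_mem_nhds z hr), ?_⟩
    have a1 := (tendsto_one_div_add_atTop_nhds_zero_nat (𝕜 := ℝ)).mul_const
      (C * (2 * (1 + Real.exp R)))
    rw [zero_mul] at a1
    filter_upwards [h𝒰 (a1.eventually (gt_mem_nhds hε))] with m hm w hw
    have a2 : (0 : ℝ) ≤ 1 / ((m : ℝ) + 1) := by positivity
    rw [Pi.zero_apply, dist_comm, dist_zero_right, norm_smul, Complex.norm_real,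
      Real.norm_of_nonneg a2]
    exact (mul_le_mul_of_nonneg_left (bB m w (h1 hw) R (hR w hw)) a2).trans_lt hm
  have main : ∀ c ∈ ({1, -1, I} : Set ℂ), SemiC D (c • Y) := by
    intro c hc'
    have a1 : TendstoLocallyUniformlyOn (fun m => c • X m) (c • Y) 𝒰 D :=
      (uniformContinuous_const_smul c).comp_tendstoLocallyUniformlyOn hY
    have a2 := a1.add hB0
    rw [add_zero] at a2
    refine semiC_of_tendsto hD (Eventually.of_forall fun m => ?_) a2
    have a3 : (0 : ℝ) ≤ 1 / ((m : ℝ) + 1) := by positivity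
    have a4 := ((semiC_affine hD (hc m c hc')).push hD.isOpen (aut_symm (hγ m))).smul hD.isOpen a3
    refine a4.congr fun z _ => ?_
    have a5 : ((1 / ((m : ℝ) + 1) : ℝ) : ℂ) * (((m : ℝ) + 1 : ℝ) : ℂ) = 1 := by
      rw [← Complex.ofReal_mul, one_div_mul_cancel (by positivity), Complex.ofReal_one]
    simp only [Pi.smul_apply, Pi.add_apply, Equiv.symm_symm, hX, hB]
    rw [add_sub_right_comm, map_add, map_smul, map_smul, smul_add, smul_smul, a5, one_smul,
      add_comm]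
  refine ⟨Y, by simpa using main 1 (by simp), by simpa using main (-1) (by simp),
    main I (by simp), z₀, hz, ?_⟩
  obtain ⟨r, hr, h1⟩ := Metric.isOpen_iff.1 hD.isOpen z₀ hz
  have a1 : ∀ m, r / 4 ≤ ‖X m z₀‖ := by
    intro m
    have b1 := nr_comp hD hD.isOpen (aut_hol (hγ m)) (aut_maps (hγ m)) hz (X m z₀)
    simp only [hX] at b1
    rw [aut_fderiv_apply_symm hD.isOpen (hγ m) hz, hu m] at b1
    have b2 := b1.trans (nr_le_norm hD hr h1 _)
    rw [le_div_iff₀ hr] at b2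
    simp only [hX]
    linarith
  have a2 : r / 4 ≤ ‖Y z₀‖ := ge_of_tendsto' (hY.tendsto_at hz).norm a1
  exact norm_pos_iff.1 (by linarith)

end Pool.Agent.P.MP_2ff09b_gt
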