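import Pool.Agent.P.MP_2ff09b_gt.F1

/-! CVX-F2. Holomorphic dependence of trajectories on the initial point (no parameter).
Sketch (implicit function theorem in the Banach space B = C(Icc 0 1, E)). Let c0 be the
trajectory. The map Psi (z, c) = c - z - (integral from 0 to t of Y (c s)) is strictly
differentiable over the complex numbers at (z0, c0): the superposition c ↦ Y ∘ c is strictly
differentiable because Y and its derivative are uniformly continuous on a compact tube around c0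
(a second order bound from taylor_le_of_bound also works), and integration is a bounded linear
operator. The derivative in c is 1 - K with K v = integral of dY(c0 s) (v s); it is invertible when
the derivative of Y along c0 has norm < 1 (Units.oneSub), which is the case `master_small`.
HasStrictFDerivAt.implicitFunction (or the inverse function theorem for (z, c) ↦ (z, Psi)) gives
c(z); the fundamental theorem of calculus shows that c(z) is a trajectory. The general case: cut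
[0,1] into m pieces, ex D Y is the m-fold composition of ex D ((1/m) Y) near z0 (HasSol.concat).
Any other proof (Picard iteration, Gronwall) is welcome. -/

open Set MeasureTheory Complex Filter Topology Metric

noncomputable section

namespace Pool.Agent.P.MP_2ff09b_gt

variable {E : Type*} [NormedAddCommGroup E] [NormedSpace ℂ E] [FiniteDimensional ℂ E] {D : Set E}


omit [NormedSpace ℂ E] [FiniteDimensional ℂ E] in
theorem F2_cont (v : C(Icc (0 : ℝ) 1, E)) : Continuous (IccExtend zero_le_one v) :=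
  v.continuous.Icc_extend'

theorem F2_deriv (v : C(Icc (0 : ℝ) 1, E)) (t : ℝ) :
    HasDerivAt (fun t => ∫ s in (0 : ℝ)..t, IccExtend zero_le_one v s)
      (IccExtend zero_le_one v t) t :=
  have := FiniteDimensional.complete ℂ E
  ((F2_cont v).integral_hasStrictDerivAt 0 t).hasDerivAt

/-- The primitive as a linear map. -/
def F2_int₀ : C(Icc (0 : ℝ) 1, E) →ₗ[ℂ] C(Icc (0 : ℝ) 1, E) where
  toFun v := ⟨fun t => ∫ s in (0 : ℝ)..t, IccExtend zero_le_one v s,
    (continuous_iff_continuousAt.2 fun t => (F2_deriv v t).continuousAt).comp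
      continuous_subtype_val⟩
  map_add' v w := ContinuousMap.ext fun _ =>
    intervalIntegral.integral_add ((F2_cont v).intervalIntegrable _ _)
      ((F2_cont w).intervalIntegrable _ _)
  map_smul' a v := ContinuousMap.ext fun _ =>
    intervalIntegral.integral_smul a (IccExtend zero_le_one v)

theorem F2_int_le (v : C(Icc (0 : ℝ) 1, E)) : ‖F2_int₀ v‖ ≤ 1 * ‖v‖ := by
  refine (ContinuousMap.norm_le _ (by positivity)).2 fun t => ?_
  refine (intervalIntegral.norm_integral_le_of_norm_le_const (C := ‖v‖)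
    fun s _ => v.norm_coe_le_norm _).trans ?_
  rw [sub_zero, abs_of_nonneg t.2.1, one_mul]
  exact mul_le_of_le_one_right (norm_nonneg _) t.2.2

/-- The primitive as a bounded operator. -/
def F2_int : C(Icc (0 : ℝ) 1, E) →L[ℂ] C(Icc (0 : ℝ) 1, E) := F2_int₀.mkContinuous 1 F2_int_le

theorem F2_int_apply (v : C(Icc (0 : ℝ) 1, E)) (t : Icc (0 : ℝ) 1) :
    F2_int v t = ∫ s in (0 : ℝ)..t, IccExtend zero_le_one v s := rfl

/-- Pointwise application of a continuous family of operators. -/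
def F2_mul (A : C(Icc (0 : ℝ) 1, E →L[ℂ] E)) : C(Icc (0 : ℝ) 1, E) →L[ℂ] C(Icc (0 : ℝ) 1, E) :=
  LinearMap.mkContinuous
    { toFun := fun v => ⟨fun t => A t (v t), A.continuous.clm_apply v.continuous⟩
      map_add' := fun v w => ContinuousMap.ext fun t => (A t).map_add _ _
      map_smul' := fun a v => ContinuousMap.ext fun t => (A t).map_smul _ _ } ‖A‖ fun v =>
    (ContinuousMap.norm_le _ (by positivity)).2 fun t =>
      (A t).le_of_opNorm_le_of_le (A.norm_coe_le_norm t) (v.norm_coe_le_norm t)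

omit [FiniteDimensional ℂ E] in
theorem F2_mul_le (A : C(Icc (0 : ℝ) 1, E →L[ℂ] E)) : ‖F2_mul A‖ ≤ ‖A‖ :=
  LinearMap.mkContinuous_norm_le _ (norm_nonneg A) _

omit [NormedSpace ℂ E] [FiniteDimensional ℂ E] in
theorem F2_tube (hD : IsOpen D) {c : C(Icc (0 : ℝ) 1, E)} (hc : ∀ t, c t ∈ D) :
    ∀ᶠ v : C(Icc (0 : ℝ) 1, E) in 𝓝 c, ∀ t, v t ∈ D := by
  filter_upwards [ContinuousMap.eventually_mapsTo isCompact_univ hD fun t _ => hc t] with v hv t
  exact hv (mem_univ t)

omit [FiniteDimensional ℂ E] in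
theorem F2_sup_apply {Y : E → E} (hY : DifferentiableOn ℂ Y D) {v : C(Icc (0 : ℝ) 1, E)}
    (hv : ∀ t, v t ∈ D) (t : Icc (0 : ℝ) 1) : ContinuousMap.mkD (Y ∘ v) 0 t = Y (v t) := by
  rw [ContinuousMap.mkD_apply_of_continuous (hY.continuousOn.comp_continuous v.continuous hv)]
  rfl

theorem F2_strict (hD : IsOpen D) {Y : E → E} (hY : DifferentiableOn ℂ Y D)
    {c : C(Icc (0 : ℝ) 1, E)} (hc : ∀ t, c t ∈ D) {A : C(Icc (0 : ℝ) 1, E →L[ℂ] E)}
    (hA : ∀ t, A t = fderiv ℂ Y (c t)) :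
    HasStrictFDerivAt (fun v : C(Icc (0 : ℝ) 1, E) => ContinuousMap.mkD (Y ∘ v) 0) (F2_mul A) c := by
  have := FiniteDimensional.complete ℂ E
  rw [hasStrictFDerivAt_iff_isLittleO, Asymptotics.isLittleO_iff]
  intro ε hε
  have hK : IsCompact (range c) := isCompact_range c.continuous
  have hKD : range c ⊆ D := range_subset_iff.2 hc
  obtain ⟨δ₁, h1, hδ₁⟩ := hK.exists_thickening_subset_open hD hKD
  obtain ⟨δ₂, h2, hδ₂⟩ := Metric.mem_uniformity_dist.1
    (hK.uniformContinuousAt_of_continuousAt (fderiv ℂ Y) (fun x hx =>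
      ((fderiv_hol hD hY).differentiableAt (hD.mem_nhds (hKD hx))).continuousAt)
      (Metric.dist_mem_uniformity hε))
  have hb : ∀ t, ball (c t) (min δ₁ δ₂) ⊆ D := fun t x hx =>
    hδ₁ (mem_thickening_iff.2 ⟨c t, mem_range_self t, (mem_ball.1 hx).trans_le (min_le_left _ _)⟩)
  have hn := ball_mem_nhds c (lt_min h1 h2)
  filter_upwards [prod_mem_nhds hn hn] with p hp
  have hm : ∀ v ∈ ball c (min δ₁ δ₂), ∀ t, v t ∈ ball (c t) (min δ₁ δ₂) := fun v hv t =>
    (ContinuousMap.dist_apply_le_dist t).trans_lt hv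
  refine (ContinuousMap.norm_le _ (by positivity)).2 fun t => ?_
  rw [ContinuousMap.sub_apply, ContinuousMap.sub_apply,
    F2_sup_apply hY fun t => hb t (hm _ hp.1 t), F2_sup_apply hY fun t => hb t (hm _ hp.2 t)]
  refine ((convex_ball (c t) (min δ₁ δ₂)).norm_image_sub_le_of_norm_fderiv_le' (𝕜 := ℂ) (C := ε)
    (φ := A t) (fun x hx => hY.differentiableAt (hD.mem_nhds (hb t hx))) (fun x hx => ?_)
    (hm _ hp.2 t) (hm _ hp.1 t)).trans
      (mul_le_mul_of_nonneg_left ((p.1 - p.2).norm_coe_le_norm t) hε.le)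
  rw [hA, ← dist_eq_norm, dist_comm]
  exact (hδ₂ ((mem_ball'.1 hx).trans_le (min_le_right _ _)) (mem_range_self t)).le

theorem F2_sol {Y : E → E} (hY : DifferentiableOn ℂ Y D) {v : C(Icc (0 : ℝ) 1, E)}
    (hv : ∀ t, v t ∈ D) {z : E}
    (h : v - F2_int (ContinuousMap.mkD (Y ∘ v) 0) = ContinuousMap.const _ z) :
    ∃ γ, IsSol D Y z γ ∧ γ 1 = v ⟨1, zero_le_one, le_rfl⟩ := by
  have e : ∀ t : Icc (0 : ℝ) 1,
      z + ∫ s in (0 : ℝ)..t, IccExtend zero_le_one (ContinuousMap.mkD (Y ∘ v) 0) s = v t :=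
    fun t => (sub_eq_iff_eq_add.1 (DFunLike.congr_fun h t)).symm
  refine ⟨fun t => z + ∫ s in (0 : ℝ)..t, IccExtend zero_le_one (ContinuousMap.mkD (Y ∘ v) 0) s,
    ⟨by simp, fun t ht => ?_⟩, e ⟨1, zero_le_one, le_rfl⟩⟩
  have h1 := ((F2_deriv (ContinuousMap.mkD (Y ∘ v) 0) t).const_add z).hasDerivWithinAt
    (s := Icc 0 1)
  rw [IccExtend_of_mem _ _ ht, F2_sup_apply hY hv, ← e] at h1
  exact ⟨mem_of_eq_of_mem (e ⟨t, ht⟩) (hv _), h1⟩

omit [FiniteDimensional ℂ E] in
theorem F2_shift {Y : E → E} {z : E} {c : ℝ → E} (hc : IsSol D Y z c) {s h : ℝ} (hs : 0 ≤ s)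
    (hh : 0 ≤ h) (h1 : s + h ≤ 1) : IsSol D ((h : ℂ) • Y) (c s) fun u => c (s + h * u) := by
  have hm : MapsTo (fun u => s + h * u) (Icc (0 : ℝ) 1) (Icc 0 1) := fun u hu =>
    ⟨by have := hu.1; positivity, by nlinarith [hu.2]⟩
  refine ⟨by simp, fun t ht => ⟨(hc.2 _ (hm ht)).1, ?_⟩⟩
  have h2 := (hc.2 _ (hm ht)).2.scomp t
    (((hasDerivAt_id t).const_mul h).const_add s).hasDerivWithinAt hm
  rw [mul_one] at h2
  exact h2

theorem F2_equiv {B : Type*} [NormedAddCommGroup B] [NormedSpace ℂ B] [CompleteSpace B]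
    (J K : B →L[ℂ] B) (hJ : ‖J‖ ≤ 1) (hK : ‖K‖ ≤ 1 / 2) :
    ∃ L : B ≃L[ℂ] B, L.toContinuousLinearMap = ContinuousLinearMap.id ℂ B - J.comp K := by
  have h : ‖J.comp K‖ < 1 := by
    linarith [mul_le_mul hJ hK (norm_nonneg _) zero_le_one, J.opNorm_comp_le K]
  exact ⟨ContinuousLinearEquiv.ofUnit (Units.oneSub _ h), rfl⟩

theorem master_small (hD : IsOpen D) {Y : E → E} (hY : DifferentiableOn ℂ Y D) {z₀ : E}
    {c : ℝ → E} (hc : IsSol D Y z₀ c) (hs : ∀ t ∈ Icc (0 : ℝ) 1, ‖fderiv ℂ Y (c t)‖ ≤ 1 / 2) :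
    (∀ᶠ z in 𝓝 z₀, HasSol D Y z) ∧ DifferentiableAt ℂ (ex D Y) z₀ := by
  have := FiniteDimensional.complete ℂ E
  have hcc : ContinuousOn c (Icc 0 1) := fun t ht => (hc.2 t ht).2.continuousWithinAt
  let c₀ : C(Icc (0 : ℝ) 1, E) := ⟨fun t => c t, hcc.domRestrict⟩
  have h0 : ∀ t, c₀ t ∈ D := fun t => (hc.2 t t.2).1
  let A : C(Icc (0 : ℝ) 1, E →L[ℂ] E) :=
    ⟨fun t => fderiv ℂ Y (c₀ t), (fderiv_hol hD hY).continuousOn.comp_continuous c₀.continuous h0⟩
  obtain ⟨L, hL⟩ := F2_equiv (F2_int (E := E)) (F2_mul A)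
    (LinearMap.mkContinuous_norm_le _ zero_le_one _)
    ((F2_mul_le A).trans ((ContinuousMap.norm_le _ (by positivity)).2 fun t => hs t t.2))
  have hΦ : HasStrictFDerivAt
      (fun v : C(Icc (0 : ℝ) 1, E) => v - F2_int (ContinuousMap.mkD (Y ∘ v) 0))
      L.toContinuousLinearMap c₀ := by
    rw [hL]
    exact (hasStrictFDerivAt_id c₀).sub
      (F2_int.hasStrictFDerivAt.comp c₀ (F2_strict hD hY h0 (A := A) fun _ => rfl))
  have e0 : c₀ - F2_int (ContinuousMap.mkD (Y ∘ c₀) 0) = ContinuousMap.const _ z₀ := by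
    ext t
    rw [ContinuousMap.sub_apply, F2_int_apply, intervalIntegral.integral_eq_sub_of_hasDerivAt_of_le
      t.2.1 (hcc.mono (Icc_subset_Icc_right t.2.2)) (fun s hs => ?_)
      ((F2_cont _).intervalIntegrable _ _), hc.1]
    · exact sub_sub_cancel _ _
    · have h1 : s ∈ Ioo (0 : ℝ) 1 := ⟨hs.1, hs.2.trans_le t.2.2⟩
      rw [IccExtend_of_mem _ _ (Ioo_subset_Icc_self h1), F2_sup_apply hY h0]
      exact (hc.2 s (Ioo_subset_Icc_self h1)).2.hasDerivAt (Icc_mem_nhds h1.1 h1.2)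
  let ι : E →L[ℂ] C(Icc (0 : ℝ) 1, E) := ContinuousLinearMap.const ℂ _
  have hι : ∀ z, ι z = ContinuousMap.const _ z := fun _ => rfl
  have hG := hΦ.to_localInverse.differentiableAt
  have h1 := hΦ.eventually_right_inverse
  have h2 := hΦ.localInverse_tendsto.eventually (F2_tube hD h0)
  rw [e0, ← hι] at hG h1 h2
  have h3 : ∀ᶠ z in 𝓝 z₀, ∃ γ, IsSol D Y z γ ∧
      γ 1 = hΦ.localInverse _ _ _ (ι z) ⟨1, zero_le_one, le_rfl⟩ := by
    filter_upwards [ι.continuous.continuousAt.eventually h1,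
      ι.continuous.continuousAt.eventually h2] with z hz hz'
    exact F2_sol hY hz' hz
  refine ⟨h3.mono fun z hz => hz.imp fun _ h => h.1, DifferentiableAt.congr_of_eventuallyEq
    ((ContinuousMap.evalCLM ℂ (⟨1, zero_le_one, le_rfl⟩ : Icc (0 : ℝ) 1)).differentiableAt.comp z₀
      (hG.comp z₀ ι.differentiableAt)) ?_⟩
  filter_upwards [h3] with z ⟨γ, hγ, e⟩
  rw [hγ.ex_eq hD hY, e]
  rfl

theorem master₀ (hD : IsOpen D) {Y : E → E} (hY : DifferentiableOn ℂ Y D) {z₀ : E}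
    (h : HasSol D Y z₀) : (∀ᶠ z in 𝓝 z₀, HasSol D Y z) ∧ DifferentiableAt ℂ (ex D Y) z₀ := by
  have := FiniteDimensional.complete ℂ E
  obtain ⟨c, hc⟩ := h
  obtain ⟨M, hM⟩ := isCompact_Icc.exists_bound_of_continuousOn
    ((fderiv_hol hD hY).continuousOn.comp (fun t ht => (hc.2 t ht).2.continuousWithinAt)
      fun t ht => (hc.2 t ht).1)
  obtain ⟨m, hm⟩ := exists_nat_gt (2 * |M|)
  have hm0 : (0 : ℝ) < m := lt_of_le_of_lt (by positivity) hm
  have key : ∀ j : ℕ, j ≤ m → (∀ᶠ z in 𝓝 z₀, HasSol D (((j / m : ℝ) : ℂ) • Y) z) ∧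
      DifferentiableAt ℂ (ex D (((j / m : ℝ) : ℂ) • Y)) z₀ := by
    intro j hj
    induction j with
    | zero =>
      rw [Nat.cast_zero, zero_div, ofReal_zero, zero_smul, funext (ex_zero hD)]
      exact ⟨Filter.mem_of_superset (hD.mem_nhds (HasSol.mem ⟨c, hc⟩)) semiC_zero.2,
        differentiableAt_id⟩
    | succ j ih =>
      obtain ⟨h1, h2⟩ := ih (Nat.le_of_succ_le hj)
      have hs : (0 : ℝ) ≤ j / m := by positivity
      have hh : (0 : ℝ) ≤ 1 / m := by positivity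
      have e : ((j + 1 : ℕ) / m : ℝ) = j / m + 1 / m := by rw [Nat.cast_succ, add_div]
      have h3 : (j / m + 1 / m : ℝ) ≤ 1 := by
        rw [← e, div_le_one hm0]
        exact_mod_cast hj
      obtain ⟨h4, h5⟩ := master_small hD (hY.const_smul ((1 / m : ℝ) : ℂ)) (F2_shift hc hs hh h3)
        fun t ht => by
          have ht' : j / m + 1 / m * t ∈ Icc (0 : ℝ) 1 :=
            ⟨by have := ht.1; positivity, by nlinarith [ht.2]⟩
          rw [fderiv_const_smul (hY.differentiableAt (hD.mem_nhds (hc.2 _ ht').1)), norm_smul,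
            norm_real, Real.norm_of_nonneg hh, one_div_mul_eq_div, div_le_iff₀ hm0]
          have h7 : ‖fderiv ℂ Y (c _)‖ ≤ |M| := (hM _ ht').trans (le_abs_self M)
          linarith
      rw [← hc.ex_smul_eq hD hY ⟨hs, by linarith⟩] at h4 h5
      have h6 := (h1.and (h2.continuousAt.eventually h4)).mono fun z hz =>
        HasSol.concat hD hY hs hh hz.1 hz.2
      rw [e]
      exact ⟨h6.mono fun _ h => h.1, (h5.comp z₀ h2).congr_of_eventuallyEq (h6.mono fun _ h => h.2)⟩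
  simpa [hm0.ne'] using key m le_rfl

end Pool.Agent.P.MP_2ff09b_gt
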