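import Pool.Agent.P.MP_2ff09b_gt.F2

/-! CVX-F3. Dependence on parameters and first consequences.
Sketch. master: apply master₀ on P × E to the field (a, z) ↦ (0, Y a z) on O ×ˢ D; its
trajectories are (a, c t). hasDerivAt_ex_smul: the function of the complex time is differentiable
(master with P = ℂ); for ζ = 0 compute the derivative along positive real times from
HasSol.isSol (take a small t0 > 0 with HasSol (t0 Y)); for ζ nonzero use the real times s ζ,
s increasing to 1. hasFDerivAt_ex_fld_zero: the joint map is differentiable at (0, z); compute the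
two directional derivatives (ex_zero and hasDerivAt_ex_smul). -/

open Set MeasureTheory Complex Filter Topology Metric

noncomputable section

namespace Pool.Agent.P.MP_2ff09b_gt

variable {E : Type*} [NormedAddCommGroup E] [NormedSpace ℂ E] [FiniteDimensional ℂ E] {D : Set E}


variable {P : Type*} [NormedAddCommGroup P] [NormedSpace ℂ P] [FiniteDimensional ℂ P]

omit [FiniteDimensional ℂ E] [FiniteDimensional ℂ P] in
theorem F3_hol {O : Set P} {Y : P → E → E}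
    (hY : DifferentiableOn ℂ (fun x : P × E => Y x.1 x.2) (O ×ˢ D)) {a : P} (ha : a ∈ O) :
    DifferentiableOn ℂ (Y a) D :=
  hY.comp (f := fun z : E => (a, z)) (by fun_prop) fun _ hz => ⟨ha, hz⟩

omit [FiniteDimensional ℂ E] [FiniteDimensional ℂ P] in
theorem F3_up {O : Set P} {Y : P → E → E} {a : P} (ha : a ∈ O) {z : E} {c : ℝ → E}
    (h : IsSol D (Y a) z c) :
    IsSol (O ×ˢ D) (fun x : P × E => ((0 : P), Y x.1 x.2)) (a, z) fun t => (a, c t) :=
  ⟨by simp only [h.1], fun t ht =>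
    ⟨⟨ha, (h.2 t ht).1⟩, (hasDerivWithinAt_const t _ a).prodMk (h.2 t ht).2⟩⟩

omit [FiniteDimensional ℂ E] [FiniteDimensional ℂ P] in
theorem F3_down {O : Set P} {Y : P → E → E} {x : P × E}
    (h : HasSol (O ×ˢ D) (fun x : P × E => ((0 : P), Y x.1 x.2)) x) :
    x.1 ∈ O ∧ HasSol D (Y x.1) x.2 := by
  refine ⟨h.mem.1, ?_⟩
  obtain ⟨c, h0, h⟩ := h
  have h1 : ∀ t ∈ Icc (0 : ℝ) 1, HasDerivWithinAt (fun t => (c t).1) 0 (Icc 0 1) t := fun t ht =>
    (ContinuousLinearMap.fst ℝ P E).hasFDerivAt.comp_hasDerivWithinAt t (h t ht).2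
  have h2 : ∀ t ∈ Icc (0 : ℝ) 1, (c t).1 = (c 0).1 :=
    constant_of_has_deriv_right_zero (f := fun t => (c t).1)
      (fun t ht => (h1 t ht).continuousWithinAt) fun t ht =>
        (h1 t (Ico_subset_Icc_self ht)).mono_of_mem_nhdsWithin (Icc_mem_nhdsGE_of_mem ht)
  refine ⟨fun t => (c t).2, by simp only [h0], fun t ht => ⟨(h t ht).1.2, ?_⟩⟩
  rw [← h0, ← h2 t ht]
  exact (ContinuousLinearMap.snd ℝ P E).hasFDerivAt.comp_hasDerivWithinAt t (h t ht).2

theorem master {O : Set P} (hO : IsOpen O) (hD : IsOpen D) {Y : P → E → E}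
    (hY : DifferentiableOn ℂ (fun x : P × E => Y x.1 x.2) (O ×ˢ D)) :
    IsOpen {x : P × E | x.1 ∈ O ∧ HasSol D (Y x.1) x.2} ∧
      DifferentiableOn ℂ (fun x : P × E => ex D (Y x.1) x.2)
        {x : P × E | x.1 ∈ O ∧ HasSol D (Y x.1) x.2} := by
  have hY' : DifferentiableOn ℂ (fun x : P × E => ((0 : P), Y x.1 x.2)) (O ×ˢ D) :=
    (differentiableOn_const _).prodMk hY
  have hU := hO.prod hD
  have h1 : ∀ x : P × E, x.1 ∈ O ∧ HasSol D (Y x.1) x.2 →
      HasSol (O ×ˢ D) (fun x : P × E => ((0 : P), Y x.1 x.2)) x := fun x hx =>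
    ⟨_, F3_up hx.1 hx.2.choose_spec⟩
  refine ⟨isOpen_iff_mem_nhds.2 fun x hx => ((master₀ hU hY' (h1 x hx)).1.mono fun _ => F3_down),
    DifferentiableOn.congr (f := fun x =>
      (ex (O ×ˢ D) (fun x : P × E => ((0 : P), Y x.1 x.2)) x).2)
      (fun x hx => (master₀ hU hY' (h1 x hx)).2.snd.differentiableWithinAt) ?_⟩
  rintro ⟨a, z⟩ ⟨ha, c, hc⟩
  rw [(F3_up ha hc).ex_eq hU hY']
  exact hc.ex_eq hD (F3_hol hY ha)

theorem master_at {O : Set P} (hO : IsOpen O) (hD : IsOpen D) {Y : P → E → E}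
    (hY : DifferentiableOn ℂ (fun x : P × E => Y x.1 x.2) (O ×ˢ D)) {a : P} {z : E} (ha : a ∈ O)
    (h : HasSol D (Y a) z) (k : ℕ) :
    (∀ᶠ x : P × E in 𝓝 (a, z), HasSol D (Y x.1) x.2) ∧
      ContDiffAt ℂ k (fun x : P × E => ex D (Y x.1) x.2) (a, z) := by
  have := FiniteDimensional.complete ℂ E
  obtain ⟨h1, h2⟩ := master hO hD hY
  have h3 : (a, z) ∈ {x : P × E | x.1 ∈ O ∧ HasSol D (Y x.1) x.2} := ⟨ha, h⟩
  exact ⟨mem_of_superset (h1.mem_nhds h3) fun _ hx => hx.2, contDiffAt_of_hol h1 h2 h3 k⟩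

theorem master_smul (hD : IsOpen D) {Y : E → E} (hY : DifferentiableOn ℂ Y D) {ζ : ℂ} {z : E}
    (h : HasSol D (ζ • Y) z) (k : ℕ) :
    (∀ᶠ x : ℂ × E in 𝓝 (ζ, z), HasSol D (x.1 • Y) x.2) ∧
      ContDiffAt ℂ k (fun x : ℂ × E => ex D (x.1 • Y) x.2) (ζ, z) := by
  exact master_at (Y := fun ξ : ℂ => ξ • Y) isOpen_univ hD
    (differentiableOn_fst.smul (hY.comp differentiableOn_snd fun _ hx => hx.2)) (mem_univ ζ) h k

theorem master_fld (hD : IsOpen D) {N : ℕ} {W : Fin N → E → E}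
    (hW : ∀ j, DifferentiableOn ℂ (W j) D) {U : Fin N → ℂ} {z : E} (h : HasSol D (fld W U) z)
    (k : ℕ) :
    (∀ᶠ x : (Fin N → ℂ) × E in 𝓝 (U, z), HasSol D (fld W x.1) x.2) ∧
      ContDiffAt ℂ k (fun x : (Fin N → ℂ) × E => ex D (fld W x.1) x.2) (U, z) := by
  exact master_at (Y := fld W) isOpen_univ hD (fld_hol_prod hW) (mem_univ U) h k

theorem HasSol.differentiableAt (hD : IsOpen D) {Y : E → E} (hY : DifferentiableOn ℂ Y D) {z : E}
    (h : HasSol D Y z) : DifferentiableAt ℂ (ex D Y) z :=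
  (master₀ hD hY h).2

theorem SemiC.hol_ex (hD : IsOpen D) {Y : E → E} (h : SemiC D Y) :
    DifferentiableOn ℂ (ex D Y) D := fun z hz =>
  (master₀ hD h.1 (h.2 z hz)).2.differentiableWithinAt

theorem hasDerivAt_ex_smul (hD : IsOpen D) {Y : E → E} (hY : DifferentiableOn ℂ Y D) {ζ : ℂ}
    {z : E} (h : HasSol D (ζ • Y) z) :
    HasDerivAt (fun ξ : ℂ => ex D (ξ • Y) z) (Y (ex D (ζ • Y) z)) ζ := by
  obtain ⟨h1, h2⟩ := master_smul hD hY h 1
  have hi : ContDiffAt ℂ 1 (fun ξ : ℂ => (ξ, z)) ζ := by fun_prop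
  have h2' := (h2.comp ζ hi).differentiableAt one_ne_zero
  have h3 : HasDerivAt (fun ξ : ℂ => ex D (ξ • Y) z) (deriv (fun ξ : ℂ => ex D (ξ • Y) z) ζ) ζ :=
    h2'.hasDerivAt
  obtain ⟨η, s, hη, hs, hsol, rfl⟩ : ∃ (η : ℂ) (s : ℝ), η ≠ 0 ∧ s ∈ Icc (0 : ℝ) 1 ∧
      HasSol D (η • Y) z ∧ ζ = s * η := by
    by_cases h0 : ζ = 0
    · subst h0
      have h4 : ∀ᶠ ξ : ℂ in 𝓝[≠] 0, HasSol D (ξ • Y) z :=
        (hi.continuousAt.eventually h1).filter_mono nhdsWithin_le_nhds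
      obtain ⟨η, h5, h6⟩ := (h4.and self_mem_nhdsWithin).exists
      exact ⟨η, 0, h6, ⟨le_rfl, zero_le_one⟩, h5, by simp⟩
    · exact ⟨ζ, 1, h0, ⟨zero_le_one, le_rfl⟩, h, by simp⟩
  have h4 := ((hsol.isSol hD (hY.const_smul η)).2 s hs).2
  simp only [smul_smul] at h4
  have h5 : HasDerivAt (fun t : ℝ => (t : ℂ) * η) η s := by
    simpa using (hasDerivAt_id s).ofReal_comp.mul_const η
  have h6 := (uniqueDiffOn_Icc zero_lt_one s hs).eq_deriv _
    (HasDerivAt.scomp (h := fun t : ℝ => (t : ℂ) * η) s h3 h5).hasDerivWithinAt h4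
  rw [Pi.smul_apply] at h6
  rwa [smul_right_injective E hη h6] at h3

theorem hasDerivAt_ex_smul_real (hD : IsOpen D) {Y : E → E} (hY : DifferentiableOn ℂ Y D) {t : ℝ}
    {z : E} (h : HasSol D ((t : ℂ) • Y) z) :
    HasDerivAt (fun s : ℝ => ex D ((s : ℂ) • Y) z) (Y (ex D ((t : ℂ) • Y) z)) t := by
  have h1 := HasDerivAt.scomp (h := fun s : ℝ => (s : ℂ)) t (hasDerivAt_ex_smul hD hY h)
    (hasDerivAt_id t).ofReal_comp
  rw [ofReal_one, one_smul] at h1
  exact h1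

theorem disc_hol (hD : IsOpen D) {V u : E → E} (hV : DifferentiableOn ℂ V D)
    (hu : DifferentiableOn ℂ u D) {z : E} (h : ∀ ζ ∈ ball (0 : ℂ) 1, HasSol D (V + ζ • u) z) :
    DifferentiableOn ℂ (fun ζ : ℂ => ex D (V + ζ • u) z) (ball 0 1) := by
  intro ζ hζ
  have h1 := (master_at (Y := fun ξ : ℂ => V + ξ • u) isOpen_univ hD
    ((hV.comp differentiableOn_snd fun _ hx => hx.2).add
      (differentiableOn_fst.smul (hu.comp differentiableOn_snd fun _ hx => hx.2)))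
    (mem_univ ζ) (h ζ hζ) 1).2
  have hi : ContDiffAt ℂ 1 (fun ξ : ℂ => (ξ, z)) ζ := by fun_prop
  exact ((h1.comp ζ hi).differentiableAt one_ne_zero).differentiableWithinAt

theorem hasFDerivAt_ex_fld_zero (hD : IsOpen D) {N : ℕ} {W : Fin N → E → E}
    (hW : ∀ j, DifferentiableOn ℂ (W j) D) {z : E} (hz : z ∈ D) :
    HasStrictFDerivAt (fun x : (Fin N → ℂ) × E => ex D (fld W x.1) x.2)
      ((fldL W z).coprod (ContinuousLinearMap.id ℂ E)) (0, z) := by
  have h0 : HasSol D (fld W 0) z := by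
    rw [fld_zero]
    exact semiC_zero.2 z hz
  have h1 := ((master_fld hD hW h0 1).2).hasStrictFDerivAt one_ne_zero
  obtain ⟨L, hL⟩ : ∃ L, L = fderiv ℂ (fun x : (Fin N → ℂ) × E => ex D (fld W x.1) x.2) (0, z) :=
    ⟨_, rfl⟩
  rw [← hL] at h1
  have h2 : L.comp (ContinuousLinearMap.inr ℂ _ E) = ContinuousLinearMap.id ℂ E := by
    have h3 := h1.hasFDerivAt.comp z (hasFDerivAt_prodMk_right (0 : Fin N → ℂ) z)
    have h4 : ((fun x : (Fin N → ℂ) × E => ex D (fld W x.1) x.2) ∘ fun e => (0, e)) = id := by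
      funext e
      simp only [Function.comp_apply, fld_zero, ex_zero hD, id]
    rw [h4] at h3
    exact h3.unique (hasFDerivAt_id z)
  have h5 : ∀ U, L (U, 0) = fld W U z := fun U => by
    have h3 : HasDerivAt (fun t : ℂ => (t • U, z)) (U, 0) 0 := by
      simpa using ((hasDerivAt_id (0 : ℂ)).smul_const U).prodMk (hasDerivAt_const (0 : ℂ) z)
    have h4 := HasFDerivAt.comp_hasDerivAt_of_eq (0 : ℂ) h1.hasFDerivAt h3 (by simp)
    have h6 := hasDerivAt_ex_smul hD (fld_hol hW U) (ζ := 0) (z := z) (by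
      rw [zero_smul]
      exact semiC_zero.2 z hz)
    rw [zero_smul, ex_zero hD] at h6
    refine h4.unique ?_
    simpa only [Function.comp_def, fld_smul] using h6
  have h7 : L = (fldL W z).coprod (ContinuousLinearMap.id ℂ E) := by
    refine ContinuousLinearMap.ext fun x => ?_
    have h8 : x = (x.1, 0) + (0, x.2) := by simp
    rw [ContinuousLinearMap.coprod_apply, fldL_apply, ← h5, ← h2]
    conv_lhs => rw [h8, map_add]
    rfl
  rwa [h7] at h1

end Pool.Agent.P.MP_2ff09b_gt
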