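import Pool.Agent.P.MP_2ff09b_gt.F3

/-! CVX-F4. The variational equation and push-forward of fields by flows.
Sketch. G(ξ, z) = ex D (ξ • Y) z is C² near (ζ, z) (master_smul) and its derivative in ξ is
Y (G(ξ, z)) near (ζ, z) (hasDerivAt_ex_smul); differentiate in z and use the symmetry of second
derivatives. Push-forward: both t ↦ fderiv (ex (t Y)) z (fld U z) and
t ↦ fld (exp (-t T) U) (ex (t Y) z) solve the linear equation v' = dY(ex (t Y) z) v on [0,1] with
the same initial value (recall lieBracket Y V x = dV (Y x) - dY (V x)); uniqueness by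
ODE_solution_unique_of_mem_Icc_right or Gronwall. The other two statements are the case N = 1
(or the same argument). hasDerivAt_push: chain rule at t = 0 with the joint smoothness. -/

open Set MeasureTheory Complex Filter Topology Metric

noncomputable section

namespace Pool.Agent.P.MP_2ff09b_gt

variable {E : Type*} [NormedAddCommGroup E] [NormedSpace ℂ E] [FiniteDimensional ℂ E] {D : Set E}


omit [FiniteDimensional ℂ E] in
theorem F4_real {g : ℂ → E} {g' : E} {t : ℝ} (h : HasDerivAt g g' (t : ℂ)) :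
    HasDerivAt (fun s : ℝ => g (s : ℂ)) g' t := by
  have h1 := HasDerivAt.scomp (𝕜 := ℝ) t (h := fun s : ℝ => (s : ℂ)) h ofRealCLM.hasDerivAt
  rw [ofRealCLM_apply, ofReal_one, one_smul] at h1
  exact h1

omit [FiniteDimensional ℂ E] in
theorem F4_left {G : ℂ × E → E} {x : ℂ × E} (h : DifferentiableAt ℂ G x) :
    HasDerivAt (fun ξ : ℂ => G (ξ, x.2)) (fderiv ℂ G x (1, 0)) x.1 :=
  h.hasFDerivAt.comp_hasDerivAt x.1 ((hasDerivAt_id x.1).prodMk (hasDerivAt_const x.1 x.2))

omit [FiniteDimensional ℂ E] in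
theorem F4_right {G : ℂ × E → E} {x : ℂ × E} (h : DifferentiableAt ℂ G x) :
    HasFDerivAt (fun w : E => G (x.1, w)) ((fderiv ℂ G x).comp (ContinuousLinearMap.inr ℂ ℂ E))
      x.2 :=
  h.hasFDerivAt.comp x.2 (hasFDerivAt_prodMk_right x.1 x.2)

omit [FiniteDimensional ℂ E] in
theorem F4_ev {G : ℂ × E → E} {p : ℂ × E} (h : ContDiffAt ℂ 2 G p) :
    ∀ᶠ x in 𝓝 p, DifferentiableAt ℂ G x :=
  (h.eventually (by simp)).mono fun _ hx => hx.differentiableAt (by simp)

omit [FiniteDimensional ℂ E] in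
theorem F4_two {G : ℂ × E → E} {p : ℂ × E} (h : ContDiffAt ℂ 2 G p) :
    DifferentiableAt ℂ (fderiv ℂ G) p :=
  (h.fderiv_right (m := 1) (by norm_num)).differentiableAt (by simp)

omit [FiniteDimensional ℂ E] in
theorem F4_mixed {G : ℂ × E → E} {Y : E → E} {p : ℂ × E} (h : ContDiffAt ℂ 2 G p)
    (hY : DifferentiableAt ℂ Y (G p))
    (hd : ∀ᶠ x in 𝓝 p, HasDerivAt (fun ξ : ℂ => G (ξ, x.2)) (Y (G x)) x.1) :
    HasDerivAt (fun ξ : ℂ => fderiv ℂ (fun w => G (ξ, w)) p.2)
      ((fderiv ℂ Y (G p)).comp (fderiv ℂ (fun w => G (p.1, w)) p.2)) p.1 := by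
  have h1 := F4_ev h
  have h2 := F4_two h
  have h3 : (fun x => fderiv ℂ G x (1, 0)) =ᶠ[𝓝 p] fun x => Y (G x) := by
    filter_upwards [h1, hd] with x a b
    exact (F4_left a).unique b
  have h4 := h2.hasFDerivAt.clm_apply (hasFDerivAt_const ((1, 0) : ℂ × E) p)
  have h5 := hY.hasFDerivAt.comp p h1.self_of_nhds.hasFDerivAt
  have h6 := (h4.congr_of_eventuallyEq h3.symm).unique h5
  have h7 := h.isSymmSndFDerivAt (by simp)
  have h8 : HasDerivAt (fun ξ : ℂ => fderiv ℂ G (ξ, p.2)) (fderiv ℂ (fderiv ℂ G) p (1, 0)) p.1 :=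
    h2.hasFDerivAt.comp_hasDerivAt p.1 ((hasDerivAt_id p.1).prodMk (hasDerivAt_const p.1 p.2))
  have h9 := h8.clm_comp (hasDerivAt_const p.1 (ContinuousLinearMap.inr ℂ ℂ E))
  have h10 : (fun ξ : ℂ => fderiv ℂ (fun w => G (ξ, w)) p.2) =ᶠ[𝓝 p.1]
      fun ξ => (fderiv ℂ G (ξ, p.2)).comp (ContinuousLinearMap.inr ℂ ℂ E) := by
    have hc : ContinuousAt (fun ξ : ℂ => (ξ, p.2)) p.1 := by fun_prop
    filter_upwards [hc.eventually h1] with ξ a
    exact (F4_right a).fderiv
  refine (h9.congr_of_eventuallyEq h10).congr_deriv ?_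
  rw [(F4_right h1.self_of_nhds).fderiv]
  ext v
  have h11 := congrArg (fun L => L ((0, v) : ℂ × E)) h6
  simp only [add_apply, ContinuousLinearMap.comp_apply,
    zero_apply, map_zero, zero_add, ContinuousLinearMap.flip_apply] at h11
  simp only [add_apply, ContinuousLinearMap.comp_apply,
    zero_apply, map_zero, add_zero, ContinuousLinearMap.inr_apply]
  rw [← h11]
  exact h7 _ _

theorem hasDerivAt_fderiv_ex (hD : IsOpen D) {Y : E → E} (hY : DifferentiableOn ℂ Y D) {ζ : ℂ}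
    {z : E} (h : HasSol D (ζ • Y) z) :
    HasDerivAt (fun ξ : ℂ => fderiv ℂ (ex D (ξ • Y)) z)
      ((fderiv ℂ Y (ex D (ζ • Y) z)).comp (fderiv ℂ (ex D (ζ • Y)) z)) ζ := by
  obtain ⟨h1, h2⟩ := master_smul hD hY h 2
  exact F4_mixed (G := fun x : ℂ × E => ex D (x.1 • Y) x.2) (p := (ζ, z)) h2
    (hY.differentiableAt (hD.mem_nhds h.ex_mem))
    (h1.mono fun x hx => hasDerivAt_ex_smul hD hY hx)

theorem F4_uniq (hD : IsOpen D) {Y : E → E} (hY : DifferentiableOn ℂ Y D) {z : E}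
    (h : HasSol D Y z) {g : ℂ → E}
    (hg : ∀ ζ : ℂ, HasSol D (ζ • Y) z → HasDerivAt g (fderiv ℂ Y (ex D (ζ • Y) z) (g ζ)) ζ) :
    fderiv ℂ (ex D Y) z (g 0) = g 1 := by
  have hs : ∀ t ∈ Icc (0 : ℝ) 1, HasSol D ((t : ℂ) • Y) z := fun t ht =>
    ⟨_, (h.isSol hD hY).smul ht⟩
  have hc : ContinuousOn (fun t : ℝ => fderiv ℂ Y (ex D ((t : ℂ) • Y) z)) (Icc 0 1) :=
    (fderiv_hol hD hY).continuousOn.comp (f := fun t : ℝ => ex D ((t : ℂ) • Y) z)
      (fun t ht => (hasDerivAt_ex_smul_real hD hY (hs t ht)).continuousAt.continuousWithinAt)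
      (fun t ht => (hs t ht).ex_mem)
  obtain ⟨K, hK⟩ := isCompact_Icc.exists_bound_of_continuousOn hc
  have hd : ∀ t ∈ Icc (0 : ℝ) 1, HasDerivAt
      (fun s : ℝ => fderiv ℂ (ex D ((s : ℂ) • Y)) z (g 0) - g s)
      (fderiv ℂ Y (ex D ((t : ℂ) • Y) z) (fderiv ℂ (ex D ((t : ℂ) • Y)) z (g 0) - g t)) t := by
    intro t ht
    have h1 := ((hasDerivAt_fderiv_ex hD hY (hs t ht)).clm_apply
      (hasDerivAt_const (t : ℂ) (g 0))).sub (hg t (hs t ht))
    refine (F4_real h1).congr_deriv ?_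
    rw [map_zero, add_zero, map_sub, ContinuousLinearMap.comp_apply]
  have h0 := eq_zero_of_abs_deriv_le_mul_abs_self_of_eq_zero_right (K := K)
    (fun t ht => (hd t ht).continuousAt.continuousWithinAt)
    (fun t ht => (hd t (Ico_subset_Icc_self ht)).hasDerivWithinAt)
    (by
      have e : ex D (0 : E → E) = id := funext (ex_zero hD)
      rw [ofReal_zero, zero_smul, e, fderiv_id, ContinuousLinearMap.id_apply, sub_self])
    (fun t ht => (ContinuousLinearMap.le_opNorm _ _).trans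
      (mul_le_mul_of_nonneg_right (hK t (Ico_subset_Icc_self ht)) (norm_nonneg _)))
    1 (right_mem_Icc.2 zero_le_one)
  rw [ofReal_one, one_smul, sub_eq_zero] at h0
  exact h0

theorem fderiv_ex_fld (hD : IsOpen D) {Y : E → E} (hY : DifferentiableOn ℂ Y D) {N : ℕ}
    {W : Fin N → E → E} (hW : ∀ j, DifferentiableOn ℂ (W j) D)
    (T : (Fin N → ℂ) →L[ℂ] (Fin N → ℂ))
    (hT : ∀ U, ∀ z ∈ D, VectorField.lieBracket ℂ Y (fld W U) z = fld W (T U) z) {z : E}
    (h : HasSol D Y z) (U : Fin N → ℂ) :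
    fderiv ℂ (ex D Y) z (fld W U z) = fld W (NormedSpace.exp (-T) U) (ex D Y z) := by
  have h1 := F4_uniq hD hY h
    (g := fun ξ => fld W (NormedSpace.exp (ξ • (-T)) U) (ex D (ξ • Y) z)) (fun ζ hζ => by
      have hm := hζ.ex_mem
      have a1 := hasDerivAt_ex_smul hD hY hζ
      have a2 := (hasDerivAt_exp_smul_const' (𝕂 := ℂ) (-T) ζ).clm_apply (hasDerivAt_const ζ U)
      have a3 : DifferentiableAt ℂ (fun x : (Fin N → ℂ) × E => fld W x.1 x.2)
          (NormedSpace.exp (ζ • (-T)) U, ex D (ζ • Y) z) :=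
        (fld_hol_prod hW).differentiableAt ((isOpen_univ.prod hD).mem_nhds ⟨mem_univ _, hm⟩)
      have a4 := a3.hasFDerivAt.comp_hasDerivAt ζ (a2.prodMk a1)
      refine a4.congr_deriv ?_
      have a5 := hT (NormedSpace.exp (ζ • (-T)) U) _ hm
      rw [map_zero, add_zero, mul_apply_eq_comp]
      generalize NormedSpace.exp (ζ • (-T)) U = U' at a3 a5 ⊢
      generalize ex D (ζ • Y) z = c at a3 a5 ⊢
      have b1 := (HasFDerivAt.comp U' (f := fun e => (e, c)) a3.hasFDerivAt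
        (hasFDerivAt_prodMk_left U' c)).unique (fldL W c).hasFDerivAt
      have b2 : fderiv ℂ (fld W U') c = _ := (HasFDerivAt.comp c (f := fun e => (U', e))
        a3.hasFDerivAt (hasFDerivAt_prodMk_right U' c)).fderiv
      have b3 := congrArg (fun L => L ((-T) U')) b1
      have b4 := congrArg (fun L => L (Y c)) b2
      simp only [ContinuousLinearMap.comp_apply, ContinuousLinearMap.inl_apply,
        ContinuousLinearMap.inr_apply, fldL_apply] at b3 b4
      have e : (((-T) U', Y c) : (Fin N → ℂ) × E) = ((-T) U', 0) + (0, Y c) := by simp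
      rw [e, map_add, b3, ← b4, ContinuousLinearMap.neg_apply, fld_neg, Pi.neg_apply, ← a5,
        VectorField.lieBracket, neg_sub]
      exact sub_add_cancel _ _)
  have e0 : (0 : ℂ) • (-T) = 0 := zero_smul ℂ (-T)
  simp only [zero_smul, one_smul, e0, NormedSpace.exp_zero, one_apply_eq_self,
    ex_zero hD] at h1
  exact h1

theorem fderiv_ex_eigen (hD : IsOpen D) {Y V : E → E} (hY : DifferentiableOn ℂ Y D)
    (hV : DifferentiableOn ℂ V D) {c : ℂ}
    (hc : ∀ z ∈ D, VectorField.lieBracket ℂ Y V z = c • V z) {z : E} (h : HasSol D Y z) :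
    fderiv ℂ (ex D Y) z (V z) = Complex.exp (-c) • V (ex D Y z) := by
  have h1 := F4_uniq hD hY h
    (g := fun ξ => Complex.exp (ξ * (-c)) • V (ex D (ξ • Y) z)) (fun ζ hζ => by
      have hm := hζ.ex_mem
      have a1 := hasDerivAt_ex_smul hD hY hζ
      have a2 := ((hasDerivAt_id ζ).mul_const (-c)).cexp
      have a3 := (hV.differentiableAt (hD.mem_nhds hm)).hasFDerivAt.comp_hasDerivAt ζ a1
      refine (a2.smul a3).congr_deriv ?_
      have a5 := hc _ hm
      rw [VectorField.lieBracket, sub_eq_iff_eq_add] at a5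
      rw [a5, map_smul]
      simp only [id, Function.comp]
      module)
  simp only [zero_smul, one_smul, zero_mul, one_mul, Complex.exp_zero, ex_zero hD] at h1
  exact h1

theorem fderiv_ex_of_comm (hD : IsOpen D) {Y V : E → E} (hY : DifferentiableOn ℂ Y D)
    (hV : DifferentiableOn ℂ V D) (hc : ∀ z ∈ D, VectorField.lieBracket ℂ Y V z = 0) {z : E}
    (h : HasSol D Y z) : fderiv ℂ (ex D Y) z (V z) = V (ex D Y z) := by
  have h1 := fderiv_ex_eigen hD hY hV (c := 0) (fun z hz => by rw [hc z hz, zero_smul]) h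
  rwa [neg_zero, Complex.exp_zero, one_smul] at h1

theorem hasDerivAt_push (hD : IsOpen D) {Y V : E → E} (hY : DifferentiableOn ℂ Y D)
    (hV : DifferentiableOn ℂ V D) {z : E} (hz : z ∈ D) :
    HasDerivAt (fun t : ℝ => fderiv ℂ (ex D ((t : ℂ) • Y)) (ex D (((-t : ℝ) : ℂ) • Y) z)
      (V (ex D (((-t : ℝ) : ℂ) • Y) z))) (-VectorField.lieBracket ℂ Y V z) 0 := by
  have h0 : HasSol D ((0 : ℂ) • Y) z := by
    rw [zero_smul]
    exact semiC_zero.2 z hz
  have e0 : ex D ((0 : ℂ) • Y) = id := by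
    rw [zero_smul]
    exact funext (ex_zero hD)
  have hVz := hV.differentiableAt (hD.mem_nhds hz)
  obtain ⟨-, h2⟩ := master_smul hD hY h0 2
  have h3 : DifferentiableAt ℂ (fun x : ℂ × E => fderiv ℂ (ex D (x.1 • Y)) x.2 (V x.2)) (0, z) := by
    have a1 := (F4_two h2).clm_apply ((differentiableAt_const (0 : ℂ)).prodMk
      (DifferentiableAt.comp ((0, z) : ℂ × E) (g := V) hVz differentiableAt_snd))
    refine a1.congr_of_eventuallyEq ?_
    filter_upwards [F4_ev h2] with x hx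
    exact congrArg (fun L => L (V x.2)) (F4_right hx).fderiv
  have h4 := (F4_left h3).unique ((hasDerivAt_fderiv_ex hD hY h0).clm_apply
    (hasDerivAt_const (0 : ℂ) (V z)))
  have h5 := (F4_right h3).fderiv
  have h6 : HasDerivAt (fun ξ : ℂ => ex D ((-ξ) • Y) z) (-Y z) 0 := by
    have a1 : HasDerivAt (fun ξ : ℂ => ex D (ξ • Y) z) (Y z) (-0) := by
      have := hasDerivAt_ex_smul hD hY h0
      rw [e0] at this
      rw [neg_zero]
      exact this
    have a2 := a1.scomp (0 : ℂ) (hasDerivAt_neg (0 : ℂ))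
    rw [neg_one_smul] at a2
    exact a2
  have h7 := h3.hasFDerivAt.comp_hasDerivAt_of_eq (0 : ℂ) ((hasDerivAt_id (0 : ℂ)).prodMk h6)
    (by rw [neg_zero, e0]; rfl)
  have h8 := F4_real (t := 0) (by rw [ofReal_zero]; exact h7)
  simp only [ofReal_neg]
  refine h8.congr_deriv ?_
  have e : ((1, -Y z) : ℂ × E) = (1, 0) - (0, Y z) := by simp
  have h9 := congrArg (fun L => L (Y z)) h5
  simp only [e0, fderiv_id, ContinuousLinearMap.id_apply, ContinuousLinearMap.comp_apply,
    ContinuousLinearMap.inr_apply, map_zero, add_zero, id] at h4 h9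
  rw [e, map_sub, h4, ← h9, VectorField.lieBracket, neg_sub]

end Pool.Agent.P.MP_2ff09b_gt
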