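import Pool.Agent.P.MP_2ff09b_gt.F4
import Pool.Agent.P.MP_2ff09b_gt.A7

/-! CVX-F5. The Liouville formula; fields are determined by their one-jet.
Sketch. hasDerivAt_det: for a differentiable curve of operators with A' = B ∘ A one has
(det A)' = trace B * det A. One proof: pass to matrices, det is multilinear in the columns
(Matrix.detRowAlternating, MultilinearMap derivative) or use the adjugate; it must hold without
assuming that A is invertible. Then the determinant along the flow solves a scalar linear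
equation with initial value 1, so it does not vanish (multiply by exp of minus a primitive, or
Gronwall backwards). eq_zero_of_jet: ex (t Y) fixes o, its derivative at o solves A' = 0, so it is
the identity; cartan_unique gives ex (t Y) = id on D for t >= 0; differentiate at t = 0. -/

open Set MeasureTheory Complex Filter Topology Metric

noncomputable section

namespace Pool.Agent.P.MP_2ff09b_gt

variable {E : Type*} [NormedAddCommGroup E] [NormedSpace ℂ E] [FiniteDimensional ℂ E] {D : Set E}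


theorem F5_matrix {n : Type} [Fintype n] [DecidableEq n] {M : ℝ → Matrix n n ℂ}
    {B : Matrix n n ℂ} {t : ℝ} (h : ∀ i j, HasDerivAt (fun s => M s i j) ((M t * B) i j) t) :
    HasDerivAt (fun s => (M s).det) (B.trace * (M t).det) t := by
  have h1 : HasDerivAt (fun s => ∑ σ : Equiv.Perm n, ((Equiv.Perm.sign σ : ℤ) : ℂ) *
      ∏ i, M s (σ i) i) (∑ σ : Equiv.Perm n, ((Equiv.Perm.sign σ : ℤ) : ℂ) *
        ∑ i, (∏ j ∈ Finset.univ.erase i, M t (σ j) j) • (M t * B) (σ i) i) t :=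
    HasDerivAt.fun_sum fun σ _ =>
      (HasDerivAt.fun_finsetProd (f := fun i s => M s (σ i) i) fun i _ => h (σ i) i).const_mul _
  have h2 : ∀ i, ∑ σ : Equiv.Perm n, ((Equiv.Perm.sign σ : ℤ) : ℂ) *
      ((∏ j ∈ Finset.univ.erase i, M t (σ j) j) • (M t * B) (σ i) i) = B i i * (M t).det := by
    intro i
    have h3 := Matrix.det_updateCol_sum (M t) i fun k => B k i
    rw [smul_eq_mul, Matrix.det_apply'] at h3
    rw [← h3]
    refine Finset.sum_congr rfl fun σ _ => ?_
    congr 1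
    rw [← Finset.mul_prod_erase Finset.univ _ (Finset.mem_univ i), Matrix.updateCol_self,
      smul_eq_mul, mul_comm, Matrix.mul_apply]
    congr 1
    · exact Finset.sum_congr rfl fun k _ => by rw [smul_eq_mul, mul_comm]
    · exact Finset.prod_congr rfl fun j hj => by
        rw [Matrix.updateCol_ne (Finset.ne_of_mem_erase hj)]
  have h4 : ∑ σ : Equiv.Perm n, ((Equiv.Perm.sign σ : ℤ) : ℂ) *
      ∑ i, (∏ j ∈ Finset.univ.erase i, M t (σ j) j) • (M t * B) (σ i) i =
        B.trace * (M t).det := by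
    simp only [Finset.mul_sum]
    rw [Finset.sum_comm, Matrix.trace, Finset.sum_mul]
    exact Finset.sum_congr rfl fun i _ => h2 i
  rw [h4] at h1
  simpa only [Matrix.det_apply'] using h1

theorem hasDerivAt_det {A : ℝ → E →L[ℂ] E} {B : E →L[ℂ] E} {t : ℝ}
    (h : HasDerivAt A (B.comp (A t)) t) :
    HasDerivAt (fun s => (A s).det) (LinearMap.trace ℂ E (B : E →ₗ[ℂ] E) * (A t).det) t := by
  classical
  let b := Module.finBasis ℂ E
  let m : (E →L[ℂ] E) → Matrix (Fin (Module.finrank ℂ E)) (Fin (Module.finrank ℂ E)) ℂ :=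
    fun T => (LinearMap.toMatrix b b (T : E →ₗ[ℂ] E)).transpose
  have hd : ∀ T : E →L[ℂ] E, (m T).det = T.det := fun T => by
    simp only [m, Matrix.det_transpose, LinearMap.det_toMatrix, ContinuousLinearMap.det]
  have ht : (m B).trace = LinearMap.trace ℂ E (B : E →ₗ[ℂ] E) := by
    simp only [m, Matrix.trace_transpose, LinearMap.trace_eq_matrix_trace ℂ b]
  have hm : m (B.comp (A t)) = m (A t) * m B := by
    simp only [m, ← Matrix.transpose_mul, ← LinearMap.toMatrix_comp]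
    rfl
  have h1 : ∀ i j, HasDerivAt (fun s => m (A s) i j) ((m (A t) * m B) i j) t := by
    intro i j
    let L : (E →L[ℂ] E) →L[ℂ] ℂ :=
      (LinearMap.toContinuousLinearMap (b.coord j)).comp (ContinuousLinearMap.apply ℂ E (b i))
    have e : ∀ T : E →L[ℂ] E, m T i j = L T := fun T => by
      simp [m, L, LinearMap.toMatrix_apply]
    rw [← hm]
    simp only [e]
    exact (L.restrictScalars ℝ).hasFDerivAt.comp_hasDerivAt t h
  have h2 := F5_matrix h1
  simpa only [hd, ht] using h2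

theorem F5_real (hD : IsOpen D) {Y : E → E} (hY : DifferentiableOn ℂ Y D) {t : ℝ}
    {z : E} (h : HasSol D ((t : ℂ) • Y) z) :
    HasDerivAt (fun s : ℝ => fderiv ℂ (ex D ((s : ℂ) • Y)) z)
      ((fderiv ℂ Y (ex D ((t : ℂ) • Y) z)).comp (fderiv ℂ (ex D ((t : ℂ) • Y)) z)) t := by
  have h1 : HasDerivAt (fun s : ℝ => (s : ℂ)) 1 t := Complex.ofRealCLM.hasDerivAt
  have h2 := (hasDerivAt_fderiv_ex hD hY h).scomp t h1
  rw [one_smul] at h2
  exact h2

theorem F5_zero (hD : IsOpen D) (Y : E → E) (z : E) :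
    fderiv ℂ (ex D (((0 : ℝ) : ℂ) • Y)) z = ContinuousLinearMap.id ℂ E := by
  have h1 : ex D (((0 : ℝ) : ℂ) • Y) = id := by
    funext w
    rw [Complex.ofReal_zero, zero_smul]
    exact ex_zero hD w
  rw [h1, fderiv_id]

theorem hasDerivAt_det_ex (hD : IsOpen D) {Y : E → E} (hY : DifferentiableOn ℂ Y D) {t : ℝ}
    {z : E} (h : HasSol D ((t : ℂ) • Y) z) :
    HasDerivAt (fun s : ℝ => (fderiv ℂ (ex D ((s : ℂ) • Y)) z).det)
      (LinearMap.trace ℂ E (fderiv ℂ Y (ex D ((t : ℂ) • Y) z) : E →ₗ[ℂ] E) *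
        (fderiv ℂ (ex D ((t : ℂ) • Y)) z).det) t :=
  hasDerivAt_det (A := fun s : ℝ => fderiv ℂ (ex D ((s : ℂ) • Y)) z) (F5_real hD hY h)

theorem det_fderiv_ex_ne_zero (hD : IsOpen D) {Y : E → E} (hY : DifferentiableOn ℂ Y D) {z : E}
    (h : HasSol D Y z) : (fderiv ℂ (ex D Y) z).det ≠ 0 := by
  intro h0
  have e1 : (((1 : ℝ) : ℂ) • Y) = Y := by rw [Complex.ofReal_one, one_smul]
  have hs : ∀ s ∈ Icc (0 : ℝ) 1, HasSol D ((s : ℂ) • Y) z := fun s hs =>
    HasSol.smul_of_le (t := 1) (by rw [e1]; exact h) hs.1 hs.2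
  let f : ℝ → ℂ := fun s => (fderiv ℂ (ex D ((s : ℂ) • Y)) z).det
  let a : ℝ → ℂ := fun s => LinearMap.trace ℂ E (fderiv ℂ Y (ex D ((s : ℂ) • Y) z) : E →ₗ[ℂ] E)
  have hf : ∀ s ∈ Icc (0 : ℝ) 1, HasDerivAt f (a s * f s) s := fun s h1 =>
    hasDerivAt_det_ex hD hY (hs s h1)
  have hc : ContinuousOn (fun s : ℝ => ex D ((s : ℂ) • Y) z) (Icc 0 1) := fun s h1 =>
    (hasDerivAt_ex_smul_real hD hY (hs s h1)).continuousAt.continuousWithinAt
  have hT : Continuous fun T : E →L[ℂ] E => LinearMap.trace ℂ E (T : E →ₗ[ℂ] E) :=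
    ((LinearMap.trace ℂ E).comp (ContinuousLinearMap.coeLM ℂ)).continuous_of_finiteDimensional
  haveI := FiniteDimensional.complete ℂ E
  have ha : ContinuousOn a (Icc 0 1) :=
    hT.comp_continuousOn ((fderiv_hol hD hY).continuousOn.comp hc fun s h1 => (hs s h1).ex_mem)
  obtain ⟨K, hK⟩ := isCompact_Icc.exists_bound_of_continuousOn ha
  have hm : ∀ s ∈ Icc (0 : ℝ) 1, 1 - s ∈ Icc (0 : ℝ) 1 := fun s h1 =>
    ⟨by linarith [h1.2], by linarith [h1.1]⟩
  have hg : ∀ s ∈ Icc (0 : ℝ) 1,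
      HasDerivAt (fun s => f (1 - s)) (-(a (1 - s) * f (1 - s))) s := fun s h1 =>
    (hf _ (hm s h1)).comp_const_sub 1 s
  have h2 := eq_zero_of_abs_deriv_le_mul_abs_self_of_eq_zero_right (K := K)
    (f := fun s => f (1 - s)) (f' := fun s => -(a (1 - s) * f (1 - s))) (a := 0) (b := 1)
    (fun s h1 => (hg s h1).continuousAt.continuousWithinAt)
    (fun s h1 => (hg s (Ico_subset_Icc_self h1)).hasDerivWithinAt)
    (by simpa only [f, sub_zero, e1] using h0)
    (fun s h1 => by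
      rw [norm_neg, norm_mul]
      exact mul_le_mul_of_nonneg_right (hK _ (hm s (Ico_subset_Icc_self h1))) (norm_nonneg _))
    1 ⟨zero_le_one, le_rfl⟩
  simp only [f, sub_self, F5_zero hD] at h2
  simp [ContinuousLinearMap.det] at h2

theorem fderiv_ex_bijective (hD : IsOpen D) {Y : E → E} (hY : DifferentiableOn ℂ Y D) {z : E}
    (h : HasSol D Y z) : Function.Bijective (fderiv ℂ (ex D Y) z) :=
  ((fderiv ℂ (ex D Y) z).toContinuousLinearEquivOfDetNeZero
    (det_fderiv_ex_ne_zero hD hY h)).bijective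

theorem eq_zero_of_jet (hD : BCD D) {Y : E → E} (hY : SemiC D Y) {o : E} (ho : o ∈ D)
    (h0 : Y o = 0) (h1 : fderiv ℂ Y o = 0) : ∀ z ∈ D, Y z = 0 := by
  have hO := hD.isOpen
  have hfix : ∀ t : ℝ, HasSol D ((t : ℂ) • Y) o ∧ ex D ((t : ℂ) • Y) o = o := fun t =>
    hasSol_of_zero hO (hY.1.const_smul (t : ℂ)) ho (by simp [h0])
  have hA : ∀ t : ℝ, HasDerivAt (fun s : ℝ => fderiv ℂ (ex D ((s : ℂ) • Y)) o) 0 t := fun t => by
    have h2 := F5_real hO hY.1 (hfix t).1
    rwa [(hfix t).2, h1, ContinuousLinearMap.zero_comp] at h2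
  have hid : ∀ t : ℝ, fderiv ℂ (ex D ((t : ℂ) • Y)) o = ContinuousLinearMap.id ℂ E := fun t => by
    rw [← F5_zero hO Y o]
    exact is_const_of_deriv_eq_zero (fun s => (hA s).differentiableAt) (fun s => (hA s).deriv) t 0
  intro z hz
  have h3 : ∀ t : ℝ, 0 ≤ t → ex D ((t : ℂ) • Y) z = z := fun t ht =>
    cartan_unique hD ((hY.smul hO ht).hol_ex hO) (hY.smul hO ht).maps ho (hfix t).2 (hid t) z hz
  have h4 := hasDerivAt_ex_smul_real hO hY.1 ((hY.smul hO le_rfl).2 z hz)
  rw [h3 0 le_rfl] at h4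
  have h5 : HasDerivWithinAt (fun s : ℝ => ex D ((s : ℂ) • Y) z) 0 (Ici 0) 0 :=
    (hasDerivWithinAt_const (0 : ℝ) (Ici 0) z).congr (fun s hs => h3 s hs) (h3 0 le_rfl)
  exact (uniqueDiffWithinAt_Ici 0).eq_deriv _ h4.hasDerivWithinAt h5

end Pool.Agent.P.MP_2ff09b_gt
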