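import Pool.Agent.P.MP_2ff09b_gt.F4
import Pool.Agent.P.MP_2ff09b_gt.A6

/-! CVX-F6. Commuting flows, one-parameter groups, the strip estimate.
Sketch. ex_add_of_comm: the curve t ↦ ex (t Y1) (c2 t) has derivative
Y1 + d(ex (t Y1)) (Y2 (c2 t)) = Y1 + Y2 (master_smul for the joint differentiability,
hasDerivAt_ex_smul, fderiv_ex_of_comm). exists_aut_ex: exists_aut, and ex is the identity outside D.
hd_ex_le: along c t = ex (t Y) z one has Y (c t) = d(ex (t Y)) (Y z), so nr is bounded by nr_comp;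
hd_le_of_curve. strip_comm: the disc l ζ = ex (V + ζ u) z is holomorphic (disc_hol), for real s it
is ex (s u) (ex V z), so l'(0) = u (ex V z); nr_le_two_of_disc. -/

open Set MeasureTheory Complex Filter Topology Metric

noncomputable section

namespace Pool.Agent.P.MP_2ff09b_gt

variable {E : Type*} [NormedAddCommGroup E] [NormedSpace ℂ E] [FiniteDimensional ℂ E] {D : Set E}


theorem F6_joint (hD : IsOpen D) {Y : E → E} (hY : DifferentiableOn ℂ Y D) {ζ : ℂ} {z : E}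
    (h : HasSol D (ζ • Y) z) : ∃ G' : ℂ × E →L[ℂ] E,
      HasFDerivAt (fun x : ℂ × E => ex D (x.1 • Y) x.2) G' (ζ, z) ∧
      ∀ v, G' (1, v) = Y (ex D (ζ • Y) z) + fderiv ℂ (ex D (ζ • Y)) z v := by
  have hG := ((master_smul hD hY h 1).2.differentiableAt (by simp)).hasFDerivAt
  refine ⟨_, hG, fun v => ?_⟩
  have h0 := HasFDerivAt.comp_hasDerivAt (f := fun ξ : ℂ => (ξ, z)) ζ hG
    ((hasDerivAt_id ζ).prodMk (hasDerivAt_const ζ z))
  have h1 := h0.unique (hasDerivAt_ex_smul hD hY h)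
  have h2 := (hG.comp z ((hasFDerivAt_const ζ z).prodMk (hasFDerivAt_id z))).fderiv
  rw [← h1, show ex D (ζ • Y) = (fun x : ℂ × E => ex D (x.1 • Y) x.2) ∘ Prod.mk ζ from rfl,
    h2, ContinuousLinearMap.comp_apply, ← map_add]
  simp

omit [FiniteDimensional ℂ E] in
theorem F6_br (hD : IsOpen D) {Y V : E → E} (hY : DifferentiableOn ℂ Y D)
    (hc : ∀ z ∈ D, VectorField.lieBracket ℂ Y V z = 0) (a : ℂ) :
    ∀ z ∈ D, VectorField.lieBracket ℂ (a • Y) V z = 0 := fun z hz => by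
  rw [VectorField.lieBracket_const_smul_left (hY.differentiableAt (hD.mem_nhds hz)), hc z hz,
    smul_zero]

omit [FiniteDimensional ℂ E] in
theorem F6_br_self (hD : IsOpen D) {Y : E → E} (hY : DifferentiableOn ℂ Y D) (a b : ℂ) :
    ∀ z ∈ D, VectorField.lieBracket ℂ (a • Y) (b • Y) z = 0 :=
  F6_br hD hY (fun z hz => by
    rw [VectorField.lieBracket_const_smul_right (hY.differentiableAt (hD.mem_nhds hz)),
      VectorField.lieBracket_self]
    simp) a

theorem ex_add_of_comm (hD : IsOpen D) {Y₁ Y₂ : E → E} (h1 : SemiC D Y₁)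
    (hY₂ : DifferentiableOn ℂ Y₂ D) (hc : ∀ z ∈ D, VectorField.lieBracket ℂ Y₁ Y₂ z = 0) {z : E}
    (h2 : HasSol D Y₂ z) :
    HasSol D (Y₁ + Y₂) z ∧ ex D (Y₁ + Y₂) z = ex D Y₁ (ex D Y₂ z) := by
  obtain ⟨c, h0, hc2⟩ := h2
  have hsol : IsSol D (Y₁ + Y₂) z fun t => ex D ((t : ℂ) • Y₁) (c t) := by
    refine ⟨by simp [ex_zero hD, h0], fun t ht => ?_⟩
    have hS := h1.smul hD ht.1
    have hs := hS.2 _ (hc2 t ht).1
    refine ⟨hs.ex_mem, ?_⟩
    obtain ⟨G', hG, e⟩ := F6_joint hD h1.1 hs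
    have h3 : HasDerivWithinAt (fun s : ℝ => ((s : ℂ), c s)) ((1 : ℂ), Y₂ (c t)) (Icc 0 1) t :=
      Complex.ofRealCLM.hasDerivAt.hasDerivWithinAt.prodMk (hc2 t ht).2
    have h4 := (hG.restrictScalars ℝ).comp_hasDerivWithinAt t h3
    rw [ContinuousLinearMap.coe_restrictScalars', e,
      fderiv_ex_of_comm hD hS.1 hY₂ (F6_br hD h1.1 hc t) hs] at h4
    exact h4
  refine ⟨⟨_, hsol⟩, ?_⟩
  rw [hsol.ex_eq hD (h1.1.add hY₂), IsSol.ex_eq hD hY₂ ⟨h0, hc2⟩]
  simp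

theorem ex_smul_add (hD : IsOpen D) {Y : E → E} (hY : DifferentiableOn ℂ Y D) {a b : ℂ}
    (ha : SemiC D (a • Y)) {z : E} (hb : HasSol D (b • Y) z) :
    HasSol D ((a + b) • Y) z ∧ ex D ((a + b) • Y) z = ex D (a • Y) (ex D (b • Y) z) := by
  rw [add_smul]
  exact ex_add_of_comm hD ha (hY.const_smul b) (F6_br_self hD hY a b) hb

theorem ex_neg_ex (hD : IsOpen D) {Y : E → E} (h : SemiC D Y) (h' : SemiC D (-Y)) (z : E) :
    ex D (-Y) (ex D Y z) = z := by
  by_cases hz : z ∈ D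
  · have h1 := (ex_add_of_comm hD h' h.1 (by simpa using F6_br_self hD h.1 (-1) 1) (h.2 z hz)).2
    rw [← h1, neg_add_cancel, ex_zero hD]
  · rw [ex_of_not_mem hz, ex_of_not_mem hz]

theorem exists_aut_ex (hD : IsOpen D) {Y : E → E} (h : SemiC D Y) (h' : SemiC D (-Y)) :
    ∃ φ ∈ autGroup D, (φ : E → E) = ex D Y ∧ (φ.symm : E → E) = ex D (-Y) := by
  obtain ⟨φ, hφ, e1, e2⟩ := exists_aut (h.hol_ex hD) (h'.hol_ex hD) h.maps h'.maps
    (fun z _ => ex_neg_ex hD h h' z) fun z _ => by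
      simpa using ex_neg_ex hD h' (by simpa using h) z
  refine ⟨φ, hφ, funext fun z => ?_, funext fun z => ?_⟩
  · by_cases hz : z ∈ D
    · exact e1 z hz
    · rw [aut_fix hφ hz, ex_of_not_mem hz]
  · by_cases hz : z ∈ D
    · exact e2 z hz
    · rw [aut_fix (aut_symm hφ) hz, ex_of_not_mem hz]

theorem hd_ex_le (hD : BCD D) {Y : E → E} (h : SemiC D Y) {z : E} (hz : z ∈ D) :
    hd D z (ex D Y z) ≤ nr D z (Y z) := by
  obtain ⟨h0, h1⟩ := (h.2 z hz).isSol hD.isOpen h.1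
  have h2 := hd_le_of_curve hD (c := fun t : ℝ => ex D ((t : ℂ) • Y) z) (M := nr D z (Y z))
    fun t ht => ⟨(h1 t ht).1, (h1 t ht).2, by
      have hS := h.smul hD.isOpen ht.1
      rw [← fderiv_ex_of_comm hD.isOpen hS.1 h.1
        (by simpa using F6_br_self hD.isOpen h.1 t 1) (hS.2 z hz)]
      exact nr_comp hD hD.isOpen (hS.hol_ex hD.isOpen) hS.maps hz _⟩
  simpa [ex_zero hD.isOpen] using h2

theorem strip_comm (hD : BCD D) {V u : E → E} (hV : DifferentiableOn ℂ V D) (hu : SemiC D u)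
    (hu' : SemiC D (-u)) (hc : ∀ z ∈ D, VectorField.lieBracket ℂ u V z = 0) {z : E}
    (h : ∀ ζ ∈ ball (0 : ℂ) 1, HasSol D (V + ζ • u) z) :
    nr D (ex D V z) (u (ex D V z)) ≤ 2 := by
  have hO := hD.isOpen
  have hl := disc_hol hO hV hu.1 h
  have h0 : HasSol D V z := by simpa using h 0 (mem_ball_self one_pos)
  have h1 := nr_le_two_of_disc hD hl fun ζ hζ => (h ζ hζ).ex_mem
  have h2 : ∀ s : ℝ, ex D (V + (s : ℂ) • u) z = ex D ((s : ℂ) • u) (ex D V z) := fun s => by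
    rw [add_comm]
    exact (ex_add_of_comm hO (hu.smul_real hO hu' s) hV (F6_br hO hu.1 hc s) h0).2
  have h3 := (hl.differentiableAt (ball_mem_nhds 0 one_pos)).hasDerivAt
  have h4 : HasDerivAt (fun s : ℝ => ex D (V + (s : ℂ) • u) z)
      (deriv (fun ζ : ℂ => ex D (V + ζ • u) z) 0) 0 := by
    have h5 := (h3.hasFDerivAt.restrictScalars ℝ).comp_hasDerivAt_of_eq (0 : ℝ)
      Complex.ofRealCLM.hasDerivAt (by simp)
    rw [show ∀ v : E, (ContinuousLinearMap.restrictScalars ℝ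
      (ContinuousLinearMap.toSpanSingleton ℂ v)) (ofRealCLM 1) = v from fun v => by simp] at h5
    exact h5
  simp only [h2] at h4
  have h6 := h4.unique (hasDerivAt_ex_smul_real hO hu.1
    ((hu.smul_real hO hu' 0).2 _ h0.ex_mem))
  rw [h6] at h1
  simpa [ex_zero hO] using h1

/-- A function killed by a field is constant along its flow. -/
theorem apply_ex_eq {F : Type*} [NormedAddCommGroup F] [NormedSpace ℂ F] (hD : IsOpen D)
    {Y : E → E} (hY : DifferentiableOn ℂ Y D) {u : E → F} (hu : DifferentiableOn ℂ u D)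
    (h0 : ∀ z ∈ D, fderiv ℂ u z (Y z) = 0) {z : E} (h : HasSol D Y z) : u (ex D Y z) = u z := by
  obtain ⟨c, h1, h2⟩ := h
  rw [IsSol.ex_eq hD hY ⟨h1, h2⟩, ← h1]
  have h3 : ∀ t ∈ Icc (0 : ℝ) 1, HasDerivWithinAt (fun s => u (c s)) (0 : F) (Icc 0 1) t :=
    fun t ht => by
      have h4 := ((hu.differentiableAt (hD.mem_nhds (h2 t ht).1)).hasFDerivAt.restrictScalars
        ℝ).comp_hasDerivWithinAt t (h2 t ht).2
      rwa [ContinuousLinearMap.coe_restrictScalars', h0 _ (h2 t ht).1] at h4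
  have h5 := norm_image_sub_le_of_norm_deriv_le_segment_01' (C := 0) h3 fun _ _ => by simp
  exact sub_eq_zero.1 (norm_le_zero_iff.1 h5)

end Pool.Agent.P.MP_2ff09b_gt
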