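import Pool.Agent.P.MP_2ff09b_gt.F8
import Pool.Agent.P.MP_2ff09b_gt.F5

/-! CVX-G0. The span of the complete fields `Y` with `i Y` semicomplete is finite dimensional.
Sketch. exists_finset_norm_le: the kernels of the maps fldL W z, z in D, have trivial intersection,
so finitely many do (descending dimension); then U ↦ (fld W U z) on the finite set is injective
linear, hence bounded below. exists_preG: let S be the set of fields Y vanishing outside D with
Y, -Y, i Y semicomplete (closed under sums and nonnegative multiples) and c its real span in E → E.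
Every element of c is A - B with A, B in S, vanishes outside D, and is complete (SemiC.add). The map
Y ↦ (Y o, fderiv Y o) is real linear on c and injective (eq_zero_of_jet), so c is finite
dimensional; take a basis W (Module.finBasis). inj: if fld (A + i B) = 0 on D then u = fld B has
± u, ± i u semicomplete (eq_zero_of_complete_I). max: apply to D.indicator Y (SemiC.congr). -/

open Set MeasureTheory Complex Filter Topology Metric

noncomputable section

namespace Pool.Agent.P.MP_2ff09b_gt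

variable {E : Type*} [NormedAddCommGroup E] [NormedSpace ℂ E] [FiniteDimensional ℂ E] {D : Set E}


omit [FiniteDimensional ℂ E] in
theorem exists_finset_norm_le {N : ℕ} {W : Fin N → E → E}
    (h : ∀ U : Fin N → ℂ, (∀ z ∈ D, fld W U z = 0) → U = 0) :
    ∃ (s : Finset E) (c : ℝ), (s : Set E) ⊆ D ∧ 0 < c ∧
      ∀ U : Fin N → ℂ, ‖U‖ ≤ c * ∑ z ∈ s, ‖fld W U z‖ := by
  classical
  let K : Finset E → Submodule ℂ (Fin N → ℂ) := fun s =>
    LinearMap.ker (ContinuousLinearMap.pi fun z : s => fldL W (z : E)).toLinearMap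
  have hK : ∀ s U, U ∈ K s ↔ ∀ z ∈ s, fld W U z = 0 := fun s U => by
    simp only [K, LinearMap.mem_ker, ContinuousLinearMap.coe_coe, funext_iff,
      ContinuousLinearMap.pi_apply, fldL_apply, Pi.zero_apply, Subtype.forall]
  obtain ⟨_, ⟨s, hs, rfl⟩, hmin⟩ := (wellFounded_lt (α := Submodule ℂ (Fin N → ℂ))).has_min
    (K '' {s : Finset E | (s : Set E) ⊆ D}) ⟨_, ∅, by simp, rfl⟩
  have hbot : K s = ⊥ := by
    refine (Submodule.eq_bot_iff _).2 fun U hU => h U fun z hz => ?_
    have h1 : K (insert z s) ≤ K s := fun V hV =>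
      (hK _ _).2 fun w hw => (hK _ _).1 hV w (Finset.mem_insert_of_mem hw)
    have h2 : K (insert z s) = K s := h1.eq_of_not_lt (hmin _ ⟨insert z s, by
      simp only [mem_ofPred_eq, Finset.coe_insert]
      exact insert_subset hz hs, rfl⟩)
    exact (hK _ _).1 (h2.symm ▸ hU) z (Finset.mem_insert_self z s)
  obtain ⟨c, hc, hL⟩ := LinearMap.exists_antilipschitzWith _ hbot
  refine ⟨s, c, hs, hc, fun U => ?_⟩
  refine (ZeroHomClass.bound_of_antilipschitz _ hL U).trans
    (mul_le_mul_of_nonneg_left ?_ c.2)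
  refine (pi_norm_le_iff_of_nonneg (Finset.sum_nonneg fun _ _ => norm_nonneg _)).2 fun z => ?_
  exact Finset.single_le_sum (f := fun z => ‖fld W U z‖) (fun _ _ => norm_nonneg _) z.2

/-- The complete fields `Y` vanishing outside `D` with `i Y` semicomplete. -/
def G0_S (D : Set E) : Set (E → E) :=
  {Y | (∀ z, z ∉ D → Y z = 0) ∧ SemiC D Y ∧ SemiC D (-Y) ∧ SemiC D (I • Y)}

theorem G0_zero : (0 : E → E) ∈ G0_S D :=
  ⟨fun _ _ => rfl, semiC_zero, by rw [neg_zero]; exact semiC_zero,
    by rw [smul_zero]; exact semiC_zero⟩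

theorem G0_add (hD : BCD D) {A B : E → E} (hA : A ∈ G0_S D) (hB : B ∈ G0_S D) :
    A + B ∈ G0_S D :=
  ⟨fun z hz => by rw [Pi.add_apply, hA.1 z hz, hB.1 z hz, add_zero], hA.2.1.add hD hB.2.1,
    by rw [neg_add]; exact hA.2.2.1.add hD hB.2.2.1,
    by rw [smul_add]; exact hA.2.2.2.add hD hB.2.2.2⟩

omit [FiniteDimensional ℂ E] in
theorem G0_coe (t : ℝ) (A : E → E) : t • A = (t : ℂ) • A :=
  funext fun z => (Complex.coe_smul t (A z)).symm

theorem G0_smul (hD : BCD D) {A : E → E} (hA : A ∈ G0_S D) {t : ℝ} (ht : 0 ≤ t) :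
    t • A ∈ G0_S D := by
  rw [G0_coe]
  exact ⟨fun z hz => by rw [Pi.smul_apply, hA.1 z hz, smul_zero], hA.2.1.smul hD.isOpen ht,
    by rw [← smul_neg]; exact hA.2.2.1.smul hD.isOpen ht,
    by rw [smul_comm]; exact hA.2.2.2.smul hD.isOpen ht⟩

/-- The real span of `G0_S D`. -/
def G0_c (hD : BCD D) : Submodule ℝ (E → E) where
  carrier := {Y | ∃ A ∈ G0_S D, ∃ B ∈ G0_S D, Y = A - B}
  zero_mem' := ⟨0, G0_zero, 0, G0_zero, (sub_zero _).symm⟩
  add_mem' := by
    rintro _ _ ⟨A, hA, B, hB, rfl⟩ ⟨A', hA', B', hB', rfl⟩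
    exact ⟨A + A', G0_add hD hA hA', B + B', G0_add hD hB hB', by abel⟩
  smul_mem' := by
    rintro t _ ⟨A, hA, B, hB, rfl⟩
    rcases le_total 0 t with ht | ht
    · exact ⟨t • A, G0_smul hD hA ht, t • B, G0_smul hD hB ht, smul_sub _ _ _⟩
    · exact ⟨(-t) • B, G0_smul hD hB (neg_nonneg.2 ht), (-t) • A,
        G0_smul hD hA (neg_nonneg.2 ht), by rw [smul_sub, neg_smul, neg_smul]; abel⟩

theorem G0_mem (hD : BCD D) {A : E → E} (hA : A ∈ G0_S D) : A ∈ G0_c hD :=
  ⟨A, hA, 0, G0_zero, (sub_zero _).symm⟩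

theorem G0_semi (hD : BCD D) (Y : G0_c hD) : SemiC D (Y : E → E) := by
  obtain ⟨_, A, hA, B, hB, rfl⟩ := Y
  have := hA.2.1.add hD hB.2.2.1
  rwa [← sub_eq_add_neg] at this

theorem G0_eq_zero (hD : BCD D) (Y : G0_c hD) (h : ∀ z ∈ D, (Y : E → E) z = 0) : Y = 0 := by
  refine Subtype.ext (funext fun z => ?_)
  by_cases hz : z ∈ D
  · exact h z hz
  · obtain ⟨_, A, hA, B, hB, rfl⟩ := Y
    change A z - B z = 0
    rw [hA.1 z hz, hB.1 z hz, sub_zero]

theorem G0_finite (hD : BCD D) : Module.Finite ℝ (G0_c hD) := by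
  obtain ⟨o, ho⟩ := hD.nonempty
  have hd : ∀ Y : G0_c hD, DifferentiableAt ℂ (Y : E → E) o := fun Y =>
    (G0_semi hD Y).1.differentiableAt (hD.isOpen.mem_nhds ho)
  let J : G0_c hD →ₗ[ℝ] E × (E →L[ℂ] E) :=
    { toFun := fun Y => ((Y : E → E) o, fderiv ℂ (Y : E → E) o)
      map_add' := fun Y Y' => Prod.ext rfl (fderiv_add (hd Y) (hd Y'))
      map_smul' := fun t Y => Prod.ext rfl (fderiv_const_smul (hd Y) t) }
  have : FiniteDimensional ℝ (E →L[ℂ] E) := FiniteDimensional.complexToReal _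
  refine Module.Finite.of_injective J ((injective_iff_map_eq_zero J).2 fun Y hY => ?_)
  exact G0_eq_zero hD Y (eq_zero_of_jet hD (G0_semi hD Y) ho (congrArg Prod.fst hY)
    (congrArg Prod.snd hY))

theorem exists_preG (hD : BCD D) : ∃ (N : ℕ) (W : Fin N → E → E), PreG D W := by
  classical
  have := G0_finite hD
  let b := Module.finBasis ℝ (G0_c hD)
  let W : Fin (Module.finrank ℝ (G0_c hD)) → E → E := fun j => (b j : E → E)
  have key : ∀ V, fld W (rc V) = (b.equivFun.symm V : G0_c hD) := fun V => by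
    funext z
    rw [Module.Basis.equivFun_symm_apply, Submodule.coe_sum, Finset.sum_apply]
    exact Finset.sum_congr rfl fun j _ => Complex.coe_smul (V j) (W j z)
  have key' : ∀ Y : G0_c hD, fld W (rc (b.equivFun Y)) = Y := fun Y => by
    rw [key, LinearEquiv.symm_apply_apply]
  have hc : ∀ V, SemiC D (fld W (rc V)) := fun V => key V ▸ G0_semi hD _
  have hc' : ∀ V, SemiC D (-fld W (rc V)) := fun V => by
    rw [← fld_neg, ← rc_neg]
    exact hc _
  have hz : ∀ V, (∀ z ∈ D, fld W (rc V) z = 0) → V = 0 := fun V hV => by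
    rw [key] at hV
    exact b.equivFun.symm.map_eq_zero_iff.1 (G0_eq_zero hD _ hV)
  have hcone : ∀ (A : E → E) (hA : A ∈ G0_S D), b.equivFun ⟨A, G0_mem hD hA⟩ ∈ acone D W :=
    fun A hA => by
      change SemiC D (fld W (I • rc _))
      rw [fld_smul, key']
      exact hA.2.2.2
  refine ⟨_, W, fun j => (G0_semi hD (b j)).1, hc, fun U hU => ?_, fun V => ?_,
    fun Y h1 h2 h3 => ?_⟩
  · obtain ⟨A, B, hA, hB, -, -, rfl, -⟩ := exists_re_im U
    obtain ⟨A, rfl⟩ := exists_rc_of_star hA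
    obtain ⟨B, rfl⟩ := exists_rc_of_star hB
    rw [fld_add, fld_smul] at hU
    have h1 : ∀ z ∈ D, (-fld W (rc A)) z = (I • fld W (rc B)) z := fun z hz =>
      neg_eq_of_add_eq_zero_right (hU z hz)
    have h2 := eq_zero_of_complete_I hD (hc B) (hc' B) ((hc' A).congr h1)
      ((hc A).congr fun z hz => neg_eq_iff_eq_neg.1 (h1 z hz))
    obtain rfl := hz B h2
    obtain rfl := hz A fun z hz => by
      have h3 := hU z hz
      rwa [Pi.add_apply, Pi.smul_apply, h2 z hz, smul_zero, add_zero] at h3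
    rw [rc_zero, smul_zero, add_zero]
  · obtain ⟨A, hA, B, hB, h⟩ := (b.equivFun.symm V).2
    refine ⟨_, hcone A hA, _, hcone B hB, ?_⟩
    rw [← map_sub, ← LinearEquiv.symm_apply_eq]
    exact Subtype.ext h
  · have hY : D.indicator Y ∈ G0_S D :=
      ⟨fun z hz => indicator_of_notMem hz _,
        h1.congr fun z hz => (indicator_of_mem hz _).symm,
        h2.congr fun z hz => by rw [Pi.neg_apply, Pi.neg_apply, indicator_of_mem hz],
        h3.congr fun z hz => by rw [Pi.smul_apply, Pi.smul_apply, indicator_of_mem hz]⟩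
    refine ⟨_, hcone _ hY, fun z hz => ?_⟩
    rw [key']
    exact (indicator_of_mem hz _).symm

end Pool.Agent.P.MP_2ff09b_gt
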