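import Pool.Agent.P.MP_2ff09b_gt.Triv

/-! CVX-L1. Operators generating bounded one-parameter groups.
Sketch. If T v = μ v with v nonzero then exp (t T) v = exp (t μ) v is bounded for all real t, so
re μ = 0. If (T - μ)² w = 0 then exp (t T) w = exp (t μ) (w + t (T - μ) w) is bounded, so
(T - μ) w = 0; hence generalized eigenspaces are eigenspaces, and
Module.End.iSup_maxGenEigenspace_eq_top concludes. For an invariant subspace use
Submodule.eq_iSup_inf_genEigenspace or restrict T. trace: take a basis of eigenvectors (a spanning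
set of eigenvectors contains a basis, exists_linearIndependent), the trace of T² is minus the sum
of the squares. exists_fun: the operator acting by f μ on the eigenspace of μ; build it on a basis of
eigenvectors; the norm bound holds with a constant depending only on the basis. -/

open Set MeasureTheory Complex Filter Topology Metric

noncomputable section

namespace Pool.Agent.P.MP_2ff09b_gt

variable {M : Type*} [NormedAddCommGroup M] [NormedSpace ℂ M] [FiniteDimensional ℂ M]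

private theorem L1_hasSum (T : M →L[ℂ] M) (v : M) :
    HasSum (fun n : ℕ => ((n.factorial : ℂ)⁻¹) • (T ^ n) v) (NormedSpace.exp T v) := by
  have := FiniteDimensional.complete ℂ M
  exact (NormedSpace.exp_series_hasSum_exp' (𝕂 := ℂ) T).mapL (ContinuousLinearMap.apply ℂ M v)

private theorem L1_add {A B : M →L[ℂ] M} (h : Commute A B) (v : M) :
    NormedSpace.exp (A + B) v = NormedSpace.exp A (NormedSpace.exp B v) := by
  have := FiniteDimensional.complete ℂ M
  rw [NormedSpace.exp_add_of_commute_of_mem_ball (𝕂 := ℂ) h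
    ((NormedSpace.expSeries_radius_eq_top ℂ (M →L[ℂ] M)).symm ▸ edist_lt_top _ _)
    ((NormedSpace.expSeries_radius_eq_top ℂ (M →L[ℂ] M)).symm ▸ edist_lt_top _ _)]
  rfl

theorem exp_apply_eigen {T : M →L[ℂ] M} {v : M} {μ : ℂ} (h : T v = μ • v) :
    NormedSpace.exp T v = Complex.exp μ • v := by
  have e : ∀ n : ℕ, (T ^ n) v = μ ^ n • v := fun n => by
    induction n with
    | zero => simp
    | succ n ih => rw [pow_succ', mul_apply_eq_comp, ih, map_smul, h, smul_smul, pow_succ]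
  have h1 := (NormedSpace.exp_series_hasSum_exp' (𝕂 := ℂ) μ).smul_const v
  rw [← Complex.exp_eq_exp_ℂ] at h1
  refine (L1_hasSum T v).unique ?_
  simpa only [e, smul_smul, smul_eq_mul] using h1

theorem hasDerivAt_exp_apply (T : M →L[ℂ] M) (v : M) (t : ℝ) :
    HasDerivAt (fun s : ℝ => NormedSpace.exp ((s : ℂ) • T) v)
      (T (NormedSpace.exp ((t : ℂ) • T) v)) t := by
  have := FiniteDimensional.complete ℂ M
  have h1 := (ContinuousLinearMap.apply ℂ M v).hasFDerivAt.comp_hasDerivAt (t : ℂ)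
    (hasDerivAt_exp_smul_const' (𝕂 := ℂ) T (t : ℂ))
  have h2 := h1.scomp t Complex.ofRealCLM.hasDerivAt
  rw [Complex.ofRealCLM_apply, Complex.ofReal_one, one_smul] at h2
  exact h2

theorem exp_comp_exp_neg (T : M →L[ℂ] M) (v : M) :
    NormedSpace.exp T (NormedSpace.exp (-T) v) = v := by
  rw [← L1_add (Commute.refl T).neg_right, add_neg_cancel, NormedSpace.exp_zero]
  rfl

theorem exp_apply_mem {T : M →L[ℂ] M} {S : Submodule ℂ M} (h : ∀ v ∈ S, T v ∈ S) {v : M}
    (hv : v ∈ S) : NormedSpace.exp T v ∈ S := by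
  have e : ∀ n : ℕ, (T ^ n) v ∈ S := fun n => by
    induction n with
    | zero => exact hv
    | succ n ih => rw [pow_succ']; exact h _ ih
  exact S.closed_of_finiteDimensional.mem_of_tendsto (L1_hasSum T v)
    (Eventually.of_forall fun s => S.sum_mem fun n _ => S.smul_mem _ (e n))

theorem exp_apply_of_sq {T : M →L[ℂ] M} {v : M} (h : T (T (T v)) = 0) :
    NormedSpace.exp T v = v + T v + (1 / 2 : ℂ) • T (T v) := by
  have h1 := hasSum_sum_of_ne_finset_zero (L := SummationFilter.unconditional ℕ)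
    (f := fun n : ℕ => ((n.factorial : ℂ)⁻¹) • (T ^ n) v)
    (s := Finset.range 3) fun n hn => by
      obtain ⟨k, rfl⟩ := Nat.exists_eq_add_of_le' (not_lt.1 fun h' => hn (Finset.mem_range.2 h'))
      have e : (T ^ 3) v = 0 := h
      rw [pow_add, mul_apply_eq_comp, e, map_zero, smul_zero]
  rw [(L1_hasSum T v).unique h1]
  simp [Finset.sum_range_succ]

theorem exp_semiconj {T T' θ : M →L[ℂ] M} (h : ∀ v, θ (T v) = T' (θ v)) (v : M) :
    θ (NormedSpace.exp T v) = NormedSpace.exp T' (θ v) := by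
  have e : ∀ n : ℕ, θ ((T ^ n) v) = (T' ^ n) (θ v) := fun n => by
    induction n with
    | zero => rfl
    | succ n ih => rw [pow_succ', pow_succ', mul_apply_eq_comp, h, ih]; rfl
  have h1 := (L1_hasSum T v).mapL θ
  simp only [map_smul, e] at h1
  exact h1.unique (L1_hasSum T' (θ v))

private theorem L1_re {T : M →L[ℂ] M} (hT : Ell T) {μ : ℂ} {v : M} (hv : v ≠ 0)
    (h : T v = μ • v) : μ.re = 0 := by
  obtain ⟨C, hC⟩ := hT
  by_contra h0
  have h1 := exp_apply_eigen (T := ((C / μ.re : ℝ) : ℂ) • T) (v := v)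
    (μ := ((C / μ.re : ℝ) : ℂ) * μ) (by rw [_root_.smul_apply, h, smul_smul])
  have h2 := (NormedSpace.exp (((C / μ.re : ℝ) : ℂ) • T)).le_of_opNorm_le (hC _) v
  rw [h1, norm_smul, Complex.norm_exp, Complex.re_ofReal_mul, div_mul_cancel₀ _ h0] at h2
  have h3 := le_of_mul_le_mul_right h2 (norm_pos_iff.2 hv)
  linarith [Real.add_one_le_exp C]

private theorem L1_sq {T : M →L[ℂ] M} (hT : Ell T) {μ : ℂ} {v : M}
    (h : T (T v - μ • v) - μ • (T v - μ • v) = 0) : T v = μ • v := by
  by_contra h0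
  have hw : T v - μ • v ≠ 0 := sub_ne_zero.2 h0
  have hre := L1_re hT hw (sub_eq_zero.1 h)
  obtain ⟨C, hC⟩ := hT
  have key : ∀ t : ℝ, ‖v + (t : ℂ) • (T v - μ • v)‖ ≤ C * ‖v‖ := fun t => by
    let N : M →L[ℂ] M := (t : ℂ) • (T - μ • 1)
    have n1 : N v = (t : ℂ) • (T v - μ • v) := rfl
    have n2 : N (N v) = 0 := by
      rw [n1, map_smul]
      change (t : ℂ) • (t : ℂ) • (T (T v - μ • v) - μ • (T v - μ • v)) = 0
      rw [h, smul_zero, smul_zero]
    have e : (t : ℂ) • T = ((t : ℂ) * μ) • (1 : M →L[ℂ] M) + N := by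
      simp only [N, smul_sub, smul_smul, add_sub_cancel]
    have h2 := (NormedSpace.exp ((t : ℂ) • T)).le_of_opNorm_le (hC t) v
    rw [e, L1_add ((Commute.one_left N).smul_left _),
      exp_apply_eigen (T := ((t : ℂ) * μ) • (1 : M →L[ℂ] M)) (μ := (t : ℂ) * μ) rfl,
      exp_apply_of_sq (by rw [n2, map_zero]), n2, smul_zero, add_zero, n1, norm_smul,
      Complex.norm_exp, Complex.re_ofReal_mul, hre, mul_zero, Real.exp_zero, one_mul] at h2
    exact h2
  have hp := norm_pos_iff.2 hw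
  have hC0 : 0 ≤ C := (norm_nonneg _).trans (hC 0)
  have h3 := key ((C * ‖v‖ + ‖v‖ + 1) / ‖T v - μ • v‖)
  have h4 := norm_sub_le (v + (((C * ‖v‖ + ‖v‖ + 1) / ‖T v - μ • v‖ : ℝ) : ℂ) • (T v - μ • v)) v
  rw [add_sub_cancel_left, norm_smul, Complex.norm_real, Real.norm_of_nonneg (by positivity),
    div_mul_cancel₀ _ hp.ne'] at h4
  linarith

private theorem L1_gen {T : M →L[ℂ] M} (hT : Ell T) {μ : ℂ} (k : ℕ) : ∀ v : M,
    (((T : M →ₗ[ℂ] M) - μ • (1 : Module.End ℂ M)) ^ k) v = 0 → T v = μ • v := by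
  induction k with
  | zero =>
    intro v hv
    have h0 : v = 0 := hv
    rw [h0, map_zero, smul_zero]
  | succ k ih =>
    intro v hv
    rw [pow_succ, Module.End.mul_apply] at hv
    exact L1_sq hT (sub_eq_zero.2 (ih _ hv))

theorem Ell.mem_span {T : M →L[ℂ] M} (hT : Ell T) {S : Submodule ℂ M} (hS : ∀ v ∈ S, T v ∈ S)
    {v : M} (hv : v ∈ S) :
    v ∈ Submodule.span ℂ {u | u ∈ S ∧ ∃ lam : ℝ, T u = (I * lam) • u} := by
  have h1 := Submodule.eq_iSup_inf_genEigenspace (p := S) (f := (T : M →ₗ[ℂ] M)) ⊤ hS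
    (Module.End.iSup_maxGenEigenspace_eq_top _)
  rw [h1] at hv
  refine (iSup_le fun μ u hu => ?_ : _ ≤ Submodule.span ℂ _) hv
  by_cases h0 : u = 0
  · rw [h0]
    exact Submodule.zero_mem _
  · obtain ⟨k, hk⟩ := (Module.End.mem_maxGenEigenspace _ _ _).1 hu.2
    have h2 := L1_gen hT k u hk
    refine Submodule.subset_span ⟨hu.1, μ.im, ?_⟩
    rw [h2]
    congr 1
    apply Complex.ext <;> simp [L1_re hT h0 h2]

theorem Ell.eq_zero_of_sq {T : M →L[ℂ] M} (hT : Ell T) {μ : ℂ} {v : M}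
    (h : T (T v - μ • v) - μ • (T v - μ • v) = 0) : T v = μ • v := by
  exact L1_sq hT h

private theorem L1_basis {T : M →L[ℂ] M} (hT : Ell T) :
    ∃ (s : Set M) (_ : Fintype s) (b : Module.Basis s ℂ M) (lam : s → ℝ),
      ∀ i, T (b i) = (I * lam i) • b i := by
  obtain ⟨s, hs, h1, h2⟩ := exists_linearIndependent ℂ
    {u | u ∈ (⊤ : Submodule ℂ M) ∧ ∃ lam : ℝ, T u = (I * lam) • u}
  have := h2.finite
  choose lam hl using fun i : s => (hs i.2).2
  refine ⟨s, Fintype.ofFinite s, Module.Basis.mk h2 fun v _ => ?_, lam, fun i => ?_⟩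
  · rw [Subtype.range_coe, h1]
    exact hT.mem_span (S := ⊤) (fun _ _ => trivial) trivial
  · rw [Module.Basis.mk_apply]
    exact hl i

theorem Ell.trace_sq {T : M →L[ℂ] M} (hT : Ell T) :
    ∃ c : ℝ, 0 ≤ c ∧ LinearMap.trace ℂ M (T.comp T : M →ₗ[ℂ] M) = -(c : ℂ) ∧ (c = 0 → T = 0) := by
  classical
  obtain ⟨s, _, b, lam, h⟩ := L1_basis hT
  refine ⟨∑ i, lam i ^ 2, Finset.sum_nonneg fun i _ => sq_nonneg _, ?_, fun h0 => ?_⟩
  · rw [LinearMap.trace_eq_matrix_trace ℂ b, Matrix.trace, Complex.ofReal_sum,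
      ← Finset.sum_neg_distrib]
    refine Finset.sum_congr rfl fun i _ => ?_
    rw [Matrix.diag_apply, LinearMap.toMatrix_apply]
    change b.repr (T (T (b i))) i = _
    rw [h, map_smul, h, smul_smul, map_smul, Finsupp.smul_apply, b.repr_self,
      Finsupp.single_eq_same, smul_eq_mul, mul_one, Complex.ofReal_pow]
    linear_combination (lam i : ℂ) ^ 2 * Complex.I_mul_I
  · have h1 := (Finset.sum_eq_zero_iff_of_nonneg fun i _ => sq_nonneg (lam i)).1 h0
    refine ContinuousLinearMap.coe_injective (b.ext fun i => ?_)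
    change T (b i) = 0
    rw [h, pow_eq_zero_iff (two_ne_zero) |>.1 (h1 i (Finset.mem_univ i)), Complex.ofReal_zero,
      mul_zero, zero_smul]

theorem Ell.exists_fun {T : M →L[ℂ] M} (hT : Ell T) :
    ∃ (Λ : Finset ℝ) (C : ℝ), (∀ (u : M) (lam : ℝ), u ≠ 0 → T u = (I * lam) • u → lam ∈ Λ) ∧
      ∀ f : ℝ → ℂ, ∃ S : M →L[ℂ] M, (∀ (u : M) (lam : ℝ), T u = (I * lam) • u → S u = f lam • u) ∧
        ∀ b : ℝ, 0 ≤ b → (∀ lam ∈ Λ, ‖f lam‖ ≤ b) → ‖S‖ ≤ C * b := by
  classical
  obtain ⟨s, _, b, lam, h⟩ := L1_basis hT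
  let P : s → M →L[ℂ] M := fun i => LinearMap.toContinuousLinearMap ((b.coord i).smulRight (b i))
  have hP : ∀ i u, P i u = b.repr u i • b i := fun _ _ => rfl
  have key : ∀ (u : M) (l : ℝ), T u = (I * l) • u → ∀ i, b.repr u i = 0 ∨ lam i = l := by
    intro u l hu i
    have h1 : T u = ∑ j, (b.repr u j * (I * lam j)) • b j := by
      conv_lhs => rw [← b.sum_repr u, map_sum]
      exact Finset.sum_congr rfl fun j _ => by rw [map_smul, h, smul_smul]
    have h2 := congrArg (fun w => b.repr w i) (hu.symm.trans h1)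
    simp only [map_smul, Finsupp.smul_apply, smul_eq_mul, b.repr_sum_self] at h2
    rw [mul_comm] at h2
    refine (mul_eq_mul_left_iff.1 h2).symm.imp id fun h3 => ?_
    exact (Complex.ofReal_injective (mul_left_cancel₀ Complex.I_ne_zero h3)).symm
  refine ⟨Finset.univ.image lam, ∑ i, ‖P i‖, fun u l hu e => ?_, fun f =>
    ⟨∑ i, f (lam i) • P i, fun u l e => ?_, fun c hc hf => ?_⟩⟩
  · by_contra h0
    refine hu (b.ext_elem fun i => ?_)
    rw [map_zero, Finsupp.zero_apply]
    exact (key u l e i).resolve_right fun h1 =>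
      h0 (Finset.mem_image.2 ⟨i, Finset.mem_univ i, h1⟩)
  · conv_rhs => rw [← b.sum_repr u, Finset.smul_sum]
    rw [_root_.sum_apply]
    refine Finset.sum_congr rfl fun i _ => ?_
    rw [_root_.smul_apply, hP]
    rcases key u l e i with h1 | h1
    · rw [h1, zero_smul, smul_zero, smul_zero]
    · rw [h1]
  · rw [Finset.sum_mul]
    refine (norm_sum_le _ _).trans (Finset.sum_le_sum fun i _ => ?_)
    rw [norm_smul, mul_comm]
    exact mul_le_mul_of_nonneg_left (hf _ (Finset.mem_image_of_mem _ (Finset.mem_univ i)))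
      (norm_nonneg _)

end Pool.Agent.P.MP_2ff09b_gt
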