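import Pool.Agent.P.MP_2ff09b_gt.G0
import Pool.Agent.P.MP_2ff09b_gt.L1

/-! CVX-G0b. The Lie algebra of the cone of complete fields.
Sketch. exists_normalizes: write a basis vector as A - B (diff), push the fields of A and B forward
by h (SemiC.push for Y, -Y, i Y) and use max; collect the coordinates in a matrix. exists_bracket:
h t = ex (t W i) is an automorphism (exists_aut_ex), so the push-forward of W j is fld (rc (c t)) on D;
by hasDerivAt_push the difference quotients converge pointwise to minus the bracket; by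
exists_finset_norm_le the coordinates (c t - c 0)/t are Cauchy, hence converge. exists_gctx: define
br from the structure constants, br_eq by bilinearity of lieBracket; anti and jacobi from inj,
VectorField.lieBracket_swap and leibniz_identity_lieBracket (fields agree on the open set D, use
eventual equality); C = {X | star X = X ∧ SemiC D (fld W (I • X))}; closed by isClosed_semiC_fld;
pointed by eq_zero_of_complete_I; gen: the cone acone is convex, contains 0 and spans (diff), so
it has an interior point (Convex.interior_nonempty_iff_affineSpan_eq_top); inv: fderiv_ex_fld for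
the field -Y and HasSol.map. -/

open Set MeasureTheory Complex Filter Topology Metric

noncomputable section

namespace Pool.Agent.P.MP_2ff09b_gt

variable {E : Type*} [NormedAddCommGroup E] [NormedSpace ℂ E] [FiniteDimensional ℂ E] {D : Set E}


theorem G0b_push (hD : BCD D) {N : ℕ} {W : Fin N → E → E} (hW : PreG D W)
    {h : Equiv.Perm E} (hh : h ∈ autGroup D) {A : Fin N → ℝ} (hA : A ∈ acone D W) :
    ∃ A' ∈ acone D W, ∀ z ∈ D, fderiv ℂ h z (fld W (rc A) z) = fld W (rc A') (h z) := by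
  have h1 := (hW.complete A).push hD.isOpen hh
  have h2 := (hW.complete (-A)).push hD.isOpen hh
  have h3 := SemiC.push hD.isOpen hh hA
  rw [rc_neg, fld_neg] at h2
  rw [fld_smul] at h3
  obtain ⟨A', hA', e⟩ := hW.max _ h1 (h2.congr fun z _ => map_neg _ _)
    (h3.congr fun z _ => map_smul _ _ _)
  refine ⟨A', hA', fun z hz => ?_⟩
  have := e _ (aut_maps hh hz)
  rwa [Equiv.symm_apply_apply] at this

theorem G0b_push' (hD : BCD D) {N : ℕ} {W : Fin N → E → E} (hW : PreG D W)
    {h : Equiv.Perm E} (hh : h ∈ autGroup D) (j : Fin N) :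
    ∃ c : Fin N → ℝ, ∀ z ∈ D, fderiv ℂ h z (W j z) = fld W (rc c) (h z) := by
  obtain ⟨A, hA, B, hB, e⟩ := hW.diff (Pi.single j 1)
  obtain ⟨A', -, h1⟩ := G0b_push hD hW hh hA
  obtain ⟨B', -, h2⟩ := G0b_push hD hW hh hB
  refine ⟨A' - B', fun z hz => ?_⟩
  rw [rc_sub, fld_sub, Pi.sub_apply, ← h1 z hz, ← h2 z hz, ← map_sub, ← Pi.sub_apply (fld W (rc A)),
    ← fld_sub, ← rc_sub, ← e, rc_single, fld_single]

theorem PreG.exists_normalizes (hD : BCD D) {N : ℕ} {W : Fin N → E → E} (hW : PreG D W)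
    {h : Equiv.Perm E} (hh : h ∈ autGroup D) : ∃ θ, Normalizes D W h θ := by
  choose c hc using G0b_push' hD hW hh
  refine ⟨Matrix.of fun i j => c j i, fun V z hz => ?_⟩
  have e : rc ((Matrix.of fun i j => c j i).mulVec V) = ∑ j, (V j : ℂ) • rc (c j) := by
    funext i
    simp [Matrix.mulVec, dotProduct, mul_comm]
  rw [e, fld_sum, fld, map_sum]
  refine Finset.sum_congr rfl fun j _ => ?_
  rw [map_smul, hc j z hz, fld_smul]
  rfl

theorem PreG.exists_bracket (hD : BCD D) {N : ℕ} {W : Fin N → E → E} (hW : PreG D W) (i j : Fin N) :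
    ∃ c : Fin N → ℝ, ∀ z ∈ D, VectorField.lieBracket ℂ (W i) (W j) z = fld W (rc c) z := by
  have hs : ∀ t : ℝ, SemiC D ((t : ℂ) • W i) := fun t => by
    have := hW.complete (t • Pi.single i 1)
    rwa [rc_smul, fld_smul, rc_single, fld_single] at this
  have hn : ∀ t : ℝ, ((-t : ℝ) : ℂ) • W i = -((t : ℂ) • W i) := fun t => by
    rw [ofReal_neg, neg_smul]
  let S : Submodule ℝ (D → E) := Submodule.span ℝ (range fun j (z : D) => W j z)
  have hS : ∀ f : D → E, f ∈ S ↔ ∃ c : Fin N → ℝ, ∀ z : D, fld W (rc c) z = f z := fun f => by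
    rw [Submodule.mem_span_range_iff_exists_fun]
    refine exists_congr fun c => ?_
    rw [funext_iff]
    refine forall_congr' fun z => ?_
    simp [fld]
  have : FiniteDimensional ℝ S := FiniteDimensional.span_of_finite ℝ (finite_range _)
  let g : ℝ → D → E := fun t z => fderiv ℂ (ex D ((t : ℂ) • W i)) (ex D (((-t : ℝ) : ℂ) • W i) z)
    (W j (ex D (((-t : ℝ) : ℂ) • W i) z))
  have hg : ∀ t, g t ∈ S := fun t => by
    obtain ⟨φ, hφ, e1, e2⟩ := exists_aut_ex hD.isOpen (hs t) (hn t ▸ hs (-t))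
    obtain ⟨c, hc⟩ := G0b_push' hD hW hφ j
    refine (hS _).2 ⟨c, fun z => ?_⟩
    have h1 := hc _ (aut_maps_symm hφ z.2)
    rw [Equiv.apply_symm_apply, e1, e2, ← hn] at h1
    exact h1.symm
  have hl : Tendsto (fun t : ℝ => t⁻¹ • (g (0 + t) - g 0)) (𝓝[≠] 0)
      (𝓝 fun z : D => -VectorField.lieBracket ℂ (W i) (W j) z) :=
    tendsto_pi_nhds.2 fun z =>
      hasDerivAt_iff_tendsto_slope_zero.1 (hasDerivAt_push hD.isOpen (hW.hol i) (hW.hol j) z.2)
  obtain ⟨c, hc⟩ := (hS _).1 (S.neg_mem (S.closed_of_finiteDimensional.mem_of_tendsto hl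
    (Eventually.of_forall fun t => S.smul_mem _ (S.sub_mem (hg _) (hg _)))))
  exact ⟨c, fun z hz => ((hc ⟨z, hz⟩).trans (neg_neg _)).symm⟩

omit [FiniteDimensional ℂ E] in
theorem G0b_bracket (hD : IsOpen D) {N : ℕ} {W : Fin N → E → E}
    (hW : ∀ j, DifferentiableOn ℂ (W j) D) (U V : Fin N → ℂ) {z : E} (hz : z ∈ D) :
    VectorField.lieBracket ℂ (fld W U) (fld W V) z =
      ∑ i, ∑ j, U i • V j • VectorField.lieBracket ℂ (W i) (W j) z := by
  have e : ∀ U : Fin N → ℂ, fderiv ℂ (fld W U) z = ∑ j, U j • fderiv ℂ (W j) z := fun U =>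
    (HasFDerivAt.fun_sum fun j _ =>
      ((hW j).differentiableAt (hD.mem_nhds hz)).hasFDerivAt.const_smul (U j)).fderiv
  simp only [VectorField.lieBracket, e, fld, map_sum, map_smul, _root_.sum_apply,
    _root_.smul_apply, smul_sub, Finset.sum_sub_distrib, Finset.smul_sum]
  congr 1
  rw [Finset.sum_comm]
  exact Finset.sum_congr rfl fun i _ => Finset.sum_congr rfl fun j _ => smul_comm _ _ _

theorem G0b_gen (hD : BCD D) {N : ℕ} {W : Fin N → E → E} (hW : PreG D W) :
    ∃ X : Fin N → ℝ, ∀ y : Fin N → ℝ, ‖y‖ ≤ 1 → X + y ∈ acone D W := by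
  let S : ConvexCone ℝ (Fin N → ℝ) :=
    { carrier := acone D W
      smul_mem' := fun t ht V hV => by
        have := SemiC.smul hD.isOpen hV ht.le
        rwa [← fld_smul, smul_comm, ← rc_smul] at this
      add_mem' := fun V hV V' hV' => by
        have := SemiC.add hD hV hV'
        rwa [← fld_add, ← smul_add, ← rc_add] at this }
  have h0 : (0 : Fin N → ℝ) ∈ acone D W := by
    show SemiC D _
    rw [rc_zero, smul_zero, fld_zero]
    exact semiC_zero
  have hs : ∀ t : ℝ, 0 ≤ t → ∀ V ∈ acone D W, t • V ∈ acone D W := fun t ht V hV => by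
    rcases ht.eq_or_lt with rfl | ht
    · rwa [zero_smul]
    · exact S.smul_mem ht hV
  choose A hA B hB e using fun j => hW.diff (Pi.single j 1)
  refine ⟨∑ j, (A j + B j), fun y hy => ?_⟩
  have e1 : ∑ j, (A j + B j) + y = ∑ j, ((1 + y j) • A j + (1 - y j) • B j) := by
    conv_lhs => rw [← Finset.univ_sum_single y, ← Finset.sum_add_distrib]
    refine Finset.sum_congr rfl fun j _ => ?_
    rw [show (Pi.single j (y j) : Fin N → ℝ) = y j • Pi.single j 1 by
      rw [← Pi.single_smul, smul_eq_mul, mul_one], e j]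
    module
  rw [e1]
  refine Finset.sum_induction _ (· ∈ acone D W) (fun a b ha hb => S.add_mem ha hb) h0 fun j _ => ?_
  have h1 := abs_le.1 ((norm_le_pi_norm y j).trans hy)
  exact S.add_mem (hs _ (by linarith [h1.1]) _ (hA j)) (hs _ (by linarith [h1.2]) _ (hB j))

theorem exists_gctx (hD : BCD D) : ∃ N : ℕ, Nonempty (GCtx D N) := by
  obtain ⟨N, W, hW⟩ := exists_preG hD
  choose c hc using hW.exists_bracket hD
  obtain ⟨br, hbr⟩ : ∃ br : (Fin N → ℂ) →L[ℂ] (Fin N → ℂ) →L[ℂ] (Fin N → ℂ),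
      ∀ U V, br U V = ∑ i, ∑ j, U i • V j • rc (c i j) :=
    ⟨∑ i, ∑ j, (ContinuousLinearMap.proj i : (Fin N → ℂ) →L[ℂ] ℂ).smulRight
      ((ContinuousLinearMap.proj j : (Fin N → ℂ) →L[ℂ] ℂ).smulRight (rc (c i j))),
      fun U V => by simp⟩
  have he : ∀ U V, ∀ z ∈ D,
      VectorField.lieBracket ℂ (fld W U) (fld W V) z = fld W (br U V) z := fun U V z hz => by
    rw [G0b_bracket hD.isOpen hW.hol U V hz, hbr, fld_sum]
    refine Finset.sum_congr rfl fun i _ => ?_
    rw [fld_sum]
    refine Finset.sum_congr rfl fun j _ => ?_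
    rw [fld_smul, fld_smul, hc i j z hz]
    rfl
  have hi : ∀ U V : Fin N → ℂ, (∀ z ∈ D, fld W U z = fld W V z) → U = V := fun U V h =>
    sub_eq_zero.1 (hW.inj _ fun z hz => by rw [fld_sub, Pi.sub_apply, h z hz, sub_self])
  have hcp : ∀ Y, star Y = Y → SemiC D (fld W Y) := fun Y hY => by
    obtain ⟨V, rfl⟩ := exists_rc_of_star hY
    exact hW.complete V
  have hcp' : ∀ Y, star Y = Y → SemiC D (-fld W Y) := fun Y hY => by
    rw [← fld_neg]
    exact hcp _ (by rw [star_neg, hY])
  refine ⟨N, ⟨{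
    br := br
    anti := fun U V => hi _ _ fun z hz => ?_
    jacobi := fun U V X => hi _ _ fun z hz => ?_
    star_br := fun U V => ?_
    C := {X | star X = X ∧ SemiC D (fld W (I • X))}
    real := fun X hX => hX.1
    closed := (isClosed_eq continuous_star continuous_id).inter
      ((isClosed_semiC_fld hD hW.hol).preimage (continuous_const_smul I))
    zero_mem := ⟨star_zero _, ?_⟩
    add_mem := fun X hX X' hX' => ⟨by rw [star_add, hX.1, hX'.1], ?_⟩
    smul_mem := fun t ht X hX => ⟨by rw [star_smul, hX.1, star_def, conj_ofReal], ?_⟩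
    pointed := fun X hX hX' => hW.inj X ?_
    gen := ?_
    inv := fun Y hY X hX => ?_
    W := W
    hol := hW.hol
    complete := hcp
    inj := hW.inj
    br_eq := he
    mem_iff := fun X => Iff.rfl
    max := fun Y h1 h2 h3 => ?_ }⟩⟩
  · rw [fld_neg, Pi.neg_apply, ← he U V z hz, ← he V U z hz, VectorField.lieBracket_swap]
  · have hv : ∀ U V, fld W (br U V) =ᶠ[𝓝 z] VectorField.lieBracket ℂ (fld W U) (fld W V) :=
      fun U V => Filter.mem_of_superset (hD.isOpen.mem_nhds hz) fun w hw => (he U V w hw).symm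
    have hd : ∀ U, ContDiffAt ℂ (2 : ℕ) (fld W U) z := fun U =>
      contDiffAt_of_hol hD.isOpen (fld_hol hW.hol U) hz 2
    rw [fld_add, Pi.add_apply, ← he _ _ z hz, ← he _ _ z hz, ← he _ _ z hz,
      EventuallyEq.rfl.lieBracket_vectorField_eq (hv V X),
      (hv U V).lieBracket_vectorField_eq EventuallyEq.rfl,
      EventuallyEq.rfl.lieBracket_vectorField_eq (hv U X)]
    exact VectorField.leibniz_identity_lieBracket (by simp) (hd U) (hd V) (hd X)
  · simp only [hbr, star_sum, star_smul, star_rc, Pi.star_apply]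
  · rw [smul_zero, fld_zero]
    exact semiC_zero
  · rw [smul_add, fld_add]
    exact hX.2.add hD hX'.2
  · rw [smul_comm, fld_smul]
    exact hX.2.smul hD.isOpen ht
  · have h1 := hX.2
    have h2 := hX'.2
    rw [fld_smul] at h1
    rw [smul_neg, fld_neg, fld_smul] at h2
    exact eq_zero_of_complete_I hD (hcp X hX.1) (hcp' X hX.1) h1 h2
  · obtain ⟨X, hX⟩ := G0b_gen hD hW
    refine ⟨rc X, ⟨star_rc X, by simpa [acone] using hX 0 (by simp)⟩, 1, one_pos, fun Y hY h => ?_⟩
    obtain ⟨y, rfl⟩ := exists_rc_of_star hY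
    rw [← rc_add]
    exact ⟨star_rc _, hX y (by rwa [norm_rc] at h)⟩
  · have hY' : star (-Y) = -Y := by rw [star_neg, hY]
    obtain ⟨φ, hφ, e1, -⟩ := exists_aut_ex hD.isOpen (hcp _ hY') (hcp' _ hY')
    obtain ⟨A, rfl⟩ := exists_rc_of_star hX.1
    obtain ⟨A', hA', e⟩ := G0b_push hD hW hφ (A := A) hX.2
    have e2 : NormedSpace.exp (br Y) (rc A) = rc A' := hi _ _ fun z hz => by
      have hz' := aut_maps_symm hφ hz
      have h1 := fderiv_ex_fld hD.isOpen (fld_hol hW.hol (-Y)) hW.hol (br (-Y)) (he (-Y))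
        ((hcp _ hY').2 _ hz') (rc A)
      rw [← e1, e _ hz', Equiv.apply_symm_apply, map_neg, neg_neg] at h1
      exact h1.symm
    rw [e2]
    exact ⟨star_rc _, hA'⟩
  · obtain ⟨V, hV, e⟩ := hW.max Y h1 h2 h3
    exact ⟨rc V, ⟨star_rc V, hV⟩, e⟩

end Pool.Agent.P.MP_2ff09b_gt
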