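import Pool.Agent.P.MP_2ff09b_gt.Triv

/-! CVX-K1. Closed pointed generating cones: the open dual cone and exponential moments.
Sketch. exists_pos: minimum of η ⬝ V on the compact set C ∩ sphere. dualInt_nonempty: the convex
hull of C ∩ sphere is compact (finite dimension; or argue with the closed convex set of sums) and
does not contain 0 because C is pointed; separate (geometric_hahn_banach_point_closed). A way to
avoid compactness of hulls: the dual cone has nonempty interior since otherwise it lies in a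
hyperplane u^⊥ and then u and -u are in the bidual, which is C by mem_of_dual. mem_of_dual is
Hahn-Banach for the closed convex set C. Integrability: exp (-c ‖V‖) times a polynomial is bounded by
a multiple of (1 + ‖V‖)^(-(N+1)) (integrable_one_add_norm). cphi_pos: C has interior points. -/

open Set MeasureTheory Complex Filter Topology Metric

noncomputable section

namespace Pool.Agent.P.MP_2ff09b_gt

variable {N : ℕ} {C : Set (Fin N → ℝ)}


theorem K1_abs_dot (ξ V : Fin N → ℝ) : |ξ ⬝ᵥ V| ≤ N * ‖ξ‖ * ‖V‖ := by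
  refine (Finset.abs_sum_le_sum_abs _ _).trans ?_
  calc ∑ i, |ξ i * V i| ≤ ∑ _i : Fin N, ‖ξ‖ * ‖V‖ := Finset.sum_le_sum fun i _ => by
        rw [abs_mul]
        exact mul_le_mul (norm_le_pi_norm ξ i) (norm_le_pi_norm V i) (abs_nonneg _) (norm_nonneg _)
    _ = N * ‖ξ‖ * ‖V‖ := by simp [mul_assoc]

theorem K1_cont (ξ : Fin N → ℝ) : Continuous fun V : Fin N → ℝ => ξ ⬝ᵥ V :=
  continuous_const.dotProduct continuous_id

theorem K1_nonneg {η : Fin N → ℝ} (hη : η ∈ dualInt C) {V : Fin N → ℝ} (hV : V ∈ C) :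
    0 ≤ η ⬝ᵥ V := by
  by_cases h : V = 0
  · rw [h, dotProduct_zero]
  · exact (hη V hV h).le

theorem K1_pow_le {c : ℝ} (hc : 0 < c) (k m : ℕ) : ∃ B : ℝ, ∀ x : ℝ, 0 ≤ x →
    x ^ k * Real.exp (-(c * x)) ≤ B * (1 + x) ^ (-(m : ℝ)) := by
  refine ⟨(k + m).factorial * Real.exp c / c ^ (k + m), fun x hx => ?_⟩
  have h1 : (0 : ℝ) < 1 + x := by linarith
  have h2 := Real.pow_div_factorial_le_exp (c * (1 + x)) (by positivity) (k + m)
  have h3 : (0 : ℝ) < (k + m).factorial := by exact_mod_cast Nat.factorial_pos _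
  rw [div_le_iff₀ h3, mul_pow, mul_add, mul_one, Real.exp_add] at h2
  rw [Real.rpow_neg h1.le, Real.rpow_natCast, ← div_eq_mul_inv, le_div_iff₀ (pow_pos h1 _),
    le_div_iff₀ (pow_pos hc _), Real.exp_neg]
  have h4 : x ^ k ≤ (1 + x) ^ k := pow_le_pow_left₀ hx (by linarith) k
  have h5 := Real.exp_pos (c * x)
  calc x ^ k * (Real.exp (c * x))⁻¹ * (1 + x) ^ m * c ^ (k + m)
      ≤ (1 + x) ^ k * (Real.exp (c * x))⁻¹ * (1 + x) ^ m * c ^ (k + m) := by gcongr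
    _ = c ^ (k + m) * (1 + x) ^ (k + m) * (Real.exp (c * x))⁻¹ := by ring
    _ ≤ Real.exp c * Real.exp (c * x) * (k + m).factorial * (Real.exp (c * x))⁻¹ := by gcongr
    _ = (k + m).factorial * Real.exp c := by field_simp

theorem PCone.convex (hC : PCone C) : Convex ℝ C := by
  exact fun x hx y hy a b ha hb _ => hC.add_mem _ (hC.smul_mem a ha x hx) _ (hC.smul_mem b hb y hy)

theorem PCone.exists_pos (hC : PCone C) {η : Fin N → ℝ} (hη : η ∈ dualInt C) :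
    ∃ c : ℝ, 0 < c ∧ ∀ V ∈ C, c * ‖V‖ ≤ η ⬝ᵥ V := by
  obtain ⟨c, hc, h⟩ := ((isCompact_sphere (0 : Fin N → ℝ) 1).inter_left hC.closed).exists_forall_le'
    (K1_cont η).continuousOn (a := 0) fun V hV => hη V hV.1 (ne_zero_of_mem_unit_sphere ⟨V, hV.2⟩)
  refine ⟨c, hc, fun V hV => ?_⟩
  by_cases h0 : V = 0
  · simp [h0]
  · have h1 : 0 < ‖V‖ := norm_pos_iff.2 h0
    have h2 := h (‖V‖⁻¹ • V) ⟨hC.smul_mem _ (inv_pos.2 h1).le V hV, by
      rw [mem_sphere_zero_iff_norm, norm_smul, norm_inv, norm_norm, inv_mul_cancel₀ h1.ne']⟩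
    rwa [dotProduct_smul, smul_eq_mul, ← div_eq_inv_mul, le_div_iff₀ h1] at h2

theorem PCone.isOpen_dualInt (hC : PCone C) : IsOpen (dualInt C) := by
  refine Metric.isOpen_iff.2 fun η hη => ?_
  obtain ⟨c, hc, h⟩ := hC.exists_pos hη
  refine ⟨c / (N + 1), by positivity, fun η' hη' V hV h0 => ?_⟩
  rw [mem_ball_iff_norm, lt_div_iff₀ (by positivity)] at hη'
  have h1 := (abs_le.1 (K1_abs_dot (η' - η) V)).1
  have h2 := h V hV
  have h3 : 0 < ‖V‖ := norm_pos_iff.2 h0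
  have h4 : N * ‖η' - η‖ < c := by nlinarith [norm_nonneg (η' - η)]
  rw [sub_dotProduct] at h1
  nlinarith

theorem PCone.mem_of_dual (hC : PCone C) {u : Fin N → ℝ}
    (h : ∀ ξ : Fin N → ℝ, (∀ V ∈ C, 0 ≤ ξ ⬝ᵥ V) → 0 ≤ ξ ⬝ᵥ u) : u ∈ C := by
  by_contra hu
  obtain ⟨f, a, h1, h2⟩ := geometric_hahn_banach_point_closed hC.convex hC.closed hu
  have h3 : ∀ V, (fun i => f fun j => if i = j then 1 else 0) ⬝ᵥ V = f V := fun V => by
    have := LinearMap.pi_apply_eq_sum_univ (f : (Fin N → ℝ) →ₗ[ℝ] ℝ) V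
    simp only [ContinuousLinearMap.coe_coe, smul_eq_mul] at this
    rw [this, dotProduct_comm]
    rfl
  have h4 := h2 0 hC.zero_mem
  rw [map_zero] at h4
  have h5 := h _ fun V hV => by
    rw [h3]
    by_contra hn
    push Not at hn
    have h6 := h2 _ (hC.smul_mem (a / f V) (div_nonneg_of_nonpos h4.le hn.le) V hV)
    rw [map_smul, smul_eq_mul, div_mul_cancel₀ _ hn.ne] at h6
    exact lt_irrefl _ h6
  rw [h3] at h5
  linarith

theorem PCone.dualInt_nonempty (hC : PCone C) : (dualInt C).Nonempty := by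
  have h1 : ∃ ξ : Fin N → ℝ, (∀ V ∈ C, 0 ≤ ξ ⬝ᵥ V) ∧ ∀ V ∈ C ∩ sphere (0 : Fin N → ℝ) 1,
      V ∈ C → 0 < ξ ⬝ᵥ V := by
    refine ((isCompact_sphere (0 : Fin N → ℝ) 1).inter_left hC.closed).induction_on
      (p := fun s => ∃ ξ : Fin N → ℝ, (∀ V ∈ C, 0 ≤ ξ ⬝ᵥ V) ∧ ∀ V ∈ s, V ∈ C → 0 < ξ ⬝ᵥ V)
      ⟨0, by simp, by simp⟩ ?_ ?_ ?_
    · rintro s t hst ⟨ξ, h1, h2⟩
      exact ⟨ξ, h1, fun V hV => h2 V (hst hV)⟩
    · rintro s t ⟨ξ, h1, h2⟩ ⟨ξ', h1', h2'⟩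
      refine ⟨ξ + ξ', fun V hV => ?_, fun V hV hVC => ?_⟩ <;> rw [add_dotProduct]
      · exact add_nonneg (h1 V hV) (h1' V hV)
      · rcases hV with hV | hV
        · exact add_pos_of_pos_of_nonneg (h2 V hV hVC) (h1' V hVC)
        · exact add_pos_of_nonneg_of_pos (h1 V hVC) (h2' V hV hVC)
    · intro V hV
      have h2 : ∃ ξ : Fin N → ℝ, (∀ V ∈ C, 0 ≤ ξ ⬝ᵥ V) ∧ 0 < ξ ⬝ᵥ V := by
        by_contra hn
        push Not at hn
        refine ne_zero_of_mem_unit_sphere ⟨V, hV.2⟩ (hC.pointed V hV.1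
          (hC.mem_of_dual fun ξ hξ => ?_))
        rw [dotProduct_neg]
        exact neg_nonneg.2 (hn ξ hξ)
      obtain ⟨ξ, h3, h4⟩ := h2
      exact ⟨{W | 0 < ξ ⬝ᵥ W}, mem_nhdsWithin_of_mem_nhds
        ((isOpen_lt continuous_const (K1_cont ξ)).mem_nhds h4), ξ, h3, fun W hW _ => hW⟩
  obtain ⟨ξ, -, h2⟩ := h1
  refine ⟨ξ, fun V hV h0 => ?_⟩
  have h3 : 0 < ‖V‖ := norm_pos_iff.2 h0
  have h4 := hC.smul_mem _ (inv_pos.2 h3).le V hV
  have h5 := h2 (‖V‖⁻¹ • V) ⟨h4, by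
    rw [mem_sphere_zero_iff_norm, norm_smul, norm_inv, norm_norm, inv_mul_cancel₀ h3.ne']⟩ h4
  rw [dotProduct_smul, smul_eq_mul] at h5
  exact (mul_pos_iff_of_pos_left (inv_pos.2 h3)).1 h5

theorem PCone.integrableOn_moment (hC : PCone C) {η : Fin N → ℝ} (hη : η ∈ dualInt C) (k : ℕ) :
    IntegrableOn (fun V : Fin N → ℝ => ‖V‖ ^ k * Real.exp (-(η ⬝ᵥ V))) C := by
  obtain ⟨c, hc, h⟩ := hC.exists_pos hη
  obtain ⟨B, hB⟩ := K1_pow_le hc k (N + 1)
  have h1 : Integrable (fun V : Fin N → ℝ => B * (1 + ‖V‖) ^ (-((N + 1 : ℕ) : ℝ))) :=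
    (integrable_one_add_norm (by simp)).const_mul B
  refine h1.integrableOn.mono' ((continuous_norm.pow k).mul
    (K1_cont η).neg.rexp).aestronglyMeasurable
    (ae_restrict_of_forall_mem hC.closed.measurableSet fun V hV => ?_)
  rw [Real.norm_of_nonneg (by positivity)]
  refine le_trans ?_ (hB _ (norm_nonneg V))
  exact mul_le_mul_of_nonneg_left (Real.exp_le_exp.2 (neg_le_neg (h V hV))) (by positivity)

theorem K1_int (hC : PCone C) {η : Fin N → ℝ} (hη : η ∈ dualInt C) {f : (Fin N → ℝ) → ℝ}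
    (hf : Continuous f) (B : ℝ) (k : ℕ) (h : ∀ V, |f V| ≤ B * ‖V‖ ^ k) :
    IntegrableOn (fun V : Fin N → ℝ => f V * Real.exp (-(η ⬝ᵥ V))) C := by
  refine ((hC.integrableOn_moment hη k).const_mul B).mono'
    (hf.mul (K1_cont η).neg.rexp).aestronglyMeasurable (Eventually.of_forall fun V => ?_)
  rw [norm_mul, Real.norm_of_nonneg (Real.exp_pos _).le, ← mul_assoc]
  exact mul_le_mul_of_nonneg_right (h V) (Real.exp_pos _).le

theorem K1_int0 (hC : PCone C) {η : Fin N → ℝ} (hη : η ∈ dualInt C) :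
    IntegrableOn (fun V : Fin N → ℝ => Real.exp (-(η ⬝ᵥ V))) C := by
  simpa using hC.integrableOn_moment hη 0

theorem K1_int1 (hC : PCone C) {η : Fin N → ℝ} (hη : η ∈ dualInt C) (ξ : Fin N → ℝ) :
    IntegrableOn (fun V : Fin N → ℝ => ξ ⬝ᵥ V * Real.exp (-(η ⬝ᵥ V))) C :=
  K1_int hC hη (K1_cont ξ) (N * ‖ξ‖) 1 fun V => by
    rw [pow_one]
    exact K1_abs_dot ξ V

theorem K1_int2 (hC : PCone C) {η : Fin N → ℝ} (hη : η ∈ dualInt C) (ξ ξ' : Fin N → ℝ) :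
    IntegrableOn (fun V : Fin N → ℝ => ξ ⬝ᵥ V * ξ' ⬝ᵥ V * Real.exp (-(η ⬝ᵥ V))) C :=
  K1_int hC hη ((K1_cont ξ).mul (K1_cont ξ')) (N * ‖ξ‖ * (N * ‖ξ'‖)) 2 fun V => by
    rw [abs_mul]
    exact (mul_le_mul (K1_abs_dot ξ V) (K1_abs_dot ξ' V) (abs_nonneg _)
      (by positivity)).trans_eq (by ring)

theorem PCone.cphi_pos (hC : PCone C) {η : Fin N → ℝ} (hη : η ∈ dualInt C) : 0 < cphi C η := by
  refine (setIntegral_pos_iff_support_of_nonneg_ae
    (Eventually.of_forall fun V => (Real.exp_pos _).le) (K1_int0 hC hη)).2 ?_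
  exact (Measure.measure_pos_of_nonempty_interior _ hC.gen).trans_le
    (measure_mono fun V hV => ⟨(Real.exp_pos _).ne', hV⟩)

theorem smul_mem_dualInt {η : Fin N → ℝ} (hη : η ∈ dualInt C) {t : ℝ} (ht : 0 < t) :
    t • η ∈ dualInt C := by
  intro V hV h0
  rw [smul_dotProduct, smul_eq_mul]
  exact mul_pos ht (hη V hV h0)

/-- The mean of a linear form. -/
theorem PCone.dot_cZ (hC : PCone C) {η : Fin N → ℝ} (hη : η ∈ dualInt C) (ξ : Fin N → ℝ) :
    ξ ⬝ᵥ cZ C η = (∫ V in C, (ξ ⬝ᵥ V) * Real.exp (-(η ⬝ᵥ V))) / cphi C η := by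
  have h1 : ∀ j, IntegrableOn (fun V : Fin N → ℝ => ξ j * (V j * Real.exp (-(η ⬝ᵥ V)))) C :=
    fun j => (K1_int hC hη (continuous_apply j) 1 1 fun V => by
      rw [one_mul, pow_one]
      exact norm_le_pi_norm V j).const_mul _
  have h2 : (fun V : Fin N → ℝ => ξ ⬝ᵥ V * Real.exp (-(η ⬝ᵥ V))) =
      fun V => ∑ j, ξ j * (V j * Real.exp (-(η ⬝ᵥ V))) := funext fun V => by
    rw [dotProduct, Finset.sum_mul]
    exact Finset.sum_congr rfl fun j _ => mul_assoc _ _ _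
  rw [h2, integral_finsetSum _ fun j _ => h1 j, Finset.sum_div, dotProduct]
  exact Finset.sum_congr rfl fun j _ => by rw [integral_const_mul, mul_div_assoc, cZ]

/-- The covariance of two linear forms. -/
theorem PCone.dot_cA (hC : PCone C) {η : Fin N → ℝ} (hη : η ∈ dualInt C) (ξ ξ' : Fin N → ℝ) :
    ξ ⬝ᵥ (cA C η).mulVec ξ' =
      (∫ V in C, (ξ ⬝ᵥ V) * (ξ' ⬝ᵥ V) * Real.exp (-(η ⬝ᵥ V))) / cphi C η -
        (ξ ⬝ᵥ cZ C η) * (ξ' ⬝ᵥ cZ C η) := by
  have h1 : ∀ i j, IntegrableOn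
      (fun V : Fin N → ℝ => ξ i * ξ' j * (V i * V j * Real.exp (-(η ⬝ᵥ V)))) C :=
    fun i j => (K1_int hC hη ((continuous_apply i).mul (continuous_apply j)) 1 2 fun V => by
      rw [one_mul, sq]
      exact (abs_mul _ _).trans_le (mul_le_mul (norm_le_pi_norm V i) (norm_le_pi_norm V j)
        (abs_nonneg _) (norm_nonneg _))).const_mul _
  have h2 : (fun V : Fin N → ℝ => ξ ⬝ᵥ V * ξ' ⬝ᵥ V * Real.exp (-(η ⬝ᵥ V))) =
      fun V => ∑ i, ∑ j, ξ i * ξ' j * (V i * V j * Real.exp (-(η ⬝ᵥ V))) := funext fun V => by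
    rw [dotProduct, dotProduct, Finset.sum_mul_sum, Finset.sum_mul]
    refine Finset.sum_congr rfl fun i _ => ?_
    rw [Finset.sum_mul]
    exact Finset.sum_congr rfl fun j _ => by ring
  rw [h2, integral_finsetSum _ fun i _ => integrable_finsetSum _ fun j _ => h1 i j,
    Finset.sum_div, dotProduct, dotProduct, dotProduct, Finset.sum_mul_sum,
    ← Finset.sum_sub_distrib]
  refine Finset.sum_congr rfl fun i _ => ?_
  rw [integral_finsetSum _ fun j _ => h1 i j, Finset.sum_div, ← Finset.sum_sub_distrib,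
    Matrix.mulVec, dotProduct, Finset.mul_sum]
  refine Finset.sum_congr rfl fun j _ => ?_
  rw [integral_const_mul, cA, Matrix.of_apply]
  ring

end Pool.Agent.P.MP_2ff09b_gt
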