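import Pool.Agent.P.MP_2ff09b_gt.L2
import Pool.Agent.P.MP_2ff09b_gt.K1

/-! CVX-L3. Elliptic elements of a Lie algebra with an invariant cone.
Sketch. The real cone {V | rc V ∈ C} is a PCone; dualInt_nonempty and exists_pos give η (extend it
to complex vectors by taking real parts). exists_norm_le: from η. ell_of_comm: exp (t ad Y) fixes X
and preserves C, so it maps the order interval {W real | X ± W ∈ C} (which contains a ball of the
real form, and is bounded by exists_norm_le) to itself; complex vectors split by exists_re_im.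
ell_of_functional: η (exp (t ad Y) V) does not depend on t for real V; every real V of norm at most
ε is (X + V) - X with both terms in C. eq_zero_of_br_br: exp (t ad Y) X = X + t [Y, X] is in C for
all real t, divide by |t| and let t tend to infinity; pointed. -/

open Set MeasureTheory Complex Filter Topology Metric

noncomputable section

namespace Pool.Agent.P.MP_2ff09b_gt

variable {N : ℕ} (L : LCtx N)

namespace LCtx


theorem L3_pcone : PCone {V : Fin N → ℝ | rc V ∈ L.C} where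
  closed := L.closed.preimage
    (continuous_pi fun j => Complex.continuous_ofReal.comp (continuous_apply j))
  zero_mem := by
    rw [mem_setOf_eq, rc_zero]
    exact L.zero_mem
  add_mem := fun V hV V' hV' => by
    rw [mem_setOf_eq, rc_add]
    exact L.add_mem _ hV _ hV'
  smul_mem := fun t ht V hV => by
    rw [mem_setOf_eq, rc_smul]
    exact L.smul_mem t ht _ hV
  pointed := fun V hV hV' => by
    rw [mem_setOf_eq, rc_neg] at hV'
    exact rc_injective ((L.pointed _ hV hV').trans rc_zero.symm)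
  gen := by
    obtain ⟨X, hX, ε, hε, h⟩ := L.gen
    obtain ⟨V, rfl⟩ := exists_rc_of_star (L.real X hX)
    refine ⟨V, mem_interior_iff_mem_nhds.2 (mem_of_superset (closedBall_mem_nhds V hε)
      fun V' hV' => ?_)⟩
    have := h (rc (V' - V)) (star_rc _) (by rwa [norm_rc, ← dist_eq_norm])
    rwa [← rc_add, add_sub_cancel] at this

theorem L3_star_smul {Y : Fin N → ℂ} (hY : star Y = Y) (t : ℝ) :
    star ((t : ℂ) • Y) = (t : ℂ) • Y := by
  rw [star_smul, hY, Complex.star_def, Complex.conj_ofReal]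

theorem L3_norm_smul (t : ℝ) (ht : 0 ≤ t) (Y : Fin N → ℂ) : ‖(t : ℂ) • Y‖ = t * ‖Y‖ := by
  rw [norm_smul, Complex.norm_real, Real.norm_of_nonneg ht]

theorem L3_scale {X V : Fin N → ℂ} {ε t : ℝ}
    (h : ∀ Y, star Y = Y → ‖Y‖ ≤ ε → X + Y ∈ L.C) (ht : 0 < t) (hV : star V = V)
    (hn : ‖V‖ ≤ t * ε) : (t : ℂ) • X + V ∈ L.C := by
  have h1 := L.smul_mem t ht.le _ (h (((t⁻¹ : ℝ) : ℂ) • V) (L3_star_smul hV _) (by
    rw [L3_norm_smul _ (inv_pos.2 ht).le, inv_mul_le_iff₀ ht]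
    exact hn))
  rwa [smul_add, smul_smul, ← Complex.ofReal_mul, mul_inv_cancel₀ ht.ne', Complex.ofReal_one,
    one_smul] at h1

theorem L3_exp_mem {X Y : Fin N → ℂ} (hX : X ∈ L.C) (hY : star Y = Y) (t : ℝ) :
    NormedSpace.exp ((t : ℂ) • L.br Y) X ∈ L.C := by
  rw [← map_smul]
  exact L.inv _ (L3_star_smul hY t) X hX

theorem L3_ell {T : (Fin N → ℂ) →L[ℂ] (Fin N → ℂ)} {ε M : ℝ} (hε : 0 < ε)
    (h : ∀ (t : ℝ) (V : Fin N → ℂ), star V = V → ‖V‖ ≤ ε →
      ‖NormedSpace.exp ((t : ℂ) • T) V‖ ≤ M) : Ell T := by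
  have hM : 0 ≤ M := by simpa using h 0 0 (star_zero _) (by simpa using hε.le)
  have key : ∀ (t : ℝ) (V : Fin N → ℂ), star V = V →
      ‖NormedSpace.exp ((t : ℂ) • T) V‖ ≤ M / ε * ‖V‖ := fun t V hV => by
    rcases eq_or_ne V 0 with rfl | h0
    · simp
    have hn : 0 < ‖V‖ := norm_pos_iff.2 h0
    have hs : 0 < ε / ‖V‖ := div_pos hε hn
    have h1 := h t (((ε / ‖V‖ : ℝ) : ℂ) • V) (L3_star_smul hV _) (by
      rw [L3_norm_smul _ hs.le, div_mul_cancel₀ _ hn.ne'])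
    rw [map_smul, L3_norm_smul _ hs.le, div_mul_eq_mul_div, div_le_iff₀ hn] at h1
    rw [div_mul_eq_mul_div, le_div_iff₀ hε]
    linarith
  refine ⟨2 * (M / ε), fun t => ContinuousLinearMap.opNorm_le_bound _ (by positivity) fun U => ?_⟩
  obtain ⟨A, B, hA, hB, nA, nB, e, -⟩ := exists_re_im U
  have k : 0 ≤ M / ε := by positivity
  have k1 := (key t A hA).trans (mul_le_mul_of_nonneg_left nA k)
  have k2 := (key t B hB).trans (mul_le_mul_of_nonneg_left nB k)
  have k3 : NormedSpace.exp ((t : ℂ) • T) U =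
      NormedSpace.exp ((t : ℂ) • T) A + I • NormedSpace.exp ((t : ℂ) • T) B := by
    rw [← map_smul, ← map_add, ← e]
  rw [k3]
  refine (norm_add_le _ _).trans ?_
  rw [norm_smul, Complex.norm_I, one_mul]
  linarith

theorem L3_lim {f : ℝ → Fin N → ℂ} (hf : Continuous f) (h : ∀ s, 0 < s → f s ∈ L.C) :
    f 0 ∈ L.C :=
  L.closed.mem_of_tendsto (b := 𝓝[>] (0 : ℝ)) ((hf.tendsto 0).mono_left nhdsWithin_le_nhds)
    (eventually_nhdsWithin_of_forall h)

theorem L3_poly {X Y : Fin N → ℂ} (hX : X ∈ L.C) (hY : star Y = Y)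
    (h : L.br Y (L.br Y (L.br Y X)) = 0) (t : ℝ) :
    X + (t : ℂ) • L.br Y X + ((t : ℂ) ^ 2 / 2) • L.br Y (L.br Y X) ∈ L.C := by
  have h1 := L.L3_exp_mem hX hY t
  rw [exp_apply_of_sq (by simp [h])] at h1
  have e : (1 / 2 : ℂ) • ((t : ℂ) • L.br Y) (((t : ℂ) • L.br Y) X) =
      ((t : ℂ) ^ 2 / 2) • L.br Y (L.br Y X) := by
    rw [ContinuousLinearMap.smul_apply, ContinuousLinearMap.smul_apply, map_smul, smul_smul,
      smul_smul]
    congr 1
    ring
  rwa [e, ContinuousLinearMap.smul_apply] at h1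

theorem exists_functional : ∃ (η : (Fin N → ℂ) →L[ℝ] ℝ) (c : ℝ), 0 < c ∧
    ∀ X ∈ L.C, c * ‖X‖ ≤ η X := by
  obtain ⟨η, hη⟩ := L.L3_pcone.dualInt_nonempty
  obtain ⟨c, hc, h⟩ := L.L3_pcone.exists_pos hη
  refine ⟨∑ j, η j • Complex.reCLM.comp (ContinuousLinearMap.proj j), c, hc, fun X hX => ?_⟩
  obtain ⟨V, rfl⟩ := exists_rc_of_star (L.real X hX)
  rw [norm_rc]
  refine (h V hX).trans_eq ?_
  simp [dotProduct]

theorem exists_norm_le : ∃ c : ℝ, 0 < c ∧ ∀ A ∈ L.C, ∀ B ∈ L.C, ‖A‖ ≤ c * ‖A + B‖ := by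
  obtain ⟨η, c, hc, h⟩ := L.exists_functional
  refine ⟨(‖η‖ + 1) / c, by positivity, fun A hA B hB => ?_⟩
  rw [div_mul_eq_mul_div, le_div_iff₀ hc]
  have h1 := h A hA
  have h2 := (mul_nonneg hc.le (norm_nonneg B)).trans (h B hB)
  have h3 := (le_abs_self _).trans (η.le_opNorm (A + B))
  rw [map_add] at h3
  nlinarith [norm_nonneg (A + B)]

theorem exists_intC : ∃ X, L.IntC X := L.gen

theorem convex_C : Convex ℝ L.C := by
  intro x hx y hy a b ha hb _
  rw [← Complex.coe_smul, ← Complex.coe_smul]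
  exact L.add_mem _ (L.smul_mem a ha x hx) _ (L.smul_mem b hb y hy)

variable {L}

theorem IntC.smul {X : Fin N → ℂ} (h : L.IntC X) {t : ℝ} (ht : 0 < t) : L.IntC ((t : ℂ) • X) := by
  obtain ⟨hX, ε, hε, h⟩ := h
  exact ⟨L.smul_mem t ht.le X hX, t * ε, mul_pos ht hε, fun Y hY hn => L.L3_scale h ht hY hn⟩

theorem IntC.add_small {X : Fin N → ℂ} (h : L.IntC X) :
    ∃ ε : ℝ, 0 < ε ∧ ∀ Y, star Y = Y → ‖Y‖ ≤ ε → L.IntC (X + Y) := by
  obtain ⟨hX, ε, hε, h⟩ := h
  refine ⟨ε / 2, half_pos hε, fun Y hY hn => ⟨h Y hY (by linarith), ε / 2, half_pos hε,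
    fun Y' hY' hn' => ?_⟩⟩
  rw [add_assoc]
  exact h _ (by rw [star_add, hY, hY']) ((norm_add_le _ _).trans (by linarith))

theorem IntC.exists_add_sub {X : Fin N → ℂ} (h : L.IntC X) {V : Fin N → ℂ} (hV : star V = V) :
    ∃ t : ℝ, 0 < t ∧ (t : ℂ) • X + V ∈ L.C ∧ (t : ℂ) • X - V ∈ L.C := by
  obtain ⟨hX, ε, hε, h⟩ := h
  have ht : 0 < (‖V‖ + 1) / ε := by positivity
  have hn : ‖V‖ ≤ (‖V‖ + 1) / ε * ε := by
    rw [div_mul_cancel₀ _ hε.ne']
    linarith
  refine ⟨(‖V‖ + 1) / ε, ht, L.L3_scale h ht hV hn, ?_⟩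
  rw [sub_eq_add_neg]
  exact L.L3_scale h ht (by rw [star_neg, hV]) (by rwa [norm_neg])

theorem IntC.ell_of_comm {X Y : Fin N → ℂ} (h : L.IntC X) (hY : star Y = Y) (hc : L.br Y X = 0) :
    Ell (L.br Y) := by
  obtain ⟨hX, ε, hε, h⟩ := h
  obtain ⟨c, hc0, hn⟩ := L.exists_norm_le
  refine L3_ell (M := c * ‖X + X‖ + ‖X‖) hε fun t V hV hVn => ?_
  have e : NormedSpace.exp ((t : ℂ) • L.br Y) X = X := by
    rw [exp_apply_eigen (μ := 0) (by simp [hc]), Complex.exp_zero, one_smul]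
  have h1 := L.L3_exp_mem (h V hV hVn) hY t
  have h2 := L.L3_exp_mem (h (-V) (by rw [star_neg, hV]) (by rwa [norm_neg])) hY t
  rw [map_add, e] at h1 h2
  have h3 := hn _ h1 _ h2
  rw [map_neg, add_add_add_comm, add_neg_cancel, add_zero] at h3
  have h4 := norm_sub_le (X + NormedSpace.exp ((t : ℂ) • L.br Y) V) X
  rw [add_sub_cancel_left] at h4
  linarith

theorem IntC.ell {X : Fin N → ℂ} (h : L.IntC X) : Ell (L.br X) :=
  h.ell_of_comm (L.real X h.1) (L.br_self X)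

theorem ell_of_functional {η : (Fin N → ℂ) →L[ℝ] ℝ} {c : ℝ} (hc : 0 < c)
    (hη : ∀ X ∈ L.C, c * ‖X‖ ≤ η X) {Y : Fin N → ℂ} (hY : star Y = Y)
    (h : ∀ V, star V = V → η (L.br Y V) = 0) : Ell (L.br Y) := by
  have inv : ∀ (t : ℝ) (V : Fin N → ℂ), star V = V →
      η (NormedSpace.exp ((t : ℂ) • L.br Y) V) = η V := fun t V hV => by
    have d : ∀ s : ℝ, HasDerivAt (fun s : ℝ => η (NormedSpace.exp ((s : ℂ) • L.br Y) V)) 0 s :=
      fun s => by
        have d1 := η.hasFDerivAt.comp_hasDerivAt s (hasDerivAt_exp_apply (L.br Y) V s)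
        rw [h _ (by rw [← map_smul, L.star_exp (L3_star_smul hY s), hV])] at d1
        exact d1
    have := is_const_of_deriv_eq_zero (fun s => (d s).differentiableAt) (fun s => (d s).deriv) t 0
    rwa [exp_apply_eigen (T := ((0 : ℝ) : ℂ) • L.br Y) (μ := 0) (by simp), Complex.exp_zero,
      one_smul] at this
  have bd : ∀ (t : ℝ), ∀ A ∈ L.C, ‖NormedSpace.exp ((t : ℂ) • L.br Y) A‖ ≤ ‖η‖ / c * ‖A‖ :=
    fun t A hA => by
      have h1 := hη _ (L.L3_exp_mem hA hY t)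
      rw [inv t A (L.real A hA)] at h1
      rw [div_mul_eq_mul_div, le_div_iff₀ hc, mul_comm]
      exact h1.trans ((le_abs_self _).trans (η.le_opNorm A))
  obtain ⟨X, hX, ε, hε, hb⟩ := L.gen
  refine L3_ell (M := ‖η‖ / c * (‖X‖ + ε) + ‖η‖ / c * ‖X‖) hε fun t V hV hVn => ?_
  have h1 := (bd t _ (hb V hV hVn)).trans (mul_le_mul_of_nonneg_left
    ((norm_add_le X V).trans (add_le_add le_rfl hVn)) (by positivity))
  have h2 := bd t X hX
  have h3 := norm_sub_le (NormedSpace.exp ((t : ℂ) • L.br Y) (X + V))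
    (NormedSpace.exp ((t : ℂ) • L.br Y) X)
  rw [← map_sub, add_sub_cancel_left] at h3
  linarith

theorem eq_zero_of_br_br {X Y : Fin N → ℂ} (hX : X ∈ L.C) (hY : star Y = Y)
    (h : L.br Y (L.br Y X) = 0) : L.br Y X = 0 := by
  have key : ∀ t : ℝ, X + (t : ℂ) • L.br Y X ∈ L.C := fun t => by
    simpa [h] using L.L3_poly hX hY (by rw [h, map_zero]) t
  have lim : ∀ u : ℝ, (u : ℂ) • L.br Y X ∈ L.C := fun u => by
    have := L.L3_lim (f := fun s : ℝ => (s : ℂ) • X + (u : ℂ) • L.br Y X) (by fun_prop)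
      fun s hs => by
        have h1 := L.smul_mem s hs.le _ (key (u / s))
        rwa [smul_add, smul_smul, ← Complex.ofReal_mul, mul_div_cancel₀ _ hs.ne'] at h1
    simpa using this
  refine L.pointed _ (by simpa using lim 1) (by simpa using lim (-1))

theorem mem_of_br_br_br {X Y : Fin N → ℂ} (hX : X ∈ L.C) (hY : star Y = Y)
    (h : L.br Y (L.br Y (L.br Y X)) = 0) : L.br Y (L.br Y X) ∈ L.C := by
  have := L.L3_lim (f := fun s : ℝ => (2 * (s : ℂ) ^ 2) • X + (2 * (s : ℂ)) • L.br Y X +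
    L.br Y (L.br Y X)) (by fun_prop) fun s hs => by
      have h1 := L.smul_mem (2 * s ^ 2) (by positivity) _ (L.L3_poly hX hY h s⁻¹)
      have hs' : (s : ℂ) ≠ 0 := Complex.ofReal_ne_zero.2 hs.ne'
      have e1 : ((2 * s ^ 2 : ℝ) : ℂ) * ((s⁻¹ : ℝ) : ℂ) = 2 * (s : ℂ) := by
        push_cast
        field_simp
      have e2 : ((2 * s ^ 2 : ℝ) : ℂ) * (((s⁻¹ : ℝ) : ℂ) ^ 2 / 2) = 1 := by
        push_cast
        field_simp
      rw [smul_add, smul_add, smul_smul, smul_smul, e1, e2, one_smul] at h1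
      simpa using h1
  simpa using this

end LCtx

end Pool.Agent.P.MP_2ff09b_gt
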