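import Pool.Agent.P.MP_2ff09b_gt.G0
import Pool.Agent.P.MP_2ff09b_gt.L3

/-! CVX-G1. The adjoint action.
Sketch. exists_ad: as in PreG.exists_normalizes (real vectors are differences of elements of C by
IntC.exists_add_sub; SemiC.push and max), extend complex linearly. star_map by construction;
br_map from the naturality of the bracket (VectorField.pullback_lieBracket, or apply
VectorField.fderiv_apply_lieBracket to h) and inj; bijectivity and mem_iff from HasSol.map for h and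
its inverse (the adjoint of the inverse is a two-sided inverse by inj). fderiv_ex is fderiv_ex_fld
with br_eq. exists_aut_of_inn: Submonoid.closure_induction, the generator exp (ad Y) is the adjoint
of ex (fld (-Y)), which fixes p when Y vanishes at p (hasSol_of_zero). -/

open Set MeasureTheory Complex Filter Topology Metric

noncomputable section

namespace Pool.Agent.P.MP_2ff09b_gt

variable {E : Type*} [NormedAddCommGroup E] [NormedSpace ℂ E] [FiniteDimensional ℂ E] {D : Set E}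

variable {N : ℕ} (G : GCtx D N)

namespace GCtx


theorem hol_fld (U : Fin N → ℂ) : DifferentiableOn ℂ (fld G.W U) D := fld_hol G.hol U

theorem semiC_add (hD : BCD D) {Y X : Fin N → ℂ} (hY : star Y = Y) (hX : X ∈ G.C) :
    SemiC D (fld G.W (Y + I • X)) := by
  rw [fld_add]
  exact (G.complete Y hY).add hD ((G.mem_iff X).1 hX).2

theorem semiC_smul (hD : BCD D) {X : Fin N → ℂ} (hX : X ∈ G.C) {ζ : ℂ} (hζ : 0 ≤ ζ.im) :
    SemiC D (ζ • fld G.W X) := by
  have h := G.semiC_add hD (LCtx.L3_star_smul (G.real X hX) ζ.re) (G.smul_mem _ hζ X hX)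
  rwa [smul_smul, ← add_smul, mul_comm, Complex.re_add_im, fld_smul] at h

theorem exists_aut (hD : IsOpen D) {Y : Fin N → ℂ} (hY : star Y = Y) :
    ∃ h ∈ autGroup D, (h : E → E) = ex D (fld G.W Y) ∧
      (h.symm : E → E) = ex D (fld G.W (-Y)) := by
  have h := G.complete (-Y) (by rw [star_neg, hY])
  rw [fld_neg] at h ⊢
  exact exists_aut_ex hD (G.complete Y hY) h

theorem fderiv_ex (hD : IsOpen D) {V : Fin N → ℂ} {z : E} (h : HasSol D (fld G.W V) z)
    (U : Fin N → ℂ) : fderiv ℂ (ex D (fld G.W V)) z (fld G.W U z) =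
      fld G.W (NormedSpace.exp (G.br (-V)) U) (ex D (fld G.W V) z) := by
  rw [map_neg]
  exact fderiv_ex_fld hD (G.hol_fld V) G.hol (G.br V) (G.br_eq V) h U

theorem isAd_ex (hD : IsOpen D) {Y : Fin N → ℂ} (hY : star Y = Y) {h : Equiv.Perm E}
    (hh : (h : E → E) = ex D (fld G.W Y)) : G.IsAd h (NormedSpace.exp (G.br (-Y))) := by
  intro U z hz
  rw [hh]
  exact G.fderiv_ex hD ((G.complete Y hY).2 z hz) U

omit [FiniteDimensional ℂ E] in
private theorem G1_uniq {h : Equiv.Perm E} (hh : h ∈ autGroup D) {A B : Fin N → ℂ}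
    (e : ∀ z ∈ D, fld G.W A (h z) = fld G.W B (h z)) : A = B := by
  refine sub_eq_zero.1 (G.inj _ fun z hz => ?_)
  have := e _ (aut_maps_symm hh hz)
  rw [Equiv.apply_symm_apply] at this
  rw [fld_sub, Pi.sub_apply, this, sub_self]

private theorem G1_cone (hD : IsOpen D) {h : Equiv.Perm E} (hh : h ∈ autGroup D) {X : Fin N → ℂ}
    (hX : X ∈ G.C) : ∃ X' ∈ G.C, ∀ z ∈ D, fderiv ℂ h z (fld G.W X z) = fld G.W X' (h z) := by
  have hr := G.real X hX
  obtain ⟨X', h1, h2⟩ := G.max _ ((G.complete X hr).push hD hh)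
    (((G.complete (-X) (by rw [star_neg, hr])).push hD hh).congr fun z _ => by
      rw [fld_neg, Pi.neg_apply, map_neg, Pi.neg_apply])
    ((((G.mem_iff X).1 hX).2.push hD hh).congr fun z _ => by
      rw [fld_smul, Pi.smul_apply, map_smul, Pi.smul_apply])
  refine ⟨X', h1, fun z hz => ?_⟩
  have := h2 _ (aut_maps hh hz)
  rwa [Equiv.symm_apply_apply] at this

private theorem G1_real (hD : IsOpen D) {h : Equiv.Perm E} (hh : h ∈ autGroup D) {V : Fin N → ℂ}
    (hV : star V = V) :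
    ∃ V', star V' = V' ∧ ∀ z ∈ D, fderiv ℂ h z (fld G.W V z) = fld G.W V' (h z) := by
  obtain ⟨X, hX⟩ := G.toLCtx.exists_intC
  obtain ⟨t, ht, h1, -⟩ := hX.exists_add_sub hV
  obtain ⟨A, hA, eA⟩ := G.G1_cone hD hh h1
  obtain ⟨B, hB, eB⟩ := G.G1_cone hD hh (G.smul_mem t ht.le X hX.1)
  refine ⟨A - B, by rw [star_sub, G.real A hA, G.real B hB], fun z hz => ?_⟩
  rw [fld_sub, Pi.sub_apply, ← eA z hz, ← eB z hz, ← map_sub, fld_add, Pi.add_apply,
    add_sub_cancel_left]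

private theorem G1_ad (hD : IsOpen D) {h : Equiv.Perm E} (hh : h ∈ autGroup D) :
    ∃ θ, G.IsAd h θ ∧ (∀ U, star (θ U) = θ (star U)) ∧ ∀ X ∈ G.C, θ X ∈ G.C := by
  choose V h1 h2 using fun j : Fin N => G.G1_real hD hh (V := Pi.single j 1)
    (by rw [← rc_single, star_rc])
  have key : ∀ U : Fin N → ℂ, (∑ j, (ContinuousLinearMap.proj j).smulRight (V j) :
      (Fin N → ℂ) →L[ℂ] (Fin N → ℂ)) U = ∑ j, U j • V j := fun U => by
    rw [_root_.sum_apply]
    rfl
  have a : G.IsAd h (∑ j, (ContinuousLinearMap.proj j).smulRight (V j)) := fun U z hz => by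
    rw [key, fld_sum, fld, map_sum]
    refine Finset.sum_congr rfl fun j _ => ?_
    rw [map_smul, fld_smul, Pi.smul_apply, ← h2 j z hz, fld_single]
  refine ⟨_, a, fun U => ?_, fun X hX => ?_⟩
  · rw [key, key, star_sum]
    refine Finset.sum_congr rfl fun j _ => ?_
    rw [star_smul, h1, Pi.star_apply]
  · obtain ⟨X', h3, h4⟩ := G.G1_cone hD hh hX
    rwa [G.G1_uniq hh fun z hz => (a X z hz).symm.trans (h4 z hz)]

omit [FiniteDimensional ℂ E] in
private theorem G1_inv (hD : IsOpen D) {h : Equiv.Perm E} (hh : h ∈ autGroup D)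
    {θ θ' : (Fin N → ℂ) →L[ℂ] (Fin N → ℂ)} (a : G.IsAd h θ) (a' : G.IsAd h.symm θ')
    (U : Fin N → ℂ) : θ' (θ U) = U := by
  refine G.G1_uniq (one_mem _) fun z hz => ?_
  have := a' (θ U) _ (aut_maps hh hz)
  rw [← a U z hz, aut_fderiv_symm_apply hD hh hz, Equiv.symm_apply_apply] at this
  exact this.symm

private theorem G1_der (hD : IsOpen D) {h : Equiv.Perm E} (hh : h ∈ autGroup D)
    {θ : (Fin N → ℂ) →L[ℂ] (Fin N → ℂ)} (a : G.IsAd h θ) (U V : Fin N → ℂ) {z : E} (hz : z ∈ D) :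
    fderiv ℂ (fun x => fderiv ℂ h x (fld G.W V x)) z (fld G.W U z) =
      fderiv ℂ (fld G.W (θ V)) (h z) (fld G.W (θ U) (h z)) := by
  have e : (fun x => fderiv ℂ h x (fld G.W V x)) =ᶠ[𝓝 z] fld G.W (θ V) ∘ h :=
    mem_of_superset (hD.mem_nhds hz) (a V)
  rw [e.fderiv_eq, fderiv_comp z ((G.hol_fld _).differentiableAt (hD.mem_nhds (aut_maps hh hz)))
    (aut_differentiableAt hD hh hz), ContinuousLinearMap.comp_apply, a U z hz]

theorem exists_ad (hD : BCD D) {h : Equiv.Perm E} (hh : h ∈ autGroup D) :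
    ∃ θ, G.IsAd h θ ∧ G.toLCtx.IsAut θ := by
  have := FiniteDimensional.complete ℂ E
  obtain ⟨θ, a, h1, h2⟩ := G.G1_ad hD.isOpen hh
  obtain ⟨θ', a', -, h2'⟩ := G.G1_ad hD.isOpen (aut_symm hh)
  have l := G.G1_inv hD.isOpen hh a a'
  have r := G.G1_inv hD.isOpen (aut_symm hh) a' a
  refine ⟨θ, a, Function.bijective_iff_has_inverse.2 ⟨θ', l, r⟩, h1, fun U V => ?_,
    fun X => ⟨fun hX => l X ▸ h2' _ hX, h2 X⟩⟩
  refine G.G1_uniq hh fun z hz => ?_
  have hn := hD.isOpen.mem_nhds hz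
  rw [← a _ z hz, ← G.br_eq U V z hz, ← G.br_eq _ _ _ (aut_maps hh hz),
    VectorField.fderiv_apply_lieBracket (contDiffAt_of_hol hD.isOpen (aut_hol hh) hz 2) (by simp)
      ((G.hol_fld V).differentiableAt hn) ((G.hol_fld U).differentiableAt hn),
    G.G1_der hD.isOpen hh a U V hz, G.G1_der hD.isOpen hh a V U hz]
  rfl

variable {G}

theorem IsAd.mul (hD : IsOpen D) {h h' : Equiv.Perm E} (hh : h ∈ autGroup D)
    (hh' : h' ∈ autGroup D) {θ θ' : (Fin N → ℂ) →L[ℂ] (Fin N → ℂ)} (a : G.IsAd h θ)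
    (a' : G.IsAd h' θ') : G.IsAd (h * h') (θ * θ') := by
  intro U z hz
  rw [Equiv.Perm.coe_mul, fderiv_comp z (aut_differentiableAt hD hh (aut_maps hh' hz))
    (aut_differentiableAt hD hh' hz), ContinuousLinearMap.comp_apply, a' U z hz,
    a _ _ (aut_maps hh' hz)]
  rfl

theorem IsAd.ex_conj (hD : IsOpen D) {h : Equiv.Perm E} (hh : h ∈ autGroup D)
    {θ : (Fin N → ℂ) →L[ℂ] (Fin N → ℂ)} (a : G.IsAd h θ) {V : Fin N → ℂ} {z : E}
    (hz : HasSol D (fld G.W V) z) : HasSol D (fld G.W (θ V)) (h z) ∧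
      ex D (fld G.W (θ V)) (h z) = h (ex D (fld G.W V) z) := by
  exact hz.map hD hD (aut_hol hh) (aut_maps hh) (G.hol_fld V) (G.hol_fld _) (a V)

theorem IsAd.zero_iff (hD : IsOpen D) {h : Equiv.Perm E} (hh : h ∈ autGroup D)
    {θ : (Fin N → ℂ) →L[ℂ] (Fin N → ℂ)} (a : G.IsAd h θ) {U : Fin N → ℂ} {z : E} (hz : z ∈ D) :
    fld G.W (θ U) (h z) = 0 ↔ fld G.W U z = 0 := by
  rw [← a U z hz]
  refine ⟨fun h0 => ?_, fun h0 => by rw [h0, map_zero]⟩
  rw [← aut_fderiv_symm_apply hD hh hz (fld G.W U z), h0, map_zero]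

variable (G)

theorem exists_aut_of_inn (hD : IsOpen D) {q : Submodule ℂ (Fin N → ℂ)}
    {g : (Fin N → ℂ) →L[ℂ] (Fin N → ℂ)} (hg : g ∈ G.toLCtx.inn q) :
    ∃ h ∈ autGroup D, G.IsAd h g ∧ ∀ p ∈ D, (∀ Y ∈ q, fld G.W Y p = 0) → h p = p := by
  induction hg using Submonoid.closure_induction with
  | mem g hg =>
    obtain ⟨Y, h1, h2, rfl⟩ := hg
    have h3 : star (-Y) = -Y := by rw [star_neg, h2]
    obtain ⟨h, hh, e, -⟩ := G.exists_aut hD h3
    have a := G.isAd_ex hD h3 e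
    rw [neg_neg] at a
    refine ⟨h, hh, a, fun p hp h0 => ?_⟩
    rw [e]
    exact (hasSol_of_zero hD (G.hol_fld _) hp (h0 _ (q.neg_mem h1))).2
  | one =>
    refine ⟨1, one_mem _, fun U z _ => ?_, fun _ _ _ => rfl⟩
    rw [Equiv.Perm.coe_one, fderiv_id]
    rfl
  | mul g g' _ _ ih ih' =>
    obtain ⟨h, hh, a, e⟩ := ih
    obtain ⟨h', hh', a', e'⟩ := ih'
    refine ⟨h * h', mul_mem hh hh', a.mul hD hh hh' a', fun p hp h0 => ?_⟩
    rw [Equiv.Perm.mul_apply, e' p hp h0, e p hp h0]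

end GCtx

end Pool.Agent.P.MP_2ff09b_gt
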