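import Pool.Agent.P.MP_2ff09b_gt.G1

/-! CVX-G2. No central element in the cone.
Sketch. Let S = {V : Fin N → ℝ | rc V ∈ C, br (rc V) = 0} and a its real span, with basis A j
(Module.finBasis). The fields W' j = fld W (rc (A j)) form an ACtx: fld W' (rc t) = fld W (rc (∑ t j
A j)); the set of t with ∑ t j A j in S is convex, contains 0, spans, and lies in acone D W', so the
interior is nonempty. For γ in Γ the automorphism θ of exists_ad preserves real vectors, C and the
centre, hence a; its matrix in the basis A normalises. NoAb gives dimension 0. -/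

open Set MeasureTheory Complex Filter Topology Metric

noncomputable section

namespace Pool.Agent.P.MP_2ff09b_gt

variable {E : Type*} [NormedAddCommGroup E] [NormedSpace ℂ E] [FiniteDimensional ℂ E] {D : Set E}

variable {N : ℕ} (G : GCtx D N)

namespace GCtx

/-- The central part of the cone, in real coordinates. -/
def G2_S : Set (Fin N → ℝ) := {V | rc V ∈ G.C ∧ G.br (rc V) = 0}

omit [FiniteDimensional ℂ E] in
theorem G2_convex : Convex ℝ G.G2_S := by
  rintro V ⟨h1, h2⟩ V' ⟨k1, k2⟩ s t hs ht -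
  refine ⟨?_, ?_⟩
  · rw [rc_add, rc_smul, rc_smul]
    exact G.add_mem _ (G.smul_mem s hs _ h1) _ (G.smul_mem t ht _ k1)
  · rw [rc_add, rc_smul, rc_smul, map_add, map_smul, map_smul, h2, k2]
    refine ContinuousLinearMap.ext fun U => ?_
    simp

omit [FiniteDimensional ℂ E] in
theorem G2_zero : (0 : Fin N → ℝ) ∈ G.G2_S := by
  refine ⟨?_, ?_⟩
  · rw [rc_zero]; exact G.zero_mem
  · rw [rc_zero, map_zero]

omit [FiniteDimensional ℂ E] in
theorem G2_central {V : Fin N → ℝ} (hV : V ∈ Submodule.span ℝ G.G2_S) : G.br (rc V) = 0 := by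
  induction hV using Submodule.span_induction with
  | mem x hx => exact hx.2
  | zero => rw [rc_zero, map_zero]
  | add x y _ _ hx hy => rw [rc_add, map_add, hx, hy, add_zero]
  | smul t x _ hx =>
    rw [rc_smul, map_smul, hx]
    refine ContinuousLinearMap.ext fun U => ?_
    simp

theorem G2_rc_sum {n : ℕ} (A : Fin n → Fin N → ℝ) (t : Fin n → ℝ) :
    rc (∑ j, t j • A j) = ∑ j, (t j : ℂ) • rc (A j) := by
  funext i
  simp [Finset.sum_apply]

omit [FiniteDimensional ℂ E] in
theorem G2_fld {n : ℕ} (A : Fin n → Fin N → ℝ) (c : ℂ) (t : Fin n → ℝ) :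
    fld (fun j => fld G.W (rc (A j))) (c • rc t) = fld G.W (c • rc (∑ j, t j • A j)) := by
  funext z
  rw [fld_smul, fld_smul, G2_rc_sum, Pi.smul_apply, Pi.smul_apply, fld_sum]
  congr 1
  refine Finset.sum_congr rfl fun j _ => ?_
  rw [fld_smul]
  rfl

omit [FiniteDimensional ℂ E] in
theorem G2_fld' {n : ℕ} (A : Fin n → Fin N → ℝ) (t : Fin n → ℝ) :
    fld (fun j => fld G.W (rc (A j))) (rc t) = fld G.W (rc (∑ j, t j • A j)) := by
  have := G.G2_fld A 1 t
  rwa [one_smul, one_smul] at this

/-- The real form of an operator commuting with conjugation. -/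
def G2_re (θ : (Fin N → ℂ) →L[ℂ] (Fin N → ℂ)) : (Fin N → ℝ) →ₗ[ℝ] (Fin N → ℝ) where
  toFun V := fun j => (θ (rc V) j).re
  map_add' V V' := by
    funext j
    rw [rc_add, map_add]
    simp
  map_smul' t V := by
    funext j
    rw [rc_smul, map_smul]
    simp

theorem G2_rc_re {θ : (Fin N → ℂ) →L[ℂ] (Fin N → ℂ)} (h : ∀ U, star (θ U) = θ (star U))
    (V : Fin N → ℝ) : rc (G2_re θ V) = θ (rc V) := by
  have h1 : star (θ (rc V)) = θ (rc V) := by rw [h, star_rc]
  funext j
  exact Complex.conj_eq_iff_re.1 (congrFun h1 j)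

omit [FiniteDimensional ℂ E] in
theorem G2_re_mem {θ : (Fin N → ℂ) →L[ℂ] (Fin N → ℂ)} (h : G.toLCtx.IsAut θ) {V : Fin N → ℝ}
    (hV : V ∈ G.G2_S) : G2_re θ V ∈ G.G2_S := by
  refine ⟨?_, ?_⟩
  · rw [G2_rc_re h.star_map]
    exact (h.mem_iff _).2 hV.1
  · rw [G2_rc_re h.star_map]
    refine ContinuousLinearMap.ext fun U => ?_
    obtain ⟨U', rfl⟩ := h.bij.2 U
    rw [← h.br_map, hV.2]
    simp


theorem noCenterCone (hD : BCD D) {Γ : Subgroup (Equiv.Perm E)} (hΓ : Γ ≤ autGroup D)
    (h : NoAb D Γ) : G.toLCtx.NoCenterCone := by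
  intro X hX hX0
  set a : Submodule ℝ (Fin N → ℝ) := Submodule.span ℝ G.G2_S with ha
  let b := Module.finBasis ℝ a
  let A : Fin (Module.finrank ℝ a) → Fin N → ℝ := fun j => (b j : Fin N → ℝ)
  have hA : ∀ t : Fin (Module.finrank ℝ a) → ℝ,
      ∑ j, t j • A j = (b.equivFun.symm t : Fin N → ℝ) := fun t => by
    rw [Module.Basis.equivFun_symm_apply]
    simp [A]
  have hctx : ACtx D (fun j => fld G.W (rc (A j))) := by
    refine ⟨fun j => G.hol_fld _, fun t => ?_, fun i j z hz => ?_, fun t ht => ?_, ?_⟩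
    · rw [G.G2_fld']
      exact G.complete _ (star_rc _)
    · rw [G.br_eq _ _ z hz, G.G2_central (b i).2, zero_apply, fld_zero]
      rfl
    · rw [G.G2_fld'] at ht
      have h1 := G.inj _ ht
      rw [← rc_zero, hA] at h1
      have h2 : b.equivFun.symm t = 0 := Subtype.ext (rc_injective h1)
      exact b.equivFun.symm.map_eq_zero_iff.1 h2
    · let ι : (Fin (Module.finrank ℝ a) → ℝ) →ₗ[ℝ] (Fin N → ℝ) :=
        a.subtype.comp b.equivFun.symm.toLinearMap
      have hι : ∀ t, ι t = (b.equivFun.symm t : Fin N → ℝ) := fun t => rfl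
      have hconv : Convex ℝ (ι ⁻¹' G.G2_S) := G.G2_convex.linear_preimage ι
      have h0 : (0 : Fin (Module.finrank ℝ a) → ℝ) ∈ ι ⁻¹' G.G2_S := by
        rw [mem_preimage, map_zero]
        exact G.G2_zero
      have hspan : Submodule.span ℝ (ι ⁻¹' G.G2_S) = ⊤ := by
        have hinj : Function.Injective ι :=
          a.injective_subtype.comp b.equivFun.symm.injective
        have hr : G.G2_S ⊆ range ι := fun V hV =>
          ⟨b.equivFun ⟨V, Submodule.subset_span hV⟩, by rw [hι]; simp⟩
        apply Submodule.map_injective_of_injective hinj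
        rw [Submodule.map_span, image_preimage_eq_of_subset hr, Submodule.map_top]
        apply le_antisymm
        · exact Submodule.span_le.2 hr
        · rintro _ ⟨t, rfl⟩
          exact (b.equivFun.symm t).2
      have hint : (interior (ι ⁻¹' G.G2_S)).Nonempty := by
        rw [hconv.interior_nonempty_iff_affineSpan_eq_top]
        apply AffineSubspace.coe_injective
        have := affineSpan_insert_zero (k := ℝ) (ι ⁻¹' G.G2_S)
        rw [insert_eq_of_mem h0, hspan] at this
        exact this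
      refine hint.mono (interior_mono fun t ht => ?_)
      change SemiC D (fld (fun j => fld G.W (rc (A j))) (I • rc t))
      rw [G.G2_fld, hA]
      exact ((G.mem_iff _).1 ht.1).2
  have hn : Module.finrank ℝ a = 0 := by
    refine h _ _ hctx fun γ hγ => ?_
    obtain ⟨θ, h1, h2⟩ := G.exists_ad hD (hΓ hγ)
    have hm : ∀ V ∈ a, G2_re θ V ∈ a := fun V hV => by
      have : a.map (G2_re θ) ≤ a := by
        rw [ha, Submodule.map_span]
        exact Submodule.span_mono (by rintro _ ⟨V, hV, rfl⟩; exact G.G2_re_mem h2 hV)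
      exact this ⟨V, hV, rfl⟩
    let θa : a →ₗ[ℝ] a := (G2_re θ).restrict hm
    refine ⟨LinearMap.toMatrix' (b.equivFun.toLinearMap ∘ₗ θa ∘ₗ b.equivFun.symm.toLinearMap),
      fun t z hz => ?_⟩
    rw [G.G2_fld', G.G2_fld', h1 _ z hz, hA, hA, LinearMap.toMatrix'_mulVec, ← G2_rc_re h2.star_map]
    congr 2
    simp [θa]
  obtain ⟨V, rfl⟩ := exists_rc_of_star (G.real X hX)
  have hV : V ∈ a := Submodule.subset_span ⟨hX, hX0⟩
  rw [Submodule.finrank_eq_zero.1 hn] at hV
  rw [(Submodule.mem_bot ℝ).1 hV, rc_zero]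

end GCtx

end Pool.Agent.P.MP_2ff09b_gt
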