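import Pool.Agent.P.MP_2ff09b_gt.L3

/-! CVX-L4. The radical of the Killing form is the centre; bounded representatives of orbits.
Sketch. radical: R = {U | kil U = 0} is a complex subspace stable under star and under every ad Y
(kil_br, kil_star). Fix X with IntC X. If U in R satisfies [X, U] = i λ U with λ nonzero, put
Y = U + star U (real, in R) and κ = [Y, [Y, X]]; (ad X)² Y = -λ² Y, so [X, κ] = 0 (jacobi), κ is real,
in R, elliptic (ell_of_comm) with kil κ κ = 0, so ad κ = 0; then κ is in C (mem_of_br_br_br), so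
κ = 0 (NoCenterCone), so [Y, X] = 0 (eq_zero_of_br_br), so U = star U and U = 0. By Ell.mem_span
ad X kills R; the real and imaginary parts of U in R are elliptic with zero Killing square.
bounded_rep: take η from exists_functional. There is c1 > 0 with -kil Y Y >= c1 ‖Y‖² for Y in C with
η ∘ ad Y = 0 on real vectors (compactness of this closed cone intersected with the sphere,
ell_of_functional, kil_of_ell, NoCenterCone). For θ, the closure of the orbit {g (θ X)} is a closed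
subset of C stable under inn ⊤; η attains its minimum on it at some X2; differentiating
t ↦ η (exp (t ad Y) X2) gives η [Y, X2] = 0; kil X2 X2 = kil X X by continuity (IsAut.kil). -/

open Set MeasureTheory Complex Filter Topology Metric

noncomputable section

namespace Pool.Agent.P.MP_2ff09b_gt

variable {N : ℕ} (L : LCtx N)

namespace LCtx


variable {L}

/-- The radical of the Killing form. -/
private def L4rad (L : LCtx N) : Submodule ℂ (Fin N → ℂ) where
  carrier := {U | ∀ V, L.kil U V = 0}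
  add_mem' := by
    obtain ⟨B, hB⟩ := L.exists_kil_bilin
    intro U U' hU hU' V
    have h1 := hU V
    have h2 := hU' V
    rw [hB] at h1 h2 ⊢
    simp [h1, h2]
  zero_mem' := by
    obtain ⟨B, hB⟩ := L.exists_kil_bilin
    intro V
    simp [hB]
  smul_mem' := by
    obtain ⟨B, hB⟩ := L.exists_kil_bilin
    intro c U hU V
    have h1 := hU V
    rw [hB] at h1 ⊢
    simp [h1]

private theorem L4rad_br (Y : Fin N → ℂ) {U : Fin N → ℂ} (hU : U ∈ L4rad L) :
    L.br Y U ∈ L4rad L := fun V => by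
  rw [kil_br, hU, neg_zero]

private theorem L4rad_star {U : Fin N → ℂ} (hU : U ∈ L4rad L) : star U ∈ L4rad L := fun V => by
  have h := L.kil_star U (star V)
  rw [star_star, hU, map_zero] at h
  exact h

private theorem L4central {X Y : Fin N → ℂ} (hX : L.IntC X) (hY : star Y = Y)
    (hR : Y ∈ L4rad L) (hc : L.br X Y = 0) : L.br Y = 0 := by
  have h1 : L.br Y X = 0 := by rw [L.anti, hc, neg_zero]
  obtain ⟨c, -, h2, h3⟩ := kil_of_ell (hX.ell_of_comm hY h1)
  refine h3 ?_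
  rw [hR Y] at h2
  exact_mod_cast neg_eq_zero.1 h2.symm

private theorem L4eigen (h : L.NoCenterCone) {X U : Fin N → ℂ} (hX : L.IntC X)
    (hU : U ∈ L4rad L) {lam : ℝ} (he : L.br X U = (I * lam) • U) : L.br X U = 0 := by
  have hXr : star X = X := L.real X hX.1
  have he' : L.br X (star U) = -((I * lam) • star U) := by
    have := congrArg star he
    rw [L.star_br, hXr, star_smul] at this
    rw [this, ← neg_smul]
    congr 1
    simp
  obtain ⟨Y, hYd⟩ : ∃ Y, Y = U + star U := ⟨_, rfl⟩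
  have hY : star Y = Y := by rw [hYd, star_add, star_star, add_comm]
  have hYR : Y ∈ L4rad L := hYd ▸ (L4rad L).add_mem hU (L4rad_star hU)
  have h1 : L.br X Y = (I * lam) • (U - star U) := by
    rw [hYd, map_add, he, he', smul_sub, sub_eq_add_neg]
  have h2 : L.br X (L.br X Y) = ((I * lam) * (I * lam)) • Y := by
    rw [h1, map_smul, map_sub, he, he', hYd, sub_neg_eq_add, ← smul_add, smul_smul]
  have hYX : L.br Y X = -L.br X Y := L.anti Y X
  have hκR : L.br Y (L.br Y X) ∈ L4rad L := by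
    refine L4rad_br Y ?_
    rw [hYX]
    exact (L4rad L).neg_mem (L4rad_br X hYR)
  have hκr : star (L.br Y (L.br Y X)) = L.br Y (L.br Y X) := by
    rw [L.star_br, L.star_br, hY, hXr]
  have hκc : L.br X (L.br Y (L.br Y X)) = 0 := by
    rw [L.jacobi, hYX, map_neg, map_neg, L.br_self, h2, map_neg, map_smul, L.br_self]
    simp
  have h3 := L4central hX hκr hκR hκc
  have h4 : L.br Y (L.br Y (L.br Y X)) = 0 := by
    rw [L.anti, h3]
    simp
  have h5 := h _ (mem_of_br_br_br hX.1 hY h4) h3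
  have h6 := eq_zero_of_br_br hX.1 hY h5
  have h7 : L.br X Y = 0 := by rw [L.anti, h6, neg_zero]
  by_cases hl : (I * lam : ℂ) = 0
  · rw [he, hl, zero_smul]
  · rw [h7, map_zero] at h2
    have h8 : Y = 0 := (smul_eq_zero.1 h2.symm).resolve_left (mul_ne_zero hl hl)
    rw [h7] at h1
    have h9 : U - star U = 0 := (smul_eq_zero.1 h1.symm).resolve_left hl
    have h10 : (2 : ℂ) • U = 0 := by
      rw [two_smul]
      calc U + U = (U + star U) + (U - star U) := by abel
        _ = 0 := by rw [← hYd, h8, h9, add_zero]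
    have h11 : U = 0 := (smul_eq_zero.1 h10).resolve_left two_ne_zero
    rw [h11, map_zero]

theorem NoCenterCone.radical (h : L.NoCenterCone) {U : Fin N → ℂ} (hU : ∀ V, L.kil U V = 0) :
    L.br U = 0 := by
  obtain ⟨X, hX⟩ := L.exists_intC
  have key : ∀ W ∈ L4rad L, L.br X W = 0 := by
    intro W hW
    have h1 := hX.ell.mem_span (S := L4rad L) (fun v hv => L4rad_br X hv) hW
    induction h1 using Submodule.span_induction with
    | mem u hu =>
      obtain ⟨hu, lam, he⟩ := hu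
      exact L4eigen h hX hu he
    | zero => exact map_zero _
    | add u v hu hv ihu ihv =>
      have hle : Submodule.span ℂ {u | u ∈ L4rad L ∧ ∃ lam : ℝ, L.br X u = (I * lam) • u} ≤
        L4rad L := Submodule.span_le.2 fun u hu => hu.1
      rw [map_add, ihu (hle hu), ihv (hle hv), add_zero]
    | smul a u hu ihu =>
      have hle : Submodule.span ℂ {u | u ∈ L4rad L ∧ ∃ lam : ℝ, L.br X u = (I * lam) • u} ≤
        L4rad L := Submodule.span_le.2 fun u hu => hu.1
      rw [map_smul, ihu (hle hu), smul_zero]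
  have hUR : U ∈ L4rad L := hU
  obtain ⟨A, B, hA, hB, -, -, h1, h2⟩ := exists_re_im U
  have hAR : A ∈ L4rad L := by
    have : A = (1 / 2 : ℂ) • (U + star U) := by
      rw [h2, h1]
      ext j
      simp
      ring
    rw [this]
    exact (L4rad L).smul_mem _ ((L4rad L).add_mem hUR (L4rad_star hUR))
  have hBR : B ∈ L4rad L := by
    have : B = (-I) • (U - A) := by
      rw [h1, add_sub_cancel_left, smul_smul]
      simp
    rw [this]
    exact (L4rad L).smul_mem _ ((L4rad L).sub_mem hUR hAR)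
  rw [h1, map_add, map_smul, L4central hX hA hAR (key A hAR), L4central hX hB hBR (key B hBR)]
  ext
  simp

private theorem L4lower (h : L.NoCenterCone) {η : (Fin N → ℂ) →L[ℝ] ℝ} {c : ℝ} (hc : 0 < c)
    (hη : ∀ X ∈ L.C, c * ‖X‖ ≤ η X) : ∃ c₁ : ℝ, 0 < c₁ ∧ ∀ Y ∈ L.C,
      (∀ V, star V = V → η (L.br Y V) = 0) → c₁ * ‖Y‖ ^ 2 ≤ -(L.kil Y Y).re := by
  obtain ⟨B, hB⟩ := L.exists_kil_bilin
  obtain ⟨K, hK⟩ : ∃ K : Set (Fin N → ℂ),
      K = {Y | Y ∈ L.C ∧ ∀ V, star V = V → η (L.br Y V) = 0} := ⟨_, rfl⟩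
  have hKc : IsClosed K := by
    have : K = L.C ∩ ⋂ V, ⋂ _ : star V = V, {Y | η (L.br Y V) = 0} := by
      ext Y
      simp [hK]
    rw [this]
    refine L.closed.inter (isClosed_iInter fun V => isClosed_iInter fun _ => ?_)
    exact isClosed_eq (η.continuous.comp (L.br.continuous.clm_apply continuous_const))
      continuous_const
  have hscale : ∀ Y ∈ K, Y ≠ 0 → ((‖Y‖⁻¹ : ℝ) : ℂ) • Y ∈ K ∩ sphere 0 1 := by
    intro Y hY h0
    have hn : 0 < ‖Y‖ := norm_pos_iff.2 h0
    rw [hK] at hY ⊢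
    refine ⟨⟨L.smul_mem _ (by positivity) Y hY.1, fun V hV => ?_⟩, ?_⟩
    · rw [map_smul, smul_apply, Complex.coe_smul, map_smul, hY.2 V hV, smul_zero]
    · simp [norm_smul, inv_mul_cancel₀ hn.ne']
  have hmem : ∀ Y ∈ L.C, (∀ V, star V = V → η (L.br Y V) = 0) → Y ∈ K := fun Y h1 h2 => by
    rw [hK]
    exact ⟨h1, h2⟩
  rcases (K ∩ sphere 0 1).eq_empty_or_nonempty with he | hne
  · refine ⟨1, one_pos, fun Y h1 h2 => ?_⟩
    by_cases h0 : Y = 0
    · simp [h0, hB]
    · have := hscale Y (hmem Y h1 h2) h0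
      rw [he] at this
      exact this.elim
  · have hcont : Continuous fun Y : Fin N → ℂ => -(B Y Y).re :=
      (Complex.continuous_re.comp (B.continuous.clm_apply continuous_id)).neg
    obtain ⟨W, ⟨hWK, hW1⟩, hmin⟩ :=
      ((isCompact_sphere (0 : Fin N → ℂ) 1).inter_left hKc).exists_isMinOn hne hcont.continuousOn
    rw [hK] at hWK
    have hpos : 0 < -(B W W).re := by
      obtain ⟨d, hd, h2, h3⟩ := kil_of_ell (ell_of_functional hc hη (L.real W hWK.1) hWK.2)
      rw [← hB, h2]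
      have : d ≠ 0 := fun h0 => by
        have := h W hWK.1 (h3 h0)
        simp [this] at hW1
      simpa using lt_of_le_of_ne hd this.symm
    refine ⟨_, hpos, fun Y h1 h2 => ?_⟩
    by_cases h0 : Y = 0
    · simp [h0, hB]
    · have hn : 0 < ‖Y‖ := norm_pos_iff.2 h0
      have h3 : -(B W W).re ≤ -(B (((‖Y‖⁻¹ : ℝ) : ℂ) • Y) (((‖Y‖⁻¹ : ℝ) : ℂ) • Y)).re :=
        hmin (hscale Y (hmem Y h1 h2) h0)
      simp only [map_smul, smul_apply, smul_eq_mul, re_ofReal_mul] at h3
      rw [hB]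
      calc -(B W W).re * ‖Y‖ ^ 2 ≤ -(‖Y‖⁻¹ * (‖Y‖⁻¹ * (B Y Y).re)) * ‖Y‖ ^ 2 := by gcongr
        _ = -(B Y Y).re := by field_simp

theorem NoCenterCone.bounded_rep (h : L.NoCenterCone) {X : Fin N → ℂ} (hX : X ∈ L.C) :
    ∃ M : ℝ, ∀ θ, L.IsAut θ → ∃ g ∈ L.inn ⊤, ‖g (θ X)‖ ≤ M := by
  obtain ⟨η, c, hc, hη⟩ := L.exists_functional
  obtain ⟨c₁, hc₁, hl⟩ := L4lower h hc hη
  obtain ⟨B, hB⟩ := L.exists_kil_bilin
  refine ⟨√(-(L.kil X X).re / c₁) + 1, fun θ hθ => ?_⟩
  obtain ⟨O, hO⟩ : ∃ O : Set (Fin N → ℂ), O = {Y | ∃ g ∈ L.inn ⊤, Y = g (θ X)} := ⟨_, rfl⟩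
  have hθX : θ X ∈ L.C := (hθ.mem_iff X).2 hX
  have hO0 : θ X ∈ O := by
    rw [hO]
    exact ⟨1, (L.inn ⊤).one_mem, rfl⟩
  have hOC : closure O ⊆ L.C := by
    refine closure_minimal ?_ L.closed
    rw [hO]
    rintro _ ⟨g, hg, rfl⟩
    exact ((isAut_of_mem_inn hg).mem_iff _).2 hθX
  have hOk : closure O ⊆ {Y | B Y Y = B X X} := by
    refine closure_minimal ?_ (isClosed_eq (B.continuous.clm_apply continuous_id) continuous_const)
    rw [hO]
    rintro _ ⟨g, hg, rfl⟩
    change B _ _ = _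
    rw [← hB, ← hB, (isAut_of_mem_inn hg).kil, hθ.kil]
  have hOs : ∀ g ∈ L.inn ⊤, MapsTo g (closure O) (closure O) := by
    intro g hg
    refine MapsTo.closure ?_ g.continuous
    rw [hO]
    rintro _ ⟨g', hg', rfl⟩
    exact ⟨g * g', (L.inn ⊤).mul_mem hg hg', rfl⟩
  have hcomp : IsCompact (closure O ∩ closedBall 0 (η (θ X) / c)) :=
    (isCompact_closedBall _ _).inter_left isClosed_closure
  have hin : ∀ Y ∈ closure O, η Y ≤ η (θ X) → Y ∈ closure O ∩ closedBall 0 (η (θ X) / c) := by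
    intro Y hY hle
    refine ⟨hY, ?_⟩
    rw [mem_closedBall_zero_iff, le_div_iff₀ hc]
    linarith [hη Y (hOC hY)]
  obtain ⟨X₂, ⟨hX₂, -⟩, hmin⟩ := hcomp.exists_isMinOn ⟨θ X, hin _ (subset_closure hO0) le_rfl⟩
    η.continuous.continuousOn
  have hmin' : ∀ Y ∈ closure O, η X₂ ≤ η Y := by
    intro Y hY
    by_cases hle : η Y ≤ η (θ X)
    · exact hmin (hin Y hY hle)
    · exact (hmin (hin _ (subset_closure hO0) le_rfl)).trans (not_le.1 hle).le
  have hcrit : ∀ V, star V = V → η (L.br X₂ V) = 0 := by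
    intro V hV
    have hz : ((0 : ℝ) : ℂ) • L.br V = 0 := by
      ext
      simp
    have hd := η.hasFDerivAt.comp_hasDerivAt (0 : ℝ) (hasDerivAt_exp_apply (L.br V) X₂ 0)
    have hloc : IsLocalMin (η ∘ fun s : ℝ => NormedSpace.exp ((s : ℂ) • L.br V) X₂) 0 := by
      refine Filter.Eventually.of_forall fun s => ?_
      have hg : NormedSpace.exp ((s : ℂ) • L.br V) ∈ L.inn ⊤ := by
        refine Submonoid.subset_closure ⟨(s : ℂ) • V, Submodule.mem_top, ?_, ?_⟩
        · rw [star_smul, hV]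
          simp
        · rw [map_smul]
      have := hmin' _ (hOs _ hg hX₂)
      simpa only [Function.comp, hz, NormedSpace.exp_zero, one_apply_eq_self] using this
    have h0 := hloc.hasDerivAt_eq_zero hd
    simp only [hz, NormedSpace.exp_zero, one_apply_eq_self] at h0
    rw [L.anti, map_neg, h0, neg_zero]
  have hb : ‖X₂‖ ≤ √(-(L.kil X X).re / c₁) := by
    refine Real.le_sqrt_of_sq_le ?_
    have h1 := hl X₂ (hOC hX₂) hcrit
    have h2 : B X₂ X₂ = B X X := hOk hX₂
    rw [hB, h2, ← hB] at h1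
    rw [le_div_iff₀ hc₁]
    linarith
  obtain ⟨Y, hY, hd⟩ := Metric.mem_closure_iff.1 hX₂ 1 one_pos
  rw [hO] at hY
  obtain ⟨g, hg, rfl⟩ := hY
  refine ⟨g, hg, ?_⟩
  rw [dist_comm, dist_eq_norm] at hd
  linarith [norm_sub_norm_le (g (θ X)) X₂]

theorem NoCenterCone.bounded_rep' (h : L.NoCenterCone) {V : Fin N → ℂ} (hV : star V = V) :
    ∃ M : ℝ, ∀ θ, L.IsAut θ → ∃ g ∈ L.inn ⊤, ‖g (θ V)‖ ≤ M := by
  obtain ⟨X, hX⟩ := L.exists_intC
  obtain ⟨t, -, h1, h2⟩ := hX.exists_add_sub hV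
  obtain ⟨c, hc, hle⟩ := L.exists_norm_le
  obtain ⟨M, hM⟩ := h.bounded_rep (L.add_mem _ h1 _ h2)
  refine ⟨c * M, fun θ hθ => ?_⟩
  obtain ⟨g, hg, hb⟩ := hM θ hθ
  refine ⟨g, hg, ?_⟩
  have ha := isAut_of_mem_inn hg
  have h3 := (ha.mem_iff _).2 ((hθ.mem_iff _).2 h1)
  have h4 := (ha.mem_iff _).2 ((hθ.mem_iff _).2 h2)
  have h5 := hle _ h3 _ h4
  have h6 := hle _ h4 _ h3
  rw [add_comm] at h6
  rw [← map_add, ← map_add] at h5 h6
  have h7 : g (θ ((t : ℂ) • X + V)) - g (θ ((t : ℂ) • X - V)) = (2 : ℂ) • g (θ V) := by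
    rw [← map_sub, ← map_sub, ← map_smul, ← map_smul, two_smul]
    congr 2
    abel
  have h8 := norm_sub_le (g (θ ((t : ℂ) • X + V))) (g (θ ((t : ℂ) • X - V)))
  rw [h7, norm_smul] at h8
  have h9 := mul_le_mul_of_nonneg_left hb hc.le
  have h10 : ‖(2 : ℂ)‖ = 2 := by simp
  rw [h10] at h8
  linarith

end LCtx

end Pool.Agent.P.MP_2ff09b_gt
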