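import Pool.Agent.P.MP_2ff09b_gt.G1
import Pool.Agent.P.MP_2ff09b_gt.L4
import Pool.Agent.P.MP_2ff09b_gt.E1

/-! CVX-G5. Elements with trivial adjoint action are trivial; semisimplicity.
Sketch. ex_inn_eq: induction on g (Submonoid.closure_induction_left or a statement quantified over
V). For a generator: let ζ be the automorphism ex (fld V), whose adjoint is exp (ad (-V)) = 1, so ζ
commutes with h = ex (fld (-Y)) (IsAd.ex_conj); and ex (fld (exp (ad Y) V)) (h z) = h (ζ z) = ζ (h z).
ex_eq_self: for γ in Γ let θ be the adjoint of γ⁻¹; then γ.symm (ζ (γ o)) = ex (fld (θ V)) o =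
ex (fld (g θ V)) o with ‖g θ V‖ <= M (bounded_rep'), which lies in a fixed compact Harnack ball
(hd_ex_le, nr_le_norm); Liouv.eq_one. nondeg: by radical, ad U = 0; the real and imaginary parts V
of U are central, exp (ad (t V)) = 1, so ex (t fld V) is the identity for all t; differentiate
(hasDerivAt_ex_smul_real) and use inj. -/

open Set MeasureTheory Complex Filter Topology Metric

noncomputable section

namespace Pool.Agent.P.MP_2ff09b_gt

variable {E : Type*} [NormedAddCommGroup E] [NormedSpace ℂ E] [FiniteDimensional ℂ E] {D : Set E}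

variable {N : ℕ} (G : GCtx D N)

namespace GCtx


theorem ex_inn_eq (hD : IsOpen D) {g : (Fin N → ℂ) →L[ℂ] (Fin N → ℂ)} (hg : g ∈ G.toLCtx.inn ⊤)
    {V : Fin N → ℂ} (hV : star V = V) (h1 : NormedSpace.exp (G.br V) = 1) {z : E} (hz : z ∈ D) :
    ex D (fld G.W (g V)) z = ex D (fld G.W V) z := by
  induction hg using Submonoid.closure_induction generalizing V z with
  | mem g hg =>
    obtain ⟨Y, -, hY, rfl⟩ := hg
    have hY' : star (-Y) = -Y := by rw [star_neg, hY]
    obtain ⟨h, hh, eh, -⟩ := G.exists_aut hD hY'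
    obtain ⟨ζ, hζ, eζ, -⟩ := G.exists_aut hD hV
    have a1 := G.isAd_ex hD hY' eh
    have a2 := G.isAd_ex hD hV eζ
    rw [neg_neg] at a1
    have e : NormedSpace.exp (G.br (-V)) (-Y) = -Y := by
      have := exp_comp_exp_neg (G.br V) (-Y)
      rwa [h1, ← map_neg] at this
    have hw : h.symm z ∈ D := aut_maps_symm hh hz
    have k1 := (a1.ex_conj hD hh ((G.complete V hV).2 _ hw)).2
    have k2 := (a2.ex_conj hD hζ ((G.complete _ hY').2 _ hw)).2
    rw [e, ← eh, Equiv.apply_symm_apply] at k2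
    rw [Equiv.apply_symm_apply, ← eζ, k2] at k1
    rw [k1, eζ]
  | one => rfl
  | mul g g' _ hg' ih ih' =>
    have a := LCtx.isAut_of_mem_inn hg'
    rw [← ih' hV h1 hz]
    exact ih (by rw [a.star_map, hV]) (a.exp_eq_one h1) hz

theorem ex_eq_self (hD : BCD D) {Γ : Subgroup (Equiv.Perm E)} (hΓ : Γ ≤ autGroup D)
    (hL : Liouv D Γ) (hc : G.toLCtx.NoCenterCone) {V : Fin N → ℂ} (hV : star V = V)
    (h1 : NormedSpace.exp (G.br V) = 1) {z : E} (hz : z ∈ D) : ex D (fld G.W V) z = z := by
  obtain ⟨ζ, hζ, eζ, -⟩ := G.exists_aut hD.isOpen hV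
  obtain ⟨M, hM⟩ := hc.bounded_rep' hV
  obtain ⟨r, hr, hb⟩ := Metric.isOpen_iff.1 hD.isOpen z hz
  rw [← eζ]
  refine hL.eq_one hD hΓ hζ hz (isCompact_hd_ball hD hz (2 * (‖fldL G.W z‖ * M) / r))
    (fun w hw => hw.1) (fun γ hγ => ?_) z hz
  have hγ' := aut_symm (hΓ hγ)
  obtain ⟨θ, a, hθ⟩ := G.exists_ad hD hγ'
  obtain ⟨g, hg, hn⟩ := hM θ hθ
  have k := (a.ex_conj hD.isOpen hγ' ((G.complete V hV).2 _ (aut_maps (hΓ hγ) hz))).2
  have hθV : star (θ V) = θ V := by rw [hθ.star_map, hV]
  have hS := G.complete (g (θ V)) (by rw [(LCtx.isAut_of_mem_inn hg).star_map, hθV])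
  rw [Equiv.symm_apply_apply, ← G.ex_inn_eq hD.isOpen hg hθV (hθ.exp_eq_one h1) hz] at k
  rw [eζ, ← k]
  refine ⟨hS.maps hz, (hd_ex_le hD hS hz).trans ((nr_le_norm hD hr hb _).trans ?_)⟩
  have := (fldL G.W z).le_of_opNorm_le_of_le le_rfl hn
  rw [fldL_apply] at this
  gcongr

theorem nondeg (hD : BCD D) {Γ : Subgroup (Equiv.Perm E)} (hΓ : Γ ≤ autGroup D)
    (hL : Liouv D Γ) (hc : G.toLCtx.NoCenterCone) : G.toLCtx.Nondeg := by
  have key : ∀ V, star V = V → G.br V = 0 → V = 0 := fun V hV h0 => G.inj V fun z hz => by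
    have e : ∀ t : ℝ, ex D ((t : ℂ) • fld G.W V) z = z := fun t => by
      rw [← fld_smul]
      refine G.ex_eq_self hD hΓ hL hc (LCtx.L3_star_smul hV t) ?_ hz
      have : G.br ((t : ℂ) • V) = 0 := by
        rw [map_smul, h0]
        ext
        simp
      rw [this, NormedSpace.exp_zero]
    have hs : HasSol D (((0 : ℝ) : ℂ) • fld G.W V) z := by
      rw [← fld_smul]
      exact (G.complete _ (LCtx.L3_star_smul hV 0)).2 z hz
    have d := hasDerivAt_ex_smul_real hD.isOpen (G.hol_fld V) hs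
    simp only [e] at d
    exact d.unique (hasDerivAt_const _ _)
  intro U hU
  have h0 := hc.radical hU
  have h0' : ∀ W, G.br (star U) W = 0 := fun W => by
    have := G.star_br U (star W)
    rw [h0, star_star] at this
    rw [← this]
    simp
  obtain ⟨A, B, hA, hB, -, -, h1, h2⟩ := exists_re_im U
  have k1 : ∀ W, G.br A W + I • G.br B W = 0 := fun W => by
    have : G.br U W = 0 := by
      rw [h0]
      rfl
    rw [h1] at this
    simpa using this
  have k2 : ∀ W, G.br A W - I • G.br B W = 0 := fun W => by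
    have := h0' W
    rw [h2] at this
    simpa using this
  have hA0 : ∀ W, G.br A W = 0 := fun W => by
    have : (2 : ℂ) • G.br A W = 0 := by
      rw [two_smul]
      linear_combination (exp := 1) k1 W + k2 W
    exact (smul_eq_zero.1 this).resolve_left two_ne_zero
  have hB0 : ∀ W, G.br B W = 0 := fun W => by
    have := k1 W
    rw [hA0, zero_add] at this
    exact (smul_eq_zero.1 this).resolve_left I_ne_zero
  rw [h1, key A hA (ContinuousLinearMap.ext hA0), key B hB (ContinuousLinearMap.ext hB0),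
    smul_zero, add_zero]

end GCtx

end Pool.Agent.P.MP_2ff09b_gt
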