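import Pool.Agent.P.MP_2ff09b_gt.F8
import Pool.Agent.P.MP_2ff09b_gt.A9

/-! CVX-G6. The retraction attached to a circle action.
Sketch. For im ζ >= 0 the field ζ X is semicomplete (smul_real, smul, add), l ζ = ex (ζ X) z is
differentiable at each such ζ (hasDerivAt_ex_smul), periodic (ex_smul_add) and bounded by a
constant M independent of z. Let ρ z be the mean over the real period. It lies in D: the curve is
compact in D, so it lies in the closed convex set {w | ball w δ ⊆ D}, use Convex.set_average_mem or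
Convex.integral_mem. periodic_mean gives uniform convergence on D, hol_of_tendsto gives holomorphy.
zero: X (l (i t)) = l'(i t) has norm at most 2 M / t. fix: hasSol_of_zero. mean: periodic_mean for
u ∘ l and continuity of u at ρ z. -/

open Set MeasureTheory Complex Filter Topology Metric

noncomputable section

namespace Pool.Agent.P.MP_2ff09b_gt

variable {E : Type*} [NormedAddCommGroup E] [NormedSpace ℂ E] [FiniteDimensional ℂ E] {D : Set E}


theorem G6_semi (hD : BCD D) {X : E → E} (h1 : SemiC D X) (h2 : SemiC D (-X))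
    (h3 : SemiC D (I • X)) {ζ : ℂ} (hζ : 0 ≤ ζ.im) : SemiC D (ζ • X) := by
  have := (h1.smul_real hD.isOpen h2 ζ.re).add hD (h3.smul hD.isOpen hζ)
  rwa [smul_smul, ← add_smul, re_add_im] at this

theorem G6_mean {F : Type*} [NormedAddCommGroup F] [NormedSpace ℂ F] [CompleteSpace F]
    (hD : BCD D) {X : E → E} (hX : DifferentiableOn ℂ X D)
    (hs : ∀ ζ : ℂ, 0 ≤ ζ.im → SemiC D (ζ • X))
    (per : ∀ z ∈ D, ex D (((2 * Real.pi : ℝ) : ℂ) • X) z = z) {u : E → F}
    (hu : DifferentiableOn ℂ u D) {M : ℝ} (hM : ∀ z ∈ D, ‖u z‖ ≤ M) {z : E} (hz : z ∈ D) {t : ℝ}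
    (ht : 0 < t) :
    ‖u (ex D ((I * t) • X) z) - ((2 * Real.pi)⁻¹ : ℝ) •
      ∫ θ in (0 : ℝ)..(2 * Real.pi), u (ex D ((θ : ℂ) • X) z)‖ ≤ 4 * Real.pi * M / t := by
  have hd : ∀ ζ : ℂ, 0 ≤ ζ.im → DifferentiableAt ℂ (fun ξ : ℂ => u (ex D (ξ • X) z)) ζ :=
    fun ζ hζ => (hu.differentiableAt (hD.isOpen.mem_nhds ((hs ζ hζ).maps hz))).comp ζ
      (hasDerivAt_ex_smul hD.isOpen hX ((hs ζ hζ).2 z hz)).differentiableAt
  refine periodic_mean (l := fun ξ : ℂ => u (ex D (ξ • X) z))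
    (fun ζ hζ => (hd ζ (le_of_lt hζ)).differentiableWithinAt)
    (fun ζ hζ => (hd ζ hζ).continuousAt.continuousWithinAt) (fun ζ hζ => ?_)
    (fun ζ hζ => hM _ ((hs ζ hζ).maps hz)) ht
  have e := (ex_smul_add hD.isOpen hX (hs ζ hζ)
    ((hs ((2 * Real.pi : ℝ) : ℂ) (ofReal_im _).ge).2 z hz)).2
  rw [per z hz] at e
  push_cast at e
  rw [e]

theorem G6_tend {F : Type*} [NormedAddCommGroup F] {f : ℝ → F} {y : F} {C : ℝ}
    (h : ∀ t, 0 < t → ‖f t - y‖ ≤ C / t) : Tendsto f atTop (𝓝 y) :=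
  tendsto_iff_norm_sub_tendsto_zero.2 (squeeze_zero' (Eventually.of_forall fun _ => norm_nonneg _)
    ((eventually_gt_atTop 0).mono h) (tendsto_const_nhds.div_atTop tendsto_id))

theorem G6_mem (hD : BCD D) {c : ℝ → E} (hc : Continuous c) (hm : ∀ θ, c θ ∈ D) :
    ((2 * Real.pi)⁻¹ : ℝ) • ∫ θ in (0 : ℝ)..(2 * Real.pi), c θ ∈ D := by
  have := FiniteDimensional.complete ℂ E
  have hp : 0 < 2 * Real.pi := Real.two_pi_pos
  by_contra hy
  obtain ⟨l, hl, -⟩ := hD.exists_sep hy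
  set y := ((2 * Real.pi)⁻¹ : ℝ) • ∫ θ in (0 : ℝ)..(2 * Real.pi), c θ with hyd
  let L : E →L[ℝ] ℝ := reCLM.comp (l.restrictScalars ℝ)
  have e : L y = (2 * Real.pi)⁻¹ * ∫ θ in (0 : ℝ)..(2 * Real.pi), L (c θ) := by
    rw [hyd, map_smul, L.intervalIntegral_comp_comm (hc.intervalIntegrable _ _), smul_eq_mul]
  have h := intervalIntegral.integral_lt_integral_of_continuousOn_of_le_of_exists_lt hp
    (L.continuous.comp hc).continuousOn (g := fun _ => L y) continuousOn_const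
    (fun θ _ => (hl _ (hm θ)).le) ⟨0, left_mem_Icc.2 hp.le, hl _ (hm 0)⟩
  rw [intervalIntegral.integral_const, sub_zero, smul_eq_mul, e, mul_inv_cancel_left₀ hp.ne'] at h
  exact lt_irrefl _ h

theorem exists_isRho (hD : BCD D) {X : E → E} (h1 : SemiC D X) (h2 : SemiC D (-X))
    (h3 : SemiC D (I • X)) (per : ∀ z ∈ D, ex D (((2 * Real.pi : ℝ) : ℂ) • X) z = z) :
    ∃ ρ, IsRho D X ρ := by
  have := FiniteDimensional.complete ℂ E
  have hp : 0 < 2 * Real.pi := Real.two_pi_pos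
  have hs : ∀ ζ : ℂ, 0 ≤ ζ.im → SemiC D (ζ • X) := fun ζ hζ => G6_semi hD h1 h2 h3 hζ
  obtain ⟨M, hM⟩ := hD.bounded.exists_norm_le
  have hd : ∀ z ∈ D, ∀ ζ : ℂ, 0 ≤ ζ.im →
      HasDerivAt (fun ξ : ℂ => ex D (ξ • X) z) (X (ex D (ζ • X) z)) ζ :=
    fun z hz ζ hζ => hasDerivAt_ex_smul hD.isOpen h1.1 ((hs ζ hζ).2 z hz)
  let ρ : E → E := fun z =>
    ((2 * Real.pi)⁻¹ : ℝ) • ∫ θ in (0 : ℝ)..(2 * Real.pi), ex D ((θ : ℂ) • X) z
  have hb : ∀ z ∈ D, ∀ t : ℝ, 0 < t → ‖ex D ((I * t) • X) z - ρ z‖ ≤ 4 * Real.pi * M / t :=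
    fun z hz t ht => G6_mean hD h1.1 hs per (u := fun w => w) differentiableOn_id hM hz ht
  have hu : TendstoUniformlyOn (fun t : ℝ => ex D ((I * t) • X)) ρ atTop D :=
    Metric.tendstoUniformlyOn_iff.2 fun ε hε => by
      filter_upwards [eventually_gt_atTop 0, ((tendsto_const_nhds (x := 4 * Real.pi * M)).div_atTop
        tendsto_id).eventually (gt_mem_nhds hε)] with t ht h z hz
      rw [dist_comm, dist_eq_norm]
      exact (hb z hz t ht).trans_lt h
  have hm : MapsTo ρ D D := fun z hz => G6_mem hD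
    (continuous_iff_continuousAt.2 fun θ => (hasDerivAt_ex_smul_real hD.isOpen h1.1
      ((hs θ (ofReal_im _).ge).2 z hz)).continuousAt) fun θ => (hs θ (ofReal_im _).ge).maps hz
  have hi : ∀ t : ℝ, 0 < t → 0 ≤ (I * t).im := fun t ht => by simpa using ht.le
  refine ⟨ρ, (hol_of_tendsto hD.isOpen ?_ hu.tendstoLocallyUniformlyOn).1, hm, fun z hz => ?_,
    fun q hq h0 => ?_, hu.tendstoLocallyUniformlyOn, fun u hu' ⟨M', hM'⟩ z hz => ?_⟩
  · filter_upwards [eventually_gt_atTop 0] with t ht using (hs _ (hi t ht)).hol_ex hD.isOpen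
  · refine tendsto_nhds_unique ((h1.1.differentiableAt (hD.isOpen.mem_nhds (hm hz))).continuousAt.tendsto.comp
      (G6_tend (hb z hz))) (G6_tend (C := 2 * M) fun t ht => ?_)
    have hball : ∀ ζ ∈ ball (I * t) t, 0 ≤ ζ.im := fun ζ hζ => by
      have e := (abs_im_le_norm (ζ - I * t)).trans_lt (mem_ball_iff_norm.1 hζ)
      have e' := (abs_lt.1 e).1
      simp only [sub_im, mul_im, I_re, ofReal_im, mul_zero, I_im, ofReal_re, one_mul,
        zero_add] at e'
      linarith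
    have e := norm_fderiv_le_of_bound (f := fun ξ : ℂ => ex D (ξ • X) z) ht
      (fun ζ hζ => (hd z hz ζ (hball ζ hζ)).differentiableAt.differentiableWithinAt)
      fun ζ hζ => hM _ ((hs ζ (hball ζ hζ)).maps hz)
    rw [← norm_deriv_eq_norm_fderiv, (hd z hz _ (hi t ht)).deriv] at e
    rw [sub_zero]
    exact e
  · have e : ∀ θ : ℝ, ex D ((θ : ℂ) • X) q = q := fun θ =>
      (hasSol_of_zero hD.isOpen (hs θ (ofReal_im _).ge).1 hq (by simp [h0])).2
    simp only [ρ, e]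
    rw [intervalIntegral.integral_const, sub_zero, inv_smul_smul₀ hp.ne']
  · have e := tendsto_nhds_unique
      ((hu'.differentiableAt (hD.isOpen.mem_nhds (hm hz))).continuousAt.tendsto.comp
        (G6_tend (hb z hz))) (G6_tend fun t ht => G6_mean hD h1.1 hs per hu' hM' hz ht)
    rw [e, real_smul]
    push_cast
    rw [mul_inv_cancel_left₀]
    exact_mod_cast hp.ne'

end Pool.Agent.P.MP_2ff09b_gt
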