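import Pool.Agent.P.MP_2ff09b_gt.G1

/-! CVX-G3. Isotropy algebras; vanishing of fields on the zero set of an element of the cone.
Sketch. bounded: take s, c from exists_finset_norm_le. If h fixes p and g is its adjoint then
fld (g U) z = dh (fld U (h.symm z)); for z in s the points h.symm z stay in a compact Harnack ball K
around p (hd_comp), where the derivative of any holomorphic self-map of D is bounded
(norm_fderiv_le_of_bound) and ‖fld U‖ <= C ‖U‖. vanK: for real K with [X, K] = 0 and R > 0 choose t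
with t X ± R K in C; strip_comm with V = fld (i t X), u = fld (R K) at the fixed point q gives
nr q (R K q) <= 2. A complex K splits by exists_re_im (the kernel of ad X is stable under star).
vanP: fderiv_ex_eigen for Y = t i X gives d(ex Y) (U q) = exp (t k) U q at the fixed point q;
nr_comp and exists_norm_le_nr. -/

open Set MeasureTheory Complex Filter Topology Metric

noncomputable section

namespace Pool.Agent.P.MP_2ff09b_gt

variable {E : Type*} [NormedAddCommGroup E] [NormedSpace ℂ E] [FiniteDimensional ℂ E] {D : Set E}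

variable {N : ℕ} (G : GCtx D N)

namespace GCtx


theorem br_mem_ker {p : E} (hp : p ∈ D) {U V : Fin N → ℂ} (hU : fld G.W U p = 0)
    (hV : fld G.W V p = 0) : fld G.W (G.br U V) p = 0 := by
  rw [← G.br_eq U V p hp, VectorField.lieBracket, hU, hV, map_zero, map_zero, sub_zero]

omit [FiniteDimensional ℂ E] in
theorem G3_norm_fld (U : Fin N → ℂ) (w : E) : ‖fld G.W U w‖ ≤ (∑ j, ‖G.W j w‖) * ‖U‖ := by
  rw [fld, Finset.sum_mul]
  refine norm_sum_le_of_le _ fun j _ => ?_
  rw [norm_smul, mul_comm]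
  exact mul_le_mul_of_nonneg_left (norm_le_pi_norm U j) (norm_nonneg _)

theorem G3_nr_fld (hD : BCD D) {p : E} (hp : p ∈ D) (R : ℝ) : ∃ B : ℝ, 0 ≤ B ∧ ∀ w ∈ D,
    hd D p w ≤ R → ∀ U : Fin N → ℂ, nr D w (fld G.W U w) ≤ B * ‖U‖ := by
  obtain ⟨r, hr, hb⟩ := Metric.isOpen_iff.1 hD.isOpen p hp
  have hc : ContinuousOn (fun w => ∑ j, ‖G.W j w‖) {w | w ∈ D ∧ hd D p w ≤ R} :=
    continuousOn_finsetSum _ fun j _ => ((G.hol j).continuousOn.mono fun w hw => hw.1).norm
  obtain ⟨M, hM⟩ := (isCompact_hd_ball hD hp R).exists_bound_of_continuousOn hc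
  refine ⟨2 * Real.exp R * (2 * |M| / r), by positivity, fun w hw hR U => ?_⟩
  have h1 : ‖fld G.W U w‖ ≤ |M| * ‖U‖ := (G.G3_norm_fld U w).trans
    (mul_le_mul_of_nonneg_right (((le_abs_self _).trans (hM w ⟨hw, hR⟩)).trans (le_abs_self M))
      (norm_nonneg U))
  calc nr D w (fld G.W U w) ≤ 2 * Real.exp (hd D p w) * nr D p (fld G.W U w) :=
        nr_le_exp_mul hD hp hw _
    _ ≤ 2 * Real.exp R * (2 * ‖fld G.W U w‖ / r) :=
        mul_le_mul (by gcongr) (nr_le_norm hD hr hb _) (nr_nonneg hp _) (by positivity)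
    _ ≤ 2 * Real.exp R * (2 * (|M| * ‖U‖) / r) := by gcongr
    _ = 2 * Real.exp R * (2 * |M| / r) * ‖U‖ := by ring

theorem bounded_inn (hD : BCD D) {p : E} (hp : p ∈ D) :
    ∃ C : ℝ, ∀ g ∈ G.toLCtx.inn (LinearMap.ker (fldL G.W p : (Fin N → ℂ) →ₗ[ℂ] E)), ‖g‖ ≤ C := by
  obtain ⟨s, c, hs, hc, h1⟩ := exists_finset_norm_le G.inj
  obtain ⟨C, hC, h2⟩ := exists_norm_le_nr hD
  obtain ⟨B, hB, h3⟩ := G.G3_nr_fld hD hp (∑ z ∈ s, hd D p z)
  refine ⟨c * (s.card * (C * B)), fun g hg => ?_⟩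
  obtain ⟨h, hh, ha, h4⟩ := G.exists_aut_of_inn hD.isOpen hg
  have h5 : h.symm p = p := h.symm_apply_eq.2 (h4 p hp fun Y hY => hY).symm
  refine ContinuousLinearMap.opNorm_le_bound _ (by positivity) fun U => (h1 _).trans ?_
  rw [mul_assoc, mul_assoc, ← nsmul_eq_mul]
  refine mul_le_mul_of_nonneg_left (Finset.sum_le_card_nsmul _ _ _ fun z hz => ?_) hc.le
  have hw := aut_maps_symm hh (hs hz)
  have h6 := ha U _ hw
  have h7 := nr_comp hD hD.isOpen (aut_hol hh) (aut_maps hh) hw (fld G.W U (h.symm z))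
  rw [h6, h.apply_symm_apply] at h7
  have h8 := hd_comp hD (aut_hol_symm hh) (aut_maps_symm hh) hp (hs hz)
  rw [h5] at h8
  rw [mul_assoc]
  exact (h2 z (hs hz) _).trans (mul_le_mul_of_nonneg_left (h7.trans (h3 _ hw (h8.trans
    (Finset.single_le_sum (fun z _ => hd_nonneg p z) hz)) U)) hC.le)

theorem ell_of_zero (hD : BCD D) {p : E} (hp : p ∈ D) {Y : Fin N → ℂ} (hY : star Y = Y)
    (h0 : fld G.W Y p = 0) : Ell (G.br Y) := by
  obtain ⟨C, hC⟩ := G.bounded_inn hD hp
  refine ⟨C, fun t => hC _ (Submonoid.subset_closure ⟨(t : ℂ) • Y, Submodule.smul_mem _ _ h0,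
    ?_, by rw [map_smul]⟩)⟩
  rw [star_smul, hY, Complex.star_def, conj_ofReal]

theorem G3_two (hD : BCD D) {X : Fin N → ℂ} (hX : G.toLCtx.IntC X) {q : E} (hq : q ∈ D)
    (h0 : fld G.W X q = 0) {K : Fin N → ℂ} (hs : star K = K) (hK : G.br X K = 0) :
    nr D q (fld G.W K q) ≤ 2 := by
  obtain ⟨t, -, h1, h2⟩ := hX.exists_add_sub hs
  have h3 : fld G.W (I • (t : ℂ) • X) q = 0 := by
    rw [fld_smul, fld_smul, Pi.smul_apply, Pi.smul_apply, h0, smul_zero, smul_zero]
  have h4 := strip_comm hD (G.hol_fld (I • (t : ℂ) • X)) (G.complete K hs)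
    (fld_neg G.W K ▸ G.complete (-K) (by rw [star_neg, hs])) (z := q) (fun z hz => by
      rw [G.br_eq _ _ z hz, map_smul, map_smul, G.anti, hK, neg_zero, smul_zero, smul_zero,
        fld_zero, Pi.zero_apply]) fun ζ hζ => by
      have h5 := abs_le.1 ((abs_im_le_norm ζ).trans (mem_ball_zero_iff.1 hζ).le)
      have h6 := G.add_mem _ (G.smul_mem ((1 + ζ.im) / 2) (by linarith [h5.1]) _ h1) _
        (G.smul_mem ((1 - ζ.im) / 2) (by linarith [h5.2]) _ h2)
      have h7 := G.semiC_add hD (Y := (ζ.re : ℂ) • K)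
        (by rw [star_smul, hs, Complex.star_def, conj_ofReal]) h6
      have h8 : (ζ.re : ℂ) • K + I • ((((1 + ζ.im) / 2 : ℝ) : ℂ) • ((t : ℂ) • X + K) +
          (((1 - ζ.im) / 2 : ℝ) : ℂ) • ((t : ℂ) • X - K)) = I • (t : ℂ) • X + ζ • K := by
        conv_rhs => rw [← re_add_im ζ]
        push_cast
        module
      rw [h8, fld_add, fld_smul G.W ζ] at h7
      exact h7.2 q hq
  rwa [(hasSol_of_zero hD.isOpen (G.hol_fld _) hq h3).2] at h4

theorem G3_real (hD : BCD D) {X : Fin N → ℂ} (hX : G.toLCtx.IntC X) {q : E} (hq : q ∈ D)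
    (h0 : fld G.W X q = 0) {K : Fin N → ℂ} (hs : star K = K) (hK : G.br X K = 0) :
    fld G.W K q = 0 := by
  obtain ⟨C, hC, h1⟩ := exists_norm_le_nr hD
  have h2 : nr D q (fld G.W K q) ≤ 0 := by
    by_contra hn
    push Not at hn
    have h3 := G.G3_two hD hX hq h0 (K := ((3 / nr D q (fld G.W K q) : ℝ) : ℂ) • K)
      (by rw [star_smul, hs, Complex.star_def, conj_ofReal]) (by rw [map_smul, hK, smul_zero])
    rw [fld_smul, Pi.smul_apply, nr_smul hD hq, norm_real, Real.norm_of_nonneg (by positivity),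
      div_mul_cancel₀ _ hn.ne'] at h3
    linarith
  exact norm_le_zero_iff.1 ((h1 q hq _).trans (mul_nonpos_of_nonneg_of_nonpos hC.le h2))

theorem vanK (hD : BCD D) {X : Fin N → ℂ} (hX : G.toLCtx.IntC X) {q : E} (hq : q ∈ D)
    (h0 : fld G.W X q = 0) {K : Fin N → ℂ} (hK : G.br X K = 0) : fld G.W K q = 0 := by
  obtain ⟨A, B, hA, hB, -, -, h1, h2⟩ := exists_re_im K
  have h3 := G.star_br X K
  rw [hK, star_zero, G.real X hX.1, h2, map_sub, eq_comm, sub_eq_zero] at h3
  rw [h1, map_add, ← h3, ← two_smul ℂ, smul_eq_zero_iff_right two_ne_zero] at hK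
  rw [hK, map_smul, eq_comm, smul_eq_zero_iff_right I_ne_zero] at h3
  rw [h1, fld_add, fld_smul, Pi.add_apply, Pi.smul_apply, G.G3_real hD hX hq h0 hA hK,
    G.G3_real hD hX hq h0 hB h3, smul_zero, add_zero]

theorem vanP (hD : BCD D) {X : Fin N → ℂ} (hX : X ∈ G.C) {q : E} (hq : q ∈ D)
    (h0 : fld G.W X q = 0) {U : Fin N → ℂ} {k : ℝ} (hk : 0 < k) (hU : G.br X U = (I * k) • U) :
    fld G.W U q = 0 := by
  obtain ⟨C, hC, h1⟩ := exists_norm_le_nr hD
  have hS := ((G.mem_iff X).1 hX).2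
  have h2 := (hasSol_of_zero hD.isOpen hS.1 hq (by
    rw [fld_smul, Pi.smul_apply, h0, smul_zero])).2
  have h3 := fderiv_ex_eigen hD.isOpen hS.1 (G.hol_fld U) (c := -(k : ℂ)) (fun z hz => by
    rw [G.br_eq _ _ z hz, map_smul, smul_apply, hU, smul_smul, ← mul_assoc,
      I_mul_I, neg_one_mul, fld_smul, Pi.smul_apply]) (hS.2 q hq)
  have h4 := nr_comp hD hD.isOpen (hS.hol_ex hD.isOpen) hS.maps hq (fld G.W U q)
  rw [h3, h2, nr_smul hD hq, neg_neg, norm_exp_ofReal] at h4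
  have h5 : 1 < Real.exp k := Real.one_lt_exp_iff.2 hk
  have h6 : nr D q (fld G.W U q) ≤ 0 := by nlinarith
  exact norm_le_zero_iff.1 ((h1 q hq _).trans (mul_nonpos_of_nonneg_of_nonpos hC.le h6))

/-- No compact roots when the centraliser of `X` is the isotropy algebra of `p`. With
`g = exp (ad (t Y))` the adjoint of `h = ex (fld (-(t Y)))`, the fields `X`, `U` and `star U` vanish
at `h.symm p`, so `Y` vanishes there, `h.symm p = p`, and `Y` commutes with `X`. -/
theorem noSu2 (hD : BCD D) {X : Fin N → ℂ} (hX : G.toLCtx.IntC X) {p : E} (hp : p ∈ D)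
    (h0 : fld G.W X p = 0) (hk : ∀ Y, star Y = Y → fld G.W Y p = 0 → G.br X Y = 0) :
    G.toLCtx.NoSu2 X := by
  intro U k t hk0 hU h1 h2
  have hY : star (U + star U) = U + star U := by rw [star_add, star_star, add_comm]
  have hY' : star (-((t : ℂ) • (U + star U))) = -((t : ℂ) • (U + star U)) := by
    rw [star_neg, star_smul, hY, Complex.star_def, conj_ofReal]
  have hU' : G.br X (star U) = (I * k) • star U := by
    have := G.star_br X U
    rw [G.real X hX.1, hU, star_smul] at this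
    rw [← this]
    simp
  obtain ⟨h, hh, h3, -⟩ := G.exists_aut hD.isOpen hY'
  have ha := G.isAd_ex hD.isOpen hY' h3
  rw [neg_neg] at ha
  have hq := aut_maps_symm hh hp
  have h4 : fld G.W X (h.symm p) = 0 := (ha.zero_iff hD.isOpen hh hq).1 (by
    rw [h.apply_symm_apply]
    exact G.vanK hD hX hp h0 h1)
  have h5 : fld G.W U (h.symm p) = 0 := (ha.zero_iff hD.isOpen hh hq).1 (by
    rw [h.apply_symm_apply, h2]
    exact G.vanP hD hX.1 hp h0 hk0 hU')
  have h6 : fld G.W (U + star U) (h.symm p) = 0 := by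
    rw [fld_add, Pi.add_apply, h5, G.vanP hD hX.1 hq h4 hk0 hU', add_zero]
  have h7 := (hasSol_of_zero hD.isOpen (G.hol_fld (-((t : ℂ) • (U + star U)))) hq (by
    rw [fld_neg, fld_smul, Pi.neg_apply, Pi.smul_apply, h6, smul_zero, neg_zero])).2
  rw [← h3, h.apply_symm_apply] at h7
  rw [← h7] at h6
  have h8 := hk _ hY h6
  have h9 : (I * k : ℂ) ≠ 0 := mul_ne_zero I_ne_zero (ofReal_ne_zero.2 hk0.ne')
  rw [map_add, hU, hU', neg_smul, neg_add_eq_zero, smul_right_inj h9] at h8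
  rw [← h8, hU, neg_smul, neg_eq_iff_add_eq_zero, ← two_smul ℂ, smul_eq_zero_iff_right two_ne_zero,
    smul_eq_zero_iff_right h9] at hU'
  exact hU'

end GCtx

end Pool.Agent.P.MP_2ff09b_gt
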