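import Pool.Agent.P.MP_2ff09b_gt.G8
import Pool.Agent.P.MP_2ff09b_gt.G3
import Pool.Agent.P.MP_2ff09b_gt.E1

/-! CVX-G9. The rank of the fields is maximal at the base point.
Sketch. finrank_le: let φ = ex (fld (I • X)). By fderiv_ex, fderiv_ex_bijective and the invertibility
of exp, the range of fldL at φ w is the image of the range at w, so the ranks agree; likewise the
rank at γ p equals the rank at p (exists_ad). If the rank at z exceeds the rank r at p choose
V 0..V r with independent values at φ z and functionals l i dual to them; the function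
w ↦ det (l i (fld (V j) (φ w))) is holomorphic, bounded (bounded_on_image), zero at every γ p, and 1 at
z, against Liouv.eq_zero. indep: at a zero q of X the real element P + star P vanishes (vanP), is
elliptic (ell_of_zero), use Grading.pos. For general z, injectivity of a ↦ fld (∑ a j U j) w is open
in w, ex (i t X) z tends to ρ z, and fderiv_ex_eigen gives
d(ex (i t X)) (U j z) = exp (-k j t) U j (ex (i t X) z). -/

open Set MeasureTheory Complex Filter Topology Metric

noncomputable section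

namespace Pool.Agent.P.MP_2ff09b_gt

variable {E : Type*} [NormedAddCommGroup E] [NormedSpace ℂ E] [FiniteDimensional ℂ E] {D : Set E}

variable {N : ℕ} (G : GCtx D N)

namespace GCtx


omit [FiniteDimensional ℂ E] in
theorem G9_rank {z w : E} {T : E →L[ℂ] E} (hT : Function.Injective T)
    {θ : (Fin N → ℂ) →L[ℂ] (Fin N → ℂ)} (hθ : Function.Surjective θ)
    (h : ∀ U, T (fld G.W U z) = fld G.W (θ U) w) :
    Module.finrank ℂ (LinearMap.range (fldL G.W w : (Fin N → ℂ) →ₗ[ℂ] E)) =
      Module.finrank ℂ (LinearMap.range (fldL G.W z : (Fin N → ℂ) →ₗ[ℂ] E)) := by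
  symm
  rw [(Submodule.equivMapOfInjective (T : E →ₗ[ℂ] E) hT _).finrank_eq, ← LinearMap.range_comp,
    show (T : E →ₗ[ℂ] E) ∘ₗ (fldL G.W z : (Fin N → ℂ) →ₗ[ℂ] E) =
      (fldL G.W w : (Fin N → ℂ) →ₗ[ℂ] E) ∘ₗ (θ : (Fin N → ℂ) →ₗ[ℂ] (Fin N → ℂ)) from
      LinearMap.ext h, LinearMap.range_comp_of_range_eq_top _ (LinearMap.range_eq_top.2 hθ)]

theorem finrank_le (hD : BCD D) {Γ : Subgroup (Equiv.Perm E)} (hΓ : Γ ≤ autGroup D)
    (hL : Liouv D Γ) {p : E} (hp : p ∈ D) {z : E} (hz : z ∈ D) :
    Module.finrank ℂ (LinearMap.range (fldL G.W z : (Fin N → ℂ) →ₗ[ℂ] E)) ≤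
      Module.finrank ℂ (LinearMap.range (fldL G.W p : (Fin N → ℂ) →ₗ[ℂ] E)) := by
  obtain ⟨X, hX⟩ := G.toLCtx.exists_intC
  have hS := (G.mem_iff X).1 hX.1 |>.2
  obtain ⟨C, hC⟩ := G.bounded_on_image hD hX
  have h1 := fun w (hw : w ∈ D) => G.G9_rank
    (fderiv_ex_bijective hD.isOpen hS.1 (hS.2 w hw)).1
    (fun U => ⟨_, exp_comp_exp_neg _ U⟩)
    (G.fderiv_ex hD.isOpen (hS.2 w hw))
  have h2 : ∀ γ ∈ Γ, _ = _ := fun γ hγ =>
    let ⟨_, a, b⟩ := G.exists_ad hD (hΓ hγ)
    G.G9_rank (Function.LeftInverse.injective (aut_fderiv_symm_apply hD.isOpen (hΓ hγ) hp))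
      b.bij.2 fun U => a U p hp
  rw [← h1 z hz]
  by_contra hn
  obtain ⟨f, hf⟩ := exists_linearIndependent_of_le_finrank (Nat.succ_le_of_lt (not_le.1 hn))
  choose V hV using fun j => (f j).2
  obtain ⟨L, hL'⟩ := LinearMap.exists_leftInverse_of_injective _ (LinearMap.ker_eq_bot.2
    (hf.map' (Submodule.subtype _) (Submodule.ker_subtype _)).fintypeLinearCombination_injective)
  let L' := LinearMap.toContinuousLinearMap L
  let M := fun w => Matrix.of fun j => L' (fld G.W (V j) (ex D (fld G.W (I • X)) w))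
  have h3 : ∀ i j, DifferentiableOn ℂ (fun w => M w i j) D := fun i j =>
    differentiableOn_pi.1 (L'.differentiable.comp_differentiableOn
      ((G.hol_fld (V i)).comp (hS.hol_ex hD.isOpen) hS.maps)) j
  have h4 := hL.eq_zero hD hΓ (h := fun w => (M w).det) (by
      simp only [Matrix.det_apply']
      exact .fun_sum fun σ _ => .const_mul (fun x hx =>
        (HasFDerivWithinAt.finsetProd fun i _ =>
          (h3 (σ i) i x hx).hasFDerivWithinAt).differentiableWithinAt) _)
    (fun w hw => Matrix.det_le (abv := NormedField.toAbsoluteValue ℂ)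
      (x := ‖L'‖ * (|C| * ‖V‖)) fun i j => (norm_le_pi_norm _ j).trans (L'.le_opNorm_of_le
        ((hC w hw _).trans (mul_le_mul (le_abs_self _) (norm_le_pi_norm V i) (norm_nonneg _)
          (abs_nonneg _))))) hp
    (fun γ hγ => Matrix.det_eq_zero_of_not_linearIndependent_rows fun h => by
      have h5 := (LinearIndependent.of_comp (L ∘ₗ Submodule.subtype _) (v := fun j =>
        (⟨_, V j, rfl⟩ : LinearMap.range (fldL G.W (ex D (fld G.W (I • X)) (γ p)) :
          (Fin N → ℂ) →ₗ[ℂ] E))) h).fintype_card_le_finrank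
      rw [h1 _ (aut_maps (hΓ hγ) hp), h2 γ hγ, Fintype.card_fin] at h5
      exact Nat.not_succ_le_self _ h5) z hz
  have h6 : M z = 1 := by
    ext i j
    have h7 := LinearMap.congr_fun hL' (Pi.single i 1)
    rw [LinearMap.comp_apply, Fintype.linearCombination_apply_single, one_smul,
      Function.comp_apply, Submodule.subtype_apply, ← hV] at h7
    exact (congrFun h7 j).trans (by simp [Matrix.one_apply, Pi.single_apply, eq_comm])
  simp [h6] at h4

theorem indep_of_grading (hD : BCD D) {X : Fin N → ℂ} (hX : X ∈ G.C) {r : ℕ}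
    {U : Fin r → Fin N → ℂ} {k : Fin r → ℝ} {Z : Fin N → ℂ} (hg : G.toLCtx.Grading X U k Z)
    {ρ : E → E} (hρ : IsRho D (fld G.W X) ρ) {z : E} (hz : z ∈ D) (a : Fin r → ℂ)
    (h : fld G.W (∑ j, a j • U j) z = 0) : a = 0 := by
  let T : E → (Fin r → ℂ) →L[ℂ] E := fun w =>
    (fldL G.W w).comp (LinearMap.toContinuousLinearMap (Fintype.linearCombination ℂ U))
  have hT : ∀ w a, T w a = fld G.W (∑ j, a j • U j) w := fun _ _ => rfl
  have hq := hρ.maps hz
  have h1 : Function.Injective (T (ρ z)) := (injective_iff_map_eq_zero _).2 fun a ha => by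
    refine hg.pos a (G.ell_of_zero hD hq (by rw [star_add, star_star, add_comm]) ?_)
    rw [fld_add, Pi.add_apply, ← hT, ha, zero_add, star_sum, fld_sum]
    refine Finset.sum_eq_zero fun j _ => ?_
    rw [star_smul, fld_smul, Pi.smul_apply, G.vanP hD hX hq (hρ.zero z hz) (hg.k_pos j), smul_zero]
    have h2 := G.star_br X (U j)
    rw [G.real X hX, hg.wt, star_smul] at h2
    simpa using h2.symm
  have h2 : ContinuousOn T D := continuousOn_clm_apply.2 fun a => (G.hol_fld _).continuousOn
  obtain ⟨t, ht, h0⟩ := ((((h2.continuousAt (hD.isOpen.mem_nhds hq)).tendsto.comp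
    (hρ.lim.tendsto_at hz)).eventually (ContinuousLinearMap.isOpen_injective.mem_nhds h1)).and
      (eventually_ge_atTop 0)).exists
  have h3 := (G.semiC_smul hD hX (ζ := I * t) (by simpa using h0)).2 z hz
  rw [Function.comp_apply, ← fld_smul] at ht
  rw [← fld_smul] at h3
  have h4 := G.fderiv_ex hD.isOpen h3 (∑ j, a j • U j)
  have h5 : ∀ j, G.br (-((I * t) • X)) (U j) = (I * t * (I * k j)) • U j := fun j => by
    simp [hg.wt, smul_smul]
  simp only [h, map_zero, map_sum, map_smul, exp_apply_eigen (h5 _), smul_smul, ← hT] at h4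
  ext j
  simpa using congrFun ((injective_iff_map_eq_zero _).1 ht _ h4.symm) j

end GCtx

end Pool.Agent.P.MP_2ff09b_gt
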