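import Pool.Agent.P.MP_2ff09b_gt.L3

/-! CVX-L6. Derivations are inner; perturbation to a periodic element.
Sketch. inner: the map Z ↦ kil Z is a linear bijection onto the dual; let Z represent
V ↦ trace (δ ∘ ad V), linear in δ, hence the norm bound. δ' = δ - ad Z is a derivation with
trace (δ' ∘ ad V) = 0; ad (δ' W) = δ' ∘ ad W - ad W ∘ δ', so
kil (δ' W) W' = trace (δ' ∘ ad [W, W']) = 0 and δ' = 0. Reality: ad (star Z) = δ, Nondeg.eq_zero.
exists_periodic: let Λ, C come from Ell.exists_fun for ad X. Choose a ℚ-linear φ : ℝ → ℝ with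
rational values, |φ λ - λ| small on Λ (define it on Basis.ofVectorSpace ℚ ℝ by rational
approximations of the basis vectors). The operator δ acting by i φ(λ) on the eigenspace of i λ is a
derivation (check on eigenvectors, br_eigen, Ell.mem_span) commuting with star. δ - ad X is a small
derivation, = ad Z with Z real and small; X + Z is IntC (add_small); multiply by a common
denominator of the φ λ. -/

open Set MeasureTheory Complex Filter Topology Metric

noncomputable section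

namespace Pool.Agent.P.MP_2ff09b_gt

variable {N : ℕ} (L : LCtx N)

namespace LCtx


variable {L}

theorem L6_approx (Λ : Finset ℝ) {ε : ℝ} (hε : 0 < ε) :
    ∃ φ : ℝ →ₗ[ℚ] ℚ, ∀ x ∈ Λ, |(φ x : ℝ) - x| ≤ ε := by
  let b := Module.Basis.ofVectorSpace ℚ ℝ
  obtain ⟨M, hM⟩ :=
    (Λ.finite_toSet.image fun x => ∑ i ∈ (b.repr x).support, |(b.repr x i : ℝ)|).bddAbove
  have hM0 : 0 < max M 1 := lt_max_of_lt_right one_pos
  choose q hq using fun i => exists_rat_near (b i) (div_pos hε hM0)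
  refine ⟨b.constr ℚ q, fun x hx => ?_⟩
  have h1 : ((b.constr ℚ q x : ℚ) : ℝ) - x =
      ∑ i ∈ (b.repr x).support, (b.repr x i : ℝ) * (q i - b i) := by
    conv_lhs => rw [b.constr_apply]; right; rw [← b.linearCombination_repr x]
    simp only [Finsupp.linearCombination_apply, Finsupp.sum, smul_eq_mul, Rat.cast_sum,
      Rat.cast_mul, Rat.smul_def, mul_sub, Finset.sum_sub_distrib]
  rw [h1]
  calc _ ≤ ∑ i ∈ (b.repr x).support, |(b.repr x i : ℝ)| * (ε / max M 1) := by
        refine (Finset.abs_sum_le_sum_abs _ _).trans (Finset.sum_le_sum fun i _ => ?_)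
        rw [abs_mul, abs_sub_comm]
        exact mul_le_mul_of_nonneg_left (hq i).le (abs_nonneg _)
    _ ≤ max M 1 * (ε / max M 1) := by
        rw [← Finset.sum_mul]
        exact mul_le_mul_of_nonneg_right ((hM ⟨x, hx, rfl⟩).trans (le_max_left _ _))
          (div_pos hε hM0).le
    _ = ε := mul_div_cancel₀ _ hM0.ne'

theorem L6_ind {T : (Fin N → ℂ) →L[ℂ] (Fin N → ℂ)} (hT : Ell T) {Λ : Finset ℝ}
    (hΛ : ∀ (u : Fin N → ℂ) (lam : ℝ), u ≠ 0 → T u = (I * lam) • u → lam ∈ Λ)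
    {P : (Fin N → ℂ) → Prop} (h0 : P 0) (hadd : ∀ u v, P u → P v → P (u + v))
    (hsmul : ∀ (c : ℂ) u, P u → P (c • u))
    (h : ∀ (u : Fin N → ℂ) (lam : ℝ), lam ∈ Λ → T u = (I * lam) • u → P u) (v : Fin N → ℂ) :
    P v := by
  refine Submodule.span_induction (p := fun v _ => P v) ?_ h0 (fun u v _ _ => hadd u v)
    (fun c u _ => hsmul c u) (hT.mem_span (S := ⊤) (fun _ _ => trivial) (v := v) trivial)
  rintro u ⟨-, lam, hu⟩
  by_cases e : u = 0
  · exact e ▸ h0
  · exact h u lam (hΛ u lam e hu) hu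

theorem Nondeg.inner (h : L.Nondeg) : ∃ C : ℝ, ∀ δ : (Fin N → ℂ) →L[ℂ] (Fin N → ℂ),
    (∀ U V, δ (L.br U V) = L.br (δ U) V + L.br U (δ V)) →
      ∃ Z, L.br Z = δ ∧ ‖Z‖ ≤ C * ‖δ‖ ∧ ((∀ U, star (δ U) = δ (star U)) → star Z = Z) := by
  obtain ⟨C, -, hC⟩ := LinearMap.exists_antilipschitzWith L.br.toLinearMap
    (LinearMap.ker_eq_bot'.2 fun U (hU : L.br U = 0) => h.eq_zero hU)
  refine ⟨C, fun δ hδ => ?_⟩
  let a : (Fin N → ℂ) →ₗ[ℂ] Module.End ℂ (Fin N → ℂ) :=
    (ContinuousLinearMap.coeLM ℂ).comp L.br.toLinearMap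
  let tr := LinearMap.trace ℂ (Fin N → ℂ)
  let B : (Fin N → ℂ) →ₗ[ℂ] Module.Dual ℂ (Fin N → ℂ) :=
    ((LinearMap.mul ℂ (Module.End ℂ (Fin N → ℂ))).compl₁₂ a a).compr₂ tr
  have hB : Function.Surjective B :=
    (LinearMap.injective_iff_surjective_of_finrank_eq_finrank Subspace.dual_finrank_eq.symm).1
      (LinearMap.ker_eq_bot.1 (LinearMap.ker_eq_bot'.2 fun U hU =>
        h U fun V => LinearMap.congr_fun hU V))
  obtain ⟨Z, hZ⟩ := hB (tr ∘ₗ LinearMap.mul ℂ (Module.End ℂ (Fin N → ℂ)) δ ∘ₗ a)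
  have h1 : ∀ V, tr (a Z * a V) = tr ((δ : Module.End ℂ (Fin N → ℂ)) * a V) :=
    fun V => LinearMap.congr_fun hZ V
  have h2 : L.br Z = δ := by
    refine ContinuousLinearMap.ext fun W => sub_eq_zero.1 (h _ fun W' => ?_)
    have k1 : a (L.br Z W) = a Z * a W - a W * a Z :=
      LinearMap.ext fun U => eq_sub_of_add_eq (L.jacobi Z W U).symm
    have k2 : a (δ W) = (δ : Module.End ℂ (Fin N → ℂ)) * a W - a W * δ :=
      LinearMap.ext fun U => eq_sub_of_add_eq (hδ W U).symm
    have k3 : a (L.br W W') = a W * a W' - a W' * a W :=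
      LinearMap.ext fun U => eq_sub_of_add_eq (L.jacobi W W' U).symm
    have k4 := h1 (L.br W W')
    have k5 : ∀ A : Module.End ℂ (Fin N → ℂ), tr (a W * A * a W') = tr (A * (a W' * a W)) :=
      fun A => by rw [mul_assoc, LinearMap.trace_mul_comm, mul_assoc]
    change tr (a (L.br Z W - δ W) * a W') = 0
    rw [k3, mul_sub, mul_sub, map_sub, map_sub] at k4
    rw [map_sub, k1, k2, sub_mul, sub_mul, sub_mul, map_sub, map_sub, map_sub, k5, k5, mul_assoc,
      mul_assoc, k4, sub_self]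
  refine ⟨Z, h2, ?_, fun hs => sub_eq_zero.1 (h.eq_zero (ContinuousLinearMap.ext fun U => ?_))⟩
  · rw [← h2]
    exact ZeroHomClass.bound_of_antilipschitz L.br.toLinearMap hC Z
  · have k1 := L.star_br Z (star U)
    rw [star_star, h2, hs, star_star] at k1
    rw [map_sub, sub_apply, ← k1, h2, sub_self, zero_apply]

theorem Nondeg.exists_periodic (h : L.Nondeg) {X : Fin N → ℂ} (hX : L.IntC X) :
    ∃ X₁, L.IntC X₁ ∧ NormedSpace.exp (L.br (((2 * Real.pi : ℝ) : ℂ) • X₁)) = 1 ∧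
      ∀ K, L.br X K = 0 ↔ L.br X₁ K = 0 := by
  obtain ⟨C', hC'⟩ := h.inner
  obtain ⟨Λ, C, hΛ, hC⟩ := hX.ell.exists_fun
  obtain ⟨ε₀, hε₀, hs⟩ := hX.add_small
  obtain ⟨ε, hε, h1, h2⟩ : ∃ ε : ℝ, 0 < ε ∧ |C'| * (|C| * ε) ≤ ε₀ ∧ ∀ x ∈ Λ, x ≠ 0 → ε < |x| := by
    have k1 : ∀ᶠ ε : ℝ in 𝓝 0, |C'| * (|C| * ε) ≤ ε₀ :=
      (Continuous.tendsto' (by fun_prop) 0 0 (by simp)).eventually (ge_mem_nhds hε₀)
    have k2 : ∀ᶠ ε : ℝ in 𝓝 0, ∀ x ∈ Λ, x ≠ 0 → ε < |x| :=
      (eventually_all_finset Λ).2 fun x _ => by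
        by_cases e : x = 0
        · exact Eventually.of_forall fun _ k => absurd e k
        · filter_upwards [gt_mem_nhds (abs_pos.2 e)] with ε k _ using k
    exact ((eventually_mem_nhdsWithin (s := Ioi (0 : ℝ))).and
      ((k1.and k2).filter_mono nhdsWithin_le_nhds)).exists
  obtain ⟨φ, hφ⟩ := L6_approx Λ hε
  obtain ⟨S, hS, hSn⟩ := hC fun x => I * (((φ x : ℝ) - x : ℝ) : ℂ)
  have ind := @L6_ind N _ hX.ell Λ hΛ
  have hder : ∀ U V, S (L.br U V) = L.br (S U) V + L.br U (S V) := by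
    refine ind (by simp) (fun u v hu hv V => ?_) (fun c u hu V => ?_) fun u a _ hu => ?_
    · simp only [map_add, add_apply, hu V, hv V]
      abel
    · simp only [map_smul, smul_apply, hu V, smul_add]
    refine ind (by simp) (fun v w hv hw => ?_) (fun c v hv => ?_) fun v b _ hv => ?_
    · simp only [map_add, hv, hw]
      abel
    · simp only [map_smul, hv, smul_add]
    have k := L.br_eigen hu hv
    rw [← mul_add, ← Complex.ofReal_add] at k
    rw [hS _ _ k, hS _ _ hu, hS _ _ hv, map_smul, map_smul, smul_apply,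
      ← add_smul, map_add]
    congr 1
    push_cast
    ring
  have hstar : ∀ U, star (S U) = S (star U) := by
    refine ind (by simp) (fun u v hu hv => ?_) (fun c u hu => ?_) fun u a _ hu => ?_
    · simp only [map_add, star_add, hu, hv]
    · simp only [map_smul, star_smul, hu]
    have k : L.br X (star u) = (I * ((-a : ℝ) : ℂ)) • star u := by
      have := L.star_br X u
      rw [L.real X hX.1, hu, star_smul] at this
      rw [← this]
      simp
    rw [hS _ _ k, hS _ _ hu, star_smul, map_neg]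
    congr 1
    simp
    ring
  obtain ⟨Z, hZ, hZn, hZs⟩ := hC' S hder
  have hZ0 : ‖Z‖ ≤ ε₀ := by
    have k1 : ‖S‖ ≤ |C| * ε := (hSn ε hε.le fun x hx => by
      rw [norm_mul, Complex.norm_I, one_mul, Complex.norm_real]
      exact hφ x hx).trans (mul_le_mul_of_nonneg_right (le_abs_self C) hε.le)
    exact hZn.trans ((mul_le_mul (le_abs_self C') k1 (norm_nonneg _) (abs_nonneg _)).trans h1)
  have heig : ∀ (u : Fin N → ℂ) (a : ℝ), L.br X u = (I * a) • u →
      L.br (X + Z) u = (I * (φ a : ℂ)) • u := fun u a hu => by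
    rw [map_add, add_apply, hZ, hu, hS _ _ hu, ← add_smul]
    congr 1
    push_cast
    ring
  let n : ℕ := ∏ x ∈ Λ, (φ x).den
  have hn : (0 : ℝ) < n := Nat.cast_pos.2 (Finset.prod_pos fun x _ => (φ x).den_pos)
  refine ⟨((n : ℝ) : ℂ) • (X + Z), (hs Z (hZs hstar) hZ0).smul hn, ?_, fun K => ?_⟩
  · refine ContinuousLinearMap.ext (ind (by simp) (fun u v hu hv => ?_) (fun c u hu => ?_)
      fun u a ha hu => ?_)
    · rw [map_add, map_add, hu, hv]
    · rw [map_smul _ c, map_smul _ c, hu]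
    obtain ⟨m, hm⟩ : (φ a).den ∣ n := Finset.dvd_prod_of_mem _ ha
    have k1 : (φ a : ℂ) * (φ a).den = (φ a).num := by exact_mod_cast Rat.mul_den_eq_num (φ a)
    have k2 : L.br (((2 * Real.pi : ℝ) : ℂ) • ((n : ℝ) : ℂ) • (X + Z)) u =
        ((((φ a).num * m : ℤ) : ℂ) * (2 * Real.pi * I)) • u := by
      rw [map_smul, map_smul, smul_apply, smul_apply,
        heig u a hu, smul_smul, smul_smul, hm]
      congr 1
      push_cast
      rw [← k1]
      ring
    rw [exp_apply_eigen k2, Complex.exp_int_mul_two_pi_mul_I, one_smul,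
      one_apply_eq_self]
  · rw [map_smul, smul_apply, smul_eq_zero_iff_right (by exact_mod_cast hn.ne')]
    refine ⟨fun hK => by simpa using heig K 0 (by simpa using hK), fun hK => ?_⟩
    obtain ⟨S', hS', -⟩ := hC fun x => (x : ℂ) / (φ x : ℂ)
    have k : ∀ u, L.br X u = S' (L.br (X + Z) u) := by
      refine ind (by simp) (fun u v hu hv => ?_) (fun c u hu => ?_) fun u a ha hu => ?_
      · rw [map_add, map_add, map_add, hu, hv]
      · rw [map_smul, map_smul, map_smul, hu]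
      rw [heig u a hu, map_smul, hS' _ _ hu, hu, smul_smul]
      congr 1
      by_cases e : a = 0
      · simp [e]
      have k1 : (φ a : ℂ) ≠ 0 := by
        intro k2
        have k3 : φ a = 0 := by exact_mod_cast k2
        have k4 := hφ a ha
        rw [k3, Rat.cast_zero, zero_sub, abs_neg] at k4
        exact absurd (h2 a ha e) (not_lt.2 k4)
      field_simp
    rw [k, hK, map_zero]

end LCtx

end Pool.Agent.P.MP_2ff09b_gt
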