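import Pool.Agent.P.MP_2ff09b_gt.L9
import Pool.Agent.P.MP_2ff09b_gt.L6

/-! CVX-L10. The Hermitian three-grading.
Sketch. A spanning set of eigenvectors of pm X contains a basis U j (exists_linearIndependent),
with weights k j. decomp: Ell.mem_span for ad X; an eigenvector with positive λ is the star of an
element of pm X. br_star: [U i, star (U j)] has weight i (k j - k i); if k i > k j it lies in pm X and
its Killing product with its star vanishes by kil_br and the commutativity of the star of pm X, so it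
is zero by pm_pos; symmetrically if k i < k j. br_K: br_eigen. pos: for P in pm X,
kil (P + star P) (P + star P) = 2 kil P (star P) (kil_eigen, bilinearity), compare pm_pos and
kil_of_ell. Z: the operator acting by i sign(λ) on the eigenspace of i λ (Ell.exists_fun) is a
derivation (check on eigenvectors using the three bracket rules) commuting with star;
Nondeg.inner. -/

open Set MeasureTheory Complex Filter Topology Metric

noncomputable section

namespace Pool.Agent.P.MP_2ff09b_gt

variable {N : ℕ} (L : LCtx N)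

namespace LCtx


variable {L}

section Aux

variable {X u v : Fin N → ℂ} {a b : ℝ}

private theorem L10_star (hX : L.IntC X) (h : L.br X u = (I * a) • u) :
    L.br X (star u) = (I * (-a : ℝ)) • star u := by
  have h1 := congrArg star h
  rw [L.star_br, L.real X hX.1, star_smul] at h1
  rw [h1]
  congr 1
  simp

private theorem L10_add (hu : L.br X u = (I * a) • u) (hv : L.br X v = (I * b) • v) :
    L.br X (L.br u v) = (I * (a + b : ℝ)) • L.br u v := by
  rw [L.br_eigen hu hv, ofReal_add, mul_add]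

private theorem L10_pm (hu : L.br X u = (I * a) • u) (ha : a < 0) : u ∈ L.pm X :=
  Submodule.subset_span ⟨-a, neg_pos.2 ha, by simpa using hu⟩

private theorem L10_ind (hX : L.IntC X) {P : (Fin N → ℂ) → Prop}
    (h : ∀ (u : Fin N → ℂ) (a : ℝ), L.br X u = (I * a) • u → P u)
    (hadd : ∀ u v, P u → P v → P (u + v)) (hsm : ∀ (c : ℂ) u, P u → P (c • u)) (v : Fin N → ℂ) :
    P v := by
  refine Submodule.span_induction (p := fun v _ => P v) ?_ (h 0 0 (by simp))
    (fun u v _ _ => hadd u v) (fun c u _ => hsm c u)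
    (hX.ell.mem_span (S := ⊤) (fun _ _ => Submodule.mem_top) (v := v) Submodule.mem_top)
  rintro u ⟨-, a, ha⟩
  exact h u a ha

private theorem L10_pos (hX : L.IntC X)
    (hp : ∀ U ∈ L.pm X, U ≠ 0 → 0 < (L.kil U (star U)).re) (hu : L.br X u = (I * a) • u)
    (hv : L.br X v = (I * b) • v) (ha : 0 < a) (hb : 0 < b) : L.br u v = 0 := by
  have h := hX.pm_comm hp (L10_pm (L10_star hX hu) (neg_neg_of_pos ha))
    (L10_pm (L10_star hX hv) (neg_neg_of_pos hb))
  rwa [← L.star_br, star_eq_zero] at h

private theorem L10_mix (hX : L.IntC X)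
    (hp : ∀ U ∈ L.pm X, U ≠ 0 → 0 < (L.kil U (star U)).re) (hu : L.br X u = (I * a) • u)
    (hv : L.br X v = (I * b) • v) (hb : 0 < b) (hab : a + b < 0) : L.br u v = 0 := by
  by_contra h0
  have hw := L10_add hu hv
  have h1 := hp _ (L10_pm hw hab) h0
  have h2 := L.kil_br v u (star (L.br u v))
  obtain ⟨B, hB⟩ := L.exists_kil_bilin
  rw [L10_pos hX hp hv (L10_star hX hw) hb (neg_pos.2 hab), L.anti v u, hB, hB, map_zero, map_neg,
    ContinuousLinearMap.neg_apply, neg_inj, ← hB] at h2
  rw [h2] at h1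
  exact lt_irrefl _ h1

private theorem L10_mix' (hX : L.IntC X)
    (hp : ∀ U ∈ L.pm X, U ≠ 0 → 0 < (L.kil U (star U)).re) (hu : L.br X u = (I * a) • u)
    (hv : L.br X v = (I * b) • v) (ha : a < 0) (hb : 0 < b) (hab : a + b ≠ 0) : L.br u v = 0 := by
  rcases lt_or_gt_of_ne hab with h | h
  · exact L10_mix hX hp hu hv hb h
  · have h1 := L10_mix hX hp (L10_star hX hv) (L10_star hX hu) (neg_pos.2 ha) (by linarith)
    rwa [← L.star_br, star_eq_zero, L.anti, neg_eq_zero] at h1

private theorem L10_sign (hX : L.IntC X)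
    (hp : ∀ U ∈ L.pm X, U ≠ 0 → 0 < (L.kil U (star U)).re) (hu : L.br X u = (I * a) • u)
    (hv : L.br X v = (I * b) • v) :
    L.br u v = 0 ∨ Real.sign (a + b) = Real.sign a + Real.sign b := by
  rcases lt_trichotomy a 0 with ha | rfl | ha
  · rcases lt_trichotomy b 0 with hb | rfl | hb
    · exact .inl (hX.pm_comm hp (L10_pm hu ha) (L10_pm hv hb))
    · exact .inr (by simp)
    · by_cases hab : a + b = 0
      · exact .inr (by simp [hab, Real.sign_of_neg ha, Real.sign_of_pos hb])
      · exact .inl (L10_mix' hX hp hu hv ha hb hab)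
  · exact .inr (by simp)
  · rcases lt_trichotomy b 0 with hb | rfl | hb
    · by_cases hab : a + b = 0
      · exact .inr (by simp [hab, Real.sign_of_neg hb, Real.sign_of_pos ha])
      · refine .inl ?_
        rw [L.anti, L10_mix' hX hp hv hu hb ha (by rwa [add_comm]), neg_zero]
    · exact .inr (by simp)
    · exact .inl (L10_pos hX hp hu hv ha hb)

private theorem L10_kil (hu : u ∈ L.pm X) (hv : v ∈ L.pm X) : L.kil u v = 0 := by
  obtain ⟨B, hB⟩ := L.exists_kil_bilin
  rw [hB]
  induction hu using Submodule.span_induction with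
  | zero => simp
  | add _ _ _ _ h h' => simp [h, h']
  | smul _ _ _ h => simp [h]
  | mem u hu =>
    induction hv using Submodule.span_induction with
    | zero => simp
    | add _ _ _ _ h h' => simp [h, h']
    | smul _ _ _ h => simp [h]
    | mem v hv =>
      obtain ⟨k, hk, hu⟩ := hu
      obtain ⟨l, hl, hv⟩ := hv
      rw [← hB]
      refine L.kil_eigen hu hv fun h => ?_
      have := congrArg Complex.im h
      simp at this
      linarith

private theorem L10_Z (hX : L.IntC X) (hn : L.Nondeg)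
    (hp : ∀ U ∈ L.pm X, U ≠ 0 → 0 < (L.kil U (star U)).re) : ∃ Z, star Z = Z ∧
      ∀ (u : Fin N → ℂ) (a : ℝ), L.br X u = (I * a) • u → L.br Z u = (I * Real.sign a) • u := by
  obtain ⟨Λ, C, -, h⟩ := hX.ell.exists_fun
  obtain ⟨δ, hδ, -⟩ := h fun a => I * Real.sign a
  obtain ⟨C', h'⟩ := hn.inner
  obtain ⟨Z, h1, -, h2⟩ := h' δ fun U V => by
    refine L10_ind hX (P := fun U => δ (L.br U V) = L.br (δ U) V + L.br U (δ V)) ?_ ?_ ?_ U
    · intro u a hu
      refine L10_ind hX (P := fun V => δ (L.br u V) = L.br (δ u) V + L.br u (δ V)) ?_ ?_ ?_ V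
      · intro v b hv
        rw [hδ _ _ (L10_add hu hv), hδ _ _ hu, hδ _ _ hv, map_smul, map_smul,
          ContinuousLinearMap.smul_apply, ← add_smul]
        rcases L10_sign hX hp hu hv with h | h
        · rw [h, smul_zero, smul_zero]
        · rw [h, ofReal_add, mul_add]
      · intro v w hv hw
        simp only [map_add, hv, hw]
        abel
      · intro c v hv
        simp only [map_smul, hv, smul_add]
    · intro v w hv hw
      simp only [map_add, ContinuousLinearMap.add_apply, hv, hw]
      abel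
    · intro c v hv
      simp only [map_smul, ContinuousLinearMap.smul_apply, hv, smul_add]
  refine ⟨Z, h2 fun U => ?_, h1 ▸ hδ⟩
  refine L10_ind hX (P := fun U => star (δ U) = δ (star U)) ?_ ?_ ?_ U
  · intro u a hu
    rw [hδ _ _ hu, hδ _ _ (L10_star hX hu), star_smul, Real.sign_neg]
    congr 1
    simp
  · intro v w hv hw
    rw [map_add, star_add, star_add, map_add, hv, hw]
  · intro c v hv
    rw [map_smul, star_smul, star_smul, map_smul, hv]

end Aux

theorem IntC.exists_grading {X : Fin N → ℂ} (hX : L.IntC X) (hn : L.Nondeg) (hs : L.NoSu2 X) :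
    ∃ (r : ℕ) (U : Fin r → Fin N → ℂ) (k : Fin r → ℝ) (Z : Fin N → ℂ), L.Grading X U k Z := by
  have hp : ∀ U ∈ L.pm X, U ≠ 0 → 0 < (L.kil U (star U)).re := fun U hU => hX.pm_pos hn hs hU
  obtain ⟨s, hs1, hs2, hs3⟩ :=
    exists_linearIndependent ℂ {U | ∃ k : ℝ, 0 < k ∧ L.br X U = (-(I * k)) • U}
  have := hs3.finite
  obtain ⟨r, ⟨e⟩⟩ := Finite.exists_equiv_fin s
  let U : Fin r → Fin N → ℂ := fun j => e.symm j
  have hli : LinearIndependent ℂ U := hs3.comp e.symm e.symm.injective
  have hr : range U = s := by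
    rw [show U = Subtype.val ∘ e.symm from rfl, e.symm.surjective.range_comp, Subtype.range_coe]
  have hm : ∀ V, V ∈ L.pm X ↔ ∃ a : Fin r → ℂ, ∑ j, a j • U j = V := fun V => by
    rw [← Submodule.mem_span_range_iff_exists_fun, hr, hs2]
    rfl
  choose k hk hw using fun j => hs1 (e.symm j).2
  have hw' : ∀ j, L.br X (U j) = (I * (-k j : ℝ)) • U j := fun j => by simpa using hw j
  have hU : ∀ j, U j ∈ L.pm X := fun j => L10_pm (hw' j) (neg_neg_of_pos (hk j))
  obtain ⟨Z, hZ, hZ'⟩ := L10_Z hX hn hp
  refine ⟨r, U, k, Z, hk, hw, fun i j => hX.pm_comm hp (hU i) (hU j), fun V => ?_, fun i j => ?_,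
    fun K hK j => ?_, fun a ha => ?_, hZ, ?_, fun j => ?_⟩
  · refine L10_ind hX (P := fun V => ∃ (a b : Fin r → ℂ) (K : Fin N → ℂ), L.br X K = 0 ∧
      V = ∑ j, a j • U j + K + ∑ j, b j • star (U j)) ?_ ?_ ?_ V
    · intro u c hu
      rcases lt_trichotomy c 0 with hc | rfl | hc
      · obtain ⟨a, rfl⟩ := (hm _).1 (L10_pm hu hc)
        exact ⟨a, 0, 0, map_zero _, by simp⟩
      · exact ⟨0, 0, u, by simpa using hu, by simp⟩
      · obtain ⟨a, ha⟩ := (hm _).1 (L10_pm (L10_star hX hu) (neg_neg_of_pos hc))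
        refine ⟨0, star a, 0, map_zero _, ?_⟩
        rw [← star_star u, ← ha, star_sum]
        simp
    · rintro _ _ ⟨a, b, K, hK, rfl⟩ ⟨a', b', K', hK', rfl⟩
      refine ⟨a + a', b + b', K + K', by rw [map_add, hK, hK', add_zero], ?_⟩
      simp only [Pi.add_apply, add_smul, Finset.sum_add_distrib]
      abel
    · rintro c _ ⟨a, b, K, hK, rfl⟩
      refine ⟨c • a, c • b, c • K, by rw [map_smul, hK, smul_zero], ?_⟩
      simp only [Pi.smul_apply, smul_eq_mul, mul_smul, smul_add, Finset.smul_sum]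
  · have h1 := L10_star hX (hw' j)
    by_cases h : -k i + - -k j = 0
    · rw [L10_add (hw' i) h1, h]
      simp
    · rw [L10_mix' hX hp (hw' i) h1 (neg_neg_of_pos (hk i)) (by linarith [hk j]) h, map_zero]
  · have h1 : L.br X K = (I * (0 : ℝ)) • K := by simpa using hK
    obtain ⟨a, ha⟩ := (hm _).1 (L10_pm (L10_add (hw' j) h1) (by linarith [hk j]))
    exact ⟨a, ha.symm⟩
  · have hP := (hm _).2 ⟨a, rfl⟩
    refine funext (Fintype.linearIndependent_iff.1 hli a ?_)
    generalize ∑ j, a j • U j = P at ha hP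
    by_contra h0
    have h1 := hp P hP h0
    obtain ⟨c, hc, h2, -⟩ := kil_of_ell ha
    have h3 := L10_kil hP hP
    have h4 := L.kil_star P P
    have h5 := L.kil_comm (star P) P
    obtain ⟨B, hB⟩ := L.exists_kil_bilin
    rw [h3, map_zero] at h4
    simp only [hB, map_add, ContinuousLinearMap.add_apply] at h1 h2 h3 h4 h5
    rw [h3, h4, h5] at h2
    have h6 := congrArg Complex.re h2
    simp only [add_re, zero_re, neg_re, ofReal_re] at h6
    linarith
  · rw [L.anti, hZ' X 0 (by simp [L.br_self])]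
    simp
  · rw [hZ' _ _ (hw' j), Real.sign_of_neg (neg_neg_of_pos (hk j))]
    simp

end LCtx

end Pool.Agent.P.MP_2ff09b_gt
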