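import Pool.Agent.P.MP_2ff09b_gt.L3

/-! CVX-L7. An interior element of the cone centralising a bounded subalgebra.
Sketch. The real elements of q are elliptic (hb), so Q Y = -re (kil Y Y) is a positive definite
quadratic form on the real subspace q_R (kil_of_ell, Nondeg.eq_zero). Let ε be as in IntC X and
P = {W in q_R | ∀ g in inn q, ∀ u real, ‖u‖ <= δ → W + g u ∈ C} with δ = ε / (C + 1). P is closed,
convex, contains X, and is stable under exp (ad Y) for Y in q_R (write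
exp(ad Y) W + g u = exp(ad Y) (W + exp(ad (-Y)) g u); exp_apply_mem for q). Q has a unique minimum
point X0 on P (compactness of sublevel sets, parallelogram identity); Q is invariant (IsAut.kil),
so exp (t ad Y) X0 = X0 and [Y, X0] = 0. X0 is IntC (take g = 1). -/

open Set MeasureTheory Complex Filter Topology Metric

noncomputable section

namespace Pool.Agent.P.MP_2ff09b_gt

variable {N : ℕ} (L : LCtx N)

namespace LCtx


variable {L}

theorem Nondeg.exists_central (h : L.Nondeg) {q : Submodule ℂ (Fin N → ℂ)}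
    (hq : ∀ U ∈ q, ∀ V ∈ q, L.br U V ∈ q) (hb : ∃ C : ℝ, ∀ g ∈ L.inn q, ‖g‖ ≤ C)
    {X : Fin N → ℂ} (hX : L.IntC X) (hXq : X ∈ q) :
    ∃ X₀ ∈ q, L.IntC X₀ ∧ ∀ Y ∈ q, star Y = Y → L.br Y X₀ = 0 := by
  obtain ⟨C, hC⟩ := hb
  obtain ⟨hXC, ε, hε, hX'⟩ := hX
  obtain ⟨B, hB⟩ := L.exists_kil_bilin
  have hC0 : 0 ≤ C := (norm_nonneg _).trans (hC 1 (one_mem _))
  have hgen : ∀ Y ∈ q, star Y = Y → NormedSpace.exp (L.br Y) ∈ L.inn q := fun Y h1 h2 =>
    Submonoid.subset_closure ⟨Y, h1, h2, rfl⟩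
  have hst : ∀ (t : ℝ) (Y : Fin N → ℂ), star Y = Y → star ((t : ℂ) • Y) = (t : ℂ) • Y :=
    fun t Y hY => by rw [star_smul, hY, Complex.star_def, Complex.conj_ofReal]
  have hell : ∀ Y ∈ q, star Y = Y → Ell (L.br Y) := fun Y h1 h2 =>
    ⟨C, fun t => by
      rw [← map_smul]
      exact hC _ (hgen _ (q.smul_mem _ h1) (hst t Y h2))⟩
  have hδ : 0 < ε / (C + 1) := by positivity
  set P : Set (Fin N → ℂ) := {W | W ∈ q ∧ star W = W ∧
    (∀ g ∈ L.inn q, ∀ u, star u = u → ‖u‖ ≤ ε / (C + 1) → W + g u ∈ L.C) ∧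
    ∀ g ∈ L.inn q, ‖g W‖ ≤ C * ‖X‖} with hP
  have hXP : X ∈ P := by
    refine ⟨hXq, L.real X hXC, fun g hg u hu hu' => hX' _ ?_ ?_, fun g hg => ?_⟩
    · rw [(isAut_of_mem_inn hg).star_map, hu]
    · refine (g.le_of_opNorm_le_of_le (hC g hg) hu').trans ?_
      rw [mul_div_assoc', div_le_iff₀ (by positivity)]
      nlinarith
    · exact g.le_of_opNorm_le (hC g hg) X
  have hcl : IsClosed P := by
    simp only [hP, ofPred_and, ofPred_forall]
    refine q.closed_of_finiteDimensional.inter ((isClosed_eq continuous_star continuous_id).inter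
      (IsClosed.inter ?_ ?_))
    · exact isClosed_iInter fun g => isClosed_iInter fun _ => isClosed_iInter fun u =>
        isClosed_iInter fun _ => isClosed_iInter fun _ =>
          L.closed.preimage (continuous_id.add continuous_const)
    · exact isClosed_iInter fun g => isClosed_iInter fun _ =>
        isClosed_le g.continuous.norm continuous_const
  have hcp : IsCompact P := (isCompact_closedBall 0 (C * ‖X‖)).of_isClosed_subset hcl
    fun W hW => by simpa using hW.2.2.2 1 (one_mem _)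
  have hinv : ∀ Y ∈ q, star Y = Y → ∀ W ∈ P, NormedSpace.exp (L.br Y) W ∈ P := by
    rintro Y h1 h2 W ⟨w1, w2, w3, w4⟩
    refine ⟨exp_apply_mem (fun v hv => hq Y h1 v hv) w1, by rw [L.star_exp h2, w2],
      fun g hg u hu hu' => ?_, fun g hg => w4 _ (mul_mem hg (hgen Y h1 h2))⟩
    have a1 := L.inv Y h2 _ (w3 _ (mul_mem (hgen (-Y) (q.neg_mem h1) (by rw [star_neg, h2])) hg)
      u hu hu')
    rwa [map_add, mul_apply_eq_comp, map_neg, exp_comp_exp_neg] at a1
  have hmid : ∀ W ∈ P, ∀ W' ∈ P, ((1 / 2 : ℝ) : ℂ) • (W + W') ∈ P := by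
    rintro W ⟨w1, w2, w3, w4⟩ W' ⟨v1, v2, v3, v4⟩
    refine ⟨q.smul_mem _ (q.add_mem w1 v1), hst _ _ (by rw [star_add, w2, v2]),
      fun g hg u hu hu' => ?_, fun g hg => ?_⟩
    · have a1 := L.smul_mem (1 / 2) (by norm_num) _
        (L.add_mem _ (w3 g hg u hu hu') _ (v3 g hg u hu hu'))
      convert a1 using 1
      push_cast
      module
    · rw [map_smul, map_add, norm_smul, Complex.norm_real, Real.norm_of_nonneg (by norm_num)]
      have := norm_add_le (g W) (g W')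
      linarith [w4 g hg, v4 g hg]
  have hQ : Continuous fun W : Fin N → ℂ => -(B W W).re := by fun_prop
  obtain ⟨X₀, hX₀, hmin⟩ := hcp.exists_isMinOn ⟨X, hXP⟩ hQ.continuousOn
  refine ⟨X₀, hX₀.1, ⟨?_, ε / (C + 1), hδ, fun u hu hu' => hX₀.2.2.1 1 (one_mem _) u hu hu'⟩,
    fun Y h1 h2 => ?_⟩
  · simpa using hX₀.2.2.1 1 (one_mem _) 0 (star_zero _) (by simpa using hδ.le)
  have hfix : ∀ t : ℝ, NormedSpace.exp ((t : ℂ) • L.br Y) X₀ = X₀ := by
    intro t
    rw [← map_smul]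
    have a1 := hinv _ (q.smul_mem (t : ℂ) h1) (hst t Y h2) X₀ hX₀
    have a2 := (L.isAut_exp (hst t Y h2)).kil X₀ X₀
    generalize NormedSpace.exp (L.br ((t : ℂ) • Y)) X₀ = X₁ at a1 a2
    have a3 : -(B X₀ X₀).re ≤ _ := hmin (hmid _ a1 _ hX₀)
    obtain ⟨c, c0, c1, c2⟩ := kil_of_ell (hell (X₁ - X₀) (q.sub_mem a1.1 hX₀.1)
      (by rw [star_sub, a1.2.1, hX₀.2.1]))
    refine sub_eq_zero.1 (h.eq_zero (c2 (le_antisymm ?_ c0)))
    rw [hB] at c1
    rw [hB, hB] at a2
    have a4 : B (((1 / 2 : ℝ) : ℂ) • (X₁ + X₀)) (((1 / 2 : ℝ) : ℂ) • (X₁ + X₀)) =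
        B X₀ X₀ + ((c / 4 : ℝ) : ℂ) := by
      simp only [map_smul, map_add, map_sub, smul_apply,
        add_apply, sub_apply, smul_eq_mul] at c1 ⊢
      push_cast
      linear_combination (1 / 2 : ℂ) * a2 - (1 / 4 : ℂ) * c1
    simp only [a4, Complex.add_re, Complex.ofReal_re] at a3
    linarith
  have d1 := hasDerivAt_exp_apply (L.br Y) X₀ 0
  simp only [hfix] at d1
  exact d1.unique (hasDerivAt_const _ _)

end LCtx

end Pool.Agent.P.MP_2ff09b_gt
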