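import Pool.Agent.P.MP_2ff09b_gt.G0b
import Pool.Agent.P.MP_2ff09b_gt.G2
import Pool.Agent.P.MP_2ff09b_gt.G5
import Pool.Agent.P.MP_2ff09b_gt.G6
import Pool.Agent.P.MP_2ff09b_gt.G9
import Pool.Agent.P.MP_2ff09b_gt.L7
import Pool.Agent.P.MP_2ff09b_gt.L10

/-! CVX-G10. The structure theory assembled.
Sketch. G from exists_gctx; noCenterCone, nondeg. X' from exists_periodic, ex_eq_self gives the
period, exists_isRho gives a zero p = ρ' o of X'. With q the kernel of fldL at p, exists_central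
(br_mem_ker, bounded_inn) gives X0; X1 from exists_periodic for X0. X1 commutes with X0, so it
vanishes at p (vanK); real elements vanishing at p commute with X0, hence with X1. noSu2,
exists_grading, exists_isRho, vanK, vanP, indep_of_grading. span: at p the range of fldL is spanned
by the r vectors U j p (decomp, vanK, vanP), so the rank at z is at most r (finrank_le), and the r
independent vectors U j z span it. -/

open Set MeasureTheory Complex Filter Topology Metric

noncomputable section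

namespace Pool.Agent.P.MP_2ff09b_gt

variable {E : Type*} [NormedAddCommGroup E] [NormedSpace ℂ E] [FiniteDimensional ℂ E] {D : Set E}


theorem exists_hctx (hD : BCD D) {Γ : Subgroup (Equiv.Perm E)} (hΓ : Γ ≤ autGroup D)
    (hL : Liouv D Γ) (hA : NoAb D Γ) : ∃ N r : ℕ, Nonempty (HCtx D N r) := by
  obtain ⟨N, ⟨G⟩⟩ := exists_gctx hD
  have hc := G.noCenterCone hD hΓ hA
  have hn := G.nondeg hD hΓ hL hc
  have rho : ∀ X, G.toLCtx.IntC X → NormedSpace.exp (G.br (((2 * Real.pi : ℝ) : ℂ) • X)) = 1 →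
      (∀ z ∈ D, ex D (((2 * Real.pi : ℝ) : ℂ) • fld G.W X) z = z) ∧
        ∃ ρ, IsRho D (fld G.W X) ρ := fun X hX h1 => by
    have k1 := G.real X hX.1
    have k2 : ∀ z ∈ D, ex D (((2 * Real.pi : ℝ) : ℂ) • fld G.W X) z = z := fun z hz => by
      rw [← fld_smul]
      exact G.ex_eq_self hD hΓ hL hc (by rw [star_smul, k1]; simp) h1 hz
    refine ⟨k2, exists_isRho hD (G.complete X k1) ?_ ?_ k2⟩
    · rw [← fld_neg]
      exact G.complete _ (by rw [star_neg, k1])
    · rw [← fld_smul]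
      exact ((G.mem_iff X).1 hX.1).2
  obtain ⟨X'', hX''⟩ := G.toLCtx.exists_intC
  obtain ⟨X', hX', h1, -⟩ := hn.exists_periodic hX''
  obtain ⟨-, ρ', hρ'⟩ := rho X' hX' h1
  obtain ⟨o, ho⟩ := hD.nonempty
  have hp := hρ'.maps ho
  have h2 := hρ'.zero o ho
  generalize ρ' o = p at hp h2
  obtain ⟨X₀, h3, hX₀, h4⟩ := hn.exists_central
    (q := LinearMap.ker (fldL G.W p : (Fin N → ℂ) →ₗ[ℂ] E))
    (fun U hU V hV => G.br_mem_ker hp hU hV) (G.bounded_inn hD hp) hX' h2
  obtain ⟨X, hX, h5, h6⟩ := hn.exists_periodic hX₀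
  have h7 : fld G.W X p = 0 := G.vanK hD hX₀ hp h3 (by
    rw [G.anti, (h6 X₀).1 (G.toLCtx.br_self X₀), neg_zero])
  obtain ⟨r, U, k, Z, hg⟩ := hX.exists_grading hn (G.noSu2 hD hX hp h7 fun Y hY h0 =>
    (h6 Y).1 (by rw [G.anti, h4 Y h0 hY, neg_zero]))
  obtain ⟨h8, ρ, hρ⟩ := rho X hX h5
  have vP : ∀ q ∈ D, fld G.W X q = 0 → ∀ j, fld G.W (star (U j)) q = 0 := fun q hq h0 j =>
    G.vanP hD hX.1 hq h0 (hg.k_pos j) (by
      have := G.star_br X (U j)
      rw [G.real X hX.1, hg.wt, star_smul] at this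
      rw [← this]
      simp)
  have ind := fun z (hz : z ∈ D) => G.indep_of_grading hD hX.1 hg hρ hz
  refine ⟨N, r, ⟨{ G with
    X := X, p := p, U := U, k := k, Z := Z, ρ := ρ, X_int := hX, p_mem := hp, X_p := h7
    per := h8, grading := hg, rho := hρ, vanK := fun q hq h0 K hK => G.vanK hD hX hq h0 hK
    vanP := vP, indep := ind, span := fun z hz V => ?_ }⟩⟩
  let T : E → (Fin r → ℂ) →ₗ[ℂ] E := fun w =>
    (fldL G.W w : (Fin N → ℂ) →ₗ[ℂ] E) ∘ₗ Fintype.linearCombination ℂ U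
  have k1 : LinearMap.range (fldL G.W p : (Fin N → ℂ) →ₗ[ℂ] E) ≤ LinearMap.range (T p) := by
    rintro _ ⟨V, rfl⟩
    obtain ⟨a, b, K, hK, rfl⟩ := hg.decomp V
    refine ⟨a, ?_⟩
    have e1 : fldL G.W p K = 0 := G.vanK hD hX hp h7 hK
    have e2 : ∀ j, fldL G.W p (star (U j)) = 0 := vP p hp h7
    change fldL G.W p (∑ j, a j • U j) = fldL G.W p _
    rw [map_add, map_add, e1, add_zero, map_sum _ fun j => b j • star (U j)]
    simp only [map_smul, e2, smul_zero, Finset.sum_const_zero, add_zero]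
  have k2 : Function.Injective (T z) :=
    LinearMap.ker_eq_bot.1 (LinearMap.ker_eq_bot'.2 fun a ha => ind z hz a ha)
  have k3 : LinearMap.range (T z) = LinearMap.range (fldL G.W z : (Fin N → ℂ) →ₗ[ℂ] E) := by
    refine Submodule.eq_of_le_of_finrank_le (LinearMap.range_comp_le_range _ _) ?_
    rw [LinearMap.finrank_range_of_inj k2]
    exact (G.finrank_le hD hΓ hL hp hz).trans
      ((Submodule.finrank_mono k1).trans (LinearMap.finrank_range_le _))
  obtain ⟨a, ha⟩ : fld G.W V z ∈ LinearMap.range (T z) := k3 ▸ ⟨V, rfl⟩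
  exact ⟨a, ha.symm⟩

end Pool.Agent.P.MP_2ff09b_gt
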