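import Pool.Agent.P.MP_2ff09b_gt.G1

/-! CVX-G8. All fields are bounded on the image of the time-one map of `i X`.
Sketch. Let ε be as in IntC X and φ = ex (fld (I • X)). (1) For real u of norm ε the disc
ζ ↦ ex (fld (I • X) + ζ • fld u) z is holomorphic with values in D (semiC_add, disc_hol), so Schwarz
(norm_sub_le_of_bound) gives ‖ex (fld (I • V)) z - φ z‖ <= C ‖V - X‖ for real V near X, uniformly in
z. (2) For real Y and h s = ex (s fld Y), IsAd.ex_conj gives
h s (φ (h (-s) z)) = ex (fld (I • exp (ad (-s Y)) X)) z; differentiate at s = 0: the derivative is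
fld Y (φ z) - dφ (fld Y z) = fld (Y - exp (ad (-(I • X))) Y) (φ z) (fderiv_ex), of norm at most
C ‖Y‖. (3) For real Y commuting with X, strip_comm and exists_norm_le_nr bound fld Y (φ z).
(4) By Ell.exists_fun for ad X every U is P U + (1 - exp (ad (-(I • X)))) (S U) with P the projection
on the kernel (exp (ad (-(I • X))) acts by exp λ on the eigenspace of i λ); use exists_re_im. -/

open Set MeasureTheory Complex Filter Topology Metric

noncomputable section

namespace Pool.Agent.P.MP_2ff09b_gt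

variable {E : Type*} [NormedAddCommGroup E] [NormedSpace ℂ E] [FiniteDimensional ℂ E] {D : Set E}

variable {N : ℕ} (G : GCtx D N)

namespace GCtx


theorem G8_diff (hD : IsOpen D) {V : Fin N → ℂ} {z : E} (h : HasSol D (fld G.W V) z) :
    DifferentiableAt ℂ (fun U => ex D (fld G.W U) z) V := by
  have h1 := (master_fld hD G.hol h 1).2.differentiableAt one_ne_zero
  exact DifferentiableAt.comp (f := fun U => (U, z)) V h1
    (differentiableAt_id.prodMk (differentiableAt_const z))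

theorem G8_bound (hD : BCD D) {X : Fin N → ℂ} (hX : G.toLCtx.IntC X) :
    ∃ C : ℝ, 0 ≤ C ∧ ∀ z ∈ D, ∀ u, star u = u →
      ‖fderiv ℂ (fun U => ex D (fld G.W U) z) (I • X) u‖ ≤ C * ‖u‖ := by
  obtain ⟨hXC, ε, hε, hX⟩ := hX
  obtain ⟨M, hM0, hM⟩ := hD.bounded.exists_pos_norm_le
  refine ⟨2 * M / ε, by positivity, fun z hz u hu => ?_⟩
  rcases eq_or_ne u 0 with rfl | h0
  · simp
  have hn : 0 < ‖u‖ := norm_pos_iff.2 h0
  have hr : 0 < ε / ‖u‖ := by positivity
  have hs : ∀ ζ ∈ ball (0 : ℂ) (ε / ‖u‖), HasSol D (fld G.W (I • X + ζ • u)) z := by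
    intro ζ hζ
    have e : I • X + ζ • u = (ζ.re : ℂ) • u + I • (X + (ζ.im : ℂ) • u) := by
      conv_lhs => rw [← re_add_im ζ]
      module
    rw [e]
    refine (G.semiC_add hD (LCtx.L3_star_smul hu _) (hX _ (LCtx.L3_star_smul hu _) ?_)).2 z hz
    rw [norm_smul, norm_real, Real.norm_eq_abs, ← le_div_iff₀ hn]
    exact (abs_im_le_norm ζ).trans (mem_ball_zero_iff.1 hζ).le
  have ha : ∀ ζ : ℂ, HasDerivAt (fun ξ : ℂ => I • X + ξ • u) u ζ := fun ζ => by
    simpa using ((hasDerivAt_id ζ).smul_const u).const_add (I • X)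
  have hf : DifferentiableOn ℂ (fun ζ : ℂ => ex D (fld G.W (I • X + ζ • u)) z)
      (ball 0 (ε / ‖u‖)) := fun ζ hζ => by
    have h1 := (G.G8_diff hD.isOpen (hs ζ hζ)).comp ζ (ha ζ).differentiableAt
    exact h1.differentiableWithinAt
  have h1 := norm_fderiv_le_of_bound hr hf fun ζ hζ => hM _ (hs ζ hζ).ex_mem
  have h2 : HasDerivAt (fun ζ : ℂ => ex D (fld G.W (I • X + ζ • u)) z)
      (fderiv ℂ (fun U => ex D (fld G.W U) z) (I • X) u) 0 :=
    (G.G8_diff hD.isOpen (((G.mem_iff X).1 hXC).2.2 z hz)).hasFDerivAt.comp_hasDerivAt_of_eq 0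
      (ha 0) (by simp)
  rw [← norm_deriv_eq_norm_fderiv, h2.deriv] at h1
  refine h1.trans (le_of_eq ?_)
  field_simp

theorem G8_comm (hD : BCD D) {X Y : Fin N → ℂ} (hX : X ∈ G.C) (hY : star Y = Y)
    (hc : G.br X Y = 0) {z : E} (hz : z ∈ D) :
    fderiv ℂ (fun U => ex D (fld G.W U) z) (I • X) Y =
      fld G.W Y (ex D (fld G.W (I • X)) z) := by
  have hs := ((G.mem_iff X).1 hX).2.2 z hz
  have ha : HasDerivAt (fun ξ : ℂ => ξ • Y) Y ((0 : ℝ) : ℂ) := by
    simpa using (hasDerivAt_id ((0 : ℝ) : ℂ)).smul_const Y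
  have h1 := F4_real ((G.G8_diff hD.isOpen hs).hasFDerivAt.comp_hasDerivAt_of_eq _
    (ha.add_const (I • X)) (by simp))
  have h0 := (hasFDerivAt_ex_fld_zero hD.isOpen G.hol hs.ex_mem).hasFDerivAt
  have h2 := F4_real (h0.comp_hasDerivAt_of_eq _
    (ha.prodMk (hasDerivAt_const _ (ex D (fld G.W (I • X)) z))) (by simp))
  have h3 := h1.unique (h2.congr_of_eventuallyEq (Eventually.of_forall fun s => ?_))
  · simpa using h3
  · have h4 := (ex_add_of_comm hD.isOpen (G.complete _ (LCtx.L3_star_smul hY s))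
      (G.hol_fld (I • X)) (fun w hw => ?_) hs).2
    · simpa only [Function.comp_apply, fld_add] using h4
    · rw [G.br_eq _ _ w hw, map_smul, map_smul, smul_apply, G.anti, hc]
      simp [fld_zero]

theorem G8_conj (hD : BCD D) {X Y : Fin N → ℂ} (hX : X ∈ G.C) (hY : star Y = Y)
    {z : E} (hz : z ∈ D) :
    fderiv ℂ (fun U => ex D (fld G.W U) z) (I • X) (G.br (I • X) Y) =
      fld G.W (Y - NormedSpace.exp (G.br (-(I • X))) Y) (ex D (fld G.W (I • X)) z) := by
  have hS := ((G.mem_iff X).1 hX).2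
  have hs := hS.2 z hz
  have ha : HasDerivAt (fun ξ : ℂ => ξ • Y) Y ((0 : ℝ) : ℂ) := by
    simpa using (hasDerivAt_id ((0 : ℝ) : ℂ)).smul_const Y
  have h1 := ((G.G8_diff hD.isOpen hs).hasFDerivAt.restrictScalars ℝ).comp_hasDerivAt_of_eq _
    (hasDerivAt_exp_apply (-G.br Y) (I • X) 0) (by simp)
  have h2 := (hasFDerivAt_ex_fld_zero hD.isOpen G.hol hz).hasFDerivAt.comp_hasDerivAt_of_eq _
    (ha.neg.prodMk (hasDerivAt_const _ z)) (by simp)
  have h3 := (hs.differentiableAt hD.isOpen hS.1).hasFDerivAt.comp_hasDerivAt_of_eq _ h2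
    (by simp [fld_zero, ex_zero hD.isOpen])
  have h0 := (hasFDerivAt_ex_fld_zero hD.isOpen G.hol hs.ex_mem).hasFDerivAt
  have h4 := F4_real (h0.comp_hasDerivAt_of_eq _ (ha.prodMk h3)
    (by simp [fld_zero, ex_zero hD.isOpen]))
  have h5 := h1.unique (h4.congr_of_eventuallyEq (Eventually.of_forall fun s => ?_))
  · rw [G.anti, fld_sub, Pi.sub_apply, ← G.fderiv_ex hD.isOpen hs]
    simpa [fld_neg, sub_eq_add_neg] using h5
  · obtain ⟨h, hh, e1, e2⟩ := G.exists_aut hD.isOpen (LCtx.L3_star_smul hY s)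
    have h6 := (IsAd.ex_conj hD.isOpen hh (G.isAd_ex hD.isOpen (LCtx.L3_star_smul hY s) e1)
      (hS.2 _ (aut_maps_symm hh hz))).2
    rw [Equiv.apply_symm_apply, e1, e2, map_neg, G.br.map_smul (s : ℂ) Y,
      ← smul_neg (s : ℂ) (G.br Y)] at h6
    exact h6

omit [FiniteDimensional ℂ E] in
theorem G8_lin {X u A B : Fin N → ℂ} {z : E} {L : (Fin N → ℂ) →L[ℂ] E}
    {P Q : (Fin N → ℂ) →L[ℂ] (Fin N → ℂ)} (h : u = A + I • B)
    (hA : L (P A) = fld G.W (Q A) (ex D (fld G.W (I • X)) z))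
    (hB : L (P B) = fld G.W (Q B) (ex D (fld G.W (I • X)) z)) :
    L (P u) = fld G.W (Q u) (ex D (fld G.W (I • X)) z) := by
  simp only [h, map_add, map_smul, hA, hB, fld_add, fld_smul, Pi.add_apply, Pi.smul_apply]

theorem G8_eigen (hD : BCD D) {X u : Fin N → ℂ} (hX : X ∈ G.C) {lam : ℝ}
    (hu : G.br X u = (I * lam) • u) {z : E} (hz : z ∈ D) :
    fderiv ℂ (fun U => ex D (fld G.W U) z) (I • X)
      ((if lam = 0 then (1 : ℂ) else -lam / (1 - Complex.exp lam)) • u) =
      fld G.W u (ex D (fld G.W (I • X)) z) := by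
  obtain ⟨A, B, hA, hB, -, -, e1, e2⟩ := exists_re_im u
  split_ifs with h0
  · subst h0
    have a1 : G.br X u = 0 := by simpa using hu
    have a2 : G.br X (star u) = 0 := by
      have := G.star_br X u
      rw [a1, G.real X hX, star_zero] at this
      exact this.symm
    have a3 : A = (1 / 2 : ℂ) • (u + star u) := by
      rw [e2]
      conv_rhs => rw [e1]
      module
    have a4 : I • B = (1 / 2 : ℂ) • (u - star u) := by
      rw [e2]
      conv_rhs => rw [e1]
      module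
    have a5 : G.br X A = 0 := by rw [a3, map_smul, map_add, a1, a2, add_zero, smul_zero]
    have a6 : G.br X B = 0 := by
      have : G.br X (I • B) = 0 := by rw [a4, map_smul, map_sub, a1, a2, sub_zero, smul_zero]
      rw [map_smul] at this
      exact (smul_eq_zero.1 this).resolve_left I_ne_zero
    rw [one_smul]
    exact G.G8_lin (P := 1) (Q := 1) e1 (G.G8_comm hD hX hA a5 hz) (G.G8_comm hD hX hB a6 hz)
  · have a1 := G.G8_lin (P := G.br (I • X)) (Q := 1 - NormedSpace.exp (G.br (-(I • X)))) e1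
      (G.G8_conj hD hX hA hz) (G.G8_conj hD hX hB hz)
    have a2 : G.br (I • X) u = (-lam : ℂ) • u := by
      rw [map_smul, smul_apply, hu, smul_smul, ← mul_assoc, I_mul_I, neg_one_mul]
    have a3 : G.br (-(I • X)) u = (lam : ℂ) • u := by
      rw [map_neg, neg_apply, a2, neg_smul, neg_neg]
    have a4 : (1 - NormedSpace.exp (G.br (-(I • X)))) u = (1 - Complex.exp lam) • u := by
      rw [sub_apply, exp_apply_eigen a3, sub_smul, one_smul]
      rfl
    have a5 : (1 : ℂ) - Complex.exp lam ≠ 0 := by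
      rw [← ofReal_exp, sub_ne_zero, ne_comm, Ne, ofReal_eq_one, Real.exp_eq_one_iff]
      exact h0
    rw [a2, a4, fld_smul, Pi.smul_apply] at a1
    rw [div_eq_inv_mul, mul_smul, map_smul, a1, smul_smul, inv_mul_cancel₀ a5, one_smul]

theorem bounded_on_image (hD : BCD D) {X : Fin N → ℂ} (hX : G.toLCtx.IntC X) :
    ∃ C : ℝ, ∀ z ∈ D, ∀ U, ‖fld G.W U (ex D (fld G.W (I • X)) z)‖ ≤ C * ‖U‖ := by
  obtain ⟨C, hC, hb⟩ := G.G8_bound hD hX
  obtain ⟨_, _, -, hS⟩ := hX.ell.exists_fun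
  obtain ⟨S, hS, -⟩ := hS fun lam => if lam = 0 then 1 else -lam / (1 - Complex.exp lam)
  refine ⟨2 * C * ‖S‖, fun z hz U => ?_⟩
  have h1 : fderiv ℂ (fun U => ex D (fld G.W U) z) (I • X) (S U) =
      fld G.W U (ex D (fld G.W (I • X)) z) := by
    have h2 := hX.ell.mem_span (S := ⊤) (fun _ _ => trivial) (v := U) trivial
    induction h2 using Submodule.span_induction with
    | mem u hu =>
      obtain ⟨-, lam, hu⟩ := hu
      rw [hS u lam hu]
      exact G.G8_eigen hD hX.1 hu hz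
    | zero => simp [fld_zero]
    | add u v _ _ hu hv => rw [map_add, map_add, hu, hv, fld_add, Pi.add_apply]
    | smul c u _ hu => rw [map_smul, map_smul, hu, fld_smul G.W c u, Pi.smul_apply]
  obtain ⟨A, B, hA, hB, nA, nB, e1, -⟩ := exists_re_im (S U)
  rw [← h1, e1, map_add, map_smul]
  refine (norm_add_le _ _).trans ?_
  rw [norm_smul, norm_I, one_mul]
  have h3 := S.le_opNorm U
  have h4 := (hb z hz A hA).trans (mul_le_mul_of_nonneg_left (nA.trans h3) hC)
  have h5 := (hb z hz B hB).trans (mul_le_mul_of_nonneg_left (nB.trans h3) hC)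
  linarith

end GCtx

end Pool.Agent.P.MP_2ff09b_gt
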