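import Pool.Agent.P.MP_2ff09b_gt.G1
import Pool.Agent.P.MP_2ff09b_gt.A9

/-! CVX-H1. The retraction kills all fields; tangent splitting; local transitivity.
Sketch. fderiv_rho: by span it suffices to treat U j: d(ex (i t X)) (U j z) = exp (-k j t) U j
(ex (i t X) z) tends to 0 and the derivatives tend to dρ (hol_of_tendsto with rho.lim).
comp_rho: apply_ex_eq for (i t) X, then continuity. split: by exists_coef X = ∑ ξ j U j with ξ
holomorphic and ξ q = 0, so dX(q) has range in S = span of U j q; A t = d(ex (i t X))(q) satisfies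
A' = i dX(q) ∘ A (hasDerivAt_fderiv_ex at the fixed point q), so A t v - v is in the closed subspace
S; let t tend to infinity. nhds: the map (Y, z) ↦ ex (fld (rc Y)) (ρ z) on (Fin N → ℝ) × E is strictly
differentiable over the reals at (0, q) (hasFDerivAt_ex_fld_zero) with derivative
fld (rc Y) q + dρ v, which is onto by split since fld (P + star P) q = fld P q (vanP);
HasStrictFDerivAt.map_nhds_eq_of_surj. -/

open Set MeasureTheory Complex Filter Topology Metric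

noncomputable section

namespace Pool.Agent.P.MP_2ff09b_gt

variable {E : Type*} [NormedAddCommGroup E] [NormedSpace ℂ E] [FiniteDimensional ℂ E] {D : Set E}

variable {N r : ℕ} (H : HCtx D N r)

namespace HCtx


theorem H1_semi (hD : BCD D) {t : ℝ} (ht : 0 ≤ t) : SemiC D ((I * t) • fld H.W H.X) :=
  H.toGCtx.semiC_smul hD H.X_int.1 (by simpa using ht)

theorem H1_lim (hD : BCD D) {z : E} (hz : z ∈ D) (v : E) :
    Tendsto (fun t : ℝ => fderiv ℂ (ex D ((I * t) • fld H.W H.X)) z v) atTop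
      (𝓝 (fderiv ℂ H.ρ z v)) := by
  have := FiniteDimensional.complete ℂ E
  have h1 := (hol_of_tendsto hD.isOpen ((eventually_ge_atTop (0 : ℝ)).mono fun t ht =>
    (H.H1_semi hD ht).hol_ex hD.isOpen) H.rho.lim).2.tendsto_at hz
  exact ((ContinuousLinearMap.apply ℂ E v).continuous.tendsto _).comp h1

omit [FiniteDimensional ℂ E] in
theorem H1_sum (a : Fin r → ℂ) (z : E) :
    fld H.W (∑ j, a j • H.U j) z = ∑ j, a j • fld H.W (H.U j) z := by
  rw [fld_sum]
  exact Finset.sum_congr rfl fun j _ => congrFun (fld_smul _ _ _) z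

theorem H1_U (hD : BCD D) {z : E} (hz : z ∈ D) (j : Fin r) :
    fderiv ℂ H.ρ z (fld H.W (H.U j) z) = 0 := by
  refine tendsto_nhds_unique (H.H1_lim hD hz _) ?_
  have h1 : Tendsto (fun t : ℝ => fld H.W (H.U j) (ex D ((I * t) • fld H.W H.X) z)) atTop
      (𝓝 (fld H.W (H.U j) (H.ρ z))) :=
    ((H.toGCtx.hol_fld _).continuousOn.continuousAt
      (hD.isOpen.mem_nhds (H.rho.maps hz))).tendsto.comp (H.rho.lim.tendsto_at hz)
  have h2 : Tendsto (fun t : ℝ => ((Real.exp (-(t * H.k j)) : ℝ) : ℂ)) atTop (𝓝 0) :=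
    (continuous_ofReal.tendsto 0).comp (Real.tendsto_exp_neg_atTop_nhds_zero.comp
      (tendsto_id.atTop_mul_const (H.grading.k_pos j)))
  have h3 := h2.smul h1
  rw [zero_smul] at h3
  refine h3.congr' ((eventually_ge_atTop (0 : ℝ)).mono fun t ht => ?_)
  have hS := H.H1_semi hD ht
  have h4 := fderiv_ex_eigen hD.isOpen hS.1 (H.toGCtx.hol_fld (H.U j)) (c := (t * H.k j : ℂ))
    (fun w hw => by
      rw [← fld_smul, H.br_eq _ _ w hw, map_smul, smul_apply, H.grading.wt j, smul_smul, fld_smul,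
        Pi.smul_apply]
      congr 1
      linear_combination (-(t * H.k j) : ℂ) * I_mul_I) (hS.2 z hz)
  beta_reduce
  rw [h4]
  push_cast
  rfl

theorem fderiv_rho (hD : BCD D) {z : E} (hz : z ∈ D) (V : Fin N → ℂ) :
    fderiv ℂ H.ρ z (fld H.W V z) = 0 := by
  obtain ⟨a, ha⟩ := H.span z hz V
  rw [ha, H.H1_sum, map_sum]
  exact Finset.sum_eq_zero fun j _ => by rw [map_smul, H.H1_U hD hz, smul_zero]

theorem comp_rho {F : Type*} [NormedAddCommGroup F] [NormedSpace ℂ F] (hD : BCD D) {u : E → F}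
    (hu : DifferentiableOn ℂ u D) (h0 : ∀ z ∈ D, fderiv ℂ u z (fld H.W H.X z) = 0) {z : E}
    (hz : z ∈ D) : u (H.ρ z) = u z := by
  refine tendsto_nhds_unique ((hu.continuousOn.continuousAt
    (hD.isOpen.mem_nhds (H.rho.maps hz))).tendsto.comp (H.rho.lim.tendsto_at hz))
    (tendsto_const_nhds.congr' ((eventually_ge_atTop (0 : ℝ)).mono fun t ht => ?_))
  have hS := H.H1_semi hD ht
  exact (apply_ex_eq hD.isOpen hS.1 hu (fun w hw => by
    rw [Pi.smul_apply, map_smul, h0 w hw, smul_zero]) (hS.2 z hz)).symm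

omit [FiniteDimensional ℂ E] in
theorem rho_rho {z : E} (hz : z ∈ D) : H.ρ (H.ρ z) = H.ρ z :=
  H.rho.fix _ (H.rho.maps hz) (H.rho.zero z hz)

omit [FiniteDimensional ℂ E] in
theorem rho_p : H.ρ H.p = H.p := H.rho.fix _ H.p_mem H.X_p

theorem rho_ex (hD : BCD D) {V : Fin N → ℂ} {z : E} (h : HasSol D (fld H.W V) z) :
    H.ρ (ex D (fld H.W V) z) = H.ρ z := by
  exact apply_ex_eq hD.isOpen (H.toGCtx.hol_fld V) H.rho.hol (fun w hw => H.fderiv_rho hD hw V) h

theorem fderiv_rho_idem (hD : BCD D) {q : E} (hq : q ∈ D) (h0 : fld H.W H.X q = 0) (v : E) :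
    fderiv ℂ H.ρ q (fderiv ℂ H.ρ q v) = fderiv ℂ H.ρ q v := by
  have h1 := H.rho.fix q hq h0
  have h2 := H.rho.hol.differentiableAt (hD.isOpen.mem_nhds hq)
  have h3 := fderiv_comp q (g := H.ρ) (by rwa [h1]) h2
  have h4 : H.ρ ∘ H.ρ =ᶠ[𝓝 q] H.ρ :=
    eventually_of_mem (hD.isOpen.mem_nhds hq) fun z hz => H.rho_rho hz
  rw [h4.fderiv_eq, h1] at h3
  exact (DFunLike.congr_fun h3 v).symm

theorem H1_range (hD : BCD D) {q : E} (hq : q ∈ D) (h0 : fld H.W H.X q = 0) (v : E) :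
    ∃ a : Fin r → ℂ, fld (fun j => fld H.W (H.U j)) a q = fderiv ℂ (fld H.W H.X) q v := by
  have := FiniteDimensional.complete ℂ E
  have hA : DifferentiableOn ℂ (fun z => fldL (fun j => fld H.W (H.U j)) z) D :=
    (contDiffOn_clm_apply.2 fun a => contDiffOn_of_hol hD.isOpen
      (fld_hol (fun j => H.toGCtx.hol_fld (H.U j)) a) 1).differentiableOn (by simp)
  obtain ⟨ξ, h1, h2⟩ := exists_coef hD.isOpen hA (H.toGCtx.hol_fld H.X)
    (fun z hz => (injective_iff_map_eq_zero _).2 fun a ha => H.indep z hz a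
      ((H.H1_sum a z).trans ha))
    fun z hz => (H.span z hz H.X).imp fun a ha => (ha.trans (H.H1_sum a z)).symm
  have h3 : ξ q = 0 := H.indep q hq _ ((H.H1_sum _ q).trans ((h2 q hq).trans h0))
  have h4 := fderiv_clm_apply (hA.differentiableAt (hD.isOpen.mem_nhds hq))
    (h1.differentiableAt (hD.isOpen.mem_nhds hq))
  have h5 : (fun z => fldL (fun j => fld H.W (H.U j)) z (ξ z)) =ᶠ[𝓝 q] fld H.W H.X :=
    eventually_of_mem (hD.isOpen.mem_nhds hq) h2
  rw [h5.fderiv_eq, h3, map_zero, add_zero] at h4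
  exact ⟨fderiv ℂ ξ q v, by rw [h4]; rfl⟩

theorem split (hD : BCD D) {q : E} (hq : q ∈ D) (h0 : fld H.W H.X q = 0) (v : E) :
    ∃ a : Fin r → ℂ, v - fderiv ℂ H.ρ q v = fld H.W (∑ j, a j • H.U j) q := by
  by_contra hn
  have h1 : v - fderiv ℂ H.ρ q v ∉ LinearMap.range
      (fldL (fun j => fld H.W (H.U j)) q : (Fin r → ℂ) →ₗ[ℂ] E) := fun ⟨a, ha⟩ =>
    hn ⟨a, ha.symm.trans (H.H1_sum a q).symm⟩
  obtain ⟨f, h2, h3⟩ := Submodule.exists_dual_map_eq_bot_of_notMem h1 inferInstance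
  have h4 : ∀ w, f (fderiv ℂ (fld H.W H.X) q w) = 0 := fun w => by
    obtain ⟨a, ha⟩ := H.H1_range hD hq h0 w
    exact (Submodule.eq_bot_iff _).1 h3 _ ⟨_, ⟨a, ha⟩, rfl⟩
  have h5 : ∀ ζ : ℂ, HasDerivAt (fun ξ : ℂ => f (fderiv ℂ (ex D (ξ • fld H.W H.X)) q v)) 0 ζ :=
    fun ζ => by
      obtain ⟨h6, h7⟩ := hasSol_of_zero hD.isOpen ((H.toGCtx.hol_fld H.X).const_smul ζ) hq
        (by rw [Pi.smul_apply, h0, smul_zero])
      have h8 := hasDerivAt_fderiv_ex hD.isOpen (H.toGCtx.hol_fld H.X) h6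
      rw [h7] at h8
      have h9 := ((LinearMap.toContinuousLinearMap f).comp
        (ContinuousLinearMap.apply ℂ E v)).hasFDerivAt.comp_hasDerivAt ζ h8
      exact h9.congr_deriv (h4 _)
  have h6 : ∀ ζ : ℂ, f (fderiv ℂ (ex D (ζ • fld H.W H.X)) q v) = f v := fun ζ => by
    rw [is_const_of_deriv_eq_zero (fun ζ => (h5 ζ).differentiableAt) (fun ζ => (h5 ζ).deriv) ζ
      ((0 : ℝ) : ℂ), F5_zero hD.isOpen]
    rfl
  have h7 := ((LinearMap.toContinuousLinearMap f).continuous.tendsto _).comp (H.H1_lim hD hq v)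
  refine h2 ?_
  rw [map_sub, sub_eq_zero]
  exact tendsto_nhds_unique (tendsto_const_nhds.congr fun t => (h6 _).symm) h7

/-- The inclusion of real vectors. -/
def H1_rcL (N : ℕ) : (Fin N → ℝ) →L[ℝ] (Fin N → ℂ) :=
  ContinuousLinearMap.pi fun j => ofRealCLM.comp (ContinuousLinearMap.proj j)

theorem H1_open (hD : BCD D) {q : E} (hq : q ∈ D) {P : Type*} [NormedAddCommGroup P]
    [NormedSpace ℝ P] [CompleteSpace P] {φ : P → (Fin N → ℂ) × E}
    {φ' : P →L[ℝ] (Fin N → ℂ) × E} {a : P} (hφ : HasStrictFDerivAt φ φ' a) (ha : φ a = (0, q))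
    (hs : ∀ v, ∃ x, fld H.W (φ' x).1 q + (φ' x).2 = v) :
    map (fun x => ex D (fld H.W (φ x).1) (φ x).2) (𝓝 a) = 𝓝 q := by
  have := FiniteDimensional.complete ℂ E
  have h1 := (hasFDerivAt_ex_fld_zero hD.isOpen H.hol hq).restrictScalars ℝ
  rw [← ha] at h1
  have h2 := (h1.comp a hφ).map_nhds_eq_of_surj (LinearMap.range_eq_top.2 hs)
  rwa [ha, fld_zero, ex_zero hD.isOpen] at h2

omit [FiniteDimensional ℂ E] in
theorem H1_real {q : E} (hq : q ∈ D) (h0 : fld H.W H.X q = 0) (a : Fin r → ℂ) :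
    ∃ Y : Fin N → ℝ, fld H.W (rc Y) q = fld H.W (∑ j, a j • H.U j) q := by
  obtain ⟨Y, hY⟩ := exists_rc_of_star (U := ∑ j, a j • H.U j + star (∑ j, a j • H.U j))
    (by rw [star_add, star_star, add_comm])
  have h1 : fld H.W (star (∑ j, a j • H.U j)) q = 0 := by
    rw [star_sum, fld_sum]
    exact Finset.sum_eq_zero fun j _ => by
      rw [star_smul, fld_smul, Pi.smul_apply, H.vanP q hq h0, smul_zero]
  exact ⟨Y, by rw [← hY, fld_add, Pi.add_apply, h1, add_zero]⟩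

theorem nhds_zero (hD : BCD D) {q : E} (hq : q ∈ D) (h0 : fld H.W H.X q = 0) :
    {w | ∃ Y, star Y = Y ∧ ∃ z ∈ D, w = ex D (fld H.W Y) (H.ρ z)} ∈ 𝓝 q := by
  have := FiniteDimensional.complete ℂ E
  have h1 : HasStrictFDerivAt H.ρ ((fderiv ℂ H.ρ q).restrictScalars ℝ) q :=
    ((contDiffAt_of_hol hD.isOpen H.rho.hol hq 1).hasStrictFDerivAt (by simp)).restrictScalars ℝ
  have h2 := H.H1_open hD hq (φ := Prod.map (H1_rcL N) H.ρ) (a := (0, q))
    (HasStrictFDerivAt.prodMap _ (H1_rcL N).hasStrictFDerivAt h1)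
    (by rw [Prod.map_apply, map_zero, H.rho.fix q hq h0]) fun v => by
      obtain ⟨a, ha⟩ := H.split hD hq h0 v
      obtain ⟨Y, hY⟩ := H.H1_real hq h0 a
      exact ⟨(Y, v), (congrArg (· + fderiv ℂ H.ρ q v) (hY.trans ha.symm)).trans
        (sub_add_cancel _ _)⟩
  rw [← h2, mem_map]
  filter_upwards [prod_mem_nhds univ_mem (hD.isOpen.mem_nhds hq)] with x hx
  exact ⟨rc x.1, star_rc _, x.2, hx.2, rfl⟩

theorem nhds_base (hD : BCD D)
    (hs : ∀ v, ∃ a : Fin r → ℂ, v = fld H.W (∑ j, a j • H.U j) H.p) :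
    {w | ∃ Y, star Y = Y ∧ w = ex D (fld H.W Y) H.p} ∈ 𝓝 H.p := by
  have h2 := H.H1_open hD H.p_mem (φ := fun Y => (H1_rcL N Y, H.p)) (a := 0)
    ((H1_rcL N).hasStrictFDerivAt.prodMk (hasStrictFDerivAt_const H.p _))
    (by rw [map_zero]) fun v => by
      obtain ⟨a, ha⟩ := hs v
      obtain ⟨Y, hY⟩ := H.H1_real H.p_mem H.X_p a
      exact ⟨Y, (add_zero _).trans (hY.trans ha.symm)⟩
  rw [← h2, mem_map]
  exact Eventually.of_forall fun Y => ⟨rc Y, star_rc _, rfl⟩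

end HCtx

end Pool.Agent.P.MP_2ff09b_gt
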