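import Pool.Agent.P.MP_2ff09b_gt.H1

/-! CVX-H3. The homogeneous case: the domain is symmetric.
Sketch. s = ex (fld (π Z)) is an automorphism (exists_aut) fixing p (vanK, hasSol_of_zero); by
fderiv_ex and exp_apply_eigen its derivative at p is -1 on each U j p, hence on E. cartan_unique gives
s * s = 1 (on D; outside D by aut_fix). The map z ↦ s z - z has invertible derivative -2 at p, so p is
an isolated fixed point. The orbit of p under autGroup D is open (nhds_base, automorphisms are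
local homeomorphisms at points of D) and closed in D (exists_limit_aut), D is preconnected, so the
action is transitive; conjugate s. -/

open Set MeasureTheory Complex Filter Topology Metric

noncomputable section

namespace Pool.Agent.P.MP_2ff09b_gt

variable {E : Type*} [NormedAddCommGroup E] [NormedSpace ℂ E] [FiniteDimensional ℂ E] {D : Set E}

omit [FiniteDimensional ℂ E] in
theorem H3_iso {s : E → E} {p : E} {A : E →L[ℂ] E} (h : HasFDerivAt s A p)
    (hA : ∀ v, A v = -v) : ∀ᶠ z in 𝓝[≠] p, s z ≠ z := by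
  have h2 : HasFDerivAt (fun z => z - s z) (ContinuousLinearMap.id ℂ E - A) p :=
    (hasFDerivAt_id p).sub h
  have h3 : ∃ C, AntilipschitzWith C (ContinuousLinearMap.id ℂ E - A : E →L[ℂ] E) := by
    refine ⟨1, (ContinuousLinearMap.id ℂ E - A).antilipschitz_of_bound fun v => ?_⟩
    have e : (ContinuousLinearMap.id ℂ E - A) v = (2 : ℂ) • v := by
      simp [hA, two_smul]
    rw [e, norm_smul]
    have := norm_nonneg v
    simp only [NNReal.coe_one, one_mul, Complex.norm_ofNat]
    linarith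
  filter_upwards [h2.eventually_ne (c := 0) h3] with z hz e
  exact hz (by rw [e, sub_self])

theorem H3_trans (hD : BCD D) {p : E} (hp : p ∈ D)
    (h : {w | ∃ g ∈ autGroup D, g p = w} ∈ 𝓝 p) : ∀ q ∈ D, ∃ g ∈ autGroup D, g p = q := by
  classical
  set O : Set E := {w | ∃ g ∈ autGroup D, g p = w} with hO
  have ho : IsOpen O := by
    rw [isOpen_iff_mem_nhds]
    rintro q ⟨g, hg, rfl⟩
    have hc : ContinuousAt g.symm (g p) :=
      (aut_differentiableAt hD.isOpen (aut_symm hg) (aut_maps hg hp)).continuousAt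
    have h' : O ∈ 𝓝 (g.symm (g p)) := by rwa [Equiv.symm_apply_apply]
    filter_upwards [hc.preimage_mem_nhds h'] with w hw
    obtain ⟨g', hg', e⟩ := hw
    exact ⟨g * g', mul_mem hg hg', by rw [Equiv.Perm.mul_apply, e, Equiv.apply_symm_apply]⟩
  refine hD.convex.isPreconnected.subset_of_closure_inter_subset ho
    ⟨p, hp, 1, one_mem _, rfl⟩ ?_
  rintro q ⟨hq, hqD⟩
  obtain ⟨𝒰, hU, hle⟩ := mem_closure_iff_ultrafilter.1 hq
  have hch : ∀ w : E, ∃ g ∈ autGroup D, w ∈ O → g p = w := fun w => by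
    by_cases hw : w ∈ O
    · obtain ⟨g, hg, e⟩ := hw
      exact ⟨g, hg, fun _ => e⟩
    · exact ⟨1, one_mem _, fun h => absurd h hw⟩
  choose f hf hfp using hch
  obtain ⟨ρ, hρ, hb, hK⟩ := A1_ball hD.isOpen hqD
  have hev : ∀ᶠ w in (𝒰 : Filter E), f w p = w := by
    filter_upwards [hU] with w hw using hfp w hw
  obtain ⟨g, hg, hlim, -⟩ := exists_limit_aut hD 𝒰 hf (K := {p}) isCompact_singleton
    (singleton_subset_iff.2 hp) hK hb (x := fun _ => p) (by
      filter_upwards [hev, hle (closedBall_mem_nhds q (by positivity : 0 < 2 * ρ))] with w e hw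
      exact ⟨rfl, by rw [e]; exact hw⟩)
  refine ⟨g, hg, tendsto_nhds_unique (hlim.tendsto_at hp) ?_⟩
  exact Tendsto.congr' (hev.mono fun w e => e.symm) hle

omit [FiniteDimensional ℂ E] in
theorem H3_conj (hD : IsOpen D) {p : E} (hp : p ∈ D) {s g : Equiv.Perm E} (hs : s ∈ autGroup D)
    (hg : g ∈ autGroup D) (h1 : s * s = 1) (h2 : s p = p) (h3 : ∀ᶠ z in 𝓝[≠] p, s z ≠ z) :
    ∃ s ∈ autGroup D, s * s = 1 ∧ s (g p) = g p ∧ ∀ᶠ z in 𝓝[≠] (g p), s z ≠ z := by
  refine ⟨g * s * g⁻¹, mul_mem (mul_mem hg hs) (inv_mem hg), ?_, ?_, ?_⟩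
  · calc g * s * g⁻¹ * (g * s * g⁻¹) = g * (s * s) * g⁻¹ := by group
      _ = 1 := by rw [h1]; group
  · simp [h2]
  · have hc : ContinuousAt g.symm (g p) :=
      (aut_differentiableAt hD (aut_symm hg) (aut_maps hg hp)).continuousAt
    have ht : Tendsto g.symm (𝓝[≠] (g p)) (𝓝[≠] p) := by
      refine tendsto_nhdsWithin_iff.2 ⟨?_, ?_⟩
      · have := hc.tendsto
        rw [Equiv.symm_apply_apply] at this
        exact this.mono_left nhdsWithin_le_nhds
      · filter_upwards [self_mem_nhdsWithin] with z hz e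
        exact hz (by rw [mem_singleton_iff] at e ⊢; rw [← e, Equiv.apply_symm_apply])
    filter_upwards [ht.eventually h3] with z hz e
    apply hz
    apply g.injective
    rw [Equiv.apply_symm_apply]
    exact e

variable {N r : ℕ} (H : HCtx D N r)

namespace HCtx


theorem symmetric (hD : BCD D)
    (hs : ∀ v, ∃ a : Fin r → ℂ, v = fld H.W (∑ j, a j • H.U j) H.p) :
    ∀ q ∈ D, ∃ s ∈ autGroup D, s * s = 1 ∧ s q = q ∧ ∀ᶠ z in 𝓝[≠] q, s z ≠ z := by
  have hp := H.p_mem
  set Y : Fin N → ℂ := ((Real.pi : ℝ) : ℂ) • H.Z with hY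
  have hYs : star Y = Y := by
    rw [hY, star_smul, H.grading.Z_real]; simp
  obtain ⟨s, hs1, hs2, -⟩ := H.toGCtx.exists_aut hD.isOpen hYs
  have h0 : fld H.W Y H.p = 0 :=
    H.vanK _ hp H.X_p Y (by rw [hY, map_smul, H.grading.Z_K, smul_zero])
  obtain ⟨hsol, hfix⟩ := hasSol_of_zero hD.isOpen (H.toGCtx.hol_fld Y) hp h0
  have hsp : s H.p = H.p := by rw [hs2]; exact hfix
  have hd : ∀ v, fderiv ℂ s H.p v = -v := by
    intro v
    obtain ⟨a, rfl⟩ := hs v
    have e : H.br (-Y) (∑ j, a j • H.U j) = ((Real.pi : ℂ) * I) • ∑ j, a j • H.U j := by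
      rw [hY, map_neg, map_smul, neg_apply, smul_apply,
        map_sum, Finset.smul_sum, Finset.smul_sum, ← Finset.sum_neg_distrib]
      refine Finset.sum_congr rfl fun j _ => ?_
      rw [map_smul, H.grading.Z_wt, smul_smul, smul_smul, smul_smul, ← neg_smul]
      congr 1
      ring
    rw [hs2, H.toGCtx.fderiv_ex hD.isOpen hsol, hfix, exp_apply_eigen e, Complex.exp_pi_mul_I,
      fld_smul]
    simp
  have hds : DifferentiableAt ℂ s H.p := aut_differentiableAt hD.isOpen hs1 hp
  have hss : s * s = 1 := by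
    have hm := mul_mem hs1 hs1
    have := cartan_unique hD (aut_hol hm) (aut_maps hm) hp
      (by rw [Equiv.Perm.mul_apply, hsp, hsp]) (by
        ext1 v
        rw [Equiv.Perm.coe_mul, fderiv_comp H.p (by rw [hsp]; exact hds) hds, hsp,
          ContinuousLinearMap.comp_apply, hd, hd, neg_neg, ContinuousLinearMap.id_apply])
    ext z
    by_cases hz : z ∈ D
    · exact this z hz
    · exact aut_fix hm hz
  have hiso := H3_iso hds.hasFDerivAt hd
  have hn : {w | ∃ g ∈ autGroup D, g H.p = w} ∈ 𝓝 H.p := by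
    filter_upwards [H.nhds_base hD hs] with w hw
    obtain ⟨V, hV, rfl⟩ := hw
    obtain ⟨g, hg, e, -⟩ := H.toGCtx.exists_aut hD.isOpen hV
    exact ⟨g, hg, by rw [e]⟩
  intro q hq
  obtain ⟨g, hg, rfl⟩ := H3_trans hD hp hn q hq
  exact H3_conj hD.isOpen hp hs1 hg hss hsp hiso

end HCtx

end Pool.Agent.P.MP_2ff09b_gt
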