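import Pool.Agent.P.MP_2ff09b_gt.H1

/-! CVX-H4. The determinant along the fixed set and its mean value property.
Sketch. Write π for the derivative of ρ at p, a projection (fderiv_rho_idem). hdet_mean: the function
l ζ = hdet (G ∘ ex (ζ X) ∘ k) is differentiable at every ζ with im ζ >= 0 (the map
(ζ, z) ↦ G (ex (ζ X) (k z)) is holomorphic near (ζ, p) by master_smul, so its derivative in z at p is
differentiable in ζ, fderiv_hol on an open neighbourhood; det is a polynomial), periodic (per,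
ex_smul_add), bounded (hdet_bdd). As t tends to infinity G ∘ ex (i t X) ∘ k tends to G ∘ ρ ∘ k = G ∘ ρ
locally uniformly near p, so the derivatives at p converge (hol_of_tendsto), and
hdet (G ∘ ρ) = hdet G since π π = π. periodic_mean concludes. -/

open Set MeasureTheory Complex Filter Topology Metric

noncomputable section

namespace Pool.Agent.P.MP_2ff09b_gt

variable {E : Type*} [NormedAddCommGroup E] [NormedSpace ℂ E] [FiniteDimensional ℂ E] {D : Set E}

variable {N r : ℕ} (H : HCtx D N r)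

namespace HCtx


/-- The determinant of the derivative of `G` at the base point along the fixed set. -/
def hdet (G : E → E) : ℂ :=
  ((fderiv ℂ H.ρ H.p).comp ((fderiv ℂ G H.p).comp (fderiv ℂ H.ρ H.p)) +
    (ContinuousLinearMap.id ℂ E - fderiv ℂ H.ρ H.p)).det

omit [FiniteDimensional ℂ E] in
private theorem H4_congr {G G' : E → E} (h : fderiv ℂ G H.p = fderiv ℂ G' H.p) :
    H.hdet G = H.hdet G' := by
  rw [hdet, hdet, h]

private theorem H4_det : Differentiable ℂ fun T : E →L[ℂ] E => T.det := by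
  classical
  let b := Module.finBasis ℂ E
  have e : ∀ T : E →L[ℂ] E, T.det = ∑ σ : Equiv.Perm (Fin (Module.finrank ℂ E)),
      ((Equiv.Perm.sign σ : ℤ) : ℂ) *
        ∏ i, LinearMap.toContinuousLinearMap (b.coord (σ i)) (T (b i)) := fun T => by
    rw [ContinuousLinearMap.det, ← LinearMap.det_toMatrix b, Matrix.det_apply']
    simp only [LinearMap.toMatrix_apply, ContinuousLinearMap.coe_coe,
      LinearMap.coe_toContinuousLinearMap', Module.Basis.coord_apply]
  simp only [e]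
  refine ContDiff.differentiable (n := 1) (ContDiff.sum fun σ _ => contDiff_const.mul
    (contDiff_prod fun i _ => ?_)) one_ne_zero
  exact (ContinuousLinearMap.contDiff _).comp (contDiff_id.clm_apply contDiff_const)

private theorem H4_diff (π : E →L[ℂ] E) : Differentiable ℂ fun T : E →L[ℂ] E =>
    (π.comp (T.comp π) + (ContinuousLinearMap.id ℂ E - π)).det := by
  have h : Differentiable ℂ fun T : E →L[ℂ] E =>
      π.comp (T.comp π) + (ContinuousLinearMap.id ℂ E - π) :=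
    ((differentiable_const π).clm_comp
      (differentiable_id.clm_comp (differentiable_const π))).add_const _
  exact Differentiable.comp (g := fun T : E →L[ℂ] E => T.det) H4_det h

theorem hdet_id (hD : BCD D) : H.hdet id = 1 := by
  have e : (fderiv ℂ H.ρ H.p).comp ((fderiv ℂ id H.p).comp (fderiv ℂ H.ρ H.p)) +
      (ContinuousLinearMap.id ℂ E - fderiv ℂ H.ρ H.p) = ContinuousLinearMap.id ℂ E := by
    ext v
    simp [H.fderiv_rho_idem hD H.p_mem H.X_p]
  rw [hdet, e]
  exact LinearMap.det_id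

theorem hdet_bdd (hD : BCD D) : ∃ C : ℝ, ∀ G : E → E, DifferentiableOn ℂ G D →
    MapsTo G D (closure D) → ‖H.hdet G‖ ≤ C := by
  obtain ⟨r, hr, hb⟩ := Metric.isOpen_iff.1 hD.isOpen _ H.p_mem
  obtain ⟨M, hM⟩ := hD.bounded.closure.exists_norm_le
  have := FiniteDimensional.complete ℂ E
  have := FiniteDimensional.proper ℂ (E →L[ℂ] E)
  obtain ⟨C, hC⟩ := (isCompact_closedBall (0 : E →L[ℂ] E) (2 * M / r)).exists_bound_of_continuousOn
    (H4_diff (fderiv ℂ H.ρ H.p)).continuous.continuousOn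
  refine ⟨C, fun G hG hm => hC _ (mem_closedBall_zero_iff.2 ?_)⟩
  exact norm_fderiv_le_of_bound hr (hG.mono hb) fun w hw => hM _ (hm (hb hw))

theorem hdet_tendsto {ι : Type*} {l : Filter ι} {g : ι → E → E} {G : E → E}
    (h : Tendsto (fun i => fderiv ℂ (g i) H.p) l (𝓝 (fderiv ℂ G H.p))) :
    Tendsto (fun i => H.hdet (g i)) l (𝓝 (H.hdet G)) := by
  exact ((H4_diff (fderiv ℂ H.ρ H.p)).continuous.tendsto _).comp h

theorem eq_zero_of_hdet {G : E → E} (h : H.hdet G ≠ 0) {v : E} (hv : fderiv ℂ H.ρ H.p v = v)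
    (h0 : fderiv ℂ G H.p v = 0) : v = 0 := by
  by_contra hc
  refine h (LinearMap.det_eq_zero_iff_ker_ne_bot.2 ((Submodule.ne_bot_iff _).2 ⟨v, ?_, hc⟩))
  simp [hv, h0]

theorem hdet_mean (hD : BCD D) {G k : E → E} (hG : DifferentiableOn ℂ G D)
    (hm : MapsTo G D (closure D)) (hk : DifferentiableOn ℂ k D) (hkm : MapsTo k D D)
    (hρ : ∀ z ∈ D, H.ρ (k z) = H.ρ z) :
    Continuous (fun θ : ℝ => H.hdet (G ∘ ex D ((θ : ℂ) • fld H.W H.X) ∘ k)) ∧
      ∫ θ in (0 : ℝ)..(2 * Real.pi), H.hdet (G ∘ ex D ((θ : ℂ) • fld H.W H.X) ∘ k) =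
        2 * Real.pi * H.hdet G := by
  have := FiniteDimensional.complete ℂ E
  have hX := H.hol_fld H.X
  have hp := hD.isOpen.mem_nhds H.p_mem
  have hkp := hkm H.p_mem
  have hs : ∀ ζ : ℂ, 0 ≤ ζ.im → SemiC D (ζ • fld H.W H.X) := fun ζ hζ =>
    H.semiC_smul hD H.X_int.1 hζ
  have hd : ∀ ζ : ℂ, 0 ≤ ζ.im →
      DifferentiableAt ℂ (fun ξ : ℂ => H.hdet (G ∘ ex D (ξ • fld H.W H.X) ∘ k)) ζ := by
    intro ζ hζ
    have h1 := (master_smul hD.isOpen hX ((hs ζ hζ).2 _ hkp) 2).2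
    have h2 : ContDiffAt ℂ (2 : ℕ) (fun x : ℂ × E => (x.1, k x.2)) (ζ, H.p) :=
      contDiffAt_fst.prodMk (ContDiffAt.comp (g := k) (f := Prod.snd) (ζ, H.p)
        (contDiffAt_of_hol hD.isOpen hk H.p_mem 2) contDiffAt_snd)
    have h3 : ContDiffAt ℂ (2 : ℕ)
        (Function.uncurry fun ξ : ℂ => G ∘ ex D (ξ • fld H.W H.X) ∘ k) (ζ, H.p) :=
      (contDiffAt_of_hol hD.isOpen hG ((hs ζ hζ).maps hkp) 2).comp (ζ, H.p) (h1.comp (ζ, H.p) h2)
    have h4 := ContDiffAt.fderiv (m := 1) (g := fun _ => H.p) h3 contDiffAt_const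
      (by norm_num)
    exact (H4_diff (fderiv ℂ H.ρ H.p) _).comp ζ (h4.differentiableAt one_ne_zero)
  refine ⟨continuous_iff_continuousAt.2 fun θ =>
    (hd θ (by simp)).continuousAt.comp continuous_ofReal.continuousAt, ?_⟩
  obtain ⟨M, hM⟩ := H.hdet_bdd hD
  have h1 := fun t (ht : 0 < t) => periodic_mean (M := M)
    (l := fun ξ : ℂ => H.hdet (G ∘ ex D (ξ • fld H.W H.X) ∘ k))
    (fun ζ hζ => (hd ζ (le_of_lt hζ)).differentiableWithinAt)
    (fun ζ hζ => (hd ζ hζ).continuousAt.continuousWithinAt)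
    (fun ζ hζ => H4_congr H (Filter.EventuallyEq.fderiv_eq (by
      filter_upwards [hp] with z hz
      have h2 := (ex_smul_add hD.isOpen hX (hs ζ hζ)
        ((hs ((2 * Real.pi : ℝ) : ℂ) (by simp)).2 _ (hkm hz))).2
      rw [H.per _ (hkm hz)] at h2
      push_cast at h2
      exact congrArg G h2)))
    (fun ζ hζ => hM _ (hG.comp (((hs ζ hζ).hol_ex hD.isOpen).comp hk hkm)
      ((hs ζ hζ).maps.comp hkm)) (hm.comp ((hs ζ hζ).maps.comp hkm))) ht
  have hs' : ∀ᶠ t : ℝ in atTop, SemiC D ((I * t) • fld H.W H.X) := by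
    filter_upwards [eventually_ge_atTop 0] with t ht
    exact hs _ (by simpa using ht)
  have hρd := H.rho.hol.differentiableAt hp
  have hkd := hk.differentiableAt hp
  have e0 : H.ρ (k H.p) = H.p := (hρ _ H.p_mem).trans H.rho_p
  have h2 := (hol_of_tendsto hD.isOpen (hs'.mono fun t ht => ht.hol_ex hD.isOpen)
    H.rho.lim).2.tendsto_at hkp
  have h3 := H.rho.lim.tendsto_at hkp
  rw [e0] at h3
  have h4 := ((fderiv_hol hD.isOpen hG).differentiableAt hp).continuousAt.tendsto.comp h3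
  have c1 : Continuous fun x : (E →L[ℂ] E) × (E →L[ℂ] E) =>
      x.1.comp (x.2.comp (fderiv ℂ k H.p)) :=
    continuous_fst.clm_comp (continuous_snd.clm_comp continuous_const)
  have h5 := (c1.tendsto _).comp (h4.prodMk_nhds h2)
  have e1 : (fderiv ℂ H.ρ (k H.p)).comp (fderiv ℂ k H.p) = fderiv ℂ H.ρ H.p := by
    rw [← fderiv_comp _ (H.rho.hol.differentiableAt (hD.isOpen.mem_nhds hkp)) hkd]
    refine Filter.EventuallyEq.fderiv_eq ?_
    filter_upwards [hp] with z hz
    exact hρ z hz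
  have e2 : fderiv ℂ (G ∘ H.ρ) H.p = (fderiv ℂ G H.p).comp (fderiv ℂ H.ρ H.p) := by
    rw [fderiv_comp _ (by rw [H.rho_p]; exact hG.differentiableAt hp) hρd, H.rho_p]
  have h6 : Tendsto (fun t : ℝ => fderiv ℂ (G ∘ ex D ((I * t) • fld H.W H.X) ∘ k) H.p) atTop
      (𝓝 (fderiv ℂ (G ∘ H.ρ) H.p)) := by
    rw [e2, ← e1]
    refine h5.congr' ?_
    filter_upwards [hs'] with t ht
    have d1 := (ht.hol_ex hD.isOpen).differentiableAt (hD.isOpen.mem_nhds hkp)
    exact ((hG.differentiableAt (hD.isOpen.mem_nhds (ht.maps hkp))).hasFDerivAt.comp H.p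
      (d1.hasFDerivAt.comp H.p hkd.hasFDerivAt)).fderiv.symm
  have e3 : H.hdet (G ∘ H.ρ) = H.hdet G := by
    rw [hdet, hdet, e2]
    congr 2
    ext v
    simp [H.fderiv_rho_idem hD H.p_mem H.X_p]
  have h7 := H.hdet_tendsto h6
  rw [e3] at h7
  have h8 : Tendsto (fun t : ℝ => H.hdet (G ∘ ex D ((I * t) • fld H.W H.X) ∘ k)) atTop
      (𝓝 (((2 * Real.pi)⁻¹ : ℝ) • ∫ θ in (0 : ℝ)..(2 * Real.pi),
        H.hdet (G ∘ ex D ((θ : ℂ) • fld H.W H.X) ∘ k))) := by
    rw [tendsto_iff_norm_sub_tendsto_zero]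
    refine squeeze_zero' (Eventually.of_forall fun _ => norm_nonneg _) ?_
      (tendsto_const_nhds.div_atTop (a := 4 * Real.pi * M) tendsto_id)
    filter_upwards [eventually_gt_atTop 0] with t ht
    exact h1 t ht
  rw [tendsto_nhds_unique h7 h8, Complex.real_smul]
  have hpi : (Real.pi : ℂ) ≠ 0 := ofReal_ne_zero.2 Real.pi_ne_zero
  push_cast
  field_simp

end HCtx

end Pool.Agent.P.MP_2ff09b_gt
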