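import Pool.Agent.P.MP_2ff09b_gt.H4

/-! CVX-H5. A limit of automorphisms that is constant on the fibres and immersive on the fixed
set.
Sketch. Take a sequence z j dense in D and coordinate functionals l i of a basis of E. Put
Φ g = ‖hdet g‖² + η ∑ j 2^(-j) ∑ i |l i (g (ρ (z j)))|² with η so small that the second term is at most
1/2 for maps into closure D. Let S be the supremum of Φ over autGroup D (S >= 1 by hdet_id), g m a
maximising sequence, G its limit along an ultrafilter finer than atTop (exists_limit_bdd); Φ G = S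
(hdet_tendsto, tendsto_tsum_of_dominated_convergence), so hdet G is nonzero. For k = ex (fld Y), Y real,
and k θ = ex (θ X), the map G ∘ k θ ∘ k is the limit of the automorphisms g m * k θ * k (with
derivatives at p, by the chain rule), so Φ <= S. By hdet_mean and rho.mean (u = l i ∘ G at the point
k (ρ (z j)), rho_ex) each term has mean value equal to the term for G, and the mean of |f|² is
|mean f|² plus the mean of |f - mean f|²; hence each continuous function of θ is constant, and θ = 0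
gives G (k (ρ (z j))) = G (ρ (z j)). By density G (k (ρ z)) = G (ρ z); by nhds_zero G = G ∘ ρ near p,
then on D (eq_zero_of_eventually). To avoid integrating the series: if one term is not constant the
mean of Φ exceeds S; use finite sums as lower bounds. -/

open Set MeasureTheory Complex Filter Topology Metric

noncomputable section

namespace Pool.Agent.P.MP_2ff09b_gt

variable {E : Type*} [NormedAddCommGroup E] [NormedSpace ℂ E] [FiniteDimensional ℂ E] {D : Set E}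

theorem H5_var {a : ℝ → ℂ} {m : ℂ} (hc : Continuous a)
    (hm : ∫ θ in (0 : ℝ)..(2 * Real.pi), a θ = 2 * Real.pi * m) :
    ∫ θ in (0 : ℝ)..(2 * Real.pi), ‖a θ‖ ^ 2 =
      (∫ θ in (0 : ℝ)..(2 * Real.pi), ‖a θ - m‖ ^ 2) + 2 * Real.pi * ‖m‖ ^ 2 := by
  have h1 : ∀ θ, ‖a θ‖ ^ 2 =
      ‖a θ - m‖ ^ 2 + (2 * reCLM ((starRingEnd ℂ) m * a θ) - ‖m‖ ^ 2) := by
    intro θ
    simp only [← Complex.normSq_eq_norm_sq, normSq_apply, reCLM_apply, mul_re, conj_re, conj_im,
      sub_re, sub_im]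
    ring
  have c1 : Continuous fun θ => (starRingEnd ℂ) m * a θ := by fun_prop
  have c2 : Continuous fun θ => 2 * reCLM ((starRingEnd ℂ) m * a θ) := by fun_prop
  have c3 : Continuous fun θ => ‖a θ - m‖ ^ 2 := by fun_prop
  have c4 : Continuous fun θ => 2 * reCLM ((starRingEnd ℂ) m * a θ) - ‖m‖ ^ 2 := by fun_prop
  simp_rw [h1]
  rw [intervalIntegral.integral_add (c3.intervalIntegrable _ _) (c4.intervalIntegrable _ _),
    intervalIntegral.integral_sub (c2.intervalIntegrable _ _) intervalIntegrable_const,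
    intervalIntegral.integral_const_mul,
    reCLM.intervalIntegral_comp_comm (c1.intervalIntegrable _ _),
    intervalIntegral.integral_const_mul, hm, intervalIntegral.integral_const]
  simp only [← Complex.normSq_eq_norm_sq, normSq_apply, reCLM_apply, mul_re, conj_re, conj_im,
    mul_im, ofReal_re, ofReal_im, re_ofNat, im_ofNat, smul_eq_mul]
  ring

theorem H5_mean {a : ℕ → ℝ → ℂ} {m : ℕ → ℂ} {S : ℝ} (hc : ∀ n, Continuous (a n))
    (hm : ∀ n, ∫ θ in (0 : ℝ)..(2 * Real.pi), a n θ = 2 * Real.pi * m n)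
    (hs : HasSum (fun n => ‖m n‖ ^ 2) S) (hle : ∀ θ (F : Finset ℕ), ∑ n ∈ F, ‖a n θ‖ ^ 2 ≤ S)
    (n : ℕ) : a n 0 = m n := by
  by_contra hne
  have hπ : (0 : ℝ) < 2 * Real.pi := by positivity
  have c3 : ∀ k, Continuous fun θ => ‖a k θ - m k‖ ^ 2 := fun k => by
    have := hc k
    fun_prop
  have c4 : ∀ k, Continuous fun θ => ‖a k θ‖ ^ 2 := fun k => by
    have := hc k
    fun_prop
  have h1 : 0 < ∫ θ in (0 : ℝ)..(2 * Real.pi), ‖a n θ - m n‖ ^ 2 :=
    intervalIntegral.integral_pos hπ (c3 n).continuousOn (fun _ _ => by positivity)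
      ⟨0, ⟨le_rfl, hπ.le⟩, pow_pos (norm_pos_iff.2 (sub_ne_zero.2 hne)) 2⟩
  have h2 : ∀ F : Finset ℕ, n ∈ F → (∫ θ in (0 : ℝ)..(2 * Real.pi), ‖a n θ - m n‖ ^ 2) +
      2 * Real.pi * ∑ k ∈ F, ‖m k‖ ^ 2 ≤ 2 * Real.pi * S := by
    intro F hF
    have e1 := intervalIntegral.integral_mono_on (μ := volume) hπ.le
      ((continuous_finsetSum F fun k _ => c4 k).intervalIntegrable _ _)
      (intervalIntegrable_const (c := S)) fun θ _ => hle θ F
    rw [intervalIntegral.integral_finsetSum fun k _ => (c4 k).intervalIntegrable _ _,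
      intervalIntegral.integral_const, Finset.sum_congr rfl fun k _ => H5_var (hc k) (hm k),
      Finset.sum_add_distrib, ← Finset.mul_sum, sub_zero, smul_eq_mul] at e1
    have e2 := Finset.single_le_sum
      (f := fun k => ∫ θ in (0 : ℝ)..(2 * Real.pi), ‖a k θ - m k‖ ^ 2)
      (fun k _ => intervalIntegral.integral_nonneg hπ.le fun _ _ => by positivity) hF
    linarith
  have h3 := le_of_tendsto ((Tendsto.const_mul (2 * Real.pi) hs.tendsto_sum_nat).const_add
    (∫ θ in (0 : ℝ)..(2 * Real.pi), ‖a n θ - m n‖ ^ 2))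
    ((eventually_gt_atTop n).mono fun k hk => h2 _ (Finset.mem_range.2 hk))
  linarith

/-- A sequence of points and functionals that detects continuous maps. -/
theorem H5_seq (hD : BCD D) : ∃ (z : ℕ → E) (l : ℕ → E →L[ℂ] ℂ), (∀ j, z j ∈ D) ∧
    (∀ j, ‖l j‖ ≤ 1) ∧ ∀ f : E → E, ContinuousOn f D → (∀ j, l j (f (z j)) = 0) →
      ∀ x ∈ D, f x = 0 := by
  have := FiniteDimensional.proper ℂ E
  obtain ⟨z₀, h₀⟩ := hD.nonempty
  have : Nonempty (D ×ˢ closedBall (0 : E →L[ℂ] ℂ) 1 : Set _) := ⟨⟨(z₀, 0), h₀, by simp⟩⟩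
  obtain ⟨u, hu⟩ := TopologicalSpace.exists_dense_seq (D ×ˢ closedBall (0 : E →L[ℂ] ℂ) 1 : Set _)
  refine ⟨fun j => (u j).1.1, fun j => (u j).1.2, fun j => (u j).2.1,
    fun j => mem_closedBall_zero_iff.1 (u j).2.2, fun f hf h x hx => ?_⟩
  have hc : Continuous fun y : (D ×ˢ closedBall (0 : E →L[ℂ] ℂ) 1 : Set _) => y.1.2 (f y.1.1) :=
    continuous_subtype_val.snd.clm_apply
      (hf.comp_continuous continuous_subtype_val.fst fun y => y.2.1)
  obtain ⟨l, hl, hlx⟩ := exists_dual_vector'' ℂ (f x)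
  have := congrFun (hu.equalizer hc continuous_zero (funext h))
    ⟨(x, l), hx, mem_closedBall_zero_iff.2 hl⟩
  simp only [hlx] at this
  simpa using this

variable {N r : ℕ} (H : HCtx D N r)

namespace HCtx

/-- The terms of the functional. -/
def H5_T (z : ℕ → E) (l : ℕ → E →L[ℂ] ℂ) (c : ℝ) (G : E → E) : ℕ → ℂ
  | 0 => H.hdet G
  | j + 1 => ((c * (1 / 2) ^ j : ℝ) : ℂ) * l j (G (H.ρ (z j)))

theorem H5_bd (hD : BCD D) {z : ℕ → E} {l : ℕ → E →L[ℂ] ℂ} (hz : ∀ j, z j ∈ D)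
    (hl : ∀ j, ‖l j‖ ≤ 1) : ∃ (c : ℝ) (b : ℕ → ℝ), 0 < c ∧ Summable b ∧ ∑' j, b (j + 1) < 1 ∧
      ∀ G : E → E, DifferentiableOn ℂ G D → MapsTo G D (closure D) →
        ∀ n, ‖H.H5_T z l c G n‖ ^ 2 ≤ b n := by
  obtain ⟨C, hC⟩ := H.hdet_bdd hD
  obtain ⟨R, hR, hR'⟩ := hD.bounded.closure.exists_pos_norm_le
  have hs : HasSum (fun j : ℕ => (1 / 4 : ℝ) * (1 / 2) ^ j) (1 / 4 * 2) :=
    hasSum_geometric_two.mul_left _
  refine ⟨1 / (2 * R), fun n => Nat.casesOn n (C ^ 2) fun j => (1 / 4 : ℝ) * (1 / 2) ^ j,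
    by positivity, (summable_nat_add_iff 1).1 hs.summable, by rw [hs.tsum_eq]; norm_num,
    fun G hG hm n => ?_⟩
  cases n with
  | zero => exact pow_le_pow_left₀ (norm_nonneg _) (hC G hG hm) 2
  | succ j =>
    have h1 : ‖l j (G (H.ρ (z j)))‖ ≤ R := by
      have := (l j).le_of_opNorm_le_of_le (hl j) (hR' _ (hm (H.rho.maps (hz j))))
      rwa [one_mul] at this
    have h2 : (0 : ℝ) < (1 / 2) ^ j := by positivity
    have h3 : ((1 / 2 : ℝ)) ^ j ≤ 1 := pow_le_one₀ (by norm_num) (by norm_num)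
    have h4 : ‖H.H5_T z l (1 / (2 * R)) G (j + 1)‖ ≤ 1 / 2 * (1 / 2) ^ j := by
      rw [H5_T, norm_mul, norm_real, Real.norm_of_nonneg (by positivity)]
      refine (mul_le_mul_of_nonneg_left h1 (by positivity)).trans_eq ?_
      field_simp
    refine (pow_le_pow_left₀ (norm_nonneg _) h4 2).trans ?_
    show _ ≤ (1 / 4 : ℝ) * (1 / 2) ^ j
    nlinarith

theorem H5_lim {z : ℕ → E} (l : ℕ → E →L[ℂ] ℂ) (c : ℝ) (hz : ∀ j, z j ∈ D) {ι : Type*}
    {𝓕 : Filter ι} {g : ι → E → E} {G : E → E} (h1 : ∀ x ∈ D, Tendsto (fun i => g i x) 𝓕 (𝓝 (G x)))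
    (h2 : Tendsto (fun i => fderiv ℂ (g i) H.p) 𝓕 (𝓝 (fderiv ℂ G H.p))) (n : ℕ) :
    Tendsto (fun i => H.H5_T z l c (g i) n) 𝓕 (𝓝 (H.H5_T z l c G n)) := by
  cases n with
  | zero => exact H.hdet_tendsto h2
  | succ j => exact (((l j).continuous.tendsto _).comp (h1 _ (H.rho.maps (hz j)))).const_mul _

theorem H5_avg (hD : BCD D) {z : ℕ → E} (l : ℕ → E →L[ℂ] ℂ) (c : ℝ) (hz : ∀ j, z j ∈ D)
    {G k : E → E} (hG : DifferentiableOn ℂ G D)
    (hm : MapsTo G D (closure D)) (hk : DifferentiableOn ℂ k D) (hkm : MapsTo k D D)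
    (hρ : ∀ z ∈ D, H.ρ (k z) = H.ρ z) (n : ℕ) :
    Continuous (fun θ : ℝ => H.H5_T z l c (G ∘ ex D ((θ : ℂ) • fld H.W H.X) ∘ k) n) ∧
      ∫ θ in (0 : ℝ)..(2 * Real.pi), H.H5_T z l c (G ∘ ex D ((θ : ℂ) • fld H.W H.X) ∘ k) n =
        2 * Real.pi * H.H5_T z l c G n := by
  cases n with
  | zero => exact H.hdet_mean hD hG hm hk hkm hρ
  | succ j =>
    have hw : H.ρ (z j) ∈ D := H.rho.maps (hz j)
    have hs : ∀ θ : ℝ, HasSol D ((θ : ℂ) • fld H.W H.X) (k (H.ρ (z j))) := fun θ =>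
      (H.toGCtx.semiC_smul hD H.X_int.1 (ζ := θ) (by simp)).2 _ (hkm hw)
    have h1 : Continuous fun θ : ℝ => ex D ((θ : ℂ) • fld H.W H.X) (k (H.ρ (z j))) :=
      continuous_iff_continuousAt.2 fun θ =>
        (hasDerivAt_ex_smul_real hD.isOpen (H.toGCtx.hol_fld _) (hs θ)).continuousAt
    obtain ⟨R, hR⟩ := hD.bounded.closure.exists_norm_le
    have h2 := H.rho.mean (fun x => l j (G x)) ((l j).differentiable.comp_differentiableOn hG)
      ⟨‖l j‖ * R, fun x hx => (l j).le_opNorm_of_le (hR _ (hm hx))⟩ _ (hkm hw)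
    rw [hρ _ hw, H.rho_rho (hz j)] at h2
    refine ⟨continuous_const.mul ((l j).continuous.comp
      (hG.continuousOn.comp_continuous h1 fun θ => (hs θ).ex_mem)), ?_⟩
    simp only [H5_T, Function.comp_apply]
    rw [intervalIntegral.integral_const_mul, h2]
    ring

theorem exists_face (hD : BCD D) : ∃ (𝒰 : Ultrafilter ℕ) (g : ℕ → Equiv.Perm E) (G : E → E),
    (∀ m, g m ∈ autGroup D) ∧ DifferentiableOn ℂ G D ∧ MapsTo G D (closure D) ∧
    (∀ z ∈ D, Tendsto (fun m => g m z) 𝒰 (𝓝 (G z))) ∧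
    Tendsto (fun m => fderiv ℂ (g m) H.p) 𝒰 (𝓝 (fderiv ℂ G H.p)) ∧
    (∀ z ∈ D, G (H.ρ z) = G z) ∧
    ∀ v, fderiv ℂ H.ρ H.p v = v → fderiv ℂ G H.p v = 0 → v = 0 := by
  obtain ⟨z, l, hz, hl, hsep⟩ := H5_seq hD
  obtain ⟨c, b, hc, hb, hb1, hT⟩ := H.H5_bd hD hz hl
  have haut : ∀ g ∈ autGroup D, MapsTo g D (closure D) := fun g hg x hx =>
    subset_closure (aut_maps hg hx)
  have hsum : ∀ G : E → E, DifferentiableOn ℂ G D → MapsTo G D (closure D) →
      Summable fun n => ‖H.H5_T z l c G n‖ ^ 2 := fun G hG hm =>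
    hb.of_nonneg_of_le (fun _ => by positivity) (hT G hG hm)
  let Φ : (E → E) → ℝ := fun G => ∑' n, ‖H.H5_T z l c G n‖ ^ 2
  have hbdd : BddAbove ((fun g : Equiv.Perm E => Φ g) '' autGroup D) := by
    refine ⟨∑' n, b n, ?_⟩
    rintro _ ⟨g, hg, rfl⟩
    exact (hsum g (aut_hol hg) (haut g hg)).tsum_le_tsum (hT g (aut_hol hg) (haut g hg)) hb
  obtain ⟨u, -, hu, hu'⟩ := exists_seq_tendsto_sSup (Nonempty.image _ ⟨1, one_mem _⟩) hbdd
  choose g hg hgu using hu'
  set S := sSup ((fun g : Equiv.Perm E => Φ g) '' autGroup D) with hS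
  obtain ⟨G, hG, hm, h1, h2⟩ := exists_limit_bdd hD (Ultrafilter.of atTop)
    (f := fun i => g i) (fun i => aut_hol (hg i)) fun i => aut_maps (hg i)
  have h1' : ∀ x ∈ D, Tendsto (fun i => g i x) (Ultrafilter.of (atTop : Filter ℕ)) (𝓝 (G x)) :=
    fun x hx =>
    h1.tendsto_at hx
  have hcomp : ∀ h ∈ autGroup D,
      Tendsto (fun i => Φ (g i * h : Equiv.Perm E)) (Ultrafilter.of (atTop : Filter ℕ))
        (𝓝 (Φ (G ∘ h))) := by
    intro h hh
    have hp := aut_maps hh H.p_mem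
    have hd := aut_differentiableAt hD.isOpen hh H.p_mem
    refine tendsto_tsum_of_dominated_convergence hb (fun n => ((H.H5_lim l c hz
      (g := fun i => (g i * h : Equiv.Perm E)) (G := G ∘ h)
      (fun x hx => h1' _ (aut_maps hh hx)) ?_ n).norm.pow 2))
      (Eventually.of_forall fun i n => ?_)
    · rw [fderiv_comp _ (hG.differentiableAt (hD.isOpen.mem_nhds hp)) hd]
      refine ((((ContinuousLinearMap.compL ℂ E E E).flip (fderiv ℂ h H.p)).continuous.tendsto _).comp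
        (h2 _ hp)).congr fun i => ?_
      rw [Equiv.Perm.coe_mul, fderiv_comp _ (aut_differentiableAt hD.isOpen (hg i) hp) hd]
      rfl
    · rw [Real.norm_of_nonneg (by positivity)]
      exact hT _ (aut_hol (mul_mem (hg i) hh)) (haut _ (mul_mem (hg i) hh)) n
  have hle : ∀ h ∈ autGroup D, Φ (G ∘ h) ≤ S := fun h hh =>
    le_of_tendsto' (hcomp h hh) fun i => le_csSup hbdd ⟨_, mul_mem (hg i) hh, rfl⟩
  have hGS : Φ G = S := by
    refine tendsto_nhds_unique (hcomp 1 (one_mem _)) ?_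
    simp only [mul_one, hgu]
    exact hu.mono_left (Ultrafilter.of_le _)
  have hne : H.hdet G ≠ 0 := by
    intro h0
    have e1 : 1 ≤ S := by
      refine le_trans ?_ (le_csSup hbdd ⟨1, one_mem _, rfl⟩)
      have := (hsum _ (aut_hol (one_mem _)) (haut 1 (one_mem _))).le_tsum 0 fun _ _ => by positivity
      rwa [H5_T, Equiv.Perm.coe_one, H.hdet_id hD, norm_one, one_pow] at this
    have e2 : Φ G ≤ ∑' j, b (j + 1) := by
      simp only [Φ]
      rw [(hsum G hG hm).tsum_eq_zero_add, H5_T, h0, norm_zero, sq, zero_mul, zero_add]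
      exact ((summable_nat_add_iff 1).2 (hsum G hG hm)).tsum_le_tsum (fun j => hT G hG hm _)
        ((summable_nat_add_iff 1).2 hb)
    linarith
  have key : ∀ Y, star Y = Y → ∀ x ∈ D, G (ex D (fld H.W Y) (H.ρ x)) - G (H.ρ x) = 0 := by
    intro Y hY
    obtain ⟨k, hk, ek, -⟩ := H.toGCtx.exists_aut hD.isOpen hY
    have hρ : ∀ x ∈ D, H.ρ (k x) = H.ρ x := fun x hx => by
      rw [ek]
      exact H.rho_ex hD ((H.complete Y hY).2 x hx)
    have ha := H.H5_avg hD l c hz hG hm (aut_hol hk) (aut_maps hk) hρ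
    have hcon := H5_mean (fun n => (ha n).1) (fun n => (ha n).2) (hsum G hG hm).hasSum
      fun θ F => by
        obtain ⟨k', hk', ek', -⟩ := H.toGCtx.exists_aut hD.isOpen (Y := (θ : ℂ) • H.X)
          (by rw [star_smul, H.real _ H.X_int.1]; simp)
        have e1 := hle _ (mul_mem hk' hk)
        have e2 := (hsum _ (hG.comp (aut_hol (mul_mem hk' hk)) (aut_maps (mul_mem hk' hk)))
          (hm.comp (aut_maps (mul_mem hk' hk)))).sum_le_tsum F fun _ _ => by positivity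
        have e3 := (e2.trans e1).trans_eq hGS.symm
        rwa [Equiv.Perm.coe_mul, ek', fld_smul] at e3
    rw [← ek]
    refine hsep _ ((hG.continuousOn.comp ((aut_hol hk).continuousOn.comp H.rho.hol.continuousOn
      H.rho.maps) ((aut_maps hk).comp H.rho.maps)).sub
      (hG.continuousOn.comp H.rho.hol.continuousOn H.rho.maps)) fun j => ?_
    have e1 := hcon (j + 1)
    simp only [H5_T, Function.comp_apply, ofReal_zero, zero_smul, ex_zero hD.isOpen] at e1
    rw [map_sub, mul_left_cancel₀ (ofReal_ne_zero.2 (by positivity)) e1, sub_self]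
  refine ⟨_, g, G, hg, hG, hm, h1', h2 _ H.p_mem, fun x hx => sub_eq_zero.1 ?_,
    fun v hv h0 => H.eq_zero_of_hdet hne hv h0⟩
  have := FiniteDimensional.complete ℂ E
  refine eq_zero_of_eventually hD.isOpen hD.convex (f := fun x => G (H.ρ x) - G x)
    ((hG.comp H.rho.hol H.rho.maps).sub hG) H.p_mem ?_ x hx
  filter_upwards [H.nhds_zero hD H.p_mem H.X_p]
  rintro _ ⟨Y, hY, y, hy, rfl⟩
  rw [H.rho_ex hD ((H.complete Y hY).2 _ (H.rho.maps hy)), H.rho_rho hy, ← neg_sub, key Y hY y hy,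
    neg_zero]

end HCtx

end Pool.Agent.P.MP_2ff09b_gt
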