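import Pool.Agent.P.MP_2ff09b_gt.A7

/-! CVX-H6. The rescaling of Frankel.
Sketch. Let A i = fderiv (g i).symm (g i p), B i = fderiv (g i) p (inverse to each other),
f i z = A i (g i z - g i p), D i = {y | g i p + B i y ∈ D} (open, convex), F i y = (g i).symm (g i p +
B i y). By nr_comp and nr_sub_le, nr p (f i z) <= 2 (1 + exp (hd p z)), so f i is locally bounded
(ultra_montel). Dh = {y | ∃ δ > 0, eventually ball y δ ⊆ D i} is open and convex. For z in D a ball of
fixed radius around f i z lies in D i (add_smul_mem with nr (g i p) (B i u) <= nr p u and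
hd (g i p) (g i z) <= hd p z), so f z is in Dh. F is the limit of F i on Dh (values in the bounded set
D). For y in Dh a thickening T of the segment from 0 to y is a bounded convex domain contained in
D i eventually, so hd p (F i y) <= hd T 0 y (hd_comp) and F y is in D (isCompact_hd_ball). Pass to the
limit in F i (f i z) = z and f i (F i y) = y (TendstoLocallyUniformlyOn.tendsto_comp). -/

open Set MeasureTheory Complex Filter Topology Metric

noncomputable section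

namespace Pool.Agent.P.MP_2ff09b_gt

variable {E : Type*} [NormedAddCommGroup E] [NormedSpace ℂ E] [FiniteDimensional ℂ E] {D : Set E}

omit [FiniteDimensional ℂ E] in
theorem H6_ball {C : Set E} (hC : Convex ℝ C) {x y s : E} {δ : ℝ} (hx : ball x δ ⊆ C)
    (hy : ball y δ ⊆ C) (hs : s ∈ segment ℝ x y) : ball s δ ⊆ C := by
  obtain ⟨a, b, ha, hb, hab, rfl⟩ := hs
  intro w hw
  rw [mem_ball_iff_norm] at hw
  have e : w = a • (x + (w - (a • x + b • y))) + b • (y + (w - (a • x + b • y))) := by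
    rw [smul_add a x, smul_add b y, add_add_add_comm, ← add_smul, hab, one_smul, add_sub_cancel]
  rw [e]
  exact hC (hx (by rwa [mem_ball_iff_norm, add_sub_cancel_left]))
    (hy (by rwa [mem_ball_iff_norm, add_sub_cancel_left])) ha hb hab

omit [FiniteDimensional ℂ E] in
theorem H6_inv {U V : Set E} (hV : IsOpen V) {ι : Type*} {l : Filter ι} [l.NeBot]
    {f f' : ι → E → E} {g g' : E → E} (h : TendstoLocallyUniformlyOn f g l U) (hm : MapsTo g U V)
    (h' : TendstoLocallyUniformlyOn f' g' l V) (hg : DifferentiableOn ℂ g' V) {z : E} (hz : z ∈ U)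
    (e : ∀ i, f' i (f i z) = z) : g' (g z) = z := by
  have := h'.tendsto_comp (hg.continuousOn _ (hm hz)) (hm hz)
    (hV.nhdsWithin_eq (hm hz) ▸ h.tendsto_at hz)
  simp only [e] at this
  exact tendsto_nhds_unique this tendsto_const_nhds

theorem H6_rad (hD : BCD D) {p z : E} (hp : p ∈ D) (hz : z ∈ D) :
    ∃ ρ : ℝ, 0 < ρ ∧ ∀ g ∈ autGroup D, ∀ u : E, ‖u‖ < ρ → g z + fderiv ℂ g p u ∈ D := by
  obtain ⟨r, hr, hb⟩ := Metric.isOpen_iff.1 hD.isOpen p hp
  refine ⟨Real.exp (-hd D p z) * r / 2, by positivity, fun g hg u hu => ?_⟩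
  have h1 := hd_comp hD (aut_hol hg) (aut_maps hg) hp hz
  have h2 := (nr_comp hD hD.isOpen (aut_hol hg) (aut_maps hg) hp u).trans (nr_le_norm hD hr hb u)
  have ht := Real.exp_pos (-hd D (g p) (g z))
  have h3 := add_smul_mem hD (aut_maps hg hp) (aut_maps hg hz)
    (v := (((Real.exp (-hd D (g p) (g z)))⁻¹ : ℝ) : ℂ) • fderiv ℂ g p u) (by
      rw [nr_smul hD (aut_maps hg hp), norm_real, Real.norm_of_nonneg (inv_pos.2 ht).le,
        inv_mul_lt_iff₀ ht, mul_one]
      refine h2.trans_lt (lt_of_lt_of_le ?_ (Real.exp_le_exp.2 (neg_le_neg h1)))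
      rw [div_lt_iff₀ hr]
      linarith)
  rwa [smul_smul, ← ofReal_mul, mul_inv_cancel₀ ht.ne', ofReal_one, one_smul] at h3

theorem H6_bd (hD : BCD D) {p : E} (hp : p ∈ D) : ∃ C : ℝ, 0 < C ∧ ∀ g ∈ autGroup D, ∀ z ∈ D,
    ‖fderiv ℂ g.symm (g p) (g z - g p)‖ ≤ C * (2 * (1 + Real.exp (hd D p z))) := by
  obtain ⟨C, hC, h⟩ := exists_norm_le_nr hD
  refine ⟨C, hC, fun g hg z hz => (h p hp _).trans (mul_le_mul_of_nonneg_left ?_ hC.le)⟩
  have h1 := nr_comp hD hD.isOpen (aut_hol_symm hg) (aut_maps_symm hg) (aut_maps hg hp) (g z - g p)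
  rw [Equiv.symm_apply_apply] at h1
  have h2 := Real.exp_le_exp.2 (hd_comp hD (aut_hol hg) (aut_maps hg) hp hz)
  linarith [nr_sub_le hD (aut_maps hg hp) (aut_maps hg hz)]

theorem frankel (hD : BCD D) {ι : Type*} (𝒰 : Ultrafilter ι) {g : ι → Equiv.Perm E}
    (hg : ∀ i, g i ∈ autGroup D) {p : E} (hp : p ∈ D) :
    ∃ (f F : E → E) (Dh : Set E), IsOpen Dh ∧ Convex ℝ Dh ∧ DifferentiableOn ℂ f D ∧
      MapsTo f D Dh ∧ DifferentiableOn ℂ F Dh ∧ MapsTo F Dh D ∧ (∀ z ∈ D, F (f z) = z) ∧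
      (∀ y ∈ Dh, f (F y) = y) ∧
      ∀ z ∈ D, Tendsto (fun i => fderiv ℂ (g i).symm (g i p) (g i z - g i p)) 𝒰 (𝓝 (f z)) := by
  have := FiniteDimensional.complete ℂ E
  obtain ⟨C, hC, bd⟩ := H6_bd hD hp
  obtain ⟨M, hM⟩ := hD.bounded.exists_norm_le
  obtain ⟨f, f1, f2, -⟩ := ultra_montel 𝒰 hD.isOpen
    (f := fun i z => fderiv ℂ (g i).symm (g i p) (g i z - g i p)) fun z hz => by
      obtain ⟨r, hr, h⟩ := Metric.mem_nhds_iff.1 (inter_mem (hD.isOpen.mem_nhds hz)
        (((continuousOn_hd hD hp).continuousAt (hD.isOpen.mem_nhds hz)).eventually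
          (eventually_le_nhds (lt_add_one _))))
      refine ⟨r, hr, C * (2 * (1 + Real.exp (hd D p z + 1))), Eventually.of_forall fun i =>
        ⟨(fderiv ℂ (g i).symm (g i p)).differentiable.comp_differentiableOn
          (((aut_hol (hg i)).mono fun w hw => (h hw).1).sub_const _), fun w hw =>
            (bd _ (hg i) w (h hw).1).trans (mul_le_mul_of_nonneg_left ?_ hC.le)⟩⟩
      linarith [Real.exp_le_exp.2 (h hw).2]
  obtain ⟨S, hS⟩ : ∃ S : ι → Set E, ∀ i y, y ∈ S i ↔ g i p + fderiv ℂ (g i) p y ∈ D :=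
    ⟨fun i => {y | g i p + fderiv ℂ (g i) p y ∈ D}, fun _ _ => Iff.rfl⟩
  have Sc : ∀ i, Convex ℝ (S i) := fun i => by
    rw [show S i = _ from Set.ext (hS i)]
    exact (hD.convex.translate_preimage_right (g i p)).linear_preimage
      ((fderiv ℂ (g i) p).restrictScalars ℝ : E →ₗ[ℝ] E)
  have Fd : ∀ i, DifferentiableOn ℂ (fun y => (g i).symm (g i p + fderiv ℂ (g i) p y)) (S i) :=
    fun i => (aut_hol_symm (hg i)).comp
      ((fderiv ℂ (g i) p).differentiable.const_add _).differentiableOn fun y hy => (hS i y).1 hy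
  have Fm : ∀ i, MapsTo (fun y => (g i).symm (g i p + fderiv ℂ (g i) p y)) (S i) D :=
    fun i y hy => aut_maps_symm (hg i) ((hS i y).1 hy)
  have ho : IsOpen {y | ∃ δ : ℝ, 0 < δ ∧ ∀ᶠ i in (𝒰 : Filter ι), ball y δ ⊆ S i} := by
    refine Metric.isOpen_iff.2 fun y ⟨δ, hδ, h⟩ => ⟨δ, hδ, fun y' hy' => ?_⟩
    obtain ⟨δ', hδ', h'⟩ := exists_ball_subset_ball hy'
    exact ⟨δ', hδ', h.mono fun i hi => h'.trans hi⟩
  obtain ⟨F, F1, F2, -⟩ := ultra_montel 𝒰 ho
    (f := fun i y => (g i).symm (g i p + fderiv ℂ (g i) p y)) fun y ⟨δ, hδ, h⟩ =>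
      ⟨δ, hδ, M, h.mono fun i hi => ⟨(Fd i).mono hi, fun w hw => hM _ (Fm i (hi hw))⟩⟩
  have m1 : MapsTo f D {y | ∃ δ : ℝ, 0 < δ ∧ ∀ᶠ i in (𝒰 : Filter ι), ball y δ ⊆ S i} := by
    intro z hz
    obtain ⟨ρ, hρ, h⟩ := H6_rad hD hp hz
    refine ⟨ρ / 2, half_pos hρ, ((f2.tendsto_at hz).eventually
      (ball_mem_nhds _ (half_pos hρ))).mono fun i hi w hw => (hS i w).2 ?_⟩
    have h1 := h _ (hg i) (w - fderiv ℂ (g i).symm (g i p) (g i z - g i p)) (by
      rw [← dist_eq_norm]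
      linarith [dist_triangle_right w (fderiv ℂ (g i).symm (g i p) (g i z - g i p)) (f z),
        mem_ball.1 hw, mem_ball.1 hi])
    rwa [map_sub, aut_fderiv_apply_symm hD.isOpen (hg i) hp, add_sub, add_comm, add_sub_assoc,
      sub_sub_cancel, add_comm] at h1
  have m2 : MapsTo F {y | ∃ δ : ℝ, 0 < δ ∧ ∀ᶠ i in (𝒰 : Filter ι), ball y δ ⊆ S i} D := by
    intro y hy
    obtain ⟨ρ, hρ, h0⟩ := H6_rad hD hp hp
    obtain ⟨δ, hδ, h⟩ := id hy
    have hT : BCD (thickening (min δ ρ) (segment ℝ 0 y)) :=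
      ⟨isOpen_thickening, (convex_segment 0 y).thickening _,
        ((isBounded_convexHull.2 (toFinite {0, y}).isBounded).subset
          (convexHull_pair (0 : E) y).ge).thickening,
        ⟨0, self_subset_thickening (lt_min hδ hρ) _ (left_mem_segment ℝ 0 y)⟩⟩
    have hK := (isCompact_hd_ball hD hp (hd (thickening (min δ ρ) (segment ℝ 0 y)) 0 y)).isClosed
    refine (hK.mem_of_tendsto (F2.tendsto_at hy)
      (h.mono fun i hi => ⟨Fm i (hi (mem_ball_self hδ)), ?_⟩)).1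
    have hs : thickening (min δ ρ) (segment ℝ 0 y) ⊆ S i := fun w hw => by
      obtain ⟨s, hs, hw⟩ := mem_thickening_iff.1 hw
      exact H6_ball (Sc i) (fun u hu => (hS i u).2 (h0 _ (hg i) u
        ((mem_ball_zero_iff.1 hu).trans_le (min_le_right _ _))))
        ((ball_subset_ball (min_le_left _ _)).trans hi) hs hw
    have h1 := hd_comp hT ((Fd i).mono hs) ((Fm i).mono_left hs)
      (self_subset_thickening (lt_min hδ hρ) _ (left_mem_segment ℝ 0 y))
      (self_subset_thickening (lt_min hδ hρ) _ (right_mem_segment ℝ 0 y))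
    rwa [map_zero, add_zero, Equiv.symm_apply_apply] at h1
  refine ⟨f, F, _, ho, convex_iff_segment_subset.2 ?_, f1, m1, F1, m2,
    fun z hz => H6_inv ho f2 m1 F2 F1 hz fun i => ?_,
    fun y hy => H6_inv hD.isOpen F2 m2 f2 f1 hy fun i => ?_, fun z hz => f2.tendsto_at hz⟩
  · rintro x ⟨δ, hδ, h⟩ y ⟨δ', hδ', h'⟩ s hs
    exact ⟨min δ δ', lt_min hδ hδ', (h.and h').mono fun i hi => H6_ball (Sc i)
      ((ball_subset_ball (min_le_left _ _)).trans hi.1)
      ((ball_subset_ball (min_le_right _ _)).trans hi.2) hs⟩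
  · rw [aut_fderiv_apply_symm hD.isOpen (hg i) hp, add_sub_cancel, Equiv.symm_apply_apply]
  · rw [Equiv.apply_symm_apply, add_sub_cancel_left, aut_fderiv_symm_apply hD.isOpen (hg i) hp]

end Pool.Agent.P.MP_2ff09b_gt
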