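import Pool.Agent.P.MP_2ff09b_gt.H5
import Pool.Agent.P.MP_2ff09b_gt.H6

/-! CVX-H7. The bounded convex model of the fixed set; induced automorphisms.
Sketch. Take g, G from exists_face and f, F, Dh from frankel. In the limit G z - G p = dG (f z)
(aut_fderiv_apply_symm), and dG = dG ∘ π with π = dρ at p. Let m be the rank of π and A : E → ℂ^m,
A' : ℂ^m → E linear with A A' = 1, A' A = π. Put ϖ = A ∘ f and Ω = A '' Dh (open by the open mapping
theorem, convex). dG ∘ A' is injective with left inverse Λ and ϖ z = Λ (G z - G p), so Ω = ϖ '' D is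
bounded and ϖ ∘ ρ = ϖ. The kernel of π is the span of the U j p (fderiv_rho, split), of dimension r
(indep); the kernel of dϖ z = A ∘ df z has the same dimension (df z is bijective) and contains the
span of the U j z (dϖ z = dϖ (ρ z) ∘ dρ z). So ρ ∘ F has zero derivative along ker A and is constant on
the convex slices of Dh; define σ (A y) = ρ (F y); near y0 = A y1, σ y = ρ (F (y1 + A' (y - y0))).
exists_induced: u = ϖ ∘ γ is killed by X (exists_ad, span, ker), so u ∘ ρ = u (comp_rho); apply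
exists_aut to ϖ ∘ γ ∘ σ and ϖ ∘ γ.symm ∘ σ. -/

open Set MeasureTheory Complex Filter Topology Metric

noncomputable section

namespace Pool.Agent.P.MP_2ff09b_gt

variable {E : Type*} [NormedAddCommGroup E] [NormedSpace ℂ E] [FiniteDimensional ℂ E] {D : Set E}

theorem H7_split {π : E →L[ℂ] E} (hπ : ∀ v, π (π v) = π v) :
    ∃ (m : ℕ) (A : E →L[ℂ] (Fin m → ℂ)) (A' : (Fin m → ℂ) →L[ℂ] E),
      (∀ y, A (A' y) = y) ∧ ∀ v, A' (A v) = π v := by
  let e := (Module.finBasis ℂ (LinearMap.range (π : E →ₗ[ℂ] E))).equivFunL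
  refine ⟨_, e.toContinuousLinearMap.comp (π.codRestrict (LinearMap.range (π : E →ₗ[ℂ] E))
    fun v => ⟨v, rfl⟩), (LinearMap.range (π : E →ₗ[ℂ] E)).subtypeL.comp
      e.symm.toContinuousLinearMap, fun y => ?_, fun v => ?_⟩
  · obtain ⟨⟨_, v, rfl⟩, rfl⟩ := e.surjective y
    simp only [ContinuousLinearMap.comp_apply, ContinuousLinearEquiv.coe_coe,
      ContinuousLinearEquiv.symm_apply_apply]
    congr 1
    exact Subtype.ext (hπ v)
  · simp only [ContinuousLinearMap.comp_apply, ContinuousLinearEquiv.coe_coe,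
      ContinuousLinearEquiv.symm_apply_apply]
    rfl

omit [FiniteDimensional ℂ E] in
theorem H7_comp {F F' : Type*} [NormedAddCommGroup F] [NormedSpace ℂ F] [NormedAddCommGroup F']
    [NormedSpace ℂ F'] {U : Set E} (hU : IsOpen U) {a : E → F} {b : F → F'} {c : E → F'}
    (h : ∀ z ∈ U, b (a z) = c z) {z : E} (hz : z ∈ U) (ha : DifferentiableAt ℂ a z)
    (hb : DifferentiableAt ℂ b (a z)) (v : E) :
    fderiv ℂ b (a z) (fderiv ℂ a z v) = fderiv ℂ c z v := by
  have h1 : b ∘ a =ᶠ[𝓝 z] c := Filter.eventuallyEq_of_mem (hU.mem_nhds hz) h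
  rw [← h1.fderiv_eq, fderiv_comp z hb ha]
  rfl

theorem H7_const {U : Set E} (hU : IsOpen U) (hc : Convex ℝ U) {u : E → E}
    (hu : DifferentiableOn ℂ u U) {y y' : E} (hy : y ∈ U) (hy' : y' ∈ U)
    (h : ∀ w ∈ U, fderiv ℂ u w (y' - y) = 0) : u y = u y' := by
  have := FiniteDimensional.complete ℂ E
  obtain ⟨h1, h2, h3⟩ := A2_line hU hc hu y (y' - y)
  have h4 := h1.is_const_of_deriv_eq_zero h2.isPreconnected h3.differentiableOn
    (fun t ht => ?_) (x := 0) (y := 1) (by simpa using hy) (by simpa using hy')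
  · simpa using h4
  · have h5 : HasDerivAt (fun t : ℂ => y + t • (y' - y)) (y' - y) t := by
      simpa using ((hasDerivAt_id t).smul_const (y' - y)).const_add y
    exact (((hu _ ht).differentiableAt (hU.mem_nhds ht)).hasFDerivAt.comp_hasDerivAt t
      h5).deriv.trans (h _ ht)

variable {N r : ℕ} (H : HCtx D N r)

namespace HCtx

/-- The span of the lowering fields at a point. -/
def H7_L (z : E) : (Fin r → ℂ) →ₗ[ℂ] E :=
  (fldL H.W z : (Fin N → ℂ) →ₗ[ℂ] E).comp (Fintype.linearCombination ℂ H.U)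

omit [FiniteDimensional ℂ E] in
theorem H7_L_apply (z : E) (a : Fin r → ℂ) : H.H7_L z a = fld H.W (∑ j, a j • H.U j) z := by
  rw [H7_L, LinearMap.comp_apply, Fintype.linearCombination_apply]
  rfl

omit [FiniteDimensional ℂ E] in
theorem H7_rank {z : E} (hz : z ∈ D) : Module.finrank ℂ (LinearMap.range (H.H7_L z)) = r := by
  rw [LinearMap.finrank_range_of_inj ((injective_iff_map_eq_zero _).2 fun a ha =>
    H.indep z hz a (by rwa [H7_L_apply] at ha)), Module.finrank_fin_fun]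

theorem exists_model (hD : BCD D) : ∃ (m : ℕ) (Ω : Set (Fin m → ℂ)) (ϖ : E → Fin m → ℂ)
    (σ : (Fin m → ℂ) → E), H.Model Ω ϖ σ := by
  obtain ⟨𝒰, g, G, hg, hG, hGm, hlim, hlim', hGρ, hinj⟩ := H.exists_face hD
  obtain ⟨f, F, Dh, hDo, hDc, hf, hfm, hF, hFm, hFf, hfF, hflim⟩ := frankel hD 𝒰 hg H.p_mem
  obtain ⟨m, A, A', hAA, hA'A⟩ := H7_split (H.fderiv_rho_idem hD H.p_mem H.X_p)
  have dρ : ∀ z ∈ D, DifferentiableAt ℂ H.ρ z := fun z hz =>
    (H.rho.hol z hz).differentiableAt (hD.isOpen.mem_nhds hz)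
  have df : ∀ z ∈ D, DifferentiableAt ℂ f z := fun z hz =>
    (hf z hz).differentiableAt (hD.isOpen.mem_nhds hz)
  have dF : ∀ y ∈ Dh, DifferentiableAt ℂ F y := fun y hy =>
    (hF y hy).differentiableAt (hDo.mem_nhds hy)
  have h1 : ∀ z ∈ D, fderiv ℂ G H.p (f z) = G z - G H.p := fun z hz => by
    have e1 := (isBoundedBilinearMap_apply.continuous.tendsto _).comp
      (hlim'.prodMk_nhds (hflim z hz))
    refine tendsto_nhds_unique (e1.congr fun i => ?_) ((hlim z hz).sub (hlim _ H.p_mem))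
    exact aut_fderiv_apply_symm hD.isOpen (hg i) H.p_mem _
  have h2 : ∀ v, fderiv ℂ G H.p (fderiv ℂ H.ρ H.p v) = fderiv ℂ G H.p v := fun v => by
    have e1 := H7_comp hD.isOpen hGρ H.p_mem (dρ _ H.p_mem)
      ((hG _ (H.rho.maps H.p_mem)).differentiableAt (hD.isOpen.mem_nhds (H.rho.maps H.p_mem))) v
    rwa [H.rho_p] at e1
  obtain ⟨Λ, hΛ⟩ := LinearMap.exists_leftInverse_of_injective
    (((fderiv ℂ G H.p).comp A' : (Fin m → ℂ) →L[ℂ] E) : (Fin m → ℂ) →ₗ[ℂ] E)
    (LinearMap.ker_eq_bot'.2 fun y hy => by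
      rw [← hAA y, hinj (A' y) (by rw [← hA'A, hAA]) hy, map_zero])
  have h3 : ∀ z ∈ D, A (f z) = Λ (G z - G H.p) := fun z hz => by
    rw [← h1 z hz, ← h2, ← hA'A]
    exact (LinearMap.congr_fun hΛ _).symm
  have h4 : ∀ z ∈ D, A (f (H.ρ z)) = A (f z) := fun z hz => by
    rw [h3 z hz, h3 _ (H.rho.maps hz), hGρ z hz]
  have dϖ : ∀ z ∈ D, fderiv ℂ (fun z => A (f z)) z = A.comp (fderiv ℂ f z) := fun z hz =>
    (A.hasFDerivAt.comp z (df z hz).hasFDerivAt).fderiv
  have h5 : ∀ y ∈ Dh, ∀ v, fderiv ℂ f (F y) (fderiv ℂ F y v) = v := fun y hy v => by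
    rw [H7_comp hDo (c := id) hfF hy (dF y hy) (df _ (hFm hy)), fderiv_id]
    rfl
  have hsurj : ∀ z ∈ D, Function.Surjective (fderiv ℂ (fun z => A (f z)) z) := fun z hz y => by
    refine ⟨fderiv ℂ F (f z) (A' y), ?_⟩
    have e1 := h5 _ (hfm hz) (A' y)
    rw [hFf z hz] at e1
    rw [dϖ z hz, ContinuousLinearMap.comp_apply, e1, hAA]
  have hkA : LinearMap.ker (A : E →ₗ[ℂ] Fin m → ℂ) = LinearMap.range (H.H7_L H.p) := by
    ext v
    constructor
    · intro hv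
      obtain ⟨a, ha⟩ := H.split hD H.p_mem H.X_p v
      have hv' : A v = 0 := hv
      rw [← hA'A, hv', map_zero, sub_zero] at ha
      exact ⟨a, (H.H7_L_apply _ a).trans ha.symm⟩
    · rintro ⟨a, rfl⟩
      change A (H.H7_L H.p a) = 0
      rw [← hAA (A _), hA'A, H7_L_apply, H.fderiv_rho hD H.p_mem, map_zero]
  have hker : ∀ z ∈ D, LinearMap.range (H.H7_L z) =
      LinearMap.ker (fderiv ℂ (fun z => A (f z)) z : E →ₗ[ℂ] Fin m → ℂ) := fun z hz => by
    refine Submodule.eq_of_le_of_finrank_eq ?_ ?_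
    · rintro _ ⟨a, rfl⟩
      change fderiv ℂ (fun z => A (f z)) z (H.H7_L z a) = 0
      rw [← H7_comp hD.isOpen (b := fun z => A (f z)) h4 hz (dρ z hz)
        (A.differentiableAt.comp _ (df _ (H.rho.maps hz))), H7_L_apply, H.fderiv_rho hD hz,
        map_zero]
    · have e1 := LinearMap.finrank_range_add_finrank_ker (A : E →ₗ[ℂ] Fin m → ℂ)
      have e2 := LinearMap.finrank_range_add_finrank_ker
        (fderiv ℂ (fun z => A (f z)) z : E →ₗ[ℂ] Fin m → ℂ)
      rw [LinearMap.range_eq_top.2 (fun y => ⟨A' y, hAA y⟩), hkA, H.H7_rank H.p_mem] at e1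
      rw [LinearMap.range_eq_top.2 (hsurj z hz)] at e2
      rw [H.H7_rank hz]
      omega
  have hρF : DifferentiableOn ℂ (fun y => H.ρ (F y)) Dh := H.rho.hol.comp hF hFm
  have h6 : ∀ y ∈ Dh, ∀ y' ∈ Dh, A y = A y' → H.ρ (F y) = H.ρ (F y') := fun y hy y' hy' e => by
    refine H7_const hDo hDc hρF hy hy' fun w hw => ?_
    rw [← H7_comp hDo (fun _ _ => rfl) hw (dF w hw) (dρ _ (hFm hw))]
    obtain ⟨a, ha⟩ : fderiv ℂ F w (y' - y) ∈ LinearMap.range (H.H7_L (F w)) := by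
      rw [hker _ (hFm hw)]
      change fderiv ℂ (fun z => A (f z)) (F w) _ = 0
      rw [dϖ _ (hFm hw), ContinuousLinearMap.comp_apply, h5 w hw, map_sub, e, sub_self]
    rw [← ha, H7_L_apply, H.fderiv_rho hD (hFm hw)]
  have h7 : ∀ y ∈ Dh, H.ρ (F (Function.invFunOn A Dh (A y))) = H.ρ (F y) := fun y hy =>
    h6 _ (Function.invFunOn_apply_mem hy) _ hy (Function.invFunOn_apply_eq hy)
  have h8 : ∀ y ∈ Dh, ∀ᶠ x in 𝓝 (A y), y + A' (x - A y) ∈ Dh := fun y hy => by
    have e1 : Continuous fun x => y + A' (x - A y) := by fun_prop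
    exact e1.continuousAt.eventually_mem (hDo.mem_nhds (by simpa using hy))
  have h9 : ∀ y x, A (y + A' (x - A y)) = x := fun y x => by
    rw [map_add, hAA, add_sub_cancel]
  refine ⟨m, A '' Dh, fun z => A (f z), fun x => H.ρ (F (Function.invFunOn A Dh x)),
    ⟨isOpen_iff_mem_nhds.2 ?_, hDc.linear_image (A.restrictScalars ℝ).toLinearMap, ?_,
      ⟨_, _, hfm H.p_mem, rfl⟩⟩, A.differentiable.comp_differentiableOn hf,
    fun z hz => ⟨_, hfm hz, rfl⟩, ?_, ?_, ?_, fun z hz => ?_, hsurj, fun z hz v => ?_⟩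
  · rintro _ ⟨y, hy, rfl⟩
    exact mem_of_superset (h8 y hy) fun x hx => ⟨_, hx, h9 y x⟩
  · refine ((LinearMap.toContinuousLinearMap Λ).lipschitz.isBounded_image
      (hD.bounded.closure.sub (Bornology.isBounded_singleton (x := G H.p)))).subset ?_
    rintro _ ⟨y, hy, rfl⟩
    refine ⟨_, Set.sub_mem_sub (hGm (hFm hy)) rfl, ?_⟩
    rw [← hfF y hy, h3 _ (hFm hy), hfF y hy]
    rfl
  · rintro _ ⟨y, hy, rfl⟩
    have e1 : (fun x => H.ρ (F (Function.invFunOn A Dh x))) =ᶠ[𝓝 (A y)]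
        fun x => H.ρ (F (y + A' (x - A y))) := by
      filter_upwards [h8 y hy] with x hx
      rw [← h7 _ hx, h9]
    refine (DifferentiableAt.congr_of_eventuallyEq ?_ e1).differentiableWithinAt
    refine DifferentiableAt.comp (g := fun y => H.ρ (F y)) _ ?_ (by fun_prop)
    rw [sub_self, map_zero, add_zero]
    exact (hρF y hy).differentiableAt (hDo.mem_nhds hy)
  · rintro _ ⟨y, hy, rfl⟩
    exact H.rho.maps (hFm (Function.invFunOn_apply_mem hy))
  · rintro _ ⟨y, hy, rfl⟩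
    rw [h7 y hy, h4 _ (hFm hy), hfF y hy]
  · rw [h7 _ (hfm hz), hFf z hz]
  · refine (show _ ↔ v ∈ LinearMap.range (H.H7_L z) by rw [hker z hz]; rfl).trans ?_
    exact exists_congr fun a => by rw [H7_L_apply, eq_comm]

variable {H}

theorem Model.exists_induced (hD : BCD D) {m : ℕ} {Ω : Set (Fin m → ℂ)} {ϖ : E → Fin m → ℂ}
    {σ : (Fin m → ℂ) → E} (hM : H.Model Ω ϖ σ) {γ : Equiv.Perm E} (hγ : γ ∈ autGroup D) :
    ∃ γ' ∈ autGroup Ω, ∀ z ∈ D, γ' (ϖ z) = ϖ (γ z) := by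
  have key : ∀ δ ∈ autGroup D, ∀ z ∈ D, ϖ (δ (σ (ϖ z))) = ϖ (δ z) := fun δ hδ z hz => by
    rw [hM.left_inv z hz]
    refine H.comp_rho hD (u := fun z => ϖ (δ z)) (hM.hol.comp (aut_hol hδ) (aut_maps hδ))
      (fun w hw => ?_) hz
    obtain ⟨θ, hθ, -⟩ := H.toGCtx.exists_ad hD hδ
    rw [← H7_comp hD.isOpen (fun _ _ => rfl) hw (aut_differentiableAt hD.isOpen hδ hw)
      ((hM.hol _ (aut_maps hδ hw)).differentiableAt (hD.isOpen.mem_nhds (aut_maps hδ hw))),
      hθ _ w hw, hM.ker _ (aut_maps hδ hw)]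
    exact H.span _ (aut_maps hδ hw) _
  have hol : ∀ δ ∈ autGroup D, DifferentiableOn ℂ (fun y => ϖ (δ (σ y))) Ω := fun δ hδ =>
    (hM.hol.comp (aut_hol hδ) (aut_maps hδ)).comp hM.hol' hM.maps'
  have maps : ∀ δ ∈ autGroup D, MapsTo (fun y => ϖ (δ (σ y))) Ω Ω := fun δ hδ y hy =>
    hM.maps (aut_maps hδ (hM.maps' hy))
  obtain ⟨γ', h1, h2, -⟩ := Pool.Agent.P.MP_2ff09b_gt.exists_aut (hol γ hγ) (hol _ (aut_symm hγ))
    (maps γ hγ) (maps _ (aut_symm hγ))
    (fun y hy => by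
      rw [key _ (aut_symm hγ) _ (aut_maps hγ (hM.maps' hy)), Equiv.symm_apply_apply,
        hM.right_inv y hy])
    (fun y hy => by
      rw [key _ hγ _ (aut_maps_symm hγ (hM.maps' hy)), Equiv.apply_symm_apply, hM.right_inv y hy])
  exact ⟨γ', h1, fun z hz => (h2 _ (hM.maps hz)).trans (key γ hγ z hz)⟩

end HCtx

end Pool.Agent.P.MP_2ff09b_gt
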