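import Pool.Agent.P.MP_2ff09b_gt.H1

/-! CVX-H8. Lifting a field of the model to a field commuting with the Lie algebra.
Sketch. By exists_coef, X = ∑ ξ j U j with ξ : E → (Fin r → ℂ) holomorphic. From [U j, X] = i k j U j,
[U j, U i] = 0 and the Leibniz rule, dξ (U j) = i k j e j. So Ξ = (ξ, ϖ) has bijective derivative at
each point (ker, surj); exists_coef gives Yt with dΞ Yt = (0, Y ∘ ϖ). With
VectorField.fderiv_apply_lieBracket, dΞ [Yt, U j] = 0, so [Yt, U j] = 0. On the fixed set ξ ∘ σ = 0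
(indep, rho.zero, left_inv) and ϖ ∘ σ = id, so Yt (σ y) = dσ (Y y). Claim: if V vanishes on the zero
set of X and [Yt, [U j, V]] = 0 for all j then [Yt, V] = 0. Indeed B = [Yt, V] has dϖ B = 0, commutes
with the U j (Jacobi, leibniz_identity_lieBracket), so a = dξ B is killed by all U j, hence by X
(span), so a = a ∘ ρ (comp_rho), and B vanishes at q = σ y because V ∘ σ = 0. Apply the claim to the
kernel of ad X (vanK, br_K), then to star (U j) (vanP, br_star), and use decomp. -/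

open Set MeasureTheory Complex Filter Topology Metric

noncomputable section

namespace Pool.Agent.P.MP_2ff09b_gt

variable {E : Type*} [NormedAddCommGroup E] [NormedSpace ℂ E] [FiniteDimensional ℂ E] {D : Set E}

variable {N r : ℕ} (H : HCtx D N r)

namespace HCtx


variable {H}

omit [FiniteDimensional ℂ E] in
theorem H8_clm {P F : Type*} [NormedAddCommGroup P] [NormedSpace ℂ P] [FiniteDimensional ℂ P]
    [NormedAddCommGroup F] [NormedSpace ℂ F] {f : E → P →L[ℂ] F}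
    (hf : ∀ v, DifferentiableOn ℂ (fun z => f z v) D) : DifferentiableOn ℂ f D := by
  have hd : Module.finrank ℂ P = Module.finrank ℂ (Fin (Module.finrank ℂ P) → ℂ) :=
    (Module.finrank_fin_fun ℂ).symm
  let e₁ := ContinuousLinearEquiv.ofFinrankEq hd
  let e₂ := (e₁.arrowCongr (1 : F ≃L[ℂ] F)).trans
    (ContinuousLinearEquiv.piRing (Fin (Module.finrank ℂ P)))
  rw [← Function.id_comp f, ← e₂.symm_comp_self]
  exact e₂.symm.differentiable.comp_differentiableOn (differentiableOn_pi.mpr fun i => hf _)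

/-- The combination of the `U j` with coefficients `a`. -/
def H8_T (H : HCtx D N r) : (Fin r → ℂ) →L[ℂ] (Fin N → ℂ) :=
  ∑ j, (ContinuousLinearMap.proj j : (Fin r → ℂ) →L[ℂ] ℂ).smulRight (H.U j)

omit [FiniteDimensional ℂ E] in
theorem H8_T_apply (a : Fin r → ℂ) : H8_T H a = ∑ j, a j • H.U j := by
  simp [H8_T]

/-- The frame of the fibres. -/
def H8_A (H : HCtx D N r) (z : E) : (Fin r → ℂ) →L[ℂ] E := (fldL H.W z).comp (H8_T H)

omit [FiniteDimensional ℂ E] in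
theorem H8_A_apply (z : E) (a : Fin r → ℂ) : H8_A H z a = fld H.W (H8_T H a) z := rfl

omit [FiniteDimensional ℂ E] in
theorem H8_A_hol : DifferentiableOn ℂ (H8_A H) D :=
  H8_clm fun a => fld_hol H.hol (H8_T H a)

omit [FiniteDimensional ℂ E] in
theorem H8_A_inj {z : E} (hz : z ∈ D) : Function.Injective (H8_A H z) :=
  (injective_iff_map_eq_zero _).2 fun a ha => H.indep z hz a (by
    rwa [H8_A_apply, H8_T_apply] at ha)

omit [FiniteDimensional ℂ E] in
theorem H8_span {z : E} (hz : z ∈ D) (V : Fin N → ℂ) : ∃ a, H8_A H z a = fld H.W V z := by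
  obtain ⟨a, ha⟩ := H.span z hz V
  exact ⟨a, by rw [H8_A_apply, H8_T_apply, ha]⟩

omit [FiniteDimensional ℂ E] in
theorem H8_br_T (a b : Fin r → ℂ) : H.br (H8_T H a) (H8_T H b) = 0 := by
  simp [H8_T_apply, map_sum, H.grading.comm]

omit [FiniteDimensional ℂ E] in
theorem H8_br_X (a : Fin r → ℂ) :
    H.br (H8_T H a) H.X = H8_T H fun j => I * H.k j * a j := by
  rw [H.anti, H8_T_apply, H8_T_apply, map_sum, ← Finset.sum_neg_distrib]
  refine Finset.sum_congr rfl fun j _ => ?_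
  rw [map_smul, H.grading.wt, smul_smul, ← neg_smul]
  congr 1
  ring

omit [FiniteDimensional ℂ E] in
theorem H8_leib (hD : IsOpen D) {c : E → Fin r → ℂ} (hc : DifferentiableOn ℂ c D) {B : E → E}
    (hB : ∀ w ∈ D, H8_A H w (c w) = B w) {z : E} (hz : z ∈ D) (a : Fin r → ℂ) :
    VectorField.lieBracket ℂ (fld H.W (H8_T H a)) B z =
      H8_A H z (fderiv ℂ c z (H8_A H z a)) := by
  have hn := hD.mem_nhds hz
  have hA := (H8_A_hol (H := H)).differentiableAt hn
  have e : B =ᶠ[𝓝 z] fun w => H8_A H w (c w) := mem_of_superset hn fun w hw => (hB w hw).symm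
  have h1 := H.br_eq (H8_T H a) (H8_T H (c z)) z hz
  rw [H8_br_T, fld_zero, VectorField.lieBracket] at h1
  have h2 : fderiv ℂ (fld H.W (H8_T H (c z))) z = (fderiv ℂ (H8_A H) z).flip (c z) := by
    have := (hA.hasFDerivAt.clm_apply (hasFDerivAt_const (c z) z)).fderiv
    exact this.trans (by simp)
  rw [VectorField.lieBracket, e.fderiv_eq, fderiv_clm_apply hA (hc.differentiableAt hn),
    ← hB z hz]
  rw [h2] at h1
  simp only [add_apply, ContinuousLinearMap.comp_apply, H8_A_apply, Pi.zero_apply] at h1 ⊢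
  rw [add_sub_assoc, h1, add_zero]

theorem H8_fderiv_lb {F : Type*} [NormedAddCommGroup F] [NormedSpace ℂ F] [CompleteSpace F]
    (hD : IsOpen D) {f : E → F} (hf : DifferentiableOn ℂ f D) {V W : E → E}
    (hV : DifferentiableOn ℂ V D) (hW : DifferentiableOn ℂ W D) {c : F}
    (h1 : ∀ w ∈ D, fderiv ℂ f w (W w) = c) {g : E → F} (h2 : ∀ w ∈ D, fderiv ℂ f w (V w) = g w)
    {z : E} (hz : z ∈ D) (h3 : fderiv ℂ g z (W z) = 0) :
    fderiv ℂ f z (VectorField.lieBracket ℂ V W z) = 0 := by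
  have hn := hD.mem_nhds hz
  have e1 : (fun w => fderiv ℂ f w (W w)) =ᶠ[𝓝 z] fun _ => c := mem_of_superset hn h1
  have e2 : (fun w => fderiv ℂ f w (V w)) =ᶠ[𝓝 z] g := mem_of_superset hn h2
  rw [VectorField.fderiv_apply_lieBracket ((contDiffOn_of_hol hD hf 2).contDiffAt hn) (by simp)
    (hW.differentiableAt hn) (hV.differentiableAt hn), e1.fderiv_eq, e2.fderiv_eq, h3]
  simp

theorem Model.exists_lift (hD : BCD D) {m : ℕ} {Ω : Set (Fin m → ℂ)} {ϖ : E → Fin m → ℂ}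
    {σ : (Fin m → ℂ) → E} (hM : H.Model Ω ϖ σ) {Y : (Fin m → ℂ) → Fin m → ℂ}
    (hY : DifferentiableOn ℂ Y Ω) :
    ∃ Yt : E → E, DifferentiableOn ℂ Yt D ∧ (∀ z ∈ D, fderiv ℂ ϖ z (Yt z) = Y (ϖ z)) ∧
      (∀ V, ∀ z ∈ D, VectorField.lieBracket ℂ (fld H.W V) Yt z = 0) ∧
      ∀ y ∈ Ω, Yt (σ y) = fderiv ℂ σ y (Y y) := by
  have := FiniteDimensional.complete ℂ E
  have hO := hD.isOpen
  have hΩ := hM.bcd.isOpen
  have hF : ∀ V, DifferentiableOn ℂ (fld H.W V) D := fld_hol H.hol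
  obtain ⟨ξ, hξ, hξX⟩ := exists_coef hO (H8_A_hol (H := H)) (hF H.X) (fun z hz => H8_A_inj hz)
    fun z hz => H8_span hz H.X
  have hk : ∀ j, I * (H.k j : ℂ) ≠ 0 := fun j =>
    mul_ne_zero I_ne_zero (ofReal_ne_zero.2 (H.grading.k_pos j).ne')
  have dξ : ∀ z ∈ D, ∀ a, fderiv ℂ ξ z (H8_A H z a) = fun j => I * H.k j * a j := fun z hz a => by
    refine H8_A_inj (H := H) hz ?_
    rw [← H8_leib hO hξ hξX hz a, H.br_eq _ _ z hz, H8_br_X, H8_A_apply]
  have dϖ : ∀ z ∈ D, ∀ v, fderiv ℂ ϖ z v = 0 ↔ ∃ a, H8_A H z a = v := fun z hz v => by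
    rw [hM.ker z hz]
    exact exists_congr fun a => by rw [H8_A_apply, H8_T_apply, eq_comm]
  have dϖV : ∀ V, ∀ z ∈ D, fderiv ℂ ϖ z (fld H.W V z) = 0 := fun V z hz =>
    (dϖ z hz _).2 (H8_span hz V)
  have hinj : ∀ z ∈ D, ∀ v, fderiv ℂ ξ z v = 0 → fderiv ℂ ϖ z v = 0 → v = 0 := by
    intro z hz v h1 h2
    obtain ⟨a, rfl⟩ := (dϖ z hz v).1 h2
    rw [dξ z hz] at h1
    have : a = 0 := funext fun j => (mul_eq_zero.1 (congrFun h1 j)).resolve_left (hk j)
    rw [this, map_zero]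
  have hYϖ : DifferentiableOn ℂ (fun z => Y (ϖ z)) D := hY.comp hM.hol hM.maps
  obtain ⟨Yt, hYt, hYt'⟩ := exists_coef (F := (Fin r → ℂ) × (Fin m → ℂ)) hO
    (A := fun z => (fderiv ℂ ξ z).prod (fderiv ℂ ϖ z)) (X := fun z => (0, Y (ϖ z)))
    (H8_clm fun v =>
      ((fderiv_hol hO hξ).clm_apply (differentiableOn_const v)).prodMk
        ((fderiv_hol hO hM.hol).clm_apply (differentiableOn_const v)))
    ((differentiableOn_const 0).prodMk hYϖ)
    (fun z hz => (injective_iff_map_eq_zero _).2 fun v hv =>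
      hinj z hz v (congrArg Prod.fst hv) (congrArg Prod.snd hv))
    (fun z hz => by
      obtain ⟨v, hv⟩ := hM.surj z hz (Y (ϖ z))
      refine ⟨v - H8_A H z fun j => fderiv ℂ ξ z v j / (I * H.k j), Prod.ext ?_ ?_⟩
      · change fderiv ℂ ξ z _ = 0
        rw [map_sub, dξ z hz]
        funext j
        rw [Pi.sub_apply, mul_div_cancel₀ _ (hk j), sub_self, Pi.zero_apply]
      · change fderiv ℂ ϖ z _ = Y (ϖ z)
        rw [map_sub, hv, (dϖ z hz _).2 ⟨_, rfl⟩, sub_zero])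
  have y1 : ∀ z ∈ D, fderiv ℂ ξ z (Yt z) = 0 := fun z hz => congrArg Prod.fst (hYt' z hz)
  have y2 : ∀ z ∈ D, fderiv ℂ ϖ z (Yt z) = Y (ϖ z) := fun z hz => congrArg Prod.snd (hYt' z hz)
  have dϖB : ∀ V, ∀ z ∈ D, fderiv ℂ ϖ z (VectorField.lieBracket ℂ Yt (fld H.W V) z) = 0 := by
    intro V z hz
    refine H8_fderiv_lb hO hM.hol hYt (hF V) (dϖV V) y2 hz ?_
    have := fderiv_comp z (hY.differentiableAt (hΩ.mem_nhds (hM.maps hz)))
      (hM.hol.differentiableAt (hO.mem_nhds hz))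
    change fderiv ℂ (Y ∘ ϖ) z _ = 0
    rw [this, ContinuousLinearMap.comp_apply, dϖV V z hz, map_zero]
  have hU : ∀ a, ∀ z ∈ D, VectorField.lieBracket ℂ Yt (fld H.W (H8_T H a)) z = 0 := by
    intro a z hz
    refine hinj z hz _ ?_ (dϖB _ z hz)
    exact H8_fderiv_lb hO hξ hYt (hF _) (fun w hw => dξ w hw a) y1 hz (by simp)
  have hσX : ∀ y ∈ Ω, fld H.W H.X (σ y) = 0 := fun y hy => by
    have h1 := hM.left_inv _ (hM.maps' hy)
    rw [hM.right_inv y hy] at h1
    rw [h1]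
    exact H.rho.zero _ (hM.maps' hy)
  have hσ : ∀ y ∈ Ω, Yt (σ y) = fderiv ℂ σ y (Y y) := by
    intro y hy
    have hq := hM.maps' hy
    have hσd := hM.hol'.differentiableAt (hΩ.mem_nhds hy)
    refine sub_eq_zero.1 (hinj _ hq _ ?_ ?_)
    · have e : ξ ∘ σ =ᶠ[𝓝 y] fun _ => 0 := mem_of_superset (hΩ.mem_nhds hy) fun w hw =>
        H8_A_inj (H := H) (hM.maps' hw) (by rw [map_zero]; exact (hξX _ (hM.maps' hw)).trans (hσX w hw))
      have h1 := fderiv_comp y (hξ.differentiableAt (hO.mem_nhds hq)) hσd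
      rw [e.fderiv_eq] at h1
      rw [map_sub, y1 _ hq, ← ContinuousLinearMap.comp_apply, ← h1]
      simp
    · have e : ϖ ∘ σ =ᶠ[𝓝 y] id := mem_of_superset (hΩ.mem_nhds hy) hM.right_inv
      have h1 := fderiv_comp y (hM.hol.differentiableAt (hO.mem_nhds hq)) hσd
      rw [e.fderiv_eq] at h1
      rw [map_sub, y2 _ hq, hM.right_inv y hy, ← ContinuousLinearMap.comp_apply, ← h1]
      simp
  have hWL : DifferentiableOn ℂ (fldL H.W) D := H8_clm hF
  obtain ⟨Λ, hΛ⟩ : ∃ Λ : E → (Fin N → ℂ) →L[ℂ] E, ∀ z ∈ D, ∀ V,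
      VectorField.lieBracket ℂ Yt (fld H.W V) z = Λ z V := by
    refine ⟨fun z => fderiv ℂ (fldL H.W) z (Yt z) - (fderiv ℂ Yt z).comp (fldL H.W z),
      fun z hz V => ?_⟩
    have h2 : fderiv ℂ (fld H.W V) z = (fderiv ℂ (fldL H.W) z).flip V := by
      have := ((hWL.differentiableAt (hO.mem_nhds hz)).hasFDerivAt.clm_apply
        (hasFDerivAt_const V z)).fderiv
      exact this.trans (by simp)
    rw [VectorField.lieBracket, h2]
    rfl
  have hU' : ∀ a : Fin r → ℂ, ∀ z ∈ D, Λ z (∑ j, a j • H.U j) = 0 := fun a z hz => by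
    rw [← H8_T_apply, ← hΛ z hz, hU a z hz]
  have claim : ∀ V, (∀ q ∈ D, fld H.W H.X q = 0 → fld H.W V q = 0) →
      (∀ j, ∀ z ∈ D, Λ z (H.br (H.U j) V) = 0) → ∀ z ∈ D, Λ z V = 0 := by
    intro V hV0 hV1
    have c2 : ∀ {Z : E → E}, DifferentiableOn ℂ Z D → ∀ z ∈ D, ContDiffAt ℂ 2 Z z :=
      fun hZ z hz => (contDiffOn_of_hol hO hZ 2).contDiffAt (hO.mem_nhds hz)
    have hB : DifferentiableOn ℂ (VectorField.lieBracket ℂ Yt (fld H.W V)) D :=
      ((fderiv_hol hO (hF V)).clm_apply hYt).sub ((fderiv_hol hO hYt).clm_apply (hF V))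
    obtain ⟨c, hc, hcB⟩ := exists_coef hO (H8_A_hol (H := H)) hB (fun z hz => H8_A_inj hz)
      fun z hz => (dϖ z hz _).1 (dϖB V z hz)
    have dc : ∀ z ∈ D, ∀ a, fderiv ℂ c z (H8_A H z a) = 0 := by
      intro z hz a
      refine H8_A_inj (H := H) hz ?_
      have e1 : VectorField.lieBracket ℂ (fld H.W (H8_T H a)) Yt =ᶠ[𝓝 z] 0 :=
        mem_of_superset (hO.mem_nhds hz) fun w hw => by
          change _ = (0 : E)
          rw [VectorField.lieBracket_swap, hU a w hw, neg_zero]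
      have e2 : VectorField.lieBracket ℂ (fld H.W (H8_T H a)) (fld H.W V) =ᶠ[𝓝 z]
          fld H.W (H.br (H8_T H a) V) := mem_of_superset (hO.mem_nhds hz) (H.br_eq _ _)
      rw [← H8_leib hO hc hcB hz a, map_zero,
        VectorField.leibniz_identity_lieBracket (n := 2) (by simp) (c2 (hF _) z hz) (c2 hYt z hz)
          (c2 (hF V) z hz), e1.lieBracket_vectorField_eq (EventuallyEq.refl _ _),
        (EventuallyEq.refl _ Yt).lieBracket_vectorField_eq e2, hΛ z hz, H8_T_apply]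
      simp [map_sum, hV1 _ z hz]
    intro z hz
    have hy := hM.maps hz
    have hq := hM.maps' hy
    have h1 := H.comp_rho hD hc (fun w hw => by rw [← hξX w hw, dc w hw]) hz
    have h2 : VectorField.lieBracket ℂ Yt (fld H.W V) (σ (ϖ z)) = 0 := by
      have e : fld H.W V ∘ σ =ᶠ[𝓝 (ϖ z)] fun _ => 0 := mem_of_superset (hΩ.mem_nhds hy)
        fun w hw => hV0 _ (hM.maps' hw) (hσX w hw)
      have h3 := fderiv_comp (ϖ z) ((hF V).differentiableAt (hO.mem_nhds hq))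
        (hM.hol'.differentiableAt (hΩ.mem_nhds hy))
      rw [e.fderiv_eq] at h3
      rw [VectorField.lieBracket, hV0 _ hq (hσX _ hy), hσ _ hy, ← ContinuousLinearMap.comp_apply,
        ← h3]
      simp
    have h4 : c (σ (ϖ z)) = 0 := H8_A_inj (H := H) hq (by rw [hcB _ hq, h2, map_zero])
    rw [hM.left_inv z hz, h1] at h4
    rw [← hΛ z hz, ← hcB z hz, h4, map_zero]
  have hK : ∀ K, H.br H.X K = 0 → ∀ z ∈ D, Λ z K = 0 := fun K hK =>
    claim K (fun q hq h0 => H.vanK q hq h0 K hK) fun j z hz => by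
      obtain ⟨a, ha⟩ := H.grading.br_K K hK j
      rw [ha, hU' a z hz]
  have hP : ∀ j, ∀ z ∈ D, Λ z (star (H.U j)) = 0 := fun j =>
    claim _ (fun q hq h0 => H.vanP q hq h0 j) fun i => hK _ (H.grading.br_star i j)
  refine ⟨Yt, hYt, y2, fun V z hz => ?_, hσ⟩
  obtain ⟨a, b, K, h1, h2⟩ := H.grading.decomp V
  rw [VectorField.lieBracket_swap, hΛ z hz, h2, map_add, map_add, hU' a z hz, hK K h1 z hz]
  simp [map_sum, hP _ z hz]

end HCtx

end Pool.Agent.P.MP_2ff09b_gt
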