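import Pool.Agent.P.MP_2ff09b_gt.H1

/-! CVX-H9. The lifted field is semicomplete.
Sketch. Let A be the set of z in D of the form h (ρ q) with q in D and h in autGroup D satisfying
dh (Yt w) = Yt (h w) and ρ (h w) = ρ w on D. A contains p. It is closed in D: if z i = h i (ρ (q i))
tends to z then ρ (q i) = ρ (z i) tends to ρ z, exists_limit_aut gives h and both identities pass to
the limit. It is open: nhds_zero at ρ q, and h * ex (fld Y) has both properties
(fderiv_ex_of_comm, rho_ex). So A = D. For z = h (ρ q) = h (σ (ϖ q)) map the trajectory of Y from ϖ q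
by σ and then by h (HasSol.map). -/

open Set MeasureTheory Complex Filter Topology Metric

noncomputable section

namespace Pool.Agent.P.MP_2ff09b_gt

variable {E : Type*} [NormedAddCommGroup E] [NormedSpace ℂ E] [FiniteDimensional ℂ E] {D : Set E}

variable {N r : ℕ} (H : HCtx D N r)

namespace HCtx


/-- Automorphisms preserving the field `Yt` and the retraction. -/
def H9_Good (Yt : E → E) (h : Equiv.Perm E) : Prop :=
  h ∈ autGroup D ∧ (∀ w ∈ D, fderiv ℂ h w (Yt w) = Yt (h w)) ∧ ∀ w ∈ D, H.ρ (h w) = H.ρ w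

variable {H}

omit [FiniteDimensional ℂ E] in
theorem H9_one (Yt : E → E) : H.H9_Good Yt 1 :=
  ⟨one_mem _, fun w _ => by simp [Equiv.Perm.coe_one], fun _ _ => rfl⟩

omit [FiniteDimensional ℂ E] in
theorem H9_mul (hD : IsOpen D) {Yt : E → E} {h k : Equiv.Perm E} (hh : H.H9_Good Yt h)
    (hk : H.H9_Good Yt k) : H.H9_Good Yt (h * k) := by
  refine ⟨mul_mem hh.1 hk.1, fun w hw => ?_, fun w hw => ?_⟩
  · have hw' := aut_maps hk.1 hw
    rw [Equiv.Perm.coe_mul, fderiv_comp w (aut_differentiableAt hD hh.1 hw')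
      (aut_differentiableAt hD hk.1 hw), ContinuousLinearMap.comp_apply, hk.2.1 w hw,
      hh.2.1 _ hw']
    rfl
  · rw [Equiv.Perm.mul_apply, hh.2.2 _ (aut_maps hk.1 hw), hk.2.2 w hw]

theorem H9_all (hD : BCD D) {Yt : E → E} (h1 : DifferentiableOn ℂ Yt D)
    (h2 : ∀ V, ∀ z ∈ D, VectorField.lieBracket ℂ (fld H.W V) Yt z = 0) :
    D ⊆ {z | z ∈ D ∧ ∃ h, H.H9_Good Yt h ∧ h (H.ρ z) = z} := by
  have hO := hD.isOpen
  have hρ : ∀ z ∈ D, ContinuousAt H.ρ z := fun z hz =>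
    (H.rho.hol.differentiableAt (hO.mem_nhds hz)).continuousAt
  refine hD.convex.isPreconnected.subset_of_closure_inter_subset ?_
    ⟨H.p, H.p_mem, H.p_mem, 1, H9_one Yt, H.rho_p⟩ ?_
  · refine isOpen_iff_mem_nhds.2 ?_
    rintro z ⟨hz, h, hh, e⟩
    have e' : h.symm z = H.ρ z := by rw [Equiv.symm_apply_eq, e]
    have c := (aut_differentiableAt hO (aut_symm hh.1) hz).continuousAt
    have n := H.nhds_zero hD (H.rho.maps hz) (H.rho.zero z hz)
    rw [← e'] at n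
    filter_upwards [c.preimage_mem_nhds n, hO.mem_nhds hz] with w hw hwD
    obtain ⟨Y, hY, z', hz', e1⟩ := hw
    have s1 := H.complete Y hY
    have s2 : SemiC D (-fld H.W Y) := by
      rw [← fld_neg]
      exact H.complete _ (by rw [star_neg, hY])
    obtain ⟨φ, hφ, e2, -⟩ := exists_aut_ex hO s1 s2
    have g : H.H9_Good Yt φ := by
      refine ⟨hφ, fun x hx => ?_, fun x hx => ?_⟩ <;> rw [e2]
      · exact fderiv_ex_of_comm hO s1.1 h1 (h2 Y) (s1.2 x hx)
      · exact H.rho_ex hD (s1.2 x hx)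
    have g' := H9_mul hO hh g
    have e3 : (h * φ) (H.ρ z') = w := by
      rw [Equiv.Perm.mul_apply, e2, ← e1, Equiv.apply_symm_apply]
    have e4 : H.ρ w = H.ρ z' := by
      rw [← e3, g'.2.2 _ (H.rho.maps hz'), H.rho_rho hz']
    exact ⟨hwD, h * φ, g', by rw [e4, e3]⟩
  · rintro z ⟨hc, hz⟩
    set A := {z | z ∈ D ∧ ∃ h, H.H9_Good Yt h ∧ h (H.ρ z) = z} with hA
    obtain ⟨𝒰, hU1, hU2⟩ := mem_closure_iff_ultrafilter.1 hc
    have ch : ∀ w, ∃ h, H.H9_Good Yt h ∧ (w ∈ A → h (H.ρ w) = w) := fun w => by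
      by_cases hw : w ∈ A
      · obtain ⟨-, h, a, b⟩ := hw
        exact ⟨h, a, fun _ => b⟩
      · exact ⟨1, H9_one Yt, fun h => absurd h hw⟩
    choose h hg he using ch
    have := FiniteDimensional.proper ℂ E
    obtain ⟨K, hK, hKD, hKc⟩ := local_compact_nhds (hO.mem_nhds (H.rho.maps hz))
    obtain ⟨K', hK', hKD', hKc'⟩ := local_compact_nhds (hO.mem_nhds hz)
    have t1 : Tendsto H.ρ (𝒰 : Filter E) (𝓝 (H.ρ z)) := (hρ z hz).tendsto.mono_left hU2
    have ev : ∀ᶠ w in (𝒰 : Filter E), h w (H.ρ w) = w := mem_of_superset hU1 he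
    obtain ⟨g, g1, g2, g3⟩ := exists_limit_aut hD 𝒰 (fun w => (hg w).1) hKc hKD hKc' hKD'
      (x := H.ρ) (by
        filter_upwards [t1.eventually_mem hK, hU2 hK', ev] with w a b c
        exact ⟨a, by rwa [c]⟩)
    refine ⟨hz, g, ⟨g1, fun w hw => ?_, fun w hw => ?_⟩, ?_⟩
    · have a : Tendsto (fun i => fderiv ℂ (h i) w (Yt w)) 𝒰 (𝓝 (fderiv ℂ g w (Yt w))) :=
        ((ContinuousLinearMap.apply ℂ E (Yt w)).continuous.tendsto _).comp (g3 w hw)
      have b : Tendsto (fun i => Yt (h i w)) 𝒰 (𝓝 (Yt (g w))) :=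
        (h1.differentiableAt (hO.mem_nhds (aut_maps g1 hw))).continuousAt.tendsto.comp
          (g2.tendsto_at hw)
      simp only [fun i => (hg i).2.1 w hw] at a
      exact tendsto_nhds_unique a b
    · have b : Tendsto (fun i => H.ρ (h i w)) 𝒰 (𝓝 (H.ρ (g w))) :=
        (hρ _ (aut_maps g1 hw)).tendsto.comp (g2.tendsto_at hw)
      simp only [fun i => (hg i).2.2 w hw] at b
      exact tendsto_nhds_unique b tendsto_const_nhds
    · have a := g2.tendsto_comp ((aut_hol g1).continuousOn _ (H.rho.maps hz)) (H.rho.maps hz)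
        (g := H.ρ) (by rwa [hO.nhdsWithin_eq (H.rho.maps hz)])
      exact tendsto_nhds_unique (a.congr' ev) hU2

theorem Model.semiC_lift (hD : BCD D) {m : ℕ} {Ω : Set (Fin m → ℂ)} {ϖ : E → Fin m → ℂ}
    {σ : (Fin m → ℂ) → E} (hM : H.Model Ω ϖ σ) {Y : (Fin m → ℂ) → Fin m → ℂ} (hY : SemiC Ω Y)
    {Yt : E → E} (h1 : DifferentiableOn ℂ Yt D)
    (h2 : ∀ V, ∀ z ∈ D, VectorField.lieBracket ℂ (fld H.W V) Yt z = 0)
    (h3 : ∀ y ∈ Ω, Yt (σ y) = fderiv ℂ σ y (Y y)) : SemiC D Yt := by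
  refine ⟨h1, fun z hz => ?_⟩
  obtain ⟨-, h, hh, e⟩ := H9_all hD h1 h2 hz
  have a := ((hY.2 _ (hM.maps hz)).map hM.bcd.isOpen hD.isOpen hM.hol' hM.maps' hY.1 h1
    fun y hy => (h3 y hy).symm).1
  have b := (a.map hD.isOpen hD.isOpen (aut_hol hh.1) (aut_maps hh.1) h1 h1 hh.2.1).1
  rwa [hM.left_inv z hz, e] at b

end HCtx

end Pool.Agent.P.MP_2ff09b_gt
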