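import Pool.Agent.P.MP_2ff09b_gt.K1

/-! CVX-K2. Derivatives of the characteristic function.
Sketch. Differentiate under the integral sign (hasFDerivAt_integral_of_dominated_of_fderiv_le):
near η0 in dualInt C one has η ⬝ V >= (c/2) ‖V‖ on C, so the derivatives are dominated by moments
for the parameter η0/2 or a small multiple of η0. Continuity of the second moments:
continuousAt_of_dominated. The function cZ is C¹ on the open set dualInt C since its derivative
-cA is continuous (contDiffOn_succ_iff_fderiv_of_isOpen or contDiffAt_one_iff). -/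

open Set MeasureTheory Complex Filter Topology Metric

noncomputable section

namespace Pool.Agent.P.MP_2ff09b_gt

variable {N : ℕ} {C : Set (Fin N → ℝ)}

theorem K2_dot (N : ℕ) : ∃ D : (Fin N → ℝ) →L[ℝ] (Fin N → ℝ) →L[ℝ] ℝ, ∀ V η, D V η = η ⬝ᵥ V :=
  ⟨∑ j, (ContinuousLinearMap.proj j).smulRight (ContinuousLinearMap.proj j), fun V η => by
    simp [dotProduct, mul_comm]⟩

theorem K2_deriv (hC : PCone C) {η : Fin N → ℝ} (hη : η ∈ dualInt C) {g : (Fin N → ℝ) → ℝ}
    (hg : Continuous g) (k : ℕ) (hk : ∀ V, ‖g V‖ ≤ ‖V‖ ^ k) :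
    ∃ L : (Fin N → ℝ) →L[ℝ] ℝ, HasFDerivAt (fun η => ∫ V in C, g V * Real.exp (-(η ⬝ᵥ V))) L η ∧
      ∀ δ, L δ = -∫ V in C, g V * (δ ⬝ᵥ V) * Real.exp (-(η ⬝ᵥ V)) := by
  obtain ⟨D, hD⟩ := K2_dot N
  obtain ⟨c, hc, h⟩ := hC.exists_pos hη
  have hm := ae_restrict_mem (μ := volume) hC.closed.measurableSet
  have hr : 0 < c / (2 * (‖D‖ + 1)) := by positivity
  have hb := (hC.integrableOn_moment (smul_mem_dualInt hη one_half_pos) (k + 1)).const_mul ‖D‖
  have c1 : ∀ x : Fin N → ℝ, Continuous fun V => g V * Real.exp (-(x ⬝ᵥ V)) := fun x => by fun_prop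
  have c2 : Continuous fun V => (g V * Real.exp (-(η ⬝ᵥ V))) • -D V := (c1 η).smul D.continuous.neg
  have bd : ∀ᵐ V ∂volume.restrict C, ∀ x ∈ ball η (c / (2 * (‖D‖ + 1))),
      ‖(g V * Real.exp (-(x ⬝ᵥ V))) • -D V‖ ≤
        ‖D‖ * (‖V‖ ^ (k + 1) * Real.exp (-(((1 / 2 : ℝ) • η) ⬝ᵥ V))) := by
    filter_upwards [hm] with V hV x hx
    have e1 : ‖D V (x - η)‖ ≤ c / 2 * ‖V‖ := by
      refine (D.le_opNorm₂ V (x - η)).trans ?_
      have e2 := mem_ball_iff_norm.1 hx
      rw [lt_div_iff₀ (by positivity)] at e2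
      have : ‖D‖ * ‖x - η‖ ≤ c / 2 := by nlinarith [norm_nonneg (x - η)]
      nlinarith [norm_nonneg V]
    rw [hD, sub_dotProduct, Real.norm_eq_abs, abs_le] at e1
    have e3 : Real.exp (-(x ⬝ᵥ V)) ≤ Real.exp (-(((1 / 2 : ℝ) • η) ⬝ᵥ V)) := by
      rw [Real.exp_le_exp, smul_dotProduct, smul_eq_mul]
      linarith [h V hV, e1.1]
    rw [norm_smul, norm_mul, norm_neg, Real.norm_of_nonneg (Real.exp_pos _).le]
    calc _ ≤ ‖V‖ ^ k * Real.exp (-(((1 / 2 : ℝ) • η) ⬝ᵥ V)) * (‖D‖ * ‖V‖) := by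
          gcongr
          exacts [hk V, D.le_opNorm V]
      _ = _ := by ring
  refine ⟨_, hasFDerivAt_integral_of_dominated_of_fderiv_le
    (F' := fun x V => (g V * Real.exp (-(x ⬝ᵥ V))) • -D V) (ball_mem_nhds η hr)
    (Eventually.of_forall fun x => (c1 x).aestronglyMeasurable)
    ((hC.integrableOn_moment hη k).mono' (c1 η).aestronglyMeasurable
      (Eventually.of_forall fun V => ?_)) c2.aestronglyMeasurable bd hb
    (Eventually.of_forall fun V x _ => ?_), fun δ => ?_⟩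
  · rw [norm_mul, Real.norm_of_nonneg (Real.exp_pos _).le]
    exact mul_le_mul_of_nonneg_right (hk V) (Real.exp_pos _).le
  · have := ((D V).hasFDerivAt (x := x)).neg.exp.const_mul (g V)
    simpa only [Pi.neg_apply, hD, smul_smul] using this
  · rw [ContinuousLinearMap.integral_apply (hb.mono' c2.aestronglyMeasurable
      (bd.mono fun V hV => hV η (mem_ball_self hr))), ← integral_neg]
    refine integral_congr_ae (Eventually.of_forall fun V => ?_)
    simp only [smul_apply, neg_apply, hD, smul_eq_mul]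
    ring

theorem K2_cphi (hC : PCone C) {η : Fin N → ℝ} (hη : η ∈ dualInt C) :
    ∃ L : (Fin N → ℝ) →L[ℝ] ℝ, HasFDerivAt (cphi C) L η ∧
      ∀ δ, L δ = -(δ ⬝ᵥ cZ C η) * cphi C η := by
  obtain ⟨L, h1, h2⟩ := K2_deriv hC hη (g := fun _ => 1) continuous_const 0 (by simp)
  simp only [one_mul] at h1 h2
  refine ⟨L, h1, fun δ => ?_⟩
  rw [h2, hC.dot_cZ hη, neg_mul, div_mul_cancel₀ _ (hC.cphi_pos hη).ne']

theorem PCone.hasFDerivAt_log_cphi (hC : PCone C) {η : Fin N → ℝ} (hη : η ∈ dualInt C) :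
    ∃ L : (Fin N → ℝ) →L[ℝ] ℝ, HasFDerivAt (fun η => Real.log (cphi C η)) L η ∧
      ∀ δ, L δ = -(δ ⬝ᵥ cZ C η) := by
  obtain ⟨L, h1, h2⟩ := K2_cphi hC hη
  have h0 := (hC.cphi_pos hη).ne'
  refine ⟨_, h1.log h0, fun δ => ?_⟩
  rw [smul_apply, h2, smul_eq_mul]
  field_simp

theorem PCone.hasFDerivAt_cZ (hC : PCone C) {η : Fin N → ℝ} (hη : η ∈ dualInt C) :
    ∃ L : (Fin N → ℝ) →L[ℝ] (Fin N → ℝ), HasFDerivAt (cZ C) L η ∧
      ∀ δ, L δ = -(cA C η).mulVec δ := by
  obtain ⟨L, h1, h2⟩ := K2_cphi hC hη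
  have h0 := (hC.cphi_pos hη).ne'
  have key : ∀ j, ∃ L : (Fin N → ℝ) →L[ℝ] ℝ, HasFDerivAt (fun η => cZ C η j) L η ∧
      ∀ δ, L δ = -(cA C η).mulVec δ j := fun j => by
    obtain ⟨L', h3, h4⟩ := K2_deriv hC hη (g := fun V => V j) (continuous_apply j) 1 fun V => by
      rw [pow_one]
      exact norm_le_pi_norm V j
    have h5 := h3.mul ((hasDerivAt_inv h0).comp_hasFDerivAt η h1)
    refine ⟨_, h5.congr_of_eventuallyEq (Eventually.of_forall fun x => div_eq_mul_inv _ _),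
      fun δ => ?_⟩
    have h6 := hC.dot_cA hη (Pi.single j 1) δ
    simp only [single_dotProduct, one_mul] at h6
    simp only [add_apply, smul_apply, smul_eq_mul, h2, h4,
      h6, Function.comp_apply]
    rw [show cZ C η j = (∫ V in C, V j * Real.exp (-(η ⬝ᵥ V))) / cphi C η from rfl]
    field_simp
    ring
  choose L' h3 h4 using key
  exact ⟨ContinuousLinearMap.pi L', hasFDerivAt_pi.2 h3, fun δ => funext fun j => h4 j δ⟩

theorem PCone.continuousOn_cA (hC : PCone C) : ContinuousOn (cA C) (dualInt C) := by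
  refine continuousOn_pi.2 fun i => continuousOn_pi.2 fun j η hη => ?_
  obtain ⟨L, h1, -⟩ := K2_cphi hC hη
  obtain ⟨L', h2, -⟩ := hC.hasFDerivAt_cZ hη
  obtain ⟨L'', h3, -⟩ := K2_deriv hC hη (g := fun V => V i * V j) (by fun_prop) 2 fun V => by
    rw [norm_mul, sq]
    exact mul_le_mul (norm_le_pi_norm V i) (norm_le_pi_norm V j) (norm_nonneg _) (norm_nonneg _)
  have h4 := continuousAt_pi.1 h2.continuousAt
  exact ((h3.continuousAt.div h1.continuousAt (hC.cphi_pos hη).ne').sub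
    ((h4 i).mul (h4 j))).continuousWithinAt

theorem PCone.contDiffOn_cZ (hC : PCone C) : ContDiffOn ℝ 1 (cZ C) (dualInt C) := by
  refine (contDiffOn_succ_iff_fderiv_of_isOpen (n := 0) hC.isOpen_dualInt).2
    ⟨fun η hη => ?_, by simp, contDiffOn_zero.2 (continuousOn_clm_apply.2 fun δ => ?_)⟩
  · obtain ⟨L, h, -⟩ := hC.hasFDerivAt_cZ hη
    exact h.differentiableAt.differentiableWithinAt
  · refine (((continuous_id.matrix_mulVec (continuous_const (y := δ))).comp_continuousOn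
      hC.continuousOn_cA).neg).congr fun η hη => ?_
    obtain ⟨L, h, h'⟩ := hC.hasFDerivAt_cZ hη
    exact (congrArg (· δ) h.fderiv).trans (h' δ)

end Pool.Agent.P.MP_2ff09b_gt
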