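import Pool.Agent.P.MP_2ff09b_gt.K2

/-! CVX-K3. Covariance, homogeneity and equivariance.
Sketch. posDef: the variance of a nonzero linear form is the integral of a nonnegative continuous
function that is positive on a nonempty open subset of C. Homogeneity and equivariance: linear
change of variables (MeasureTheory.integral_image_eq_integral_abs_det_fderiv_smul, or
Measure.map_linearMap_addHaar_eq_smul_addHaar); the factor |det| cancels in the quotient.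
cA_mulVec_self: differentiate cZ (t η) = t⁻¹ cZ η at t = 1. convexity inequality: Jensen, or
exp x >= 1 + x applied to x = -(η' - η) ⬝ (V - Z). -/

open Set MeasureTheory Complex Filter Topology Metric

noncomputable section

namespace Pool.Agent.P.MP_2ff09b_gt

variable {N : ℕ} {C : Set (Fin N → ℝ)}

theorem K3_dot_le (ξ V : Fin N → ℝ) : |ξ ⬝ᵥ V| ≤ (∑ i, |ξ i|) * ‖V‖ := by
  rw [dotProduct, Finset.sum_mul]
  refine (Finset.abs_sum_le_sum_abs _ _).trans (Finset.sum_le_sum fun i _ => ?_)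
  rw [abs_mul]
  exact mul_le_mul_of_nonneg_left (norm_le_pi_norm V i) (abs_nonneg _)

theorem K3_cont (ξ : Fin N → ℝ) : Continuous fun V : Fin N → ℝ => ξ ⬝ᵥ V := by
  unfold dotProduct
  fun_prop

theorem K3_int0 (hC : PCone C) {η : Fin N → ℝ} (hη : η ∈ dualInt C) :
    IntegrableOn (fun V : Fin N → ℝ => Real.exp (-(η ⬝ᵥ V))) C := by
  simpa using hC.integrableOn_moment hη 0

theorem K3_int1 (hC : PCone C) {η : Fin N → ℝ} (hη : η ∈ dualInt C) (ξ : Fin N → ℝ) :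
    IntegrableOn (fun V : Fin N → ℝ => (ξ ⬝ᵥ V) * Real.exp (-(η ⬝ᵥ V))) C := by
  refine Integrable.mono' ((hC.integrableOn_moment hη 1).const_mul (∑ i, |ξ i|))
    ((K3_cont ξ).mul (Real.continuous_exp.comp (K3_cont η).neg)).aestronglyMeasurable
    (Eventually.of_forall fun V => ?_)
  rw [Real.norm_eq_abs, abs_mul, abs_of_pos (Real.exp_pos _), pow_one, ← mul_assoc]
  exact mul_le_mul_of_nonneg_right (K3_dot_le ξ V) (Real.exp_pos _).le

theorem K3_int2 (hC : PCone C) {η : Fin N → ℝ} (hη : η ∈ dualInt C) (ξ : Fin N → ℝ) :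
    IntegrableOn (fun V : Fin N → ℝ => (ξ ⬝ᵥ V) * (ξ ⬝ᵥ V) * Real.exp (-(η ⬝ᵥ V))) C := by
  refine Integrable.mono'
    ((hC.integrableOn_moment hη 2).const_mul ((∑ i, |ξ i|) * (∑ i, |ξ i|)))
    (((K3_cont ξ).mul (K3_cont ξ)).mul
      (Real.continuous_exp.comp (K3_cont η).neg)).aestronglyMeasurable
    (Eventually.of_forall fun V => ?_)
  rw [Real.norm_eq_abs, abs_mul, abs_of_pos (Real.exp_pos _), ← mul_assoc, abs_mul]
  refine mul_le_mul_of_nonneg_right ?_ (Real.exp_pos _).le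
  have h := K3_dot_le ξ V
  calc |ξ ⬝ᵥ V| * |ξ ⬝ᵥ V| ≤ ((∑ i, |ξ i|) * ‖V‖) * ((∑ i, |ξ i|) * ‖V‖) :=
        mul_self_le_mul_self (abs_nonneg _) h
    _ = _ := by ring

theorem K3_smul_set (hC : PCone C) {t : ℝ} (ht : 0 < t) : (fun V => t • V) '' C = C := by
  apply Subset.antisymm
  · rintro _ ⟨V, hV, rfl⟩
    exact hC.smul_mem t ht.le V hV
  · intro V hV
    exact ⟨t⁻¹ • V, hC.smul_mem _ (inv_pos.2 ht).le V hV, by simp [smul_smul, ht.ne']⟩

theorem K3_smul_int (hC : PCone C) {t : ℝ} (ht : 0 < t) (f : (Fin N → ℝ) → ℝ) :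
    ∫ V in C, f (t • V) = (t ^ N)⁻¹ * ∫ V in C, f V := by
  have h := Measure.setIntegral_comp_smul_of_pos (volume : Measure (Fin N → ℝ)) f C ht
  rw [← Set.image_smul, K3_smul_set hC ht] at h
  simpa using h

theorem K3_cov (hC : PCone C) {θ : Matrix (Fin N) (Fin N) ℝ} (hθ : IsUnit θ.det)
    (hm : ∀ V, θ.mulVec V ∈ C ↔ V ∈ C) (f : (Fin N → ℝ) → ℝ) :
    ∫ V in C, f V = |θ.det| * ∫ V in C, f (θ.mulVec V) := by
  have hU : IsUnit θ := (Matrix.isUnit_iff_isUnit_det θ).2 hθ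
  have him : θ.mulVec '' C = C := by
    apply Subset.antisymm
    · rintro _ ⟨V, hV, rfl⟩
      exact (hm V).2 hV
    · intro V hV
      obtain ⟨W, rfl⟩ := Matrix.mulVec_surjective_iff_isUnit.2 hU V
      exact ⟨W, (hm W).1 hV, rfl⟩
  have h := integral_image_eq_integral_abs_det_fderiv_smul volume hC.closed.measurableSet
    (f := θ.mulVec) (f' := fun _ => LinearMap.toContinuousLinearMap (Matrix.toLin' θ))
    (fun x _ => (LinearMap.toContinuousLinearMap (Matrix.toLin' θ)).hasFDerivWithinAt)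
    (Matrix.mulVec_injective_iff_isUnit.2 hU).injOn f
  rw [him] at h
  rw [h, ← integral_const_mul]
  simp [ContinuousLinearMap.det]

theorem PCone.cA_posDef (hC : PCone C) {η : Fin N → ℝ} (hη : η ∈ dualInt C) :
    (cA C η).PosDef := by
  refine Matrix.PosDef.of_dotProduct_mulVec_pos ?_ fun ξ hξ => ?_
  · ext i j
    simp only [cA, Matrix.conjTranspose_apply, Matrix.of_apply, star_trivial]
    simp only [mul_comm]
  have hφ := hC.cphi_pos hη
  rw [star_trivial, hC.dot_cA hη]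
  have hm := hC.dot_cZ hη ξ
  generalize ξ ⬝ᵥ cZ C η = m at hm ⊢
  rw [eq_div_iff hφ.ne'] at hm
  have i0 := K3_int0 hC hη
  have i1 := K3_int1 hC hη ξ
  have i2 := K3_int2 hC hη ξ
  have e : ∀ V : Fin N → ℝ, (ξ ⬝ᵥ V - m) ^ 2 * Real.exp (-(η ⬝ᵥ V)) =
      ((ξ ⬝ᵥ V) * (ξ ⬝ᵥ V) * Real.exp (-(η ⬝ᵥ V)) -
        (2 * m) * ((ξ ⬝ᵥ V) * Real.exp (-(η ⬝ᵥ V)))) + m ^ 2 * Real.exp (-(η ⬝ᵥ V)) :=
    fun V => by ring
  have i3 : IntegrableOn (fun V : Fin N → ℝ => (ξ ⬝ᵥ V) * (ξ ⬝ᵥ V) * Real.exp (-(η ⬝ᵥ V)) -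
        (2 * m) * ((ξ ⬝ᵥ V) * Real.exp (-(η ⬝ᵥ V)))) C := i2.sub (i1.const_mul _)
  have i4 : IntegrableOn (fun V : Fin N → ℝ => (ξ ⬝ᵥ V - m) ^ 2 * Real.exp (-(η ⬝ᵥ V))) C := by
    simp only [e]
    exact i3.add (i0.const_mul _)
  have hpos : 0 < ∫ V in C, (ξ ⬝ᵥ V - m) ^ 2 * Real.exp (-(η ⬝ᵥ V)) := by
    rw [setIntegral_pos_iff_support_of_nonneg_ae
      (Eventually.of_forall fun V => by positivity) i4]
    have hU : IsOpen (interior C ∩ {V | ξ ⬝ᵥ V ≠ m}) :=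
      isOpen_interior.inter (isOpen_ne_fun (K3_cont ξ) continuous_const)
    have hne : (interior C ∩ {V | ξ ⬝ᵥ V ≠ m}).Nonempty := by
      obtain ⟨V, hV⟩ := hC.gen
      by_cases h : ξ ⬝ᵥ V = m
      · have hc : Continuous fun s : ℝ => V + s • ξ := by fun_prop
        have h1 : ∀ᶠ s : ℝ in 𝓝 0, V + s • ξ ∈ interior C :=
          hc.continuousAt.eventually (isOpen_interior.mem_nhds (by simpa using hV))
        have h2 : ∀ᶠ s : ℝ in 𝓝[≠] 0, V + s • ξ ∈ interior C ∧ s ≠ 0 :=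
          (h1.filter_mono nhdsWithin_le_nhds).and self_mem_nhdsWithin
        obtain ⟨s, hs, hs0⟩ := h2.exists
        refine ⟨_, hs, ?_⟩
        have h3 : ξ ⬝ᵥ ξ ≠ 0 := fun h => hξ (dotProduct_self_eq_zero.1 h)
        simp [dotProduct_add, dotProduct_smul, h, hs0, h3]
      · exact ⟨V, hV, h⟩
    refine (hU.measure_pos volume hne).trans_le (measure_mono fun V hV => ⟨?_, interior_subset hV.1⟩)
    exact mul_ne_zero (pow_ne_zero _ (sub_ne_zero.2 hV.2)) (Real.exp_pos _).ne'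
  simp only [e] at hpos
  rw [integral_add i3 (i0.const_mul _), integral_sub i2 (i1.const_mul _), integral_const_mul,
    integral_const_mul, ← hm] at hpos
  change 0 < _ - _ + m ^ 2 * cphi C η at hpos
  rw [sub_pos, lt_div_iff₀ hφ]
  linarith

theorem PCone.cZ_smul (hC : PCone C) {η : Fin N → ℝ} (hη : η ∈ dualInt C) {t : ℝ} (ht : 0 < t) :
    cZ C (t • η) = t⁻¹ • cZ C η := by
  funext j
  have h1 := K3_smul_int hC ht fun V => Real.exp (-(η ⬝ᵥ V))
  have h2 := K3_smul_int hC ht fun V => V j * Real.exp (-(η ⬝ᵥ V))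
  simp only [dotProduct_smul, Pi.smul_apply, smul_eq_mul, mul_assoc] at h1 h2
  rw [integral_const_mul] at h2
  have h3 := (eq_inv_mul_iff_mul_eq₀ ht.ne').2 h2
  simp only [cZ, cphi, smul_dotProduct, Pi.smul_apply, smul_eq_mul]
  rw [h1, h3, mul_div_assoc, mul_div_mul_left _ _ (by positivity)]

theorem PCone.cphi_smul (hC : PCone C) (η : Fin N → ℝ) {t : ℝ} (ht : 0 < t) :
    cphi C (t • η) = (t ^ N)⁻¹ * cphi C η := by
  have h1 := K3_smul_int hC ht fun V => Real.exp (-(η ⬝ᵥ V))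
  simpa only [cphi, smul_dotProduct, dotProduct_smul] using h1

theorem PCone.cA_mulVec_self (hC : PCone C) {η : Fin N → ℝ} (hη : η ∈ dualInt C) :
    (cA C η).mulVec η = cZ C η := by
  obtain ⟨L, hL, hL'⟩ := hC.hasFDerivAt_cZ hη
  have h1 : HasDerivAt (fun t : ℝ => t • η) η 1 := by
    simpa using (hasDerivAt_id (1 : ℝ)).smul_const η
  have hL1 : HasFDerivAt (cZ C) L ((fun t : ℝ => t • η) 1) := by
    simpa only [one_smul] using hL
  have h2 : HasDerivAt (fun t : ℝ => cZ C (t • η)) (L η) 1 := by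
    simpa only [Function.comp_def] using hL1.comp_hasDerivAt (1 : ℝ) h1
  have h3 : HasDerivAt (fun t : ℝ => t⁻¹ • cZ C η) (-cZ C η) 1 := by
    simpa using (hasDerivAt_inv (one_ne_zero (α := ℝ))).smul_const (cZ C η)
  have h4 : (fun t : ℝ => cZ C (t • η)) =ᶠ[𝓝 1] fun t : ℝ => t⁻¹ • cZ C η := by
    filter_upwards [lt_mem_nhds (one_pos (α := ℝ))] with t ht
    exact hC.cZ_smul hη ht
  have h5 := h2.unique (h3.congr_of_eventuallyEq h4)
  rw [hL'] at h5
  exact neg_injective h5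

theorem PCone.cZ_equivariant (hC : PCone C) {θ : Matrix (Fin N) (Fin N) ℝ} (hθ : IsUnit θ.det)
    (hm : ∀ V, θ.mulVec V ∈ C ↔ V ∈ C) {η η' : Fin N → ℝ} (hη : η ∈ dualInt C)
    (h : ∀ V, η' ⬝ᵥ θ.mulVec V = η ⬝ᵥ V) : η' ∈ dualInt C ∧ cZ C η' = θ.mulVec (cZ C η) := by
  have hU : IsUnit θ := (Matrix.isUnit_iff_isUnit_det θ).2 hθ
  constructor
  · intro V hV hV0
    obtain ⟨W, rfl⟩ := Matrix.mulVec_surjective_iff_isUnit.2 hU V
    rw [h]
    refine hη W ((hm W).1 hV) fun h0 => hV0 ?_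
    rw [h0, Matrix.mulVec_zero]
  · funext j
    have h1 := K3_cov hC hθ hm fun V => Real.exp (-(η' ⬝ᵥ V))
    have h2 := K3_cov hC hθ hm fun V => V j * Real.exp (-(η' ⬝ᵥ V))
    simp only [h] at h1 h2
    have h3 : θ.mulVec (cZ C η) j = θ j ⬝ᵥ cZ C η := rfl
    rw [h3, hC.dot_cZ hη]
    simp only [cZ, cphi]
    rw [h1, h2, mul_div_mul_left _ _ (abs_ne_zero.2 hθ.ne_zero)]
    rfl

theorem PCone.log_cphi_ge (hC : PCone C) {η η' : Fin N → ℝ} (hη : η ∈ dualInt C)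
    (hη' : η' ∈ dualInt C) :
    Real.log (cphi C η) - (η' - η) ⬝ᵥ cZ C η ≤ Real.log (cphi C η') := by
  have hφ := hC.cphi_pos hη
  have hm := hC.dot_cZ hη (η' - η)
  generalize (η' - η) ⬝ᵥ cZ C η = m at hm ⊢
  rw [eq_div_iff hφ.ne'] at hm
  have i0 := K3_int0 hC hη
  have i1 := K3_int1 hC hη (η' - η)
  have i2 : IntegrableOn (fun V : Fin N → ℝ => (1 + m) * Real.exp (-(η ⬝ᵥ V)) -
      ((η' - η) ⬝ᵥ V) * Real.exp (-(η ⬝ᵥ V))) C := (i0.const_mul _).sub i1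
  have hle : ∫ V in C, Real.exp (-m) * ((1 + m) * Real.exp (-(η ⬝ᵥ V)) -
      ((η' - η) ⬝ᵥ V) * Real.exp (-(η ⬝ᵥ V))) ≤ cphi C η' := by
    refine integral_mono (i2.const_mul _) (K3_int0 hC hη') fun V => ?_
    have h1 := Real.add_one_le_exp (m - (η' - η) ⬝ᵥ V)
    have h2 : Real.exp (-(η' ⬝ᵥ V)) =
        Real.exp (-m) * (Real.exp (m - (η' - η) ⬝ᵥ V) * Real.exp (-(η ⬝ᵥ V))) := by
      rw [← Real.exp_add, ← Real.exp_add, sub_dotProduct]
      congr 1
      ring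
    simp only
    rw [h2, ← sub_mul]
    gcongr
    linarith
  rw [integral_const_mul, integral_sub (i0.const_mul _) i1, integral_const_mul, ← hm] at hle
  change Real.exp (-m) * ((1 + m) * cphi C η - _) ≤ _ at hle
  have h3 : Real.exp (-m) * cphi C η ≤ cphi C η' := by
    refine le_of_eq_of_le ?_ hle
    ring
  have h4 := Real.log_le_log (by positivity) h3
  rw [Real.log_mul (Real.exp_pos _).ne' hφ.ne', Real.log_exp] at h4
  linarith

end Pool.Agent.P.MP_2ff09b_gt
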