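import Pool.Agent.P.MP_2ff09b_gt.K3

/-! CVX-K4. The shift inequality, the Dikin ellipsoid, and a compactness statement.
Sketch. shift: for V0 in C nonzero normalise η ⬝ V0 = 1; the integral over C of (ξ ⬝ V) e^(-η V)
is at least the integral over V0 + C ⊆ C, which is e⁻¹ times the integral over C of
(ξ ⬝ V + ξ ⬝ V0) e^(-η V). dikin: for ξ >= 0 on C, |ξ ⬝ A a| <= sqrt (ξ ⬝ A ξ) sqrt (a ⬝ A a)
(Cauchy-Schwarz for the positive form A), ξ ⬝ A ξ <= E (ξ V)² <= e² (ξ ⬝ Z)² E (η V)² by shift, and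
E (η V)² <= 8 E exp (η V / 2) = 8 * 2^N (cphi_smul); conclude with mem_of_dual. interior: the
ellipsoid is a neighbourhood since A is invertible. Compactness: fix η1 in dualInt C. On the set,
shift gives η ⬝ V >= c η1 ⬝ V on C, so limits stay in dualInt C and the set is closed by
continuity (K2). It is bounded: log_cphi_ge with η' = η + η1 gives
log cphi η <= log cphi (η + η1) + R', and cphi (η + η1) tends to 0 when η tends to infinity in the
dual cone (dominated convergence along a subsequence with η/‖η‖ convergent; η ⬝ V tends to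
infinity for V in the interior of C, whose complement in C is null, Convex.addHaar_frontier).
A direct bound is also possible. -/

open Set MeasureTheory Complex Filter Topology Metric

noncomputable section

namespace Pool.Agent.P.MP_2ff09b_gt

variable {N : ℕ} {C : Set (Fin N → ℝ)}


theorem K4_shift (hC : PCone C) {η : Fin N → ℝ} (hη : η ∈ dualInt C) {ξ : Fin N → ℝ}
    (hξ : ∀ V ∈ C, 0 ≤ ξ ⬝ᵥ V) {V₁ : Fin N → ℝ} (hV : V₁ ∈ C) (h1 : η ⬝ᵥ V₁ = 1) :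
    ξ ⬝ᵥ V₁ ≤ Real.exp 1 * (ξ ⬝ᵥ cZ C η) := by
  have hm := hC.closed.measurableSet
  have hi := (integrable_indicator_iff hm).2 (K1_int1 hC hη ξ)
  have h2 : ∫ V, C.indicator (fun V => ξ ⬝ᵥ V₁ * Real.exp (-1) * Real.exp (-(η ⬝ᵥ V))) V ≤
      ∫ V, C.indicator (fun V => ξ ⬝ᵥ V * Real.exp (-(η ⬝ᵥ V))) (V + V₁) := by
    refine integral_mono ((integrable_indicator_iff hm).2 ((K1_int0 hC hη).const_mul _))
      (hi.comp_add_right V₁) fun V => ?_
    by_cases hVC : V ∈ C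
    · beta_reduce
      rw [indicator_of_mem hVC, indicator_of_mem (hC.add_mem V hVC V₁ hV), dotProduct_add,
        dotProduct_add, h1, neg_add, Real.exp_add, mul_assoc, mul_comm (Real.exp (-1))]
      exact mul_le_mul_of_nonneg_right (le_add_of_nonneg_left (hξ V hVC)) (by positivity)
    · beta_reduce
      rw [indicator_of_notMem hVC]
      exact indicator_nonneg (fun W hW => mul_nonneg (hξ W hW) (Real.exp_pos _).le) _
  rw [integral_add_right_eq_self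
    (C.indicator fun V => ξ ⬝ᵥ V * Real.exp (-(η ⬝ᵥ V))) V₁, integral_indicator hm,
    integral_indicator hm, integral_const_mul] at h2
  rw [hC.dot_cZ hη, ← mul_div_assoc, le_div_iff₀ (hC.cphi_pos hη)]
  have h3 := mul_le_mul_of_nonneg_left h2 (Real.exp_pos 1).le
  refine le_of_eq_of_le ?_ h3
  rw [Real.exp_neg, cphi]
  field_simp

theorem PCone.shift (hC : PCone C) {η : Fin N → ℝ} (hη : η ∈ dualInt C) {ξ : Fin N → ℝ}
    (hξ : ∀ V ∈ C, 0 ≤ ξ ⬝ᵥ V) {V₀ : Fin N → ℝ} (hV : V₀ ∈ C) :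
    ξ ⬝ᵥ V₀ ≤ Real.exp 1 * (ξ ⬝ᵥ cZ C η) * (η ⬝ᵥ V₀) := by
  by_cases h0 : V₀ = 0
  · simp [h0]
  · have h1 := hη V₀ hV h0
    have h2 := K4_shift hC hη hξ (hC.smul_mem _ (inv_pos.2 h1).le V₀ hV) (by
      rw [dotProduct_smul, smul_eq_mul, inv_mul_cancel₀ h1.ne'])
    rwa [dotProduct_smul, smul_eq_mul, ← div_eq_inv_mul, div_le_iff₀ h1] at h2

theorem K4_nonneg (hC : PCone C) {η : Fin N → ℝ} (hη : η ∈ dualInt C) {ξ : Fin N → ℝ}
    (hξ : ∀ V ∈ C, 0 ≤ ξ ⬝ᵥ V) : 0 ≤ ξ ⬝ᵥ cZ C η := by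
  rw [hC.dot_cZ hη]
  exact div_nonneg (setIntegral_nonneg hC.closed.measurableSet fun V hV =>
    mul_nonneg (hξ V hV) (Real.exp_pos _).le) (hC.cphi_pos hη).le

theorem K4_self (hC : PCone C) {η : Fin N → ℝ} (hη : η ∈ dualInt C) : η ⬝ᵥ cZ C η ≤ 2 * N := by
  have h1 := hC.log_cphi_ge hη (smul_mem_dualInt hη (t := 2⁻¹) (by norm_num))
  rw [hC.cphi_smul η (by norm_num), inv_pow, inv_inv,
    Real.log_mul (by positivity) (hC.cphi_pos hη).ne', Real.log_pow, sub_dotProduct,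
    smul_dotProduct, smul_eq_mul] at h1
  have h2 : Real.log 2 ≤ 1 := by
    have := Real.log_le_sub_one_of_pos (x := 2) (by norm_num)
    linarith
  have h3 : (N : ℝ) * Real.log 2 ≤ N := mul_le_of_le_one_right (Nat.cast_nonneg N) h2
  linarith

theorem K4_cs (hC : PCone C) {η : Fin N → ℝ} (hη : η ∈ dualInt C) (ξ a : Fin N → ℝ) :
    (ξ ⬝ᵥ (cA C η).mulVec a) ^ 2 ≤ (ξ ⬝ᵥ (cA C η).mulVec ξ) * (a ⬝ᵥ (cA C η).mulVec a) := by
  have h1 : a ⬝ᵥ (cA C η).mulVec ξ = ξ ⬝ᵥ (cA C η).mulVec a := by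
    rw [hC.dot_cA hη, hC.dot_cA hη]
    simp only [mul_comm]
  have h2 := discrim_le_zero (a := a ⬝ᵥ (cA C η).mulVec a) (b := 2 * (ξ ⬝ᵥ (cA C η).mulVec a))
    (c := ξ ⬝ᵥ (cA C η).mulVec ξ) fun t => by
      have h3 := (hC.cA_posDef hη).posSemidef.dotProduct_mulVec_nonneg (ξ + t • a)
      rw [star_trivial, Matrix.mulVec_add, Matrix.mulVec_smul, add_dotProduct, dotProduct_add,
        dotProduct_add, smul_dotProduct, smul_dotProduct, dotProduct_smul, dotProduct_smul,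
        h1] at h3
      simp only [smul_eq_mul] at h3
      linarith
  rw [discrim] at h2
  linarith

theorem K4_var (hC : PCone C) {η : Fin N → ℝ} (hη : η ∈ dualInt C) {ξ : Fin N → ℝ}
    (hξ : ∀ V ∈ C, 0 ≤ ξ ⬝ᵥ V) :
    ξ ⬝ᵥ (cA C η).mulVec ξ ≤ (Real.exp 1 * (2 * N + 1) * (ξ ⬝ᵥ cZ C η)) ^ 2 := by
  have h1 : ∫ V in C, ξ ⬝ᵥ V * ξ ⬝ᵥ V * Real.exp (-(η ⬝ᵥ V)) ≤
      ∫ V in C, (Real.exp 1 * (ξ ⬝ᵥ cZ C η)) ^ 2 * (η ⬝ᵥ V * η ⬝ᵥ V * Real.exp (-(η ⬝ᵥ V))) := by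
    refine setIntegral_mono_on (K1_int2 hC hη ξ ξ) ((K1_int2 hC hη η η).const_mul _)
      hC.closed.measurableSet fun V hV => ?_
    rw [← mul_assoc]
    refine mul_le_mul_of_nonneg_right ?_ (Real.exp_pos _).le
    exact (mul_self_le_mul_self (hξ V hV) (hC.shift hη hξ hV)).trans_eq (by ring)
  rw [integral_const_mul] at h1
  have h2 := div_le_div_of_nonneg_right h1 (hC.cphi_pos hη).le
  have h3 := hC.dot_cA hη η η
  rw [hC.cA_mulVec_self hη, eq_sub_iff_add_eq] at h3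
  rw [mul_div_assoc, ← h3] at h2
  have h4 := K4_self hC hη
  have h5 := K4_nonneg hC hη fun V hV => K1_nonneg hη hV
  have h6 : η ⬝ᵥ cZ C η + η ⬝ᵥ cZ C η * η ⬝ᵥ cZ C η ≤ (2 * N + 1) ^ 2 := by nlinarith
  have h7 := mul_le_mul_of_nonneg_left h6 (sq_nonneg (Real.exp 1 * (ξ ⬝ᵥ cZ C η)))
  rw [hC.dot_cA hη]
  nlinarith [mul_self_nonneg (ξ ⬝ᵥ cZ C η)]

theorem PCone.dikin (hC : PCone C) : ∃ c : ℝ, 0 < c ∧ ∀ η ∈ dualInt C, ∀ a : Fin N → ℝ,
    a ⬝ᵥ (cA C η).mulVec a ≤ 1 → cZ C η + c • (cA C η).mulVec a ∈ C := by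
  have hB : (0 : ℝ) < Real.exp 1 * (2 * N + 1) := by positivity
  refine ⟨(Real.exp 1 * (2 * N + 1))⁻¹, inv_pos.2 hB, fun η hη a ha =>
    hC.mem_of_dual fun ξ hξ => ?_⟩
  have h1 := K4_cs hC hη ξ a
  have h2 := K4_var hC hη hξ
  have h3 := K4_nonneg hC hη hξ
  have h4 := (hC.cA_posDef hη).posSemidef.dotProduct_mulVec_nonneg ξ
  rw [star_trivial] at h4
  have h5 := (abs_le_of_sq_le_sq' ((h1.trans (mul_le_of_le_one_right h4 ha)).trans h2)
    (mul_nonneg hB.le h3)).1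
  rw [dotProduct_add, dotProduct_smul, smul_eq_mul, ← div_eq_inv_mul, ← neg_le_iff_add_nonneg',
    le_div_iff₀ hB]
  linarith

theorem PCone.cZ_mem_interior (hC : PCone C) {η : Fin N → ℝ} (hη : η ∈ dualInt C) :
    cZ C η ∈ interior C := by
  obtain ⟨c, hc, h⟩ := hC.dikin
  have hu : IsUnit (cA C η).det := (Matrix.isUnit_iff_isUnit_det _).1 (hC.cA_posDef hη).isUnit
  have h1 : Continuous fun V : Fin N → ℝ => c⁻¹ • (cA C η)⁻¹.mulVec (V - cZ C η) :=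
    ((continuous_const (y := (cA C η)⁻¹)).matrix_mulVec
      (continuous_sub_right (cZ C η))).fun_const_smul _
  have h2 := h1.dotProduct ((continuous_const (y := cA C η)).matrix_mulVec h1)
  rw [mem_interior_iff_mem_nhds]
  filter_upwards [(isOpen_lt h2 (continuous_const (y := (1 : ℝ)))).mem_nhds
    (x := cZ C η) (by simp)] with V hV
  have h3 := h η hη _ (le_of_lt hV)
  rwa [Matrix.mulVec_smul, Matrix.mulVec_mulVec, Matrix.mul_nonsing_inv _ hu, Matrix.one_mulVec,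
    smul_smul, mul_inv_cancel₀ hc.ne', one_smul, add_sub_cancel] at h3

theorem K4_dom (hC : PCone C) (R : ℝ) : ∃ η₀ ∈ dualInt C, ∀ η ∈ dualInt C, ‖cZ C η‖ ≤ R →
    ∀ V ∈ C, η₀ ⬝ᵥ V ≤ η ⬝ᵥ V := by
  obtain ⟨η₁, h1⟩ := hC.dualInt_nonempty
  have hB : (0 : ℝ) < Real.exp 1 * (N * ‖η₁‖ * |R|) + 1 := by positivity
  refine ⟨(Real.exp 1 * (N * ‖η₁‖ * |R|) + 1)⁻¹ • η₁, smul_mem_dualInt h1 (inv_pos.2 hB),
    fun η hη hR V hV => ?_⟩
  rw [smul_dotProduct, smul_eq_mul, ← div_eq_inv_mul, div_le_iff₀' hB]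
  refine (hC.shift hη (fun W hW => K1_nonneg h1 hW) hV).trans
    (mul_le_mul_of_nonneg_right ?_ (K1_nonneg hη hV))
  have h2 : η₁ ⬝ᵥ cZ C η ≤ N * ‖η₁‖ * |R| := ((le_abs_self _).trans (K1_abs_dot _ _)).trans
    (mul_le_mul_of_nonneg_left (hR.trans (le_abs_self R)) (by positivity))
  have h3 := mul_le_mul_of_nonneg_left h2 (Real.exp_pos 1).le
  linarith

theorem K4_bdd (hC : PCone C) {η₀ : Fin N → ℝ} (h0 : η₀ ∈ dualInt C) {ε : ℝ} (hε : 0 < ε) :
    Bornology.IsBounded {η | (∀ V ∈ C, η₀ ⬝ᵥ V ≤ η ⬝ᵥ V) ∧ ε ≤ cphi C η} := by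
  by_contra hb
  rw [isBounded_iff_forall_norm_le] at hb
  push Not at hb
  choose η hη hn using fun n : ℕ => hb n
  have hp : ∀ n, 0 < ‖η n‖ := fun n => (Nat.cast_nonneg n).trans_lt (hn n)
  obtain ⟨a, ha, φ, hφ, hl⟩ := (isCompact_sphere (0 : Fin N → ℝ) 1).tendsto_subseq
    (x := fun n => ‖η n‖⁻¹ • η n) fun n => by
      rw [mem_sphere_zero_iff_norm, norm_smul, norm_inv, norm_norm, inv_mul_cancel₀ (hp n).ne']
  have hz : ∀ᵐ V : Fin N → ℝ, a ⬝ᵥ V ≠ 0 := by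
    refine measure_eq_zero_iff_ae_notMem.1 (Measure.addHaar_submodule volume
      (LinearMap.ker (dotProductBilin ℝ ℝ a)) fun ht => ?_)
    have h1 : a ∈ LinearMap.ker (dotProductBilin ℝ ℝ a) := ht ▸ Submodule.mem_top
    exact ne_zero_of_mem_unit_sphere ⟨a, ha⟩ (dotProduct_self_eq_zero.1 h1)
  have hT : Tendsto (fun n => ‖η (φ n)‖) atTop atTop :=
    tendsto_atTop_mono (fun n => (hn (φ n)).le)
      (tendsto_natCast_atTop_atTop.comp hφ.tendsto_atTop)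
  have h2 := tendsto_integral_of_dominated_convergence (μ := volume.restrict C)
    (F := fun n V => Real.exp (-(η (φ n) ⬝ᵥ V))) (f := fun _ => 0)
    (fun V => Real.exp (-(η₀ ⬝ᵥ V))) (fun n => (K1_cont _).neg.rexp.aestronglyMeasurable)
    (K1_int0 hC h0) (fun n => ae_restrict_of_forall_mem hC.closed.measurableSet fun V hV => by
      rw [Real.norm_of_nonneg (Real.exp_pos _).le]
      exact Real.exp_le_exp.2 (neg_le_neg ((hη _).1 V hV))) (by
      filter_upwards [ae_restrict_of_ae hz, ae_restrict_mem hC.closed.measurableSet] with V h3 hV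
      have h4 : Tendsto (fun n => (‖η (φ n)‖⁻¹ • η (φ n)) ⬝ᵥ V) atTop (𝓝 (a ⬝ᵥ V)) :=
        ((continuous_id.dotProduct continuous_const).tendsto a).comp hl
      have h5 : 0 ≤ a ⬝ᵥ V := ge_of_tendsto' h4 fun n => by
        rw [smul_dotProduct, smul_eq_mul]
        exact mul_nonneg (inv_pos.2 (hp _)).le ((K1_nonneg h0 hV).trans ((hη _).1 V hV))
      refine Real.tendsto_exp_neg_atTop_nhds_zero.comp
        ((hT.atTop_mul_pos (lt_of_le_of_ne h5 h3.symm) h4).congr fun n => ?_)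
      rw [smul_dotProduct, smul_eq_mul, mul_inv_cancel_left₀ (hp _).ne'])
  rw [integral_zero] at h2
  exact absurd (ge_of_tendsto' h2 fun n => (hη (φ n)).2) (not_le.2 hε)

theorem PCone.isCompact_sublevel (hC : PCone C) (R M : ℝ) :
    IsCompact {η | η ∈ dualInt C ∧ ‖cZ C η‖ ≤ R ∧ -M ≤ Real.log (cphi C η)} := by
  obtain ⟨η₀, h0, h⟩ := K4_dom hC R
  have hT : IsClosed {η : Fin N → ℝ | ∀ V ∈ C, η₀ ⬝ᵥ V ≤ η ⬝ᵥ V} := by
    simp only [ofPred_forall]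
    exact isClosed_iInter fun V => isClosed_iInter fun _ =>
      isClosed_le continuous_const (continuous_id.dotProduct continuous_const)
  have hs : {η : Fin N → ℝ | ∀ V ∈ C, η₀ ⬝ᵥ V ≤ η ⬝ᵥ V} ⊆ dualInt C := fun η hη V hV hV0 =>
    (h0 V hV hV0).trans_le (hη V hV)
  have h1 : ContinuousOn (fun η => Real.log (cphi C η)) (dualInt C) := fun η hη => by
    obtain ⟨L, hL, -⟩ := hC.hasFDerivAt_log_cphi hη
    exact hL.continuousAt.continuousWithinAt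
  have h2 := ((hC.contDiffOn_cZ.continuousOn.norm.prodMk h1).mono hs).preimage_isClosed_of_isClosed
    hT ((isClosed_Iic (a := R)).prod (isClosed_Ici (a := -M)))
  refine Metric.isCompact_of_isClosed_isBounded ?_ ((K4_bdd hC h0 (Real.exp_pos (-M))).subset
    fun η hη => ⟨h η hη.1 hη.2.1, (Real.le_log_iff_exp_le (hC.cphi_pos hη.1)).1 hη.2.2⟩)
  refine (congrArg IsClosed (Set.ext fun η => ?_)).mp h2
  exact ⟨fun hη => ⟨hs hη.1, hη.2⟩, fun hη => ⟨h η hη.1 hη.2.1, hη.2⟩⟩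

theorem PCone.log_cphi_le (hC : PCone C) (R : ℝ) :
    ∃ M : ℝ, ∀ η ∈ dualInt C, ‖cZ C η‖ ≤ R → Real.log (cphi C η) ≤ M := by
  obtain ⟨η₀, h0, h⟩ := K4_dom hC R
  refine ⟨Real.log (cphi C η₀), fun η hη hR => Real.log_le_log (hC.cphi_pos hη) ?_⟩
  exact setIntegral_mono_on (K1_int0 hC hη) (K1_int0 hC h0) hC.closed.measurableSet fun V hV =>
    Real.exp_le_exp.2 (neg_le_neg (h η hη hR V hV))

end Pool.Agent.P.MP_2ff09b_gt
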