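import Pool.Agent.P.MP_2ff09b_gt.L1

/-! CVX-L2. The Killing form and automorphisms.
Sketch. br (br U V) = br U ∘ br V - br V ∘ br U (jacobi); cyclicity of the trace
(LinearMap.trace_comp_comm'). exp_br_map: both sides, with t Y in place of Y, are related by: the
function t ↦ exp (-t A) (br (exp (t A) U) (exp (t A) V)) has zero derivative (or use exp_semiconj
twice). kil_star: the matrix of an operator conjugated by star is the conjugate matrix.
inn: Submonoid.closure_induction. -/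

open Set MeasureTheory Complex Filter Topology Metric

noncomputable section

namespace Pool.Agent.P.MP_2ff09b_gt

variable {N : ℕ} (L : LCtx N)

namespace LCtx


theorem br_self (U : Fin N → ℂ) : L.br U U = 0 := by
  exact funext fun i => self_eq_neg.1 (congrFun (L.anti U U) i)

theorem br_br (U V : Fin N → ℂ) :
    L.br (L.br U V) = (L.br U).comp (L.br V) - (L.br V).comp (L.br U) := by
  exact ContinuousLinearMap.ext fun W => eq_sub_of_add_eq (L.jacobi U V W).symm

theorem br_eigen {X U V : Fin N → ℂ} {a b : ℂ} (hU : L.br X U = a • U) (hV : L.br X V = b • V) :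
    L.br X (L.br U V) = (a + b) • L.br U V := by
  rw [L.jacobi, hU, hV, map_smul, map_smul, add_smul]
  rfl

theorem exists_kil_bilin : ∃ B : (Fin N → ℂ) →L[ℂ] (Fin N → ℂ) →L[ℂ] ℂ,
    ∀ U V, L.kil U V = B U V := by
  exact ⟨(ContinuousLinearMap.compL ℂ _ _ _ (LinearMap.toContinuousLinearMap
    (LinearMap.trace ℂ _ ∘ₗ ContinuousLinearMap.coeLM ℂ))).comp
      ((ContinuousLinearMap.compL ℂ _ _ _).bilinearComp L.br L.br), fun _ _ => rfl⟩

theorem kil_comm (U V : Fin N → ℂ) : L.kil U V = L.kil V U := by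
  exact LinearMap.trace_comp_comm' _ _

theorem kil_br (Y U V : Fin N → ℂ) : L.kil (L.br Y U) V = -L.kil U (L.br Y V) := by
  have h := LinearMap.trace_comp_comm' ((L.br U).comp (L.br V) : (Fin N → ℂ) →ₗ[ℂ] (Fin N → ℂ))
    (L.br Y : (Fin N → ℂ) →ₗ[ℂ] (Fin N → ℂ))
  simp only [kil, br_br, ContinuousLinearMap.toLinearMap_sub, ContinuousLinearMap.toLinearMap_comp,
    LinearMap.sub_comp, LinearMap.comp_sub, map_sub, LinearMap.comp_assoc] at h ⊢
  rw [h, neg_sub]

theorem kil_star (U V : Fin N → ℂ) : L.kil (star U) (star V) = (starRingEnd ℂ) (L.kil U V) := by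
  have key : ∀ U V, L.kil U V = ∑ i, L.br U (L.br V (Pi.single i 1)) i := fun U V => by
    rw [kil, LinearMap.trace_eq_matrix_trace ℂ (Pi.basisFun ℂ (Fin N))]
    simp [Matrix.trace]
  rw [key, key, map_sum]
  refine Finset.sum_congr rfl fun i _ => ?_
  have := congrFun (L.star_br U (L.br V (Pi.single i 1))) i
  rw [L.star_br V, Pi.star_single, star_one] at this
  exact this.symm

theorem kil_eigen {X U V : Fin N → ℂ} {a b : ℂ} (hU : L.br X U = a • U) (hV : L.br X V = b • V)
    (h : a + b ≠ 0) : L.kil U V = 0 := by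
  obtain ⟨B, hB⟩ := L.exists_kil_bilin
  have h1 := L.kil_br X U V
  rw [hU, hV, hB, hB, map_smul, map_smul, _root_.smul_apply, ← hB,
    eq_neg_iff_add_eq_zero, ← add_smul] at h1
  exact (smul_eq_zero.1 h1).resolve_left h

theorem exp_br_map (Y U V : Fin N → ℂ) :
    NormedSpace.exp (L.br Y) (L.br U V) =
      L.br (NormedSpace.exp (L.br Y) U) (NormedSpace.exp (L.br Y) V) := by
  have h2 : ∀ U (t : ℂ), HasDerivAt (fun u : ℂ => NormedSpace.exp (u • L.br Y) U)
      (L.br Y (NormedSpace.exp (t • L.br Y) U)) t := fun U t => by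
    simpa using (hasDerivAt_exp_smul_const' (L.br Y) t).clm_apply (hasDerivAt_const t U)
  have h3 : ∀ t : ℂ, HasDerivAt (fun u : ℂ => NormedSpace.exp (u • -L.br Y)
      (L.br (NormedSpace.exp (u • L.br Y) U) (NormedSpace.exp (u • L.br Y) V))) 0 t := fun t => by
    refine ((hasDerivAt_exp_smul_const (-L.br Y) t).clm_apply
      ((L.br.hasFDerivAt.comp_hasDerivAt t (h2 U t)).clm_apply (h2 V t))).congr_deriv ?_
    rw [Function.comp_apply, ← L.jacobi]
    simp
  have h4 := is_const_of_deriv_eq_zero (fun t => (h3 t).differentiableAt) (fun t => (h3 t).deriv) 0 1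
  have h0 : ∀ (T : (Fin N → ℂ) →L[ℂ] (Fin N → ℂ)) v, NormedSpace.exp ((0 : ℂ) • T) v = v :=
    fun T v => (exp_apply_eigen (μ := 0) (by simp)).trans (by simp)
  simp only [h0, one_smul] at h4
  rw [h4, exp_comp_exp_neg]

theorem star_exp {Y : Fin N → ℂ} (hY : star Y = Y) (U : Fin N → ℂ) :
    star (NormedSpace.exp (L.br Y) U) = NormedSpace.exp (L.br Y) (star U) := by
  have h : ∀ v, HasSum (fun n : ℕ => ((n.factorial : ℂ)⁻¹) • (L.br Y ^ n) v)
      (NormedSpace.exp (L.br Y) v) := fun v =>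
    (NormedSpace.exp_series_hasSum_exp' (𝕂 := ℂ) (L.br Y)).mapL (ContinuousLinearMap.apply ℂ _ v)
  have e : ∀ n : ℕ, star ((L.br Y ^ n) U) = (L.br Y ^ n) (star U) := fun n => by
    induction n with
    | zero => rfl
    | succ n ih => rw [pow_succ', mul_apply_eq_comp, L.star_br, hY, ih]; rfl
  refine (h U).star.unique ?_
  simpa only [star_smul, e, star_inv₀, star_natCast] using h (star U)

theorem isAut_exp {Y : Fin N → ℂ} (hY : star Y = Y) : L.IsAut (NormedSpace.exp (L.br Y)) := by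
  have h1 := exp_comp_exp_neg (-L.br Y)
  rw [neg_neg] at h1
  refine ⟨⟨Function.LeftInverse.injective h1,
    Function.RightInverse.surjective (exp_comp_exp_neg _)⟩, L.star_exp hY, L.exp_br_map Y,
    fun X => ⟨fun h => ?_, L.inv Y hY X⟩⟩
  have := L.inv (-Y) (by rw [star_neg, hY]) _ h
  rwa [map_neg, h1] at this

theorem isAut_one : L.IsAut 1 := by
  exact ⟨Function.bijective_id, fun _ => rfl, fun _ _ => rfl, fun _ => Iff.rfl⟩

variable {L}

theorem IsAut.mul {θ θ' : (Fin N → ℂ) →L[ℂ] (Fin N → ℂ)} (h : L.IsAut θ) (h' : L.IsAut θ') :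
    L.IsAut (θ * θ') := by
  exact ⟨h.bij.comp h'.bij, fun U => (h.star_map _).trans (congrArg θ (h'.star_map U)),
    fun U V => (congrArg θ (h'.br_map U V)).trans (h.br_map _ _),
    fun X => (h.mem_iff _).trans (h'.mem_iff X)⟩

theorem IsAut.kil {θ : (Fin N → ℂ) →L[ℂ] (Fin N → ℂ)} (h : L.IsAut θ) (U V : Fin N → ℂ) :
    L.kil (θ U) (θ V) = L.kil U V := by
  rw [LCtx.kil, LCtx.kil, ← LinearMap.trace_conj' ((L.br U).comp (L.br V) : _ →ₗ[ℂ] _)
    (LinearEquiv.ofBijective θ.toLinearMap h.bij)]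
  congr 1
  refine LinearMap.ext fun W => ?_
  obtain ⟨W, rfl⟩ := (LinearEquiv.ofBijective θ.toLinearMap h.bij).surjective W
  rw [LinearEquiv.conj_apply_apply, LinearEquiv.symm_apply_apply]
  exact ((h.br_map _ _).trans (congrArg _ (h.br_map _ _))).symm

theorem IsAut.exp_eq_one {θ : (Fin N → ℂ) →L[ℂ] (Fin N → ℂ)} (h : L.IsAut θ) {V : Fin N → ℂ}
    (hV : NormedSpace.exp (L.br V) = 1) : NormedSpace.exp (L.br (θ V)) = 1 := by
  refine ContinuousLinearMap.ext fun W => ?_
  obtain ⟨W, rfl⟩ := h.bij.2 W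
  rw [← exp_semiconj (h.br_map V), hV]
  rfl

theorem isAut_of_mem_inn {q : Submodule ℂ (Fin N → ℂ)} {g : (Fin N → ℂ) →L[ℂ] (Fin N → ℂ)}
    (h : g ∈ L.inn q) : L.IsAut g := by
  induction h using Submonoid.closure_induction with
  | mem g hg =>
    obtain ⟨Y, -, hY, rfl⟩ := hg
    exact L.isAut_exp hY
  | one => exact L.isAut_one
  | mul _ _ _ _ h h' => exact h.mul h'

theorem Nondeg.eq_zero (h : L.Nondeg) {U : Fin N → ℂ} (hU : L.br U = 0) : U = 0 := by
  exact h U fun V => by simp [kil, hU]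

/-- The Killing form is negative on elliptic elements. -/
theorem kil_of_ell {Y : Fin N → ℂ} (h : Ell (L.br Y)) :
    ∃ c : ℝ, 0 ≤ c ∧ L.kil Y Y = -(c : ℂ) ∧ (c = 0 → L.br Y = 0) :=
  h.trace_sq

end LCtx

end Pool.Agent.P.MP_2ff09b_gt
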