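import Pool.Agent.P.MP_2ff09b_gt.L3

/-! CVX-L8. Root vectors.
Sketch. root_decomp: choose a complex subspace T containing X, stable under star, abelian, inside
ker (ad X), of maximal dimension. Its real elements are elliptic (ell_of_comm) and commute, so the
space is the sum of the joint eigenspaces of the real elements of T
(Module.End.iSup_iInf_maxGenEigenspace_eq_top_of_iSup_maxGenEigenspace_eq_top_of_commute with
Ell.eq_zero_of_sq, or induction on a basis with Ell.mem_span). If u is a joint eigenvector then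
κ = [u, star u] commutes with T and star κ = -κ, so κ is in T by maximality, hence [κ, u] = c u.
Decompose each spanning eigenvector of pm X into joint eigenvectors (their X-weight is the same) and
regroup by weight; vectors of different weights are orthogonal by kil_eigen (the weights of real
elements are imaginary). root_pos: h = kil U (star U) is real (kil_star, kil_comm). With
κ = [U, star U], Y = U + star U, E = U - star U: [Y, X] = i k E, [Y, E] = -2 κ, [Y, κ] = -c E and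
kil κ κ = c h. κ is nonzero (eq_zero_of_br_br), i κ is real and commutes with X, so kil κ κ > 0.
If h <= 0 then h < 0 and c < 0 is real; with ω² = -2 c and t = π/ω the operator exp (t ad Y) fixes Y
and X + (i k / c) κ and negates E and κ (eigenvectors of ad Y in the span of E and κ with
eigenvalues ± i ω, exp_apply_eigen); NoSu2 gives U = 0. -/

open Set MeasureTheory Complex Filter Topology Metric

noncomputable section

namespace Pool.Agent.P.MP_2ff09b_gt

variable {N : ℕ} (L : LCtx N)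

namespace LCtx


variable {L}

theorem L8_star {Y u : Fin N → ℂ} {μ : ℂ} (hY : star Y = Y) (h : L.br Y u = μ • u) :
    L.br Y (star u) = (starRingEnd ℂ) μ • star u := by
  rw [← hY, ← L.star_br, h, star_smul]
  rfl

theorem L8_real (u : Fin N → ℂ) : star (I • L.br u (star u)) = I • L.br u (star u) := by
  rw [star_smul, L.star_br, star_star, L.anti, star_def, conj_I, neg_smul_neg]

theorem L8_inv {Y Z u : Fin N → ℂ} {μ : ℂ} (h : L.br Y Z = 0)
    (hu : u ∈ Module.End.eigenspace (L.br Y).toLinearMap μ) :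
    L.br Z u ∈ Module.End.eigenspace (L.br Y).toLinearMap μ :=
  Module.End.mem_eigenspace_iff.2 (by
    simpa using L.br_eigen (a := 0) (by rw [h, zero_smul]) (Module.End.mem_eigenspace_iff.1 hu))

theorem L8_max {X : Fin N → ℂ} (hX : L.IntC X) : ∃ F : Finset (Fin N → ℂ), X ∈ F ∧
    (∀ Y ∈ F, star Y = Y) ∧ (∀ Y ∈ F, ∀ Z ∈ F, L.br Y Z = 0) ∧ ∀ Z, star Z = Z →
      (∀ Y ∈ F, L.br Y Z = 0) → Z ∈ Submodule.span ℂ (F : Set (Fin N → ℂ)) := by
  classical
  obtain ⟨_, ⟨F, ⟨h1, h2, h3⟩, rfl⟩, h4⟩ := wellFounded_gt.has_min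
    ((fun F : Finset (Fin N → ℂ) => Submodule.span ℂ (F : Set (Fin N → ℂ))) ''
      {F | X ∈ F ∧ (∀ Y ∈ F, star Y = Y) ∧ ∀ Y ∈ F, ∀ Z ∈ F, L.br Y Z = 0})
    ⟨_, {X}, ⟨by simp, by simpa using L.real X hX.1, by simpa using L.br_self X⟩, rfl⟩
  refine ⟨F, h1, h2, h3, fun Z hZ hc => by_contra fun hn => h4 _ ⟨insert Z F,
    ⟨Finset.mem_insert_of_mem h1, by simpa using ⟨hZ, h2⟩, ?_⟩, rfl⟩ ?_⟩
  · simp only [Finset.forall_mem_insert]
    exact ⟨⟨L.br_self Z, fun Y hY => by rw [L.anti, hc Y hY, neg_zero]⟩,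
      fun Y hY => ⟨hc Y hY, h3 Y hY⟩⟩
  · exact SetLike.lt_iff_le_and_exists.2 ⟨Submodule.span_mono (by simp), Z,
      Submodule.subset_span (by simp), hn⟩

theorem L8_joint {F : Finset (Fin N → ℂ)} (hc : ∀ Y ∈ F, ∀ Z ∈ F, L.br Y Z = 0)
    (he : ∀ Y ∈ F, Ell (L.br Y)) (G : Finset (Fin N → ℂ)) (hG : G ⊆ F) :
    ∀ S : Submodule ℂ (Fin N → ℂ), (∀ Y ∈ F, ∀ u ∈ S, L.br Y u ∈ S) → ∀ {v}, v ∈ S →
      v ∈ Submodule.span ℂ {u | u ∈ S ∧ ∀ Y ∈ G, ∃ lam : ℝ, L.br Y u = (I * lam) • u} := by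
  classical
  induction G using Finset.induction_on with
  | empty => exact fun S _ v hv => Submodule.subset_span ⟨hv, by simp⟩
  | insert Y G _ ih =>
    intro S hS v hv
    have hY := hG (Finset.mem_insert_self Y G)
    refine Submodule.span_le.2 ?_ ((he Y hY).mem_span (hS Y hY) hv)
    rintro u ⟨hu, lam, hl⟩
    refine Submodule.span_mono ?_ (ih ((Finset.subset_insert Y G).trans hG)
      (S ⊓ Module.End.eigenspace (L.br Y).toLinearMap (I * lam))
      (fun Z hZ w hw => ⟨hS Z hZ w hw.1, L8_inv (hc Y hY Z hZ) hw.2⟩)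
      ⟨hu, Module.End.mem_eigenspace_iff.2 hl⟩)
    rintro w ⟨hw, hw'⟩
    exact ⟨hw.1, (Finset.forall_mem_insert _ _ _).2
      ⟨⟨lam, Module.End.mem_eigenspace_iff.1 hw.2⟩, hw'⟩⟩

theorem L8_rot {T : (Fin N → ℂ) →L[ℂ] (Fin N → ℂ)} {a b : Fin N → ℂ}
    (ha : T a = (Real.pi : ℂ) • b) (hb : T b = (-Real.pi : ℂ) • a) :
    NormedSpace.exp T a = -a ∧ NormedSpace.exp T b = -b := by
  have h1 := exp_apply_eigen (T := T) (v := a + I • b) (μ := -(Real.pi * I)) (by
    rw [map_add, map_smul, ha, hb]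
    match_scalars
    · linear_combination Real.pi * I_mul_I
    · ring)
  have h2 := exp_apply_eigen (T := T) (v := a - I • b) (μ := Real.pi * I) (by
    rw [map_sub, map_smul, ha, hb]
    match_scalars
    · linear_combination Real.pi * I_mul_I
    · ring)
  rw [exp_neg_pi_mul_I, map_add, map_smul] at h1
  rw [exp_pi_mul_I, map_sub, map_smul] at h2
  refine ⟨smul_right_injective _ (two_ne_zero (α := ℂ)) ?_,
    smul_right_injective _ (mul_ne_zero two_ne_zero I_ne_zero) ?_⟩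
  · linear_combination (norm := module) h1 + h2
  · linear_combination (norm := module) h1 - h2

theorem IntC.root_decomp {X : Fin N → ℂ} (hX : L.IntC X) {U : Fin N → ℂ} (hU : U ∈ L.pm X) :
    ∃ s : Finset (Fin N → ℂ), (∀ u ∈ s, L.Root X u) ∧ U = ∑ u ∈ s, u ∧
      ∀ u ∈ s, ∀ u' ∈ s, u ≠ u' → L.kil u (star u') = 0 := by
  classical
  obtain ⟨F, hXF, hr, hc, hmax⟩ := L8_max hX
  have hell : ∀ Y ∈ F, Ell (L.br Y) := fun Y hY => hX.ell_of_comm (hr Y hY) (hc Y hY X hXF)
  let W : {φ : F → ℝ // φ ⟨X, hXF⟩ < 0} → Submodule ℂ (Fin N → ℂ) := fun φ =>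
    ⨅ Y : F, Module.End.eigenspace (L.br Y).toLinearMap (I * φ.1 Y)
  have mW : ∀ φ u, u ∈ W φ ↔ ∀ Y : F, L.br Y u = (I * φ.1 Y) • u := fun φ u => by
    simp only [W, Submodule.mem_iInf, Module.End.mem_eigenspace_iff]
    rfl
  have h1 : U ∈ ⨆ φ, W φ := by
    refine Submodule.span_le.2 ?_ hU
    rintro v ⟨k, hk, hv⟩
    refine Submodule.span_le.2 ?_ (L8_joint hc hell F Finset.Subset.rfl
      (Module.End.eigenspace (L.br X).toLinearMap (-(I * k)))
      (fun Y hY u hu => L8_inv (hc X hXF Y hY) hu) (Module.End.mem_eigenspace_iff.2 hv))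
    rintro u ⟨hu, hu'⟩
    choose φ hφ using fun Y : F => hu' Y Y.2
    refine Submodule.mem_iSup_of_mem ⟨Function.update φ ⟨X, hXF⟩ (-k), by simpa using hk⟩
      ((mW _ u).2 fun Y => ?_)
    by_cases e : Y = ⟨X, hXF⟩
    · subst e
      simpa using Module.End.mem_eigenspace_iff.1 hu
    · simpa [Function.update_of_ne e] using hφ Y
  obtain ⟨f, hf, rfl⟩ := (Submodule.mem_iSup_iff_exists_finsupp W U).1 h1
  have hf' := fun φ => (mW φ _).1 (hf φ)
  refine ⟨f.support.image f, fun u hu => ?_, ?_, fun u hu u' hu' ne => ?_⟩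
  · obtain ⟨φ, -, rfl⟩ := Finset.mem_image.1 hu
    refine ⟨⟨-φ.1 ⟨X, hXF⟩, neg_pos.2 φ.2, by simpa using hf' φ ⟨X, hXF⟩⟩, ?_⟩
    have h2 : I • L.br (f φ) (star (f φ)) ∈ Submodule.span ℂ (F : Set (Fin N → ℂ)) := by
      refine hmax _ (L8_real _) fun Y hY => ?_
      rw [map_smul, L.br_eigen (hf' φ ⟨Y, hY⟩) (L8_star (hr Y hY) (hf' φ ⟨Y, hY⟩))]
      simp
    have h3 : ∀ Z ∈ Submodule.span ℂ (F : Set (Fin N → ℂ)), ∃ c : ℂ, L.br Z (f φ) = c • f φ := by
      intro Z hZ
      induction hZ using Submodule.span_induction with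
      | mem Y hY => exact ⟨_, hf' φ ⟨Y, hY⟩⟩
      | zero => exact ⟨0, by simp⟩
      | add _ _ _ _ a b =>
        obtain ⟨c, a⟩ := a
        obtain ⟨d, b⟩ := b
        exact ⟨c + d, by rw [map_add, add_apply, a, b, add_smul]⟩
      | smul t _ _ a =>
        obtain ⟨c, a⟩ := a
        exact ⟨t * c, by rw [map_smul, smul_apply, a, mul_smul]⟩
    exact h3 _ ((Submodule.smul_mem_iff _ I_ne_zero).1 h2)
  · refine (Finset.sum_image (f := fun u => u) (g := f) fun φ hφ φ' _ e =>
      Subtype.ext (funext fun Y => ?_)).symm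
    have h2 := hf' φ Y
    rw [e, hf' φ' Y, ← e] at h2
    have h3 := smul_left_injective ℂ (Finsupp.mem_support_iff.1 hφ) h2
    exact_mod_cast (mul_left_cancel₀ I_ne_zero h3).symm
  · obtain ⟨φ, -, rfl⟩ := Finset.mem_image.1 hu
    obtain ⟨φ', -, rfl⟩ := Finset.mem_image.1 hu'
    obtain ⟨Y, hY⟩ := Function.ne_iff.1 (mt Subtype.ext (mt (congrArg f) ne))
    refine L.kil_eigen (hf' φ Y) (L8_star (hr Y Y.2) (hf' φ' Y)) fun e => hY ?_
    have : I * φ.1 Y = I * φ'.1 Y := by
      rw [← sub_eq_zero, ← e]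
      simp [sub_eq_add_neg]
    exact_mod_cast mul_left_cancel₀ I_ne_zero this

theorem IntC.root_pos {X : Fin N → ℂ} (hX : L.IntC X) (hn : L.Nondeg) (hs : L.NoSu2 X)
    {U : Fin N → ℂ} (hU : L.Root X U) (h0 : U ≠ 0) : 0 < (L.kil U (star U)).re := by
  obtain ⟨⟨k, hk, hX1⟩, c, hc⟩ := hU
  obtain ⟨B, hB⟩ := L.exists_kil_bilin
  have rX := L.real X hX.1
  have hX2 : L.br X (star U) = (I * k) • star U := by simpa using L8_star rX hX1
  have kI : I * (k : ℂ) ≠ 0 := mul_ne_zero I_ne_zero (by exact_mod_cast hk.ne')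
  have rκ := L8_real (L := L) U
  have rY : star (U + star U) = U + star U := by rw [star_add, star_star, add_comm]
  have aκ : L.br (star U) U = -L.br U (star U) := L.anti _ _
  generalize hκ : L.br U (star U) = κ at hc rκ aκ
  have hXκ : L.br X κ = 0 := by
    rw [← hκ, L.br_eigen hX1 hX2]
    simp
  have hYX : L.br (U + star U) X = (I * k) • (U - star U) := by
    rw [L.anti, map_add, hX1, hX2]
    module
  have hYE : L.br (U + star U) (U - star U) = (-2 : ℂ) • κ := by
    simp only [map_add, map_sub, add_apply, L.br_self, aκ, hκ]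
    module
  have κ0 : κ ≠ 0 := fun e => h0 (by
    have h1 := eq_zero_of_br_br hX.1 rY (by rw [hYX, map_smul, hYE, e, smul_zero, smul_zero])
    rw [hYX, smul_eq_zero, or_iff_right kI, sub_eq_zero] at h1
    rw [← h1, hX1] at hX2
    have h2 : (2 * (I * k)) • U = 0 := by linear_combination (norm := module) -hX2
    exact (smul_eq_zero.1 h2).resolve_left (mul_ne_zero two_ne_zero kI))
  obtain ⟨d, d0, hd, hd0⟩ := kil_of_ell
    (hX.ell_of_comm rκ (by rw [L.anti, map_smul, hXκ, smul_zero, neg_zero]))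
  have d1 : 0 < d := d0.lt_of_ne fun e =>
    κ0 ((smul_eq_zero.1 (hn.eq_zero (hd0 e.symm))).resolve_left I_ne_zero)
  obtain ⟨h, hh⟩ : ∃ h : ℝ, L.kil U (star U) = h :=
    ⟨_, (conj_eq_iff_re.1 (by rw [← L.kil_star, star_star, L.kil_comm])).symm⟩
  have e1 : c * h = d := by
    have e2 : L.kil κ κ = c * h := by
      conv_lhs => rw [← hκ, L.kil_br, hκ, L.anti, hc, hB]
      rw [← hh, L.kil_comm, hB]
      simp
    rw [hB] at hd e2
    simp only [map_smul, smul_apply, smul_eq_mul, e2] at hd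
    linear_combination -hd + (c * h) * I_mul_I
  rw [hh, ofReal_re]
  by_contra hneg
  have h1 : h < 0 := (not_lt.1 hneg).lt_of_ne fun e => d1.ne (by
    rw [e, ofReal_zero, mul_zero] at e1
    exact_mod_cast e1)
  have h2 : (h : ℂ) ≠ 0 := by exact_mod_cast h1.ne
  obtain ⟨ω, ω0, hω⟩ : ∃ ω : ℝ, 0 < ω ∧ ω ^ 2 = -2 * (d / h) :=
    have : 0 < -2 * (d / h) := mul_pos_of_neg_of_neg (by norm_num) (div_neg_of_pos_of_neg d1 h1)
    ⟨_, Real.sqrt_pos.2 this, Real.sq_sqrt this.le⟩
  have ω1 : (ω : ℂ) ≠ 0 := by exact_mod_cast ω0.ne'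
  obtain rfl : c = ((-(ω ^ 2 / 2) : ℝ) : ℂ) := by
    rw [hω]
    push_cast
    rw [← e1]
    field_simp
  have hYκ : L.br (U + star U) κ = ((ω : ℂ) ^ 2 / 2) • (U - star U) := by
    have h3 := L8_star rκ (μ := I * ((-(ω ^ 2 / 2) : ℝ) : ℂ)) (u := U)
      (by rw [map_smul, smul_apply, hc, mul_smul])
    rw [map_smul, smul_apply, map_mul, conj_I, conj_ofReal, neg_mul,
      ← mul_neg, mul_smul] at h3
    rw [L.anti, map_add, hc, smul_right_injective _ I_ne_zero h3]
    push_cast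
    module
  have hT : ∀ v, L.br (((Real.pi / ω : ℝ) : ℂ) • (U + star U)) v =
      ((Real.pi : ℂ) / ω) • L.br (U + star U) v := fun v => by
    rw [map_smul, smul_apply, ofReal_div]
  refine h0 (hs U k (Real.pi / ω) hk hX1 ?_ ?_)
  all_goals
    generalize L.br (((Real.pi / ω : ℝ) : ℂ) • (U + star U)) = T at hT
    obtain ⟨a, b⟩ := L8_rot (T := T) (a := U - star U) (b := (-2 / ω : ℂ) • κ)
      (by rw [hT, hYE, smul_smul, smul_smul]; congr 1; ring)
      (by rw [map_smul, hT, hYκ, smul_smul, smul_smul]; congr 1; field_simp)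
  · have b' : NormedSpace.exp T κ = -κ := smul_right_injective _
      (div_ne_zero (neg_ne_zero.2 two_ne_zero) ω1) (by simpa only [map_smul, smul_neg] using b)
    have z := exp_apply_eigen (T := T) (v := X - (2 * (I * k) / ω ^ 2) • κ) (μ := 0) (by
      rw [hT, map_sub, map_smul, hYX, hYκ, smul_smul, zero_smul,
        show 2 * (I * k) / (ω : ℂ) ^ 2 * (ω ^ 2 / 2) = I * k by field_simp, sub_self, smul_zero])
    rw [map_sub, map_smul, b', Complex.exp_zero, one_smul, sub_eq_iff_eq_add] at z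
    rw [z]
    simp [L.br_self, hXκ]
  · have z := exp_apply_eigen (T := T) (v := U + star U) (μ := 0) (by
      rw [hT, L.br_self, smul_zero, zero_smul])
    rw [map_add, Complex.exp_zero, one_smul] at z
    rw [map_sub] at a
    refine smul_right_injective _ (two_ne_zero (α := ℂ)) ?_
    linear_combination (norm := module) z + a

theorem IntC.pm_pos {X : Fin N → ℂ} (hX : L.IntC X) (hn : L.Nondeg) (hs : L.NoSu2 X)
    {U : Fin N → ℂ} (hU : U ∈ L.pm X) (h0 : U ≠ 0) : 0 < (L.kil U (star U)).re := by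
  obtain ⟨s, h1, rfl, h2⟩ := hX.root_decomp hU
  obtain ⟨B, hB⟩ := L.exists_kil_bilin
  obtain ⟨u, hu, u0⟩ := Finset.exists_ne_zero_of_sum_ne_zero h0
  have e : L.kil (∑ u ∈ s, u) (star (∑ u ∈ s, u)) = ∑ u ∈ s, L.kil u (star u) := by
    rw [hB, star_sum, map_sum B, sum_apply]
    refine Finset.sum_congr rfl fun v hv => ?_
    rw [map_sum, Finset.sum_eq_single_of_mem v hv fun w hw ne => by rw [← hB, h2 v hv w hw ne.symm],
      hB]
  rw [e, re_sum]
  refine Finset.sum_pos' (fun v hv => ?_) ⟨u, hu, hX.root_pos hn hs (h1 u hu) u0⟩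
  by_cases v0 : v = 0
  · simp [v0, hB]
  · exact (hX.root_pos hn hs (h1 v hv) v0).le

end LCtx

end Pool.Agent.P.MP_2ff09b_gt
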