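import Pool.Agent.P.MP_2ff09b_gt.L8

/-! CVX-L9. The lowering part is abelian.
Sketch. Let h(A, B) = kil A (star B), a = ad U, b = ad (star U), κ = [U, star U], so
h(a v, w) = -h(v, b w), a b - b a = ad κ, [κ, U] = c U, [κ, star U] = -c star U, and c is real,
c >= 0 (kil κ κ = c h(U, U), i κ is real elliptic). If a V is nonzero, decompose V inside the
eigenspace of ad X into eigenvectors of ad κ (Ell.mem_span for ad (i κ)): there is v with a v nonzero
and real eigenvalue. Let w = a^j v be the last nonzero iterate (the weights for ad X are finitely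
many, Ell.exists_fun), j >= 1, with ad κ eigenvalue μ. Then b w is in pm X,
h(b w, b w) = -μ h(w, w), and b w is nonzero since h(b w, a^(j-1) v) = -h(w, w); so μ < 0. By
induction a b^(i+1) w = (i+1) (μ - i c / 2) b^i w, so all b^i w are nonzero, against the finiteness
of the weights. pm_comm: root_decomp and bilinearity. -/

open Set MeasureTheory Complex Filter Topology Metric

noncomputable section

namespace Pool.Agent.P.MP_2ff09b_gt

variable {N : ℕ} (L : LCtx N)

namespace LCtx


variable {L}

private theorem L9_fin {T : (Fin N → ℂ) →L[ℂ] (Fin N → ℂ)} (hT : Ell T) (u : ℕ → Fin N → ℂ)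
    {α β : ℝ} (hβ : β ≠ 0) (hu : ∀ n : ℕ, T (u n) = (I * ((α + n * β : ℝ) : ℂ)) • u n) :
    ∃ n, u n = 0 := by
  obtain ⟨Λ, C, hΛ, -⟩ := hT.exists_fun
  by_contra hne
  push Not at hne
  have hinj : Function.Injective (fun n : ℕ => α + n * β) := by
    intro m n h
    have h' : (m : ℝ) * β = n * β := add_left_cancel h
    exact_mod_cast mul_right_cancel₀ hβ h'
  exact Λ.finite_toSet.not_infinite
    (Set.infinite_of_injective_forall_mem hinj fun n => hΛ (u n) _ (hne n) (hu n))

private theorem L9_iter {Y A v : Fin N → ℂ} {a b : ℂ} (hA : L.br Y A = a • A)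
    (hv : L.br Y v = b • v) (n : ℕ) :
    L.br Y ((L.br A)^[n] v) = (b + n * a) • (L.br A)^[n] v := by
  induction n with
  | zero => simpa using hv
  | succ n ih =>
    rw [Function.iterate_succ_apply', L.br_eigen hA ih]
    congr 1
    push_cast
    ring

private theorem L9_adj (U v w : Fin N → ℂ) :
    L.kil (L.br U v) (star w) = -L.kil v (star (L.br (star U) w)) := by
  rw [L.kil_br, L.star_br, star_star]

private theorem L9_real (U : Fin N → ℂ) :
    L.kil U (star U) = ((L.kil U (star U)).re : ℂ) := by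
  have h := L.kil_star U (star U)
  rw [star_star, L.kil_comm (star U) U] at h
  exact (Complex.conj_eq_iff_re.1 h.symm).symm

theorem IntC.root_comm {X : Fin N → ℂ} (hX : L.IntC X)
    (hp : ∀ U ∈ L.pm X, U ≠ 0 → 0 < (L.kil U (star U)).re) {U V : Fin N → ℂ} (hU : L.Root X U)
    {k : ℝ} (hk : 0 < k) (hV : L.br X V = (-(I * k)) • V) : L.br U V = 0 := by
  by_cases hU0 : U = 0
  · simp [hU0]
  obtain ⟨⟨k0, hk0, hXU⟩, c, hc⟩ := hU
  obtain ⟨B, hB⟩ := L.exists_kil_bilin
  have hXr : star X = X := L.real X hX.1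
  have hXs : L.br X (star U) = (I * k0) • star U := by
    have h := L.star_br X U
    rw [hXr, hXU] at h
    rw [← h, star_smul]
    congr 1
    simp
  set κ := L.br U (star U) with hκ
  have hκs : star κ = -κ := by
    rw [hκ, L.star_br, star_star, L.anti]
  have hXκ : L.br X κ = (0 : ℂ) • κ := by
    have h := L.br_eigen hXU hXs
    rwa [neg_add_cancel] at h
  have hIκ : star (I • κ) = I • κ := by
    rw [star_smul, hκs]
    simp
  have hXIκ : L.br X (I • κ) = (0 : ℂ) • (I • κ) := by
    rw [map_smul, hXκ]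
    simp
  have hell : Ell (L.br (I • κ)) := by
    refine hX.ell_of_comm hIκ ?_
    rw [L.anti, hXIκ]
    simp
  have hUpm : U ∈ L.pm X := Submodule.subset_span ⟨k0, hk0, hXU⟩
  -- the constant c is real and nonnegative
  obtain ⟨c', hc'0, hc'⟩ : ∃ c' : ℝ, 0 ≤ c' ∧ c = c' := by
    obtain ⟨e, he0, he, -⟩ := L.kil_of_ell hell
    have h1 : L.kil κ κ = e := by
      rw [hB] at he ⊢
      simp only [map_smul, ContinuousLinearMap.smul_apply, smul_eq_mul] at he
      have : I * (I * B κ κ) = -B κ κ := by
        rw [← mul_assoc, I_mul_I]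
        ring
      rw [this] at he
      exact neg_injective he
    have h2 : L.kil κ κ = c * L.kil U (star U) := by
      have h3 : L.kil κ κ = -L.kil (star U) (L.br U κ) := L.kil_br U (star U) κ
      rw [h3, L.anti U κ, hc, L.kil_comm U, hB, hB]
      simp
    have hpos := hp U hUpm hU0
    rw [L9_real U, h1] at h2
    refine ⟨e / (L.kil U (star U)).re, div_nonneg he0 hpos.le, ?_⟩
    have hne : (((L.kil U (star U)).re : ℝ) : ℂ) ≠ 0 := by exact_mod_cast hpos.ne'
    rw [Complex.ofReal_div, eq_div_iff hne]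
    exact h2.symm
  subst hc'
  have hcs : L.br κ (star U) = (-(c' : ℂ)) • star U := by
    have h := L.star_br κ U
    rw [hκs, hc, map_neg, ContinuousLinearMap.neg_apply, star_smul] at h
    rw [neg_smul, ← neg_eq_iff_eq_neg, ← h]
    congr 1
    simp
  have hab : ∀ v, L.br U (L.br (star U) v) = L.br κ v + L.br (star U) (L.br U v) :=
    fun v => L.jacobi U (star U) v
  -- reduce to eigenvectors of ad κ
  let S : Submodule ℂ (Fin N → ℂ) :=
    { carrier := {v | L.br X v = (-(I * k)) • v}
      add_mem' := fun {x y} hx hy => by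
        simp only [Set.mem_setOf_eq] at hx hy ⊢
        rw [map_add, hx, hy, smul_add]
      zero_mem' := by simp
      smul_mem' := fun r x hx => by
        simp only [Set.mem_setOf_eq] at hx ⊢
        rw [map_smul, hx, smul_comm] }
  have hS : ∀ v ∈ S, L.br (I • κ) v ∈ S := fun v hv => by
    have h := L.br_eigen hXIκ (show L.br X v = (-(I * k)) • v from hv)
    rw [zero_add] at h
    exact h
  have hmem := hell.mem_span hS (show V ∈ S from hV)
  refine Submodule.span_induction (p := fun v _ => L.br U v = 0) ?_ (map_zero _)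
    (fun x y _ _ hx hy => by rw [map_add, hx, hy, add_zero])
    (fun r x _ hx => by rw [map_smul, hx, smul_zero]) hmem
  rintro u ⟨huS, lam, hlam⟩
  have huX : L.br X u = (-(I * k)) • u := huS
  have huκ : L.br κ u = (lam : ℂ) • u := by
    rw [map_smul, ContinuousLinearMap.smul_apply, mul_smul] at hlam
    exact smul_right_injective _ I_ne_zero hlam
  by_contra hne
  have hwX : ∀ n : ℕ, L.br X ((L.br U)^[n] u) =
      (-(I * ((k + n * k0 : ℝ) : ℂ))) • (L.br U)^[n] u := fun n => by
    rw [L9_iter hXU huX]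
    congr 1
    push_cast
    ring
  have hwpm : ∀ n : ℕ, ∀ v, L.br X v = (-(I * ((k + n * k0 : ℝ) : ℂ))) • v → v ∈ L.pm X :=
    fun n v hv => Submodule.subset_span ⟨k + n * k0, by positivity, hv⟩
  obtain ⟨j, hj1, hj2⟩ : ∃ j : ℕ, (L.br U)^[j + 1] u ≠ 0 ∧ (L.br U)^[j + 1 + 1] u = 0 := by
    by_contra hno
    push Not at hno
    have hall : ∀ j : ℕ, (L.br U)^[j + 1] u ≠ 0 := fun j => by
      induction j with
      | zero => simpa using hne
      | succ j ih => exact hno j ih
    obtain ⟨n, hn⟩ := L9_fin hX.ell (fun n => (L.br U)^[n + 1] u) (α := -(k + k0)) (β := -k0)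
      (by linarith) (fun n => by
        rw [hwX]
        congr 1
        push_cast
        ring)
    exact hall n hn
  set w := (L.br U)^[j + 1] u with hw
  have haw : L.br U w = 0 := by
    rw [Function.iterate_succ_apply'] at hj2
    exact hj2
  have hwa : w = L.br U ((L.br U)^[j] u) := by
    rw [hw, Function.iterate_succ_apply']
  set μ : ℝ := lam + (j + 1 : ℕ) * c' with hμ
  have hwκ : L.br κ w = (μ : ℂ) • w := by
    rw [hw, L9_iter hc huκ, hμ]
    congr 1
    push_cast
    ring
  have hwX' : L.br X w = (-(I * ((k + (j + 1 : ℕ) * k0 : ℝ) : ℂ))) • w := hwX (j + 1)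
  have hwpos := hp w (hwpm (j + 1) w hwX') hj1
  have hbwX : L.br X (L.br (star U) w) = (-(I * ((k + j * k0 : ℝ) : ℂ))) • L.br (star U) w := by
    rw [L.br_eigen hXs hwX']
    congr 1
    push_cast
    ring
  have hbw0 : L.br (star U) w ≠ 0 := by
    intro h0
    have h := L9_adj (L := L) U ((L.br U)^[j] u) w
    rw [← hwa, h0, star_zero, hB ((L.br U)^[j] u), map_zero, neg_zero] at h
    rw [h] at hwpos
    simp at hwpos
  have hbwpos := hp _ (hwpm j _ hbwX) hbw0
  have hμneg : μ < 0 := by
    have h := L9_adj (L := L) U (L.br (star U) w) w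
    rw [hab, haw, map_zero, add_zero, hwκ, hB ((μ : ℂ) • w), map_smul,
      ContinuousLinearMap.smul_apply, smul_eq_mul, ← hB] at h
    have h' := congrArg Complex.re h
    rw [Complex.re_ofReal_mul, Complex.neg_re] at h'
    by_contra hμ0
    push Not at hμ0
    have := mul_nonneg hμ0 hwpos.le
    linarith
  have hrec : ∀ i : ℕ, L.br U ((L.br (star U))^[i + 1] w) =
      (((i + 1) * (μ - i * c' / 2) : ℝ) : ℂ) • (L.br (star U))^[i] w := fun i => by
    induction i with
    | zero =>
      rw [Function.iterate_succ_apply', hab, Function.iterate_zero_apply, haw, map_zero, add_zero,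
        hwκ]
      congr 1
      push_cast
      ring
    | succ i ih =>
      rw [Function.iterate_succ_apply', hab, ih, L9_iter hcs hwκ, map_smul,
        ← Function.iterate_succ_apply' (L.br (star U)), ← add_smul]
      congr 1
      push_cast
      ring
  have hall : ∀ i : ℕ, (L.br (star U))^[i] w ≠ 0 := fun i => by
    induction i with
    | zero => exact hj1
    | succ i ih =>
      intro h0
      have h := hrec i
      rw [h0, map_zero] at h
      rcases smul_eq_zero.1 h.symm with h1 | h1
      · have h2 : ((i : ℝ) + 1) * (μ - i * c' / 2) = 0 := by exact_mod_cast h1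
        have h3 : (0 : ℝ) ≤ i * c' / 2 := by positivity
        have h4 : (0 : ℝ) < (i : ℝ) + 1 := by positivity
        rcases mul_eq_zero.1 h2 with h5 | h5 <;> linarith
      · exact ih h1
  obtain ⟨n, hn⟩ := L9_fin hX.ell (fun n => (L.br (star U))^[n] w)
    (α := -(k + (j + 1 : ℕ) * k0)) (β := k0) hk0.ne' (fun n => by
      rw [L9_iter hXs hwX']
      congr 1
      push_cast
      ring)
  exact hall n hn

theorem IntC.pm_comm {X : Fin N → ℂ} (hX : L.IntC X)
    (hp : ∀ U ∈ L.pm X, U ≠ 0 → 0 < (L.kil U (star U)).re) {U V : Fin N → ℂ} (hU : U ∈ L.pm X)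
    (hV : V ∈ L.pm X) : L.br U V = 0 := by
  obtain ⟨s, hs, hsum, -⟩ := hX.root_decomp hU
  refine Submodule.span_induction (p := fun v _ => L.br U v = 0) ?_ (map_zero _)
    (fun x y _ _ hx hy => by rw [map_add, hx, hy, add_zero])
    (fun r x _ hx => by rw [map_smul, hx, smul_zero]) hV
  rintro v ⟨k, hk, hv⟩
  rw [hsum, map_sum, ContinuousLinearMap.sum_apply]
  exact Finset.sum_eq_zero fun u hu => hX.root_comm hp (hs u hu) hk hv

end LCtx

end Pool.Agent.P.MP_2ff09b_gt
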