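import Pool.Agent.P.MP_2ff09b_gt.P5

/-! CVX-P7. The Jacobian of `Tm` is bounded and tends to zero.
Sketch. Let A = cA (mom z), G = gram z, A = S Sᵀ, Sᵀ G S = diagonal λ (exists_simul_diag), λ i > 0
(gram_posDef), det (1 + s A G) = ∏ (1 + s λ i). Let u i be the columns of S and
a i = fld (rc (u i)) z / sqrt (λ i). By levi_fld, levi (∑ x i a i) = ∑ |x i|², so nr (a i) <= 1
(nr_sq_le_levi) and ‖x‖ <= c nr (∑ x i a i) (exists_levi_le). jacK_le bounds the Jacobian by
C ∏ nr (dφ (a i))², each factor is at most 1 (nr_comp) and at most (2/(c1 s))²/λ i: u i = A a' with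
a' ⬝ A a' = 1, so dikin (for a' and -a') puts s Z ± s c1 u i in the cone and strip applies.
Finally (1 + s λ) min (1, k/(s² λ)) <= 1 + 2 k + 1 type bound for s >= 1, and it tends to 0 for
fixed λ > 0; there is at least one factor since N > 0. -/

open Set MeasureTheory Complex Filter Topology Metric

noncomputable section

namespace Pool.Agent.P.MP_2ff09b_gt

variable {n N : ℕ} {D : Set (Fin n → ℂ)} {W : Fin N → (Fin n → ℂ) → Fin n → ℂ}


open Matrix in
private theorem P7_mat {A G : Matrix (Fin N) (Fin N) ℝ} (hA : A.PosDef) (hG : G.PosDef)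
    (hG' : G.IsSymm) : ∃ (S : Matrix (Fin N) (Fin N) ℝ) (lam : Fin N → ℝ), (∀ i, 0 < lam i) ∧
      (∀ s : ℝ, (1 + s • (A * G)).det = ∏ i, (1 + s * lam i)) ∧
      (∀ p, (S *ᵥ p) ⬝ᵥ G *ᵥ (S *ᵥ p) = p ⬝ᵥ p) ∧
      ∀ i, ∃ a, a ⬝ᵥ A *ᵥ a = 1 ∧ S *ᵥ Pi.single i 1 = (√(lam i))⁻¹ • A *ᵥ a := by
  obtain ⟨S, lam, hS, e1, e2⟩ := exists_simul_diag hA hG'
  have hl : ∀ i, 0 < lam i := by
    have := hG.conjTranspose_mul_mul_same
      (mulVec_injective_iff_isUnit.2 ((isUnit_iff_isUnit_det S).2 hS))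
    rw [conjTranspose_eq_transpose_of_trivial, e2] at this
    exact posDef_diagonal_iff.1 this
  refine ⟨S * diagonal fun i => (√(lam i))⁻¹, lam, hl, fun s => ?_, fun p => ?_, fun i => ?_⟩
  · rw [e1, Matrix.mul_assoc, ← Matrix.mul_smul, det_one_add_mul_comm, Matrix.smul_mul, e2,
      ← diagonal_one, ← diagonal_smul, diagonal_add, det_diagonal]
    rfl
  · have e : (S * diagonal fun i => (√(lam i))⁻¹)ᵀ * G * (S * diagonal fun i => (√(lam i))⁻¹) =
        1 := by
      rw [transpose_mul, diagonal_transpose, Matrix.mul_assoc _ Sᵀ, Matrix.mul_assoc,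
        ← Matrix.mul_assoc _ S, e2, diagonal_mul_diagonal, diagonal_mul_diagonal, ← diagonal_one]
      congr 1
      funext i
      have h1 := Real.mul_self_sqrt (hl i).le
      have h2 := (Real.sqrt_pos.2 (hl i)).ne'
      field_simp
      linarith
    generalize (S * diagonal fun i => (√(lam i))⁻¹) = T at e
    rw [← vecMul_transpose, ← dotProduct_mulVec, vecMul_transpose, mulVec_mulVec, mulVec_mulVec, e,
      one_mulVec]
  · have e : A *ᵥ (S⁻¹ᵀ *ᵥ Pi.single i 1) = S *ᵥ Pi.single i 1 := by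
      rw [mulVec_mulVec, e1, Matrix.mul_assoc, ← transpose_mul, nonsing_inv_mul _ hS, transpose_one,
        Matrix.mul_one]
    refine ⟨S⁻¹ᵀ *ᵥ Pi.single i 1, ?_, ?_⟩
    · rw [e, mulVec_transpose, ← dotProduct_mulVec, mulVec_mulVec, nonsing_inv_mul _ hS, one_mulVec]
      simp
    · rw [e, ← mulVec_mulVec, ← mulVec_smul, diagonal_mulVec_single, ← Pi.single_smul']
      rfl

open Matrix in
private theorem P7_key (hD : BCD D) (hW : ACtx D W) : ∃ C k : ℝ, 0 < C ∧ 0 < k ∧
    ∀ z ∈ freeSet D W, ∃ lam : Fin N → ℝ, (∀ i, 0 < lam i) ∧ ∀ s : ℝ, 0 < s →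
      jacK D (phi D W (s • cZ (acone D W) (mom D W z))) z *
        |(1 + s • (cA (acone D W) (mom D W z) * gram D W z)).det| ≤
        C * ∏ i, (min 1 (k / (s ^ 2 * lam i)) * (1 + s * lam i)) := by
  have hC := hW.pcone hD
  obtain ⟨C₁, hC₁, h1⟩ := exists_levi_le hD
  obtain ⟨C, hC0, h2⟩ := jacK_le hD (Real.sqrt_pos.2 hC₁)
  obtain ⟨c, hc, h3⟩ := hC.dikin
  refine ⟨C, 4 / c ^ 2, hC0, by positivity, fun z hz => ?_⟩
  have hη := hW.mom_mem hD hz
  obtain ⟨S, lam, hl, e1, e2, e3⟩ :=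
    P7_mat (hC.cA_posDef hη) (hW.gram_posDef hD hz) (gram_isSymm hD hz.1)
  refine ⟨lam, hl, fun s hs => ?_⟩
  have hV := interior_subset (hW.smul_cZ_mem hD hz hs)
  have lev : ∀ p q, levi D z (fld W (rc (S *ᵥ p) + I • rc (S *ᵥ q)) z)
      (fld W (rc (S *ᵥ p) + I • rc (S *ᵥ q)) z) = p ⬝ᵥ p + q ⬝ᵥ q := fun p q => by
    rw [hW.levi_fld hD hz.1, e2, e2]
  have a1 : ∀ i, nr D z (fld W (rc (S *ᵥ Pi.single i 1)) z) ≤ 1 := fun i => by
    have := lev (Pi.single i 1) 0
    rw [mulVec_zero, rc_zero, smul_zero, add_zero] at this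
    refine (sq_le_one_iff₀ (nr_nonneg hz.1 _)).1 ((nr_sq_le_levi hD hz.1 _).trans_eq ?_)
    simpa using this
  have a2 := h2 _ (phi_hol hD.isOpen hV) (phi_maps hV) z hz.1 N
    (fun i => fld W (rc (S *ᵥ Pi.single i 1)) z) a1 fun x => by
      have e : ∑ i, x i • fld W (rc (S *ᵥ Pi.single i 1)) z =
          fld W (rc (S *ᵥ fun i => (x i).re) + I • rc (S *ᵥ fun i => (x i).im)) z := by
        simp only [← fldL_apply, ← map_smul, ← map_sum]
        congr 1
        funext j
        simp only [Finset.sum_apply, Pi.smul_apply, Pi.add_apply, rc_apply, mulVec_single_one,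
          col_apply, mulVec, dotProduct, ofReal_sum, smul_eq_mul, Finset.mul_sum,
          ← Finset.sum_add_distrib, ofReal_mul]
        exact Finset.sum_congr rfl fun i _ => by
          linear_combination (S j i : ℂ) * (re_add_im (x i)).symm
      have h0 := nr_nonneg hz.1 (∑ i, x i • fld W (rc (S *ᵥ Pi.single i 1)) z)
      refine (pi_norm_le_iff_of_nonneg (by positivity)).2 fun i => ?_
      refine (sq_le_sq₀ (norm_nonneg _) (by positivity)).1 ?_
      rw [mul_pow, Real.sq_sqrt hC₁.le, e]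
      refine le_trans ?_ (h1 z hz.1 _)
      rw [lev, Complex.sq_norm, normSq_apply]
      exact add_le_add
        (Finset.single_le_sum (f := fun i => (x i).re * (x i).re) (fun _ _ => mul_self_nonneg _)
          (Finset.mem_univ i))
        (Finset.single_le_sum (f := fun i => (x i).im * (x i).im) (fun _ _ => mul_self_nonneg _)
          (Finset.mem_univ i))
  have p1 : ∀ i, 0 ≤ 1 + s * lam i := fun i => by have := hl i; positivity
  rw [e1, abs_of_nonneg (Finset.prod_nonneg fun i _ => p1 i), Finset.prod_mul_distrib, ← mul_assoc]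
  refine mul_le_mul_of_nonneg_right (a2.trans (mul_le_mul_of_nonneg_left
    (Finset.prod_le_prod (fun i _ => sq_nonneg _) fun i _ => le_min ?_ ?_) hC0.le))
    (Finset.prod_nonneg fun i _ => p1 i)
  · exact (sq_le_one_iff₀ (nr_nonneg (phi_maps hV hz.1) _)).2
      ((nr_comp hD hD.isOpen (phi_hol hD.isOpen hV) (phi_maps hV) hz.1 _).trans (a1 i))
  · obtain ⟨a, ha, ea⟩ := e3 i
    have m1 := hC.smul_mem s hs.le _ (h3 _ hη a ha.le)
    have m2 := hC.smul_mem s hs.le _ (h3 _ hη (-a) (by simpa [mulVec_neg] using ha.le))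
    rw [mulVec_neg, smul_neg, ← sub_eq_add_neg, smul_sub] at m2
    rw [smul_add] at m1
    have st := hW.strip hD m1 m2 hz.1
    have hp := phi_maps hV hz.1
    have hr := Real.sqrt_pos.2 (hl i)
    rw [smul_smul, rc_smul, fld_smul, Pi.smul_apply, nr_smul hD hp, norm_real,
      Real.norm_of_nonneg (by positivity)] at st
    rw [hW.fderiv_phi_fld hD.isOpen hV hz.1, ea, rc_smul, fld_smul, Pi.smul_apply, nr_smul hD hp,
      norm_real, Real.norm_of_nonneg (by positivity), mul_pow, inv_pow, Real.sq_sqrt (hl i).le]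
    have h4 := pow_le_pow_left₀ (mul_nonneg (by positivity) (nr_nonneg hp _)) st 2
    have := hl i
    rw [le_div_iff₀ (by positivity), le_div_iff₀ (by positivity)]
    refine le_trans (le_of_eq ?_) (h4.trans (by norm_num))
    field_simp

theorem ACtx.jac_Tm_le (hD : BCD D) (hW : ACtx D W) : ∃ C : ℝ, ∀ s : ℝ, 1 ≤ s →
    ∀ z ∈ freeSet D W, jacK D (phi D W (s • cZ (acone D W) (mom D W z))) z *
      |(1 + s • (cA (acone D W) (mom D W z) * gram D W z)).det| ≤ C := by
  obtain ⟨C, k, hC, hk, h⟩ := P7_key hD hW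
  refine ⟨C * ∏ _ : Fin N, (1 + k), fun s hs z hz => ?_⟩
  obtain ⟨lam, hl, h⟩ := h z hz
  have hs0 : 0 < s := by linarith
  refine (h s hs0).trans (mul_le_mul_of_nonneg_left (Finset.prod_le_prod (fun i _ => ?_)
    fun i _ => ?_) hC.le)
  · have := hl i
    positivity
  · have := hl i
    rw [mul_add, mul_one]
    refine add_le_add (min_le_left _ _) ((mul_le_mul_of_nonneg_right (min_le_right _ _)
      (by positivity)).trans ?_)
    rw [show k / (s ^ 2 * lam i) * (s * lam i) = k / s by field_simp]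
    exact div_le_self hk.le hs

theorem ACtx.jac_Tm_tendsto (hD : BCD D) (hW : ACtx D W) (hN : N ≠ 0) {z : Fin n → ℂ}
    (hz : z ∈ freeSet D W) :
    Tendsto (fun s : ℝ => jacK D (phi D W (s • cZ (acone D W) (mom D W z))) z *
      |(1 + s • (cA (acone D W) (mom D W z) * gram D W z)).det|) atTop (𝓝 0) := by
  obtain ⟨C, k, hC, hk, h⟩ := P7_key hD hW
  obtain ⟨lam, hl, h⟩ := h z hz
  have t : Tendsto (fun s : ℝ => C * ∏ i, (k / lam i * s⁻¹ ^ 2 + k * s⁻¹)) atTop
      (𝓝 (C * ∏ i, (k / lam i * 0 ^ 2 + k * 0))) :=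
    (tendsto_finsetProd _ fun i _ => ((tendsto_inv_atTop_zero.pow 2).const_mul _).add
      (tendsto_inv_atTop_zero.const_mul _)).const_mul C
  simp only [ne_eq, OfNat.ofNat_ne_zero, not_false_eq_true, zero_pow, mul_zero, add_zero,
    Finset.prod_const, Finset.card_univ, Fintype.card_fin, hN] at t
  refine squeeze_zero' ?_ ?_ t <;> filter_upwards [eventually_gt_atTop 0] with s hs
  · have h1 := bergK_pos hD hz.1
    have h2 := bergK_pos hD (phi_maps (interior_subset (hW.smul_cZ_mem hD hz hs)) hz.1)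
    unfold jacK
    positivity
  · refine (h s hs).trans (mul_le_mul_of_nonneg_left (Finset.prod_le_prod (fun i _ => ?_)
      fun i _ => ?_) hC.le)
    · have := hl i
      positivity
    · have := hl i
      refine (mul_le_mul_of_nonneg_right (min_le_right _ _) (by positivity)).trans_eq ?_
      field_simp

end Pool.Agent.P.MP_2ff09b_gt
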