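import Pool.Agent.P.MP_2ff09b_gt.P5

/-! CVX-P8. `Tm` is onto.
Sketch. Let C be the cone, S = {(z, η) | z in D, η in dualInt C, phi (cZ η) z = w} and
Φ (z, η) = -log jacK (phi (cZ η)) z - s log cphi η. S is nonempty: for large t, cZ (t η1) is small,
the backward trajectory exists (master_fld at 0) and phi_add_back applies with V = 0. On S,
‖cZ η‖ <= R (strip with u = V and injective_fldL at w). On a sublevel set of Φ: jacK <= C gives a
lower bound for log cphi, so η lies in a compact set (isCompact_sublevel); log_cphi_le gives a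
lower bound for jacK, so jacK_phi_le bounds nr z (fld (I V) z), and hd_ex_le puts z in a compact
Harnack ball around w. Φ and the constraint are continuous (master_fld), so Φ has a minimum at
(z, η). For any b let η t be the local inverse of cZ (HasStrictFDerivAt.localInverse; the
derivative -A is invertible) at V + t b, V = cZ η interior to C, and z t = ex (t • fld (I (-b))) z.
Then (z t, η t) is in S (phi_add_back), jacK (phi (V + t b)) (z t) * jacK (ex (t ..)) z =
jacK (phi V) z (jacK_comp), so the derivative of Φ at t = 0 is mom z ⬝ b - s η ⬝ b = 0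
(hasDerivAt_log_jacK, divK_fld, hasFDerivAt_log_cphi, cA_mulVec_self). Hence mom z = s η and
s • cZ (mom z) = cZ η (cZ_smul). -/

open Set MeasureTheory Complex Filter Topology Metric

noncomputable section

namespace Pool.Agent.P.MP_2ff09b_gt

variable {n N : ℕ} {D : Set (Fin n → ℂ)} {W : Fin N → (Fin n → ℂ) → Fin n → ℂ}


theorem P8_rc_cont : Continuous fun V : Fin N → ℝ => I • rc V := by
  refine Continuous.const_smul ?_ I
  exact continuous_pi fun j => continuous_ofReal.comp (continuous_apply j)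

/-- Joint continuity of `phi` and of its Jacobian. -/
theorem P8_cont (hD : BCD D) (hW : ACtx D W) {V : Fin N → ℝ} (hV : V ∈ acone D W)
    {z : Fin n → ℂ} (hz : z ∈ D) :
    ContinuousAt (fun x : (Fin N → ℝ) × (Fin n → ℂ) => phi D W x.1 x.2) (V, z) ∧
      ContinuousAt (fun x : (Fin N → ℝ) × (Fin n → ℂ) => jacK D (phi D W x.1) x.2) (V, z) := by
  have h1 := (master_fld hD.isOpen hW.hol (hV.2 z hz) 1).2
  have hq : ContinuousAt (fun x : (Fin N → ℝ) × (Fin n → ℂ) => (I • rc x.1, x.2)) (V, z) :=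
    ((P8_rc_cont.comp continuous_fst).prodMk continuous_snd).continuousAt
  have h2 : ContinuousAt (fun x : (Fin N → ℝ) × (Fin n → ℂ) => phi D W x.1 x.2) (V, z) := by
    have := ContinuousAt.comp (f := fun x : (Fin N → ℝ) × (Fin n → ℂ) => (I • rc x.1, x.2))
      (x := (V, z)) h1.continuousAt hq
    exact this
  refine ⟨h2, ?_⟩
  have h3 : ContDiffAt ℂ 0 (fun x : (Fin N → ℂ) × (Fin n → ℂ) =>
      fderiv ℂ (ex D (fld W x.1)) x.2) (I • rc V, z) := by
    refine ContDiffAt.fderiv (n := 1) (f := fun x : (Fin N → ℂ) × (Fin n → ℂ) => ex D (fld W x.1))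
      (g := fun x => x.2) ?_ contDiffAt_snd (by simp)
    have h4 : ContDiffAt ℂ 1 (fun y : ((Fin N → ℂ) × (Fin n → ℂ)) × (Fin n → ℂ) => (y.1.1, y.2))
        ((I • rc V, z), z) := by fun_prop
    exact ContDiffAt.comp (f := fun y : ((Fin N → ℂ) × (Fin n → ℂ)) × (Fin n → ℂ) => (y.1.1, y.2))
      ((I • rc V, z), z) (by simpa using h1) h4
  have h5 : ContinuousAt (fun x : (Fin N → ℝ) × (Fin n → ℂ) => fderiv ℂ (phi D W x.1) x.2)
      (V, z) := by
    have := ContinuousAt.comp (f := fun x : (Fin N → ℝ) × (Fin n → ℂ) => (I • rc x.1, x.2))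
      (x := (V, z)) h3.continuousAt hq
    exact this
  have hK : ∀ y ∈ D, ContinuousAt (bergK D) y := fun y hy =>
    (contDiffOn_bergK hD.isOpen 0).continuousOn.continuousAt (hD.isOpen.mem_nhds hy)
  have h6 : ContinuousAt (fun x : (Fin N → ℝ) × (Fin n → ℂ) =>
      (fderiv ℂ (phi D W x.1) x.2).det) (V, z) :=
    ContinuousAt.comp (f := fun x : (Fin N → ℝ) × (Fin n → ℂ) => fderiv ℂ (phi D W x.1) x.2)
      (g := fun A : (Fin n → ℂ) →L[ℂ] (Fin n → ℂ) => A.det)
      ContinuousLinearMap.continuous_det.continuousAt h5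
  have h7 : ContinuousAt (fun x : (Fin N → ℝ) × (Fin n → ℂ) => bergK D (phi D W x.1 x.2)) (V, z) :=
    ContinuousAt.comp (g := bergK D)
      (f := fun x : (Fin N → ℝ) × (Fin n → ℂ) => phi D W x.1 x.2) (hK _ (phi_maps hV hz)) h2
  have h8 : ContinuousAt (fun x : (Fin N → ℝ) × (Fin n → ℂ) => bergK D x.2) (V, z) :=
    ContinuousAt.comp (g := bergK D) (f := fun x : (Fin N → ℝ) × (Fin n → ℂ) => x.2) (hK _ hz)
      continuousAt_snd
  exact (h7.mul (h6.norm.pow 2)).div h8 (bergK_pos hD hz).ne'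

/-- Short trajectories exist. -/
theorem P8_short (hD : BCD D) (hW : ACtx D W) {z : Fin n → ℂ} (hz : z ∈ D) (b : Fin N → ℝ) :
    ∀ᶠ t : ℝ in 𝓝 0, HasSol D (fld W (I • rc (-(t • b)))) z := by
  have h0 : HasSol D (fld W (0 : Fin N → ℂ)) z := by
    rw [fld_zero]; exact semiC_zero.2 z hz
  have h1 := (master_fld hD.isOpen hW.hol h0 1).1
  have h2 : Continuous fun t : ℝ => ((I • rc (-(t • b)), z) : (Fin N → ℂ) × (Fin n → ℂ)) :=
    (P8_rc_cont.comp (by fun_prop)).prodMk continuous_const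
  have h3 := h2.tendsto 0
  simp only [zero_smul, neg_zero, rc_zero, smul_zero] at h3
  exact h3.eventually h1

theorem P8_nonempty (hD : BCD D) (hW : ACtx D W) {w : Fin n → ℂ} (hw : w ∈ D) :
    ∃ z ∈ D, ∃ η ∈ dualInt (acone D W), phi D W (cZ (acone D W) η) z = w := by
  have hC := hW.pcone hD
  obtain ⟨η, hη⟩ := hC.dualInt_nonempty
  have h1 := (P8_short hD hW hw (cZ (acone D W) η)).filter_mono (nhdsWithin_le_nhds (s := Ioi 0))
  obtain ⟨t, ht, ht0⟩ := (h1.and self_mem_nhdsWithin).exists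
  have ht0 : 0 < t := ht0
  have h2 : cZ (acone D W) (t⁻¹ • η) = 0 + t • cZ (acone D W) η := by
    rw [hC.cZ_smul hη (inv_pos.2 ht0), inv_inv, zero_add]
  have h3 := smul_mem_dualInt hη (inv_pos.2 ht0)
  refine ⟨_, ht.ex_mem, _, h3, ?_⟩
  have h4 := interior_subset (hC.cZ_mem_interior h3)
  rw [h2] at h4 ⊢
  rw [hW.phi_add_back hD.isOpen h4 ht, phi, rc_zero, smul_zero, fld_zero, ex_zero hD.isOpen]

theorem P8_strip (hD : BCD D) (hW : ACtx D W) {V : Fin N → ℝ} (hV : V ∈ acone D W)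
    {z : Fin n → ℂ} (hz : z ∈ D) :
    nr D (phi D W V z) (fld W (rc V) (phi D W V z)) ≤ 2 := by
  have hC := hW.pcone hD
  exact hW.strip hD (hC.add_mem _ hV _ hV) (by rw [sub_self]; exact hC.zero_mem) hz

theorem P8_bound (hD : BCD D) (hW : ACtx D W) {w : Fin n → ℂ} (hw : w ∈ freeSet D W) :
    ∃ R : ℝ, ∀ V ∈ acone D W, ∀ z ∈ D, phi D W V z = w → ‖V‖ ≤ R := by
  obtain ⟨C, hC, h1⟩ := exists_norm_le_nr hD
  obtain ⟨K, -, hK⟩ := (LinearMap.injective_iff_antilipschitz
    (fldL W w : (Fin N → ℂ) →ₗ[ℂ] Fin n → ℂ)).1 (hW.injective_fldL hD hw)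
  refine ⟨K * (C * 2), fun V hV z hz h => ?_⟩
  have h2 := P8_strip hD hW hV hz
  rw [h] at h2
  have h3 := ZeroHomClass.bound_of_antilipschitz _ hK (rc V)
  rw [norm_rc] at h3
  refine h3.trans (mul_le_mul_of_nonneg_left ?_ K.2)
  exact (h1 w hw.1 _).trans (mul_le_mul_of_nonneg_left h2 hC.le)

/-- The function to be minimised. -/
def P8Phi (D : Set (Fin n → ℂ)) (W : Fin N → (Fin n → ℂ) → Fin n → ℂ) (s : ℝ)
    (x : (Fin N → ℝ) × (Fin n → ℂ)) : ℝ :=
  -Real.log (jacK D (phi D W (cZ (acone D W) x.1)) x.2) - s * Real.log (cphi (acone D W) x.1)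

theorem P8_compact (hD : BCD D) (hW : ACtx D W) {w : Fin n → ℂ} (hw : w ∈ freeSet D W)
    {s : ℝ} (hs : 0 < s) (c : ℝ) : ∃ (K₁ : Set (Fin N → ℝ)) (K₂ : Set (Fin n → ℂ)),
      IsCompact K₁ ∧ IsCompact K₂ ∧ K₁ ⊆ dualInt (acone D W) ∧ K₂ ⊆ D ∧
      ∀ η ∈ dualInt (acone D W), ∀ z ∈ D, phi D W (cZ (acone D W) η) z = w →
        P8Phi D W s (η, z) ≤ c → η ∈ K₁ ∧ z ∈ K₂ := by
  have hC := hW.pcone hD
  obtain ⟨R, hR⟩ := P8_bound hD hW hw
  obtain ⟨C, hC0, hJ⟩ := hW.jacK_phi_le hD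
  obtain ⟨M, hM⟩ := hC.log_cphi_le R
  refine ⟨_, _, hC.isCompact_sublevel R ((c + Real.log C) / s),
    isCompact_hd_ball hD hw.1 (4 * C / Real.exp (-c - s * M) + 1), fun _ h => h.1, fun _ h => h.1,
    fun η hη z hz h hc => ?_⟩
  have hV := interior_subset (hC.cZ_mem_interior hη)
  have h1 := hR _ hV z hz h
  have hpos : 0 < jacK D (phi D W (cZ (acone D W) η)) z :=
    jacK_ex_pos hD hV.1 (hV.2 z hz)
  obtain ⟨h2, h3⟩ := hJ _ hV z hz
  have h4 := Real.log_le_log hpos h2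
  simp only [P8Phi] at hc
  refine ⟨⟨hη, h1, ?_⟩, hz, ?_⟩
  · rw [neg_le, le_div_iff₀ hs]
    nlinarith
  · have h5 := mul_le_mul_of_nonneg_left (hM η hη h1) hs.le
    have h6 : Real.exp (-c - s * M) ≤ jacK D (phi D W (cZ (acone D W) η)) z := by
      rw [← Real.le_log_iff_exp_le hpos]; linarith
    have h7 := h3 (I • rc (cZ (acone D W) η))
    have h8 := P8_strip hD hW hV hz
    have h9 := hd_ex_le hD hV hz
    have hm := phi_maps hV hz
    have h10 : nr D (phi D W (cZ (acone D W) η) z)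
        (fld W (I • rc (cZ (acone D W) η)) (phi D W (cZ (acone D W) η) z)) ≤ 2 := by
      rw [fld_smul, Pi.smul_apply, nr_smul hD hm, norm_I, one_mul]; exact h8
    have h11 := nr_nonneg hm (fld W (I • rc (cZ (acone D W) η)) (phi D W (cZ (acone D W) η) z))
    change hd D z (phi D W (cZ (acone D W) η) z) ≤ _ at h9
    rw [h, hd_comm] at h9
    refine h9.trans ?_
    generalize nr D z (fld W (I • rc (cZ (acone D W) η)) z) = a at *
    generalize nr D (phi D W (cZ (acone D W) η) z)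
        (fld W (I • rc (cZ (acone D W) η)) (phi D W (cZ (acone D W) η) z)) = b at *
    have he := Real.exp_pos (-c - s * M)
    have h12 : a ^ 2 ≤ 4 * C / Real.exp (-c - s * M) := by
      rw [le_div_iff₀ he]
      have : b ^ 2 ≤ 4 := by nlinarith
      nlinarith [mul_le_mul_of_nonneg_right h6 (sq_nonneg a), mul_le_mul_of_nonneg_left this hC0.le]
    nlinarith [sq_nonneg (a - 1)]

theorem P8_min (hD : BCD D) (hW : ACtx D W) {w : Fin n → ℂ} (hw : w ∈ freeSet D W)
    {s : ℝ} (hs : 0 < s) : ∃ η ∈ dualInt (acone D W), ∃ z ∈ D,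
      phi D W (cZ (acone D W) η) z = w ∧
      ∀ η' ∈ dualInt (acone D W), ∀ z' ∈ D, phi D W (cZ (acone D W) η') z' = w →
        P8Phi D W s (η, z) ≤ P8Phi D W s (η', z') := by
  have hC := hW.pcone hD
  obtain ⟨z₀, hz₀, η₀, hη₀, h₀⟩ := P8_nonempty hD hW hw.1
  obtain ⟨K₁, K₂, k1, k2, k3, k4, k5⟩ := P8_compact hD hW hw hs (P8Phi D W s (η₀, z₀))
  have hq : ∀ x ∈ K₁ ×ˢ K₂, ContinuousAt (fun x : (Fin N → ℝ) × (Fin n → ℂ) =>
      (cZ (acone D W) x.1, x.2)) x := fun x hx =>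
    (ContinuousAt.comp (f := fun x : (Fin N → ℝ) × (Fin n → ℂ) => x.1)
      (hC.contDiffOn_cZ.continuousOn.continuousAt (hC.isOpen_dualInt.mem_nhds (k3 hx.1)))
      continuousAt_fst).prodMk continuousAt_snd
  have c1 : ContinuousOn (fun x : (Fin N → ℝ) × (Fin n → ℂ) =>
      phi D W (cZ (acone D W) x.1) x.2) (K₁ ×ˢ K₂) := fun x hx =>
    (ContinuousAt.comp (f := fun x : (Fin N → ℝ) × (Fin n → ℂ) => (cZ (acone D W) x.1, x.2))
      (P8_cont hD hW (interior_subset (hC.cZ_mem_interior (k3 hx.1))) (k4 hx.2)).1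
      (hq x hx)).continuousWithinAt
  have c2 : ContinuousOn (P8Phi D W s) (K₁ ×ˢ K₂) := fun x hx => by
    have hV := interior_subset (hC.cZ_mem_interior (k3 hx.1))
    have d1 := ContinuousAt.comp
      (f := fun x : (Fin N → ℝ) × (Fin n → ℂ) => (cZ (acone D W) x.1, x.2))
      (P8_cont hD hW hV (k4 hx.2)).2 (hq x hx)
    have d2 := d1.log (jacK_ex_pos hD hV.1 (hV.2 _ (k4 hx.2))).ne'
    obtain ⟨L, hL, -⟩ := hC.hasFDerivAt_log_cphi (k3 hx.1)
    have d3 := ContinuousAt.comp (f := fun x : (Fin N → ℝ) × (Fin n → ℂ) => x.1)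
      hL.continuousAt continuousAt_fst
    exact (d2.neg.sub (continuousAt_const.mul d3)).continuousWithinAt
  have hK : IsCompact (K₁ ×ˢ K₂ ∩ (fun x : (Fin N → ℝ) × (Fin n → ℂ) =>
      phi D W (cZ (acone D W) x.1) x.2) ⁻¹' {w}) :=
    (k1.prod k2).of_isClosed_subset
      (c1.preimage_isClosed_of_isClosed (k1.prod k2).isClosed isClosed_singleton)
      inter_subset_left
  have m0 : (η₀, z₀) ∈ K₁ ×ˢ K₂ ∩ (fun x : (Fin N → ℝ) × (Fin n → ℂ) =>
      phi D W (cZ (acone D W) x.1) x.2) ⁻¹' {w} := ⟨k5 η₀ hη₀ z₀ hz₀ h₀ le_rfl, h₀⟩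
  obtain ⟨x, hx, hmin⟩ := hK.exists_isMinOn ⟨_, m0⟩ (c2.mono inter_subset_left)
  refine ⟨x.1, k3 hx.1.1, x.2, k4 hx.1.2, hx.2, fun η' hη' z' hz' h' => ?_⟩
  by_cases hle : P8Phi D W s (η', z') ≤ P8Phi D W s (η₀, z₀)
  · exact hmin ⟨k5 η' hη' z' hz' h' hle, h'⟩
  · exact (hmin m0).trans (not_le.1 hle).le

/-- A curve of parameters whose means move on a straight line. -/
theorem P8_curve {C : Set (Fin N → ℝ)} (hC : PCone C) {η : Fin N → ℝ} (hη : η ∈ dualInt C)
    (b : Fin N → ℝ) : ∃ g : ℝ → Fin N → ℝ, g 0 = η ∧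
      (∀ᶠ t in 𝓝 (0 : ℝ), g t ∈ dualInt C ∧ cZ C (g t) = cZ C η + t • b) ∧
      HasDerivAt (fun t => Real.log (cphi C (g t))) (η ⬝ᵥ b) 0 := by
  obtain ⟨L, hL, hL'⟩ := hC.hasFDerivAt_cZ hη
  have hA := hC.cA_posDef hη
  have hinj : Function.Injective L := by
    rw [injective_iff_map_eq_zero]
    intro δ hδ
    rw [hL', neg_eq_zero] at hδ
    exact Matrix.eq_zero_of_mulVec_eq_zero hA.det_pos.ne' hδ
  let e : (Fin N → ℝ) ≃L[ℝ] (Fin N → ℝ) :=
    (LinearEquiv.ofInjectiveEndo (L : (Fin N → ℝ) →ₗ[ℝ] Fin N → ℝ) hinj).toContinuousLinearEquiv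
  have he : (e : (Fin N → ℝ) →L[ℝ] (Fin N → ℝ)) = L := by ext1; rfl
  have hs : HasStrictFDerivAt (cZ C) (e : (Fin N → ℝ) →L[ℝ] (Fin N → ℝ)) η := by
    rw [he, ← hL.fderiv]
    exact (hC.contDiffOn_cZ.contDiffAt (hC.isOpen_dualInt.mem_nhds hη)).hasStrictFDerivAt
      one_ne_zero
  have hl : HasDerivAt (fun t : ℝ => cZ C η + t • b) b 0 := by
    simpa using ((hasDerivAt_id (0 : ℝ)).smul_const b).const_add (cZ C η)
  have ht : Tendsto (fun t : ℝ => cZ C η + t • b) (𝓝 0) (𝓝 (cZ C η)) := by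
    simpa using hl.continuousAt.tendsto
  have g0 : hs.localInverse (cZ C) e η (cZ C η + (0 : ℝ) • b) = η := by
    rw [zero_smul, add_zero, hs.localInverse_apply_image]
  have hg : HasDerivAt (fun t : ℝ => hs.localInverse (cZ C) e η (cZ C η + t • b)) (e.symm b) 0 := by
    have h1 : HasFDerivAt (hs.localInverse (cZ C) e η) (e.symm : (Fin N → ℝ) →L[ℝ] (Fin N → ℝ))
        (cZ C η + (0 : ℝ) • b) := by
      rw [zero_smul, add_zero]; exact hs.to_localInverse.hasFDerivAt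
    exact h1.comp_hasDerivAt (0 : ℝ) hl
  refine ⟨fun t => hs.localInverse (cZ C) e η (cZ C η + t • b), g0, ?_, ?_⟩
  · refine Eventually.and ?_ (ht.eventually hs.eventually_right_inverse)
    have h2 := hg.continuousAt.tendsto
    rw [g0] at h2
    exact h2.eventually (hC.isOpen_dualInt.mem_nhds hη)
  · obtain ⟨L₁, h1, h2⟩ := hC.hasFDerivAt_log_cphi hη
    rw [← g0] at h1
    have h3 := h1.comp_hasDerivAt (0 : ℝ) hg
    have h4 : L₁ (e.symm b) = η ⬝ᵥ b := by
      have h5 : b = -(cA C η).mulVec (e.symm b) := by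
        rw [← hL', ← he]; simp
      rw [h2, ← hC.cA_mulVec_self hη]
      conv_rhs => rw [h5]
      rw [dotProduct_neg, hC.dot_cA hη, hC.dot_cA hη]
      congr 2
      · congr 2; funext V; ring
      · ring
    rw [h4] at h3
    exact h3

theorem ACtx.Tm_surj (hD : BCD D) (hW : ACtx D W) {w : Fin n → ℂ} (hw : w ∈ freeSet D W)
    {s : ℝ} (hs : 0 < s) : ∃ z ∈ freeSet D W, Tm D W s z = w := by
  have hC := hW.pcone hD
  obtain ⟨η, hη, z, hz, h, hmin⟩ := P8_min hD hW hw hs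
  have hV := interior_subset (hC.cZ_mem_interior hη)
  have key : ∀ b : Fin N → ℝ, mom D W z ⬝ᵥ b - s * (η ⬝ᵥ b) = 0 := fun b => by
    obtain ⟨g, g0, g1, g2⟩ := P8_curve hC hη b
    have hY := fld_hol hW.hol (I • rc (-b))
    have e1 : ∀ t : ℝ, fld W (I • rc (-(t • b))) = (t : ℂ) • fld W (I • rc (-b)) := fun t => by
      rw [← smul_neg, rc_smul, smul_comm, fld_smul]
    have h0 : HasSol D (((0 : ℝ) : ℂ) • fld W (I • rc (-b))) z := by
      rw [← e1]; exact (P8_short hD hW hz b).self_of_nhds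
    have d1 := hasDerivAt_log_jacK hD hY h0
    rw [ofReal_zero, zero_smul, ex_zero hD.isOpen, divK_fld hD.isOpen hW.hol _ hz, dotProduct_neg,
      neg_neg] at d1
    have d2 := (d1.sub_const (Real.log (jacK D (phi D W (cZ (acone D W) η)) z))).sub
      (g2.const_mul s)
    refine IsLocalMin.hasDerivAt_eq_zero ?_ d2
    have e2 : ∀ᶠ t in 𝓝 (0 : ℝ), P8Phi D W s (η, z) ≤
        P8Phi D W s (g t, ex D (fld W (I • rc (-(t • b)))) z) ∧
        P8Phi D W s (g t, ex D (fld W (I • rc (-(t • b)))) z) =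
          Real.log (jacK D (ex D ((t : ℂ) • fld W (I • rc (-b)))) z) -
            Real.log (jacK D (phi D W (cZ (acone D W) η)) z) -
            s * Real.log (cphi (acone D W) (g t)) := by
      filter_upwards [g1, P8_short hD hW hz b] with t ⟨a1, a2⟩ a3
      have a4 := interior_subset (hC.cZ_mem_interior a1)
      have a5 := a3.ex_mem
      have hYt := fld_hol hW.hol (I • rc (-(t • b)))
      constructor
      · refine hmin _ a1 _ a5 ?_
        rw [a2] at a4 ⊢
        rw [hW.phi_add_back hD.isOpen a4 a3, h]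
      · have a6 := jacK_comp hD a5
          ((phi_hol hD.isOpen a4).differentiableAt (hD.isOpen.mem_nhds a5))
          (a3.differentiableAt hD.isOpen hYt)
        have a7 : phi D W (cZ (acone D W) (g t)) ∘ ex D (fld W (I • rc (-(t • b)))) =ᶠ[𝓝 z]
            phi D W (cZ (acone D W) η) := by
          filter_upwards [(master₀ hD.isOpen hYt a3).1] with y hy
          rw [a2] at a4 ⊢
          exact hW.phi_add_back hD.isOpen a4 hy
        rw [jacK_congr a7] at a6
        have p1 : 0 < jacK D (phi D W (cZ (acone D W) (g t))) (ex D (fld W (I • rc (-(t • b)))) z) :=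
          jacK_ex_pos hD a4.1 (a4.2 _ a5)
        have p2 := jacK_ex_pos hD hYt a3
        simp only [P8Phi]
        rw [a6, Real.log_mul p1.ne' p2.ne', ← e1]
        ring
    have e3 := e2.self_of_nhds.2
    simp only [g0, zero_smul, neg_zero, rc_zero, smul_zero, fld_zero, ex_zero hD.isOpen] at e3
    filter_upwards [e2] with t ⟨a1, a2⟩
    simp only [Pi.sub_apply, g0]
    rw [← a2, ← e3]
    exact a1
  have hm : mom D W z = s • η := by
    funext j
    have := key (Pi.single j 1)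
    simp only [dotProduct_single, mul_one] at this
    simp only [Pi.smul_apply, smul_eq_mul]
    linarith
  refine ⟨z, (hW.phi_mem_freeSet hD hV hz).1 (h.symm ▸ hw), ?_⟩
  rw [Tm, hm, hC.cZ_smul hη hs, smul_smul, mul_inv_cancel₀ hs.ne', one_smul, h]

end Pool.Agent.P.MP_2ff09b_gt
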