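import Pool.Agent.P.MP_2ff09b_gt.P6
import Pool.Agent.P.MP_2ff09b_gt.P7
import Pool.Agent.P.MP_2ff09b_gt.P8

/-! CVX-P9. Finite covolume excludes normal abelian families with generating cone.
Sketch. Let μ = muK D (instances as in D2: aut_measurable, measurePreserving_muK). Take a measurable
F1 containing F with μ F1 = μ F (toMeasurable) and s0 = F1 ∩ freeSet. For s >= 1 let T = Tm s. The
set N of points of freeSet whose orbit misses s0 is Lebesgue null (ae_covers, volume_ac_muK,
aut_mem_freeSet), so T '' N is null (addHaar_image_eq_zero_of_differentiableOn_of_addHaar_eq_zero).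
By Tm_surj and Tm_equivariant almost every point has a translate in T '' s0, so
μ F <= μ (T '' s0) (measure_le_of_cover). lintegral_image_le with the weight
ofReal (bergK D) on D (indicator) and hasFDerivAt_Tm bound this by the integral over s0 of
jac s z against μ, which tends to 0 along s = 1, 2, ... by dominated convergence (jac_Tm_le,
jac_Tm_tendsto; measurability from measurable_fderiv and continuity of T on freeSet). So μ F = 0,
then μ = 0 (IsFundamentalDomain.measure_eq_tsum), against volume_ac_muK. -/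

open Set MeasureTheory Complex Filter Topology Metric

noncomputable section

namespace Pool.Agent.P.MP_2ff09b_gt

variable {n : ℕ} {D : Set (Fin n → ℂ)}


theorem noAb_of_fund (hD : BCD D) {Γ : Subgroup (Equiv.Perm (Fin n → ℂ))} (hΓ : Γ ≤ autGroup D)
    [Countable Γ] {F : Set (Fin n → ℂ)} (hF : IsFundamentalDomain Γ F (muK D))
    (hfin : muK D F < ⊤) : NoAb D Γ := by
  classical
  intro N W hW hn
  by_contra hN
  have hm := hD.isOpen.measurableSet
  have : MeasurableConstSMul Γ (Fin n → ℂ) := ⟨fun γ => aut_measurable hD.isOpen (hΓ γ.2)⟩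
  have : SMulInvariantMeasure Γ (Fin n → ℂ) (muK D) :=
    ⟨fun γ s hs => (measurePreserving_muK hD.isOpen (hΓ γ.2)).measure_preimage hs.nullMeasurableSet⟩
  obtain ⟨w, hw⟩ : ∃ w, w = D.indicator fun z => ENNReal.ofReal (bergK D z) := ⟨_, rfl⟩
  have mw : Measurable w := by
    rw [hw, ← piecewise_eq_indicator]
    exact (ENNReal.continuous_ofReal.comp_continuousOn
      (contDiffOn_bergK hD.isOpen 0).continuousOn).measurable_piecewise continuousOn_const hm
  have wD : ∀ z ∈ D, w z = ENNReal.ofReal (bergK D z) := fun z hz => by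
    rw [hw, indicator_of_mem hz]
  have hμ : ∀ A, muK D A = ∫⁻ y in A, w y := fun A => by
    rw [muK, ← withDensity_indicator hm, withDensity_apply', hw]
  obtain ⟨S, hS⟩ : ∃ S, S = toMeasurable (muK D) F ∩ freeSet D W := ⟨_, rfl⟩
  have mS : MeasurableSet S :=
    hS ▸ (measurableSet_toMeasurable _ _).inter (hW.isOpen_freeSet hD).measurableSet
  have sS : S ⊆ freeSet D W := hS ▸ inter_subset_right
  have fS : muK D S < ⊤ := by
    rw [hS]
    exact ((measure_mono inter_subset_left).trans_eq (measure_toMeasurable F)).trans_lt hfin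
  have dT : ∀ {s : ℝ}, 0 < s → ∀ z ∈ freeSet D W, DifferentiableAt ℝ (Tm D W s) z :=
    fun hs z hz => (hW.hasFDerivAt_Tm hD hz hs).choose_spec.1.differentiableAt
  have nB : volume {z | z ∈ freeSet D W ∧ ¬ ∃ g : Γ, g • z ∈ F} = 0 := by
    have h1 := (ae_restrict_iff' hm).1 ((volume_ac_muK hD).ae_le hF.ae_covers)
    exact measure_eq_zero_iff_ae_notMem.2 (h1.mono fun z h hz => hz.2 (h hz.1.1))
  have aeF : ∀ᵐ x ∂muK D, x ∈ freeSet D W := by
    refine muK_ac_volume.ae_le ?_
    filter_upwards [ae_restrict_mem hm, ae_restrict_of_ae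
      (measure_eq_zero_iff_ae_notMem.1 (hW.volume_diff_freeSet hD))] with x h1 h2
    exact by_contra fun h => h2 ⟨h1, h⟩
  have le : ∀ s : ℝ, 0 < s → muK D F ≤
      ∫⁻ x in S, ENNReal.ofReal |(fderiv ℝ (Tm D W s) x).det| * w (Tm D W s x) := fun s hs => by
    have h1 := addHaar_image_eq_zero_of_differentiableOn_of_addHaar_eq_zero volume
      (f := Tm D W s) (fun z hz => (dT hs z hz.1).differentiableWithinAt) nB
    refine (measure_le_of_cover hF (A := Tm D W s '' S) ?_).trans ((hμ _).trans_le
      (lintegral_image_le volume mS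
        (fun x hx => (dT hs x (sS hx)).hasFDerivAt.hasFDerivWithinAt) mw))
    filter_upwards [aeF, muK_ac_volume.ae_le
      (ae_restrict_of_ae (measure_eq_zero_iff_ae_notMem.1 h1))] with x h2 h3
    obtain ⟨z, hz, rfl⟩ := hW.Tm_surj hD h2 hs
    obtain ⟨g, hg⟩ : ∃ g : Γ, g • z ∈ F := by_contra fun h => h3 ⟨z, ⟨hz, h⟩, rfl⟩
    obtain ⟨θ, hθ⟩ := hn g.1 g.2
    exact ⟨g, g.1 z, hS ▸ ⟨subset_toMeasurable _ _ hg, hW.aut_mem_freeSet hD (hΓ g.2) hθ hz⟩,
      hW.Tm_equivariant hD (hΓ g.2) hθ hz hs⟩
  have e : ∀ s : ℝ, 0 < s → ∀ x ∈ freeSet D W,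
      ENNReal.ofReal |(fderiv ℝ (Tm D W s) x).det| * w (Tm D W s x) =
        ENNReal.ofReal (jacK D (phi D W (s • cZ (acone D W) (mom D W x))) x *
          |(1 + s • (cA (acone D W) (mom D W x) * gram D W x)).det| * bergK D x) := by
    intro s hs x hx
    obtain ⟨T, h1, h2⟩ := hW.hasFDerivAt_Tm hD hx hs
    have h3 := (bergK_pos hD hx.1).ne'
    rw [h1.fderiv, h2, wD _ (hW.Tm_mem hD hx hs).1, ← ENNReal.ofReal_mul (abs_nonneg _), abs_mul,
      abs_of_nonneg (sq_nonneg _), jacK, Tm]
    congr 1
    field_simp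
  obtain ⟨C, hC⟩ := hW.jac_Tm_le hD
  have lim := tendsto_lintegral_filter_of_dominated_convergence' (μ := volume.restrict S)
    (l := atTop) (F := fun (s : ℝ) x =>
      ENNReal.ofReal |(fderiv ℝ (Tm D W s) x).det| * w (Tm D W s x)) (f := fun _ => 0)
    (fun x => ENNReal.ofReal |C| * w x) ?_ ?_ ?_ ?_
  · rw [lintegral_zero] at lim
    have h0 : muK D F = 0 := nonpos_iff_eq_zero.1
      (ge_of_tendsto lim ((eventually_gt_atTop 0).mono le))
    refine hF.measure_ne_zero (fun h => ?_) h0
    have h1 := volume_ac_muK hD (s := D) (by rw [h]; rfl)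
    rw [Measure.restrict_apply_self] at h1
    exact (hD.isOpen.measure_pos volume hD.nonempty).ne' h1
  · filter_upwards [eventually_gt_atTop 0] with s hs
    refine AEMeasurable.mul (Measurable.aemeasurable ?_) (mw.comp_aemeasurable
      (ContinuousOn.aemeasurable (fun x hx => (dT hs x (sS hx)).continuousAt.continuousWithinAt) mS))
    exact ((continuous_abs.comp ContinuousLinearMap.continuous_det).measurable.comp
      (measurable_fderiv ℝ _)).ennreal_ofReal
  · filter_upwards [eventually_ge_atTop 1] with s hs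
    filter_upwards [ae_restrict_mem mS] with x hx
    rw [e s (one_pos.trans_le hs) x (sS hx), wD x (sS hx).1, ← ENNReal.ofReal_mul (abs_nonneg _)]
    exact ENNReal.ofReal_le_ofReal (mul_le_mul_of_nonneg_right
      ((hC s hs x (sS hx)).trans (le_abs_self C)) (bergK_pos hD (sS hx).1).le)
  · rw [lintegral_const_mul _ mw, ← hμ]
    exact ENNReal.mul_ne_top ENNReal.ofReal_ne_top fS.ne
  · filter_upwards [ae_restrict_mem mS] with x hx
    have h1 := ENNReal.tendsto_ofReal ((hW.jac_Tm_tendsto hD hN (sS hx)).mul_const (bergK D x))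
    rw [zero_mul, ENNReal.ofReal_zero] at h1
    exact h1.congr' ((eventually_gt_atTop 0).mono fun s hs => (e s hs x (sS hx)).symm)

end Pool.Agent.P.MP_2ff09b_gt
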