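import Pool.Agent.P.MP_2ff09b_gt.G10
import Pool.Agent.P.MP_2ff09b_gt.H3
import Pool.Agent.P.MP_2ff09b_gt.H7
import Pool.Agent.P.MP_2ff09b_gt.H8
import Pool.Agent.P.MP_2ff09b_gt.H9
import Pool.Agent.P.MP_2ff09b_gt.E2
import Pool.Agent.P.MP_2ff09b_gt.E8
import Pool.Agent.P.MP_2ff09b_gt.D2
import Pool.Agent.P.MP_2ff09b_gt.P9

/-! Assembly: a bounded convex domain with a finite-volume quotient is symmetric. -/

open Set MeasureTheory Complex Filter Topology Metric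

noncomputable section

namespace Pool.Agent.P.MP_2ff09b_gt

theorem symmetric_of_liouv {E : Type*} [NormedAddCommGroup E] [NormedSpace ℂ E]
    [FiniteDimensional ℂ E] {D : Set E} (hD : BCD D) {Γ : Subgroup (Equiv.Perm E)}
    (hΓ : Γ ≤ autGroup D) (hL : Liouv D Γ) (hA : NoAb D Γ) :
    ∀ q ∈ D, ∃ s ∈ autGroup D, s * s = 1 ∧ s q = q ∧ ∀ᶠ z in 𝓝[≠] q, s z ≠ z := by
  obtain ⟨N, r, ⟨H⟩⟩ := exists_hctx hD hΓ hL hA
  obtain ⟨m, Ω, ϖ, σ, hM⟩ := H.exists_model hD
  rcases Nat.eq_zero_or_pos m with hm | hm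
  · subst hm
    exact H.symmetric hD fun v => (hM.ker H.p H.p_mem v).1 (Subsingleton.elim _ _)
  · exfalso
    haveI : Nonempty (Fin m) := ⟨⟨0, hm⟩⟩
    have hsurj : SurjOn ϖ D Ω := fun y hy => ⟨σ y, hM.maps' hy, hM.right_inv y hy⟩
    obtain ⟨Y, h1, h2, h3, y, hy, hne⟩ := theoremA hM.bcd (hM.maps H.p_mem) fun x hx U hU => by
      obtain ⟨γ, hγ, hU'⟩ := hL.acc hΓ hM.bcd hM.hol hM.maps hsurj hx H.p_mem hU
      obtain ⟨γ', hγ', e⟩ := hM.exists_induced hD (hΓ hγ)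
      exact ⟨γ', hγ', by rw [e _ H.p_mem]; exact hU'⟩
    obtain ⟨Yt, t1, t2, t3, t4⟩ := hM.exists_lift hD h1.1
    have key : ∀ c : ℂ, SemiC Ω (c • Y) → SemiC D (c • Yt) := fun c hc =>
      hM.semiC_lift hD hc (t1.const_smul c) (fun V z hz => by
        have hd : DifferentiableAt ℂ Yt z := t1.differentiableAt (hD.isOpen.mem_nhds hz)
        have := t3 V z hz
        simp only [VectorField.lieBracket] at this ⊢
        rw [fderiv_const_smul hd]
        simp only [ContinuousLinearMap.smul_apply, Pi.smul_apply, map_smul]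
        rw [← smul_sub, this, smul_zero]) fun y hy => by
        simp only [Pi.smul_apply, map_smul, t4 y hy]
    have s1 : SemiC D Yt := by simpa using key 1 (by simpa using h1)
    have s2 : SemiC D (-Yt) := by simpa using key (-1) (by simpa using h2)
    obtain ⟨X', -, hX'⟩ := H.max Yt s1 s2 (key I h3)
    have hz := hM.maps' hy
    obtain ⟨a, ha⟩ := H.span _ hz X'
    have := (hM.ker _ hz (Yt (σ y))).2 ⟨a, (hX' _ hz).trans ha⟩
    rw [t2 _ hz, hM.right_inv y hy] at this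
    exact hne this

theorem symmetric_of_finite_volume {n : ℕ} {D : Set (Fin n → ℂ)} (hD : BCD D)
    {Γ : Subgroup (Equiv.Perm (Fin n → ℂ))} (hΓ : Γ ≤ autGroup D) (hd : IsDiscreteAut D Γ)
    {F : Set (Fin n → ℂ)} (hF : IsFundamentalDomain Γ F (bergVol D)) (hfin : bergVol D F < ⊤) :
    IsBoundedSymmetricDomain D := by
  haveI := countable_of_discrete hD.isOpen hΓ hd
  obtain ⟨h1, h2⟩ := fund_muK hD hF hfin
  exact ⟨hD.isOpen, hD.convex.isConnected hD.nonempty, hD.bounded,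
    symmetric_of_liouv hD hΓ (liouv_of_fund hD hΓ h1 h2) (noAb_of_fund hD hΓ h1 h2)⟩

end Pool.Agent.P.MP_2ff09b_gt
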