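import Pool.Agent.P.MP_2ff09b_gt.B3
import Pool.Agent.P.MP_2ff09b_gt.F5
import Pool.Agent.P.MP_2ff09b_gt.F6

/-! CVX-P1. The Jacobian for K dV along flows.
Sketch. hasDerivAt_log_jacK: log jacK = lk (ex ..) + 2 log ‖det‖ - lk z near t;
use hasDerivAt_ex_smul_real, hasDerivAt_det_ex, det_fderiv_ex_ne_zero and the derivative of
log ‖d‖² = log (normSq d). divK_eq_zero: ex (s Y) is an automorphism (exists_aut_ex), so jacK = 1.
divK_aut: by HasSol.map, ex (s Y') (h w) = h (ex (s Y) w) for (s, w) near (0, z) (master_smul), so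
jacK (ex (s Y')) (h z) = jacK (ex (s Y)) z by jacK_comp, jacK_aut and jacK_congr; differentiate at
s = 0. -/

open Set MeasureTheory Complex Filter Topology Metric

noncomputable section

namespace Pool.Agent.P.MP_2ff09b_gt

variable {n N : ℕ} {D : Set (Fin n → ℂ)} {W : Fin N → (Fin n → ℂ) → Fin n → ℂ}


theorem jacK_congr {φ ψ : (Fin n → ℂ) → Fin n → ℂ} {z : Fin n → ℂ} (h : φ =ᶠ[𝓝 z] ψ) :
    jacK D φ z = jacK D ψ z := by
  simp only [jacK, h.eq_of_nhds, h.fderiv_eq]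

theorem jacK_comp (hD : BCD D) {φ ψ : (Fin n → ℂ) → Fin n → ℂ} {z : Fin n → ℂ} (hm : ψ z ∈ D)
    (hφ : DifferentiableAt ℂ φ (ψ z)) (hψ : DifferentiableAt ℂ ψ z) :
    jacK D (φ ∘ ψ) z = jacK D φ (ψ z) * jacK D ψ z := by
  have h1 := (bergK_pos hD hm).ne'
  have h2 : ((fderiv ℂ φ (ψ z)).comp (fderiv ℂ ψ z)).det =
      (fderiv ℂ φ (ψ z)).det * (fderiv ℂ ψ z).det := LinearMap.det_comp _ _
  simp only [jacK, fderiv_comp z hφ hψ, h2, norm_mul, Function.comp_apply]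
  field_simp

theorem jacK_aut (hD : BCD D) {γ : Equiv.Perm (Fin n → ℂ)} (hγ : γ ∈ autGroup D) {z : Fin n → ℂ}
    (hz : z ∈ D) : jacK D γ z = 1 := by
  rw [jacK, bergK_aut hD.isOpen hγ hz, div_self (bergK_pos hD hz).ne']

theorem jacK_ex_pos (hD : BCD D) {Y : (Fin n → ℂ) → Fin n → ℂ} (hY : DifferentiableOn ℂ Y D)
    {z : Fin n → ℂ} (h : HasSol D Y z) : 0 < jacK D (ex D Y) z := by
  exact div_pos (mul_pos (bergK_pos hD h.ex_mem)
    (pow_pos (norm_pos_iff.2 (det_fderiv_ex_ne_zero hD.isOpen hY h)) 2)) (bergK_pos hD h.mem)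

theorem P1_log {d : ℝ → ℂ} {a : ℂ} {t : ℝ} (h : HasDerivAt d (a * d t) t) (h0 : d t ≠ 0) :
    HasDerivAt (fun s => Real.log (‖d s‖ ^ 2)) (2 * a.re) t := by
  have h1 := pow_ne_zero 2 (norm_ne_zero_iff.2 h0)
  refine (h.norm_sq.log h1).congr_deriv ?_
  rw [div_eq_iff h1, Complex.inner, mul_assoc a, Complex.mul_conj, Complex.re_mul_ofReal,
    Complex.normSq_eq_norm_sq, mul_assoc]

theorem P1_ev (hD : IsOpen D) {Y : (Fin n → ℂ) → Fin n → ℂ} (hY : DifferentiableOn ℂ Y D) {t : ℝ}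
    {z : Fin n → ℂ} (h : HasSol D ((t : ℂ) • Y) z) : ∀ᶠ s : ℝ in 𝓝 t, HasSol D ((s : ℂ) • Y) z :=
  (Continuous.tendsto (f := fun s : ℝ => ((s : ℂ), z)) (by fun_prop) t).eventually
    (master_smul hD hY h 0).1

theorem hasDerivAt_log_jacK (hD : BCD D) {Y : (Fin n → ℂ) → Fin n → ℂ}
    (hY : DifferentiableOn ℂ Y D) {t : ℝ} {z : Fin n → ℂ} (h : HasSol D ((t : ℂ) • Y) z) :
    HasDerivAt (fun s : ℝ => Real.log (jacK D (ex D ((s : ℂ) • Y)) z))
      (divK D Y (ex D ((t : ℂ) • Y) z)) t := by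
  have hO := hD.isOpen
  have h1 : HasDerivAt (fun s : ℝ => lk D (ex D ((s : ℂ) • Y) z))
      (fderiv ℝ (lk D) (ex D ((t : ℂ) • Y) z) (Y (ex D ((t : ℂ) • Y) z))) t := by
    have h0 := (((contDiffOn_lk hD 1).contDiffAt (hO.mem_nhds h.ex_mem)).differentiableAt
      (by simp)).hasFDerivAt
    exact HasFDerivAt.comp_hasDerivAt (l := lk D) (f := fun s : ℝ => ex D ((s : ℂ) • Y) z) t h0
      (hasDerivAt_ex_smul_real hO hY h)
  have h2 := P1_log (hasDerivAt_det_ex hO hY h)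
    (det_fderiv_ex_ne_zero hO (hY.const_smul (t : ℂ)) h)
  refine ((h1.add h2).sub_const (lk D z)).congr_of_eventuallyEq ?_
  filter_upwards [P1_ev hO hY h] with s hs
  have h3 := (bergK_pos hD hs.ex_mem).ne'
  have h4 := pow_ne_zero 2
    (norm_ne_zero_iff.2 (det_fderiv_ex_ne_zero hO (hY.const_smul (s : ℂ)) hs))
  rw [jacK, Real.log_div (mul_ne_zero h3 h4) (bergK_pos hD h.mem).ne', Real.log_mul h3 h4]
  rfl

theorem P1_sol (Y : (Fin n → ℂ) → Fin n → ℂ) {z : Fin n → ℂ} (hz : z ∈ D) :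
    HasSol D (((0 : ℝ) : ℂ) • Y) z := by
  rw [Complex.ofReal_zero, zero_smul]
  exact semiC_zero.2 z hz

theorem P1_zero (hD : BCD D) {Y : (Fin n → ℂ) → Fin n → ℂ} (hY : DifferentiableOn ℂ Y D)
    {z : Fin n → ℂ} (hz : z ∈ D) :
    HasDerivAt (fun s : ℝ => Real.log (jacK D (ex D ((s : ℂ) • Y)) z)) (divK D Y z) 0 := by
  have h := hasDerivAt_log_jacK hD hY (P1_sol Y hz)
  rwa [Complex.ofReal_zero, zero_smul, ex_zero hD.isOpen] at h

theorem divK_eq_zero (hD : BCD D) {Y : (Fin n → ℂ) → Fin n → ℂ} (h : SemiC D Y)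
    (h' : SemiC D (-Y)) {z : Fin n → ℂ} (hz : z ∈ D) : divK D Y z = 0 := by
  have hO := hD.isOpen
  have h1 := P1_zero hD h.1 hz
  have h2 : ∀ s : ℝ, Real.log (jacK D (ex D ((s : ℂ) • Y)) z) = 0 := fun s => by
    obtain ⟨φ, hφ, e, -⟩ := exists_aut_ex hO (h.smul_real hO h' s) (by
      have := h.smul_real hO h' (-s)
      rwa [Complex.ofReal_neg, neg_smul] at this)
    rw [← e, jacK_aut hD hφ hz, Real.log_one]
  simp only [h2] at h1
  exact h1.unique (hasDerivAt_const _ _)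

theorem divK_aut (hD : BCD D) {h : Equiv.Perm (Fin n → ℂ)} (hh : h ∈ autGroup D)
    {Y Y' : (Fin n → ℂ) → Fin n → ℂ} (hY : DifferentiableOn ℂ Y D) (hY' : DifferentiableOn ℂ Y' D)
    (hrel : ∀ z ∈ D, fderiv ℂ h z (Y z) = Y' (h z)) {z : Fin n → ℂ} (hz : z ∈ D) :
    divK D Y' (h z) = divK D Y z := by
  have hO := hD.isOpen
  refine (P1_zero hD hY' (aut_maps hh hz)).unique
    ((P1_zero hD hY hz).congr_of_eventuallyEq ?_)
  filter_upwards [P1_ev hO hY (P1_sol Y hz)] with s hs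
  have hm : ∀ w, HasSol D ((s : ℂ) • Y) w → HasSol D ((s : ℂ) • Y') (h w) ∧
      ex D ((s : ℂ) • Y') (h w) = h (ex D ((s : ℂ) • Y) w) := fun w hw =>
    HasSol.map hO hO (aut_hol hh) (aut_maps hh) (hY.const_smul _) (hY'.const_smul _)
      (fun y hy => by rw [Pi.smul_apply, map_smul, hrel y hy, Pi.smul_apply]) hw
  have h1 : ex D ((s : ℂ) • Y') ∘ h =ᶠ[𝓝 z] h ∘ ex D ((s : ℂ) • Y) :=
    (master₀ hO (hY.const_smul _) hs).1.mono fun w hw => (hm w hw).2
  have h2 := jacK_congr (D := D) h1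
  rw [jacK_comp hD (aut_maps hh hz) ((hm z hs).1.differentiableAt hO (hY'.const_smul _))
      (aut_differentiableAt hO hh hz),
    jacK_comp hD hs.ex_mem (aut_differentiableAt hO hh hs.ex_mem)
      (hs.differentiableAt hO (hY.const_smul _)),
    jacK_aut hD hh hz, jacK_aut hD hh hs.ex_mem, mul_one, one_mul] at h2
  rw [h2]

theorem divK_fld (hD : IsOpen D) (hW : ∀ j, DifferentiableOn ℂ (W j) D) (V : Fin N → ℝ)
    {z : Fin n → ℂ} (hz : z ∈ D) : divK D (fld W (I • rc V)) z = -(mom D W z ⬝ᵥ V) := by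
  have hd : ∀ j, DifferentiableAt ℂ (W j) z := fun j => (hW j).differentiableAt (hD.mem_nhds hz)
  have h1 : fld W (I • rc V) z = ∑ j, V j • (I • W j) z := by
    simp only [fld, Pi.smul_apply, rc_apply, smul_eq_mul]
    exact Finset.sum_congr rfl fun j _ => by rw [mul_comm, mul_smul, Complex.coe_smul]
  have h2 : fderiv ℂ (fld W (I • rc V)) z = ∑ j, (V j : ℂ) • fderiv ℂ (I • W j) z := by
    refine HasFDerivAt.fderiv ?_
    have h3 := HasFDerivAt.fun_sum (u := Finset.univ) fun j _ =>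
      ((hd j).const_smul I).hasFDerivAt.const_smul (V j : ℂ)
    refine h3.congr_of_eventuallyEq (Eventually.of_forall fun w => ?_)
    simp only [fld, Pi.smul_apply, rc_apply, smul_eq_mul]
    exact Finset.sum_congr rfl fun j _ => by rw [mul_comm, mul_smul]
  rw [divK, h1, h2, ContinuousLinearMap.toLinearMap_sum, map_sum, map_sum, Complex.re_sum, dotProduct,
    Finset.mul_sum, ← Finset.sum_add_distrib, ← Finset.sum_neg_distrib]
  refine Finset.sum_congr rfl fun j _ => ?_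
  rw [map_smul, ContinuousLinearMap.toLinearMap_smul, map_smul, smul_eq_mul, smul_eq_mul,
    Complex.re_ofReal_mul, mom, divK]
  ring

end Pool.Agent.P.MP_2ff09b_gt
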