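import Pool.Agent.P.MP_2ff09b_gt.P1
import Pool.Agent.P.MP_2ff09b_gt.B5

/-! CVX-P2. The derivative of the moment map; isotropy; equivariance.
Sketch. Let u = lk D, Y = W j, τ z = trace (fderiv Y z), holomorphic on D (fderiv_hol). By
divK_eq_zero, u'(z)(Y z) + 2 re τ z = 0 on D. Differentiate in the direction I ξ:
u''(I ξ, Y) + u'(I dY ξ) + 2 re (I dτ ξ) = 0. On the other hand the derivative of
mom j = -(u'(I Y) + 2 re (I τ)) in the direction ξ is -u''(ξ, I Y) - u'(I dY ξ) - 2 re (I dτ ξ).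
So it is u''(I ξ, Y) - u''(ξ, I Y) = levi (I ξ) Y. Isotropy: mom is constant along the flow of
W i (divK_aut with h = ex (t W i), fderiv_ex_of_comm); differentiate in t. Equivariance: divK_aut
and divK_fld (Normalizes is complex linear). -/

open Set MeasureTheory Complex Filter Topology Metric

noncomputable section

namespace Pool.Agent.P.MP_2ff09b_gt

variable {n N : ℕ} {D : Set (Fin n → ℂ)} {W : Fin N → (Fin n → ℂ) → Fin n → ℂ}


theorem P2_div (hD : BCD D) {Y : (Fin n → ℂ) → Fin n → ℂ} (hY : DifferentiableOn ℂ Y D)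
    {z : Fin n → ℂ} (hz : z ∈ D) : ∃ τ : (Fin n → ℂ) →L[ℂ] ℂ, ∀ c : ℂ,
      ∃ L : (Fin n → ℂ) →L[ℝ] ℝ, HasFDerivAt (divK D (c • Y)) L z ∧ ∀ ξ, L ξ =
        fderiv ℝ (fderiv ℝ (lk D)) z ξ (c • Y z) + fderiv ℝ (lk D) z (c • fderiv ℂ Y z ξ) +
          2 * (c * τ ξ).re := by
  have hn := hD.isOpen.mem_nhds hz
  let T₀ : ((Fin n → ℂ) →L[ℂ] (Fin n → ℂ)) →ₗ[ℂ] ℂ :=
    (LinearMap.trace ℂ (Fin n → ℂ)).comp (ContinuousLinearMap.coeLM ℂ)
  let T : ((Fin n → ℂ) →L[ℂ] (Fin n → ℂ)) →L[ℂ] ℂ := LinearMap.toContinuousLinearMap T₀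
  have h1 : HasFDerivAt (fun w => T (fderiv ℂ Y w)) (T.comp (fderiv ℂ (fderiv ℂ Y) z)) z :=
    T.hasFDerivAt.comp z ((fderiv_hol hD.isOpen hY).differentiableAt hn).hasFDerivAt
  have h2 : HasFDerivAt (fderiv ℝ (lk D)) (fderiv ℝ (fderiv ℝ (lk D)) z) z :=
    (((B5_c2 hD hz).fderiv_right (m := 1) (by norm_num)).differentiableAt one_ne_zero).hasFDerivAt
  have h3 : HasFDerivAt Y (fderiv ℂ Y z) z := (hY.differentiableAt hn).hasFDerivAt
  refine ⟨T.comp (fderiv ℂ (fderiv ℂ Y) z), fun c => ?_⟩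
  have h4 := (h2.clm_apply ((h3.const_smul c).restrictScalars ℝ)).add
    ((reCLM.hasFDerivAt.comp z ((h1.const_smul c).restrictScalars ℝ)).const_smul (2 : ℝ))
  refine ⟨_, h4.congr_of_eventuallyEq ?_, fun ξ => ?_⟩
  · filter_upwards [hn] with w hw
    have e : fderiv ℂ (c • Y) w = c • fderiv ℂ Y w :=
      fderiv_const_smul (hY.differentiableAt (hD.isOpen.mem_nhds hw)) c
    have e' : LinearMap.trace ℂ (Fin n → ℂ) (fderiv ℂ (c • Y) w : (Fin n → ℂ) →ₗ[ℂ] (Fin n → ℂ)) =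
        c • T (fderiv ℂ Y w) := by
      rw [← map_smul, ← e]
      rfl
    rw [divK, e']
    rfl
  · simp [add_comm]

theorem P2_semi (hW : ACtx D W) (j : Fin N) (t : ℝ) : SemiC D ((t : ℂ) • W j) := by
  have h := hW.complete (t • Pi.single j 1)
  rwa [rc_smul, rc_single, fld_smul, fld_single] at h

theorem P2_semi_neg (hW : ACtx D W) (j : Fin N) (t : ℝ) : SemiC D (-((t : ℂ) • W j)) := by
  have h := P2_semi hW j (-t)
  rwa [ofReal_neg, neg_smul] at h

theorem ACtx.hasFDerivAt_mom (hD : BCD D) (hW : ACtx D W) {z : Fin n → ℂ} (hz : z ∈ D) :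
    ∃ L : (Fin n → ℂ) →L[ℝ] (Fin N → ℝ), HasFDerivAt (mom D W) L z ∧
      ∀ ξ j, L ξ j = levi D z (I • ξ) (W j z) := by
  have key : ∀ j, ∃ L : (Fin n → ℂ) →L[ℝ] ℝ, HasFDerivAt (fun w => mom D W w j) L z ∧
      ∀ ξ, L ξ = levi D z (I • ξ) (W j z) := fun j => by
    obtain ⟨τ, hτ⟩ := P2_div hD (hW.hol j) hz
    obtain ⟨L₁, a1, a2⟩ := hτ ((1 : ℝ) : ℂ)
    obtain ⟨L₂, b1, b2⟩ := hτ I
    have a3 : HasFDerivAt (divK D (((1 : ℝ) : ℂ) • W j)) (0 : (Fin n → ℂ) →L[ℝ] ℝ) z := by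
      refine (hasFDerivAt_const (0 : ℝ) z).congr_of_eventuallyEq ?_
      filter_upwards [hD.isOpen.mem_nhds hz] with w hw
      exact divK_eq_zero hD (P2_semi hW j 1) (P2_semi_neg hW j 1) hw
    refine ⟨-L₂, b1.neg, fun ξ => ?_⟩
    have a4 := a2 (I • ξ)
    rw [a1.unique a3, _root_.zero_apply, ofReal_one, one_smul, one_smul, one_mul,
      (fderiv ℂ (W j) z).map_smul, τ.map_smul, smul_eq_mul] at a4
    rw [_root_.neg_apply, b2, levi, smul_smul, I_mul_I, neg_one_smul, map_neg,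
      _root_.neg_apply]
    linarith
  choose L h1 h2 using key
  exact ⟨ContinuousLinearMap.pi L, hasFDerivAt_pi.2 h1, fun ξ j => h2 j ξ⟩

theorem ACtx.continuousOn_mom (hD : BCD D) (hW : ACtx D W) : ContinuousOn (mom D W) D :=
  fun _ hz => (hW.hasFDerivAt_mom hD hz).choose_spec.1.continuousAt.continuousWithinAt

theorem ACtx.isotropic (hD : BCD D) (hW : ACtx D W) {z : Fin n → ℂ} (hz : z ∈ D) (i j : Fin N) :
    levi D z (I • W i z) (W j z) = 0 := by
  obtain ⟨L, h1, h2⟩ := hW.hasFDerivAt_mom hD hz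
  have e0 : ex D (((0 : ℝ) : ℂ) • W i) z = z := by
    rw [ofReal_zero, zero_smul, ex_zero hD.isOpen]
  have h3 := hasDerivAt_ex_smul_real hD.isOpen (hW.hol i) ((P2_semi hW i 0).2 z hz)
  rw [e0] at h3
  have h4 : HasDerivAt (fun s : ℝ => mom D W (ex D ((s : ℂ) • W i) z)) (L (W i z)) 0 :=
    HasFDerivAt.comp_hasDerivAt_of_eq (0 : ℝ) h1 h3 e0.symm
  have h5 : (fun s : ℝ => mom D W (ex D ((s : ℂ) • W i) z)) = fun _ => mom D W z := by
    funext s l
    obtain ⟨φ, hφ, e, -⟩ := exists_aut_ex hD.isOpen (P2_semi hW i s) (P2_semi_neg hW i s)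
    have h6 := divK_aut (Y := I • W l) (Y' := I • W l) hD hφ ((hW.hol l).const_smul I)
      ((hW.hol l).const_smul I) (fun w hw => by
      rw [Pi.smul_apply, Pi.smul_apply, map_smul, e, fderiv_ex_of_comm hD.isOpen
        (P2_semi hW i s).1 (hW.hol l) (F6_br hD.isOpen (hW.hol i) (hW.comm i l) s)
        ((P2_semi hW i s).2 w hw)]) hz
    rw [e] at h6
    exact congrArg Neg.neg h6
  rw [h5] at h4
  rw [← h2, h4.unique (hasDerivAt_const _ _)]
  rfl

theorem ACtx.mom_equivariant (hD : BCD D) (hW : ACtx D W) {γ : Equiv.Perm (Fin n → ℂ)}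
    (hγ : γ ∈ autGroup D) {θ : Matrix (Fin N) (Fin N) ℝ} (hθ : Normalizes D W γ θ)
    {z : Fin n → ℂ} (hz : z ∈ D) (V : Fin N → ℝ) :
    mom D W (γ z) ⬝ᵥ θ.mulVec V = mom D W z ⬝ᵥ V := by
  have h := divK_aut hD hγ (fld_hol hW.hol (I • rc V)) (fld_hol hW.hol (I • rc (θ.mulVec V)))
    (fun w hw => by rw [fld_smul, fld_smul, Pi.smul_apply, Pi.smul_apply, map_smul, hθ V w hw]) hz
  rw [divK_fld hD.isOpen hW.hol _ (aut_maps hγ hz), divK_fld hD.isOpen hW.hol _ hz] at h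
  exact neg_injective h

theorem P2_fld (V : Fin N → ℝ) (z : Fin n → ℂ) : fld W (rc V) z = ∑ j, V j • W j z := by
  simp only [fld, rc, Complex.coe_smul]

/-- The Bergman norm of a complex combination of real combinations. -/
theorem ACtx.levi_fld (hD : BCD D) (hW : ACtx D W) {z : Fin n → ℂ} (hz : z ∈ D)
    (A B : Fin N → ℝ) :
    levi D z (fld W (rc A + I • rc B) z) (fld W (rc A + I • rc B) z) =
      A ⬝ᵥ (gram D W z).mulVec A + B ⬝ᵥ (gram D W z).mulVec B := by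
  obtain ⟨Q, hQ⟩ := exists_levi_bilin (D := D) z
  have h1 : ∀ V : Fin N → ℝ, levi D z (fld W (rc V) z) (fld W (rc V) z) =
      V ⬝ᵥ (gram D W z).mulVec V := fun V => by
    simp only [hQ, P2_fld, map_sum, map_smul, _root_.sum_apply,
      _root_.smul_apply, smul_eq_mul, dotProduct, Matrix.mulVec, gram,
      Matrix.of_apply, Finset.mul_sum]
    rw [Finset.sum_comm]
    exact Finset.sum_congr rfl fun i _ => Finset.sum_congr rfl fun j _ => by ring
  have h2 : levi D z (I • fld W (rc B) z) (fld W (rc A) z) = 0 := by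
    have h3 : ∀ i j, Q (I • W i z) (W j z) = 0 := fun i j => by
      rw [← hQ, hW.isotropic hD hz]
    have e : I • ∑ j, B j • W j z = ∑ j, B j • I • W j z := by
      rw [Finset.smul_sum]
      exact Finset.sum_congr rfl fun j _ => smul_comm _ _ _
    simp only [hQ, P2_fld, e, map_sum, map_smul, _root_.sum_apply,
      _root_.smul_apply, h3, smul_zero, Finset.sum_const_zero]
  have h4 := (levi_symm hD hz _ _).trans h2
  rw [← h1, ← h1, ← levi_I_I z (fld W (rc B) z), fld_add, fld_smul, Pi.add_apply, Pi.smul_apply]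
  rw [hQ] at h2 h4
  simp only [hQ, map_add, _root_.add_apply, h2, h4, add_zero, zero_add]

theorem gram_isSymm (hD : BCD D) {z : Fin n → ℂ} (hz : z ∈ D) : (gram D W z).IsSymm :=
  Matrix.IsSymm.ext fun _ _ => levi_symm hD hz _ _

end Pool.Agent.P.MP_2ff09b_gt
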