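import Pool.Agent.P.MP_2ff09b_gt.F8
import Pool.Agent.P.MP_2ff09b_gt.F5
import Pool.Agent.P.MP_2ff09b_gt.K1

/-! CVX-P3. The cone of an abelian family and the semigroup `phi`.
Sketch. The brackets of all complex combinations vanish (bilinearity of lieBracket for
differentiable fields). pcone: SemiC.add, SemiC.smul, isClosed_semiC_fld, eq_zero_of_complete_I.
semiC_add: real part complete plus i times an element of the cone. strip: for |ζ| < 1,
i V + ζ u = (re ζ) u + i (V + (im ζ) u) and V + (im ζ) u is in the convex cone; strip_comm.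
Normalizes: θ is injective by ACtx.inj and the bijectivity of the derivative of γ; the cone is
preserved in both directions by HasSol.map for γ and for its inverse. -/

open Set MeasureTheory Complex Filter Topology Metric

noncomputable section

namespace Pool.Agent.P.MP_2ff09b_gt

variable {n N : ℕ} {D : Set (Fin n → ℂ)} {W : Fin N → (Fin n → ℂ) → Fin n → ℂ}


theorem P3_fderiv_fld (hD : IsOpen D) (hW : ∀ j, DifferentiableOn ℂ (W j) D) (U : Fin N → ℂ)
    {z : Fin n → ℂ} (hz : z ∈ D) (v : Fin n → ℂ) :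
    fderiv ℂ (fld W U) z v = ∑ j, U j • fderiv ℂ (W j) z v := by
  have h : HasFDerivAt (fld W U) (∑ j, U j • fderiv ℂ (W j) z) z := by
    unfold fld
    exact HasFDerivAt.fun_sum fun j _ =>
      (((hW j).differentiableAt (hD.mem_nhds hz)).hasFDerivAt.const_smul (U j))
  rw [h.fderiv]
  simp

theorem P3_I {γ : Equiv.Perm (Fin n → ℂ)} {θ : Matrix (Fin N) (Fin N) ℝ}
    (hθ : Normalizes D W γ θ) (V : Fin N → ℝ) :
    ∀ z ∈ D, fderiv ℂ γ z (fld W (I • rc V) z) = fld W (I • rc (θ.mulVec V)) (γ z) := by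
  intro z hz
  rw [fld_smul, fld_smul, Pi.smul_apply, Pi.smul_apply, map_smul, hθ V z hz]

theorem ACtx.lieBracket_fld (hD : IsOpen D) (hW : ACtx D W) (U V : Fin N → ℂ) {z : Fin n → ℂ}
    (hz : z ∈ D) : VectorField.lieBracket ℂ (fld W U) (fld W V) z = 0 := by
  rw [VectorField.lieBracket, P3_fderiv_fld hD hW.hol V hz, P3_fderiv_fld hD hW.hol U hz]
  have h : ∀ i j, fderiv ℂ (W j) z (W i z) = fderiv ℂ (W i) z (W j z) := fun i j =>
    sub_eq_zero.1 (hW.comm i j z hz)
  simp only [fld, map_sum, map_smul, Finset.smul_sum]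
  rw [Finset.sum_comm, sub_eq_zero]
  refine Finset.sum_congr rfl fun i _ => Finset.sum_congr rfl fun j _ => ?_
  rw [h i j, smul_comm]

theorem ACtx.pcone (hD : BCD D) (hW : ACtx D W) : PCone (acone D W) := by
  refine ⟨?_, ?_, ?_, ?_, ?_, hW.gen⟩
  · have hc : Continuous fun V : Fin N → ℝ => I • rc V := by
      refine continuous_pi fun j => ?_
      simp only [Pi.smul_apply, rc_apply]
      fun_prop
    exact (isClosed_semiC_fld hD hW.hol).preimage hc
  · show SemiC D (fld W (I • rc 0))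
    rw [rc_zero, smul_zero, fld_zero]
    exact semiC_zero
  · intro V hV V' hV'
    show SemiC D (fld W (I • rc (V + V')))
    rw [rc_add, smul_add, fld_add]
    exact SemiC.add hD hV hV'
  · intro t ht V hV
    show SemiC D (fld W (I • rc (t • V)))
    rw [rc_smul, smul_comm, fld_smul]
    exact SemiC.smul hD.isOpen hV ht
  · intro V hV hV'
    refine hW.inj V (eq_zero_of_complete_I hD (hW.complete V) ?_ ?_ ?_)
    · rw [← fld_neg, ← rc_neg]
      exact hW.complete _
    · rw [← fld_smul]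
      exact hV
    · rw [← fld_smul, ← fld_neg, ← smul_neg, ← rc_neg]
      exact hV'

theorem ACtx.semiC_add (hD : BCD D) (hW : ACtx D W) (A : Fin N → ℝ) {V : Fin N → ℝ}
    (hV : V ∈ acone D W) : SemiC D (fld W (rc A + I • rc V)) := by
  rw [fld_add]
  exact SemiC.add hD (hW.complete A) hV

theorem phi_maps {V : Fin N → ℝ} (hV : V ∈ acone D W) : MapsTo (phi D W V) D D :=
  SemiC.maps hV

theorem phi_hol (hD : IsOpen D) {V : Fin N → ℝ} (hV : V ∈ acone D W) :
    DifferentiableOn ℂ (phi D W V) D :=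
  SemiC.hol_ex hD hV

theorem ACtx.fderiv_phi_fld (hD : IsOpen D) (hW : ACtx D W) {V : Fin N → ℝ} (hV : V ∈ acone D W)
    {z : Fin n → ℂ} (hz : z ∈ D) (U : Fin N → ℂ) :
    fderiv ℂ (phi D W V) z (fld W U z) = fld W U (phi D W V z) := by
  exact fderiv_ex_of_comm hD (fld_hol hW.hol _) (fld_hol hW.hol U)
    (fun w hw => hW.lieBracket_fld hD _ _ hw) (hV.2 z hz)

theorem ACtx.strip (hD : BCD D) (hW : ACtx D W) {V u : Fin N → ℝ} (h1 : V + u ∈ acone D W)
    (h2 : V - u ∈ acone D W) {z : Fin n → ℂ} (hz : z ∈ D) :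
    nr D (phi D W V z) (fld W (rc u) (phi D W V z)) ≤ 2 := by
  have hC := hW.pcone hD
  refine strip_comm hD (fld_hol hW.hol _) (hW.complete u) ?_
    (fun w hw => hW.lieBracket_fld hD.isOpen _ _ hw) fun ζ hζ => ?_
  · rw [← fld_neg, ← rc_neg]
    exact hW.complete _
  · have hζ1 : |ζ.im| ≤ 1 := (abs_im_le_norm ζ).trans (mem_ball_zero_iff.1 hζ).le
    obtain ⟨h3, h4⟩ := abs_le.1 hζ1
    have hm : V + ζ.im • u ∈ acone D W := by
      have e : V + ζ.im • u = ((1 + ζ.im) / 2) • (V + u) + ((1 - ζ.im) / 2) • (V - u) := by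
        funext j
        simp only [Pi.add_apply, Pi.smul_apply, Pi.sub_apply, smul_eq_mul]
        ring
      rw [e]
      exact hC.add_mem _ (hC.smul_mem _ (by linarith) _ h1) _ (hC.smul_mem _ (by linarith) _ h2)
    have e : fld W (I • rc V) + ζ • fld W (rc u) =
        fld W (rc (ζ.re • u) + I • rc (V + ζ.im • u)) := by
      rw [← fld_smul, ← fld_add]
      congr 1
      funext j
      simp only [Pi.add_apply, Pi.smul_apply, rc_apply, smul_eq_mul]
      apply Complex.ext <;> simp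
    rw [e]
    exact (hW.semiC_add hD _ hm).2 z hz

/-- Moving backwards along `i b` and forwards along `i (V + b)`. -/
theorem ACtx.phi_add_back (hD : IsOpen D) (hW : ACtx D W) {V b : Fin N → ℝ}
    (hV : V + b ∈ acone D W) {z : Fin n → ℂ} (h : HasSol D (fld W (I • rc (-b))) z) :
    phi D W (V + b) (ex D (fld W (I • rc (-b))) z) = phi D W V z := by
  have h1 := (ex_add_of_comm hD hV (fld_hol hW.hol _)
    (fun w hw => hW.lieBracket_fld hD _ _ hw) h).2
  rw [← fld_add, ← smul_add, ← rc_add, add_neg_cancel_right] at h1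
  exact h1.symm

theorem ACtx.normalizes_det (hD : IsOpen D) (hW : ACtx D W) {γ : Equiv.Perm (Fin n → ℂ)}
    (hγ : γ ∈ autGroup D) {θ : Matrix (Fin N) (Fin N) ℝ} (hθ : Normalizes D W γ θ) :
    IsUnit θ.det := by
  rw [← Matrix.isUnit_iff_isUnit_det, ← Matrix.mulVec_injective_iff_isUnit]
  intro V V' h
  rw [← sub_eq_zero]
  refine hW.inj _ fun z hz => ?_
  have h1 := hθ (V - V') z hz
  rw [Matrix.mulVec_sub, h, sub_self, rc_zero, fld_zero] at h1
  rw [← aut_fderiv_symm_apply hD hγ hz (fld W (rc (V - V')) z), h1]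
  simp

theorem ACtx.normalizes_mem (hD : IsOpen D) (hW : ACtx D W) {γ : Equiv.Perm (Fin n → ℂ)}
    (hγ : γ ∈ autGroup D) {θ : Matrix (Fin N) (Fin N) ℝ} (hθ : Normalizes D W γ θ)
    (V : Fin N → ℝ) : θ.mulVec V ∈ acone D W ↔ V ∈ acone D W := by
  constructor
  · intro h
    refine ⟨fld_hol hW.hol _, fun z hz => ?_⟩
    have h1 := (HasSol.map hD hD (aut_hol_symm hγ) (aut_maps_symm hγ) (fld_hol hW.hol _)
      (fld_hol hW.hol (I • rc V)) (fun w hw => ?_) (h.2 _ (aut_maps hγ hz))).1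
    · simpa using h1
    · have hw' := aut_maps_symm hγ hw
      have h2 := aut_fderiv_symm_apply hD hγ hw' (fld W (I • rc V) (γ.symm w))
      rwa [P3_I hθ V _ hw', γ.apply_symm_apply] at h2
  · intro h
    refine ⟨fld_hol hW.hol _, fun z hz => ?_⟩
    have h1 := (HasSol.map hD hD (aut_hol hγ) (aut_maps hγ) (fld_hol hW.hol _)
      (fld_hol hW.hol _) (P3_I hθ V) (h.2 _ (aut_maps_symm hγ hz))).1
    simpa using h1

theorem ACtx.phi_equivariant (hD : IsOpen D) (hW : ACtx D W) {γ : Equiv.Perm (Fin n → ℂ)}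
    (hγ : γ ∈ autGroup D) {θ : Matrix (Fin N) (Fin N) ℝ} (hθ : Normalizes D W γ θ)
    {V : Fin N → ℝ} (hV : V ∈ acone D W) {z : Fin n → ℂ} (hz : z ∈ D) :
    phi D W (θ.mulVec V) (γ z) = γ (phi D W V z) := by
  exact (HasSol.map hD hD (aut_hol hγ) (aut_maps hγ) (fld_hol hW.hol _)
    (fld_hol hW.hol _) (P3_I hθ V) (hV.2 z hz)).2

end Pool.Agent.P.MP_2ff09b_gt
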