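import Pool.Agent.P.MP_2ff09b_gt.P2
import Pool.Agent.P.MP_2ff09b_gt.P3
import Pool.Agent.P.MP_2ff09b_gt.B6
import Pool.Agent.P.MP_2ff09b_gt.A9

/-! CVX-P4. The set where the abelian family acts locally freely.
Sketch. By levi_fld and nr_sq_le_levi (nr is definite by exists_norm_le_nr), real independence of
values at z implies complex independence: if fld (A + i B) z = 0 then A G A + B G B = 0, each term
is levi of fld A z, fld B z, so both vanish. The same holds for any family of real combinations.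
Nonemptiness: take the largest k such that some k real combinations A 1..A k have independent
values at some z0. If freeSet is empty there is V nonzero with fld V z0 = 0. Near z0 the values of
the A j stay independent and fld V z is a real combination of them (maximality, applied to the
family A, V); by exists_coef on a small ball the coefficients are holomorphic, they are real
valued, hence constant (derivative complex linear with real values), equal to 0; so fld V vanishes
near z0, hence on D (eq_zero_of_eventually), against ACtx.inj. Null complement: for z0 in freeSet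
take a complex left inverse l of fldL W z0; the holomorphic function det (l ∘ fldL W z) is nonzero
at z0 and its nonvanishing implies freeness; null_zero_set. Openness: injectivity of linear maps
is an open condition (ContinuousLinearMap.isOpen_injective). Invariance: fderiv_phi_fld and
fderiv_ex_bijective. -/

open Set MeasureTheory Complex Filter Topology Metric

noncomputable section

namespace Pool.Agent.P.MP_2ff09b_gt

variable {n N : ℕ} {D : Set (Fin n → ℂ)} {W : Fin N → (Fin n → ℂ) → Fin n → ℂ}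


theorem P4_levi_nonneg (hD : BCD D) {z : Fin n → ℂ} (hz : z ∈ D) (v : Fin n → ℂ) :
    0 ≤ levi D z v v := (sq_nonneg _).trans (nr_sq_le_levi hD hz v)

theorem P4_levi_zero (hD : BCD D) {z : Fin n → ℂ} (hz : z ∈ D) {v : Fin n → ℂ}
    (h : levi D z v v ≤ 0) : v = 0 := by
  obtain ⟨C, -, hC⟩ := exists_norm_le_nr hD
  have h1 : nr D z v = 0 :=
    pow_eq_zero_iff two_ne_zero |>.1 (le_antisymm ((nr_sq_le_levi hD hz v).trans h) (sq_nonneg _))
  have h2 := hC z hz v
  rw [h1, mul_zero] at h2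
  exact norm_le_zero_iff.1 h2

theorem P4_gram (hD : BCD D) (hW : ACtx D W) {z : Fin n → ℂ} (hz : z ∈ D) (A : Fin N → ℝ) :
    A ⬝ᵥ (gram D W z).mulVec A = levi D z (fld W (rc A) z) (fld W (rc A) z) := by
  have h := hW.levi_fld hD hz A 0
  rw [rc_zero, smul_zero, add_zero, zero_dotProduct, add_zero] at h
  exact h.symm

/-- Complex relations between the values split into real relations. -/
def P4Q (D : Set (Fin n → ℂ)) (W : Fin N → (Fin n → ℂ) → Fin n → ℂ) : Prop :=
  ∀ z ∈ D, ∀ A B : Fin N → ℝ, fld W (rc A + I • rc B) z = 0 →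
    fld W (rc A) z = 0 ∧ fld W (rc B) z = 0

theorem P4_q (hD : BCD D) (hW : ACtx D W) : P4Q D W := fun z hz A B h => by
  have h1 := hW.levi_fld hD hz A B
  obtain ⟨L, hL⟩ := exists_levi_bilin (D := D) z
  rw [h, hL, map_zero, P4_gram hD hW hz, P4_gram hD hW hz] at h1
  have h2 := P4_levi_nonneg hD hz (fld W (rc A) z)
  have h3 := P4_levi_nonneg hD hz (fld W (rc B) z)
  exact ⟨P4_levi_zero hD hz (by linarith), P4_levi_zero hD hz (by linarith)⟩

theorem P4_mem_iff (hq : P4Q D W) {z : Fin n → ℂ} :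
    z ∈ freeSet D W ↔ z ∈ D ∧ Function.Injective (fldL W z) := by
  refine and_congr_right fun hz => ⟨fun h => (injective_iff_map_eq_zero _).2 fun U hU => ?_,
    fun h V hV => rc_injective (h (by rw [rc_zero, map_zero]; exact hV))⟩
  have e : U = rc (fun j => (U j).re) + I • rc fun j => (U j).im := by
    funext j
    apply Complex.ext <;> simp
  rw [fldL_apply, e] at hU
  obtain ⟨h1, h2⟩ := hq z hz _ _ hU
  rw [e, h _ h1, h _ h2, rc_zero, smul_zero, add_zero]

theorem P4_cd (hD : IsOpen D) (hW : ∀ j, DifferentiableOn ℂ (W j) D) :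
    ContDiffOn ℂ 1 (fldL W) D :=
  contDiffOn_clm_apply.2 fun U => contDiffOn_of_hol hD (fld_hol hW U) 1

theorem P4_open (hD : IsOpen D) (hW : ∀ j, DifferentiableOn ℂ (W j) D) (hq : P4Q D W) :
    IsOpen (freeSet D W) := by
  have e : freeSet D W = D ∩ fldL W ⁻¹' {L | Function.Injective L} :=
    Set.ext fun z => P4_mem_iff hq
  rw [e]
  exact (P4_cd hD hW).continuousOn.isOpen_inter_preimage hD ContinuousLinearMap.isOpen_injective

theorem P4_comb {k : ℕ} (A : Fin k → Fin N → ℝ) (a : Fin k → ℝ) (z : Fin n → ℂ) :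
    fld (fun j => fld W (rc (A j))) (rc a) z = fld W (rc (∑ j, a j • A j)) z := by
  have e : rc (∑ j, a j • A j) = ∑ j, (a j : ℂ) • rc (A j) := by
    funext i
    simp [Finset.sum_apply]
  rw [e, fld_sum]
  exact Finset.sum_congr rfl fun j _ => (congrFun (fld_smul W _ _) z).symm

theorem P4_q_comb (hq : P4Q D W) {k : ℕ} (A : Fin k → Fin N → ℝ) :
    P4Q D fun j => fld W (rc (A j)) := fun z hz a b h => by
  rw [fld_add, fld_smul, Pi.add_apply, Pi.smul_apply, P4_comb, P4_comb] at h
  rw [P4_comb, P4_comb]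
  refine hq z hz _ _ ?_
  rw [fld_add, fld_smul]
  exact h

theorem P4_indep {z : Fin n → ℂ} :
    LinearIndependent ℝ (fun j => W j z) ↔ ∀ V : Fin N → ℝ, fld W (rc V) z = 0 → V = 0 := by
  rw [Fintype.linearIndependent_iff]
  exact forall_congr' fun V => imp_congr Iff.rfl funext_iff.symm

theorem P4_const {E : Type*} [NormedAddCommGroup E] [NormedSpace ℂ E] {U : Set E} (hU : IsOpen U)
    (hc : IsPreconnected U) {f : E → ℂ} (hf : DifferentiableOn ℂ f U) (h : ∀ z ∈ U, (f z).im = 0)
    {x y : E} (hx : x ∈ U) (hy : y ∈ U) : f x = f y := by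
  refine hU.is_const_of_fderiv_eq_zero hc hf (fun z hz => ?_) hx hy
  have h1 := (hf.differentiableAt (hU.mem_nhds hz)).hasFDerivAt
  have h2 := imCLM.hasFDerivAt.comp z (h1.restrictScalars ℝ)
  have h3 : HasFDerivAt (imCLM ∘ f) (0 : E →L[ℝ] ℝ) z :=
    (hasFDerivAt_const (0 : ℝ) z).congr_of_eventuallyEq
      (Filter.eventually_of_mem (hU.mem_nhds hz) h)
  have h4 : ∀ v, (fderiv ℂ f z v).im = 0 := fun v => DFunLike.congr_fun (h2.unique h3) v
  refine ContinuousLinearMap.ext fun v => Complex.ext ?_ (h4 v)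
  simpa using h4 (I • v)

theorem ACtx.injective_fldL (hD : BCD D) (hW : ACtx D W) {z : Fin n → ℂ} (hz : z ∈ freeSet D W) :
    Function.Injective (fldL W z) := by
  exact ((P4_mem_iff (P4_q hD hW)).1 hz).2

theorem ACtx.gram_posDef (hD : BCD D) (hW : ACtx D W) {z : Fin n → ℂ} (hz : z ∈ freeSet D W) :
    (gram D W z).PosDef := by
  refine Matrix.PosDef.of_dotProduct_mulVec_pos (gram_isSymm hD hz.1) fun A hA => ?_
  rw [star_trivial, P4_gram hD hW hz.1]
  exact lt_of_not_ge fun h => hA (hz.2 A (P4_levi_zero hD hz.1 h))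

theorem ACtx.isOpen_freeSet (hD : BCD D) (hW : ACtx D W) : IsOpen (freeSet D W) := by
  exact P4_open hD.isOpen hW.hol (P4_q hD hW)

theorem ACtx.freeSet_nonempty (hD : BCD D) (hW : ACtx D W) : (freeSet D W).Nonempty := by
  classical
  set P : ℕ → Prop := fun k => ∃ (A : Fin k → Fin N → ℝ) (z : Fin n → ℂ), z ∈ D ∧
    LinearIndependent ℝ fun j => fld W (rc (A j)) z with hP
  obtain ⟨z₁, hz₁⟩ := hD.nonempty
  have hP0 : P 0 := ⟨fun j => j.elim0, z₁, hz₁, linearIndependent_empty_type⟩
  obtain ⟨k, ⟨A, z₀, hz₀, hA⟩, hmax⟩ : ∃ k, P k ∧ ¬ P (k + 1) := by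
    by_contra hne
    have h1 : ∀ k, P k := fun k => by
      induction k with
      | zero => exact hP0
      | succ k ih => exact by_contra fun h => hne ⟨k, ih, h⟩
    obtain ⟨A, z, -, h⟩ := h1 (Module.finrank ℝ (Fin n → ℂ) + 1)
    simpa using h.fintype_card_le_finrank
  refine ⟨z₀, hz₀, fun V hV => hW.inj V ?_⟩
  have hol : ∀ j, DifferentiableOn ℂ (fld W (rc (A j))) D := fun j => fld_hol hW.hol _
  have hq := P4_q_comb (P4_q hD hW) A
  obtain ⟨r, hr, hb⟩ := Metric.isOpen_iff.1 (P4_open hD.isOpen hol hq) z₀ ⟨hz₀, P4_indep.1 hA⟩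
  have hbD : ball z₀ r ⊆ D := fun z hz => (hb hz).1
  have hinj : ∀ z ∈ ball z₀ r, Function.Injective (fldL (fun j => fld W (rc (A j))) z) :=
    fun z hz => ((P4_mem_iff hq).1 (hb hz)).2
  have hre : ∀ z ∈ ball z₀ r, ∃ a : Fin k → ℝ,
      fldL (fun j => fld W (rc (A j))) z (rc a) = fld W (rc V) z := fun z hz => by
    by_contra hne
    refine hmax ⟨Fin.cons V A, z, hbD hz, ?_⟩
    have e : (fun j => fld W (rc ((Fin.cons V A : Fin (k + 1) → Fin N → ℝ) j)) z) =
        Fin.cons (fld W (rc V) z) fun j => fld W (rc (A j)) z := by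
      funext j
      refine Fin.cases rfl (fun _ => rfl) j
    rw [e]
    refine linearIndependent_finCons.2 ⟨P4_indep.2 (hb hz).2, fun h => hne ?_⟩
    exact (Submodule.mem_span_range_iff_exists_fun ℝ).1 h
  obtain ⟨ξ, hξ, e⟩ := exists_coef isOpen_ball
    (((P4_cd hD.isOpen hol).differentiableOn one_ne_zero).mono hbD)
    ((fld_hol hW.hol (rc V)).mono hbD) hinj fun z hz => (hre z hz).elim fun a ha => ⟨rc a, ha⟩
  have h0 : ξ z₀ = 0 :=
    hinj z₀ (mem_ball_self hr) (by rw [e z₀ (mem_ball_self hr), hV, map_zero])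
  refine eq_zero_of_eventually hD.isOpen hD.convex (fld_hol hW.hol _) hz₀ ?_
  filter_upwards [ball_mem_nhds z₀ hr] with z hz
  have h1 : ξ z = ξ z₀ := funext fun j =>
    P4_const isOpen_ball (convex_ball z₀ r).isPreconnected (differentiableOn_pi.1 hξ j)
      (fun w hw => by
        obtain ⟨a, ha⟩ := hre w hw
        rw [hinj w hw ((e w hw).trans ha.symm)]
        exact ofReal_im _) hz (mem_ball_self hr)
  rw [← e z hz, h1, h0, map_zero]

theorem ACtx.volume_diff_freeSet (hD : BCD D) (hW : ACtx D W) :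
    volume (D \ freeSet D W) = 0 := by
  obtain ⟨z₀, hz₀⟩ := hW.freeSet_nonempty hD
  obtain ⟨l, hl⟩ := (fldL W z₀ : (Fin N → ℂ) →ₗ[ℂ] (Fin n → ℂ)).exists_leftInverse_of_injective
    (LinearMap.ker_eq_bot.2 (hW.injective_fldL hD hz₀))
  have h1 : ContDiffOn ℂ 1 (fun z => (LinearMap.toContinuousLinearMap l).comp (fldL W z)) D :=
    contDiffOn_const.clm_comp (P4_cd hD.isOpen hW.hol)
  have e : ∀ T : (Fin N → ℂ) →L[ℂ] Fin N → ℂ, T.det = ∑ σ : Equiv.Perm (Fin N),
      ((Equiv.Perm.sign σ : ℤ) : ℂ) * ∏ i, T (Pi.single i 1) (σ i) := fun T => by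
    rw [ContinuousLinearMap.det, ← LinearMap.det_toMatrix', Matrix.det_apply']
    simp only [LinearMap.toMatrix'_apply, ContinuousLinearMap.coe_coe]
  have h2 : DifferentiableOn ℂ
      (fun z => ((LinearMap.toContinuousLinearMap l).comp (fldL W z)).det) D := by
    simp only [e]
    refine ContDiffOn.differentiableOn (n := 1) (ContDiffOn.sum fun σ _ => contDiffOn_const.mul
      (contDiffOn_prod fun i _ => ?_)) one_ne_zero
    exact contDiffOn_pi.1 (h1.clm_apply contDiffOn_const) (σ i)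
  refine measure_mono_null (fun z hz => ?_) (null_zero_set hD.isOpen hD.convex h2 ⟨z₀, hz₀.1, ?_⟩)
  · refine ⟨hz.1, by_contra fun h => hz.2 ?_⟩
    refine (P4_mem_iff (P4_q hD hW)).2 ⟨hz.1, Function.Injective.of_comp (f := l) ?_⟩
    exact (ContinuousLinearMap.toContinuousLinearEquivOfDetNeZero _ h).injective
  · have h3 : ((LinearMap.toContinuousLinearMap l).comp (fldL W z₀)).det = 1 :=
      (congrArg LinearMap.det hl).trans LinearMap.det_id
    rw [h3]
    exact one_ne_zero

theorem ACtx.phi_mem_freeSet (hD : BCD D) (hW : ACtx D W) {V : Fin N → ℝ} (hV : V ∈ acone D W)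
    {z : Fin n → ℂ} (hz : z ∈ D) : phi D W V z ∈ freeSet D W ↔ z ∈ freeSet D W := by
  have hb : Function.Injective (fderiv ℂ (phi D W V) z) :=
    (fderiv_ex_bijective hD.isOpen hV.1 (hV.2 z hz)).1
  refine ⟨fun h => ⟨hz, fun A hA => h.2 A ?_⟩, fun h => ⟨phi_maps hV hz, fun A hA => h.2 A (hb ?_)⟩⟩
  · rw [← hW.fderiv_phi_fld hD.isOpen hV hz, hA, map_zero]
  · rw [hW.fderiv_phi_fld hD.isOpen hV hz, hA, map_zero]

theorem ACtx.aut_mem_freeSet (hD : BCD D) (hW : ACtx D W) {γ : Equiv.Perm (Fin n → ℂ)}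
    (hγ : γ ∈ autGroup D) {θ : Matrix (Fin N) (Fin N) ℝ} (hθ : Normalizes D W γ θ)
    {z : Fin n → ℂ} (hz : z ∈ freeSet D W) : γ z ∈ freeSet D W := by
  refine ⟨aut_maps hγ hz.1, fun A hA => ?_⟩
  obtain ⟨A', rfl⟩ := Matrix.mulVec_surjective_iff_isUnit.2
    ((Matrix.isUnit_iff_isUnit_det θ).2 (hW.normalizes_det hD.isOpen hγ hθ)) A
  have h1 := aut_fderiv_symm_apply hD.isOpen hγ hz.1 (fld W (rc A') z)
  rw [hθ A' z hz.1, hA, map_zero] at h1
  rw [hz.2 A' h1.symm, Matrix.mulVec_zero]

end Pool.Agent.P.MP_2ff09b_gt
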