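import Pool.Agent.P.MP_2ff09b_gt.P4
import Pool.Agent.P.MP_2ff09b_gt.B8
import Pool.Agent.P.MP_2ff09b_gt.K4

/-! CVX-P5. One-direction Jacobian bounds and positivity of the moment map.
Sketch. jacK_phi_le: jacK_le with N = 0 gives the first bound; with N = 1 and
a = fld u z / nr z (fld u z) it gives the second (treat nr z (fld u z) = 0 apart: then the left side
is 0). mom_mem: for V in the cone, nonzero, κ t = log jacK (phi (t V)) z has derivative
-(mom (phi (t V) z) ⬝ V) (hasDerivAt_log_jacK, divK_fld), and t ↦ mom (phi (t V) z) ⬝ V has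
derivative -(V G V) <= 0 (hasFDerivAt_mom, levi (I I ξ)). If mom z ⬝ V <= 0 then κ is nondecreasing
on [0, ∞), κ 0 = 0; but strip with t V ± t V gives nr (phi (t V) z) (fld V ..) <= 2/t, so the
second bound forces jacK to tend to 0. Tm_equivariant: mom_equivariant, cZ_equivariant,
phi_equivariant. -/

open Set MeasureTheory Complex Filter Topology Metric

noncomputable section

namespace Pool.Agent.P.MP_2ff09b_gt

variable {n N : ℕ} {D : Set (Fin n → ℂ)} {W : Fin N → (Fin n → ℂ) → Fin n → ℂ}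


theorem ACtx.jacK_phi_le (hD : BCD D) (hW : ACtx D W) : ∃ C : ℝ, 0 < C ∧ ∀ V ∈ acone D W,
    ∀ z ∈ D, jacK D (phi D W V) z ≤ C ∧ ∀ u : Fin N → ℂ,
      jacK D (phi D W V) z * nr D z (fld W u z) ^ 2 ≤
        C * nr D (phi D W V z) (fld W u (phi D W V z)) ^ 2 := by
  obtain ⟨C, hC, h⟩ := jacK_le hD one_pos
  refine ⟨C, hC, fun V hV z hz => ⟨?_, fun u => ?_⟩⟩
  · have h1 := h _ (phi_hol hD.isOpen hV) (phi_maps hV) z hz 0 (fun _ => 0) (fun i => i.elim0)
      fun x => by
        rw [Subsingleton.elim x 0, norm_zero, one_mul]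
        exact nr_nonneg hz _
    simpa using h1
  · rcases (nr_nonneg hz (fld W u z)).eq_or_lt with h0 | h0
    · rw [← h0, zero_pow two_ne_zero, mul_zero]
      positivity
    · have e : ‖(((nr D z (fld W u z))⁻¹ : ℝ) : ℂ)‖ = (nr D z (fld W u z))⁻¹ := by
        rw [Complex.norm_real, Real.norm_of_nonneg (inv_nonneg.2 h0.le)]
      have e1 : nr D z ((((nr D z (fld W u z))⁻¹ : ℝ) : ℂ) • fld W u z) = 1 := by
        rw [nr_smul hD hz, e, inv_mul_cancel₀ h0.ne']
      have h1 := h _ (phi_hol hD.isOpen hV) (phi_maps hV) z hz 1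
        (fun _ => (((nr D z (fld W u z))⁻¹ : ℝ) : ℂ) • fld W u z) (fun _ => e1.le) fun x => by
          rw [Fin.sum_univ_one, nr_smul hD hz, e1, one_mul, mul_one]
          refine (pi_norm_le_iff_of_nonneg (norm_nonneg _)).2 fun i => ?_
          rw [Subsingleton.elim i 0]
      rw [Fin.prod_univ_one, map_smul, nr_smul hD (phi_maps hV hz), e,
        hW.fderiv_phi_fld hD.isOpen hV hz] at h1
      refine (mul_le_mul_of_nonneg_right h1 (sq_nonneg _)).trans (le_of_eq ?_)
      field_simp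

private theorem P5_smul (V : Fin N → ℝ) (t : ℝ) :
    (t : ℂ) • fld W (I • rc V) = fld W (I • rc (t • V)) := by
  rw [rc_smul, smul_comm, fld_smul W t]

private theorem P5_deriv (hD : BCD D) (hW : ACtx D W) {V : Fin N → ℝ} {z : Fin n → ℂ} {t : ℝ}
    (h : HasSol D ((t : ℂ) • fld W (I • rc V)) z) : ∃ d : ℝ, d ≤ 0 ∧
      HasDerivAt (fun s : ℝ => mom D W (ex D ((s : ℂ) • fld W (I • rc V)) z) ⬝ᵥ V) d t := by
  have hw := h.ex_mem
  have h1 := hasDerivAt_ex_smul_real hD.isOpen (fld_hol hW.hol _) h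
  set w := ex D ((t : ℂ) • fld W (I • rc V)) z
  obtain ⟨L, hL, hL'⟩ := hW.hasFDerivAt_mom hD hw
  have h2 := hL.comp_hasDerivAt t h1
  refine ⟨L (fld W (I • rc V) w) ⬝ᵥ V, ?_, ?_⟩
  · obtain ⟨B, hB⟩ := exists_levi_bilin (D := D) w
    have e1 : I • fld W (I • rc V) w = -fld W (rc V) w := by
      rw [fld_smul, Pi.smul_apply, smul_smul, I_mul_I, neg_one_smul]
    have e2 : fld W (rc V) w = ∑ j, V j • W j w :=
      Finset.sum_congr rfl fun j _ => Complex.coe_smul _ _
    have e3 : L (fld W (I • rc V) w) ⬝ᵥ V = -levi D w (fld W (rc V) w) (fld W (rc V) w) := by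
      simp only [dotProduct, hL', e1, hB, map_neg, _root_.neg_apply]
      nth_rewrite 3 [e2]
      rw [map_sum, ← Finset.sum_neg_distrib]
      refine Finset.sum_congr rfl fun j _ => ?_
      rw [map_smul, smul_eq_mul]
      ring
    rw [e3, neg_nonpos]
    exact (sq_nonneg _).trans (nr_sq_le_levi hD hw _)
  · exact HasDerivAt.fun_sum fun j _ => ((hasDerivAt_pi.1 h2) j).mul_const (V j)

theorem ACtx.mom_mem (hD : BCD D) (hW : ACtx D W) {z : Fin n → ℂ} (hz : z ∈ freeSet D W) :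
    mom D W z ∈ dualInt (acone D W) := by
  intro V hV hV0
  by_contra hc
  rw [not_lt] at hc
  have hC := hW.pcone hD
  have hY : DifferentiableOn ℂ (fld W (I • rc V)) D := fld_hol hW.hol _
  have hs : ∀ t ∈ Ici (0 : ℝ), HasSol D ((t : ℂ) • fld W (I • rc V)) z := fun t ht =>
    (SemiC.smul hD.isOpen hV ht).2 z hz.1
  choose! d hd0 hd using fun t ht => P5_deriv hD hW (hs t ht)
  have h1 := antitoneOn_of_deriv_nonpos (convex_Ici (0 : ℝ))
    (fun t ht => (hd t ht).continuousAt.continuousWithinAt)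
    (fun t ht => (hd t (interior_subset ht)).differentiableAt.differentiableWithinAt)
    fun t ht => by
      rw [(hd t (interior_subset ht)).deriv]
      exact hd0 t (interior_subset ht)
  have h2 := monotoneOn_of_deriv_nonneg (convex_Ici (0 : ℝ))
    (fun t ht => (hasDerivAt_log_jacK hD hY (hs t ht)).continuousAt.continuousWithinAt)
    (fun t ht => (hasDerivAt_log_jacK hD hY
      (hs t (interior_subset ht))).differentiableAt.differentiableWithinAt)
    fun t ht => by
      have ht' := interior_subset ht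
      rw [(hasDerivAt_log_jacK hD hY (hs t ht')).deriv,
        divK_fld hD.isOpen hW.hol V (hs t ht').ex_mem, neg_nonneg]
      refine (h1 self_mem_Ici ht' ht').trans ?_
      simpa [ex_zero hD.isOpen] using hc
  have hp : ∀ t ∈ Ici (0 : ℝ), 0 < jacK D (ex D ((t : ℂ) • fld W (I • rc V))) z := fun t ht =>
    jacK_ex_pos hD (hY.const_smul (t : ℂ)) (hs t ht)
  have hJ := hp 0 self_mem_Ici
  obtain ⟨C, hC0, h3⟩ := hW.jacK_phi_le hD
  obtain ⟨C₀, -, h4⟩ := exists_norm_le_nr hD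
  have hr : 0 < nr D z (fld W (rc V) z) := by
    refine (nr_nonneg hz.1 _).lt_of_ne fun h0 => hV0 (hz.2 V ?_)
    have h5 := h4 z hz.1 (fld W (rc V) z)
    rwa [← h0, mul_zero, norm_le_zero_iff] at h5
  set J := jacK D (ex D (((0 : ℝ) : ℂ) • fld W (I • rc V))) z
  set r := nr D z (fld W (rc V) z)
  have key : ∀ t : ℝ, 0 < t → J * r ^ 2 * t ^ 2 ≤ C * 2 ^ 2 := by
    intro t ht
    have htV := hC.smul_mem t ht.le V hV
    have h5 : J ≤ jacK D (phi D W (t • V)) z := by
      have h6 := (Real.log_le_log_iff hJ (hp t ht.le)).1 (h2 self_mem_Ici ht.le ht.le)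
      rwa [P5_smul] at h6
    have h6 := (h3 _ htV z hz.1).2 (rc V)
    have h7 := hW.strip hD (hC.add_mem _ htV _ htV) (by rw [sub_self]; exact hC.zero_mem) hz.1
    rw [rc_smul, fld_smul, Pi.smul_apply, nr_smul hD (phi_maps htV hz.1), Complex.norm_real,
      Real.norm_of_nonneg ht.le] at h7
    have h8 := nr_nonneg (phi_maps htV hz.1) (fld W (rc V) (phi D W (t • V) z))
    calc J * r ^ 2 * t ^ 2 ≤ jacK D (phi D W (t • V)) z * r ^ 2 * t ^ 2 := by gcongr
      _ ≤ C * nr D (phi D W (t • V) z) (fld W (rc V) (phi D W (t • V) z)) ^ 2 * t ^ 2 := by gcongr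
      _ = C * (t * nr D (phi D W (t • V) z) (fld W (rc V) (phi D W (t • V) z))) ^ 2 := by ring
      _ ≤ C * 2 ^ 2 := by gcongr
  have hq : 0 < J * r ^ 2 := by positivity
  have hb : 0 < C * 2 ^ 2 / (J * r ^ 2) := by positivity
  have h5 := key (C * 2 ^ 2 / (J * r ^ 2) + 1) (by positivity)
  rw [← le_div_iff₀' hq] at h5
  nlinarith

theorem ACtx.smul_cZ_mem (hD : BCD D) (hW : ACtx D W) {z : Fin n → ℂ} (hz : z ∈ freeSet D W)
    {s : ℝ} (hs : 0 < s) : s • cZ (acone D W) (mom D W z) ∈ interior (acone D W) := by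
  have hC := hW.pcone hD
  have h1 : (Homeomorph.smulOfNeZero s hs.ne') '' acone D W ⊆ acone D W := by
    rintro _ ⟨V, hV, rfl⟩
    exact hC.smul_mem s hs.le V hV
  refine interior_mono h1 ?_
  rw [← Homeomorph.image_interior]
  exact ⟨_, hC.cZ_mem_interior (hW.mom_mem hD hz), rfl⟩

theorem ACtx.Tm_mem (hD : BCD D) (hW : ACtx D W) {z : Fin n → ℂ} (hz : z ∈ freeSet D W)
    {s : ℝ} (hs : 0 < s) : Tm D W s z ∈ freeSet D W := by
  exact (hW.phi_mem_freeSet hD (interior_subset (hW.smul_cZ_mem hD hz hs)) hz.1).2 hz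

theorem ACtx.Tm_equivariant (hD : BCD D) (hW : ACtx D W) {γ : Equiv.Perm (Fin n → ℂ)}
    (hγ : γ ∈ autGroup D) {θ : Matrix (Fin N) (Fin N) ℝ} (hθ : Normalizes D W γ θ)
    {z : Fin n → ℂ} (hz : z ∈ freeSet D W) {s : ℝ} (hs : 0 < s) :
    Tm D W s (γ z) = γ (Tm D W s z) := by
  have h := ((hW.pcone hD).cZ_equivariant (hW.normalizes_det hD.isOpen hγ hθ)
    (hW.normalizes_mem hD.isOpen hγ hθ) (hW.mom_mem hD hz) (hW.mom_equivariant hD hγ hθ hz.1)).2
  rw [Tm, Tm, h, ← Matrix.mulVec_smul]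
  exact hW.phi_equivariant hD.isOpen hγ hθ (interior_subset (hW.smul_cZ_mem hD hz hs)) hz.1

end Pool.Agent.P.MP_2ff09b_gt
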