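import Pool.Agent.P.MP_2ff09b_gt.P5

/-! CVX-P6. The real Jacobian determinant of `Tm`.
Sketch. Φ (U, w) = ex D (fld W U) w is complex differentiable at (I • rc V, z) (master_fld), where
V = s • cZ (mom z). Its derivative in w is dφ = fderiv (phi V) z and its derivative in U along
I • rc b is dφ (fld (I • rc b) z): for small real t, ex_add_of_comm gives
phi (V + t b) z = phi V (ex (t • fld (I • rc b)) z). By the chain rule (hasFDerivAt_mom,
hasFDerivAt_cZ) the real derivative of Tm is dφ ∘ (1 + Ev ∘ Lm) with Ev b = fld (I • rc b) z and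
Lm = -s A ∘ (derivative of mom). det_one_add_comp_comm, and Lm (Ev b) = s A G b because
levi (I • I • ξ) = -levi ξ; det_restrictScalars_eq; LinearMap.det_toLin' for the matrix. -/

open Set MeasureTheory Complex Filter Topology Metric

noncomputable section

namespace Pool.Agent.P.MP_2ff09b_gt

variable {n N : ℕ} {D : Set (Fin n → ℂ)} {W : Fin N → (Fin n → ℂ) → Fin n → ℂ}

theorem P6_iota (N : ℕ) : ∃ ι : (Fin N → ℝ) →L[ℝ] (Fin N → ℂ), ∀ b, ι b = I • rc b :=
  ⟨ContinuousLinearMap.pi fun j => (I • Complex.ofRealCLM).comp (ContinuousLinearMap.proj j),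
    fun _ => rfl⟩

theorem P6_levi (hD : BCD D) {z : Fin n → ℂ} (hz : z ∈ D) (b : Fin N → ℝ) (j : Fin N) :
    levi D z (I • fld W (I • rc b) z) (W j z) = -(gram D W z).mulVec b j := by
  obtain ⟨B, hB⟩ := exists_levi_bilin (D := D) z
  have e : I • fld W (I • rc b) z = -∑ i, b i • W i z := by
    rw [fld_smul, Pi.smul_apply, smul_smul, I_mul_I, neg_one_smul]
    simp [fld]
  rw [e, levi_symm hD hz, hB, map_neg, map_sum]
  simp [gram, Matrix.mulVec, dotProduct, hB, mul_comm]

theorem ACtx.hasFDerivAt_Tm (hD : BCD D) (hW : ACtx D W) {z : Fin n → ℂ} (hz : z ∈ freeSet D W)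
    {s : ℝ} (hs : 0 < s) :
    ∃ T : (Fin n → ℂ) →L[ℝ] (Fin n → ℂ), HasFDerivAt (Tm D W s) T z ∧
      T.det = ‖(fderiv ℂ (phi D W (s • cZ (acone D W) (mom D W z))) z).det‖ ^ 2 *
        (1 + s • (cA (acone D W) (mom D W z) * gram D W z)).det := by
  have hO := hD.isOpen
  have hz' : z ∈ D := hz.1
  obtain ⟨ι, hι⟩ := P6_iota N
  obtain ⟨L₁, h1, e1⟩ := hW.hasFDerivAt_mom hD hz'
  obtain ⟨L₂, h2, e2⟩ := (hW.pcone hD).hasFDerivAt_cZ (hW.mom_mem hD hz)
  have hV : s • cZ (acone D W) (mom D W z) ∈ acone D W :=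
    interior_subset (hW.smul_cZ_mem hD hz hs)
  obtain ⟨V, eV⟩ : ∃ V : (Fin n → ℂ) → Fin N → ℝ, V = fun w => s • cZ (acone D W) (mom D W w) :=
    ⟨_, rfl⟩
  have eV' : ∀ w, s • cZ (acone D W) (mom D W w) = V w := fun w => by rw [eV]
  have h3 : HasFDerivAt V (s • L₂.comp L₁) z := by
    rw [eV]
    exact (h2.comp z h1).const_smul s
  have h4 : HasFDerivAt (fun w => (ι (V w - V z), w))
      ((ι.comp (s • L₂.comp L₁)).prod (ContinuousLinearMap.id ℝ _)) z :=
    (ι.hasFDerivAt.comp z (h3.sub_const (V z))).prodMk (hasFDerivAt_id z)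
  have g0 : (ι (V z - V z), z) = (0, z) := by simp
  have h0 : HasSol D (fld W 0) z := by
    rw [fld_zero]
    exact semiC_zero.2 z hz'
  have h5 := ((hasFDerivAt_ex_fld_zero hO hW.hol hz').hasFDerivAt.restrictScalars ℝ)
  rw [← g0] at h5
  have h6 := HasFDerivAt.comp z (f := fun w => (ι (V w - V z), w)) h5 h4
  rw [eV'] at hV ⊢
  have h7 := ((phi_hol hO hV).differentiableAt (hO.mem_nhds hz')).hasFDerivAt.restrictScalars ℝ
  have g1 : ((fun x : (Fin N → ℂ) × (Fin n → ℂ) => ex D (fld W x.1) x.2) ∘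
      fun w => (ι (V w - V z), w)) z = z := by
    simp only [Function.comp_apply, sub_self, map_zero, fld_zero, ex_zero hO]
  have h8 := HasFDerivAt.comp z ((congrArg (HasFDerivAt _ _) g1).mpr h7) h6
  have h9 : Tm D W s =ᶠ[𝓝 z] phi D W (V z) ∘
      (fun x : (Fin N → ℂ) × (Fin n → ℂ) => ex D (fld W x.1) x.2) ∘ fun w => (ι (V w - V z), w) := by
    have t := h4.continuousAt.tendsto
    rw [g0] at t
    filter_upwards [t.eventually (master_fld hO hW.hol h0 0).1] with w hw
    have k := (ex_add_of_comm hO hV (fld_hol hW.hol _)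
      (fun y hy => hW.lieBracket_fld hO _ _ hy) hw).2
    rw [← fld_add, hι, rc_sub, ← smul_add, add_sub_cancel] at k
    simp only [Function.comp_apply, Tm, eV', phi, hι, rc_sub]
    exact k
  refine ⟨_, h8.congr_of_eventuallyEq h9, ?_⟩
  have e3 : (((fldL W z).coprod (ContinuousLinearMap.id ℂ (Fin n → ℂ))).restrictScalars ℝ).comp
      ((ι.comp (s • L₂.comp L₁)).prod (ContinuousLinearMap.id ℝ _)) =
      ContinuousLinearMap.id ℝ _ + (((fldL W z).restrictScalars ℝ).comp ι).comp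
        (s • L₂.comp L₁) := by
    ext1 ξ
    simp [add_comm]
  rw [e3, ← det_restrictScalars_eq, ContinuousLinearMap.det, ContinuousLinearMap.toLinearMap_comp,
    LinearMap.det_comp]
  congr 1
  refine (det_one_add_comp_comm _ _).trans ?_
  rw [← LinearMap.det_toLin', ContinuousLinearMap.det]
  congr 1
  refine LinearMap.ext fun b => ?_
  have e4 : L₁ (fld W (I • rc b) z) = -(gram D W z).mulVec b := by
    funext j
    rw [e1, P6_levi hD hz']
    rfl
  rw [fld_smul, Pi.smul_apply] at e4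
  simp [hι, e2, e4, Matrix.mulVec_neg]

end Pool.Agent.P.MP_2ff09b_gt
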