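import Pool.Agent.P.MP_2ff09b_gt.Basic

/-! Elementary facts about the working definitions. -/

open Set MeasureTheory Complex Filter Topology Metric

noncomputable section

namespace Pool.Agent.P.MP_2ff09b_gt

variable {E : Type*} [NormedAddCommGroup E] [NormedSpace ℂ E] {D : Set E}

theorem aut_fix {φ : Equiv.Perm E} (h : φ ∈ autGroup D) {z : E} (hz : z ∉ D) : φ z = z :=
  h.1 z hz

theorem aut_hol {φ : Equiv.Perm E} (h : φ ∈ autGroup D) : DifferentiableOn ℂ φ D := h.2.1

theorem aut_hol_symm {φ : Equiv.Perm E} (h : φ ∈ autGroup D) : DifferentiableOn ℂ φ.symm D :=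
  h.2.2

theorem aut_symm {φ : Equiv.Perm E} (h : φ ∈ autGroup D) : φ.symm ∈ autGroup D :=
  (autGroup D).inv_mem h

theorem aut_maps {φ : Equiv.Perm E} (h : φ ∈ autGroup D) : MapsTo φ D D := fun z hz => by
  by_contra h'
  have := φ.injective (h.1 _ h')
  exact h' (this.symm ▸ hz)

theorem aut_maps_symm {φ : Equiv.Perm E} (h : φ ∈ autGroup D) : MapsTo φ.symm D D :=
  aut_maps (aut_symm h)

theorem aut_mem_iff {φ : Equiv.Perm E} (h : φ ∈ autGroup D) {z : E} : φ z ∈ D ↔ z ∈ D :=
  ⟨fun hz => by simpa using aut_maps_symm h hz, fun hz => aut_maps h hz⟩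

theorem aut_image {φ : Equiv.Perm E} (h : φ ∈ autGroup D) : φ '' D = D :=
  Subset.antisymm (aut_maps h).image_subset fun z hz =>
    ⟨φ.symm z, aut_maps_symm h hz, φ.apply_symm_apply z⟩

theorem aut_differentiableAt (hD : IsOpen D) {φ : Equiv.Perm E} (h : φ ∈ autGroup D) {z : E}
    (hz : z ∈ D) : DifferentiableAt ℂ φ z :=
  (aut_hol h).differentiableAt (hD.mem_nhds hz)

theorem aut_fderiv_symm_apply (hD : IsOpen D) {φ : Equiv.Perm E} (h : φ ∈ autGroup D) {z : E}
    (hz : z ∈ D) (v : E) : fderiv ℂ φ.symm (φ z) (fderiv ℂ φ z v) = v := by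
  have h1 := aut_differentiableAt hD h hz
  have h2 := aut_differentiableAt hD (aut_symm h) (aut_maps h hz)
  have h3 := fderiv_comp z h2 h1
  have h4 : (φ.symm ∘ φ : E → E) = id := funext fun x => φ.symm_apply_apply x
  rw [h4, fderiv_id] at h3
  have := congrArg (fun T : E →L[ℂ] E => T v) h3
  simpa using this.symm

theorem aut_fderiv_apply_symm (hD : IsOpen D) {φ : Equiv.Perm E} (h : φ ∈ autGroup D) {z : E}
    (hz : z ∈ D) (v : E) : fderiv ℂ φ z (fderiv ℂ φ.symm (φ z) v) = v := by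
  have := aut_fderiv_symm_apply hD (aut_symm h) (aut_maps h hz) v
  simpa using this

theorem aut_measurable [MeasurableSpace E] [BorelSpace E] (hD : IsOpen D) {φ : Equiv.Perm E}
    (h : φ ∈ autGroup D) : Measurable φ := by
  classical
  have h1 : (φ : E → E) = D.piecewise φ id := by
    funext z
    by_cases hz : z ∈ D
    · simp [hz]
    · simp [hz, h.1 z hz]
  rw [h1]
  exact ContinuousOn.measurable_piecewise (aut_hol h).continuousOn continuousOn_id
    hD.measurableSet

/-- Two holomorphic self-maps of `D` inverse to each other give an automorphism. -/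
theorem exists_aut {f g : E → E} (hf : DifferentiableOn ℂ f D) (hg : DifferentiableOn ℂ g D)
    (mf : MapsTo f D D) (mg : MapsTo g D D) (h1 : ∀ z ∈ D, g (f z) = z)
    (h2 : ∀ z ∈ D, f (g z) = z) :
    ∃ φ ∈ autGroup D, (∀ z ∈ D, φ z = f z) ∧ ∀ z ∈ D, φ.symm z = g z := by
  classical
  refine ⟨⟨D.piecewise f id, D.piecewise g id, fun z => ?_, fun z => ?_⟩, ⟨fun z hz => ?_, ?_, ?_⟩,
    fun z hz => ?_, fun z hz => ?_⟩
  · by_cases hz : z ∈ D
    · simp [hz, mf hz, h1 z hz]
    · simp [hz]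
  · by_cases hz : z ∈ D
    · simp [hz, mg hz, h2 z hz]
    · simp [hz]
  · simp [hz]
  · exact hf.congr fun z hz => by simp [hz]
  · exact hg.congr fun z hz => by simp [hz]
  · simp [hz]
  · simp [hz]

theorem ex_of_not_mem {Y : E → E} {z : E} (hz : z ∉ D) : ex D Y z = z := by
  have : ¬ HasSol D Y z := fun ⟨c, h0, h⟩ => hz (h0 ▸ (h 0 ⟨le_rfl, zero_le_one⟩).1)
  simp [ex, this]

theorem HasSol.mem {Y : E → E} {z : E} (h : HasSol D Y z) : z ∈ D := by
  obtain ⟨c, h0, h⟩ := h
  exact h0 ▸ (h 0 ⟨le_rfl, zero_le_one⟩).1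

theorem HasSol.ex_mem {Y : E → E} {z : E} (h : HasSol D Y z) : ex D Y z ∈ D := by
  have h1 : ex D Y z = h.choose 1 := by simp [ex, h]
  rw [h1]
  exact (h.choose_spec.2 1 ⟨zero_le_one, le_rfl⟩).1

theorem SemiC.maps {Y : E → E} (h : SemiC D Y) : MapsTo (ex D Y) D D :=
  fun z hz => (h.2 z hz).ex_mem

theorem isSol_congr {Y Y' : E → E} (h : ∀ z ∈ D, Y z = Y' z) {z : E} {c : ℝ → E} :
    IsSol D Y z c ↔ IsSol D Y' z c := by
  constructor
  · rintro ⟨h0, h1⟩
    exact ⟨h0, fun t ht => ⟨(h1 t ht).1, h _ (h1 t ht).1 ▸ (h1 t ht).2⟩⟩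
  · rintro ⟨h0, h1⟩
    exact ⟨h0, fun t ht => ⟨(h1 t ht).1, (h _ (h1 t ht).1).symm ▸ (h1 t ht).2⟩⟩

theorem hasSol_congr {Y Y' : E → E} (h : ∀ z ∈ D, Y z = Y' z) {z : E} :
    HasSol D Y z ↔ HasSol D Y' z := exists_congr fun _ => isSol_congr h

theorem ex_congr {Y Y' : E → E} (h : ∀ z ∈ D, Y z = Y' z) : ex D Y = ex D Y' := by
  have h1 : IsSol D Y = IsSol D Y' := by
    funext z c
    exact propext (isSol_congr h)
  funext z
  unfold ex HasSol
  rw [h1]

theorem SemiC.congr {Y Y' : E → E} (hY : SemiC D Y) (h : ∀ z ∈ D, Y z = Y' z) : SemiC D Y' :=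
  ⟨hY.1.congr fun z hz => (h z hz).symm, fun z hz => (hasSol_congr h).1 (hY.2 z hz)⟩

section Fld
variable {N : ℕ} (W : Fin N → E → E)

theorem fld_zero : fld W 0 = 0 := by
  funext z; simp [fld]

theorem fld_add (U V : Fin N → ℂ) : fld W (U + V) = fld W U + fld W V := by
  funext z; simp [fld, add_smul, Finset.sum_add_distrib]

theorem fld_smul (c : ℂ) (U : Fin N → ℂ) : fld W (c • U) = c • fld W U := by
  funext z; simp [fld, Finset.smul_sum, mul_smul]

theorem fld_neg (U : Fin N → ℂ) : fld W (-U) = -fld W U := by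
  funext z; simp [fld, Finset.sum_neg_distrib]

theorem fld_sub (U V : Fin N → ℂ) : fld W (U - V) = fld W U - fld W V := by
  funext z; simp [fld, sub_smul, Finset.sum_sub_distrib]

theorem fld_single (j : Fin N) : fld W (Pi.single j 1) = W j := by
  funext z
  simp [fld, Pi.single_apply, ite_smul, Finset.sum_ite_eq']

theorem fld_sum {ι : Type*} (s : Finset ι) (U : ι → Fin N → ℂ) (z : E) :
    fld W (∑ i ∈ s, U i) z = ∑ i ∈ s, fld W (U i) z := by
  simp only [fld, Finset.sum_apply, Finset.sum_smul]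
  exact Finset.sum_comm

/-- Evaluation of the fields at a point, as a linear map. -/
def fldL (z : E) : (Fin N → ℂ) →L[ℂ] E :=
  LinearMap.toContinuousLinearMap
    { toFun := fun U => fld W U z
      map_add' := fun U V => congrFun (fld_add W U V) z
      map_smul' := fun c U => congrFun (fld_smul W c U) z }

@[simp] theorem fldL_apply (z : E) (U : Fin N → ℂ) : fldL W z U = fld W U z := rfl

variable {W}

theorem fld_hol (hW : ∀ j, DifferentiableOn ℂ (W j) D) (U : Fin N → ℂ) :
    DifferentiableOn ℂ (fld W U) D := by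
  unfold fld
  exact DifferentiableOn.fun_sum fun j _ => (hW j).const_smul (U j)

theorem fld_hol_prod (hW : ∀ j, DifferentiableOn ℂ (W j) D) :
    DifferentiableOn ℂ (fun x : (Fin N → ℂ) × E => fld W x.1 x.2) (univ ×ˢ D) := by
  unfold fld
  refine DifferentiableOn.fun_sum fun j _ => DifferentiableOn.smul (by fun_prop) ?_
  exact (hW j).comp differentiableOn_snd fun x hx => hx.2

end Fld

section Rc
variable {N : ℕ}

@[simp] theorem rc_apply (V : Fin N → ℝ) (j : Fin N) : rc V j = (V j : ℂ) := rfl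

theorem rc_zero : rc (0 : Fin N → ℝ) = 0 := by funext j; simp

theorem rc_add (V V' : Fin N → ℝ) : rc (V + V') = rc V + rc V' := by funext j; simp

theorem rc_sub (V V' : Fin N → ℝ) : rc (V - V') = rc V - rc V' := by funext j; simp

theorem rc_neg (V : Fin N → ℝ) : rc (-V) = -rc V := by funext j; simp

theorem rc_smul (t : ℝ) (V : Fin N → ℝ) : rc (t • V) = (t : ℂ) • rc V := by funext j; simp

theorem star_rc (V : Fin N → ℝ) : star (rc V) = rc V := by funext j; simp

theorem rc_single (j : Fin N) : rc (Pi.single j 1 : Fin N → ℝ) = Pi.single j 1 := by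
  funext i
  by_cases h : i = j
  · subst h; simp
  · simp [h]

theorem rc_injective : Function.Injective (rc : (Fin N → ℝ) → Fin N → ℂ) := fun V V' h => by
  funext j
  simpa using congrFun h j

theorem norm_rc (V : Fin N → ℝ) : ‖rc V‖ = ‖V‖ := by
  simp [Pi.norm_def, rc]

theorem exists_rc_of_star {U : Fin N → ℂ} (h : star U = U) : ∃ V, U = rc V :=
  ⟨fun j => (U j).re, funext fun j =>
    (Complex.conj_eq_iff_re.1 (congrFun h j)).symm⟩

theorem exists_re_im (U : Fin N → ℂ) :
    ∃ A B : Fin N → ℂ, star A = A ∧ star B = B ∧ ‖A‖ ≤ ‖U‖ ∧ ‖B‖ ≤ ‖U‖ ∧ U = A + I • B ∧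
      star U = A - I • B := by
  refine ⟨rc fun j => (U j).re, rc fun j => (U j).im, star_rc _, star_rc _, ?_, ?_, ?_, ?_⟩
  · rw [norm_rc]
    exact (pi_norm_le_iff_of_nonneg (norm_nonneg _)).2 fun j =>
      (abs_re_le_norm _).trans (norm_le_pi_norm U j)
  · rw [norm_rc]
    exact (pi_norm_le_iff_of_nonneg (norm_nonneg _)).2 fun j =>
      (abs_im_le_norm _).trans (norm_le_pi_norm U j)
  · funext j
    apply Complex.ext <;> simp
  · funext j
    apply Complex.ext <;> simp

end Rc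

end Pool.Agent.P.MP_2ff09b_gt
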